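import Pool.Agent.Work.MP_b0c12c_nt_shift.WSa

/-!
# Block WS: weighted Selberg sieve
-/

set_option autoImplicit false

open Finset Nat ArithmeticFunction BoundingSieve
open Pool.Agent.Work.MP_484fb8_nt (GSum selberg_upper_bound)
open Pool.Agent.Work.MP_b0c12c_nt_helper41 (FF FF_le)

namespace Pool.Agent.Work.MP_b0c12c_nt_shift.WS

/-- sum over the divisors as a product -/
theorem sum_divisors_prod (P : Finset ℕ) (hP : ∀ p ∈ P, p.Prime) (f : ℕ → ℝ) :
    ∑ l ∈ (∏ p ∈ P, p).divisors, ∏ p ∈ l.primeFactors, f p = ∏ p ∈ P, (1 + f p) := by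
  have h := (ArithmeticFunction.IsMultiplicative.prodPrimeFactors
    f).prodPrimeFactors_one_add_of_squarefree (sqf P hP)
  rw [Nat.primeFactors_prod hP] at h
  have h1 : ∏ p ∈ P, (1 + f p) =
      ∏ p ∈ P, (1 + (ArithmeticFunction.prodPrimeFactors f) p) := by
    apply prod_congr rfl
    intro p hp
    have hp' := hP p hp
    rw [ArithmeticFunction.prodPrimeFactors_apply hp'.ne_zero, hp'.primeFactors, prod_singleton]
  rw [h1, h]
  apply sum_congr rfl
  intro l hl
  have : l ≠ 0 := (Nat.pos_of_mem_divisors hl).ne'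
  rw [ArithmeticFunction.prodPrimeFactors_apply this]

/-- `∏ ν / (1 - ν)` -/
noncomputable def gm (g : ℕ → ℕ → ℝ) (l : ℕ) : ℝ :=
  ∏ p ∈ l.primeFactors, nuf g p / (1 - nuf g p)

section

variable {P : Finset ℕ} {g : ℕ → ℕ → ℝ} (hP : ∀ p ∈ P, p.Prime)
    (h0 : ∀ p ∈ P, 0 < nuf g p) (h1 : ∀ p ∈ P, nuf g p < 1)

include hP in
theorem mem_of_mem_primeFactors {l p : ℕ} (hl : l ∣ ∏ p ∈ P, p) (hp : p ∈ l.primeFactors) :
    p ∈ P := by
  have := Nat.primeFactors_mono hl (sqf P hP).ne_zero hp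
  rwa [Nat.primeFactors_prod hP] at this

include hP h0 h1 in
theorem gm_nonneg {l : ℕ} (hl : l ∣ ∏ p ∈ P, p) : 0 ≤ gm g l := by
  apply prod_nonneg
  intro p hp
  have hpP := mem_of_mem_primeFactors hP hl hp
  have a := h0 p hpP
  have b := h1 p hpP
  exact div_nonneg a.le (by linarith)

theorem GSum_eq (M N D : ℕ) : GSum (sv P g M N hP h0 h1) D =
    ∑ l ∈ (∏ p ∈ P, p).divisors with l ≤ D, gm g l := by
  unfold GSum
  apply sum_congr rfl
  intro l hl
  rw [mem_filter] at hl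
  have hl1 : l ∣ ∏ p ∈ P, p := Nat.dvd_of_mem_divisors hl.1
  have hl0 : l ≠ 0 := ne_zero_of_dvd_ne_zero (sqf P hP).ne_zero hl1
  rw [selbergTerms_apply, gm]
  have e1 : (sv P g M N hP h0 h1).nu l = ∏ p ∈ l.primeFactors, nuf g p := by
    change ArithmeticFunction.prodPrimeFactors (nuf g) l = _
    rw [ArithmeticFunction.prodPrimeFactors_apply hl0]
  rw [e1, ← prod_mul_distrib]
  apply prod_congr rfl
  intro p hp
  have hp' := Nat.prime_of_mem_primeFactors hp
  have e2 : (sv P g M N hP h0 h1).nu p = nuf g p := by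
    change ArithmeticFunction.prodPrimeFactors (nuf g) p = _
    rw [ArithmeticFunction.prodPrimeFactors_apply hp'.ne_zero, hp'.primeFactors, prod_singleton]
  rw [e2, div_eq_mul_inv]

include hP h0 h1 in
theorem tail_le {D : ℕ} (hD : 1 ≤ D) {a K : ℝ} (ha : 0 < a) (hK : ∀ p ∈ P, nuf g p ≤ K / p) :
    ∑ l ∈ (∏ p ∈ P, p).divisors with ¬ l ≤ D, gm g l ≤
      (∏ p ∈ P, (1 + nuf g p / (1 - nuf g p))) *
        Real.exp (-(a * Real.log D) + ∑ p ∈ P, K * (((p : ℝ) ^ a - 1) / p)) := by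
  have hD0 : (0 : ℝ) < D := by exact_mod_cast hD
  have e1 : ∑ l ∈ (∏ p ∈ P, p).divisors with ¬ l ≤ D, gm g l ≤
      ∑ l ∈ (∏ p ∈ P, p).divisors, Real.exp (-(a * Real.log D)) *
        ∏ p ∈ l.primeFactors, (p : ℝ) ^ a * (nuf g p / (1 - nuf g p)) := by
    refine le_trans (sum_le_sum fun l hl => ?_)
      (sum_le_sum_of_subset_of_nonneg (filter_subset _ _) fun l hl _ => ?_)
    · rw [mem_filter, not_le] at hl
      have hld : l ∣ ∏ p ∈ P, p := Nat.dvd_of_mem_divisors hl.1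
      have hlsq : Squarefree l := (sqf P hP).squarefree_of_dvd hld
      have e1 : ∏ p ∈ l.primeFactors, (p : ℝ) ^ a * (nuf g p / (1 - nuf g p)) =
          (l : ℝ) ^ a * gm g l := by
        rw [gm, prod_mul_distrib, Real.finsetProd_rpow _ _ (fun p _ => Nat.cast_nonneg p),
          ← Nat.cast_prod, Nat.prod_primeFactors_of_squarefree hlsq]
      rw [e1, ← mul_assoc]
      have e3 : 1 ≤ Real.exp (-(a * Real.log D)) * (l : ℝ) ^ a := by
        have hl0 : (0 : ℝ) < l := lt_trans hD0 (by exact_mod_cast hl.2)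
        rw [Real.rpow_def_of_pos hl0, ← Real.exp_add]
        apply Real.one_le_exp
        have : Real.log D ≤ Real.log l := Real.log_le_log hD0 (by exact_mod_cast hl.2.le)
        nlinarith
      calc gm g l = 1 * gm g l := (one_mul _).symm
        _ ≤ _ := mul_le_mul_of_nonneg_right e3 (gm_nonneg hP h0 h1 hld)
    · apply mul_nonneg (Real.exp_pos _).le
      apply prod_nonneg
      intro p hp
      have hpP := mem_of_mem_primeFactors hP (Nat.dvd_of_mem_divisors hl) hp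
      have a := h0 p hpP
      have b := h1 p hpP
      exact mul_nonneg (by positivity) (div_nonneg a.le (by linarith))
  refine e1.trans ?_
  rw [← mul_sum, sum_divisors_prod P hP, Real.exp_add, Real.exp_sum]
  have h2 : ∏ p ∈ P, (1 + (p : ℝ) ^ a * (nuf g p / (1 - nuf g p))) ≤
      (∏ p ∈ P, (1 + nuf g p / (1 - nuf g p))) *
        ∏ p ∈ P, Real.exp (K * (((p : ℝ) ^ a - 1) / p)) := by
    rw [← prod_mul_distrib]
    apply prod_le_prod
    · intro p hp
      have a0 := h0 p hp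
      have b0 := h1 p hp
      have := mul_nonneg (by positivity : 0 ≤ (p : ℝ) ^ a)
        (div_nonneg a0.le (by linarith : 0 ≤ 1 - nuf g p))
      linarith
    · intro p hp
      have a0 := h0 p hp
      have b0 := h1 p hp
      have hp1 : (1 : ℝ) ≤ p := by exact_mod_cast (hP p hp).one_lt.le
      have hp2 : 1 - nuf g p ≠ 0 := by linarith
      have hpa : 0 ≤ (p : ℝ) ^ a - 1 := by
        have := Real.one_le_rpow hp1 ha.le
        linarith
      have e : 1 + (p : ℝ) ^ a * (nuf g p / (1 - nuf g p)) =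
          (1 + nuf g p / (1 - nuf g p)) * (1 + ((p : ℝ) ^ a - 1) * nuf g p) := by
        field_simp; ring
      rw [e]
      have h3 : 0 ≤ 1 + nuf g p / (1 - nuf g p) := by
        have := div_nonneg a0.le (by linarith : 0 ≤ 1 - nuf g p)
        linarith
      apply mul_le_mul_of_nonneg_left _ h3
      have h4 := Real.add_one_le_exp (K * (((p : ℝ) ^ a - 1) / p))
      have h5 : ((p : ℝ) ^ a - 1) * nuf g p ≤ K * (((p : ℝ) ^ a - 1) / p) := by
        calc ((p : ℝ) ^ a - 1) * nuf g p ≤ ((p : ℝ) ^ a - 1) * (K / p) :=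
              mul_le_mul_of_nonneg_left (hK p hp) hpa
          _ = _ := by ring
      linarith
  calc Real.exp (-(a * Real.log D)) * ∏ p ∈ P, (1 + (p : ℝ) ^ a * (nuf g p / (1 - nuf g p))) ≤
      Real.exp (-(a * Real.log D)) * ((∏ p ∈ P, (1 + nuf g p / (1 - nuf g p))) *
        ∏ p ∈ P, Real.exp (K * (((p : ℝ) ^ a - 1) / p))) :=
        mul_le_mul_of_nonneg_left h2 (Real.exp_pos _).le
    _ = _ := by ring

theorem exp_convex {t : ℝ} (h0 : 0 ≤ t) (h1 : t ≤ 1) :
    Real.exp t - 1 ≤ t * (Real.exp 1 - 1) := by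
  have h := convexOn_exp.2 (Set.mem_univ (0:ℝ)) (Set.mem_univ 1) (sub_nonneg.2 h1) h0 (by ring)
  simp only [smul_eq_mul, mul_zero, zero_add, Real.exp_zero, mul_one] at h
  linarith

/-- the Rankin sum -/
theorem rankin {P : Finset ℕ} {W : ℕ} (hW : 3 ≤ W) (hP : ∀ p ∈ P, p.Prime ∧ p ≤ W) :
    ∑ p ∈ P, ((p : ℝ) ^ (1 / Real.log W) - 1) / p ≤ 7 * (Real.exp 1 - 1) := by
  have hlz : 1 ≤ Real.log W := by
    rw [Real.le_log_iff_exp_le (by positivity)]
    have h3 : (3 : ℝ) ≤ W := by exact_mod_cast hW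
    have := Real.exp_one_lt_d9
    linarith
  have hlz0 : 0 < Real.log W := by linarith
  have he : 0 ≤ Real.exp 1 - 1 := by
    have := Real.one_le_exp (zero_le_one : (0 : ℝ) ≤ 1); linarith
  calc ∑ p ∈ P, ((p : ℝ) ^ (1 / Real.log W) - 1) / p ≤
      ∑ p ∈ P, (Real.exp 1 - 1) / Real.log W * (Real.log p / p) := by
        apply sum_le_sum
        intro p hp
        obtain ⟨hp', hpz⟩ := hP p hp
        have hp0 : (0 : ℝ) < p := by exact_mod_cast hp'.pos
        have hlp : 0 ≤ Real.log p := Real.log_nonneg (by exact_mod_cast hp'.one_lt.le)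
        have hlpz : Real.log p ≤ Real.log W := Real.log_le_log hp0 (by exact_mod_cast hpz)
        have h4 := exp_convex (t := Real.log p / Real.log W) (by positivity)
          (by rw [div_le_one hlz0]; exact hlpz)
        have h5 : (p : ℝ) ^ (1 / Real.log W) = Real.exp (Real.log p / Real.log W) := by
          rw [Real.rpow_def_of_pos hp0]; congr 1; ring
        rw [h5]
        calc (Real.exp (Real.log p / Real.log W) - 1) / p ≤
            (Real.log p / Real.log W * (Real.exp 1 - 1)) / p :=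
              div_le_div_of_nonneg_right h4 hp0.le
          _ = _ := by ring
    _ = (Real.exp 1 - 1) / Real.log W * ∑ p ∈ P, Real.log p / p := by rw [mul_sum]
    _ ≤ (Real.exp 1 - 1) / Real.log W * (Real.log W + 6) := by
        apply mul_le_mul_of_nonneg_left _ (by positivity)
        refine le_trans ?_ (FF_le (by omega : 1 ≤ W))
        rw [FF]
        apply sum_le_sum_of_subset_of_nonneg
        · intro p hp
          obtain ⟨hp', hpz⟩ := hP p hp
          rw [mem_filter, mem_Icc]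
          exact ⟨⟨hp'.one_lt.le, hpz⟩, hp'⟩
        · intro p hp _
          have : 0 ≤ Real.log p := Real.log_natCast_nonneg p
          positivity
    _ = (Real.exp 1 - 1) * (1 + 6 / Real.log W) := by field_simp
    _ ≤ (Real.exp 1 - 1) * 7 := by
        apply mul_le_mul_of_nonneg_left _ he
        have : 6 / Real.log W ≤ 6 := by
          rw [div_le_iff₀ hlz0]; linarith
        linarith
    _ = _ := by ring

include hP h0 h1 in
/-- lower bound for `G(D)`, `D = W ^ (14 K)` -/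
theorem G_ge {K W : ℕ} (hK1 : 1 ≤ K) (hW : 3 ≤ W) (hPW : ∀ p ∈ P, p ≤ W)
    (hK : ∀ p ∈ P, nuf g p ≤ K / p) :
    (∏ p ∈ P, (1 + nuf g p / (1 - nuf g p))) / 2 ≤
      ∑ l ∈ (∏ p ∈ P, p).divisors with l ≤ W ^ (14 * K), gm g l := by
  set V := ∏ p ∈ P, (1 + nuf g p / (1 - nuf g p)) with hV
  have hV0 : 0 ≤ V := by
    apply prod_nonneg
    intro p hp
    have a := h0 p hp
    have b := h1 p hp
    have := div_nonneg a.le (by linarith : 0 ≤ 1 - nuf g p)
    linarith
  have hlz : 1 ≤ Real.log W := by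
    rw [Real.le_log_iff_exp_le (by positivity)]
    have h3 : (3 : ℝ) ≤ W := by exact_mod_cast hW
    have := Real.exp_one_lt_d9
    linarith
  have hlz0 : 0 < Real.log W := by linarith
  have hD : 1 ≤ W ^ (14 * K) := Nat.one_le_pow _ _ (by omega)
  have t1 := tail_le hP h0 h1 hD (a := 1 / Real.log W) (K := K) (by positivity) hK
  have t2 : ∑ l ∈ (∏ p ∈ P, p).divisors with l ≤ W ^ (14 * K), gm g l +
      ∑ l ∈ (∏ p ∈ P, p).divisors with ¬ l ≤ W ^ (14 * K), gm g l = V := by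
    rw [sum_filter_add_sum_filter_not]
    exact sum_divisors_prod P hP _
  have t3 : -(1 / Real.log W * Real.log ((W ^ (14 * K) : ℕ) : ℝ)) +
      ∑ p ∈ P, (K : ℝ) * (((p : ℝ) ^ (1 / Real.log W) - 1) / p) ≤ -1 := by
    have r := rankin hW (P := P) fun p hp => ⟨hP p hp, hPW p hp⟩
    rw [← mul_sum]
    push_cast
    rw [Real.log_pow]
    have e1 : 1 / Real.log W * ((14 * K : ℕ) * Real.log W) = 14 * K := by
      field_simp
      push_cast
      ring
    rw [e1]
    have hK0 : (1 : ℝ) ≤ K := by exact_mod_cast hK1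
    have r2 : (K : ℝ) * ∑ p ∈ P, ((p : ℝ) ^ (1 / Real.log W) - 1) / p ≤
        K * (7 * (Real.exp 1 - 1)) := mul_le_mul_of_nonneg_left r (by linarith)
    have := Real.exp_one_lt_d9
    nlinarith
  have t4 : Real.exp (-(1 / Real.log W * Real.log ((W ^ (14 * K) : ℕ) : ℝ)) +
      ∑ p ∈ P, (K : ℝ) * (((p : ℝ) ^ (1 / Real.log W) - 1) / p)) ≤ 1 / 2 := by
    refine (Real.exp_le_exp.2 t3).trans ?_
    rw [Real.exp_neg, inv_eq_one_div]
    apply one_div_le_one_div_of_le (by norm_num)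
    have := Real.add_one_le_exp (1 : ℝ)
    linarith
  have t5 := mul_le_mul_of_nonneg_left t4 hV0
  linarith

theorem prod_Icc_one_add (W : ℕ) : ∏ m ∈ Icc 1 W, (1 + 1 / (m : ℝ)) = W + 1 := by
  induction W with
  | zero => simp
  | succ n ih =>
    rw [prod_Icc_succ_top (by omega), ih]
    push_cast
    have : (n : ℝ) + 1 ≠ 0 := by positivity
    field_simp

include hP h0 h1 in
theorem V_le {K W : ℕ} (hW : 3 ≤ W) (hPW : ∀ p ∈ P, p ≤ W)
    (hPK : ∀ p ∈ P, 2 * K < p) (hK : ∀ p ∈ P, nuf g p ≤ K / p) :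
    ∏ p ∈ P, (1 + nuf g p / (1 - nuf g p)) ≤ (W : ℝ) ^ (4 * K) := by
  have hW3 : (3 : ℝ) ≤ W := by exact_mod_cast hW
  have e1 : ∀ p ∈ P, 1 + nuf g p / (1 - nuf g p) ≤ (1 + 1 / (p : ℝ)) ^ (2 * K) := by
    intro p hp
    have hp0 : (0 : ℝ) < p := by exact_mod_cast (hP p hp).pos
    have a := h0 p hp
    have b := h1 p hp
    have c := hK p hp
    have hKp : (K : ℝ) / p ≤ 1 / 2 := by
      rw [div_le_div_iff₀ hp0 (by norm_num)]
      have : (2 * K : ℝ) < p := by exact_mod_cast hPK p hp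
      linarith
    have hb := one_add_mul_le_pow (a := 1 / (p : ℝ)) (by
      have : 0 < 1 / (p : ℝ) := by positivity
      linarith) (2 * K)
    refine le_trans ?_ hb
    have e2 : 1 + nuf g p / (1 - nuf g p) = 1 / (1 - nuf g p) := by
      have : 1 - nuf g p ≠ 0 := by linarith
      field_simp
      ring
    rw [e2, div_le_iff₀ (by linarith)]
    have e3 : ((2 * K : ℕ) : ℝ) * (1 / (p : ℝ)) = 2 * (K / p) := by push_cast; ring
    rw [e3]
    have hKp0 : 0 ≤ (K : ℝ) / p := by positivity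
    calc (1 : ℝ) ≤ (1 + 2 * (K / p)) * (1 - K / p) := by nlinarith
      _ ≤ (1 + 2 * (K / p)) * (1 - nuf g p) := by
        apply mul_le_mul_of_nonneg_left _ (by positivity)
        linarith
  calc ∏ p ∈ P, (1 + nuf g p / (1 - nuf g p)) ≤ ∏ p ∈ P, (1 + 1 / (p : ℝ)) ^ (2 * K) := by
        apply prod_le_prod _ e1
        intro p hp
        have a := h0 p hp
        have b := h1 p hp
        have := div_nonneg a.le (by linarith : 0 ≤ 1 - nuf g p)
        linarith
    _ = (∏ p ∈ P, (1 + 1 / (p : ℝ))) ^ (2 * K) := by rw [prod_pow]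
    _ ≤ (∏ m ∈ Icc 1 W, (1 + 1 / (m : ℝ))) ^ (2 * K) := by
        apply pow_le_pow_left₀ (prod_nonneg fun p _ => by positivity)
        have hsub : P ⊆ Icc 1 W := fun p hp => mem_Icc.2 ⟨(hP p hp).pos, hPW p hp⟩
        rw [← prod_sdiff hsub]
        have e3 : (1 : ℝ) ≤ ∏ m ∈ Icc 1 W \ P, (1 + 1 / (m : ℝ)) := by
          have : ∏ m ∈ Icc 1 W \ P, (1 : ℝ) ≤ ∏ m ∈ Icc 1 W \ P, (1 + 1 / (m : ℝ)) := by
            apply prod_le_prod
            · intro m _; exact zero_le_one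
            · intro m _
              have : 0 ≤ 1 / (m : ℝ) := by positivity
              linarith
          simpa using this
        exact le_mul_of_one_le_left (prod_nonneg fun p _ => by positivity) e3
    _ = ((W : ℝ) + 1) ^ (2 * K) := by rw [prod_Icc_one_add]
    _ ≤ ((W : ℝ) ^ 2) ^ (2 * K) := by
        apply pow_le_pow_left₀ (by positivity)
        nlinarith
    _ = _ := by rw [← pow_mul]; congr 1; ring

end

/-- The sieve bound when all densities are positive. -/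
theorem main_pos {K W N M : ℕ} {P : Finset ℕ} {g : ℕ → ℕ → ℝ} (hK1 : 1 ≤ K) (hW : 3 ≤ W)
    (hP : ∀ p ∈ P, p.Prime ∧ 2 * K < p ∧ p ≤ W) (hN : W ^ (60 * K) ≤ N)
    (hg : ∀ p ∈ P, ∀ c < p, 0 ≤ g p c ∧ g p c ≤ 1)
    (h0 : ∀ p ∈ P, 0 < ∑ c ∈ range p, (1 - g p c))
    (hgK : ∀ p ∈ P, ∑ c ∈ range p, (1 - g p c) ≤ K) :
    ∑ k ∈ Ioc M (M + N), ∏ p ∈ P, g p (k % p) ≤ 3 * N * ∏ p ∈ P, (1 - nuf g p) := by
  have hPp : ∀ p ∈ P, p.Prime := fun p hp => (hP p hp).1
  have hp0 : ∀ p ∈ P, (0 : ℝ) < p := fun p hp => by exact_mod_cast (hPp p hp).pos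
  have hn0 : ∀ p ∈ P, 0 < nuf g p := fun p hp => div_pos (h0 p hp) (hp0 p hp)
  have hnK : ∀ p ∈ P, nuf g p ≤ K / p := fun p hp =>
    div_le_div_of_nonneg_right (hgK p hp) (hp0 p hp).le
  have hn1 : ∀ p ∈ P, nuf g p < 1 := by
    intro p hp
    refine (hnK p hp).trans_lt ?_
    rw [div_lt_one (hp0 p hp)]
    have : 2 * K < p := (hP p hp).2.1
    exact_mod_cast (by omega : K < p)
  set V := ∏ p ∈ P, (1 + nuf g p / (1 - nuf g p)) with hV
  have hVinv : ∏ p ∈ P, (1 - nuf g p) = V⁻¹ := by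
    rw [hV, ← prod_inv_distrib]
    apply prod_congr rfl
    intro p hp
    have : 1 - nuf g p ≠ 0 := by have := hn1 p hp; linarith
    field_simp
    ring
  have hV0 : 0 < V := by
    apply prod_pos
    intro p hp
    have := div_nonneg (hn0 p hp).le (by have := hn1 p hp; linarith : 0 ≤ 1 - nuf g p)
    linarith
  have hD : 1 ≤ W ^ (14 * K) := Nat.one_le_pow _ _ (by omega)
  have s1 := selberg_upper_bound (s := sv P g M N hPp hn0 hn1) hD
  rw [siftedSum_eq hPp hn0 hn1 hg, GSum_eq hPp hn0 hn1] at s1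
  have s2 := G_ge hPp hn0 hn1 hK1 hW (fun p hp => (hP p hp).2.2) hnK
  have s3 : (sv P g M N hPp hn0 hn1).totalMass * (∑ l ∈ (∏ p ∈ P, p).divisors with
      l ≤ W ^ (14 * K), gm g l)⁻¹ ≤ 2 * N * V⁻¹ := by
    change (N : ℝ) * _ ≤ _
    have : (∑ l ∈ (∏ p ∈ P, p).divisors with l ≤ W ^ (14 * K), gm g l)⁻¹ ≤ (V / 2)⁻¹ :=
      inv_anti₀ (by positivity) s2
    calc (N : ℝ) * (∑ l ∈ (∏ p ∈ P, p).divisors with l ≤ W ^ (14 * K), gm g l)⁻¹ ≤
        N * (V / 2)⁻¹ := mul_le_mul_of_nonneg_left this (Nat.cast_nonneg _)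
      _ = _ := by rw [inv_div]; ring
  -- the remainder
  have hW0 : (0 : ℝ) < W := by positivity
  have s4 : ∀ d1 ∈ (sv P g M N hPp hn0 hn1).prodPrimes.divisors.filter
      (fun d => d ≤ W ^ (14 * K)), ∀ d2 ∈ (sv P g M N hPp hn0 hn1).prodPrimes.divisors.filter
      (fun d => d ≤ W ^ (14 * K)),
      |(sv P g M N hPp hn0 hn1).rem (Nat.lcm d1 d2)| ≤ (W : ℝ) ^ (28 * K) := by
    intro d1 hd1 d2 hd2
    rw [mem_filter, mem_divisors] at hd1 hd2
    have hl : Nat.lcm d1 d2 ∣ ∏ p ∈ P, p := Nat.lcm_dvd hd1.1.1 hd2.1.1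
    have hsq : Squarefree (Nat.lcm d1 d2) := (sqf P hPp).squarefree_of_dvd hl
    have hsub : (Nat.lcm d1 d2).primeFactors ⊆ P := fun p hp =>
      mem_of_mem_primeFactors hPp hl hp
    have e1 := rem_le hPp hn0 hn1 (M := M) (N := N) hg hsub hgK
    rw [Nat.prod_primeFactors_of_squarefree hsq] at e1
    refine e1.trans ?_
    have e2 : K ^ (Nat.lcm d1 d2).primeFactors.card ≤ Nat.lcm d1 d2 := by
      rw [← prod_const]
      conv_rhs => rw [← Nat.prod_primeFactors_of_squarefree hsq]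
      apply prod_le_prod' 
      intro p hp
      have := (hP p (hsub hp)).2.1
      omega
    have e3 : Nat.lcm d1 d2 ≤ d1 * d2 := Nat.le_of_dvd
      (Nat.mul_pos (Nat.pos_of_ne_zero (ne_zero_of_dvd_ne_zero hd1.1.2 hd1.1.1))
        (Nat.pos_of_ne_zero (ne_zero_of_dvd_ne_zero hd2.1.2 hd2.1.1))) (Nat.lcm_dvd_mul d1 d2)
    have e4 : d1 * d2 ≤ W ^ (28 * K) := by
      calc d1 * d2 ≤ W ^ (14 * K) * W ^ (14 * K) := Nat.mul_le_mul hd1.2 hd2.2
        _ = _ := by rw [← pow_add]; congr 1; ring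
    exact_mod_cast e2.trans (e3.trans e4)
  have hcard : #((sv P g M N hPp hn0 hn1).prodPrimes.divisors.filter
      (fun d => d ≤ W ^ (14 * K))) ≤ W ^ (14 * K) := by
    have hsub : (sv P g M N hPp hn0 hn1).prodPrimes.divisors.filter (fun d => d ≤ W ^ (14 * K)) ⊆
        Icc 1 (W ^ (14 * K)) := by
      intro d hd
      rw [mem_filter, mem_divisors] at hd
      rw [mem_Icc]
      exact ⟨Nat.pos_of_ne_zero (ne_zero_of_dvd_ne_zero hd.1.2 hd.1.1), hd.2⟩
    have := card_le_card hsub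
    simpa using this
  have hcard' : (#((sv P g M N hPp hn0 hn1).prodPrimes.divisors.filter
      (fun d => d ≤ W ^ (14 * K))) : ℝ) ≤ (W : ℝ) ^ (14 * K) := by
    exact_mod_cast hcard
  have s5 : ∑ d1 ∈ (sv P g M N hPp hn0 hn1).prodPrimes.divisors with d1 ≤ W ^ (14 * K),
      ∑ d2 ∈ (sv P g M N hPp hn0 hn1).prodPrimes.divisors with d2 ≤ W ^ (14 * K),
        |(sv P g M N hPp hn0 hn1).rem (Nat.lcm d1 d2)| ≤ (W : ℝ) ^ (56 * K) := by
    calc _ ≤ ∑ d1 ∈ (sv P g M N hPp hn0 hn1).prodPrimes.divisors with d1 ≤ W ^ (14 * K),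
        ∑ d2 ∈ (sv P g M N hPp hn0 hn1).prodPrimes.divisors with d2 ≤ W ^ (14 * K),
          (W : ℝ) ^ (28 * K) :=
          sum_le_sum fun d1 hd1 => sum_le_sum fun d2 hd2 => s4 d1 hd1 d2 hd2
      _ = (#((sv P g M N hPp hn0 hn1).prodPrimes.divisors.filter
            (fun d => d ≤ W ^ (14 * K))) : ℝ) *
          ((#((sv P g M N hPp hn0 hn1).prodPrimes.divisors.filter
            (fun d => d ≤ W ^ (14 * K))) : ℝ) * (W : ℝ) ^ (28 * K)) := by
          rw [sum_const, sum_const, nsmul_eq_mul, nsmul_eq_mul]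
      _ ≤ (W : ℝ) ^ (14 * K) * ((W : ℝ) ^ (14 * K) * (W : ℝ) ^ (28 * K)) := by gcongr
      _ = (W : ℝ) ^ (56 * K) := by rw [← pow_add, ← pow_add]; congr 1; ring
  have s6 : (W : ℝ) ^ (56 * K) ≤ N * V⁻¹ := by
    rw [← div_eq_mul_inv, le_div_iff₀ hV0]
    calc (W : ℝ) ^ (56 * K) * V ≤ (W : ℝ) ^ (56 * K) * (W : ℝ) ^ (4 * K) := by
          apply mul_le_mul_of_nonneg_left _ (by positivity)
          exact V_le hPp hn0 hn1 hW (fun p hp => (hP p hp).2.2) (fun p hp => (hP p hp).2.1) hnK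
      _ = (W : ℝ) ^ (60 * K) := by rw [← pow_add]; congr 1; ring
      _ ≤ N := by exact_mod_cast hN
  rw [hVinv]
  have hfin := s1.trans (_root_.add_le_add s3 s5)
  calc _ ≤ _ := hfin
    _ ≤ 2 * N * V⁻¹ + N * V⁻¹ := by linarith
    _ = _ := by ring

end WS

open WS in
/-- Block WS. -/
theorem stmt_WS : Stmt_WS := by
  intro K hK
  refine ⟨3, by norm_num, 60 * K, ?_⟩
  intro W N M P g hW hP hN hg hgK
  classical
  have hsum : ∀ p ∈ P, 0 ≤ ∑ c ∈ range p, (1 - g p c) ∧ ∑ c ∈ range p, (1 - g p c) ≤ K := by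
    intro p hp
    have hnn : ∀ c ∈ range p, 0 ≤ 1 - g p c := fun c hc => by
      have := (hg p hp c (mem_range.1 hc)).2; linarith
    refine ⟨sum_nonneg hnn, ?_⟩
    have e1 : ∑ c ∈ range p, (1 - g p c) =
        ∑ c ∈ (range p).filter (fun c => g p c ≠ 1), (1 - g p c) := by
      rw [sum_filter]
      apply sum_congr rfl
      intro c _
      split_ifs with h
      · rfl
      · rw [not_not] at h
        rw [h, sub_self]
    rw [e1]
    calc ∑ c ∈ (range p).filter (fun c => g p c ≠ 1), (1 - g p c) ≤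
        ∑ c ∈ (range p).filter (fun c => g p c ≠ 1), (1 : ℝ) := by
          apply sum_le_sum
          intro c hc
          have := (hg p hp c (mem_range.1 (mem_filter.1 hc).1)).1
          linarith
      _ = (((range p).filter (fun c => g p c ≠ 1)).card : ℝ) := by simp
      _ ≤ K := by exact_mod_cast hgK p hp
  set P' := P.filter (fun p => 0 < ∑ c ∈ range p, (1 - g p c)) with hP'
  have hsub : P' ⊆ P := filter_subset _ _
  have hzero : ∀ p ∈ P, p ∉ P' → ∀ c < p, g p c = 1 := by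
    intro p hp hp' c hc
    have h1 : ∑ c ∈ range p, (1 - g p c) = 0 := by
      have h2 : ¬ 0 < ∑ c ∈ range p, (1 - g p c) := fun h => hp' (mem_filter.2 ⟨hp, h⟩)
      exact le_antisymm (not_lt.1 h2) (hsum p hp).1
    rw [sum_eq_zero_iff_of_nonneg (fun c hc => by
      have := (hg p hp c (mem_range.1 hc)).2; linarith)] at h1
    have := h1 c (mem_range.2 hc)
    linarith
  have e1 : ∀ k, ∏ p ∈ P, g p (k % p) = ∏ p ∈ P', g p (k % p) := by
    intro k
    symm
    apply prod_subset hsub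
    intro p hp hp'
    exact hzero p hp hp' _ (Nat.mod_lt _ (hP p hp).1.pos)
  have e2 : ∏ p ∈ P, ((∑ c ∈ range p, g p c) / p) = ∏ p ∈ P', (1 - nuf g p) := by
    have e3 : ∏ p ∈ P', (1 - nuf g p) = ∏ p ∈ P', ((∑ c ∈ range p, g p c) / p) := by
      apply prod_congr rfl
      intro p hp
      have hp0 : (p : ℝ) ≠ 0 := by exact_mod_cast (hP p (hsub hp)).1.ne_zero
      unfold nuf
      rw [sum_sub_distrib]
      simp only [sum_const, card_range, nsmul_eq_mul, mul_one]
      field_simp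
      ring
    rw [e3]
    symm
    apply prod_subset hsub
    intro p hp hp'
    have hp0 : (p : ℝ) ≠ 0 := by exact_mod_cast (hP p hp).1.ne_zero
    rw [sum_congr rfl fun c hc => hzero p hp hp' c (mem_range.1 hc)]
    simp only [sum_const, card_range, nsmul_eq_mul, mul_one]
    exact div_self hp0
  rw [sum_congr rfl fun k _ => e1 k, e2]
  exact main_pos hK hW (fun p hp => hP p (hsub hp)) hN (fun p hp => hg p (hsub hp))
    (fun p hp => (mem_filter.1 hp).2) (fun p hp => (hsum p (hsub hp)).2)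

end Pool.Agent.Work.MP_b0c12c_nt_shift
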