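import Pool.Agent.Work.MP_b0c12c_nt_shift.Interface
import Pool.Agent.Work.MP_b0c12c_nt_helper41.Mert

/-! The weighted sieve in an arithmetic progression (common tool for the blocks Q2, H1, H2). -/

set_option autoImplicit false

namespace Pool.Agent.Work.MP_b0c12c_nt_shift

open Finset

/-- the affine map permutes the classes -/
theorem sum_affine (p q b : ℕ) (hp : 0 < p) (hq : p.Coprime q) (F : ℕ → ℝ)
    (hF : ∀ n m, n ≡ m [MOD p] → F n = F m) :
    ∑ c ∈ range p, F (q * c + b) = ∑ c ∈ range p, F c := by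
  have hmaps : ∀ c ∈ range p, (q * c + b) % p ∈ range p := fun c _ =>
    mem_range.mpr (Nat.mod_lt _ hp)
  have hinj : Set.InjOn (fun c => (q * c + b) % p) (range p : Set ℕ) := by
    intro c hc d hd hcd
    have h1 : q * c + b ≡ q * d + b [MOD p] := hcd
    have h2 : q * c ≡ q * d [MOD p] := Nat.ModEq.add_right_cancel' b h1
    have h3 : c ≡ d [MOD p] := Nat.ModEq.cancel_left_of_coprime hq h2
    exact Nat.ModEq.eq_of_lt_of_lt h3 (mem_range.mp (by exact_mod_cast hc))
      (mem_range.mp (by exact_mod_cast hd))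
  have hsurj : Set.SurjOn (fun c => (q * c + b) % p) (range p : Set ℕ) (range p : Set ℕ) :=
    Finset.surjOn_of_injOn_of_card_le _ (fun c hc => hmaps c hc) hinj le_rfl
  refine Finset.sum_nbij (fun c => (q * c + b) % p) hmaps hinj hsurj ?_
  intro c _
  exact hF _ _ (Nat.mod_modEq _ _).symm

/-- The weighted sieve for the members of a residue class in `(x, 2x]`. -/
theorem ws_ap (hWS : Stmt_WS) : ∀ K : ℕ, 0 < K → ∃ C : ℝ, 0 < C ∧ ∃ D : ℕ, 2 ≤ D ∧
    ∀ (q a x W : ℕ) (P : Finset ℕ) (G : ℕ → ℕ → ℝ), 0 < q → 3 ≤ W →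
    (∀ p ∈ P, p.Prime ∧ 2 * K < p ∧ p ≤ W ∧ p.Coprime q) → W ^ D * q ≤ x →
    (∀ p ∈ P, ∀ n, 0 ≤ G p n ∧ G p n ≤ 1) →
    (∀ p ∈ P, ∀ n m, n ≡ m [MOD p] → G p n = G p m) →
    (∀ p ∈ P, ((range p).filter fun c => G p c ≠ 1).card ≤ K) →
    ∀ S : Finset ℕ, (∀ n ∈ S, n ∈ Ioc x (2 * x) ∧ n ≡ a [MOD q]) →
      ∑ n ∈ S, ∏ p ∈ P, G p n ≤ C * (x / q) * ∏ p ∈ P, ((∑ c ∈ range p, G p c) / p) := by
  intro K hK
  obtain ⟨C, hC, D, hD⟩ := hWS K hK
  refine ⟨3 * C, by positivity, D + 2, by omega, ?_⟩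
  intro q a x W P G hq hW hP hx hG01 hGper hGK S hS
  have hxq : W ^ (D + 2) ≤ x / q := by
    rw [Nat.le_div_iff_mul_le hq]
    exact hx
  have hWD : W ^ D ≤ W ^ (D + 2) := Nat.pow_le_pow_right (by omega) (by omega)
  have hW1 : 1 ≤ W ^ (D + 2) := Nat.one_le_pow _ _ (by omega)
  set b : ℕ := a % q with hb
  set M : ℕ := x / q - 1 with hM
  set N : ℕ := 2 * x / q - x / q + 1 with hN
  have h2x : 2 * (x / q) ≤ 2 * x / q := by
    rw [Nat.le_div_iff_mul_le hq, mul_assoc]
    exact Nat.mul_le_mul_left 2 (Nat.div_mul_le_self x q)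
  have hMN : M + N = 2 * x / q := by omega
  set g : ℕ → ℕ → ℝ := fun p c => G p (q * c + b) with hg
  have hgmod : ∀ p ∈ P, ∀ k, g p (k % p) = g p k := by
    intro p hp k
    apply hGper p hp
    exact Nat.ModEq.add_right _ (Nat.ModEq.mul_left _ (Nat.mod_modEq k p))
  -- the sum over the quotients
  have h1 : ∑ n ∈ S, ∏ p ∈ P, G p n ≤ ∑ k ∈ Ioc M (M + N), ∏ p ∈ P, g p (k % p) := by
    have h2 : ∑ n ∈ S, ∏ p ∈ P, G p n = ∑ k ∈ S.image (fun n => n / q), ∏ p ∈ P, g p (k % p) := by
      symm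
      rw [sum_image]
      · apply sum_congr rfl
        intro n hn
        apply prod_congr rfl
        intro p hp
        rw [hgmod p hp]
        show G p (q * (n / q) + b) = G p n
        have h3 : n % q = b := (hS n hn).2
        rw [← h3, Nat.div_add_mod]
      · intro n hn m hm hnm
        have h3 : n % q = b := (hS n (by exact_mod_cast hn)).2
        have h4 : m % q = b := (hS m (by exact_mod_cast hm)).2
        have h5 : n / q = m / q := hnm
        rw [← Nat.div_add_mod n q, ← Nat.div_add_mod m q, h3, h4, h5]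
    rw [h2]
    apply sum_le_sum_of_subset_of_nonneg
    · intro k hk
      rw [mem_image] at hk
      obtain ⟨n, hn, rfl⟩ := hk
      obtain ⟨h3, -⟩ := hS n hn
      rw [mem_Ioc] at h3
      rw [mem_Ioc, hMN]
      constructor
      · have : x / q ≤ n / q := Nat.div_le_div_right h3.1.le
        omega
      · exact Nat.div_le_div_right h3.2
    · intro k _ _
      exact prod_nonneg fun p hp => (hG01 p hp _).1
  have h2 := hD W N M P g hW (fun p hp => ⟨(hP p hp).1, (hP p hp).2.1, (hP p hp).2.2.1⟩)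
    (by omega) (fun p hp c _ => hG01 p hp _) (fun p hp => ?_)
  · refine h1.trans (h2.trans ?_)
    have h3 : ∀ p ∈ P, (∑ c ∈ range p, g p c) / (p : ℝ) = (∑ c ∈ range p, G p c) / p := by
      intro p hp
      rw [sum_affine p q b (hP p hp).1.pos (hP p hp).2.2.2 (G p) (hGper p hp)]
    rw [prod_congr rfl h3]
    apply mul_le_mul_of_nonneg_right
    · have hq' : (0 : ℝ) < q := by exact_mod_cast hq
      have h4 : ((2 * x / q : ℕ) : ℝ) ≤ 2 * x / q := by
        have := Nat.cast_div_le (m := 2 * x) (n := q) (α := ℝ)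
        push_cast at this
        exact this
      have h5 : (x : ℝ) / q < ((x / q : ℕ) : ℝ) + 1 := by
        rw [div_lt_iff₀ hq']
        have h6 : x < (x / q + 1) * q := by
          have := Nat.lt_mul_div_succ x hq
          rw [mul_comm] at this
          exact this
        exact_mod_cast h6
      have h6 : (N : ℝ) = ((2 * x / q : ℕ) : ℝ) - ((x / q : ℕ) : ℝ) + 1 := by
        rw [hN]
        push_cast [Nat.cast_sub (show x / q ≤ 2 * x / q by omega)]
        ring
      have h7 : (1 : ℝ) ≤ x / q := by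
        rw [le_div_iff₀ hq', one_mul]
        have : q ≤ x := by
          calc q = 1 * q := (one_mul q).symm
            _ ≤ W ^ (D + 2) * q := Nat.mul_le_mul_right q hW1
            _ ≤ x := hx
        exact_mod_cast this
      have h8 : (N : ℝ) ≤ 3 * (x / q) := by
        rw [h6]
        have : (2 : ℝ) * x / q = 2 * (x / q) := by ring
        linarith
      calc C * (N : ℝ) ≤ C * (3 * (x / q)) := by gcongr
        _ = 3 * C * (x / q) := by ring
    · apply prod_nonneg
      intro p hp
      exact div_nonneg (sum_nonneg fun c _ => (hG01 p hp c).1) (Nat.cast_nonneg _)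
  · -- the number of classes
    have h4 := sum_affine p q b (hP p hp).1.pos (hP p hp).2.2.2
      (fun c => if G p c ≠ 1 then (1 : ℝ) else 0) (fun n m hnm => by
        show (if G p n ≠ 1 then (1 : ℝ) else 0) = if G p m ≠ 1 then (1 : ℝ) else 0
        rw [hGper p hp n m hnm])
    rw [sum_boole, sum_boole] at h4
    have h5 : ((range p).filter fun c => g p c ≠ 1).card =
        ((range p).filter fun c => G p c ≠ 1).card := by exact_mod_cast h4
    rw [h5]
    exact hGK p hp

end Pool.Agent.Work.MP_b0c12c_nt_shift
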