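import Mathlib
import Pool.Agent.Work.MP_b0c12c_nt.Interface2
import Pool.Agent.Work.MP_b0c12c_nt.RoughQ

/-!
# The sieve of Eratosthenes with randomly shifted classes: definitions
-/

set_option autoImplicit false

namespace Pool.Agent.Work.MP_b0c12c_nt_shift

open Finset Filter
open Pool.Agent.Work.MP_b0c12c_nt.Itf2 (ZF)

/-- The integers `n ≥ 2` which avoid the residue class `u p` modulo every prime `p ≤ √n`
(`u = 0`: exactly the primes). -/
def Shifted (u : ℕ → ℤ) : Set ℕ :=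
  {n | 2 ≤ n ∧ ∀ p : ℕ, p.Prime → p * p ≤ n → ¬ (p : ℤ) ∣ (n : ℤ) - u p}

/-- the three possible shifts -/
def sgn : Finset ℤ := {-1, 0, 1}

/-- `π p s` is the probability of the shift `s ∈ {-1, 0, 1}` at the prime `p`. -/
structure Law (π : ℕ → ℤ → ℝ) (c₁ c₂ : ℝ) : Prop where
  c1_pos : 0 < c₁
  nonneg : ∀ p s, 0 ≤ π p s
  sum_one : ∀ p, π p (-1) + π p 0 + π p 1 = 1
  low : ∃ P : ℕ, ∀ p : ℕ, p.Prime → P ≤ p → c₁ / Real.log (Real.log p) ≤ π p 1 ∧
    c₁ / Real.log (Real.log p) ≤ π p (-1)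
  high : ∃ P : ℕ, ∀ p : ℕ, p.Prime → P ≤ p → π p 1 ≤ c₂ / Real.log (Real.log p) ∧
    π p (-1) ≤ c₂ / Real.log (Real.log p)

/-- the mass of the nonzero shifts at `p` -/
def ep (π : ℕ → ℤ → ℝ) (p : ℕ) : ℝ := π p 1 + π p (-1)

/-- The probability that `n` avoids the (random) class at `p`: for `p ≥ 3` it is
`ep π p` if `p ∣ n`, `1 - π p 1` if `p ∣ n - 1`, `1 - π p (-1)` if `p ∣ n + 1`, and `1` else. -/
noncomputable def gw (π : ℕ → ℤ → ℝ) (p n : ℕ) : ℝ :=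
  1 - ∑ s ∈ sgn, if (p : ℤ) ∣ (n : ℤ) - s then π p s else 0

/-- The probability that `n` avoids the random classes at all primes of `A`. -/
noncomputable def Wt (π : ℕ → ℤ → ℝ) (A : Finset ℕ) (n : ℕ) : ℝ := ∏ p ∈ A, gw π p n

/-- average over the shift at `p` -/
noncomputable def E1 (π : ℕ → ℤ → ℝ) (p : ℕ) (f : (ℕ → ℤ) → ℝ) : (ℕ → ℤ) → ℝ :=
  fun v => ∑ s ∈ sgn, π p s * f (Function.update v p s)

/-- average over the shifts at the members of a list -/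
noncomputable def EL (π : ℕ → ℤ → ℝ) : List ℕ → ((ℕ → ℤ) → ℝ) → ((ℕ → ℤ) → ℝ)
  | [], f => f
  | p :: l, f => E1 π p (EL π l f)

/-- average over the shifts at the primes of `A` (the other coordinates of `v` are kept) -/
noncomputable def EA (π : ℕ → ℤ → ℝ) (A : Finset ℕ) (f : (ℕ → ℤ) → ℝ) : (ℕ → ℤ) → ℝ :=
  EL π A.toList f

/-- indicator function of a set of configurations -/
noncomputable def ind (S : Set (ℕ → ℤ)) : (ℕ → ℤ) → ℝ := S.indicator 1

/-- `exp (z ^ (1 - κ))`, the upper end of the random primes -/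
noncomputable def w1 (κ : ℝ) (z : ℕ) : ℕ := ⌊Real.exp ((z : ℝ) ^ (1 - κ))⌋₊

/-- The random primes `z ^ B < p ≤ exp (z ^ (1 - κ))`, `p ≠ p0`. All other primes are fixed
(conditioned). -/
noncomputable def AA (κ : ℝ) (B z p0 : ℕ) : Finset ℕ :=
  ((Ioc (z ^ B) (w1 κ z)).filter Nat.Prime).erase p0

/-- The modulus: product of the primes `p ≤ z`, `p ≠ p0`. -/
def qq (z p0 : ℕ) : ℕ := ∏ p ∈ ((Icc 1 z).filter Nat.Prime).erase p0, p

/-- `n` avoids the classes `v p` of all fixed primes `p ≤ √x`. -/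
def SurvF (v : ℕ → ℤ) (A : Finset ℕ) (x n : ℕ) : Prop :=
  ∀ p : ℕ, p.Prime → p * p ≤ x → p ∉ A → ¬ (p : ℤ) ∣ (n : ℤ) - v p

/-- The fixed primes `z < p ≤ √x` with a nonzero shift. -/
noncomputable def MV (v : ℕ → ℤ) (A : Finset ℕ) (z x : ℕ) : Finset ℕ :=
  ((Ioc z (Nat.sqrt x)).filter fun p => p.Prime ∧ v p ≠ 0) \ A

/-- The moved mass. -/
noncomputable def mvm (v : ℕ → ℤ) (A : Finset ℕ) (z x : ℕ) : ℝ := ∑ p ∈ MV v A z x, 1 / (p : ℝ)

/-- `p0` is the only possible exceptional prime at scale `z`: it is `0` (absent) or a prime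
larger than `K`, and all squarefree moduli `Q ≤ exp (3z/2)` not divisible by `p0` have only
zero free nonprincipal characters. -/
def Good (κ : ℝ) (K z p0 : ℕ) : Prop :=
  (p0 = 0 ∨ (p0.Prime ∧ K < p0)) ∧
    ∀ (Q : ℕ) [NeZero Q], Squarefree Q → (Q : ℝ) ≤ Real.exp (3 / 2 * z) → ¬ p0 ∣ Q →
      ∀ χ : DirichletCharacter ℂ Q, χ ≠ 1 →
        ZF χ (1 - (3 * (z : ℝ)) ^ (-(1 + κ))) ((z : ℝ) + 3)

/-- the rows: `x < r q + b`, `r q + b + U + 1 ≤ 2 x` -/
def rows (x q b U : ℕ) : Finset ℕ :=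
  (range (2 * x + 1)).filter fun r => x < r * q + b ∧ r * q + b + U + 1 ≤ 2 * x

open Classical in
/-- the survivors of the fixed primes in the window `(N + 1, N + U]` -/
noncomputable def Sur (v : ℕ → ℤ) (A : Finset ℕ) (x U N : ℕ) : Finset ℕ :=
  (Ioc (N + 1) (N + U)).filter fun n => SurvF v A x n

/-- the window `(N + 1, N + U]` is empty: each of its members is hit by some prime `p ≤ √x` -/
def Emp (x U N : ℕ) : Set (ℕ → ℤ) :=
  {v | ∀ n ∈ Ioc (N + 1) (N + U), ∃ p : ℕ, p.Prime ∧ p * p ≤ x ∧ (p : ℤ) ∣ (n : ℤ) - v p}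

open Classical in
/-- the primes of `A` that divide a member of `[N, N + U + 1]` -/
noncomputable def Dset (A : Finset ℕ) (U N : ℕ) : Finset ℕ := A.filter fun p => ∃ m ∈ Icc N (N + U + 1), p ∣ m

/-- the range of `log x` at scale `z` -/
def InR (κ : ℝ) (z x : ℕ) : Prop :=
  (z : ℝ) ^ (1 + κ) ≤ Real.log x ∧ Real.log x ≤ (z : ℝ) ^ (1 + 2 * κ)

end Pool.Agent.Work.MP_b0c12c_nt_shift
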