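import Mathlib
import Pool.Agent.Work.MP_b0c12c_nt.Assem1
import Pool.Agent.Work.MP_b0c12c_nt.Omega
import Pool.Agent.Work.MP_b0c12c_nt_shift.Defs

/-!
# Interface: the statements of the blocks (see BLUEPRINT.md)
-/

set_option autoImplicit false

namespace Pool.Agent.Work.MP_b0c12c_nt_shift

open Finset Filter ArithmeticFunction
open Pool.Agent.Work.MP_b0c12c_nt.Itf2 (ZF ZeroFree gaussSum')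
open Pool.Agent.Work.MP_b0c12c_nt.Assem (wt)
open Pool.Agent.Work.MP_b0c12c_nt (Cq)

/-! ## Prime numbers in progressions -/

/-- Block EX. At most one exceptional prime. -/
def Stmt_EX : Prop :=
  ∀ κ : ℝ, 0 < κ → ∀ K : ℕ, ∃ z0 : ℕ, ∀ z : ℕ, z0 ≤ z → ∃ p0 : ℕ, Good κ K z p0

/-- Block CS. Sum over the nonprincipal characters, with a power saving `z^{-2}`. -/
def Stmt_CS : Prop :=
  ∀ κ κ' B τ : ℝ, 0 < κ' → κ' < κ → 0 < τ → τ ≤ 1 → ∃ z0 : ℕ, ∀ z : ℕ, z0 ≤ z →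
    ∀ (Q : ℕ) [NeZero Q], (Q : ℝ) ≤ Real.exp (3 / 2 * z) →
      (∀ χ : DirichletCharacter ℂ Q, χ ≠ 1 → ZF χ (1 - (3 * (z : ℝ)) ^ (-(1 + κ'))) ((z : ℝ) + 3)) →
      ∀ l : ℝ, (z : ℝ) ^ (1 + κ) / 2 ≤ l → l ≤ 2 * (z : ℝ) ^ B →
        ∑ χ ∈ (univ : Finset (DirichletCharacter ℂ Q)).filter (fun χ => χ ≠ 1),
          ‖gaussSum' χ τ (Real.exp l)‖ ≤ (z : ℝ) ^ (-2 : ℝ) * Real.exp l

/-- Block PN. Prime number theorem for one class, Gaussian weight, uniform in the modulus. -/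
def Stmt_PN : Prop :=
  ∀ κ B τ : ℝ, 0 < κ → 0 < τ → τ ≤ 1 → ∀ K : ℕ, ∃ z0 : ℕ, ∀ z : ℕ, z0 ≤ z →
    ∀ p0 : ℕ, Good (κ / 2) K z p0 →
    ∀ Q : ℕ, Squarefree Q → (Q : ℝ) ≤ Real.exp (3 / 2 * z) → ¬ p0 ∣ Q → ∀ c : ℕ, c.Coprime Q →
      ∀ l : ℝ, (z : ℝ) ^ (1 + κ) / 2 ≤ l → l ≤ 2 * (z : ℝ) ^ B →
        (Summable fun n : ℕ => Λ n * wt τ (Real.exp l) n) ∧
        |∑' n : ℕ, (if n ≡ c [MOD Q] then Λ n * wt τ (Real.exp l) n else 0) -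
            (∑' n : ℕ, Λ n * wt τ (Real.exp l) n) / Q.totient| ≤
          (z : ℝ)⁻¹ * Real.exp l / Q.totient

/-- the residue weight: at `p ∈ A` the classes `ra p` and `rb p` have weights `1 - al p`
and `1 - be p` -/
noncomputable def hw (al be : ℕ → ℝ) (ra rb : ℕ → ℕ) (A : Finset ℕ) (m : ℕ) : ℝ :=
  ∏ p ∈ A, (1 - (if m ≡ ra p [MOD p] then al p else 0) - (if m ≡ rb p [MOD p] then be p else 0))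

/-- the mean of `hw` over the reduced classes -/
noncomputable def hV (al be : ℕ → ℝ) (A : Finset ℕ) : ℝ :=
  ∏ p ∈ A, (1 - (al p + be p) / ((p : ℝ) - 1))

/-- admissible data for `hw` -/
def HOk (al be : ℕ → ℝ) (ra rb : ℕ → ℕ) (A : Finset ℕ) (z p0 W : ℕ) : Prop :=
  (∀ p ∈ A, p.Prime ∧ z < p ∧ p ≤ W ∧ p ≠ p0 ∧ 0 ≤ al p ∧ 0 ≤ be p ∧ al p + be p ≤ 1 ∧
    (ra p).Coprime p ∧ (rb p).Coprime p ∧ ¬ ra p ≡ rb p [MOD p]) ∧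
  ∑ p ∈ A, (al p + be p) / ((p : ℝ) - 1) ≤ Real.log z / 20

/-- Block BF. Bonferroni. -/
def Stmt_BF : Prop :=
  ∀ κ κ₂ B τ : ℝ, 0 < κ → 0 < κ₂ → 0 < τ → τ ≤ 1 → ∀ K : ℕ, ∃ z0 : ℕ, ∀ z : ℕ, z0 ≤ z →
    ∀ p0 : ℕ, Good (κ / 2) K z p0 →
    ∀ (al be : ℕ → ℝ) (ra rb : ℕ → ℕ) (A : Finset ℕ), HOk al be ra rb A z p0 (w1 κ₂ z) →
    ∀ Q : ℕ, Q ∣ primorial z → ¬ p0 ∣ Q → ∀ c : ℕ, c.Coprime Q →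
      ∀ l : ℝ, (z : ℝ) ^ (1 + κ) / 2 ≤ l → l ≤ 2 * (z : ℝ) ^ B →
        ∀ F : Finset ℕ, (∀ n ∈ F, n ≡ c [MOD Q]) →
          ∑ n ∈ F, Λ n * wt τ (Real.exp l) n * hw al be ra rb A n ≤
            hV al be A * ((∑' n : ℕ, Λ n * wt τ (Real.exp l) n) +
              (z : ℝ) ^ (-(1 / 2) : ℝ) * Real.exp l) / Q.totient

/-- Block M1. The same for primes in `(X, 2X]`. -/
def Stmt_M1 : Prop :=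
  ∀ κ κ₂ B ε : ℝ, 0 < κ → 0 < κ₂ → 0 < ε → ∀ K : ℕ, ∃ z0 : ℕ, ∀ z : ℕ, z0 ≤ z →
    ∀ p0 : ℕ, Good (κ / 2) K z p0 →
    ∀ (al be : ℕ → ℝ) (ra rb : ℕ → ℕ) (A : Finset ℕ), HOk al be ra rb A z p0 (w1 κ₂ z) →
    ∀ Q : ℕ, Q ∣ primorial z → ¬ p0 ∣ Q → ∀ c : ℕ, c.Coprime Q →
      ∀ X : ℝ, 0 < X → (z : ℝ) ^ (1 + κ) ≤ Real.log X → Real.log X ≤ (z : ℝ) ^ B →
        ∑ p ∈ (Ioc ⌊X⌋₊ ⌊2 * X⌋₊).filter (fun p => p.Prime ∧ p ≡ c [MOD Q]),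
          Real.log p * hw al be ra rb A p ≤ (1 + ε) * X * hV al be A / Q.totient

/-! ## Sums over the smooth part -/

/-- the weight of the smooth part -/
noncomputable def ft (e : ℕ → ℝ) (A : Finset ℕ) (t : ℕ) : ℝ :=
  ∏ p ∈ A, if p ∣ t then e p else 1 - e p / ((p : ℝ) - 1)

/-- Block TS. Euler product identity. -/
def Stmt_TS : Prop :=
  ∀ (A P : Finset ℕ) (e : ℕ → ℝ) (g : ℕ) (T : Finset ℕ), Disjoint A P →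
    (∀ p ∈ A, p.Prime ∧ 3 ≤ p ∧ 0 ≤ e p ∧ e p ≤ 1) → (∀ p ∈ P, p.Prime) → Squarefree g →
    g.primeFactors ⊆ P → (∀ t ∈ T, t ≠ 0 ∧ g ∣ t ∧ t.primeFactors ⊆ A ∪ P) →
      ∑ t ∈ T, ft e A t / t ≤ (∏ p ∈ P, (1 - 1 / (p : ℝ))⁻¹) / g

/-- the part of `n` composed of the primes `≤ W` -/
noncomputable def sm (W n : ℕ) : ℕ := ∏ p ∈ n.primeFactors.filter (· ≤ W), p ^ n.factorization p

/-- Block MA. Few integers have a large smooth part (Rankin). -/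
def Stmt_MA : Prop :=
  ∀ κ : ℝ, 0 < κ → κ < 1 / 2 → ∃ z0 : ℕ, ∀ z : ℕ, z0 ≤ z → ∀ x : ℕ, InR κ z x →
    ∀ q : ℕ, q ∣ primorial z → ∀ a : ℕ, (a.gcd q : ℝ) ≤ (z : ℝ) ^ 7 →
      ((((Ioc x (2 * x)).filter fun n => n ≡ a [MOD q] ∧
        Real.exp ((z : ℝ) ^ (1 + κ / 2)) < sm (w1 κ z) n).card : ℕ) : ℝ) ≤ x / (q * (z : ℝ) ^ 10)

/-! ## Sieve upper bounds -/

/-- Block WS. Weighted sieve: weights `g p c ∈ [0, 1]` for the classes `c` modulo `p`, at most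
`K` of them different from `1`. -/
def Stmt_WS : Prop :=
  ∀ K : ℕ, 0 < K → ∃ C : ℝ, 0 < C ∧ ∃ D : ℕ, ∀ (W N M : ℕ) (P : Finset ℕ) (g : ℕ → ℕ → ℝ),
    3 ≤ W → (∀ p ∈ P, p.Prime ∧ 2 * K < p ∧ p ≤ W) → W ^ D ≤ N →
    (∀ p ∈ P, ∀ c < p, 0 ≤ g p c ∧ g p c ≤ 1) →
    (∀ p ∈ P, ((range p).filter fun c => g p c ≠ 1).card ≤ K) →
      ∑ k ∈ Ioc M (M + N), ∏ p ∈ P, g p (k % p) ≤
        C * N * ∏ p ∈ P, ((∑ c ∈ range p, g p c) / p)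

/-- Block MC. Integers divisible by a moved fixed prime or by a prime just above `√x`. -/
def Stmt_MC : Prop :=
  ∃ C : ℝ, 0 < C ∧ ∀ (π : ℕ → ℤ → ℝ) (c₁ c₂ : ℝ), Law π c₁ c₂ → ∀ κ : ℝ, 0 < κ → κ ≤ 1 / 10 →
    ∀ B : ℕ, 2 ≤ B → ∃ z0 : ℕ, ∀ z : ℕ, z0 ≤ z → ∀ p0 : ℕ, (p0 = 0 ∨ (p0.Prime ∧ 7 < p0)) →
    ∀ x : ℕ, InR κ z x → ∀ v : ℕ → ℤ, (∀ p, v p ∈ sgn) → ∀ a : ℕ, ∀ S : Finset ℕ,
      (∀ n ∈ S, n ∈ Ioc x (2 * x) ∧ n ≡ a [MOD qq z p0] ∧ SurvF v (AA κ B z p0) x n ∧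
        ∃ b : ℕ, b.Prime ∧ b ∣ n ∧ (b ∈ MV v (AA κ B z p0) z x ∨ (x < b * b ∧ b * b ≤ 2 * x))) →
      ∑ n ∈ S, Wt π (AA κ B z p0) n ≤
        C * (mvm v (AA κ B z p0) z x + 1 / z) * (x * Real.log z / (qq z p0 * Real.log x))

/-- Block Q2. The squares of the survival probabilities. -/
def Stmt_Q2 : Prop :=
  ∀ (π : ℕ → ℤ → ℝ) (c₁ c₂ : ℝ), Law π c₁ c₂ → ∀ δ : ℝ, 0 < δ → ∀ κ : ℝ, 0 < κ → κ ≤ 1 / 10 →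
    ∀ B : ℕ, 2 ≤ B → ∃ z0 : ℕ, ∀ z : ℕ, z0 ≤ z → ∀ p0 : ℕ, (p0 = 0 ∨ (p0.Prime ∧ 7 < p0)) →
    ∀ x : ℕ, InR κ z x → ∀ v : ℕ → ℤ, (∀ p, v p ∈ sgn) → ∀ a : ℕ, ∀ S : Finset ℕ,
      (∀ n ∈ S, n ∈ Ioc x (2 * x) ∧ n ≡ a [MOD qq z p0] ∧ SurvF v (AA κ B z p0) x n) →
      ∑ n ∈ S, Wt π (AA κ B z p0) n ^ 2 ≤ δ * (x * Real.log z / (qq z p0 * Real.log x))

/-- Block H1. Few integers `n` free of primes of `A` with few primes of `A` dividing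
`n ^ 2 - 1`. -/
def Stmt_H1 : Prop :=
  ∀ κ : ℝ, 0 < κ → κ ≤ 1 / 50 → ∀ B : ℕ, 2 ≤ B → ∃ z0 : ℕ, ∀ z : ℕ, z0 ≤ z →
    ∀ p0 : ℕ, (p0 = 0 ∨ (p0.Prime ∧ 7 < p0)) → ∀ x : ℕ, InR κ z x → ∀ a : ℕ, ∀ S : Finset ℕ,
      (∀ n ∈ S, n ∈ Ioc x (2 * x) ∧ n ≡ a [MOD qq z p0] ∧ (∀ p ∈ AA κ B z p0, ¬ p ∣ n) ∧
        ((((AA κ B z p0).filter fun p => p ∣ n ^ 2 - 1).card : ℕ) : ℝ) < Real.log z / 100) →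
      (S.card : ℝ) ≤ x / qq z p0 * (z : ℝ) ^ (-(5 / 2) : ℝ)

/-- Block H2. Few integers `n` with `n`, `n + 2` free of primes of `A` and few primes of `A`
dividing `n - 1` (respectively `n + 3`). -/
def Stmt_H2 : Prop :=
  ∀ κ : ℝ, 0 < κ → κ ≤ 1 / 50 → ∀ B : ℕ, 2 ≤ B → ∃ z0 : ℕ, ∀ z : ℕ, z0 ≤ z →
    ∀ p0 : ℕ, (p0 = 0 ∨ (p0.Prime ∧ 7 < p0)) → ∀ x : ℕ, InR κ z x → ∀ a : ℕ, ∀ S : Finset ℕ,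
      (∀ n ∈ S, n ∈ Ioc x (2 * x) ∧ n ≡ a [MOD qq z p0] ∧
        (∀ p ∈ AA κ B z p0, ¬ p ∣ n ∧ ¬ p ∣ n + 2) ∧
        (((((AA κ B z p0).filter fun p => p ∣ n - 1).card : ℕ) : ℝ) < Real.log z / 100 ∨
         ((((AA κ B z p0).filter fun p => p ∣ n + 3).card : ℕ) : ℝ) < Real.log z / 100)) →
      (S.card : ℝ) ≤ x / qq z p0 * (z : ℝ) ^ (-(5 / 2) : ℝ)

/-- Block MT. Sums over primes. -/
def Stmt_MT : Prop :=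
  -- (1) the mass of the random primes
  (∀ κ : ℝ, 0 < κ → κ ≤ 1 / 10 → ∀ B : ℕ, 2 ≤ B → ∃ C : ℝ, ∀ z p0 : ℕ, 16 ≤ z →
    (p0 = 0 ∨ (p0.Prime ∧ 7 < p0)) →
    (1 - κ) * Real.log z - Real.log (Real.log z) - C ≤ ∑ p ∈ AA κ B z p0, 1 / (p : ℝ) ∧
    ∑ p ∈ AA κ B z p0, 1 / (p : ℝ) ≤ (1 - κ) * Real.log z - Real.log (Real.log z) + C) ∧
  -- (2) the weighted mass of the random primes tends to infinity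
  (∀ κ : ℝ, 0 < κ → κ ≤ 1 / 10 → ∀ B : ℕ, 2 ≤ B → ∀ m : ℝ, ∃ z0 : ℕ, ∀ z p0 : ℕ, z0 ≤ z →
    m ≤ ∑ p ∈ AA κ B z p0, 1 / ((p : ℝ) * Real.log (Real.log p))) ∧
  -- (3) but slowly
  (∀ κ : ℝ, 0 < κ → κ ≤ 1 / 10 → ∀ B : ℕ, 2 ≤ B → ∀ c : ℝ, 0 < c → ∃ z0 : ℕ, ∀ z p0 : ℕ, z0 ≤ z →
    ∑ p ∈ AA κ B z p0, 1 / ((p : ℝ) * Real.log (Real.log p)) ≤ c * Real.log z) ∧
  -- (4) the expected moved mass of the fixed primes is small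
  (∀ κ : ℝ, 0 < κ → κ ≤ 1 / 10 → ∀ B : ℕ, 2 ≤ B → ∃ z0 : ℕ, ∀ z p0 : ℕ, z0 ≤ z →
    ∀ x : ℕ, InR κ z x →
    ∑ p ∈ ((Ioc z (Nat.sqrt x)).filter Nat.Prime) \ AA κ B z p0,
      1 / ((p : ℝ) * Real.log (Real.log p)) ≤ 10 * κ) ∧
  -- (5) the product over the primes up to `z`
  (∃ C : ℝ, 0 < C ∧ ∀ z p0 : ℕ, 2 ≤ z → (p0 = 0 ∨ (p0.Prime ∧ 7 < p0)) →
    ((qq z p0).totient : ℝ) * Real.log z ≤ C * qq z p0 ∧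
    (qq z p0 : ℝ) ≤ C * (qq z p0).totient * Real.log z)

/-! ## The main estimates -/

/-- Block M. The mean of the survival probability in one class. -/
def Stmt_M : Prop :=
  ∀ (π : ℕ → ℤ → ℝ) (c₁ c₂ : ℝ), Law π c₁ c₂ → ∀ δ : ℝ, 0 < δ →
    ∃ μ0 : ℝ, 0 < μ0 ∧ ∃ K0 : ℕ, ∀ K : ℕ, K0 ≤ K → ∀ κ : ℝ, 0 < κ → κ ≤ 1 / 10 →
    ∀ B : ℕ, 2 ≤ B → ∃ z0 : ℕ, ∀ z : ℕ, z0 ≤ z → ∀ p0 : ℕ, Good (κ / 4) K z p0 →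
    ∀ x : ℕ, InR κ z x → ∀ v : ℕ → ℤ, (∀ p, v p ∈ sgn) → mvm v (AA κ B z p0) z x ≤ μ0 →
    ∀ a : ℕ, (a.gcd (qq z p0) : ℝ) ≤ (z : ℝ) ^ 7 → ∀ S : Finset ℕ,
      (∀ n ∈ S, n ∈ Ioc x (2 * x) ∧ n ≡ a [MOD qq z p0] ∧ SurvF v (AA κ B z p0) x n) →
      ∑ n ∈ S, Wt π (AA κ B z p0) n ≤ (1 + δ) * x / ((qq z p0).totient * Real.log x)

/-- `b` is the class of the rows: `b ≡ v p` modulo all primes `p ≤ z`, `p ≠ p0`. -/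
def IsB (v : ℕ → ℤ) (z p0 b : ℕ) : Prop :=
  b < qq z p0 ∧ ∀ p : ℕ, p.Prime → p ≤ z → p ≠ p0 → (p : ℤ) ∣ (b : ℤ) - v p

/-- Block RW (assembly). Good rows: a positive proportion of the rows has expected number of
survivors at most `lam * log x` and is not hard. -/
def Stmt_RW : Prop :=
  ∀ (π : ℕ → ℤ → ℝ) (c₁ c₂ : ℝ), Law π c₁ c₂ → ∀ lam : ℝ, ∀ g : ℝ, 0 < g →
    g * Real.exp Real.eulerMascheroniConstant / 2 < lam → ∀ K' : ℝ, 0 < K' →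
    ∃ ρ : ℝ, 0 < ρ ∧ ∃ κ0 : ℝ, 0 < κ0 ∧ κ0 ≤ 1 / 50 ∧ ∃ μ0 : ℝ, 0 < μ0 ∧ ∀ κ : ℝ, 0 < κ → κ ≤ κ0 →
    ∃ K : ℕ, 7 ≤ K ∧ ∀ B : ℕ, 2 ≤ B → ∃ z0 : ℕ, ∀ z : ℕ, z0 ≤ z → ∀ p0 : ℕ, Good (κ / 4) K z p0 →
    ∀ x U : ℕ, InR κ z x → (z : ℝ) ^ (2 + 3 * κ) ≤ U → (U : ℝ) ≤ ((z : ℝ) + 1) ^ (2 + 3 * κ) →
    (U : ℝ) ≤ (1 + ρ) * g * Real.log x ^ 2 →
    ∀ v : ℕ → ℤ, (∀ p, v p ∈ sgn) → mvm v (AA κ B z p0) z x ≤ μ0 → ∀ b : ℕ, IsB v z p0 b →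
    ∃ R : Finset ℕ, R ⊆ rows x (qq z p0) b U ∧ ρ * (x / qq z p0) ≤ R.card ∧ ∀ r ∈ R,
      (∑ n ∈ Sur v (AA κ B z p0) x U (r * qq z p0 + b),
        (Wt π (AA κ B z p0) n + K' * Wt π (AA κ B z p0) n ^ 2)) ≤ lam * Real.log x ∧
      (∀ n ∈ Sur v (AA κ B z p0) x U (r * qq z p0 + b), (∃ p ∈ AA κ B z p0, p ∣ n) ∨
        Real.log z / 100 ≤ ((((AA κ B z p0).filter fun p => p ∣ n ^ 2 - 1).card : ℕ) : ℝ)) ∧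
      (∀ n ∈ Sur v (AA κ B z p0) x U (r * qq z p0 + b),
        n + 2 ∈ Sur v (AA κ B z p0) x U (r * qq z p0 + b) →
        (∀ p ∈ AA κ B z p0, ¬ p ∣ n ∧ ¬ p ∣ n + 2) →
        Real.log z / 100 ≤ ((((AA κ B z p0).filter fun p => p ∣ n - 1).card : ℕ) : ℝ) ∧
        Real.log z / 100 ≤ ((((AA κ B z p0).filter fun p => p ∣ n + 3).card : ℕ) : ℝ))

/-! ## Probability -/

/-- Block CL. Clusters: lower bound for the probability that a row is empty. -/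
def Stmt_CL : Prop :=
  ∀ η0 : ℝ, 0 < η0 → ∃ K' : ℝ, 0 < K' ∧ ∀ (π : ℕ → ℤ → ℝ), (∀ p s, 0 ≤ π p s) →
    (∀ p, π p (-1) + π p 0 + π p 1 = 1) → ∀ (A : Finset ℕ) (x U N : ℕ) (v : ℕ → ℤ), 9 ≤ x →
    0 < N → (∀ p, v p ∈ sgn) →
    (∀ p ∈ A, p.Prime ∧ U + 6 < p ∧ p * p ≤ x ∧ 1 / 2 ≤ π p 0) →
    (2 : ℤ) ∣ (N : ℤ) - v 2 → (3 : ℤ) ∣ (N : ℤ) - v 3 →
    (∀ n ∈ Sur v A x U N, (∃ p ∈ A, p ∣ n) ∨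
      η0 ≤ ∑ p ∈ A.filter (fun p => p ∣ n - 1), π p 1 + ∑ p ∈ A.filter (fun p => p ∣ n + 1), π p (-1)) →
    (∀ n ∈ Sur v A x U N, n + 2 ∈ Sur v A x U N → (∀ p ∈ A, ¬ p ∣ n ∧ ¬ p ∣ n + 2) →
      η0 ≤ ∑ p ∈ A.filter (fun p => p ∣ n - 1), π p 1 ∧
      η0 ≤ ∑ p ∈ A.filter (fun p => p ∣ n + 3), π p (-1)) →
    Real.exp (-∑ n ∈ Sur v A x U N, (Wt π A n + K' * Wt π A n ^ 2)) ≤
      EA π A (ind (Emp x U N)) v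

/-- Block SM. Second moment. -/
def Stmt_SM : Prop :=
  ∀ (π : ℕ → ℤ → ℝ), (∀ p s, 0 ≤ π p s) → (∀ p, π p (-1) + π p 0 + π p 1 = 1) →
    ∀ (A : Finset ℕ) (Lam : ℝ), 1 ≤ Lam → (∀ p ∈ A, ∀ s ∈ sgn, 1 / Lam ≤ π p s) →
    ∀ (R : Finset ℕ) (S : ℕ → Set (ℕ → ℤ)) (D : ℕ → Finset ℕ) (H θ : ℝ) (v : ℕ → ℤ), R.Nonempty →
    0 < θ → (∀ r ∈ R, D r ⊆ A ∧ DependsOn (ind (S r)) ((D r : Set ℕ) ∪ (A : Set ℕ)ᶜ)) →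
    (∀ r ∈ R, θ ≤ EA π A (ind (S r)) v) →
    EA π A (ind {w | ∀ r ∈ R, w ∉ S r}) v ≤
      (∑ rr ∈ (R ×ˢ R).filter (fun rr => ((∏ p ∈ D rr.1 ∩ D rr.2, p : ℕ) : ℝ) ≤ H),
          (Lam ^ (D rr.1 ∩ D rr.2).card - 1) +
        (((R ×ˢ R).filter (fun rr => H < ((∏ p ∈ D rr.1 ∩ D rr.2, p : ℕ) : ℝ))).card : ℝ) / θ) /
        (R.card : ℝ) ^ 2

/-- Block PC. Pairs of rows with common primes. -/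
def Stmt_PC : Prop :=
  ∀ η : ℝ, 0 < η → ∃ B0 : ℕ, ∀ B : ℕ, B0 ≤ B → ∀ κ : ℝ, 0 < κ → κ ≤ 1 / 50 → ∃ z0 : ℕ,
    ∀ z : ℕ, z0 ≤ z → ∀ p0 : ℕ, ∀ x U b : ℕ, InR κ z x → U ≤ z ^ 3 → b < qq z p0 →
    ∑ rr ∈ (rows x (qq z p0) b U ×ˢ rows x (qq z p0) b U).filter (fun rr =>
        ((∏ p ∈ Dset (AA κ B z p0) U (rr.1 * qq z p0 + b) ∩
          Dset (AA κ B z p0) U (rr.2 * qq z p0 + b), p : ℕ) : ℝ) ≤ x / qq z p0),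
      ((z : ℝ) ^ (Dset (AA κ B z p0) U (rr.1 * qq z p0 + b) ∩
          Dset (AA κ B z p0) U (rr.2 * qq z p0 + b)).card - 1) ≤ (x / qq z p0) ^ 2 / z ∧
    (((rows x (qq z p0) b U ×ˢ rows x (qq z p0) b U).filter (fun rr => (x : ℝ) / qq z p0 <
        ((∏ p ∈ Dset (AA κ B z p0) U (rr.1 * qq z p0 + b) ∩
          Dset (AA κ B z p0) U (rr.2 * qq z p0 + b), p : ℕ) : ℝ))).card : ℝ) ≤
      (x / qq z p0) ^ 2 * (x : ℝ) ^ (-(1 - η))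

/-- all primes whose square is at most `x` -/
noncomputable def PX (x : ℕ) : Finset ℕ := (Icc 1 (Nat.sqrt x)).filter Nat.Prime

/-- Block SC (assembly). At arbitrarily large scales the probability that there is no empty
window is small. -/
def Stmt_SC : Prop :=
  ∀ (π : ℕ → ℤ → ℝ) (c₁ c₂ : ℝ), Law π c₁ c₂ → ∀ g : ℝ, 0 < g →
    g < 2 * Real.exp (-Real.eulerMascheroniConstant) → ∀ δ : ℝ, 0 < δ → ∀ x0 : ℕ, ∃ x U : ℕ,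
    x0 ≤ x ∧ g * Real.log x ^ 2 + 1 ≤ U ∧
      EA π (PX x) (ind {w | ∀ N : ℕ, x ≤ N → N + U ≤ 2 * x → w ∉ Emp x U N}) 0 ≤ δ

/-- Block IB. Brun's sieve: rough numbers in short intervals. -/
def Stmt_IB : Prop :=
  ∃ C : ℝ, 0 < C ∧ ∃ x0 : ℕ, ∀ x : ℕ, x0 ≤ x → ∀ M w : ℕ,
    (w : ℝ) ≤ Real.exp (Real.log x / (C * Real.log (Real.log x))) →
    (x : ℝ) / Real.log x ^ 2 ≤ (((Ioc M (M + x)).filter fun m => m.Coprime (primorial w)).card : ℝ)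

/-- Block IN. With probability tending to one `(x, 2x]` contains a member of the set. -/
def Stmt_IN : Prop :=
  ∀ (π : ℕ → ℤ → ℝ) (c₁ c₂ : ℝ), Law π c₁ c₂ → ∀ δ : ℝ, 0 < δ → ∃ x0 : ℕ, ∀ x : ℕ, x0 ≤ x →
    EA π (PX (2 * x)) (ind {w | ∀ n ∈ Ioc x (2 * x), n ∉ Shifted w}) 0 ≤ δ

/-- Block PR. Link with independent random variables: the probability of an event which
depends on the finitely many coordinates in `T`. -/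
def Stmt_PR : Prop :=
  ∀ {Ω : Type} [MeasurableSpace Ω] (μ : MeasureTheory.Measure Ω)
    [MeasureTheory.IsProbabilityMeasure μ] (u : ℕ → Ω → ℤ), (∀ p, Measurable (u p)) →
    ProbabilityTheory.iIndepFun u μ → ∀ (π : ℕ → ℤ → ℝ) (T : Finset ℕ),
    (∀ p ∈ T, ∀ᵐ ω ∂μ, u p ω ∈ sgn) → (∀ p ∈ T, ∀ s ∈ sgn, μ.real {ω | u p ω = s} = π p s) →
    ∀ S : Set (ℕ → ℤ), DependsOn (ind S) (T : Set ℕ) →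
      MeasurableSet {ω | (fun p => u p ω) ∈ S} ∧
      μ.real {ω | (fun p => u p ω) ∈ S} = EA π T (ind S) 0

end Pool.Agent.Work.MP_b0c12c_nt_shift
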