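import Mathlib
import Pool.Agent.Work.MP_b0c12c_nt.Small
import Pool.Agent.Work.MP_b0c12c_nt.Dens3
import Pool.Agent.Work.MP_b0c12c_nt_helper6.LogD
import Pool.Agent.Work.MP_b0c12c_nt_shift.Interface

/-!
# Block CS: the nonprincipal characters contribute `z ^ (-2) * exp l`
-/

set_option autoImplicit false

namespace Pool.Agent.Work.MP_b0c12c_nt_shift

open Filter Finset DirichletCharacter
open scoped Topology
open Pool.Agent.Work.MP_b0c12c_nt.Itf2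
open Pool.Agent.Work.MP_b0c12c_nt.Lev

theorem CS_aux (hD : Density) (hGB : GaussBound) {κ κ' : ℝ} (hκ' : 0 < κ') (hκ : κ' < κ)
    (B : ℝ) {τ : ℝ} (hτ : 0 < τ) (hτ1 : τ ≤ 1) :
    ∃ z0 : ℕ, ∀ z : ℕ, z0 ≤ z → ∀ (q : ℕ) [NeZero q], (q : ℝ) ≤ Real.exp (3 / 2 * z) →
      (∀ χ : DirichletCharacter ℂ q, χ ≠ 1 → ZF χ (1 - (3 * (z : ℝ)) ^ (-(1 + κ'))) ((z : ℝ) + 3)) →
      ∀ l : ℝ, (z : ℝ) ^ (1 + κ) / 2 ≤ l → l ≤ 2 * (z : ℝ) ^ B →
        ∑ χ ∈ (univ : Finset (DirichletCharacter ℂ q)).filter (fun χ => χ ≠ 1),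
          ‖gaussSum' χ τ (Real.exp l)‖ ≤ (z : ℝ) ^ (-2 : ℝ) * Real.exp l := by
  obtain ⟨C, hC, hD⟩ := hD
  obtain ⟨C₂, hC₂, hG⟩ := hGB τ hτ hτ1
  -- the two error functions
  set c : ℝ := (3 : ℝ) ^ (-(1 + κ')) / 4 with hc
  have hc0 : 0 < c := by positivity
  set K1 : ℝ := C₂ * 12 * (3 : ℝ) ^ (1 + κ') * (1 + 4 * C * (3 : ℝ) ^ C) with hK1
  have hK1' : 0 < K1 := by positivity
  set m1 : ℝ := (1 + 2 * B) + (1 + κ') + (1 + C) with hm1
  have t1 : Tendsto (fun x : ℝ => K1 * (x ^ (m1 + 2) * Real.exp (-c * x ^ (κ - κ')))) atTop (𝓝 0) := by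
    have := (tendsto_pow_exp (m1 + 2) c (κ - κ') hc0 (by linarith)).const_mul K1
    simpa using this
  have t2 : Tendsto (fun x : ℝ => (C₂ * 12) * (x ^ (1 + 2 * B + 2) * Real.exp (-1 * x ^ (1 : ℝ))))
      atTop (𝓝 0) := by
    have := (tendsto_pow_exp (1 + 2 * B + 2) 1 1 one_pos one_pos).const_mul (C₂ * 12)
    simpa using this
  have e1 := t1.eventually_lt_const (show (0 : ℝ) < 1 / 2 by positivity)
  have e2 := t2.eventually_lt_const (show (0 : ℝ) < 1 / 2 by positivity)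
  have e3 : ∀ᶠ x : ℝ in atTop, 4 * (6 * C + 12) ≤ x ^ κ :=
    (tendsto_rpow_atTop (by linarith : (0 : ℝ) < κ)).eventually_ge_atTop _
  have e4 := eventually_ge_atTop (8 / τ ^ 2 : ℝ)
  have e5 := eventually_ge_atTop (2 : ℝ)
  have hev : ∀ᶠ z : ℕ in atTop, (K1 * ((z : ℝ) ^ (m1 + 2) * Real.exp (-c * (z : ℝ) ^ (κ - κ'))) < 1 / 2 ∧
      (C₂ * 12) * ((z : ℝ) ^ (1 + 2 * B + 2) * Real.exp (-1 * (z : ℝ) ^ (1 : ℝ))) < 1 / 2 ∧
      4 * (6 * C + 12) ≤ (z : ℝ) ^ κ ∧ 8 / τ ^ 2 ≤ (z : ℝ) ∧ (2 : ℝ) ≤ z) :=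
    tendsto_natCast_atTop_atTop.eventually (e1.and (e2.and (e3.and (e4.and e5))))
  obtain ⟨z0, hz0⟩ := eventually_atTop.1 hev
  refine ⟨z0, fun z hz q _ hq hZ l hl1 hl2 => ?_⟩
  obtain ⟨f1, f2, f3, f4, f5⟩ := hz0 z hz
  set x : ℝ := (z : ℝ) with hx
  have hz2 : 2 ≤ z := by
    have h : (2 : ℝ) ≤ (z : ℝ) := f5
    exact_mod_cast h
  have hx0 : 0 < x := by linarith
  have hx1 : 1 ≤ x := by linarith
  have hqx : (q : ℝ) * (x + 5) ≤ Real.exp (3 * x) := by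
    have h3 : x + 5 ≤ Real.exp (3 / 2 * x) := by
      have := Real.quadratic_le_exp_of_nonneg (show (0 : ℝ) ≤ 3 / 2 * x by positivity)
      nlinarith
    calc (q : ℝ) * (x + 5) ≤ Real.exp (3 / 2 * x) * Real.exp (3 / 2 * x) := by
          apply mul_le_mul hq h3 (by positivity) (by positivity)
      _ = Real.exp (3 * x) := by rw [← Real.exp_add]; ring_nf
  have hx2 : ∀ a : ℝ, x ^ a = x ^ (-2 : ℝ) * x ^ (a + 2) := by
    intro a
    rw [← Real.rpow_add hx0]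
    ring_nf
  have hx20 : 0 < x ^ (-2 : ℝ) := by positivity
  have f1' : K1 * (x ^ m1 * Real.exp (-c * x ^ (κ - κ'))) ≤ x ^ (-2 : ℝ) / 2 := by
    rw [hx2 m1]
    nlinarith
  have f2' : (C₂ * 12) * (x ^ (1 + 2 * B) * Real.exp (-1 * x ^ (1 : ℝ))) ≤ x ^ (-2 : ℝ) / 2 := by
    rw [hx2 (1 + 2 * B)]
    nlinarith
  set η : ℝ := (3 * x) ^ (-(1 + κ')) with hη
  have hη0 : 0 < η := by positivity
  have hη4 : η ≤ 1 / 4 := by
    have h1 : η ≤ (3 * x) ^ (-1 : ℝ) := by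
      apply Real.rpow_le_rpow_of_exponent_le (by linarith)
      linarith
    rw [Real.rpow_neg_one] at h1
    have h2 : (3 * x)⁻¹ ≤ 4⁻¹ := by
      apply inv_anti₀ (by norm_num)
      linarith
    linarith
  have hxpow : x ^ (1 + κ) = x * x ^ κ := by
    rw [Real.rpow_add hx0, Real.rpow_one]
  have hl : 2 * (6 * C + 12) * x ≤ l := by
    refine le_trans ?_ hl1
    rw [hxpow]
    nlinarith
  have hl24 : 24 * x ≤ l := by nlinarith
  have hl0 : 0 < l := by linarith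
  have hY8 : (8 : ℝ) ≤ Real.exp l := by
    have := Real.add_one_le_exp l
    linarith
  have hq1 : (1 : ℝ) ≤ (q : ℝ) := by exact_mod_cast Nat.one_le_iff_ne_zero.2 (NeZero.ne q)
  have hlogq : Real.log ((q : ℝ) * (x + 2)) ≤ 3 * x := by
    rw [← Real.log_exp (3 * x)]
    apply Real.log_le_log (by positivity)
    refine le_trans ?_ hqx
    nlinarith
  have hlogq0 : 0 ≤ Real.log ((q : ℝ) * (x + 2)) := by
    apply Real.log_nonneg
    nlinarith
  set A : ℝ := C₂ * (3 * x) * l ^ 2 with hA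
  have hA0 : 0 < A := by positivity
  set E : ℝ := Real.exp (-τ ^ 2 * x ^ 2 / 2) with hE
  have hE0 : 0 < E := Real.exp_pos _
  have hGb : ∀ χ : DirichletCharacter ℂ q, χ ≠ 1 → ∀ σ₀ : ℝ, 1 / 2 ≤ σ₀ → σ₀ ≤ 1 →
      ZF χ σ₀ (x + 3) → ‖gaussSum' χ τ (Real.exp l)‖ / A - Real.exp l * E ≤ Real.exp (σ₀ * l) := by
    intro χ hχ σ₀ h1 h2 h3
    have h4 := hG q χ hχ x σ₀ (Real.exp l) hx1 h1 h2 hY8 h3
    rw [Real.log_exp] at h4
    have h5 : (Real.exp l) ^ σ₀ = Real.exp (σ₀ * l) := by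
      rw [← Real.exp_mul]
      ring_nf
    rw [h5] at h4
    have h6 : ‖gaussSum' χ τ (Real.exp l)‖ ≤ A * (Real.exp (σ₀ * l) + Real.exp l * E) := by
      refine h4.trans ?_
      rw [hA]
      gcongr
    have h7 : ‖gaussSum' χ τ (Real.exp l)‖ / A ≤ Real.exp (σ₀ * l) + Real.exp l * E := by
      rw [div_le_iff₀ hA0]
      linarith
    linarith
  have hmain := main_sum hC hD hx1 hqx hη0 hη4 hZ hl
    (fun χ => ‖gaussSum' χ τ (Real.exp l)‖ / A - Real.exp l * E) hGb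
  set S := (univ : Finset (DirichletCharacter ℂ q)).filter (fun χ => χ ≠ 1) with hS
  rw [Finset.sum_sub_distrib, Finset.sum_const, nsmul_eq_mul, ← Finset.sum_div] at hmain
  have hcard : (S.card : ℝ) ≤ Real.exp (3 * x) := by
    refine (card_chars_le S).trans (le_trans ?_ hqx)
    nlinarith
  have h8 : (∑ χ ∈ S, ‖gaussSum' χ τ (Real.exp l)‖) ≤
      A * ((1 / (2 * η) + 1) * (1 + C * (x + 3) * (3 * x) ^ C) *
        (Real.exp l * Real.exp (-(η * l / 2))) + Real.exp (3 * x) * (Real.exp l * E)) := by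
    have h9 : (∑ χ ∈ S, ‖gaussSum' χ τ (Real.exp l)‖) / A ≤
      ((1 / (2 * η) + 1) * (1 + C * (x + 3) * (3 * x) ^ C) *
        (Real.exp l * Real.exp (-(η * l / 2))) + Real.exp (3 * x) * (Real.exp l * E)) := by
      have h10 : (S.card : ℝ) * (Real.exp l * E) ≤ Real.exp (3 * x) * (Real.exp l * E) := by
        gcongr
      linarith
    rw [div_le_iff₀ hA0] at h9
    linarith
  refine h8.trans ?_
  -- first error
  have hAle : A ≤ C₂ * 12 * x ^ (1 + 2 * B) := by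
    have h1 : l ^ 2 ≤ (2 * x ^ B) ^ 2 := by
      apply pow_le_pow_left₀ hl0.le hl2
    have h2 : (2 * x ^ B) ^ 2 = 4 * x ^ (2 * B) := by
      rw [mul_pow, ← Real.rpow_natCast (x ^ B) 2, ← Real.rpow_mul hx0.le]
      norm_num
      ring_nf
    have h3 : x ^ (1 + 2 * B) = x * x ^ (2 * B) := by
      rw [Real.rpow_add hx0, Real.rpow_one]
    rw [hA, h3]
    rw [h2] at h1
    nlinarith [mul_pos hC₂ hx0, mul_le_mul_of_nonneg_left h1 (mul_pos hC₂ hx0).le]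
  have hηle : 1 / (2 * η) + 1 ≤ (3 : ℝ) ^ (1 + κ') * x ^ (1 + κ') := by
    have h1 : 1 / η = (3 * x) ^ (1 + κ') := by
      rw [hη, Real.rpow_neg (by positivity), one_div, inv_inv]
    have h2 : 4 ≤ 1 / η := by
      rw [le_div_iff₀ hη0]
      linarith
    have h3 : 1 / (2 * η) = (1 / η) / 2 := by
      field_simp
    rw [h3, ← Real.mul_rpow (by norm_num) hx0.le, ← h1]
    linarith
  have hDle : 1 + C * (x + 3) * (3 * x) ^ C ≤ (1 + 4 * C * (3 : ℝ) ^ C) * x ^ (1 + C) := by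
    have h1 : x ^ (1 + C) = x * x ^ C := by
      rw [Real.rpow_add hx0, Real.rpow_one]
    have h2 : (3 * x) ^ C = (3 : ℝ) ^ C * x ^ C := Real.mul_rpow (by norm_num) hx0.le
    have h3 : 1 ≤ x ^ C := Real.one_le_rpow hx1 hC.le
    have h4 : 0 ≤ C * ((3 : ℝ) ^ C * x ^ C) := by positivity
    have h5 : C * (x + 3) * ((3 : ℝ) ^ C * x ^ C) ≤ C * (4 * x) * ((3 : ℝ) ^ C * x ^ C) := by
      nlinarith
    rw [h1, h2]
    nlinarith
  have hexp : Real.exp (-(η * l / 2)) ≤ Real.exp (-c * x ^ (κ - κ')) := by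
    apply Real.exp_le_exp.2
    have h1 : c * x ^ (κ - κ') = (3 * x) ^ (-(1 + κ')) * (x ^ (1 + κ) / 2) / 2 := by
      rw [hc, Real.mul_rpow (by norm_num) hx0.le]
      have : x ^ (κ - κ') = x ^ (-(1 + κ')) * x ^ (1 + κ) := by
        rw [← Real.rpow_add hx0]
        ring_nf
      rw [this]
      ring
    have h2 : η * (x ^ (1 + κ) / 2) ≤ η * l := by gcongr
    have h3 : -c * x ^ (κ - κ') = -(c * x ^ (κ - κ')) := by ring
    rw [h3, h1]
    linarith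
  have hfirst : A * ((1 / (2 * η) + 1) * (1 + C * (x + 3) * (3 * x) ^ C) *
        (Real.exp l * Real.exp (-(η * l / 2)))) ≤ x ^ (-2 : ℝ) / 2 * Real.exp l := by
    have h1 : x ^ m1 = x ^ (1 + 2 * B) * x ^ (1 + κ') * x ^ (1 + C) := by
      rw [hm1, Real.rpow_add hx0, Real.rpow_add hx0]
    calc A * ((1 / (2 * η) + 1) * (1 + C * (x + 3) * (3 * x) ^ C) *
        (Real.exp l * Real.exp (-(η * l / 2))))
        ≤ (C₂ * 12 * x ^ (1 + 2 * B)) * (((3 : ℝ) ^ (1 + κ') * x ^ (1 + κ')) *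
          ((1 + 4 * C * (3 : ℝ) ^ C) * x ^ (1 + C)) *
          (Real.exp l * Real.exp (-c * x ^ (κ - κ')))) := by gcongr
      _ = (K1 * (x ^ m1 * Real.exp (-c * x ^ (κ - κ')))) * Real.exp l := by
          rw [h1, hK1]
          ring
      _ ≤ x ^ (-2 : ℝ) / 2 * Real.exp l := by
          apply mul_le_mul_of_nonneg_right f1' (Real.exp_pos _).le
  have hsecond : A * (Real.exp (3 * x) * (Real.exp l * E)) ≤ x ^ (-2 : ℝ) / 2 * Real.exp l := by
    have h1 : Real.exp (3 * x) * E ≤ Real.exp (-1 * x ^ (1 : ℝ)) := by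
      rw [hE, ← Real.exp_add]
      apply Real.exp_le_exp.2
      rw [Real.rpow_one]
      have h2 : 8 ≤ x * τ ^ 2 := by
        rw [div_le_iff₀ (by positivity)] at f4
        exact f4
      nlinarith
    calc A * (Real.exp (3 * x) * (Real.exp l * E))
        = A * (Real.exp (3 * x) * E) * Real.exp l := by ring
      _ ≤ (C₂ * 12 * x ^ (1 + 2 * B)) * Real.exp (-1 * x ^ (1 : ℝ)) * Real.exp l := by gcongr
      _ = ((C₂ * 12) * (x ^ (1 + 2 * B) * Real.exp (-1 * x ^ (1 : ℝ)))) * Real.exp l := by ring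
      _ ≤ x ^ (-2 : ℝ) / 2 * Real.exp l := by
          apply mul_le_mul_of_nonneg_right f2' (Real.exp_pos _).le
  rw [mul_add]
  linarith


theorem stmt_CS : Stmt_CS := by
  intro κ κ' B τ hκ' hκ hτ hτ1
  exact CS_aux Pool.Agent.Work.MP_b0c12c_nt.Dens.density
    Pool.Agent.Work.MP_b0c12c_nt_helper6.gaussBound' hκ' hκ B hτ hτ1

end Pool.Agent.Work.MP_b0c12c_nt_shift
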