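import Mathlib
import Pool.Agent.Work.MP_b0c12c_nt_helper6.GaussPnt
import Pool.Agent.Work.MP_b0c12c_nt_shift.CS

/-!
# Block PN: the prime number theorem for one residue class, Gaussian weight, both signs
-/

set_option autoImplicit false

namespace Pool.Agent.Work.MP_b0c12c_nt_shift

open Filter Finset ArithmeticFunction
open scoped Topology
open Pool.Agent.Work.MP_b0c12c_nt.Itf2
open Pool.Agent.Work.MP_b0c12c_nt.Assem (wt wt_pos term_nonneg)

namespace PNaux

/-- two sided version of `Assem.class_sum` -/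
theorem class_sum2 {τ Y : ℝ} (hs : Summable fun n : ℕ => Λ n * wt τ Y n) {q : ℕ} [NeZero q]
    {a : ℕ} (ha : a.Coprime q) :
    |(q.totient : ℝ) * ∑' n : ℕ, (if n ≡ a [MOD q] then Λ n * wt τ Y n else 0) -
      ∑' n : ℕ, Λ n * wt τ Y n| ≤
      (∑' n : ℕ, (if n.Coprime q then 0 else Λ n * wt τ Y n)) +
      ∑ χ ∈ (univ : Finset (DirichletCharacter ℂ q)).filter (fun χ => χ ≠ 1),
        ‖gaussSum' χ τ Y‖ := by
  classical
  set f : ℕ → ℝ := fun n => Λ n * wt τ Y n with hf
  have hf0 : ∀ n, 0 ≤ f n := term_nonneg τ Y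
  have hgs : ∀ χ : DirichletCharacter ℂ q, gaussSum' χ τ Y = ∑' n : ℕ, (f n : ℂ) * χ n := by
    intro χ
    unfold gaussSum'
    refine tsum_congr fun n => ?_
    simp only [hf, wt]
    push_cast
    ring
  have hsχ : ∀ χ : DirichletCharacter ℂ q, Summable fun n : ℕ => (f n : ℂ) * χ n := by
    intro χ
    refine Summable.of_norm_bounded hs fun n => ?_
    rw [norm_mul, Complex.norm_real, Real.norm_of_nonneg (hf0 n)]
    calc f n * ‖χ (n : ZMod q)‖ ≤ f n * 1 := by
          apply mul_le_mul_of_nonneg_left (χ.norm_le_one _) (hf0 n)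
      _ = f n := mul_one _
  have haU : IsUnit ((a : ℕ) : ZMod q) := (ZMod.isUnit_iff_coprime a q).2 ha
  -- orthogonality
  have h1 : ∑ χ : DirichletCharacter ℂ q, χ ((a : ZMod q)⁻¹) * gaussSum' χ τ Y =
      ((q.totient : ℝ) : ℂ) * ((∑' n : ℕ, (if n ≡ a [MOD q] then f n else 0) : ℝ) : ℂ) := by
    have h2 : ∀ χ : DirichletCharacter ℂ q, χ ((a : ZMod q)⁻¹) * gaussSum' χ τ Y =
        ∑' n : ℕ, χ ((a : ZMod q)⁻¹) * ((f n : ℂ) * χ n) := by
      intro χ
      rw [hgs, tsum_mul_left]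
    simp only [h2]
    rw [← Summable.tsum_finsetSum (fun χ _ => (hsχ χ).mul_left _)]
    rw [Complex.ofReal_tsum, ← tsum_mul_left]
    refine tsum_congr fun n => ?_
    have h3 : ∑ χ : DirichletCharacter ℂ q, χ ((a : ZMod q)⁻¹) * ((f n : ℂ) * χ n) =
        (f n : ℂ) * ∑ χ : DirichletCharacter ℂ q, χ ((a : ZMod q)⁻¹) * χ n := by
      rw [Finset.mul_sum]
      refine Finset.sum_congr rfl fun χ _ => ?_
      ring
    rw [h3, DirichletCharacter.sum_char_inv_mul_char_eq ℂ haU]
    have h4 : ((a : ZMod q) = n) ↔ n ≡ a [MOD q] := by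
      rw [ZMod.natCast_eq_natCast_iff]
      exact ⟨fun h => h.symm, fun h => h.symm⟩
    by_cases h5 : n ≡ a [MOD q]
    · rw [if_pos h5, if_pos (h4.2 h5)]
      push_cast
      ring
    · rw [if_neg h5, if_neg (fun h => h5 (h4.1 h))]
      simp
  -- principal character
  have hone : gaussSum' (1 : DirichletCharacter ℂ q) τ Y =
      ((∑' n : ℕ, (if n.Coprime q then f n else 0) : ℝ) : ℂ) := by
    rw [hgs, Complex.ofReal_tsum]
    refine tsum_congr fun n => ?_
    by_cases h5 : n.Coprime q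
    · rw [if_pos h5, MulChar.one_apply ((ZMod.isUnit_iff_coprime n q).2 h5), mul_one]
    · rw [if_neg h5, MulChar.map_nonunit _ (fun h => h5 ((ZMod.isUnit_iff_coprime n q).1 h))]
      simp
  have hainv : IsUnit ((a : ZMod q)⁻¹) :=
    isUnit_iff_exists_inv'.2 ⟨(a : ZMod q), ZMod.mul_inv_of_unit _ haU⟩
  have hs1 : Summable fun n : ℕ => (if n.Coprime q then f n else 0) := by
    refine Summable.of_nonneg_of_le (fun n => ?_) (fun n => ?_) hs
    · split_ifs
      · exact hf0 n
      · exact le_rfl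
    · split_ifs
      · exact le_rfl
      · exact hf0 n
  have hs2 : Summable fun n : ℕ => (if n.Coprime q then 0 else f n) := by
    refine Summable.of_nonneg_of_le (fun n => ?_) (fun n => ?_) hs
    · split_ifs
      · exact le_rfl
      · exact hf0 n
    · split_ifs
      · exact hf0 n
      · exact le_rfl
  have hsplit : ∑' n : ℕ, f n = ∑' n : ℕ, (if n.Coprime q then f n else 0) +
      ∑' n : ℕ, (if n.Coprime q then 0 else f n) := by
    rw [← hs1.tsum_add hs2]
    refine tsum_congr fun n => ?_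
    split_ifs <;> simp
  have h9 : ∑ χ : DirichletCharacter ℂ q, χ ((a : ZMod q)⁻¹) * gaussSum' χ τ Y =
      gaussSum' (1 : DirichletCharacter ℂ q) τ Y +
      ∑ χ ∈ (univ : Finset (DirichletCharacter ℂ q)).filter (fun χ => χ ≠ 1),
        χ ((a : ZMod q)⁻¹) * gaussSum' χ τ Y := by
    rw [← Finset.add_sum_erase univ _ (Finset.mem_univ (1 : DirichletCharacter ℂ q))]
    congr 1
    · rw [MulChar.one_apply hainv, one_mul]
    · apply Finset.sum_congr _ (fun _ _ => rfl)
      ext χ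
      simp
  have h10 : (((q.totient : ℝ) * ∑' n : ℕ, (if n ≡ a [MOD q] then f n else 0) -
      ∑' n : ℕ, f n : ℝ) : ℂ) = -((∑' n : ℕ, (if n.Coprime q then 0 else f n) : ℝ) : ℂ) +
      ∑ χ ∈ (univ : Finset (DirichletCharacter ℂ q)).filter (fun χ => χ ≠ 1),
        χ ((a : ZMod q)⁻¹) * gaussSum' χ τ Y := by
    rw [h9, hone] at h1
    rw [hsplit]
    push_cast
    push_cast at h1
    rw [← h1]
    ring
  have h11 : 0 ≤ ∑' n : ℕ, (if n.Coprime q then 0 else f n) := by
    apply tsum_nonneg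
    intro n
    split_ifs
    · exact le_rfl
    · exact hf0 n
  calc |(q.totient : ℝ) * ∑' n : ℕ, (if n ≡ a [MOD q] then f n else 0) - ∑' n : ℕ, f n|
      = ‖(((q.totient : ℝ) * ∑' n : ℕ, (if n ≡ a [MOD q] then f n else 0) -
      ∑' n : ℕ, f n : ℝ) : ℂ)‖ := by rw [Complex.norm_real, Real.norm_eq_abs]
    _ ≤ ‖-((∑' n : ℕ, (if n.Coprime q then 0 else f n) : ℝ) : ℂ)‖ +
      ‖∑ χ ∈ (univ : Finset (DirichletCharacter ℂ q)).filter (fun χ => χ ≠ 1),
        χ ((a : ZMod q)⁻¹) * gaussSum' χ τ Y‖ := by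
        rw [h10]
        exact norm_add_le _ _
    _ ≤ _ := by
        apply add_le_add
        · rw [norm_neg, Complex.norm_real, Real.norm_of_nonneg h11]
        · refine (norm_sum_le _ _).trans (Finset.sum_le_sum fun χ _ => ?_)
          rw [norm_mul]
          calc ‖χ ((a : ZMod q)⁻¹)‖ * ‖gaussSum' χ τ Y‖ ≤ 1 * ‖gaussSum' χ τ Y‖ := by
                apply mul_le_mul_of_nonneg_right (χ.norm_le_one _) (norm_nonneg _)
            _ = _ := one_mul _

/-- the integers that are not coprime to `q` contribute little -/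
theorem noncoprime_le {τ l : ℝ} (hτ : 0 < τ) (hτ1 : τ ≤ 1) (hl : 12 ≤ l)
    (hs : Summable fun n : ℕ => Λ n * wt τ (Real.exp l) n) {q : ℕ} (hq : q ≠ 0) :
    ∑' n : ℕ, (if n.Coprime q then 0 else Λ n * wt τ (Real.exp l) n) ≤
      q * (4 * l + 1) * (2 * l) + 2 := by
  classical
  set f : ℕ → ℝ := fun n => Λ n * wt τ (Real.exp l) n with hf
  have hf0 : ∀ n, 0 ≤ f n := term_nonneg τ _
  have hs2 : Summable fun n : ℕ => (if n.Coprime q then 0 else f n) := by
    refine Summable.of_nonneg_of_le (fun n => ?_) (fun n => ?_) hs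
    · split_ifs
      · exact le_rfl
      · exact hf0 n
    · split_ifs
      · exact hf0 n
      · exact le_rfl
  set k0 : ℕ := ⌊4 * l⌋₊ with hk0
  set F : Finset ℕ := (q.primeFactors ×ˢ range (k0 + 1)).image fun x => x.1 ^ x.2 with hF
  have hFcard : (F.card : ℝ) ≤ q * (4 * l + 1) := by
    have h1 : F.card ≤ q * (k0 + 1) := by
      refine Finset.card_image_le.trans ?_
      rw [Finset.card_product, Finset.card_range]
      apply Nat.mul_le_mul_right
      calc q.primeFactors.card ≤ (Finset.Icc 1 q).card := by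
            apply Finset.card_le_card
            intro p hp
            rw [Finset.mem_Icc]
            exact ⟨(Nat.prime_of_mem_primeFactors hp).one_lt.le, Nat.le_of_mem_primeFactors hp⟩
        _ = q := by simp
    have h2 : (k0 : ℝ) ≤ 4 * l := Nat.floor_le (by linarith)
    calc (F.card : ℝ) ≤ ((q * (k0 + 1) : ℕ) : ℝ) := by exact_mod_cast h1
      _ = q * ((k0 : ℝ) + 1) := by push_cast; ring
      _ ≤ _ := by gcongr
  have hwt1 : ∀ n : ℕ, wt τ (Real.exp l) n ≤ 1 := by
    intro n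
    unfold wt
    apply Real.exp_le_one_iff.2
    apply div_nonpos_of_nonpos_of_nonneg
    · have := sq_nonneg (Real.log (n / Real.exp l))
      linarith
    · positivity
  have key : ∀ n : ℕ, (if n.Coprime q then 0 else f n) ≤
      (if n ∈ F then 2 * l else 0) + 1 / (n : ℝ) ^ 2 := by
    intro n
    have hpos : 0 ≤ (if n ∈ F then 2 * l else 0) + 1 / (n : ℝ) ^ 2 := by
      have : (0 : ℝ) ≤ (if n ∈ F then 2 * l else 0) := by
        split_ifs
        · linarith
        · exact le_rfl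
      positivity
    by_cases hc : n.Coprime q
    · rw [if_pos hc]
      exact hpos
    rw [if_neg hc]
    by_cases hpp : IsPrimePow n
    swap
    · have : f n = 0 := by
        simp only [hf]
        rw [ArithmeticFunction.vonMangoldt_apply, if_neg hpp, zero_mul]
      rw [this]
      exact hpos
    have hn2 : 2 ≤ n := hpp.two_le
    have hn0 : (0 : ℝ) < n := by positivity
    have hΛ : Λ n ≤ Real.log n := ArithmeticFunction.vonMangoldt_le_log
    have hlogn : 0 ≤ Real.log n := Real.log_natCast_nonneg n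
    by_cases hnl : Real.log n ≤ 2 * l
    · -- n is in F
      obtain ⟨p, k, hp, hk, hpk⟩ := hpp
      have hp' : p.Prime := hp.nat_prime
      have hpq : p ∣ q := by
        by_contra hnd
        apply hc
        rw [← hpk]
        exact Nat.Coprime.pow_left _ ((Nat.Prime.coprime_iff_not_dvd hp').2 hnd)
      have hnF : n ∈ F := by
        rw [hF, Finset.mem_image]
        refine ⟨(p, k), ?_, hpk⟩
        rw [Finset.mem_product]
        refine ⟨Nat.mem_primeFactors.2 ⟨hp', hpq, hq⟩, ?_⟩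
        rw [Finset.mem_range, Nat.lt_succ_iff, hk0]
        apply Nat.le_floor
        have h1 : (k : ℝ) * Real.log p = Real.log n := by
          rw [← hpk]
          push_cast
          rw [Real.log_pow]
        have h2 : Real.log 2 ≤ Real.log p := by
          apply Real.log_le_log (by norm_num)
          exact_mod_cast hp'.two_le
        have h3 := Real.log_two_gt_d9
        have h4 : (0 : ℝ) ≤ k := Nat.cast_nonneg k
        have h5 : (k : ℝ) * (1 / 2) ≤ k * Real.log p := by
          apply mul_le_mul_of_nonneg_left _ h4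
          linarith
        linarith
      rw [if_pos hnF]
      have h6 : f n ≤ 2 * l := by
        simp only [hf]
        calc Λ n * wt τ (Real.exp l) n ≤ (2 * l) * 1 := by
              apply mul_le_mul (hΛ.trans hnl) (hwt1 n) (wt_pos _ _ _).le (by linarith)
          _ = _ := mul_one _
      have : (0 : ℝ) ≤ 1 / (n : ℝ) ^ 2 := by positivity
      linarith
    · push Not at hnl
      have h1 : wt τ (Real.exp l) n ≤ Real.exp (-(3 * Real.log n)) := by
        unfold wt
        apply Real.exp_le_exp.2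
        rw [Real.log_div hn0.ne' (Real.exp_pos _).ne', Real.log_exp, neg_div, neg_le_neg_iff,
          le_div_iff₀ (by positivity)]
        have hτ2 : τ ^ 2 ≤ 1 := by nlinarith
        have h3 : 3 * Real.log n * (2 * τ ^ 2) ≤ 6 * Real.log n := by nlinarith
        have h4 : Real.log n / 2 ≤ Real.log n - l := by linarith
        have h5 : (Real.log n / 2) ^ 2 ≤ (Real.log n - l) ^ 2 := by
          apply pow_le_pow_left₀ (by linarith) h4
        nlinarith
      have h2 : Real.exp (-(3 * Real.log n)) = 1 / (n : ℝ) ^ 3 := by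
        rw [Real.exp_neg, show 3 * Real.log n = Real.log ((n : ℝ) ^ 3) by
          rw [Real.log_pow]; norm_num, Real.exp_log (by positivity), one_div]
      have h3 : f n ≤ n * (1 / (n : ℝ) ^ 3) := by
        simp only [hf]
        apply mul_le_mul _ (h1.trans h2.le) (wt_pos _ _ _).le hn0.le
        refine hΛ.trans ?_
        have := Real.log_le_sub_one_of_pos hn0
        linarith
      have h4 : (n : ℝ) * (1 / (n : ℝ) ^ 3) = 1 / (n : ℝ) ^ 2 := by
        field_simp
      have : (0 : ℝ) ≤ (if n ∈ F then 2 * l else 0) := by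
        split_ifs
        · linarith
        · exact le_rfl
      linarith
  have hsum2 : Summable fun n : ℕ => 1 / (n : ℝ) ^ 2 := Real.summable_one_div_nat_pow.2 (by norm_num)
  have hsF : Summable fun n : ℕ => (if n ∈ F then 2 * l else 0) := by
    apply summable_of_ne_finset_zero (s := F)
    intro n hn
    rw [if_neg hn]
  have h1 := hs2.tsum_le_tsum key (hsF.add hsum2)
  rw [hsF.tsum_add hsum2] at h1
  have h2 : ∑' n : ℕ, (if n ∈ F then 2 * l else 0) = F.card * (2 * l) := by
    rw [tsum_eq_sum (s := F)]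
    · rw [Finset.sum_congr rfl (fun n hn => if_pos hn), Finset.sum_const, nsmul_eq_mul]
    · intro n hn
      rw [if_neg hn]
  have h3 : ∑' n : ℕ, 1 / (n : ℝ) ^ 2 ≤ 2 := by
    rw [hasSum_zeta_two.tsum_eq]
    have := Real.pi_lt_d2
    have h0 := Real.pi_pos
    nlinarith
  rw [h2] at h1
  have h4 : (F.card : ℝ) * (2 * l) ≤ q * (4 * l + 1) * (2 * l) := by
    apply mul_le_mul_of_nonneg_right hFcard
    linarith
  linarith

end PNaux

theorem stmt_PN : Stmt_PN := by
  intro κ B τ hκ hτ hτ1 K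
  obtain ⟨z1, hz1⟩ := stmt_CS κ (κ / 2) B τ (by linarith) (by linarith) hτ hτ1
  obtain ⟨Y0, hY0⟩ := Pool.Agent.Work.MP_b0c12c_nt_helper6.GPnt.gaussPnt τ hτ 1 one_pos
  have ev : ∀ᶠ z : ℕ in atTop, max Y0 200 ≤ (z : ℝ) ∧ (16 : ℝ) ≤ (z : ℝ) ^ κ :=
    (tendsto_natCast_atTop_atTop.eventually_ge_atTop _).and
      (((tendsto_rpow_atTop hκ).comp tendsto_natCast_atTop_atTop).eventually_ge_atTop _)
  obtain ⟨z3, hz3⟩ := eventually_atTop.1 ev
  refine ⟨max z1 z3, fun z hz p0 hG Q hQ hQz hp0 c hc l hl1 hl2 => ?_⟩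
  obtain ⟨f1, f2⟩ := hz3 z ((le_max_right _ _).trans hz)
  have hz1' := hz1 z ((le_max_left _ _).trans hz)
  have hzY : Y0 ≤ (z : ℝ) := (le_max_left _ _).trans f1
  have hz200 : (200 : ℝ) ≤ (z : ℝ) := (le_max_right _ _).trans f1
  have hz0 : (0 : ℝ) < z := by linarith
  have hQ0 : Q ≠ 0 := hQ.ne_zero
  have : NeZero Q := ⟨hQ0⟩
  have hl8 : 8 * (z : ℝ) ≤ l := by
    have h1 : (z : ℝ) ^ (1 + κ) = z * (z : ℝ) ^ κ := by
      rw [Real.rpow_add hz0, Real.rpow_one]
    have h2 : (z : ℝ) * 16 ≤ z * (z : ℝ) ^ κ := by gcongr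
    linarith
  have hl0 : 0 < l := by linarith
  have hYl : Y0 ≤ Real.exp l := by
    have := Real.add_one_le_exp l
    linarith
  have hs : Summable fun n : ℕ => Λ n * wt τ (Real.exp l) n := (hY0 (Real.exp l) hYl).1
  refine ⟨hs, ?_⟩
  have hZ := hG.2 Q hQ hQz hp0
  have hch := hz1' Q hQz hZ l hl1 hl2
  have hcs := PNaux.class_sum2 hs hc
  have hnc := PNaux.noncoprime_le hτ hτ1 (by linarith) hs hQ0
  have hφ : (0 : ℝ) < Q.totient := by
    exact_mod_cast Nat.totient_pos.mpr (Nat.pos_of_ne_zero hQ0)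
  -- numerical bounds
  have hzinv : (z : ℝ) ^ (-2 : ℝ) ≤ (z : ℝ)⁻¹ / 2 := by
    have h1 : (z : ℝ) ^ (-2 : ℝ) = (z : ℝ)⁻¹ * (z : ℝ)⁻¹ := by
      rw [show (-2 : ℝ) = -1 + -1 by norm_num, Real.rpow_add hz0, Real.rpow_neg_one]
    have h2 : (z : ℝ)⁻¹ ≤ 1 / 2 := by
      rw [inv_le_comm₀ hz0 (by norm_num)]
      linarith
    have h3 : 0 < (z : ℝ)⁻¹ := by positivity
    rw [h1]
    nlinarith
  have hsmall : (Q : ℝ) * (4 * l + 1) * (2 * l) + 2 ≤ (z : ℝ)⁻¹ / 2 * Real.exp l := by
    have hE : Real.exp l = Real.exp (l / 4) * Real.exp (l / 8) * Real.exp (l / 8) *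
        Real.exp (l / 2) := by
      rw [← Real.exp_add, ← Real.exp_add, ← Real.exp_add]
      ring_nf
    have h1 : (Q : ℝ) ≤ Real.exp (l / 4) := by
      refine hQz.trans (Real.exp_le_exp.2 ?_)
      linarith
    have h2 : (z : ℝ) ≤ Real.exp (l / 8) := by
      have := Real.add_one_le_exp (l / 8)
      linarith
    have h3 : (8 : ℝ) ≤ Real.exp (l / 8) := by linarith
    have h5 : (l / 2) ^ 2 * (1 / 2) ≤ Real.exp (l / 2) := by
      have := Real.quadratic_le_exp_of_nonneg (show (0 : ℝ) ≤ l / 2 by positivity)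
      nlinarith
    have h6 : (80 : ℝ) ≤ Real.exp (l / 8) := by linarith
    have h7 : (4 * l + 1) * (2 * l) + 2 ≤ Real.exp (l / 8) * Real.exp (l / 2) := by
      have h8 : 80 * ((l / 2) ^ 2 * (1 / 2)) ≤ Real.exp (l / 8) * Real.exp (l / 2) := by
        apply mul_le_mul h6 h5 (by positivity) (by positivity)
      nlinarith
    have hz2 : 1 ≤ (z : ℝ)⁻¹ / 2 * Real.exp (l / 8) := by
      have h9 : (z : ℝ) ^ 2 / 2 ≤ Real.exp (l / 8) := by
        have h10 := Real.quadratic_le_exp_of_nonneg (show (0 : ℝ) ≤ z by positivity)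
        have h11 : Real.exp (z : ℝ) ≤ Real.exp (l / 8) := Real.exp_le_exp.2 (by linarith)
        nlinarith
      have h12 : 2 * (z : ℝ) ≤ Real.exp (l / 8) := by nlinarith
      calc (1 : ℝ) = (z : ℝ)⁻¹ / 2 * (2 * z) := by field_simp
        _ ≤ _ := by gcongr
    have hexp4 : 1 ≤ Real.exp (l / 4) := Real.one_le_exp (by positivity)
    have hpos : 0 ≤ (4 * l + 1) * (2 * l) := by positivity
    calc (Q : ℝ) * (4 * l + 1) * (2 * l) + 2
        ≤ Real.exp (l / 4) * ((4 * l + 1) * (2 * l) + 2) := by nlinarith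
      _ ≤ Real.exp (l / 4) * (Real.exp (l / 8) * Real.exp (l / 2)) := by gcongr
      _ = 1 * (Real.exp (l / 4) * (Real.exp (l / 8) * Real.exp (l / 2))) := by rw [one_mul]
      _ ≤ ((z : ℝ)⁻¹ / 2 * Real.exp (l / 8)) *
          (Real.exp (l / 4) * (Real.exp (l / 8) * Real.exp (l / 2))) := by gcongr
      _ = (z : ℝ)⁻¹ / 2 * Real.exp l := by
          rw [hE]
          ring
  have hmain : |(Q.totient : ℝ) * ∑' n : ℕ, (if n ≡ c [MOD Q] then Λ n * wt τ (Real.exp l) n else 0)
      - ∑' n : ℕ, Λ n * wt τ (Real.exp l) n| ≤ (z : ℝ)⁻¹ * Real.exp l := by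
    refine hcs.trans ?_
    have h1 : (z : ℝ) ^ (-2 : ℝ) * Real.exp l ≤ (z : ℝ)⁻¹ / 2 * Real.exp l :=
      mul_le_mul_of_nonneg_right hzinv (Real.exp_pos _).le
    linarith
  have hfin : (∑' n : ℕ, (if n ≡ c [MOD Q] then Λ n * wt τ (Real.exp l) n else 0) -
      (∑' n : ℕ, Λ n * wt τ (Real.exp l) n) / Q.totient) = ((Q.totient : ℝ) * ∑' n : ℕ,
      (if n ≡ c [MOD Q] then Λ n * wt τ (Real.exp l) n else 0)
      - ∑' n : ℕ, Λ n * wt τ (Real.exp l) n) / Q.totient := by
    field_simp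
  rw [hfin, abs_div, abs_of_pos hφ]
  gcongr

end Pool.Agent.Work.MP_b0c12c_nt_shift
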