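import Mathlib
import Pool.Agent.Work.MP_b0c12c_nt_helper41.Mert
import Pool.Agent.Work.MP_b0c12c_nt_shift.Interface

/-!
Consequences of the weighted sieve `Stmt_WS` for integers in a residue class, and the Mertens
product. Used for the block MC (and Q2, H1, H2).
-/

set_option autoImplicit false

namespace Pool.Agent.Work.MP_b0c12c_nt_shift.WSap

open Finset Filter
open Pool.Agent.Work.MP_b0c12c_nt_shift

/-- `c ↦ r + q c` permutes the residues modulo `p` -/
theorem injOn_class {p q : ℕ} (r : ℕ) (hpq : q.Coprime p) :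
    Set.InjOn (fun c => (r + q * c) % p) (range p : Set ℕ) := by
  intro c hc c' hc' h
  simp only [coe_range, Set.mem_Iio] at hc hc'
  have h1 : r + q * c ≡ r + q * c' [MOD p] := h
  have h2 : q * c ≡ q * c' [MOD p] := Nat.ModEq.add_left_cancel' r h1
  have h3 : c ≡ c' [MOD p] := Nat.ModEq.cancel_left_of_coprime hpq.symm h2
  exact h3.eq_of_lt_of_lt hc hc'

theorem image_class {p q : ℕ} (r : ℕ) (hp : 0 < p) (hpq : q.Coprime p) :
    (range p).image (fun c => (r + q * c) % p) = range p := by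
  apply Finset.eq_of_subset_of_card_le
  · intro m hm
    obtain ⟨c, _, rfl⟩ := mem_image.1 hm
    exact mem_range.2 (Nat.mod_lt _ hp)
  · rw [card_image_of_injOn (injOn_class r hpq)]

/-- the sum over the classes `r + q c` is the sum over all classes -/
theorem sum_class {p q : ℕ} (r : ℕ) (hp : 0 < p) (hpq : q.Coprime p) (f : ℕ → ℝ)
    (hf : ∀ m m' : ℕ, m ≡ m' [MOD p] → f m = f m') :
    ∑ c ∈ range p, f (r + q * c) = ∑ c ∈ range p, f c := by
  conv_rhs => rw [← image_class r hp hpq]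
  rw [sum_image (injOn_class r hpq)]
  exact sum_congr rfl fun c _ => hf _ _ (Nat.mod_modEq _ _).symm

theorem card_class_le {p q : ℕ} (r : ℕ) (hp : 0 < p) (hpq : q.Coprime p) (f : ℕ → ℝ)
    (hf : ∀ m m' : ℕ, m ≡ m' [MOD p] → f m = f m') :
    ((range p).filter fun c => f (r + q * c) ≠ 1).card ≤ ((range p).filter fun c => f c ≠ 1).card := by
  apply Finset.card_le_card_of_injOn (fun c => (r + q * c) % p)
  · intro c hc
    simp only [coe_filter, mem_range, Set.mem_ofPred_eq] at hc ⊢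
    refine ⟨Nat.mod_lt _ hp, ?_⟩
    rw [hf _ _ (Nat.mod_modEq _ _)]
    exact hc.2
  · exact (injOn_class r hpq).mono (by
      intro c hc
      simp only [coe_filter, mem_range, Set.mem_ofPred_eq] at hc
      simpa using hc.1)

/-- The weighted sieve in a residue class modulo `q`. -/
theorem ws_ap (hWS : Stmt_WS) : ∀ K : ℕ, 0 < K → ∃ C : ℝ, 0 < C ∧ ∃ D : ℕ,
    ∀ (W N X q : ℕ) (P : Finset ℕ) (G : ℕ → ℕ → ℝ) (T : Finset ℕ),
    3 ≤ W → (∀ p ∈ P, p.Prime ∧ 2 * K < p ∧ p ≤ W ∧ q.Coprime p) → W ^ D ≤ N → 0 < q → q ≤ X →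
    (∀ p ∈ P, ∀ m m' : ℕ, m ≡ m' [MOD p] → G p m = G p m') →
    (∀ p ∈ P, ∀ m, 0 ≤ G p m ∧ G p m ≤ 1) →
    (∀ p ∈ P, ((range p).filter fun c => G p c ≠ 1).card ≤ K) →
    (∀ m ∈ T, X < m ∧ m ≤ X + N * q) → (∀ m ∈ T, ∀ m' ∈ T, m ≡ m' [MOD q]) →
      ∑ m ∈ T, ∏ p ∈ P, G p m ≤ C * N * ∏ p ∈ P, ((∑ c ∈ range p, G p c) / p) := by
  intro K hK
  obtain ⟨C, hC, D, hD⟩ := hWS K hK
  refine ⟨C, hC, D, fun W N X q P G T hW hP hN hq hqX hper h01 hcard hT hTq => ?_⟩
  have hG0 : ∀ m, 0 ≤ ∏ p ∈ P, G p m := fun m => prod_nonneg fun p hp => (h01 p hp m).1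
  rcases T.eq_empty_or_nonempty with rfl | ⟨m0, hm0⟩
  · rw [sum_empty]
    have : 0 ≤ ∏ p ∈ P, ((∑ c ∈ range p, G p c) / (p : ℝ)) :=
      prod_nonneg fun p hp => div_nonneg (sum_nonneg fun c _ => (h01 p hp c).1) (Nat.cast_nonneg _)
    positivity
  obtain ⟨r, hr⟩ : ∃ r, r = m0 % q := ⟨_, rfl⟩
  have hrq : r < q := by rw [hr]; exact Nat.mod_lt _ hq
  have hTr : ∀ m ∈ T, r + q * (m / q) = m := by
    intro m hm
    have h1 : m % q = m0 % q := hTq m hm m0 hm0
    have h2 := Nat.mod_add_div m q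
    rw [hr, ← h1]
    exact h2
  obtain ⟨M, hM⟩ : ∃ M, M = (X - r) / q := ⟨_, rfl⟩
  have hM1 : M * q ≤ X - r := by rw [hM]; exact Nat.div_mul_le_self _ _
  have hM2 : X - r < q * (M + 1) := by rw [hM]; exact Nat.lt_mul_div_succ _ hq
  have hrX : r ≤ X := by omega
  have hmem : ∀ m ∈ T, m / q ∈ Ioc M (M + N) := by
    intro m hm
    have h1 := hTr m hm
    obtain ⟨h2, h3⟩ := hT m hm
    rw [mem_Ioc]
    constructor
    · by_contra hcon
      push Not at hcon
      have h4 : q * (m / q) ≤ q * M := Nat.mul_le_mul_left _ hcon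
      rw [mul_comm q M] at h4
      omega
    · by_contra hcon
      push Not at hcon
      have h4 : q * (M + N + 1) ≤ q * (m / q) := Nat.mul_le_mul_left _ hcon
      have h5 : q * (M + N + 1) = q * (M + 1) + N * q := by ring
      omega
  have hinj : Set.InjOn (fun m => m / q) (T : Set ℕ) := by
    intro m hm m' hm' h
    have h' : m / q = m' / q := h
    rw [← hTr m hm, ← hTr m' hm', h']
  have key := hD W N M P (fun p c => G p (r + q * c)) hW (fun p hp => ⟨(hP p hp).1, (hP p hp).2.1,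
    (hP p hp).2.2.1⟩) hN (fun p hp c _ => h01 p hp _) (fun p hp =>
      (card_class_le r (hP p hp).1.pos (hP p hp).2.2.2 (G p) (hper p hp)).trans (hcard p hp))
  have hk : ∀ k : ℕ, ∏ p ∈ P, G p (r + q * (k % p)) = ∏ p ∈ P, G p (r + q * k) := by
    intro k
    refine prod_congr rfl fun p hp => hper p hp _ _ ?_
    exact Nat.ModEq.add_left _ ((Nat.mod_modEq k p).mul_left _)
  calc ∑ m ∈ T, ∏ p ∈ P, G p m = ∑ m ∈ T, ∏ p ∈ P, G p (r + q * ((m / q) % p)) := by
        refine sum_congr rfl fun m hm => ?_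
        rw [hk, hTr m hm]
    _ = ∑ k ∈ T.image (fun m => m / q), ∏ p ∈ P, G p (r + q * (k % p)) := by
        rw [sum_image hinj]
    _ ≤ ∑ k ∈ Ioc M (M + N), ∏ p ∈ P, G p (r + q * (k % p)) := by
        apply sum_le_sum_of_subset_of_nonneg
        · intro k hk
          obtain ⟨m, hm, rfl⟩ := mem_image.1 hk
          exact hmem m hm
        · intro k _ _
          rw [hk]
          exact hG0 _
    _ ≤ C * N * ∏ p ∈ P, ((∑ c ∈ range p, G p (r + q * c)) / p) := key
    _ = C * N * ∏ p ∈ P, ((∑ c ∈ range p, G p c) / p) := by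
        congr 1
        refine prod_congr rfl fun p hp => ?_
        rw [sum_class r (hP p hp).1.pos (hP p hp).2.2.2 (G p) (hper p hp)]

/-- periodicity of the indicator of a class -/
theorem dvd_sub_iff {p : ℕ} (s : ℤ) {m m' : ℕ} (h : m ≡ m' [MOD p]) :
    ((p : ℤ) ∣ (m : ℤ) - s) ↔ ((p : ℤ) ∣ (m' : ℤ) - s) := by
  have h1 : (m : ℤ) ≡ (m' : ℤ) [ZMOD p] := (Int.natCast_modEq_iff).2 h
  have h2 : (p : ℤ) ∣ (m' : ℤ) - m := h1.dvd
  constructor
  · intro h3
    have := dvd_add h2 h3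
    simpa using this
  · intro h3
    have := dvd_sub h3 h2
    simpa using this

/-- exactly one class -/
theorem filter_class {p : ℕ} (hp : 0 < p) (s : ℤ) :
    ((range p).filter fun c : ℕ => (p : ℤ) ∣ (c : ℤ) - s) = {(s % (p : ℤ)).toNat} := by
  have hp' : (0 : ℤ) < p := by exact_mod_cast hp
  have h0 := Int.emod_nonneg s hp'.ne'
  have h1 := Int.emod_lt_of_pos s hp'
  have hdiv : (p : ℤ) ∣ s - s % (p : ℤ) := Int.dvd_self_sub_emod
  ext c
  rw [mem_filter, mem_range, mem_singleton]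
  constructor
  · rintro ⟨hc, hd⟩
    have h2 : (p : ℤ) ∣ (c : ℤ) - s % (p : ℤ) := by
      have := dvd_add hd hdiv
      simpa using this
    have h3 : (c : ℤ) - s % (p : ℤ) = 0 := by
      apply Int.eq_zero_of_abs_lt_dvd h2
      rw [abs_lt]
      constructor <;> omega
    omega
  · intro hc
    have hc' : (c : ℤ) = s % (p : ℤ) := by omega
    refine ⟨by omega, ?_⟩
    rw [hc']
    have := (dvd_neg (α := ℤ)).2 hdiv
    simpa using this

theorem sum_ind_class {p : ℕ} (hp : 0 < p) (s : ℤ) (w : ℝ) :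
    ∑ c ∈ range p, (if (p : ℤ) ∣ (c : ℤ) - s then w else 0) = w := by
  rw [← sum_filter, filter_class hp s, sum_singleton]

theorem sum_ind_class_mul {p b : ℕ} (hp : 0 < p) (hb : b.Coprime p) (s : ℤ) (w : ℝ) :
    ∑ c ∈ range p, (if (p : ℤ) ∣ ((b * c : ℕ) : ℤ) - s then w else 0) = w := by
  have h := sum_class (p := p) (q := b) 0 hp hb (fun m => if (p : ℤ) ∣ (m : ℤ) - s then w else 0)
    (fun m m' hmm => by simp only [dvd_sub_iff s hmm])
  simp only [zero_add] at h
  rw [h]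
  exact sum_ind_class hp s w

theorem card_ind_class_mul {p b : ℕ} (hp : 0 < p) (hb : b.Coprime p) (s : ℤ) :
    ((range p).filter fun c : ℕ => (p : ℤ) ∣ ((b * c : ℕ) : ℤ) - s).card = 1 := by
  have h := sum_ind_class_mul hp hb s 1
  rw [← sum_filter, sum_const, nsmul_eq_mul, mul_one] at h
  exact_mod_cast h

/-! ## the modulus -/

theorem qq_dvd (z p0 : ℕ) : qq z p0 ∣ primorial z := by
  unfold qq primorial
  apply Finset.prod_dvd_prod_of_subset
  intro p hp
  have h1 := (mem_erase.1 hp).2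
  rw [mem_filter, mem_Icc] at h1
  rw [mem_filter, mem_range]
  exact ⟨by omega, h1.2⟩

theorem qq_pos (z p0 : ℕ) : 0 < qq z p0 :=
  Nat.pos_of_dvd_of_pos (qq_dvd z p0) (primorial_pos z)

theorem qq_le (z p0 : ℕ) : qq z p0 ≤ 4 ^ z :=
  (Nat.le_of_dvd (primorial_pos z) (qq_dvd z p0)).trans (primorial_le_four_pow z)

theorem qq_coprime {z p0 p : ℕ} (hp : p.Prime) (hzp : z < p) : (qq z p0).Coprime p := by
  unfold qq
  apply Nat.Coprime.prod_left
  intro r hr
  have h1 := (mem_erase.1 hr).2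
  rw [mem_filter, mem_Icc] at h1
  apply (Nat.coprime_primes h1.2 hp).2
  omega

/-! ## Mertens -/

/-- The Mertens product over the primes in `(z, W]`, one prime may be left out. -/
theorem mertens_prod : ∃ C : ℝ, 0 < C ∧ ∀ z W b : ℕ, 2 ≤ z → z ≤ W →
    ∏ p ∈ ((Ioc z W).filter Nat.Prime).erase b, (1 - 1 / (p : ℝ)) ≤
      C * (Real.log z / Real.log W) := by
  obtain ⟨C, hC, h⟩ := Pool.Agent.Work.MP_b0c12c_nt_helper41.mertens2
  refine ⟨Real.exp (C / Real.log 2 + 1), Real.exp_pos _, fun z W b hz hzW => ?_⟩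
  have hzr : (2 : ℝ) ≤ z := by exact_mod_cast hz
  have hWr : (z : ℝ) ≤ W := by exact_mod_cast hzW
  have hl2 : 0 < Real.log 2 := Real.log_pos (by norm_num)
  have hlz2 : Real.log 2 ≤ Real.log z := Real.log_le_log (by norm_num) hzr
  have hlz : 0 < Real.log z := by linarith
  have hlW : Real.log z ≤ Real.log W := Real.log_le_log (by linarith) hWr
  have hlW0 : 0 < Real.log W := by linarith
  have h1 := (abs_le.1 (h z W hz hzW)).1
  have h2 : C / Real.log z ≤ C / Real.log 2 := div_le_div_of_nonneg_left hC.le hl2 hlz2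
  have h3 : ∏ p ∈ ((Ioc z W).filter Nat.Prime).erase b, (1 - 1 / (p : ℝ)) ≤
      Real.exp (-∑ p ∈ ((Ioc z W).filter Nat.Prime).erase b, 1 / (p : ℝ)) := by
    rw [← sum_neg_distrib, Real.exp_sum]
    apply Finset.prod_le_prod
    · intro p hp
      have hp' := (mem_filter.1 (mem_erase.1 hp).2).2
      have : (2 : ℝ) ≤ p := by exact_mod_cast hp'.two_le
      have : 1 / (p : ℝ) ≤ 1 := by
        rw [div_le_one (by linarith)]
        linarith
      linarith
    · intro p _
      have := Real.add_one_le_exp (-(1 / (p : ℝ)))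
      linarith
  have h4 : ∑ p ∈ (Ioc z W).filter Nat.Prime, 1 / (p : ℝ) - 1 ≤
      ∑ p ∈ ((Ioc z W).filter Nat.Prime).erase b, 1 / (p : ℝ) := by
    by_cases hb : b ∈ (Ioc z W).filter Nat.Prime
    · rw [← add_sum_erase _ _ hb]
      have hb' := (mem_filter.1 hb).2
      have : (2 : ℝ) ≤ b := by exact_mod_cast hb'.two_le
      have : 1 / (b : ℝ) ≤ 1 := by
        rw [div_le_one (by linarith)]
        linarith
      linarith
    · rw [erase_eq_of_notMem hb]
      linarith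
  refine h3.trans ?_
  have h5 : Real.log z / Real.log W = Real.exp (Real.log (Real.log z) - Real.log (Real.log W)) := by
    rw [Real.exp_sub, Real.exp_log hlz, Real.exp_log hlW0]
  rw [h5, ← Real.exp_add]
  apply Real.exp_le_exp.2
  linarith

end Pool.Agent.Work.MP_b0c12c_nt_shift.WSap
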