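import Mathlib
import Pool.Agent.Work.MP_b0c12c_nt_shift.Interface
import Pool.Agent.Work.MP_b0c12c_nt_helper6.GaussPnt

/-!
# Block BF: Bonferroni
-/

set_option autoImplicit false

namespace Pool.Agent.Work.MP_b0c12c_nt_shift

open Finset Filter ArithmeticFunction
open Pool.Agent.Work.MP_b0c12c_nt.Assem (wt)

namespace BF

/-! ## Bonferroni inequalities -/

/-- truncated alternating sum -/
noncomputable def TT (x : ℕ → ℝ) (A : Finset ℕ) (m : ℕ) : ℝ :=
  ∑ D ∈ A.powerset, if D.card ≤ m then (-1 : ℝ) ^ D.card * ∏ p ∈ D, x p else 0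

theorem TT_empty (x : ℕ → ℝ) (m : ℕ) : TT x ∅ m = 1 := by
  simp [TT]

theorem TT_zero (x : ℕ → ℝ) (A : Finset ℕ) : TT x A 0 = 1 := by
  unfold TT
  rw [Finset.sum_eq_single ∅]
  · simp
  · intro D _ hD
    rw [if_neg]
    simpa using hD
  · intro h
    exact absurd (Finset.empty_mem_powerset A) h

theorem TT_insert (x : ℕ → ℝ) {A : Finset ℕ} {a : ℕ} (ha : a ∉ A) (m : ℕ) :
    TT x (insert a A) (m + 1) = TT x A (m + 1) - x a * TT x A m := by
  unfold TT
  rw [Finset.sum_powerset_insert ha, sub_eq_add_neg, Finset.mul_sum, ← Finset.sum_neg_distrib]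
  congr 1
  apply Finset.sum_congr rfl
  intro D hD
  have haD : a ∉ D := fun h => ha (Finset.mem_powerset.1 hD h)
  rw [Finset.card_insert_of_notMem haD, Finset.prod_insert haD]
  by_cases h : D.card ≤ m
  · rw [if_pos (by omega), if_pos h, pow_succ]
    ring
  · rw [if_neg (by omega), if_neg h]
    simp

theorem bonf (x : ℕ → ℝ) (A : Finset ℕ) : (∀ p ∈ A, 0 ≤ x p ∧ x p ≤ 1) → ∀ m : ℕ,
    0 ≤ (-1 : ℝ) ^ m * (TT x A m - ∏ p ∈ A, (1 - x p)) := by
  induction A using Finset.induction_on with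
  | empty =>
    intro _ m
    simp [TT_empty]
  | insert a A ha ih =>
    intro hx m
    have hx' : ∀ p ∈ A, 0 ≤ x p ∧ x p ≤ 1 := fun p hp => hx p (Finset.mem_insert_of_mem hp)
    have hxa := hx a (Finset.mem_insert_self a A)
    have ih' := ih hx'
    cases m with
    | zero =>
      rw [TT_zero]
      have h1 : ∏ p ∈ insert a A, (1 - x p) ≤ 1 := by
        apply Finset.prod_le_one
        · intro p hp
          linarith [(hx p hp).2]
        · intro p hp
          linarith [(hx p hp).1]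
      simp only [pow_zero, one_mul]
      linarith
    | succ m =>
      rw [TT_insert x ha, Finset.prod_insert ha]
      have h1 := ih' (m + 1)
      have h2 := mul_nonneg hxa.1 (ih' m)
      have h3 : (-1 : ℝ) ^ (m + 1) * (TT x A (m + 1) - x a * TT x A m -
          (1 - x a) * ∏ p ∈ A, (1 - x p)) =
          (-1 : ℝ) ^ (m + 1) * (TT x A (m + 1) - ∏ p ∈ A, (1 - x p)) +
          x a * ((-1 : ℝ) ^ m * (TT x A m - ∏ p ∈ A, (1 - x p))) := by
        rw [pow_succ]
        ring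
      rw [h3]
      exact add_nonneg h1 h2

theorem bonf_even {x : ℕ → ℝ} {A : Finset ℕ} (hx : ∀ p ∈ A, 0 ≤ x p ∧ x p ≤ 1) (k : ℕ) :
    ∏ p ∈ A, (1 - x p) ≤ TT x A (2 * k) := by
  have h := bonf x A hx (2 * k)
  rw [Even.neg_one_pow ⟨k, by ring⟩] at h
  linarith

/-- the elementary symmetric sum -/
noncomputable def sg (x : ℕ → ℝ) (A : Finset ℕ) (j : ℕ) : ℝ :=
  ∑ D ∈ A.powerset, if D.card = j then ∏ p ∈ D, x p else 0

theorem bonf_odd {x : ℕ → ℝ} {A : Finset ℕ} (hx : ∀ p ∈ A, 0 ≤ x p ∧ x p ≤ 1) (k : ℕ) :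
    TT x A (2 * k) ≤ ∏ p ∈ A, (1 - x p) + sg x A (2 * k + 1) := by
  have h := bonf x A hx (2 * k + 1)
  rw [Odd.neg_one_pow ⟨k, by ring⟩] at h
  have h1 : TT x A (2 * k + 1) = TT x A (2 * k) - sg x A (2 * k + 1) := by
    unfold TT sg
    rw [← Finset.sum_sub_distrib]
    apply Finset.sum_congr rfl
    intro D _
    rcases lt_trichotomy D.card (2 * k + 1) with h | h | h
    · rw [if_pos (by omega), if_pos (by omega), if_neg (by omega), sub_zero]
    · rw [if_pos (by omega), if_neg (by omega), if_pos h, h, Odd.neg_one_pow ⟨k, by ring⟩]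
      ring
    · rw [if_neg (by omega), if_neg (by omega), if_neg (by omega), sub_zero]
  linarith

theorem prod_one_add_le {x : ℕ → ℝ} {A : Finset ℕ} (hx : ∀ p ∈ A, 0 ≤ x p) :
    ∑ D ∈ A.powerset, ∏ p ∈ D, x p ≤ Real.exp (∑ p ∈ A, x p) := by
  rw [← Finset.prod_add_one, Real.exp_sum]
  apply Finset.prod_le_prod
  · intro p hp
    linarith [hx p hp]
  · intro p _
    exact Real.add_one_le_exp _

theorem sg_le {x : ℕ → ℝ} {A : Finset ℕ} (hx : ∀ p ∈ A, 0 ≤ x p) (j : ℕ) :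
    sg x A j ≤ Real.exp (Real.exp 2 * (∑ p ∈ A, x p) - 2 * j) := by
  have h1 : ∑ D ∈ A.powerset, ∏ p ∈ D, (Real.exp 2 * x p) ≤
      Real.exp (∑ p ∈ A, Real.exp 2 * x p) :=
    prod_one_add_le (fun p hp => mul_nonneg (Real.exp_pos _).le (hx p hp))
  rw [← Finset.mul_sum] at h1
  have h2 : Real.exp (2 * j) * sg x A j ≤ ∑ D ∈ A.powerset, ∏ p ∈ D, (Real.exp 2 * x p) := by
    unfold sg
    rw [Finset.mul_sum]
    apply Finset.sum_le_sum
    intro D hD
    have hD' := Finset.mem_powerset.1 hD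
    have h0 : 0 ≤ ∏ p ∈ D, x p := Finset.prod_nonneg fun p hp => hx p (hD' hp)
    split_ifs with h
    · rw [Finset.prod_mul_distrib, Finset.prod_const, h, ← Real.exp_nat_mul]
      apply le_of_eq
      congr 2
      ring
    · rw [mul_zero]
      exact Finset.prod_nonneg fun p hp => mul_nonneg (Real.exp_pos _).le (hx p (hD' hp))
  have h3 : Real.exp (2 * j) * sg x A j ≤ Real.exp (Real.exp 2 * ∑ p ∈ A, x p) := h2.trans h1
  rw [Real.exp_sub, le_div_iff₀ (Real.exp_pos _)]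
  linarith

/-! ## Class sums -/

/-- the weight at one prime -/
noncomputable def ee (al be : ℕ → ℝ) (ra rb : ℕ → ℕ) (n p : ℕ) : ℝ :=
  (if n ≡ ra p [MOD p] then al p else 0) + (if n ≡ rb p [MOD p] then be p else 0)

theorem summable_aux {f : ℕ → ℝ} (hf0 : ∀ n, 0 ≤ f n) (hf : Summable f) {g : ℕ → ℝ} {C : ℝ}
    (hg : ∀ n, |g n| ≤ C) (P : ℕ → Prop) [DecidablePred P] :
    Summable fun n => if P n then f n * g n else 0 := by
  have hC : 0 ≤ C := (abs_nonneg (g 0)).trans (hg 0)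
  refine Summable.of_norm_bounded (hf.mul_right C) fun n => ?_
  split_ifs
  · rw [Real.norm_eq_abs, abs_mul, abs_of_nonneg (hf0 n)]
    exact mul_le_mul_of_nonneg_left (hg n) (hf0 n)
  · rw [norm_zero]
    exact mul_nonneg (hf0 n) hC

theorem class_D {f : ℕ → ℝ} (hf0 : ∀ n, 0 ≤ f n) (hf : Summable f) {Ψ err X : ℝ} {p0 : ℕ}
    (hp0 : p0 = 0 ∨ p0.Prime)
    (H : ∀ M : ℕ, Squarefree M → (M : ℝ) ≤ X → ¬ p0 ∣ M → ∀ c : ℕ, c.Coprime M →
      |∑' n : ℕ, (if n ≡ c [MOD M] then f n else 0) - Ψ / M.totient| ≤ err / M.totient)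
    (al be : ℕ → ℝ) (ra rb : ℕ → ℕ) (D : Finset ℕ) :
    (∀ p ∈ D, p.Prime ∧ p ≠ p0 ∧ 0 ≤ al p ∧ 0 ≤ be p ∧ al p + be p ≤ 1 ∧ (ra p).Coprime p ∧
      (rb p).Coprime p) →
    ∀ M : ℕ, Squarefree M → (M : ℝ) * ∏ p ∈ D, (p : ℝ) ≤ X → ¬ p0 ∣ M → (∀ p ∈ D, ¬ p ∣ M) →
    ∀ c : ℕ, c.Coprime M →
      |∑' n : ℕ, (if n ≡ c [MOD M] then f n * ∏ p ∈ D, ee al be ra rb n p else 0) -
        (∏ p ∈ D, (al p + be p) / ((p : ℝ) - 1)) * Ψ / M.totient| ≤
      (∏ p ∈ D, (al p + be p) / ((p : ℝ) - 1)) * err / M.totient := by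
  induction D using Finset.induction_on with
  | empty =>
    intro _ M hM hX hpM _ c hc
    simp only [Finset.prod_empty, mul_one, one_mul] at hX ⊢
    exact H M hM hX hpM c hc
  | insert a D ha ih =>
    intro hD M hM hX hpM hDM c hc
    have hD' : ∀ p ∈ D, p.Prime ∧ p ≠ p0 ∧ 0 ≤ al p ∧ 0 ≤ be p ∧ al p + be p ≤ 1 ∧
        (ra p).Coprime p ∧ (rb p).Coprime p := fun p hp => hD p (Finset.mem_insert_of_mem hp)
    obtain ⟨hap, hap0, hal, hbe, halbe, hra, hrb⟩ := hD a (Finset.mem_insert_self a D)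
    have haM : ¬ a ∣ M := hDM a (Finset.mem_insert_self a D)
    have hcop : M.Coprime a := ((Nat.Prime.coprime_iff_not_dvd hap).2 haM).symm
    have hMa : Squarefree (M * a) := (Nat.squarefree_mul hcop).2 ⟨hM, hap.squarefree⟩
    have hXa : ((M * a : ℕ) : ℝ) * ∏ p ∈ D, (p : ℝ) ≤ X := by
      rw [Finset.prod_insert ha] at hX
      push_cast
      calc (M : ℝ) * a * ∏ p ∈ D, (p : ℝ) = M * (a * ∏ p ∈ D, (p : ℝ)) := by ring
        _ ≤ X := hX
    have hpMa : ¬ p0 ∣ M * a := by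
      rcases hp0 with h | h
      · subst h
        rw [zero_dvd_iff]
        exact hMa.ne_zero
      · intro hd
        rcases (Nat.Prime.dvd_mul h).1 hd with h1 | h1
        · exact hpM h1
        · exact hap0 ((Nat.prime_dvd_prime_iff_eq h hap).1 h1).symm
    have hDMa : ∀ p ∈ D, ¬ p ∣ M * a := by
      intro p hp hd
      rcases (Nat.Prime.dvd_mul (hD' p hp).1).1 hd with h1 | h1
      · exact hDM p (Finset.mem_insert_of_mem hp) h1
      · have := (Nat.prime_dvd_prime_iff_eq (hD' p hp).1 hap).1 h1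
        subst this
        exact ha hp
    have key : ∀ r : ℕ, r.Coprime a → ∃ c' : ℕ, c'.Coprime (M * a) ∧
        ∀ n : ℕ, (n ≡ c' [MOD M * a] ↔ n ≡ c [MOD M] ∧ n ≡ r [MOD a]) := by
      intro r hr
      obtain ⟨c', hc1, hc2⟩ := Nat.chineseRemainder hcop c r
      refine ⟨c', ?_, fun n => ?_⟩
      · apply Nat.Coprime.mul_right
        · rw [Nat.Coprime, hc1.gcd_eq]
          exact hc
        · rw [Nat.Coprime, hc2.gcd_eq]
          exact hr
      · rw [← Nat.modEq_and_modEq_iff_modEq_mul hcop]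
        constructor
        · rintro ⟨h1, h2⟩
          exact ⟨h1.trans hc1, h2.trans hc2⟩
        · rintro ⟨h1, h2⟩
          exact ⟨h1.trans hc1.symm, h2.trans hc2.symm⟩
    obtain ⟨c1, hc1, hc1'⟩ := key (ra a) hra
    obtain ⟨c2, hc2, hc2'⟩ := key (rb a) hrb
    have h1 := ih hD' (M * a) hMa hXa hpMa hDMa c1 hc1
    have h2 := ih hD' (M * a) hMa hXa hpMa hDMa c2 hc2
    have hsum : ∀ r : ℕ, Summable fun n => if n ≡ r [MOD M * a] then
        f n * ∏ p ∈ D, ee al be ra rb n p else 0 := by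
      intro r
      apply summable_aux hf0 hf (C := ∏ p ∈ D, 1)
      intro n
      rw [Finset.abs_prod]
      apply Finset.prod_le_prod
      · intro p _
        exact abs_nonneg _
      · intro p hp
        obtain ⟨-, -, h3, h4, h5, -⟩ := hD' p hp
        unfold ee
        rw [abs_le]
        constructor <;> split_ifs <;> linarith
    have hsplit : ∑' n : ℕ, (if n ≡ c [MOD M] then f n * ∏ p ∈ insert a D, ee al be ra rb n p
        else 0) = al a * ∑' n : ℕ, (if n ≡ c1 [MOD M * a] then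
          f n * ∏ p ∈ D, ee al be ra rb n p else 0) +
        be a * ∑' n : ℕ, (if n ≡ c2 [MOD M * a] then
          f n * ∏ p ∈ D, ee al be ra rb n p else 0) := by
      rw [← tsum_mul_left, ← tsum_mul_left,
        ← Summable.tsum_add ((hsum c1).mul_left _) ((hsum c2).mul_left _)]
      refine tsum_congr fun n => ?_
      rw [Finset.prod_insert ha]
      by_cases hcM : n ≡ c [MOD M]
      · rw [if_pos hcM]
        by_cases hr1 : n ≡ ra a [MOD a]
        · rw [if_pos ((hc1' n).2 ⟨hcM, hr1⟩)]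
          by_cases hr2 : n ≡ rb a [MOD a]
          · rw [if_pos ((hc2' n).2 ⟨hcM, hr2⟩)]
            have : ee al be ra rb n a = al a + be a := by
              unfold ee
              rw [if_pos hr1, if_pos hr2]
            rw [this]
            ring
          · rw [if_neg (fun h => hr2 ((hc2' n).1 h).2)]
            have : ee al be ra rb n a = al a := by
              unfold ee
              rw [if_pos hr1, if_neg hr2, add_zero]
            rw [this]
            ring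
        · rw [if_neg (fun h => hr1 ((hc1' n).1 h).2)]
          by_cases hr2 : n ≡ rb a [MOD a]
          · rw [if_pos ((hc2' n).2 ⟨hcM, hr2⟩)]
            have : ee al be ra rb n a = be a := by
              unfold ee
              rw [if_neg hr1, if_pos hr2, zero_add]
            rw [this]
            ring
          · rw [if_neg (fun h => hr2 ((hc2' n).1 h).2)]
            have : ee al be ra rb n a = 0 := by
              unfold ee
              rw [if_neg hr1, if_neg hr2, add_zero]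
            rw [this]
            ring
      · rw [if_neg hcM, if_neg (fun h => hcM ((hc1' n).1 h).1),
          if_neg (fun h => hcM ((hc2' n).1 h).1)]
        ring
    set S1 := ∑' n : ℕ, (if n ≡ c1 [MOD M * a] then f n * ∏ p ∈ D, ee al be ra rb n p else 0)
    set S2 := ∑' n : ℕ, (if n ≡ c2 [MOD M * a] then f n * ∏ p ∈ D, ee al be ra rb n p else 0)
    set PI := ∏ p ∈ D, (al p + be p) / ((p : ℝ) - 1)
    have htot : ((M * a).totient : ℝ) = M.totient * ((a : ℝ) - 1) := by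
      rw [Nat.totient_mul hcop, Nat.totient_prime hap]
      push_cast [Nat.cast_sub hap.one_le]
      ring
    have ha1 : (0 : ℝ) < (a : ℝ) - 1 := by
      have : (2 : ℝ) ≤ a := by exact_mod_cast hap.two_le
      linarith
    have hMt : (0 : ℝ) < M.totient := by
      exact_mod_cast Nat.totient_pos.2 (Nat.pos_of_ne_zero hM.ne_zero)
    rw [hsplit, Finset.prod_insert ha]
    rw [htot] at h1 h2
    have e1 : al a * S1 + be a * S2 - (al a + be a) / ((a : ℝ) - 1) * PI * Ψ / M.totient =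
        al a * (S1 - PI * Ψ / (M.totient * ((a : ℝ) - 1))) +
        be a * (S2 - PI * Ψ / (M.totient * ((a : ℝ) - 1))) := by
      field_simp
      ring
    have e2 : (al a + be a) / ((a : ℝ) - 1) * PI * err / M.totient =
        al a * (PI * err / (M.totient * ((a : ℝ) - 1))) +
        be a * (PI * err / (M.totient * ((a : ℝ) - 1))) := by
      field_simp
    rw [e1, e2]
    refine (abs_add_le _ _).trans ?_
    rw [abs_mul, abs_mul, abs_of_nonneg hal, abs_of_nonneg hbe]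
    exact add_le_add (mul_le_mul_of_nonneg_left h1 hal) (mul_le_mul_of_nonneg_left h2 hbe)

/-! ## The sum over one class -/

theorem ee_mem {al be : ℕ → ℝ} {ra rb : ℕ → ℕ} {p : ℕ} (h1 : 0 ≤ al p) (h2 : 0 ≤ be p)
    (h3 : al p + be p ≤ 1) (n : ℕ) : 0 ≤ ee al be ra rb n p ∧ ee al be ra rb n p ≤ 1 := by
  unfold ee
  constructor <;> split_ifs <;> linarith

theorem hw_eq (al be : ℕ → ℝ) (ra rb : ℕ → ℕ) (A : Finset ℕ) (n : ℕ) :
    hw al be ra rb A n = ∏ p ∈ A, (1 - ee al be ra rb n p) := by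
  unfold hw ee
  refine Finset.prod_congr rfl fun p _ => ?_
  ring

theorem class_hw {f : ℕ → ℝ} (hf0 : ∀ n, 0 ≤ f n) (hf : Summable f) {Ψ err X W : ℝ} {p0 z k : ℕ}
    (hp0 : p0 = 0 ∨ p0.Prime) (hΨ : 0 ≤ Ψ) (herr : 0 ≤ err) (hW : 1 ≤ W)
    (H : ∀ M : ℕ, Squarefree M → (M : ℝ) ≤ X → ¬ p0 ∣ M → ∀ c : ℕ, c.Coprime M →
      |∑' n : ℕ, (if n ≡ c [MOD M] then f n else 0) - Ψ / M.totient| ≤ err / M.totient)
    {al be : ℕ → ℝ} {ra rb : ℕ → ℕ} {A : Finset ℕ}
    (hA : ∀ p ∈ A, p.Prime ∧ z < p ∧ (p : ℝ) ≤ W ∧ p ≠ p0 ∧ 0 ≤ al p ∧ 0 ≤ be p ∧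
      al p + be p ≤ 1 ∧ (ra p).Coprime p ∧ (rb p).Coprime p)
    {Q : ℕ} (hQ : Q ∣ primorial z) (hQX : (Q : ℝ) * W ^ (2 * k) ≤ X) (hpQ : ¬ p0 ∣ Q)
    {c : ℕ} (hc : c.Coprime Q) {F : Finset ℕ} (hF : ∀ n ∈ F, n ≡ c [MOD Q]) :
    ∑ n ∈ F, f n * hw al be ra rb A n ≤
      (hV al be A + sg (fun p => (al p + be p) / ((p : ℝ) - 1)) A (2 * k + 1)) * Ψ / Q.totient +
      Real.exp (∑ p ∈ A, (al p + be p) / ((p : ℝ) - 1)) * err / Q.totient := by
  set x : ℕ → ℝ := fun p => (al p + be p) / ((p : ℝ) - 1) with hx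
  have hsqp : Squarefree (primorial z) := squarefree_primorial z
  have hQsf : Squarefree Q := hsqp.squarefree_of_dvd hQ
  have hQt : (0 : ℝ) < Q.totient := by
    exact_mod_cast Nat.totient_pos.2 (Nat.pos_of_ne_zero hQsf.ne_zero)
  have hee : ∀ n, ∀ p ∈ A, 0 ≤ ee al be ra rb n p ∧ ee al be ra rb n p ≤ 1 := by
    intro n p hp
    obtain ⟨-, -, -, -, h1, h2, h3, -⟩ := hA p hp
    exact ee_mem h1 h2 h3 n
  have hx01 : ∀ p ∈ A, 0 ≤ x p ∧ x p ≤ 1 := by
    intro p hp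
    obtain ⟨h0, -, -, -, h1, h2, h3, -⟩ := hA p hp
    have h4 : (2 : ℝ) ≤ p := by exact_mod_cast h0.two_le
    have h5 : (0 : ℝ) < (p : ℝ) - 1 := by linarith
    refine ⟨div_nonneg (by linarith) h5.le, ?_⟩
    rw [hx]
    show (al p + be p) / ((p : ℝ) - 1) ≤ 1
    rw [div_le_one h5]
    linarith
  -- the summands
  set G : Finset ℕ → ℕ → ℝ := fun D n =>
    if n ≡ c [MOD Q] then f n * ∏ p ∈ D, ee al be ra rb n p else 0 with hG
  have hGs : ∀ D ∈ A.powerset, Summable (G D) := by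
    intro D hD
    have hD' := Finset.mem_powerset.1 hD
    apply summable_aux hf0 hf (C := ∏ p ∈ D, 1)
    intro n
    rw [Finset.abs_prod]
    apply Finset.prod_le_prod
    · intro p _
      exact abs_nonneg _
    · intro p hp
      rw [abs_of_nonneg (hee n p (hD' hp)).1]
      exact (hee n p (hD' hp)).2
  set g : Finset ℕ → ℕ → ℝ := fun D n => if D.card ≤ 2 * k then (-1 : ℝ) ^ D.card * G D n else 0
    with hg
  have hgs : ∀ D ∈ A.powerset, Summable (g D) := by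
    intro D hD
    rw [hg]
    show Summable fun n => if D.card ≤ 2 * k then (-1 : ℝ) ^ D.card * G D n else 0
    split_ifs
    · exact (hGs D hD).mul_left _
    · exact summable_zero
  have hTT : ∀ n, (if n ≡ c [MOD Q] then f n * TT (ee al be ra rb n) A (2 * k) else 0) =
      ∑ D ∈ A.powerset, g D n := by
    intro n
    rw [hg, hG]
    simp only
    by_cases h : n ≡ c [MOD Q]
    · simp only [if_pos h]
      unfold TT
      rw [Finset.mul_sum]
      refine Finset.sum_congr rfl fun D _ => ?_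
      split_ifs
      · ring
      · ring
    · simp only [if_neg h, mul_zero, ite_self, Finset.sum_const_zero]
  have hsT : Summable fun n => ∑ D ∈ A.powerset, g D n := summable_sum hgs
  have hnn : ∀ n, 0 ≤ ∑ D ∈ A.powerset, g D n := by
    intro n
    rw [← hTT n]
    split_ifs
    · apply mul_nonneg (hf0 n)
      refine le_trans ?_ (bonf_even (hee n) k)
      exact Finset.prod_nonneg fun p hp => by linarith [(hee n p hp).2]
    · exact le_rfl
  have hA1 : ∑ n ∈ F, f n * hw al be ra rb A n ≤ ∑' n, ∑ D ∈ A.powerset, g D n := by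
    refine le_trans ?_ (hsT.sum_le_tsum F (fun n _ => hnn n))
    apply Finset.sum_le_sum
    intro n hn
    rw [← hTT n, if_pos (hF n hn), hw_eq]
    exact mul_le_mul_of_nonneg_left (bonf_even (hee n) k) (hf0 n)
  have hA2 : ∑' n, ∑ D ∈ A.powerset, g D n = ∑ D ∈ A.powerset,
      if D.card ≤ 2 * k then (-1 : ℝ) ^ D.card * ∑' n, G D n else 0 := by
    rw [Summable.tsum_finsetSum hgs]
    refine Finset.sum_congr rfl fun D _ => ?_
    rw [hg]
    simp only
    split_ifs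
    · rw [tsum_mul_left]
    · exact tsum_zero
  have hA3 : ∀ D ∈ A.powerset, (if D.card ≤ 2 * k then (-1 : ℝ) ^ D.card * ∑' n, G D n else 0) ≤
      (if D.card ≤ 2 * k then (-1 : ℝ) ^ D.card * ∏ p ∈ D, x p else 0) * (Ψ / Q.totient) +
      (∏ p ∈ D, x p) * (err / Q.totient) := by
    intro D hD
    have hD' := Finset.mem_powerset.1 hD
    have hx0 : 0 ≤ ∏ p ∈ D, x p := Finset.prod_nonneg fun p hp => (hx01 p (hD' hp)).1
    split_ifs with hcard
    · have hDX : (Q : ℝ) * ∏ p ∈ D, (p : ℝ) ≤ X := by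
        refine le_trans ?_ hQX
        apply mul_le_mul_of_nonneg_left _ (Nat.cast_nonneg _)
        calc ∏ p ∈ D, (p : ℝ) ≤ ∏ p ∈ D, W := by
              apply Finset.prod_le_prod
              · intro p _
                exact Nat.cast_nonneg _
              · intro p hp
                exact (hA p (hD' hp)).2.2.1
          _ = W ^ D.card := by rw [Finset.prod_const]
          _ ≤ W ^ (2 * k) := pow_le_pow_right₀ hW hcard
      have hDQ : ∀ p ∈ D, ¬ p ∣ Q := by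
        intro p hp hd
        obtain ⟨hpp, hzp, -⟩ := hA p (hD' hp)
        have h1 : p ∣ primorial z := hd.trans hQ
        unfold primorial at h1
        rw [Prime.dvd_finsetProd_iff hpp.prime] at h1
        obtain ⟨q, hq, hpq⟩ := h1
        rw [Finset.mem_filter, Finset.mem_range] at hq
        have := (Nat.prime_dvd_prime_iff_eq hpp hq.2).1 hpq
        omega
      have h1 := class_D hf0 hf hp0 H al be ra rb D (fun p hp => by
        obtain ⟨h1, h2, h3, h4, h5, h6, h7, h8, h9⟩ := hA p (hD' hp)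
        exact ⟨h1, h4, h5, h6, h7, h8, h9⟩) Q hQsf hDX hpQ hDQ c hc
      have h2 : |∑' n, G D n - (∏ p ∈ D, x p) * Ψ / Q.totient| ≤
          (∏ p ∈ D, x p) * err / Q.totient := h1
      have h3 : (-1 : ℝ) ^ D.card * (∑' n, G D n - (∏ p ∈ D, x p) * Ψ / Q.totient) ≤
          (∏ p ∈ D, x p) * err / Q.totient := by
        refine (le_abs_self _).trans ?_
        rw [abs_mul, abs_pow, abs_neg, abs_one, one_pow, one_mul]
        exact h2
      have e1 : (-1 : ℝ) ^ D.card * ∑' n, G D n =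
          (-1 : ℝ) ^ D.card * (∑' n, G D n - (∏ p ∈ D, x p) * Ψ / Q.totient) +
          (-1 : ℝ) ^ D.card * (∏ p ∈ D, x p) * (Ψ / Q.totient) := by
        ring
      rw [e1, mul_div_assoc (∏ p ∈ D, x p) err] at *
      linarith
    · rw [zero_mul, zero_add]
      exact mul_nonneg hx0 (div_nonneg herr hQt.le)
  have hA4 : ∑' n, ∑ D ∈ A.powerset, g D n ≤ TT x A (2 * k) * (Ψ / Q.totient) +
      (∑ D ∈ A.powerset, ∏ p ∈ D, x p) * (err / Q.totient) := by
    rw [hA2]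
    refine (Finset.sum_le_sum hA3).trans (le_of_eq ?_)
    rw [Finset.sum_add_distrib, ← Finset.sum_mul, ← Finset.sum_mul]
    rfl
  have hΨQ : 0 ≤ Ψ / Q.totient := div_nonneg hΨ hQt.le
  have heQ : 0 ≤ err / Q.totient := div_nonneg herr hQt.le
  have h5 : TT x A (2 * k) ≤ hV al be A + sg x A (2 * k + 1) := bonf_odd hx01 k
  have h6 : ∑ D ∈ A.powerset, ∏ p ∈ D, x p ≤ Real.exp (∑ p ∈ A, x p) :=
    prod_one_add_le fun p hp => (hx01 p hp).1
  have h7 := mul_le_mul_of_nonneg_right h5 hΨQ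
  have h8 := mul_le_mul_of_nonneg_right h6 heQ
  calc ∑ n ∈ F, f n * hw al be ra rb A n ≤ _ := hA1
    _ ≤ _ := hA4
    _ ≤ (hV al be A + sg x A (2 * k + 1)) * (Ψ / Q.totient) +
        Real.exp (∑ p ∈ A, x p) * (err / Q.totient) := add_le_add h7 h8
    _ = _ := by ring

/-- lower bound for the mean -/
theorem hV_ge {al be : ℕ → ℝ} {A : Finset ℕ}
    (hA : ∀ p ∈ A, 3 ≤ p ∧ 0 ≤ al p ∧ 0 ≤ be p ∧ al p + be p ≤ 1) :
    Real.exp (-2 * ∑ p ∈ A, (al p + be p) / ((p : ℝ) - 1)) ≤ hV al be A := by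
  unfold hV
  rw [Finset.mul_sum, Real.exp_sum]
  apply Finset.prod_le_prod
  · intro p _
    exact (Real.exp_pos _).le
  · intro p hp
    obtain ⟨h1, h2, h3, h4⟩ := hA p hp
    have h5 : (3 : ℝ) ≤ p := by exact_mod_cast h1
    have h6 : (0 : ℝ) < (p : ℝ) - 1 := by linarith
    set y := (al p + be p) / ((p : ℝ) - 1) with hy
    have hy0 : 0 ≤ y := div_nonneg (by linarith) h6.le
    have hy1 : y ≤ 1 / 2 := by
      rw [hy, div_le_div_iff₀ h6 (by norm_num)]
      linarith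
    have h7 : (1 - y)⁻¹ ≤ Real.exp (2 * y) := by
      rw [inv_le_comm₀ (by linarith) (Real.exp_pos _), ← Real.exp_neg]
      have h8 : 1 + 2 * y ≤ Real.exp (2 * y) := by
        have := Real.add_one_le_exp (2 * y)
        linarith
      rw [Real.exp_neg]
      rw [inv_le_comm₀ (Real.exp_pos _) (by linarith)]
      refine le_trans ?_ h8
      rw [inv_le_comm₀ (by linarith) (by linarith)]
      rw [inv_le_iff_one_le_mul₀ (by linarith)]
      nlinarith
    rw [show -2 * y = -(2 * y) by ring, Real.exp_neg]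
    rw [inv_le_comm₀ (Real.exp_pos _) (by linarith)]
    exact h7

end BF

open BF in
/-- Block BF. -/
theorem stmt_BF (hPN : Stmt_PN) : Stmt_BF := by
  intro κ κ₂ B τ hκ hκ₂ hτ hτ1 K
  obtain ⟨z1, hz1⟩ := hPN κ B τ hκ hτ hτ1 K
  obtain ⟨Y0, hY0⟩ := Pool.Agent.Work.MP_b0c12c_nt_helper6.GPnt.gaussPnt τ hτ 1 one_pos
  set C : ℝ := (1 + 1) * (τ * Real.sqrt (2 * Real.pi) * Real.exp (τ ^ 2 / 2)) with hC
  have hC0 : 0 ≤ C := by positivity
  -- large z
  have hE1 : ∀ᶠ z : ℕ in atTop, 2 * (Real.log z + 1) ≤ (1 / 10) * (z : ℝ) ^ κ₂ := by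
    have h1 : ∀ᶠ t : ℝ in atTop, 2 * (Real.log t + 1) ≤ (1 / 10) * t ^ κ₂ := by
      have h2 := (isLittleO_log_rpow_atTop hκ₂).bound (show (0 : ℝ) < 1 / 40 by norm_num)
      have h3 := (tendsto_rpow_atTop hκ₂).eventually_ge_atTop 40
      filter_upwards [h2, h3, eventually_ge_atTop 1] with t h2 h3 h4
      rw [Real.norm_of_nonneg (Real.log_nonneg h4), Real.norm_of_nonneg (by positivity)] at h2
      linarith
    exact tendsto_natCast_atTop_atTop.eventually h1
  have hE2 : ∀ᶠ z : ℕ in atTop, C * (z : ℝ) ^ (-3 : ℝ) + (z : ℝ) ^ (-(7 / 20) : ℝ) ≤ 1 := by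
    have h1 : Tendsto (fun t : ℝ => C * t ^ (-3 : ℝ) + t ^ (-(7 / 20) : ℝ)) atTop (nhds (C * 0 + 0)) :=
      ((tendsto_rpow_neg_atTop (by norm_num : (0 : ℝ) < 3)).const_mul C).add
        (tendsto_rpow_neg_atTop (by norm_num : (0 : ℝ) < 7 / 20))
    rw [mul_zero, add_zero] at h1
    exact tendsto_natCast_atTop_atTop.eventually (h1.eventually_le_const one_pos)
  have hE3 : ∀ᶠ z : ℕ in atTop, Y0 ≤ Real.exp ((z : ℝ) ^ (1 + κ) / 2) := by
    have h1 : Tendsto (fun t : ℝ => Real.exp (t ^ (1 + κ) / 2)) atTop atTop :=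
      Real.tendsto_exp_atTop.comp
        ((tendsto_rpow_atTop (by linarith : (0 : ℝ) < 1 + κ)).atTop_div_const (by norm_num))
    exact tendsto_natCast_atTop_atTop.eventually (h1.eventually_ge_atTop Y0)
  obtain ⟨z0, hz0⟩ := eventually_atTop.1
    (((hE1.and hE2).and hE3).and ((eventually_ge_atTop z1).and (eventually_ge_atTop 2)))
  refine ⟨z0, fun z hz p0 hgood al be ra rb A hok Q hQ hpQ c hc l hl1 hl2 F hF => ?_⟩
  obtain ⟨⟨⟨hz1', hz2'⟩, hz3'⟩, hzz1, hz2⟩ := hz0 z hz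
  have hzpos : (0 : ℝ) < z := by
    have : 0 < z := by omega
    exact_mod_cast this
  have hz1r : (1 : ℝ) < z := by
    have : 1 < z := by omega
    exact_mod_cast this
  have hlogz : 0 < Real.log z := Real.log_pos hz1r
  have hPN' := hz1 z hzz1 p0 hgood
  set err : ℝ := (z : ℝ)⁻¹ * Real.exp l with herr
  set Ψ : ℝ := ∑' n : ℕ, Λ n * wt τ (Real.exp l) n with hΨ
  set k : ℕ := ⌈Real.log z⌉₊ with hk
  have hk1 : Real.log z ≤ k := Nat.le_ceil _
  have hk2 : (k : ℝ) ≤ Real.log z + 1 := (Nat.ceil_lt_add_one hlogz.le).le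
  have hwt : (fun n : ℕ => Λ n * Real.exp (-(Real.log (n / Real.exp l)) ^ 2 / (2 * τ ^ 2))) =
      fun n : ℕ => Λ n * wt τ (Real.exp l) n := rfl
  have hYl : Y0 ≤ Real.exp l := hz3'.trans (Real.exp_le_exp.2 hl1)
  obtain ⟨hsum, hΨle⟩ := hY0 (Real.exp l) hYl
  have hf0 : ∀ n : ℕ, 0 ≤ Λ n * wt τ (Real.exp l) n :=
    Pool.Agent.Work.MP_b0c12c_nt.Assem.term_nonneg τ _
  have hΨ0 : 0 ≤ Ψ := tsum_nonneg hf0
  have hΨle' : Ψ ≤ C * Real.exp l := hΨle
  have herr0 : 0 ≤ err := by positivity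
  -- the modulus
  set W : ℝ := Real.exp ((z : ℝ) ^ (1 - κ₂)) with hW
  have hW1 : 1 ≤ W := Real.one_le_exp (by positivity)
  have hQX : (Q : ℝ) * W ^ (2 * k) ≤ Real.exp (3 / 2 * z) := by
    have h1 : (Q : ℝ) ≤ 4 ^ z := by
      have h2 : Q ≤ primorial z := Nat.le_of_dvd (primorial_pos z) hQ
      have h3 : primorial z ≤ 4 ^ z := primorial_le_four_pow z
      exact_mod_cast h2.trans h3
    have h2 : (4 : ℝ) ^ z ≤ Real.exp (14 / 10 * z) := by
      have h3 : (4 : ℝ) = Real.exp (2 * Real.log 2) := by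
        rw [two_mul, Real.exp_add, Real.exp_log (by norm_num)]
        norm_num
      rw [h3, ← Real.exp_nat_mul]
      apply Real.exp_le_exp.2
      have h4 := Real.log_two_lt_d9
      nlinarith
    have h3 : W ^ (2 * k) ≤ Real.exp (1 / 10 * z) := by
      rw [hW, ← Real.exp_nat_mul]
      apply Real.exp_le_exp.2
      have h4 : ((2 * k : ℕ) : ℝ) ≤ 1 / 10 * (z : ℝ) ^ κ₂ := by
        push_cast
        linarith
      calc ((2 * k : ℕ) : ℝ) * (z : ℝ) ^ (1 - κ₂) ≤ (1 / 10 * (z : ℝ) ^ κ₂) * (z : ℝ) ^ (1 - κ₂) :=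
            mul_le_mul_of_nonneg_right h4 (by positivity)
        _ = 1 / 10 * ((z : ℝ) ^ κ₂ * (z : ℝ) ^ (1 - κ₂)) := by ring
        _ = 1 / 10 * z := by
            rw [← Real.rpow_add hzpos, show κ₂ + (1 - κ₂) = 1 by ring, Real.rpow_one]
    calc (Q : ℝ) * W ^ (2 * k) ≤ Real.exp (14 / 10 * z) * Real.exp (1 / 10 * z) :=
          mul_le_mul (h1.trans h2) h3 (by positivity) (by positivity)
      _ = Real.exp (3 / 2 * z) := by
          rw [← Real.exp_add]
          congr 1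
          ring
  have hp0 : p0 = 0 ∨ p0.Prime := by
    rcases hgood.1 with h | h
    · exact Or.inl h
    · exact Or.inr h.1
  have hAA : ∀ p ∈ A, p.Prime ∧ z < p ∧ (p : ℝ) ≤ W ∧ p ≠ p0 ∧ 0 ≤ al p ∧ 0 ≤ be p ∧
      al p + be p ≤ 1 ∧ (ra p).Coprime p ∧ (rb p).Coprime p := by
    intro p hp
    obtain ⟨h1, h2, h3, h4, h5, h6, h7, h8, h9, -⟩ := hok.1 p hp
    refine ⟨h1, h2, ?_, h4, h5, h6, h7, h8, h9⟩
    have h10 : ((w1 κ₂ z : ℕ) : ℝ) ≤ W := Nat.floor_le (Real.exp_pos _).le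
    have h11 : (p : ℝ) ≤ (w1 κ₂ z : ℕ) := by exact_mod_cast h3
    exact h11.trans h10
  have hmain := class_hw hf0 hsum hp0 hΨ0 herr0 hW1 (X := Real.exp (3 / 2 * z)) (p0 := p0)
    (z := z) (k := k)
    (fun M hM hMX hpM c hc => (hPN' M hM hMX hpM c hc l hl1 hl2).2) hAA hQ hQX hpQ hc hF
  set m : ℝ := ∑ p ∈ A, (al p + be p) / ((p : ℝ) - 1) with hm
  have hm1 : m ≤ Real.log z / 20 := hok.2
  have hx0 : ∀ p ∈ A, 0 ≤ (al p + be p) / ((p : ℝ) - 1) := by
    intro p hp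
    obtain ⟨h1, -, -, -, h5, h6, -⟩ := hAA p hp
    have h4 : (2 : ℝ) ≤ p := by exact_mod_cast h1.two_le
    exact div_nonneg (by linarith) (by linarith)
  have hm0 : 0 ≤ m := Finset.sum_nonneg hx0
  have hsg := sg_le hx0 (2 * k + 1)
  have hV1 : Real.exp (-2 * m) ≤ hV al be A := by
    apply hV_ge
    intro p hp
    obtain ⟨h1, h2, -, -, h5, h6, h7, -⟩ := hAA p hp
    exact ⟨by omega, h5, h6, h7⟩
  -- numerics
  have he2 : Real.exp 2 ≤ 8 := by
    have h1 := Real.exp_one_lt_d9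
    have h2 : Real.exp 2 = Real.exp 1 * Real.exp 1 := by
      rw [← Real.exp_add]
      norm_num
    rw [h2]
    nlinarith [Real.exp_pos 1]
  have hrp : ∀ s : ℝ, (z : ℝ) ^ s = Real.exp (s * Real.log z) := by
    intro s
    rw [Real.rpow_def_of_pos hzpos]
    congr 1
    ring
  have hsg' : sg (fun p => (al p + be p) / ((p : ℝ) - 1)) A (2 * k + 1) ≤
      (z : ℝ) ^ (-(36 / 10) : ℝ) := by
    refine hsg.trans ?_
    rw [hrp]
    apply Real.exp_le_exp.2
    rw [← hm]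
    push_cast
    have h1 : Real.exp 2 * m ≤ 8 * (Real.log z / 20) :=
      mul_le_mul he2 hm1 hm0 (by norm_num)
    linarith
  have hem : Real.exp m ≤ (z : ℝ) ^ (1 / 20 : ℝ) := by
    rw [hrp]
    apply Real.exp_le_exp.2
    linarith
  have hV2 : (z : ℝ) ^ (-(1 / 10) : ℝ) ≤ hV al be A := by
    refine le_trans ?_ hV1
    rw [hrp]
    apply Real.exp_le_exp.2
    linarith
  have hQt : (0 : ℝ) < Q.totient := by
    exact_mod_cast Nat.totient_pos.2 (Nat.pos_of_dvd_of_pos hQ (primorial_pos z))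
  have hel : 0 < Real.exp l := Real.exp_pos l
  have hfin : sg (fun p => (al p + be p) / ((p : ℝ) - 1)) A (2 * k + 1) * Ψ +
      Real.exp m * err ≤ hV al be A * ((z : ℝ) ^ (-(1 / 2) : ℝ) * Real.exp l) := by
    have h1 : sg (fun p => (al p + be p) / ((p : ℝ) - 1)) A (2 * k + 1) * Ψ ≤
        (z : ℝ) ^ (-(36 / 10) : ℝ) * (C * Real.exp l) :=
      mul_le_mul hsg' hΨle' hΨ0 (by positivity)
    have h2 : Real.exp m * err ≤ (z : ℝ) ^ (1 / 20 : ℝ) * ((z : ℝ)⁻¹ * Real.exp l) :=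
      mul_le_mul_of_nonneg_right hem herr0
    have h3 : (z : ℝ) ^ (-(1 / 10) : ℝ) * ((z : ℝ) ^ (-(1 / 2) : ℝ) * Real.exp l) ≤
        hV al be A * ((z : ℝ) ^ (-(1 / 2) : ℝ) * Real.exp l) :=
      mul_le_mul_of_nonneg_right hV2 (by positivity)
    have h4 : (z : ℝ) ^ (-(36 / 10) : ℝ) = (z : ℝ) ^ (-3 : ℝ) * (z : ℝ) ^ (-(6 / 10) : ℝ) := by
      rw [← Real.rpow_add hzpos]
      norm_num
    have h5 : (z : ℝ) ^ (1 / 20 : ℝ) * (z : ℝ)⁻¹ =
        (z : ℝ) ^ (-(7 / 20) : ℝ) * (z : ℝ) ^ (-(6 / 10) : ℝ) := by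
      rw [← Real.rpow_neg_one, ← Real.rpow_add hzpos, ← Real.rpow_add hzpos]
      norm_num
    have h6 : (z : ℝ) ^ (-(1 / 10) : ℝ) * (z : ℝ) ^ (-(1 / 2) : ℝ) = (z : ℝ) ^ (-(6 / 10) : ℝ) := by
      rw [← Real.rpow_add hzpos]
      norm_num
    have h7 : 0 < (z : ℝ) ^ (-(6 / 10) : ℝ) := by positivity
    have h8 := mul_le_mul_of_nonneg_right hz2' (mul_pos h7 hel).le
    calc _ ≤ (z : ℝ) ^ (-(36 / 10) : ℝ) * (C * Real.exp l) +
          (z : ℝ) ^ (1 / 20 : ℝ) * ((z : ℝ)⁻¹ * Real.exp l) := add_le_add h1 h2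
      _ = (C * (z : ℝ) ^ (-3 : ℝ) + (z : ℝ) ^ (-(7 / 20) : ℝ)) *
          ((z : ℝ) ^ (-(6 / 10) : ℝ) * Real.exp l) := by
          rw [← mul_assoc ((z : ℝ) ^ (1 / 20 : ℝ)), h5, h4]
          ring
      _ ≤ 1 * ((z : ℝ) ^ (-(6 / 10) : ℝ) * Real.exp l) := h8
      _ = (z : ℝ) ^ (-(1 / 10) : ℝ) * ((z : ℝ) ^ (-(1 / 2) : ℝ) * Real.exp l) := by
          rw [one_mul, ← mul_assoc, h6]
      _ ≤ _ := h3
  refine hmain.trans ?_
  rw [← add_div]
  apply div_le_div_of_nonneg_right _ hQt.le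
  rw [mul_add]
  linarith

end Pool.Agent.Work.MP_b0c12c_nt_shift
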