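import Pool.Agent.Work.MP_b0c12c_nt_shift.Defs

/-!
# Block OP: calculus of the finite averages `EA`
-/

set_option autoImplicit false

namespace Pool.Agent.Work.MP_b0c12c_nt_shift

open Finset

variable {π : ℕ → ℤ → ℝ}

/-! ## Lists -/

theorem E1_comm (p q : ℕ) (f : (ℕ → ℤ) → ℝ) : E1 π p (E1 π q f) = E1 π q (E1 π p f) := by
  by_cases hpq : p = q
  · rw [hpq]
  funext v
  unfold E1
  simp only [mul_sum]
  rw [sum_comm]
  apply sum_congr rfl
  intro s _
  apply sum_congr rfl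
  intro t _
  rw [Function.update_comm hpq]
  ring

theorem EL_perm {l l' : List ℕ} (h : l.Perm l') (f : (ℕ → ℤ) → ℝ) : EL π l f = EL π l' f := by
  induction h with
  | nil => rfl
  | cons p _ ih => simp only [EL, ih]
  | swap p q l => simp only [EL]; rw [E1_comm]
  | trans _ _ ih1 ih2 => rw [ih1, ih2]

theorem EL_append (l l' : List ℕ) (f : (ℕ → ℤ) → ℝ) : EL π (l ++ l') f = EL π l (EL π l' f) := by
  induction l with
  | nil => rfl
  | cons p l ih => simp only [List.cons_append, EL, ih]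

theorem EL_congr_on {s : Set ℕ} {f : (ℕ → ℤ) → ℝ} (hf : DependsOn f s) (l : List ℕ) :
    ∀ v v' : ℕ → ℤ, (∀ i ∈ s, i ∉ l → v i = v' i) → EL π l f v = EL π l f v' := by
  induction l with
  | nil => intro v v' h; exact hf fun i hi => h i hi (by simp)
  | cons p l ih =>
    intro v v' h
    simp only [EL, E1]
    apply sum_congr rfl
    intro a _
    rw [ih (Function.update v p a) (Function.update v' p a)]
    intro i hi hil
    by_cases hip : i = p
    · subst hip; simp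
    · rw [Function.update_of_ne hip, Function.update_of_ne hip]
      exact h i hi (by simp [hip, hil])

theorem E1_mono (hπ : ∀ p s, 0 ≤ π p s) (p : ℕ) {f g : (ℕ → ℤ) → ℝ} (h : ∀ v, f v ≤ g v)
    (v : ℕ → ℤ) : E1 π p f v ≤ E1 π p g v :=
  sum_le_sum fun s _ => mul_le_mul_of_nonneg_left (h _) (hπ p s)

theorem sum_sgn (g : ℤ → ℝ) : ∑ s ∈ sgn, g s = g (-1) + g 0 + g 1 := by
  unfold sgn
  rw [sum_insert (by decide), sum_insert (by decide), sum_singleton]
  ring

theorem E1_const (hs : ∀ p, π p (-1) + π p 0 + π p 1 = 1) (p : ℕ) (c : ℝ) :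
    E1 π p (fun _ => c) = fun _ => c := by
  funext v
  unfold E1
  rw [← sum_mul, sum_sgn (fun s => π p s), hs, one_mul]

/-! ## `EA` -/

theorem EA_empty (f : (ℕ → ℤ) → ℝ) : EA π ∅ f = f := by
  simp [EA, EL]

theorem EA_insert {p : ℕ} {A : Finset ℕ} (hp : p ∉ A) (f : (ℕ → ℤ) → ℝ) :
    EA π (insert p A) f = E1 π p (EA π A f) := by
  unfold EA
  rw [EL_perm (Finset.toList_insert hp)]
  rfl

theorem EA_singleton (p : ℕ) (f : (ℕ → ℤ) → ℝ) : EA π {p} f = E1 π p f := by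
  have h := EA_insert (π := π) (notMem_empty p) f
  rw [EA_empty] at h
  simpa using h

theorem EA_union {A B : Finset ℕ} (h : Disjoint A B) (f : (ℕ → ℤ) → ℝ) :
    EA π (A ∪ B) f = EA π A (EA π B f) := by
  induction A using Finset.induction_on with
  | empty => rw [empty_union, EA_empty]
  | insert p A hp ih =>
    rw [disjoint_insert_left] at h
    rw [insert_union, EA_insert, EA_insert hp, ih h.2]
    rw [mem_union]
    rintro (h1 | h1)
    · exact hp h1
    · exact h.1 h1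

theorem EA_insert' {p : ℕ} {A : Finset ℕ} (hp : p ∉ A) (f : (ℕ → ℤ) → ℝ) :
    EA π (insert p A) f = EA π A (E1 π p f) := by
  rw [insert_eq, union_comm, EA_union (disjoint_singleton_right.2 hp), EA_singleton]

theorem EA_sdiff {A B : Finset ℕ} (h : B ⊆ A) (f : (ℕ → ℤ) → ℝ) :
    EA π A f = EA π (A \ B) (EA π B f) := by
  rw [← EA_union sdiff_disjoint, sdiff_union_of_subset h]

theorem EA_sdiff' {A B : Finset ℕ} (h : B ⊆ A) (f : (ℕ → ℤ) → ℝ) :
    EA π A f = EA π B (EA π (A \ B) f) := by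
  rw [← EA_union disjoint_sdiff, union_sdiff_of_subset h]

/-- induction principle for identities and inequalities about `EA` -/
theorem EA_comm (A B : Finset ℕ) (f : (ℕ → ℤ) → ℝ) : EA π A (EA π B f) = EA π B (EA π A f) := by
  unfold EA
  rw [← EL_append, ← EL_append]
  exact EL_perm List.perm_append_comm f

/-! ### Linearity -/

theorem E1_add (p : ℕ) (f g : (ℕ → ℤ) → ℝ) : E1 π p (f + g) = E1 π p f + E1 π p g := by
  funext v
  simp only [E1, Pi.add_apply, mul_add, sum_add_distrib]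

theorem E1_sub (p : ℕ) (f g : (ℕ → ℤ) → ℝ) : E1 π p (f - g) = E1 π p f - E1 π p g := by
  funext v
  simp only [E1, Pi.sub_apply, mul_sub, sum_sub_distrib]

theorem E1_const_mul (p : ℕ) (c : ℝ) (f : (ℕ → ℤ) → ℝ) :
    E1 π p (fun v => c * f v) = fun v => c * E1 π p f v := by
  funext v
  simp only [E1, mul_sum]
  apply sum_congr rfl
  intro s _
  ring

theorem EA_add (A : Finset ℕ) (f g : (ℕ → ℤ) → ℝ) : EA π A (f + g) = EA π A f + EA π A g := by
  induction A using Finset.induction_on with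
  | empty => simp only [EA_empty]
  | insert p A hp ih => rw [EA_insert hp, EA_insert hp, EA_insert hp, ih, E1_add]

theorem EA_sub (A : Finset ℕ) (f g : (ℕ → ℤ) → ℝ) : EA π A (f - g) = EA π A f - EA π A g := by
  induction A using Finset.induction_on with
  | empty => simp only [EA_empty]
  | insert p A hp ih => rw [EA_insert hp, EA_insert hp, EA_insert hp, ih, E1_sub]

theorem EA_const_mul (A : Finset ℕ) (c : ℝ) (f : (ℕ → ℤ) → ℝ) :
    EA π A (fun v => c * f v) = fun v => c * EA π A f v := by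
  induction A using Finset.induction_on with
  | empty => simp only [EA_empty]
  | insert p A hp ih => rw [EA_insert hp, EA_insert hp, ih, E1_const_mul]

theorem EA_zero (A : Finset ℕ) : EA π A (fun _ => (0 : ℝ)) = fun _ => 0 := by
  have h := EA_const_mul (π := π) A 0 (fun _ => (0 : ℝ))
  simpa using h

theorem EA_sum {ι : Type*} (A : Finset ℕ) (J : Finset ι) (f : ι → (ℕ → ℤ) → ℝ) :
    EA π A (fun v => ∑ j ∈ J, f j v) = fun v => ∑ j ∈ J, EA π A (f j) v := by
  classical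
  induction J using Finset.induction_on with
  | empty => simpa using EA_zero A
  | insert i J hi ih =>
    have h1 : (fun v => ∑ j ∈ insert i J, f j v) = f i + fun v => ∑ j ∈ J, f j v := by
      funext v
      simp [sum_insert hi]
    rw [h1, EA_add, ih]
    funext v
    simp [sum_insert hi]

theorem EA_const (hs : ∀ p, π p (-1) + π p 0 + π p 1 = 1) (A : Finset ℕ) (c : ℝ) :
    EA π A (fun _ => c) = fun _ => c := by
  induction A using Finset.induction_on with
  | empty => rw [EA_empty]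
  | insert p A hp ih => rw [EA_insert hp, ih, E1_const hs]

/-! ### Monotonicity -/

theorem EA_mono (hπ : ∀ p s, 0 ≤ π p s) (A : Finset ℕ) {f g : (ℕ → ℤ) → ℝ} (h : ∀ v, f v ≤ g v)
    (v : ℕ → ℤ) : EA π A f v ≤ EA π A g v := by
  induction A using Finset.induction_on generalizing v with
  | empty => simp only [EA_empty]; exact h v
  | insert p A hp ih =>
    rw [EA_insert hp, EA_insert hp]
    exact E1_mono hπ p ih v

/-- Only the configurations `w` which agree with `v` off `A` and have values in `sgn` on `A`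
matter. -/
theorem EA_mono_on (hπ : ∀ p s, 0 ≤ π p s) (A : Finset ℕ) {f g : (ℕ → ℤ) → ℝ} (v : ℕ → ℤ)
    (h : ∀ w : ℕ → ℤ, (∀ p ∉ A, w p = v p) → (∀ p ∈ A, w p ∈ sgn) → f w ≤ g w) :
    EA π A f v ≤ EA π A g v := by
  induction A using Finset.induction_on generalizing v with
  | empty =>
    simp only [EA_empty]
    exact h v (fun _ _ => rfl) (fun p hp => absurd hp (notMem_empty p))
  | insert q A hq ih =>
    rw [EA_insert hq, EA_insert hq]
    apply sum_le_sum
    intro s hs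
    apply mul_le_mul_of_nonneg_left _ (hπ q s)
    apply ih
    intro w hw1 hw2
    apply h w
    · intro p hp
      rw [mem_insert, not_or] at hp
      rw [hw1 p hp.2, Function.update_of_ne hp.1]
    · intro p hp
      rw [mem_insert] at hp
      rcases hp with hp | hp
      · subst hp
        rw [hw1 p hq, Function.update_self]
        exact hs
      · exact hw2 p hp

theorem EA_congr_on (hπ : ∀ p s, 0 ≤ π p s) (A : Finset ℕ) {f g : (ℕ → ℤ) → ℝ} (v : ℕ → ℤ)
    (h : ∀ w : ℕ → ℤ, (∀ p ∉ A, w p = v p) → (∀ p ∈ A, w p ∈ sgn) → f w = g w) :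
    EA π A f v = EA π A g v :=
  le_antisymm (EA_mono_on hπ A v fun w h1 h2 => (h w h1 h2).le)
    (EA_mono_on hπ A v fun w h1 h2 => (h w h1 h2).ge)

theorem EA_nonneg (hπ : ∀ p s, 0 ≤ π p s) (A : Finset ℕ) {f : (ℕ → ℤ) → ℝ} (h : ∀ v, 0 ≤ f v)
    (v : ℕ → ℤ) : 0 ≤ EA π A f v := by
  have h1 := EA_mono (π := π) hπ A (f := fun _ => 0) (g := f) h v
  rwa [EA_zero] at h1

theorem EA_le_const (hπ : ∀ p s, 0 ≤ π p s) (hs : ∀ p, π p (-1) + π p 0 + π p 1 = 1)
    (A : Finset ℕ) {f : (ℕ → ℤ) → ℝ} {c : ℝ} (h : ∀ v, f v ≤ c) (v : ℕ → ℤ) :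
    EA π A f v ≤ c := by
  have h1 := EA_mono (π := π) hπ A (f := f) (g := fun _ => c) h v
  rwa [EA_const hs] at h1

theorem EA_le_one (hπ : ∀ p s, 0 ≤ π p s) (hs : ∀ p, π p (-1) + π p 0 + π p 1 = 1)
    (A : Finset ℕ) {f : (ℕ → ℤ) → ℝ} (h : ∀ v, f v ≤ 1) (v : ℕ → ℤ) : EA π A f v ≤ 1 :=
  EA_le_const hπ hs A h v

theorem const_le_EA (hπ : ∀ p s, 0 ≤ π p s) (hs : ∀ p, π p (-1) + π p 0 + π p 1 = 1)
    (A : Finset ℕ) {f : (ℕ → ℤ) → ℝ} {c : ℝ} (h : ∀ v, c ≤ f v) (v : ℕ → ℤ) :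
    c ≤ EA π A f v := by
  have h1 := EA_mono (π := π) hπ A (f := fun _ => c) (g := f) h v
  rwa [EA_const hs] at h1

/-! ### Dependence -/

theorem EA_dependsOn {f : (ℕ → ℤ) → ℝ} {s : Set ℕ} (hf : DependsOn f s) (A : Finset ℕ) :
    DependsOn (EA π A f) (s \ (A : Set ℕ)) := by
  intro v v' h
  apply EL_congr_on hf
  intro i hi hiA
  apply h i
  rw [Finset.mem_toList] at hiA
  exact ⟨hi, hiA⟩

theorem EA_congr_off (A : Finset ℕ) (f : (ℕ → ℤ) → ℝ) {v v' : ℕ → ℤ} (h : ∀ p ∉ A, v p = v' p) :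
    EA π A f v = EA π A f v' := by
  apply EA_dependsOn (dependsOn_univ f) A
  intro i hi
  exact h i hi.2

theorem E1_of_dependsOn (hs : ∀ p, π p (-1) + π p 0 + π p 1 = 1) {f : (ℕ → ℤ) → ℝ} {s : Set ℕ}
    (hf : DependsOn f s) {p : ℕ} (hp : p ∉ s) : E1 π p f = f := by
  funext v
  unfold E1
  have h1 : ∀ a ∈ sgn, π p a * f (Function.update v p a) = π p a * f v := by
    intro a _
    congr 1
    apply hf
    intro i hi
    rw [Function.update_of_ne]
    rintro rfl
    exact hp hi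
  rw [sum_congr rfl h1, ← sum_mul, sum_sgn (fun s => π p s), hs, one_mul]

theorem EA_of_dependsOn (hs : ∀ p, π p (-1) + π p 0 + π p 1 = 1) {f : (ℕ → ℤ) → ℝ} {s : Set ℕ}
    (hf : DependsOn f s) {A : Finset ℕ} (h : Disjoint s (A : Set ℕ)) : EA π A f = f := by
  induction A using Finset.induction_on with
  | empty => rw [EA_empty]
  | insert p A hp ih =>
    rw [Finset.coe_insert, Set.disjoint_insert_right] at h
    rw [EA_insert hp, ih h.2, E1_of_dependsOn hs hf h.1]

theorem EA_restrict (hs : ∀ p, π p (-1) + π p 0 + π p 1 = 1) {f : (ℕ → ℤ) → ℝ} {s : Set ℕ}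
    (hf : DependsOn f s) {A A' : Finset ℕ} (h1 : A' ⊆ A) (h2 : ∀ p ∈ A, p ∈ s → p ∈ A') :
    EA π A f = EA π A' f := by
  rw [EA_sdiff' h1, EA_of_dependsOn hs hf]
  rw [Set.disjoint_left]
  intro p hps hpA
  rw [Finset.mem_coe, mem_sdiff] at hpA
  exact hpA.2 (h2 p hpA.1 hps)

theorem DependsOn_mul {f g : (ℕ → ℤ) → ℝ} {s t : Set ℕ} (hf : DependsOn f s)
    (hg : DependsOn g t) : DependsOn (fun v => f v * g v) (s ∪ t) := by
  intro v v' h
  have h1 : f v = f v' := hf fun i hi => h i (Or.inl hi)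
  have h2 : g v = g v' := hg fun i hi => h i (Or.inr hi)
  simp only [h1, h2]

theorem DependsOn_prod {ι : Type*} (J : Finset ι) {f : ι → (ℕ → ℤ) → ℝ} {s : ι → Set ℕ}
    (hf : ∀ j ∈ J, DependsOn (f j) (s j)) :
    DependsOn (fun v => ∏ j ∈ J, f j v) (⋃ j ∈ J, s j) := by
  intro v v' h
  apply prod_congr rfl
  intro j hj
  apply hf j hj
  intro i hi
  apply h i
  simp only [Set.mem_iUnion]
  exact ⟨j, hj, hi⟩

theorem DependsOn_sum {ι : Type*} (J : Finset ι) {f : ι → (ℕ → ℤ) → ℝ} {s : ι → Set ℕ}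
    (hf : ∀ j ∈ J, DependsOn (f j) (s j)) :
    DependsOn (fun v => ∑ j ∈ J, f j v) (⋃ j ∈ J, s j) := by
  intro v v' h
  apply sum_congr rfl
  intro j hj
  apply hf j hj
  intro i hi
  apply h i
  simp only [Set.mem_iUnion]
  exact ⟨j, hj, hi⟩

theorem E1_mul_left {g : (ℕ → ℤ) → ℝ} {s : Set ℕ} (hg : DependsOn g s) {p : ℕ} (hp : p ∉ s)
    (f : (ℕ → ℤ) → ℝ) : E1 π p (fun v => g v * f v) = fun v => g v * E1 π p f v := by
  funext v
  unfold E1
  rw [mul_sum]
  apply sum_congr rfl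
  intro a _
  have h1 : g (Function.update v p a) = g v := by
    apply hg
    intro i hi
    rw [Function.update_of_ne]
    rintro rfl
    exact hp hi
  simp only [h1]
  ring

theorem EA_mul_left {g : (ℕ → ℤ) → ℝ} {s : Set ℕ} (hg : DependsOn g s) {A : Finset ℕ}
    (h : Disjoint s (A : Set ℕ)) (f : (ℕ → ℤ) → ℝ) :
    EA π A (fun v => g v * f v) = fun v => g v * EA π A f v := by
  induction A using Finset.induction_on with
  | empty => simp only [EA_empty]
  | insert p A hp ih =>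
    rw [Finset.coe_insert, Set.disjoint_insert_right] at h
    rw [EA_insert hp, EA_insert hp, ih h.2, E1_mul_left hg h.1]

theorem EA_mul_right {g : (ℕ → ℤ) → ℝ} {s : Set ℕ} (hg : DependsOn g s) {A : Finset ℕ}
    (h : Disjoint s (A : Set ℕ)) (f : (ℕ → ℤ) → ℝ) :
    EA π A (fun v => f v * g v) = fun v => EA π A f v * g v := by
  have h1 := EA_mul_left (π := π) hg h f
  have h2 : (fun v => f v * g v) = fun v => g v * f v := by funext v; ring
  rw [h2, h1]
  funext v
  ring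

/-- independence -/
theorem EA_mul_indep (hs : ∀ p, π p (-1) + π p 0 + π p 1 = 1) {f g : (ℕ → ℤ) → ℝ}
    {s t : Set ℕ} (hf : DependsOn f s) (hg : DependsOn g t) {A : Finset ℕ}
    (h : ∀ p ∈ A, p ∈ s → p ∉ t) :
    EA π A (fun v => f v * g v) = fun v => EA π A f v * EA π A g v := by
  classical
  set A1 := A.filter (· ∈ s) with hA1
  have hsub : A1 ⊆ A := filter_subset _ _
  have hf1 : EA π A f = EA π A1 f :=
    EA_restrict hs hf hsub fun p hp hps => mem_filter.2 ⟨hp, hps⟩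
  have hg1 : EA π A g = EA π (A \ A1) g := by
    apply EA_restrict hs hg sdiff_subset
    intro p hp hpt
    rw [mem_sdiff]
    refine ⟨hp, fun hc => ?_⟩
    exact h p hp (mem_filter.1 hc).2 hpt
  have hd1 : Disjoint s ((A \ A1 : Finset ℕ) : Set ℕ) := by
    rw [Set.disjoint_left]
    intro p hps hpA
    rw [Finset.mem_coe, mem_sdiff] at hpA
    exact hpA.2 (mem_filter.2 ⟨hpA.1, hps⟩)
  have hd2 : Disjoint (t \ ((A \ A1 : Finset ℕ) : Set ℕ)) (A1 : Set ℕ) := by
    rw [Set.disjoint_left]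
    rintro p ⟨hpt, _⟩ hpA
    rw [Finset.mem_coe, mem_filter] at hpA
    exact h p hpA.1 hpA.2 hpt
  rw [EA_sdiff' hsub (fun v => f v * g v), EA_mul_left hf hd1,
    EA_mul_right (EA_dependsOn hg (A \ A1)) hd2, ← hf1, ← hg1]

theorem EA_prod_indep (hs : ∀ p, π p (-1) + π p 0 + π p 1 = 1) {ι : Type*} (J : Finset ι)
    {f : ι → (ℕ → ℤ) → ℝ} {s : ι → Set ℕ} (hf : ∀ j ∈ J, DependsOn (f j) (s j)) {A : Finset ℕ}
    (h : ∀ i ∈ J, ∀ j ∈ J, i ≠ j → ∀ p ∈ A, p ∈ s i → p ∉ s j) :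
    EA π A (fun v => ∏ j ∈ J, f j v) = fun v => ∏ j ∈ J, EA π A (f j) v := by
  classical
  induction J using Finset.induction_on with
  | empty =>
    simp only [prod_empty]
    exact EA_const hs A 1
  | insert i J hi ih =>
    have h1 : (fun v => ∏ j ∈ insert i J, f j v) = fun v => f i v * ∏ j ∈ J, f j v := by
      funext v
      rw [prod_insert hi]
    have h2 := ih (fun j hj => hf j (mem_insert_of_mem hj))
      (fun a ha b hb => h a (mem_insert_of_mem ha) b (mem_insert_of_mem hb))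
    rw [h1, EA_mul_indep hs (hf i (mem_insert_self _ _))
      (DependsOn_prod J fun j hj => hf j (mem_insert_of_mem hj)) _, h2]
    · funext v
      rw [prod_insert hi]
    · intro p hp hpi hpJ
      simp only [Set.mem_iUnion] at hpJ
      obtain ⟨j, hj, hpj⟩ := hpJ
      have hij : i ≠ j := fun e => hi (e ▸ hj)
      exact h i (mem_insert_self _ _) j (mem_insert_of_mem hj) hij p hp hpi hpj

/-- a single configuration -/
theorem EA_ge_point (hπ : ∀ p s, 0 ≤ π p s) (A : Finset ℕ) {f : (ℕ → ℤ) → ℝ}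
    (hf : ∀ v, 0 ≤ f v) (v w : ℕ → ℤ) (h1 : ∀ p ∉ A, w p = v p) (h2 : ∀ p ∈ A, w p ∈ sgn) :
    (∏ p ∈ A, π p (w p)) * f w ≤ EA π A f v := by
  induction A using Finset.induction_on generalizing v with
  | empty =>
    rw [EA_empty, prod_empty, one_mul]
    have : w = v := by
      funext p
      exact h1 p (notMem_empty p)
    rw [this]
  | insert q A hq ih =>
    rw [EA_insert hq, prod_insert hq]
    have h3 := ih (Function.update v q (w q))
      (by
        intro p hp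
        by_cases hpq : p = q
        · subst hpq; simp
        · rw [Function.update_of_ne hpq]
          exact h1 p (by simp [hpq, hp]))
      (fun p hp => h2 p (mem_insert_of_mem hp))
    have h4 : π q (w q) * EA π A f (Function.update v q (w q)) ≤ E1 π q (EA π A f) v := by
      unfold E1
      apply single_le_sum (f := fun s => π q s * EA π A f (Function.update v q s))
      · intro s _
        exact mul_nonneg (hπ q s) (EA_nonneg hπ A hf _)
      · exact h2 q (mem_insert_self _ _)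
    calc π q (w q) * (∏ p ∈ A, π p (w p)) * f w = π q (w q) * ((∏ p ∈ A, π p (w p)) * f w) := by
          ring
      _ ≤ π q (w q) * EA π A f (Function.update v q (w q)) :=
          mul_le_mul_of_nonneg_left h3 (hπ _ _)
      _ ≤ _ := h4

/-! ### Indicators -/

theorem ind_apply (S : Set (ℕ → ℤ)) [DecidablePred (· ∈ S)] (v : ℕ → ℤ) :
    ind S v = if v ∈ S then 1 else 0 := by
  unfold ind
  rw [Set.indicator_apply]
  simp

theorem ind_of_mem {S : Set (ℕ → ℤ)} {v : ℕ → ℤ} (h : v ∈ S) : ind S v = 1 := by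
  unfold ind
  rw [Set.indicator_of_mem h]; rfl

theorem ind_of_not_mem {S : Set (ℕ → ℤ)} {v : ℕ → ℤ} (h : v ∉ S) : ind S v = 0 := by
  unfold ind
  rw [Set.indicator_of_notMem h]

theorem ind_nonneg (S : Set (ℕ → ℤ)) (v : ℕ → ℤ) : 0 ≤ ind S v := by
  by_cases h : v ∈ S
  · rw [ind_of_mem h]; exact zero_le_one
  · rw [ind_of_not_mem h]

theorem ind_le_one (S : Set (ℕ → ℤ)) (v : ℕ → ℤ) : ind S v ≤ 1 := by
  by_cases h : v ∈ S
  · rw [ind_of_mem h]
  · rw [ind_of_not_mem h]; exact zero_le_one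

theorem ind_mono {S T : Set (ℕ → ℤ)} {v : ℕ → ℤ} (h : v ∈ S → v ∈ T) : ind S v ≤ ind T v := by
  by_cases h1 : v ∈ S
  · rw [ind_of_mem h1, ind_of_mem (h h1)]
  · rw [ind_of_not_mem h1]; exact ind_nonneg _ _

theorem ind_mul (S T : Set (ℕ → ℤ)) : (fun v => ind S v * ind T v) = ind (S ∩ T) := by
  funext v
  by_cases h1 : v ∈ S
  · by_cases h2 : v ∈ T
    · rw [ind_of_mem h1, ind_of_mem h2, ind_of_mem (show v ∈ S ∩ T from ⟨h1, h2⟩), one_mul]
    · rw [ind_of_not_mem h2, ind_of_not_mem (fun h : v ∈ S ∩ T => h2 h.2), mul_zero]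
  · rw [ind_of_not_mem h1, ind_of_not_mem (fun h : v ∈ S ∩ T => h1 h.1), zero_mul]

theorem ind_compl (S : Set (ℕ → ℤ)) : ind Sᶜ = fun v => 1 - ind S v := by
  funext v
  by_cases h1 : v ∈ S
  · rw [ind_of_mem h1, ind_of_not_mem (fun h : v ∈ Sᶜ => h h1), sub_self]
  · rw [ind_of_not_mem h1, ind_of_mem (show v ∈ Sᶜ from h1), sub_zero]

theorem ind_univ : ind Set.univ = fun _ => 1 := by
  funext v
  exact ind_of_mem trivial

theorem prod_ind {ι : Type*} (J : Finset ι) (S : ι → Set (ℕ → ℤ)) (v : ℕ → ℤ) :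
    ∏ j ∈ J, ind (S j) v = ind {w | ∀ j ∈ J, w ∈ S j} v := by
  by_cases h : ∀ j ∈ J, v ∈ S j
  · rw [ind_of_mem (show v ∈ {w | ∀ j ∈ J, w ∈ S j} from h)]
    exact prod_eq_one fun j hj => ind_of_mem (h j hj)
  · rw [ind_of_not_mem (show v ∉ {w | ∀ j ∈ J, w ∈ S j} from h)]
    push Not at h
    obtain ⟨j, hj, hv⟩ := h
    exact prod_eq_zero hj (ind_of_not_mem hv)

theorem ind_dependsOn {S : Set (ℕ → ℤ)} {s : Set ℕ}
    (h : ∀ v w : ℕ → ℤ, (∀ i ∈ s, v i = w i) → (v ∈ S → w ∈ S)) : DependsOn (ind S) s := by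
  intro v w hvw
  by_cases hv : v ∈ S
  · rw [ind_of_mem hv, ind_of_mem (h v w hvw hv)]
  · rw [ind_of_not_mem hv, ind_of_not_mem fun hw => hv (h w v (fun i hi => (hvw i hi).symm) hw)]

/-- union bound -/
theorem ind_union_le (S T : Set (ℕ → ℤ)) (v : ℕ → ℤ) : ind (S ∪ T) v ≤ ind S v + ind T v := by
  by_cases h1 : v ∈ S
  · rw [ind_of_mem h1]
    have := ind_le_one (S ∪ T) v
    have := ind_nonneg T v
    linarith
  · by_cases h2 : v ∈ T
    · rw [ind_of_mem h2]
      have := ind_le_one (S ∪ T) v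
      have := ind_nonneg S v
      linarith
    · rw [ind_of_not_mem (fun h : v ∈ S ∪ T => h.elim h1 h2)]
      have := ind_nonneg S v
      have := ind_nonneg T v
      linarith

/-! ### Survival probabilities -/

/-- the event that `n` avoids the classes of all primes of `A` -/
def Av (A : Finset ℕ) (n : ℕ) : Set (ℕ → ℤ) := {v | ∀ p ∈ A, ¬ (p : ℤ) ∣ (n : ℤ) - v p}

theorem Av_dependsOn (A : Finset ℕ) (n : ℕ) : DependsOn (ind (Av A n)) (A : Set ℕ) := by
  apply ind_dependsOn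
  intro v w h hv p hp
  rw [← h p hp]
  exact hv p hp

theorem E1_surv (hs : ∀ p, π p (-1) + π p 0 + π p 1 = 1) (p n : ℕ) (v : ℕ → ℤ) :
    E1 π p (ind {w | ¬ (p : ℤ) ∣ (n : ℤ) - w p}) v = gw π p n := by
  classical
  unfold E1 gw
  have h1 : ∀ s ∈ sgn, π p s * ind {w : ℕ → ℤ | ¬ (p : ℤ) ∣ (n : ℤ) - w p} (Function.update v p s) =
      π p s - if (p : ℤ) ∣ (n : ℤ) - s then π p s else 0 := by
    intro s _
    by_cases h : (p : ℤ) ∣ (n : ℤ) - s
    · rw [ind_of_not_mem (by simp [h]), if_pos h]; ring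
    · rw [ind_of_mem (by simp [h]), if_neg h]; ring
  rw [sum_congr rfl h1, sum_sub_distrib, sum_sgn (fun s => π p s), hs]

theorem EA_surv (hs : ∀ p, π p (-1) + π p 0 + π p 1 = 1) (A : Finset ℕ) (n : ℕ) (v : ℕ → ℤ) :
    EA π A (ind (Av A n)) v = Wt π A n := by
  have h1 : (fun w => ∏ p ∈ A, ind {w : ℕ → ℤ | ¬ (p : ℤ) ∣ (n : ℤ) - w p} w) = ind (Av A n) := by
    funext w
    rw [prod_ind]
    rfl
  have hdep : ∀ p ∈ A, DependsOn (ind {w : ℕ → ℤ | ¬ (p : ℤ) ∣ (n : ℤ) - w p}) ({p} : Set ℕ) := by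
    intro p _
    apply ind_dependsOn
    intro v w h hv
    simp only [Set.mem_ofPred_eq] at hv ⊢
    rw [← h p (Set.mem_singleton p)]
    exact hv
  rw [← h1, EA_prod_indep hs A hdep]
  · unfold Wt
    apply prod_congr rfl
    intro p hp
    rw [EA_restrict hs (hdep p hp) (A' := {p}) (by simpa using hp) (by simp), EA_singleton,
      E1_surv hs]
  · intro p _ q _ hpq r _ hr1 hr2
    rw [Set.mem_singleton_iff] at hr1 hr2
    exact hpq (hr1 ▸ hr2)

theorem gw_le_one (hπ : ∀ p s, 0 ≤ π p s) (p n : ℕ) : gw π p n ≤ 1 := by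
  unfold gw
  have : 0 ≤ ∑ s ∈ sgn, (if (p : ℤ) ∣ (n : ℤ) - s then π p s else 0) := by
    apply sum_nonneg
    intro s _
    split_ifs
    · exact hπ p s
    · exact le_rfl
  linarith

theorem gw_nonneg (hπ : ∀ p s, 0 ≤ π p s) (hs : ∀ p, π p (-1) + π p 0 + π p 1 = 1) (p n : ℕ) :
    0 ≤ gw π p n := by
  unfold gw
  have : ∑ s ∈ sgn, (if (p : ℤ) ∣ (n : ℤ) - s then π p s else 0) ≤ ∑ s ∈ sgn, π p s := by
    apply sum_le_sum
    intro s _
    split_ifs
    · exact le_rfl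
    · exact hπ p s
  rw [sum_sgn (fun s => π p s), hs] at this
  linarith

theorem Wt_nonneg (hπ : ∀ p s, 0 ≤ π p s) (hs : ∀ p, π p (-1) + π p 0 + π p 1 = 1)
    (A : Finset ℕ) (n : ℕ) : 0 ≤ Wt π A n :=
  prod_nonneg fun p _ => gw_nonneg hπ hs p n

theorem Wt_le_one (hπ : ∀ p s, 0 ≤ π p s) (hs : ∀ p, π p (-1) + π p 0 + π p 1 = 1)
    (A : Finset ℕ) (n : ℕ) : Wt π A n ≤ 1 :=
  prod_le_one (fun p _ => gw_nonneg hπ hs p n) fun p _ => gw_le_one hπ p n

/-- `gw` for `p ≥ 3` -/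
theorem gw_eq {p : ℕ} (hp : 3 ≤ p) (n : ℕ) (hn : 0 < n) :
    gw π p n = if p ∣ n then 1 - π p 0 else if p ∣ n - 1 then 1 - π p 1 else
      if p ∣ n + 1 then 1 - π p (-1) else 1 := by
  have c0 : ((p : ℤ) ∣ (n : ℤ) - 0) ↔ p ∣ n := by
    rw [sub_zero]; exact Int.natCast_dvd_natCast
  have c1 : ((p : ℤ) ∣ (n : ℤ) - 1) ↔ p ∣ n - 1 := by
    rw [← Int.natCast_dvd_natCast, Nat.cast_sub hn]; simp
  have c2 : ((p : ℤ) ∣ (n : ℤ) - (-1)) ↔ p ∣ n + 1 := by
    rw [← Int.natCast_dvd_natCast]; push_cast; rw [sub_neg_eq_add]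
  have e1 : p ∣ n → ¬ p ∣ n - 1 := by
    intro h1 h2
    have := Nat.dvd_sub h1 h2
    have h3 : n - (n - 1) = 1 := by omega
    rw [h3, Nat.dvd_one] at this
    omega
  have e2 : p ∣ n → ¬ p ∣ n + 1 := by
    intro h1 h2
    have := (Nat.dvd_add_right h1).1 h2
    rw [Nat.dvd_one] at this
    omega
  have e3 : p ∣ n - 1 → ¬ p ∣ n + 1 := by
    intro h1 h2
    have h4 : n + 1 = (n - 1) + 2 := by omega
    rw [h4] at h2
    have := (Nat.dvd_add_right h1).1 h2
    have := Nat.le_of_dvd (by norm_num) this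
    omega
  unfold gw
  rw [sum_sgn (fun s => if (p : ℤ) ∣ (n : ℤ) - s then π p s else 0)]
  simp only [c0, c1, c2]
  by_cases h0 : p ∣ n
  · rw [if_neg (e2 h0), if_pos h0, if_neg (e1 h0), if_pos h0]; ring
  · by_cases h1 : p ∣ n - 1
    · rw [if_neg (e3 h1), if_neg h0, if_pos h1, if_neg h0, if_pos h1]; ring
    · by_cases h2 : p ∣ n + 1
      · rw [if_pos h2, if_neg h0, if_neg h1, if_neg h0, if_neg h1, if_pos h2]; ring
      · rw [if_neg h2, if_neg h0, if_neg h1, if_neg h0, if_neg h1, if_neg h2]; ring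

end Pool.Agent.Work.MP_b0c12c_nt_shift
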