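import Pool.Agent.Work.MP_b0c12c_nt_shift.Interface
import Pool.Agent.Work.MP_b0c12c_nt_shift.Op

/-!
# Block CL: clusters
-/

set_option autoImplicit false

namespace Pool.Agent.Work.MP_b0c12c_nt_shift

namespace CL

open Finset

variable {π : ℕ → ℤ → ℝ}

/-- the event that some prime of `T` has its shift in `h p` -/
def Hit (T : Finset ℕ) (h : ℕ → Finset ℤ) : Set (ℕ → ℤ) := {w | ∃ p ∈ T, w p ∈ h p}

theorem Hit_dependsOn (T : Finset ℕ) (h : ℕ → Finset ℤ) :
    DependsOn (ind (Hit T h)) (T : Set ℕ) := by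
  apply ind_dependsOn
  rintro v w hvw ⟨p, hp, hv⟩
  exact ⟨p, hp, by rw [← hvw p hp]; exact hv⟩

theorem E1_hit (hs : ∀ p, π p (-1) + π p 0 + π p 1 = 1) (p : ℕ) (C : Finset ℤ) (hC : C ⊆ sgn)
    (v : ℕ → ℤ) : E1 π p (ind {w | w p ∉ C}) v = 1 - ∑ s ∈ C, π p s := by
  classical
  unfold E1
  have h1 : ∀ s ∈ sgn, π p s * ind {w : ℕ → ℤ | w p ∉ C} (Function.update v p s) =
      π p s - if s ∈ C then π p s else 0 := by
    intro s _
    by_cases h : s ∈ C
    · rw [ind_of_not_mem (by simp [h]), if_pos h]; ring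
    · rw [ind_of_mem (by simp [h]), if_neg h]; ring
  rw [sum_congr rfl h1, sum_sub_distrib, sum_sgn (fun s => π p s), hs, ← sum_filter,
    filter_mem_eq_inter, inter_eq_right.2 hC]

theorem EA_hit (hs : ∀ p, π p (-1) + π p 0 + π p 1 = 1) {A T : Finset ℕ} (hT : T ⊆ A)
    (h : ℕ → Finset ℤ) (hh : ∀ p, h p ⊆ sgn) (v : ℕ → ℤ) :
    EA π A (ind (Hit T h)) v = 1 - ∏ p ∈ T, (1 - ∑ s ∈ h p, π p s) := by
  rw [EA_restrict hs (Hit_dependsOn T h) hT (fun p _ hp => hp)]
  have h1 : ind (Hit T h) = (fun _ => (1 : ℝ)) - fun w => ∏ p ∈ T, ind {w : ℕ → ℤ | w p ∉ h p} w := by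
    funext w
    rw [Pi.sub_apply, prod_ind]
    have h2 : ({w | ∀ j ∈ T, w ∈ {w : ℕ → ℤ | w j ∉ h j}} : Set (ℕ → ℤ)) = (Hit T h)ᶜ := by
      ext w
      simp [Hit]
    rw [h2, ind_compl]
    ring
  have hdep : ∀ p ∈ T, DependsOn (ind {w : ℕ → ℤ | w p ∉ h p}) ({p} : Set ℕ) := by
    intro p _
    apply ind_dependsOn
    intro v w hvw hv
    simp only [Set.mem_ofPred_eq] at hv ⊢
    rw [← hvw p (Set.mem_singleton p)]
    exact hv
  rw [h1, EA_sub, EA_const hs, Pi.sub_apply, EA_prod_indep hs T hdep]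
  · congr 1
    apply prod_congr rfl
    intro p hp
    rw [EA_restrict hs (hdep p hp) (A' := {p}) (by simpa using hp) (by simp), EA_singleton,
      E1_hit hs p _ (hh p)]
  · intro p _ q _ hpq r _ hr1 hr2
    rw [Set.mem_singleton_iff] at hr1 hr2
    exact hpq (hr1 ▸ hr2)

/-- two independent hits -/
theorem EA_hit2 (hs : ∀ p, π p (-1) + π p 0 + π p 1 = 1) {A T T' : Finset ℕ}
    (hT : T ⊆ A) (hT' : T' ⊆ A) (hd : ∀ p ∈ T, p ∉ T')
    (h h' : ℕ → Finset ℤ) (hh : ∀ p, h p ⊆ sgn) (hh' : ∀ p, h' p ⊆ sgn) (v : ℕ → ℤ) :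
    EA π A (ind (Hit T h ∩ Hit T' h')) v =
      (1 - ∏ p ∈ T, (1 - ∑ s ∈ h p, π p s)) * (1 - ∏ p ∈ T', (1 - ∑ s ∈ h' p, π p s)) := by
  rw [← ind_mul, EA_mul_indep hs (Hit_dependsOn T h) (Hit_dependsOn T' h')
    (fun p _ h1 h2 => hd p h1 h2)]
  simp only
  rw [EA_hit hs hT h hh, EA_hit hs hT' h' hh']

/-- the primes of `A` which may hit `n` -/
def Tn (A : Finset ℕ) (n : ℕ) : Finset ℕ := A.filter fun p => ∃ s ∈ sgn, (p : ℤ) ∣ (n : ℤ) - s

/-- the shifts which hit `n` -/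
def hn (n p : ℕ) : Finset ℤ := sgn.filter fun s => (p : ℤ) ∣ (n : ℤ) - s

theorem hn_sub (n p : ℕ) : hn n p ⊆ sgn := filter_subset _ _

theorem gw_hn (p n : ℕ) : 1 - ∑ s ∈ hn n p, π p s = gw π p n := by
  unfold gw hn
  rw [sum_filter]

theorem prod_Tn (A : Finset ℕ) (n : ℕ) :
    ∏ p ∈ Tn A n, (1 - ∑ s ∈ hn n p, π p s) = Wt π A n := by
  unfold Wt Tn
  rw [prod_filter]
  apply prod_congr rfl
  intro p _
  by_cases h : ∃ s ∈ sgn, (p : ℤ) ∣ (n : ℤ) - s
  · rw [if_pos h, gw_hn]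
  · rw [if_neg h, ← gw_hn]
    have : hn n p = ∅ := by
      unfold hn
      rw [filter_eq_empty_iff]
      intro s hs hd
      exact h ⟨s, hs, hd⟩
    rw [this, sum_empty, sub_zero]

/-- the event that `n` is hit by some prime of `A` -/
def Kill (A : Finset ℕ) (n : ℕ) : Set (ℕ → ℤ) := Hit (Tn A n) (hn n)

theorem mem_Kill {A : Finset ℕ} {n : ℕ} {w : ℕ → ℤ} :
    w ∈ Kill A n ↔ ∃ p ∈ A, w p ∈ sgn ∧ (p : ℤ) ∣ (n : ℤ) - w p := by
  unfold Kill Hit Tn hn
  simp only [Set.mem_ofPred_eq, mem_filter]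
  constructor
  · rintro ⟨p, ⟨hp, _⟩, h1, h2⟩
    exact ⟨p, hp, h1, h2⟩
  · rintro ⟨p, hp, h1, h2⟩
    exact ⟨p, ⟨hp, w p, h1, h2⟩, h1, h2⟩

theorem EA_Kill (hs : ∀ p, π p (-1) + π p 0 + π p 1 = 1) (A : Finset ℕ) (n : ℕ) (v : ℕ → ℤ) :
    EA π A (ind (Kill A n)) v = 1 - Wt π A n := by
  unfold Kill
  rw [EA_hit hs (T := Tn A n) (filter_subset _ _) _ (hn_sub n), prod_Tn]

theorem dvd_nat_sub {p n : ℕ} (hn : 0 < n) : (p : ℤ) ∣ (n : ℤ) - 1 ↔ p ∣ n - 1 := by
  rw [← Int.natCast_dvd_natCast, Nat.cast_sub hn]; simp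

theorem dvd_nat_add {p n : ℕ} : (p : ℤ) ∣ (n : ℤ) - (-1) ↔ p ∣ n + 1 := by
  rw [← Int.natCast_dvd_natCast]; push_cast; rw [sub_neg_eq_add]

theorem dvd_nat_zero {p n : ℕ} : (p : ℤ) ∣ (n : ℤ) - 0 ↔ p ∣ n := by
  rw [← Int.natCast_dvd_natCast]; simp

theorem Wt_le_exp (hπ : ∀ p s, 0 ≤ π p s) (hs : ∀ p, π p (-1) + π p 0 + π p 1 = 1)
    (A : Finset ℕ) {n : ℕ} (hn : 0 < n) :
    Wt π A n ≤ Real.exp (-(∑ p ∈ A.filter (fun p => p ∣ n - 1), π p 1 +
      ∑ p ∈ A.filter (fun p => p ∣ n + 1), π p (-1))) := by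
  have h1 : Wt π A n ≤ ∏ p ∈ A, Real.exp (-(1 - gw π p n)) := by
    unfold Wt
    apply prod_le_prod
    · intro p _; exact gw_nonneg hπ hs p n
    · intro p _
      have := Real.add_one_le_exp (-(1 - gw π p n))
      linarith
  refine h1.trans ?_
  rw [← Real.exp_sum, Real.exp_le_exp, sum_neg_distrib, neg_le_neg_iff, sum_filter, sum_filter,
    ← sum_add_distrib]
  apply sum_le_sum
  intro p _
  unfold gw
  rw [sum_sgn (fun s => if (p : ℤ) ∣ (n : ℤ) - s then π p s else 0)]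
  simp only [dvd_nat_sub hn, dvd_nat_add]
  have h0 : 0 ≤ (if (p : ℤ) ∣ (n : ℤ) - 0 then π p 0 else 0) := by
    split_ifs
    · exact hπ p 0
    · exact le_rfl
  linarith

theorem Wt_le_gw (hπ : ∀ p s, 0 ≤ π p s) (hs : ∀ p, π p (-1) + π p 0 + π p 1 = 1)
    {A : Finset ℕ} {p : ℕ} (hp : p ∈ A) (n : ℕ) : Wt π A n ≤ gw π p n := by
  unfold Wt
  rw [← mul_prod_erase A _ hp]
  have h1 : ∏ x ∈ A.erase p, gw π x n ≤ 1 :=
    prod_le_one (fun q _ => gw_nonneg hπ hs q n) fun q _ => gw_le_one hπ q n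
  calc gw π p n * ∏ x ∈ A.erase p, gw π x n ≤ gw π p n * 1 :=
        mul_le_mul_of_nonneg_left h1 (gw_nonneg hπ hs p n)
    _ = gw π p n := mul_one _

theorem prod_le_exp (hπ : ∀ p s, 0 ≤ π p s) (hs : ∀ p, π p (-1) + π p 0 + π p 1 = 1)
    (T : Finset ℕ) {s : ℤ} (hs1 : s ∈ sgn) :
    ∏ p ∈ T, (1 - ∑ a ∈ ({s} : Finset ℤ), π p a) ≤ Real.exp (-∑ p ∈ T, π p s) := by
  rw [← sum_neg_distrib, Real.exp_sum]
  apply prod_le_prod
  · intro p _
    rw [sum_singleton]
    have h1 := hs p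
    have h2 := hπ p (-1)
    have h3 := hπ p 0
    have h4 := hπ p 1
    have h5 : s = -1 ∨ s = 0 ∨ s = 1 := by simpa [sgn] using hs1
    rcases h5 with rfl | rfl | rfl <;> linarith
  · intro p _
    rw [sum_singleton]
    have := Real.add_one_le_exp (-π p s)
    linarith

/-- the calculus part -/
theorem exp_bound {c a b P : ℝ} (hc : 0 < c) (hc1 : c ≤ 1) (ha : 0 ≤ a) (hb : 0 ≤ b)
    (h1 : 1 - a - b ≤ P) (h2 : c ≤ P) :
    Real.exp (-((a + (4 + 8 * Real.log (1 / c)) * a ^ 2) +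
      (b + (4 + 8 * Real.log (1 / c)) * b ^ 2))) ≤ P := by
  have hl : 0 ≤ Real.log (1 / c) := Real.log_nonneg (by rw [le_div_iff₀ hc]; linarith)
  have hq : (a + b) ^ 2 ≤ 2 * (a ^ 2 + b ^ 2) := by nlinarith [sq_nonneg (a - b)]
  by_cases h : a + b ≤ 1 / 2
  · refine le_trans ?_ h1
    have hs0 : 0 ≤ a + b := by positivity
    have h4 : 0 < 1 - a - b := by linarith
    rw [← Real.log_le_log_iff (Real.exp_pos _) h4, Real.log_exp]
    have h7 := Real.one_sub_inv_le_log_of_pos h4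
    have h8 : (1 - a - b)⁻¹ ≤ 1 + (a + b) + 2 * (a + b) ^ 2 := by
      rw [inv_le_iff_one_le_mul₀ h4]
      nlinarith [mul_nonneg hs0 hs0, mul_nonneg (mul_nonneg hs0 hs0)
        (by linarith : (0:ℝ) ≤ 1 / 2 - (a + b))]
    nlinarith [mul_nonneg hl (sq_nonneg a), mul_nonneg hl (sq_nonneg b)]
  · refine le_trans ?_ h2
    push Not at h
    have h3 : 1 / 8 ≤ a ^ 2 + b ^ 2 := by nlinarith
    rw [← Real.log_le_log_iff (Real.exp_pos _) hc, Real.log_exp]
    have h4 : Real.log (1 / c) = -Real.log c := by rw [one_div, Real.log_inv]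
    nlinarith [mul_nonneg hl (by linarith : (0:ℝ) ≤ a ^ 2 + b ^ 2 - 1 / 8)]

theorem single_lower (hπ : ∀ p s, 0 ≤ π p s) (hs : ∀ p, π p (-1) + π p 0 + π p 1 = 1)
    {A : Finset ℕ} (hA : ∀ p ∈ A, 6 < p ∧ 1 / 2 ≤ π p 0) {n : ℕ} (hn : 0 < n) {η0 : ℝ}
    (h1 : (∃ p ∈ A, p ∣ n) ∨ η0 ≤ ∑ p ∈ A.filter (fun p => p ∣ n - 1), π p 1 +
      ∑ p ∈ A.filter (fun p => p ∣ n + 1), π p (-1)) :
    (1 - Real.exp (-η0)) / 2 ≤ 1 - Wt π A n ∧
      ((∀ p ∈ A, ¬ p ∣ n) → 1 - Real.exp (-η0) ≤ 1 - Wt π A n) := by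
  have hW := Wt_le_exp hπ hs A hn
  have he := Real.exp_pos (-η0)
  have key : (∀ p ∈ A, ¬ p ∣ n) → 1 - Real.exp (-η0) ≤ 1 - Wt π A n := by
    intro h
    rcases h1 with ⟨p, hp, hpn⟩ | h1
    · exact absurd hpn (h p hp)
    · have : Wt π A n ≤ Real.exp (-η0) := hW.trans (Real.exp_le_exp.2 (by linarith))
      linarith
  refine ⟨?_, key⟩
  by_cases h : ∀ p ∈ A, ¬ p ∣ n
  · have h2 := key h
    have h3 := Wt_le_one hπ hs A n
    linarith
  · push Not at h
    obtain ⟨p, hp, hpn⟩ := h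
    have h2 := Wt_le_gw hπ hs hp n
    rw [gw_eq (by have := (hA p hp).1; omega) n hn, if_pos hpn] at h2
    have h3 := (hA p hp).2
    linarith

theorem hit_zero {p : ℕ} : 1 - ∏ q ∈ ({p} : Finset ℕ), (1 - ∑ s ∈ ({0} : Finset ℤ), π q s) =
    π p 0 := by
  rw [prod_singleton, sum_singleton]
  ring

/-- lower bound for a pair -/
theorem pair_lower (hπ : ∀ p s, 0 ≤ π p s) (hs : ∀ p, π p (-1) + π p 0 + π p 1 = 1)
    {A : Finset ℕ} (hA : ∀ p ∈ A, 6 < p ∧ 1 / 2 ≤ π p 0) {n : ℕ} (hn : 0 < n) {η0 : ℝ}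
    (hη : 0 < η0)
    (h1 : (∃ p ∈ A, p ∣ n) ∨ η0 ≤ ∑ p ∈ A.filter (fun p => p ∣ n - 1), π p 1 +
      ∑ p ∈ A.filter (fun p => p ∣ n + 1), π p (-1))
    (h2 : (∃ p ∈ A, p ∣ n + 2) ∨ η0 ≤ ∑ p ∈ A.filter (fun p => p ∣ n + 2 - 1), π p 1 +
      ∑ p ∈ A.filter (fun p => p ∣ n + 2 + 1), π p (-1))
    (h3 : (∀ p ∈ A, ¬ p ∣ n ∧ ¬ p ∣ n + 2) →
      η0 ≤ ∑ p ∈ A.filter (fun p => p ∣ n - 1), π p 1 ∧
      η0 ≤ ∑ p ∈ A.filter (fun p => p ∣ n + 3), π p (-1)) (v : ℕ → ℤ) :
    (1 - Real.exp (-η0)) ^ 2 / 4 ≤ EA π A (ind (Kill A n ∩ Kill A (n + 2))) v := by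
  have hβ0 : 0 < 1 - Real.exp (-η0) := by
    have : Real.exp (-η0) < 1 := by
      rw [← Real.exp_zero]; exact Real.exp_lt_exp.2 (by linarith)
    linarith
  have hβ1 : 1 - Real.exp (-η0) < 1 := by
    have := Real.exp_pos (-η0)
    linarith
  set β := 1 - Real.exp (-η0) with hβ
  have hz : ∀ n : ℕ, ∀ p ∈ A, p ∣ n → Hit {p} (fun _ => {0}) ⊆ Kill A n := by
    rintro n p hp hpn w ⟨q, hq, hw⟩
    rw [mem_singleton] at hq hw
    subst hq
    rw [mem_Kill]
    exact ⟨q, hp, by rw [hw]; decide, by rw [hw]; exact dvd_nat_zero.2 hpn⟩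
  have hsub0 : ∀ p : ℕ, (fun _ : ℕ => ({0} : Finset ℤ)) p ⊆ sgn := fun _ =>
    (by decide : ({0} : Finset ℤ) ⊆ sgn)
  have mono : ∀ S T : Set (ℕ → ℤ), S ⊆ T → EA π A (ind S) v ≤ EA π A (ind T) v := by
    intro S T hST
    exact EA_mono hπ A (fun w => ind_mono fun hw => hST hw) v
  by_cases ca : ∃ p ∈ A, p ∣ n
  · obtain ⟨p, hp, hpn⟩ := ca
    have hp6 := (hA p hp).1
    have hp0 := (hA p hp).2
    by_cases cb : ∃ p ∈ A, p ∣ n + 2
    · obtain ⟨q, hq, hqn⟩ := cb
      have hq0 := (hA q hq).2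
      have hpq : p ≠ q := by
        rintro rfl
        have := (Nat.dvd_add_right hpn).1 hqn
        have := Nat.le_of_dvd (by norm_num) this
        omega
      refine le_trans ?_ (mono (Hit {p} (fun _ => {0}) ∩ Hit {q} (fun _ => {0})) _
        (Set.inter_subset_inter (hz n p hp hpn) (hz (n + 2) q hq hqn)))
      rw [EA_hit2 hs (by simpa using hp) (by simpa using hq) (by simpa using hpq) _ _ hsub0 hsub0,
        hit_zero, hit_zero]
      nlinarith
    · push Not at cb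
      have h4 := (single_lower hπ hs hA (n := n + 2) (by omega) h2).1
      refine le_trans ?_ (mono (Hit {p} (fun _ => {0}) ∩ Kill A (n + 2)) _
        (Set.inter_subset_inter_left _ (hz n p hp hpn)))
      unfold Kill
      rw [EA_hit2 hs (T := {p}) (T' := Tn A (n + 2)) (by simpa using hp) (filter_subset _ _) _ _ _
        hsub0 (hn_sub _),
        hit_zero, prod_Tn]
      · nlinarith
      · intro r hr hr2
        rw [mem_singleton] at hr
        subst hr
        unfold Tn at hr2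
        rw [mem_filter] at hr2
        obtain ⟨_, s, hs1, hs2⟩ := hr2
        have h5 : (r : ℤ) ∣ (n : ℤ) := by exact_mod_cast hpn
        have h6 : (r : ℤ) ∣ 2 - s := by
          have := dvd_sub hs2 h5
          push_cast at this
          have e : (n : ℤ) + 2 - s - n = 2 - s := by ring
          rwa [e] at this
        have h7 : s = -1 ∨ s = 0 ∨ s = 1 := by simpa [sgn] using hs1
        have h8 := Int.le_of_dvd (by rcases h7 with rfl | rfl | rfl <;> norm_num) h6
        omega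
  · push Not at ca
    have h5 := (single_lower hπ hs hA hn h1).1
    by_cases cb : ∃ p ∈ A, p ∣ n + 2
    · obtain ⟨q, hq, hqn⟩ := cb
      have hq0 := (hA q hq).2
      have hq6 := (hA q hq).1
      refine le_trans ?_ (mono (Kill A n ∩ Hit {q} (fun _ => {0})) _
        (Set.inter_subset_inter_right _ (hz (n + 2) q hq hqn)))
      unfold Kill
      rw [EA_hit2 hs (T := Tn A n) (T' := {q}) (filter_subset _ _) (by simpa using hq) _ _ _
        (hn_sub _) hsub0,
        hit_zero, prod_Tn]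
      · nlinarith
      · intro r hr2 hr
        rw [mem_singleton] at hr
        subst hr
        unfold Tn at hr2
        rw [mem_filter] at hr2
        obtain ⟨_, s, hs1, hs2⟩ := hr2
        have h5 : (r : ℤ) ∣ (n : ℤ) + 2 := by exact_mod_cast hqn
        have h6 : (r : ℤ) ∣ 2 + s := by
          have := dvd_sub h5 hs2
          have e : (n : ℤ) + 2 - (n - s) = 2 + s := by ring
          rwa [e] at this
        have h7 : s = -1 ∨ s = 0 ∨ s = 1 := by simpa [sgn] using hs1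
        have h8 := Int.le_of_dvd (by rcases h7 with rfl | rfl | rfl <;> norm_num) h6
        omega
    · push Not at cb
      obtain ⟨h6, h7⟩ := h3 fun p hp => ⟨ca p hp, cb p hp⟩
      have hsub1 : ∀ p : ℕ, (fun _ : ℕ => ({1} : Finset ℤ)) p ⊆ sgn := fun _ =>
        (by decide : ({1} : Finset ℤ) ⊆ sgn)
      have hsub2 : ∀ p : ℕ, (fun _ : ℕ => ({-1} : Finset ℤ)) p ⊆ sgn := fun _ =>
        (by decide : ({-1} : Finset ℤ) ⊆ sgn)
      have i1 : Hit (A.filter (fun p => p ∣ n - 1)) (fun _ => {1}) ⊆ Kill A n := by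
        rintro w ⟨q, hq, hw⟩
        rw [mem_singleton] at hw
        rw [mem_filter] at hq
        rw [mem_Kill]
        exact ⟨q, hq.1, by rw [hw]; decide, by rw [hw]; exact (dvd_nat_sub hn).2 hq.2⟩
      have i2 : Hit (A.filter (fun p => p ∣ n + 3)) (fun _ => {-1}) ⊆ Kill A (n + 2) := by
        rintro w ⟨q, hq, hw⟩
        rw [mem_singleton] at hw
        rw [mem_filter] at hq
        rw [mem_Kill]
        exact ⟨q, hq.1, by rw [hw]; decide, by rw [hw]; exact dvd_nat_add.2 hq.2⟩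
      refine le_trans ?_ (mono _ _ (Set.inter_subset_inter i1 i2))
      rw [EA_hit2 hs (filter_subset _ _) (filter_subset _ _) _ _ _ hsub1 hsub2]
      · have j1 := prod_le_exp hπ hs (A.filter (fun p => p ∣ n - 1)) (s := 1) (by decide)
        have j2 := prod_le_exp hπ hs (A.filter (fun p => p ∣ n + 3)) (s := -1) (by decide)
        have k1 : Real.exp (-∑ p ∈ A.filter (fun p => p ∣ n - 1), π p 1) ≤ Real.exp (-η0) :=
          Real.exp_le_exp.2 (by linarith)
        have k2 : Real.exp (-∑ p ∈ A.filter (fun p => p ∣ n + 3), π p (-1)) ≤ Real.exp (-η0) :=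
          Real.exp_le_exp.2 (by linarith)
        have l1 : β ≤ 1 - ∏ p ∈ A.filter (fun p => p ∣ n - 1),
            (1 - ∑ s ∈ ({1} : Finset ℤ), π p s) := by linarith
        have l2 : β ≤ 1 - ∏ p ∈ A.filter (fun p => p ∣ n + 3),
            (1 - ∑ s ∈ ({-1} : Finset ℤ), π p s) := by linarith
        calc β ^ 2 / 4 ≤ β * β := by nlinarith
          _ ≤ _ := mul_le_mul l1 l2 hβ0.le (hβ0.le.trans l1)
      · intro p hp1 hp2
        rw [mem_filter] at hp1 hp2
        have := (hA p hp1.1).1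
        have h8 : p ∣ 4 := by
          have := Nat.dvd_sub hp2.2 hp1.2
          have e : n + 3 - (n - 1) = 4 := by omega
          rwa [e] at this
        have := Nat.le_of_dvd (by norm_num) h8
        omega

end CL

open Finset CL in
theorem stmt_CL : Stmt_CL := by
  classical
  intro η0 hη
  have hβ0 : 0 < 1 - Real.exp (-η0) := by
    have : Real.exp (-η0) < 1 := by
      rw [← Real.exp_zero]; exact Real.exp_lt_exp.2 (by linarith)
    linarith
  have hβ1 : 1 - Real.exp (-η0) < 1 := by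
    have := Real.exp_pos (-η0)
    linarith
  set c : ℝ := (1 - Real.exp (-η0)) ^ 2 / 4 with hc
  have hc0 : 0 < c := by positivity
  have hc1 : c ≤ 1 := by nlinarith
  have hcs : c ≤ (1 - Real.exp (-η0)) / 2 := by nlinarith
  have hl : 0 ≤ Real.log (1 / c) := Real.log_nonneg (by rw [le_div_iff₀ hc0]; linarith)
  refine ⟨4 + 8 * Real.log (1 / c), by positivity, ?_⟩
  intro π hπ hs A x U N v hx hN hv hA h2 h3 hh1 hh2
  set K' := 4 + 8 * Real.log (1 / c) with hK'
  have hA' : ∀ p ∈ A, 6 < p ∧ 1 / 2 ≤ π p 0 := fun p hp => ⟨by have := (hA p hp).2.1; omega,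
    (hA p hp).2.2.2⟩
  have h2A : 2 ∉ A := fun h => by have := (hA' 2 h).1; omega
  have h3A : 3 ∉ A := fun h => by have := (hA' 3 h).1; omega
  -- position of the survivors
  have hpos : ∀ n ∈ Sur v A x U N, N + 1 < n ∧ n ≤ N + U ∧ (n - N) % 2 ≠ 0 ∧ (n - N) % 3 ≠ 0 := by
    intro n hn
    unfold Sur at hn
    rw [mem_filter, mem_Ioc] at hn
    obtain ⟨⟨ha, hb⟩, hS⟩ := hn
    refine ⟨ha, hb, ?_, ?_⟩
    · intro h
      apply hS 2 Nat.prime_two (by omega) h2A
      push_cast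
      omega
    · intro h
      apply hS 3 Nat.prime_three (by omega) h3A
      push_cast
      omega
  set F : ℕ → ℝ := fun n => Wt π A n + K' * Wt π A n ^ 2 with hF
  set cl : ℕ → Finset ℕ := fun k => (Sur v A x U N).filter fun n => (n + 1 - N) / 6 = k with hcl
  set J := range (U + 2) with hJ
  set S : ℕ → Set (ℕ → ℤ) := fun k => {w | ∀ n ∈ cl k, w ∈ Kill A n} with hS
  -- the event
  have step1 : EA π A (fun w => ∏ k ∈ J, ind (S k) w) v ≤ EA π A (ind (Emp x U N)) v := by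
    apply EA_mono_on hπ
    intro w hw1 hw2
    rw [prod_ind]
    apply ind_mono
    intro hw n hn
    by_cases hsn : SurvF v A x n
    · have hnS : n ∈ Sur v A x U N := by
        unfold Sur
        rw [mem_filter]
        exact ⟨hn, hsn⟩
      have hk : (n + 1 - N) / 6 ∈ J := by
        rw [hJ, mem_range]
        rw [mem_Ioc] at hn
        omega
      have := hw _ hk n (by rw [hcl]; simp only [mem_filter]; exact ⟨hnS, trivial⟩)
      rw [mem_Kill] at this
      obtain ⟨p, hp, _, hd⟩ := this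
      exact ⟨p, (hA p hp).1, (hA p hp).2.2.1, hd⟩
    · unfold SurvF at hsn
      push Not at hsn
      obtain ⟨p, hp, hpx, hpA, hd⟩ := hsn
      exact ⟨p, hp, hpx, by rw [hw1 p hpA]; exact hd⟩
  refine le_trans ?_ step1
  have hdep : ∀ k ∈ J, DependsOn (ind (S k)) {p | ∃ n ∈ cl k, p ∈ Tn A n} := by
    intro k _
    apply ind_dependsOn
    intro w w' hww hw n hn
    obtain ⟨p, hp, h⟩ := hw n hn
    exact ⟨p, hp, by rw [← hww p ⟨n, hn, hp⟩]; exact h⟩
  rw [EA_prod_indep hs J hdep]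
  swap
  · intro i _ j _ hij p hp
    rintro ⟨n, hn, hpn⟩ ⟨n', hn', hpn'⟩
    rw [hcl] at hn hn'
    simp only [mem_filter] at hn hn'
    unfold Tn at hpn hpn'
    rw [mem_filter] at hpn hpn'
    obtain ⟨_, s, hs1, hs2⟩ := hpn
    obtain ⟨_, s', hs1', hs2'⟩ := hpn'
    obtain ⟨a1, a2, a3, a4⟩ := hpos n hn.1
    obtain ⟨b1, b2, b3, b4⟩ := hpos n' hn'.1
    have e1 := hn.2
    have e2 := hn'.2
    have g1 : s = -1 ∨ s = 0 ∨ s = 1 := by simpa [sgn] using hs1
    have g2 : s' = -1 ∨ s' = 0 ∨ s' = 1 := by simpa [sgn] using hs1'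
    have g3 := dvd_sub hs2 hs2'
    have g4 := (hA p hp).2.1
    have g5 : (n : ℤ) - s - ((n' : ℤ) - s') = 0 := by
      apply Int.eq_zero_of_abs_lt_dvd g3
      rw [abs_lt]
      omega
    have g6 : (n - N) % 6 = 1 ∨ (n - N) % 6 = 5 := by omega
    have g7 : (n' - N) % 6 = 1 ∨ (n' - N) % 6 = 5 := by omega
    omega
  simp only
  -- split the sum
  have hmaps : ∀ n ∈ Sur v A x U N, (n + 1 - N) / 6 ∈ J := by
    intro n hn
    obtain ⟨a1, a2, _, _⟩ := hpos n hn
    rw [hJ, mem_range]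
    omega
  have hsplit : ∑ n ∈ Sur v A x U N, F n = ∑ k ∈ J, ∑ n ∈ cl k, F n :=
    (sum_fiberwise_of_maps_to hmaps F).symm
  rw [hsplit, ← sum_neg_distrib, Real.exp_sum]
  apply prod_le_prod
  · intro k _; exact (Real.exp_pos _).le
  intro k _
  -- one cluster
  have hz : ∀ n ∈ Sur v A x U N, 0 < n := fun n hn => by have := (hpos n hn).1; omega
  have hsub : ∀ n ∈ cl k, n = N + 6 * k - 1 ∨ n = N + 6 * k - 1 + 2 := by
    intro n hn
    rw [hcl] at hn
    simp only [mem_filter] at hn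
    obtain ⟨a1, a2, a3, a4⟩ := hpos n hn.1
    have := hn.2
    omega
  have hmem : ∀ n ∈ cl k, n ∈ Sur v A x U N := by
    intro n hn
    rw [hcl] at hn
    simp only [mem_filter] at hn
    exact hn.1
  have hone : ∀ n ∈ cl k, cl k = {n} → Real.exp (-∑ n ∈ cl k, F n) ≤ EA π A (ind (S k)) v := by
    intro n hn hk
    have e1 : S k = Kill A n := by
      rw [hS]
      simp only [hk, mem_singleton, forall_eq]
      rfl
    rw [hk, sum_singleton, e1, EA_Kill hs]
    have l1 := (single_lower hπ hs hA' (hz n (hmem n hn)) (hh1 n (hmem n hn))).1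
    have l2 := exp_bound hc0 hc1 (Wt_nonneg hπ hs A n) le_rfl (P := 1 - Wt π A n) (by linarith)
      (hcs.trans l1)
    refine le_trans (le_of_eq ?_) l2
    congr 1
    rw [hF]
    ring
  by_cases ha : N + 6 * k - 1 ∈ cl k
  · by_cases hb : N + 6 * k - 1 + 2 ∈ cl k
    · set n := N + 6 * k - 1 with hn
      have hk : cl k = {n, n + 2} := by
        apply Subset.antisymm
        · intro m hm
          rw [mem_insert, mem_singleton]
          exact hsub m hm
        · intro m hm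
          rw [mem_insert, mem_singleton] at hm
          rcases hm with rfl | rfl
          · exact ha
          · exact hb
      have e1 : S k = Kill A n ∩ Kill A (n + 2) := by
        rw [hS]
        simp only [hk, mem_insert, mem_singleton, forall_eq_or_imp, forall_eq]
        rfl
      have na := hmem _ ha
      have nb := hmem _ hb
      rw [e1, hk, sum_pair (by omega)]
      have l1 := pair_lower hπ hs hA' (hz n na) hη (hh1 n na) (hh1 _ nb) (hh2 n na nb) v
      have l3 : 1 - Wt π A n - Wt π A (n + 2) ≤ EA π A (ind (Kill A n ∩ Kill A (n + 2))) v := by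
        have m1 := EA_mono (π := π) hπ A (f := (ind (Kill A n) + ind (Kill A (n + 2))) - fun _ => 1)
          (g := ind (Kill A n ∩ Kill A (n + 2))) (by
            intro w
            rw [Pi.sub_apply, Pi.add_apply, ← ind_mul]
            have q1 := ind_le_one (Kill A n) w
            have q2 := ind_le_one (Kill A (n + 2)) w
            simp only
            nlinarith) v
        rw [EA_sub, EA_add, EA_const hs, Pi.sub_apply, Pi.add_apply, EA_Kill hs, EA_Kill hs] at m1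
        linarith
      have l2 := exp_bound hc0 hc1 (Wt_nonneg hπ hs A n) (Wt_nonneg hπ hs A (n + 2)) l3 l1
      exact l2
    · apply hone _ ha
      apply Subset.antisymm
      · intro m hm
        rw [mem_singleton]
        rcases hsub m hm with h | h
        · exact h
        · exact absurd (h ▸ hm) hb
      · intro m hm
        rw [mem_singleton] at hm
        rw [hm]; exact ha
  · by_cases hb : N + 6 * k - 1 + 2 ∈ cl k
    · apply hone _ hb
      apply Subset.antisymm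
      · intro m hm
        rw [mem_singleton]
        rcases hsub m hm with h | h
        · exact absurd (h ▸ hm) ha
        · exact h
      · intro m hm
        rw [mem_singleton] at hm
        rw [hm]; exact hb
    · have hk : cl k = ∅ := by
        rw [eq_empty_iff_forall_notMem]
        intro m hm
        rcases hsub m hm with h | h
        · exact ha (h ▸ hm)
        · exact hb (h ▸ hm)
      have e1 : S k = Set.univ := by
        rw [hS]
        simp only [hk]
        ext w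
        simp
      rw [hk, sum_empty, neg_zero, Real.exp_zero, e1, ind_univ, EA_const hs]

end Pool.Agent.Work.MP_b0c12c_nt_shift
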