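import Mathlib

/-!
# A random set of primes of relative density zero
-/

set_option autoImplicit false

namespace Pool.Agent.Work.MP_b0c12c_nt_shift

open Filter MeasureTheory ProbabilityTheory Topology

/-- Averages of independent variables in `[0,1]` with mean tending to `0` tend to `0` almost
surely. -/
theorem cesaro_ae {Ω : Type*} [MeasurableSpace Ω] {μ : Measure Ω} [IsProbabilityMeasure μ]
    {Y : ℕ → Ω → ℝ} (hmeas : ∀ i, Measurable (Y i)) (hind : iIndepFun Y μ)
    (h0 : ∀ i ω, 0 ≤ Y i ω) (h1 : ∀ i ω, Y i ω ≤ 1)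
    (hE : Tendsto (fun i => ∫ ω, Y i ω ∂μ) atTop (𝓝 0)) :
    ∀ᵐ ω ∂μ, Tendsto (fun n : ℕ => (∑ i ∈ Finset.range n, Y i ω) / (n : ℝ)) atTop (𝓝 0) := by
  classical
  have hL2 : ∀ i, MemLp (Y i) 2 μ := fun i =>
    MemLp.of_bound (hmeas i).aestronglyMeasurable 1
      (Eventually.of_forall fun ω => by
        rw [Real.norm_eq_abs, abs_of_nonneg (h0 i ω)]; exact h1 i ω)
  have hint : ∀ i, Integrable (Y i) μ := fun i => (hL2 i).integrable (by norm_num)
  set S : ℕ → Ω → ℝ := fun n ω => ∑ i ∈ Finset.range n, Y i ω with hS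
  have hSL2 : ∀ n, MemLp (S n) 2 μ := fun n => by
    have := memLp_finset_sum' (Finset.range n) (fun i _ => hL2 i)
    convert this using 1
    ext ω; simp [hS]
  have hSE : ∀ n, ∫ ω, S n ω ∂μ = ∑ i ∈ Finset.range n, ∫ ω, Y i ω ∂μ := fun n =>
    integral_finset_sum _ (fun i _ => hint i)
  -- variance bound
  have hvar1 : ∀ i, variance (Y i) μ ≤ 1 := by
    intro i
    have h2 : variance (Y i) μ ≤ ∫ ω, (Y i ω) ^ 2 ∂μ :=
      variance_le_expectation_sq (hmeas i).aestronglyMeasurable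
    refine h2.trans ?_
    have h3 : ∫ ω, (Y i ω) ^ 2 ∂μ ≤ ∫ ω, (1 : ℝ) ∂μ := by
      apply integral_mono_of_nonneg
      · exact Eventually.of_forall fun ω => by positivity
      · exact integrable_const _
      · exact Eventually.of_forall fun ω => by
          have a := h0 i ω
          have b := h1 i ω
          show (Y i ω) ^ 2 ≤ 1
          nlinarith
    simpa using h3
  have hvar : ∀ n, variance (S n) μ ≤ n := by
    intro n
    have h2 : variance (∑ i ∈ Finset.range n, Y i) μ = ∑ i ∈ Finset.range n, variance (Y i) μ :=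
      IndepFun.variance_sum (fun i _ => hL2 i) (fun i _ j _ hij => hind.indepFun hij)
    have h3 : (∑ i ∈ Finset.range n, Y i) = S n := by
      ext ω; simp [hS]
    rw [h3] at h2
    rw [h2]
    calc ∑ i ∈ Finset.range n, variance (Y i) μ ≤ ∑ i ∈ Finset.range n, (1 : ℝ) :=
          Finset.sum_le_sum fun i _ => hvar1 i
      _ = n := by simp
  -- Chebyshev along squares
  have hcheb : ∀ ε : ℝ, 0 < ε → ∀ᵐ ω ∂μ, ∀ᶠ k : ℕ in atTop,
      |S (k ^ 2) ω - ∫ ω, S (k ^ 2) ω ∂μ| < ε * (k : ℝ) ^ 2 := by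
    intro ε hε
    have hb : ∀ k : ℕ, 1 ≤ k → μ {ω | ε * (k : ℝ) ^ 2 ≤ |S (k ^ 2) ω - ∫ ω, S (k ^ 2) ω ∂μ|} ≤
        ENNReal.ofReal (1 / ε ^ 2 * (1 / (k : ℝ) ^ 2)) := by
      intro k hk
      have hk' : (0 : ℝ) < k := by exact_mod_cast hk
      have h2 := meas_ge_le_variance_div_sq (hSL2 (k ^ 2)) (c := ε * (k : ℝ) ^ 2) (by positivity)
      refine h2.trans (ENNReal.ofReal_le_ofReal ?_)
      have h3 := hvar (k ^ 2)
      rw [div_le_iff₀ (by positivity)]
      refine h3.trans (le_of_eq ?_)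
      push_cast
      field_simp
    have hsum : ∑' k : ℕ, μ {ω | ε * (k : ℝ) ^ 2 ≤ |S (k ^ 2) ω - ∫ ω, S (k ^ 2) ω ∂μ|} ≠ ⊤ := by
      have hs : Summable fun k : ℕ => 1 / ε ^ 2 * (1 / (k : ℝ) ^ 2) :=
        (Real.summable_one_div_nat_pow.2 (by norm_num)).mul_left _
      have hle : ∀ k : ℕ, μ {ω | ε * (k : ℝ) ^ 2 ≤ |S (k ^ 2) ω - ∫ ω, S (k ^ 2) ω ∂μ|} ≤
          ENNReal.ofReal (1 / ε ^ 2 * (1 / (k : ℝ) ^ 2)) + (if k = 0 then 1 else 0) := by
        intro k
        by_cases hk : k = 0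
        · rw [if_pos hk]
          exact prob_le_one.trans le_add_self
        · rw [if_neg hk, add_zero]
          exact hb k (Nat.one_le_iff_ne_zero.2 hk)
      refine ne_top_of_le_ne_top ?_ (ENNReal.tsum_le_tsum hle)
      rw [ENNReal.tsum_add]
      refine ENNReal.add_ne_top.2 ⟨?_, ?_⟩
      · rw [← ENNReal.ofReal_tsum_of_nonneg (fun k => by positivity) hs]
        exact ENNReal.ofReal_ne_top
      · rw [tsum_eq_single 0 (fun b hb => if_neg hb)]
        simp
    have := ae_eventually_notMem hsum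
    filter_upwards [this] with ω hω
    filter_upwards [hω] with k hk
    simpa using hk
  have hall : ∀ᵐ ω ∂μ, ∀ m : ℕ, ∀ᶠ k : ℕ in atTop,
      |S (k ^ 2) ω - ∫ ω, S (k ^ 2) ω ∂μ| < (1 / ((m : ℝ) + 1)) * (k : ℝ) ^ 2 :=
    ae_all_iff.2 fun m => hcheb _ (by positivity)
  have hmean : Tendsto (fun n : ℕ => (n : ℝ)⁻¹ * ∑ i ∈ Finset.range n, ∫ ω, Y i ω ∂μ)
      atTop (𝓝 0) := hE.cesaro
  filter_upwards [hall] with ω hω
  -- along squares
  have hsq : ∀ ε : ℝ, 0 < ε → ∀ᶠ k : ℕ in atTop, S (k ^ 2) ω ≤ ε * (k : ℝ) ^ 2 := by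
    intro ε hε
    obtain ⟨m, hm⟩ := exists_nat_one_div_lt (half_pos hε)
    have e1 : ∀ᶠ n : ℕ in atTop, (n : ℝ)⁻¹ * ∑ i ∈ Finset.range n, ∫ ω, Y i ω ∂μ < ε / 2 :=
      hmean.eventually (gt_mem_nhds (half_pos hε))
    have e2 : Tendsto (fun k : ℕ => k ^ 2) atTop atTop := tendsto_pow_atTop (by norm_num)
    filter_upwards [hω m, e2.eventually e1, eventually_ge_atTop 1] with k hk h2 hk1
    have hk' : (0 : ℝ) < (k : ℝ) ^ 2 := by positivity
    push_cast at h2
    have h3 : ∑ i ∈ Finset.range (k ^ 2), ∫ ω, Y i ω ∂μ ≤ ε / 2 * (k : ℝ) ^ 2 := by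
      rw [inv_mul_lt_iff₀ hk'] at h2
      linarith
    have h4 := (abs_lt.1 hk).2
    rw [hSE] at h4
    have h5 : 1 / ((m : ℝ) + 1) * (k : ℝ) ^ 2 ≤ ε / 2 * (k : ℝ) ^ 2 :=
      mul_le_mul_of_nonneg_right hm.le hk'.le
    linarith
  have hmono : ∀ a b : ℕ, a ≤ b → S a ω ≤ S b ω := by
    intro a b hab
    exact Finset.sum_le_sum_of_subset_of_nonneg (Finset.range_mono hab)
      (fun i _ _ => h0 i ω)
  rw [Metric.tendsto_atTop]
  intro ε hε
  obtain ⟨K, hK⟩ := eventually_atTop.1 (hsq (ε / 8) (by positivity))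
  refine ⟨(K + 1) ^ 2 + 1, fun n hn => ?_⟩
  have hS0 : 0 ≤ S n ω := Finset.sum_nonneg fun i _ => h0 i ω
  have hn0 : (0 : ℝ) < n := by
    have : 0 < n := by omega
    exact_mod_cast this
  rw [Real.dist_eq, sub_zero, abs_of_nonneg (div_nonneg hS0 hn0.le), div_lt_iff₀ hn0]
  set k := Nat.sqrt n with hk
  have hk1 : k ^ 2 ≤ n := by rw [pow_two]; exact Nat.sqrt_le n
  have hk2 : n ≤ (k + 1) ^ 2 := by rw [pow_two]; exact (Nat.lt_succ_sqrt n).le
  have hkK : K ≤ k + 1 := by
    by_contra hcon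
    push Not at hcon
    have : (k + 1) ^ 2 < (K + 1) ^ 2 := Nat.pow_lt_pow_left (by omega) (by norm_num)
    omega
  have hk3 : 1 ≤ k := by
    rw [hk]
    exact Nat.sqrt_pos.2 (by omega)
  have h2 := hK (k + 1) hkK
  have h3 := hmono n _ hk2
  have h4 : ((k + 1 : ℕ) : ℝ) ^ 2 ≤ 4 * n := by
    have h5 : ((k : ℝ)) ^ 2 ≤ n := by exact_mod_cast hk1
    have h6 : (1 : ℝ) ≤ k := by exact_mod_cast hk3
    push_cast
    nlinarith
  calc S n ω ≤ ε / 8 * ((k + 1 : ℕ) : ℝ) ^ 2 := h3.trans h2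
    _ ≤ ε / 8 * (4 * n) := mul_le_mul_of_nonneg_left h4 (by positivity)
    _ < ε * n := by nlinarith

/-- The primes which are moved have relative density zero almost surely. -/
theorem moved_density {Ω : Type*} [MeasurableSpace Ω] {μ : Measure Ω} [IsProbabilityMeasure μ]
    {u : ℕ → Ω → ℤ} (hmeas : ∀ p, Measurable (u p)) (hindep : iIndepFun u μ)
    {c : ℝ} (h : ∀ᶠ p : ℕ in atTop, p.Prime →
      μ.real {ω | u p ω ≠ 0} ≤ c / Real.log (Real.log p)) :
    ∀ᵐ ω ∂μ, Tendsto (fun N : ℕ =>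
      (((Finset.range (N + 1)).filter (fun p => p.Prime ∧ u p ω ≠ 0)).card : ℝ) /
        (Nat.primeCounting N : ℝ)) atTop (𝓝 0) := by
  classical
  set g : ℤ → ℝ := fun z => if z = 0 then 0 else 1 with hg
  have hgm : Measurable g := measurable_from_top
  set P : ℕ → ℕ := fun i => Nat.nth Nat.Prime i with hP
  have hPinj : Function.Injective P := Nat.nth_injective Nat.infinite_setOf_prime
  have hPprime : ∀ i, (P i).Prime := fun i => Nat.prime_nth_prime i
  have hPtend : Tendsto P atTop atTop :=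
    (Nat.nth_strictMono Nat.infinite_setOf_prime).tendsto_atTop
  set Y : ℕ → Ω → ℝ := fun i ω => g (u (P i) ω) with hY
  have hYm : ∀ i, Measurable (Y i) := fun i => hgm.comp (hmeas _)
  have hYind : iIndepFun Y μ := by
    have h1 : iIndepFun (fun i => u (P i)) μ := hindep.precomp hPinj
    exact h1.comp (fun _ => g) (fun _ => hgm)
  have hYE : ∀ i, ∫ ω, Y i ω ∂μ = μ.real {ω | u (P i) ω ≠ 0} := by
    intro i
    have hm : MeasurableSet {ω | u (P i) ω ≠ 0} :=
      (hmeas (P i)) (MeasurableSet.of_discrete (s := {z : ℤ | z ≠ 0}))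
    have : (fun ω => Y i ω) = Set.indicator {ω | u (P i) ω ≠ 0} (fun _ => (1 : ℝ)) := by
      ext ω
      simp only [hY, hg, Set.indicator_apply, Set.mem_ofPred_eq]
      by_cases h2 : u (P i) ω = 0 <;> simp [h2]
    rw [this, integral_indicator hm]
    simp
  have hE : Tendsto (fun i => ∫ ω, Y i ω ∂μ) atTop (𝓝 0) := by
    have h2 : Tendsto (fun p : ℕ => c / Real.log (Real.log (p : ℝ))) atTop (𝓝 0) :=
      Tendsto.div_atTop tendsto_const_nhds
        (Real.tendsto_log_atTop.comp (Real.tendsto_log_atTop.comp tendsto_natCast_atTop_atTop))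
    refine tendsto_of_tendsto_of_tendsto_of_le_of_le' tendsto_const_nhds (h2.comp hPtend)
      (Eventually.of_forall fun i => ?_) ?_
    · simp only [hYE]
      exact measureReal_nonneg
    · filter_upwards [hPtend.eventually h] with i hi
      simp only [hYE]
      exact hi (hPprime i)
  have key := cesaro_ae hYm hYind (fun i ω => by simp only [hY, hg]; split_ifs <;> norm_num)
    (fun i ω => by simp only [hY, hg]; split_ifs <;> norm_num) hE
  filter_upwards [key] with ω hω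
  have hpi : Tendsto (fun N : ℕ => Nat.primeCounting N) atTop atTop :=
    Nat.tendsto_primeCounting
  have h3 := hω.comp hpi
  refine h3.congr fun N => ?_
  simp only [Function.comp_apply]
  congr 1
  -- the number of moved primes is the sum
  have h4 : ((Finset.range (N + 1)).filter (fun p => p.Prime)) =
      (Finset.range (Nat.primeCounting N)).image P := by
    ext p
    simp only [Finset.mem_filter, Finset.mem_range, Finset.mem_image]
    constructor
    · rintro ⟨hp1, hp2⟩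
      refine ⟨Nat.count Nat.Prime p, ?_, Nat.nth_count hp2⟩
      rw [Nat.primeCounting, Nat.primeCounting']
      exact Nat.count_strict_mono hp2 hp1
    · rintro ⟨i, hi, rfl⟩
      refine ⟨?_, hPprime i⟩
      rw [Nat.primeCounting, Nat.primeCounting'] at hi
      exact Nat.nth_lt_of_lt_count hi
  have h5 : ((Finset.range (N + 1)).filter (fun p => p.Prime ∧ u p ω ≠ 0)) =
      (((Finset.range (N + 1)).filter (fun p => p.Prime)).filter (fun p => u p ω ≠ 0)) := by
    rw [Finset.filter_filter]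
  rw [h5, h4, Finset.card_filter, Finset.sum_image (fun a _ b _ hab => hPinj hab)]
  push_cast
  refine Finset.sum_congr rfl fun i _ => ?_
  simp only [hY, hg]
  by_cases h2 : u (P i) ω = 0 <;> simp [h2]

end Pool.Agent.Work.MP_b0c12c_nt_shift
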