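import Mathlib
import Pool.Agent.Work.MP_b0c12c_nt.Exc
import Pool.Agent.Work.MP_b0c12c_nt_helper70.Region2
import Pool.Agent.Work.MP_b0c12c_nt_shift.Interface

/-!
Block EX: at most one exceptional prime.
-/

set_option autoImplicit false

namespace Pool.Agent.Work.MP_b0c12c_nt_shift

open Filter Finset DirichletCharacter
open scoped Topology
open Pool.Agent.Work.MP_b0c12c_nt.Itf2 (ZF ZeroFree)
open Pool.Agent.Work.MP_b0c12c_nt.Exc

namespace EXaux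

/-- numeric facts for large `z` -/
theorem ev (κ : ℝ) (hκ : 0 < κ) (M0 δ : ℝ) (hδ : 0 < δ) : ∀ᶠ z : ℕ in atTop,
    (∀ N : ℕ, 1 ≤ N → (N : ℝ) ≤ Real.exp (3 * z) →
      M0 ≤ Real.log ((N : ℝ) * ((z : ℝ) + 5)) ∧
      (3 * (z : ℝ)) ^ (-(1 + κ)) ≤ (Real.log ((N : ℝ) * ((z : ℝ) + 5))) ^ (-(1 + κ / 2))) ∧
    (3 * (z : ℝ)) ^ (-(1 + κ)) < δ ∧ (3 * (z : ℝ)) ^ (-(1 + κ)) < 1 / 2 := by
  have h3z : Tendsto (fun z : ℕ => 3 * (z : ℝ)) atTop atTop :=
    Tendsto.const_mul_atTop (by norm_num) tendsto_natCast_atTop_atTop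
  have hpow : Tendsto (fun z : ℕ => (3 * (z : ℝ)) ^ (-(1 + κ))) atTop (𝓝 0) :=
    (tendsto_rpow_neg_atTop (by linarith : (0 : ℝ) < 1 + κ)).comp h3z
  have hlog : Tendsto (fun z : ℕ => Real.log ((z : ℝ) + 5)) atTop atTop :=
    Real.tendsto_log_atTop.comp (tendsto_atTop_add_const_right _ _ tendsto_natCast_atTop_atTop)
  have hk : Tendsto (fun z : ℕ => (3 * (z : ℝ)) ^ (κ / 2)) atTop atTop :=
    (tendsto_rpow_atTop (by linarith : (0 : ℝ) < κ / 2)).comp h3z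
  filter_upwards [hlog.eventually_ge_atTop M0, hlog.eventually_ge_atTop 1,
    hpow.eventually_lt_const hδ, hpow.eventually_lt_const (show (0 : ℝ) < 1 / 2 by norm_num),
    hk.eventually_ge_atTop ((4 / 3 : ℝ) ^ (1 + κ / 2)), eventually_ge_atTop 5] with z h1 h1' h2 h3 h4 h5
  have hz5 : (5 : ℝ) ≤ z := by exact_mod_cast h5
  refine ⟨fun N hN1 hN => ?_, h2, h3⟩
  have hN1' : (1 : ℝ) ≤ N := by exact_mod_cast hN1
  have hlow : Real.log ((z : ℝ) + 5) ≤ Real.log ((N : ℝ) * ((z : ℝ) + 5)) := by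
    apply Real.log_le_log (by positivity)
    nlinarith
  refine ⟨h1.trans hlow, ?_⟩
  have hup : Real.log ((N : ℝ) * ((z : ℝ) + 5)) ≤ 4 * z := by
    rw [Real.log_mul (by positivity) (by positivity)]
    have e1 : Real.log (N : ℝ) ≤ 3 * z := by
      rw [Real.log_le_iff_le_exp (by positivity)]
      exact hN
    have e2 : Real.log ((z : ℝ) + 5) ≤ z := by
      rw [Real.log_le_iff_le_exp (by positivity)]
      have := Real.quadratic_le_exp_of_nonneg (x := (z : ℝ)) (by positivity)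
      nlinarith
    linarith
  have hMpos : 0 < Real.log ((N : ℝ) * ((z : ℝ) + 5)) := by linarith
  have hzpos : (0 : ℝ) < 3 * z := by linarith
  rw [Real.rpow_neg hzpos.le, Real.rpow_neg hMpos.le]
  apply inv_anti₀ (Real.rpow_pos_of_pos hMpos _)
  calc (Real.log ((N : ℝ) * ((z : ℝ) + 5))) ^ (1 + κ / 2) ≤ (4 * (z : ℝ)) ^ (1 + κ / 2) := by
        apply Real.rpow_le_rpow hMpos.le hup (by linarith)
    _ = (4 / 3 : ℝ) ^ (1 + κ / 2) * (3 * (z : ℝ)) ^ (1 + κ / 2) := by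
        rw [← Real.mul_rpow (by norm_num) hzpos.le]
        congr 1
        ring
    _ ≤ (3 * (z : ℝ)) ^ (κ / 2) * (3 * (z : ℝ)) ^ (1 + κ / 2) := by
        gcongr
    _ = (3 * (z : ℝ)) ^ (1 + κ) := by
        rw [← Real.rpow_add hzpos]
        congr 1
        ring

end EXaux

/-- Block EX. -/
theorem stmt_EX : Stmt_EX := by
  intro κ hκ K
  obtain ⟨M0, hM0⟩ := Pool.Agent.Work.MP_b0c12c_nt_helper70.zeroFree (κ / 2) (by linarith)
  haveI : NeZero (primorial K) := ⟨primorial_ne_zero K⟩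
  obtain ⟨δ, hδ, hδ'⟩ := no_zero_near_one (primorial K)
  obtain ⟨z0, hz0⟩ := eventually_atTop.1 (EXaux.ev κ hκ M0 δ hδ)
  refine ⟨z0, fun z hz => ?_⟩
  obtain ⟨hN, hwδ, hw2⟩ := hz0 z hz
  -- consequence of the zero free region
  have key : ∀ (N : ℕ) [NeZero N], (N : ℝ) ≤ Real.exp (3 * z) →
      ∃ χ₁ : DirichletCharacter ℂ N, ∀ χ : DirichletCharacter ℂ N, χ ≠ 1 →
      ∀ s : ℂ, 1 - (3 * (z : ℝ)) ^ (-(1 + κ)) ≤ s.re → |s.im| ≤ (z : ℝ) + 3 →
        χ.LFunction s = 0 → χ = χ₁ ∧ s.im = 0 := by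
    intro N _ hNe
    have hN0 : 1 ≤ N := Nat.one_le_iff_ne_zero.2 (NeZero.ne N)
    have e5 : ((z : ℝ) + 3 + 2) = (z : ℝ) + 5 := by ring
    have hM := hM0 N ((z : ℝ) + 3) (by have := Nat.cast_nonneg (α := ℝ) z; linarith)
      (by rw [e5]; exact (hN N hN0 hNe).1)
    rw [e5] at hM
    obtain ⟨χ₁, hχ₁⟩ := hM
    refine ⟨χ₁, fun χ hχ s hs1 hs2 hs3 => ?_⟩
    have := hχ₁ χ hχ s (by linarith [(hN N hN0 hNe).2]) hs2 hs3
    exact ⟨this.1, this.2.2⟩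
  by_cases hex : ∃ (Q : ℕ) (_ : NeZero Q), Squarefree Q ∧ (Q : ℝ) ≤ Real.exp (3 / 2 * z) ∧
      ∃ χ : DirichletCharacter ℂ Q, χ ≠ 1 ∧ ∃ s : ℂ, 1 - (3 * (z : ℝ)) ^ (-(1 + κ)) ≤ s.re ∧
      |s.im| ≤ (z : ℝ) + 3 ∧ χ.LFunction s = 0
  · obtain ⟨Q, hQ0, hQsq, hQe, χ, hχ, s, hs1, hs2, hs3⟩ := hex
    have hle : Real.exp (3 / 2 * z) ≤ Real.exp (3 * z) := by
      apply Real.exp_le_exp.2
      have := Nat.cast_nonneg (α := ℝ) z
      linarith
    obtain ⟨χ', hχ'⟩ := key Q (hQe.trans hle)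
    have e3 := (hχ' χ hχ s hs1 hs2 hs3).2
    have hspos : 0 < s.re := by linarith
    have hse : s = ((s.re : ℝ) : ℂ) := by
      apply Complex.ext
      · simp
      · simp [e3]
    have hprime : ∃ p : ℕ, p.Prime ∧ p ∣ χ.conductor ∧ K < p := by
      by_contra hcon
      push Not at hcon
      have hd1 : χ.conductor ∣ Q := χ.conductor_dvd_level
      have hsq : Squarefree χ.conductor := hQsq.squarefree_of_dvd hd1
      have hd2 : χ.conductor ∣ primorial K := by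
        rw [← Nat.prod_primeFactors_of_squarefree hsq]
        apply Finset.prod_dvd_prod_of_subset
        intro p hp
        rw [Finset.mem_filter, Finset.mem_range]
        have hpp := Nat.prime_of_mem_primeFactors hp
        exact ⟨Nat.lt_succ_of_le (hcon p hpp (Nat.dvd_of_mem_primeFactors hp)), hpp⟩
      obtain ⟨hdvd, ψ, hψ⟩ := (mem_conductorSet_iff_conductor_dvd χ hd1).2 dvd_rfl
      haveI : NeZero χ.conductor := ⟨fun h => (NeZero.ne Q) (by rw [h] at hd1; exact Nat.eq_zero_of_zero_dvd hd1)⟩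
      have hψ1 : ψ ≠ 1 := by
        rintro rfl
        exact hχ (by rw [hψ, map_one])
      rw [hψ, lift_zero_iff hdvd ψ hψ1 hspos] at hs3
      have hs4 := (lift_zero_iff hd2 ψ hψ1 hspos).2 hs3
      rw [hse] at hs4
      refine hδ' (changeLevel hd2 ψ) ?_ s.re (by linarith) hs4
      rw [Ne, changeLevel_eq_one_iff]
      exact hψ1
    obtain ⟨p, hp, hpd, hpK⟩ := hprime
    refine ⟨p, Or.inr ⟨hp, hpK⟩, ?_⟩
    intro Q' hQ'0 hQ'sq hQ'e hpQ' φ hφ t ht1 ht2 ht3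
    have htpos : 0 < t.re := by linarith
    have hQQ : Q ∣ Nat.lcm Q Q' := Nat.dvd_lcm_left _ _
    have hQQ' : Q' ∣ Nat.lcm Q Q' := Nat.dvd_lcm_right _ _
    haveI : NeZero (Nat.lcm Q Q') := ⟨Nat.lcm_ne_zero (NeZero.ne Q) (NeZero.ne Q')⟩
    have hlcm : ((Nat.lcm Q Q' : ℕ) : ℝ) ≤ Real.exp (3 * z) := by
      have h1 : Nat.lcm Q Q' ≤ Q * Q' := Nat.lcm_le_mul (Nat.pos_of_ne_zero (NeZero.ne Q))
        (Nat.pos_of_ne_zero (NeZero.ne Q'))
      calc ((Nat.lcm Q Q' : ℕ) : ℝ) ≤ ((Q * Q' : ℕ) : ℝ) := by exact_mod_cast h1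
        _ = (Q : ℝ) * Q' := by push_cast; ring
        _ ≤ Real.exp (3 / 2 * z) * Real.exp (3 / 2 * z) := by gcongr
        _ = Real.exp (3 * z) := by rw [← Real.exp_add]; congr 1; ring
    obtain ⟨χ₁, hχ₁⟩ := key (Nat.lcm Q Q') hlcm
    have f1 := (hχ₁ (changeLevel hQQ χ) (by rw [Ne, changeLevel_eq_one_iff]; exact hχ) s hs1 hs2
      ((lift_zero_iff hQQ χ hχ hspos).2 hs3)).1
    have f2 := (hχ₁ (changeLevel hQQ' φ) (by rw [Ne, changeLevel_eq_one_iff]; exact hφ) t ht1 ht2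
      ((lift_zero_iff hQQ' φ hφ htpos).2 ht3)).1
    have hcond : χ.conductor = φ.conductor := by
      rw [← conductor_changeLevel χ hQQ, f1, ← f2, conductor_changeLevel]
    exact hpQ' ((hcond ▸ hpd).trans φ.conductor_dvd_level)
  · refine ⟨0, Or.inl rfl, ?_⟩
    intro Q hQ0 hQsq hQe _ χ hχ s hs1 hs2 hs3
    exact hex ⟨Q, hQ0, hQsq, hQe, χ, hχ, s, hs1, hs2, hs3⟩

end Pool.Agent.Work.MP_b0c12c_nt_shift
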