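import Mathlib
import Pool.Agent.Work.MP_b0c12c_nt_shift.Interface
import Pool.Agent.Work.MP_b0c12c_nt_shift.Op

/-!
# Block PR: link with independent random variables
-/

set_option autoImplicit false

namespace Pool.Agent.Work.MP_b0c12c_nt_shift.PR

open Finset MeasureTheory ProbabilityTheory

variable {Ω : Type*} [MeasurableSpace Ω] {μ : Measure Ω} [IsProbabilityMeasure μ]
  {u : ℕ → Ω → ℤ}

theorem mem_iff_of_dependsOn {S : Set (ℕ → ℤ)} {T : Set ℕ} (h : DependsOn (ind S) T)
    {v w : ℕ → ℤ} (hvw : ∀ p ∈ T, v p = w p) : v ∈ S ↔ w ∈ S := by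
  have h1 : ind S v = ind S w := h fun p hp => hvw p hp
  constructor
  · intro hv
    by_contra hw
    rw [ind_of_mem hv, ind_of_not_mem hw] at h1
    norm_num at h1
  · intro hw
    by_contra hv
    rw [ind_of_mem hw, ind_of_not_mem hv] at h1
    norm_num at h1

theorem meas (hu : ∀ p, Measurable (u p)) (T : Finset ℕ) (S : Set (ℕ → ℤ))
    (hS : DependsOn (ind S) (T : Set ℕ)) : MeasurableSet {ω | (fun p => u p ω) ∈ S} := by
  classical
  let F : Ω → (T → ℤ) := fun ω p => u p ω
  have hF : Measurable F := measurable_pi_lambda _ fun p => hu p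
  let S' : Set (T → ℤ) := {w | (fun p => if h : p ∈ T then w ⟨p, h⟩ else 0) ∈ S}
  have h1 : {ω | (fun p => u p ω) ∈ S} = F ⁻¹' S' := by
    ext ω
    simp only [Set.mem_setOf_eq, Set.mem_preimage, S', F]
    refine mem_iff_of_dependsOn hS fun p hp => ?_
    have hp' : p ∈ T := hp
    simp [hp']
  rw [h1]
  exact hF (Set.Countable.measurableSet (Set.to_countable S'))

theorem claim (hu : ∀ p, Measurable (u p)) (hI : iIndepFun u μ) (π : ℕ → ℤ → ℝ) (T : Finset ℕ) :
    ∀ T' : Finset ℕ, (∀ p ∈ T ∪ T', ∀ᵐ ω ∂μ, u p ω ∈ sgn) →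
    (∀ p ∈ T ∪ T', ∀ s ∈ sgn, μ.real {ω | u p ω = s} = π p s) → Disjoint T T' →
    ∀ v : ℕ → ℤ, (∀ p ∈ T', v p ∈ sgn) → ∀ S : Set (ℕ → ℤ),
    DependsOn (ind S) ((T ∪ T' : Finset ℕ) : Set ℕ) →
    μ.real {ω | (∀ p ∈ T', u p ω = v p) ∧ (fun p => u p ω) ∈ S} =
      (∏ p ∈ T', π p (v p)) * EA π T (ind S) v := by
  classical
  induction T using Finset.induction_on with
  | empty =>
    intro T' _ hπ _ v hv S hS
    rw [EA_empty]
    rw [Finset.empty_union] at hS hπ
    by_cases hvS : v ∈ S
    · rw [ind_of_mem hvS, mul_one]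
      have h1 : {ω | (∀ p ∈ T', u p ω = v p) ∧ (fun p => u p ω) ∈ S} =
          ⋂ p ∈ T', u p ⁻¹' {v p} := by
        ext ω
        simp only [Set.mem_setOf_eq, Set.mem_iInter, Set.mem_preimage, Set.mem_singleton_iff]
        constructor
        · exact fun h => h.1
        · intro h
          exact ⟨h, (mem_iff_of_dependsOn hS (fun p hp => h p hp)).mpr hvS⟩
      rw [h1, measureReal_def,
        (iIndepFun_iff_measure_inter_preimage_eq_mul.mp hI) T' (fun _ _ => measurableSet_singleton _),
        ENNReal.toReal_prod]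
      refine Finset.prod_congr rfl fun p hp => ?_
      exact hπ p hp (v p) (hv p hp)
    · rw [ind_of_not_mem hvS, mul_zero]
      have h1 : {ω | (∀ p ∈ T', u p ω = v p) ∧ (fun p => u p ω) ∈ S} = ∅ := by
        rw [Set.eq_empty_iff_forall_notMem]
        rintro ω ⟨h2, h3⟩
        exact hvS ((mem_iff_of_dependsOn hS (fun p hp => h2 p hp)).mp h3)
      rw [h1]
      simp
  | insert p T hpT ih =>
    intro T' hsg hπ hd v hv S hS
    have hpT' : p ∉ T' := fun h =>
      (Finset.disjoint_left.mp hd (Finset.mem_insert_self p T)) h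
    have hne : ∀ q ∈ T', q ≠ p := by
      rintro q hq rfl
      exact hpT' hq
    have hun : T ∪ insert p T' = insert p T ∪ T' := by
      ext q; simp only [Finset.mem_union, Finset.mem_insert]; tauto
    have hd' : Disjoint T (insert p T') := by
      rw [Finset.disjoint_insert_right]
      exact ⟨hpT, Finset.disjoint_of_subset_left (Finset.subset_insert p T) hd⟩
    rw [EA_insert hpT]
    have key : ∀ s ∈ sgn, μ.real {ω | (∀ q ∈ insert p T', u q ω = Function.update v p s q) ∧
        (fun q => u q ω) ∈ S} =
        (∏ q ∈ T', π q (v q)) * (π p s * EA π T (ind S) (Function.update v p s)) := by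
      intro s hs
      rw [ih (insert p T') (by rw [hun]; exact hsg) (by rw [hun]; exact hπ) hd'
        (Function.update v p s) ?_ S (by rw [hun]; exact hS)]
      · rw [Finset.prod_insert hpT', Function.update_self]
        have h2 : ∏ q ∈ T', π q (Function.update v p s q) = ∏ q ∈ T', π q (v q) := by
          refine Finset.prod_congr rfl fun q hq => ?_
          rw [Function.update_of_ne (hne q hq)]
        rw [h2]
        ring
      · intro q hq
        rcases Finset.mem_insert.mp hq with h | h
        · subst h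
          rw [Function.update_self]
          exact hs
        · rw [Function.update_of_ne (hne q h)]
          exact hv q h
    have hmeas : ∀ s ∈ sgn, MeasurableSet {ω | (∀ q ∈ insert p T', u q ω = Function.update v p s q) ∧
        (fun q => u q ω) ∈ S} := by
      intro s _
      have h3 : {ω | (∀ q ∈ insert p T', u q ω = Function.update v p s q) ∧
          (fun q => u q ω) ∈ S} = (⋂ q ∈ insert p T', u q ⁻¹' {Function.update v p s q}) ∩
          {ω | (fun q => u q ω) ∈ S} := by
        ext ω
        simp only [Set.mem_setOf_eq, Set.mem_inter_iff, Set.mem_iInter, Set.mem_preimage,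
          Set.mem_singleton_iff]
      rw [h3]
      refine MeasurableSet.inter ?_ (meas hu _ S hS)
      exact Finset.measurableSet_biInter _ fun q _ => hu q (measurableSet_singleton _)
    have hdis : Set.PairwiseDisjoint (sgn : Set ℤ)
        (fun s => {ω | (∀ q ∈ insert p T', u q ω = Function.update v p s q) ∧
        (fun q => u q ω) ∈ S}) := by
      intro s _ t _ hst
      rw [Function.onFun, Set.disjoint_left]
      rintro ω ⟨h1, _⟩ ⟨h2, _⟩
      have h3 := h1 p (Finset.mem_insert_self p T')
      have h4 := h2 p (Finset.mem_insert_self p T')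
      rw [Function.update_self] at h3 h4
      exact hst (h3.symm.trans h4)
    have hae : μ.real {ω | (∀ q ∈ T', u q ω = v q) ∧ (fun q => u q ω) ∈ S} =
        μ.real (⋃ s ∈ sgn, {ω | (∀ q ∈ insert p T', u q ω = Function.update v p s q) ∧
        (fun q => u q ω) ∈ S}) := by
      refine measureReal_congr ?_
      filter_upwards [hsg p (Finset.mem_union_left _ (Finset.mem_insert_self p T))] with ω hω
      apply propext
      show ((∀ q ∈ T', u q ω = v q) ∧ (fun q => u q ω) ∈ S) ↔
        ω ∈ (⋃ s ∈ sgn, {ω | (∀ q ∈ insert p T', u q ω = Function.update v p s q) ∧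
        (fun q => u q ω) ∈ S})
      simp only [Set.mem_iUnion, Set.mem_setOf_eq, exists_prop]
      constructor
      · rintro ⟨h1, h2⟩
        refine ⟨u p ω, hω, ?_, h2⟩
        intro q hq
        rcases Finset.mem_insert.mp hq with h | h
        · subst h
          rw [Function.update_self]
        · rw [Function.update_of_ne (hne q h)]
          exact h1 q h
      · rintro ⟨s, _, h1, h2⟩
        refine ⟨fun q hq => ?_, h2⟩
        have h3 := h1 q (Finset.mem_insert_of_mem hq)
        rwa [Function.update_of_ne (hne q hq)] at h3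
    rw [hae, measureReal_biUnion_finset hdis hmeas, Finset.sum_congr rfl key, ← Finset.mul_sum]
    rfl

end Pool.Agent.Work.MP_b0c12c_nt_shift.PR

namespace Pool.Agent.Work.MP_b0c12c_nt_shift

/-- Block PR. -/
theorem stmt_PR : Stmt_PR := by
  intro Ω _ μ _ u hu hI π T hsg hπ S hS
  refine ⟨PR.meas hu T S hS, ?_⟩
  have h := PR.claim hu hI π T ∅ (by simpa using hsg) (by simpa using hπ)
    (Finset.disjoint_empty_right T) 0 (by simp) S (by simpa using hS)
  simpa using h

end Pool.Agent.Work.MP_b0c12c_nt_shift
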