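import Mathlib
import Pool.Agent.Work.MP_b0c12c_nt_shift.PR
import Pool.Agent.Work.MP_b0c12c_nt_shift.Interface
import Pool.Agent.Work.MP_b0c12c_nt_helper63.BlockD

/-!
# Final assembly
-/

set_option autoImplicit false

namespace Pool.Agent.Work.MP_b0c12c_nt_shift.FIN

open Finset Filter MeasureTheory ProbabilityTheory Topology
open Pool.Agent.Work.MP_b0c12c_nt_helper63 (limsupOfWindows)

/-- `limsup (q_{k+1} - q_k) / (log q_k)^2` -/
noncomputable def gapLim (Q : Set ℕ) : EReal :=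
  limsup (fun k : ℕ =>
      ((((Nat.nth (· ∈ Q) (k + 1) : ℝ) - (Nat.nth (· ∈ Q) k : ℝ)) /
        Real.log (Nat.nth (· ∈ Q) k) ^ 2 : ℝ) : EReal)) atTop

theorem le_gapLim_of {Q : Set ℕ} {c : ℝ}
    (h : ∀ n : ℕ, ((c * (1 - 1 / ((n : ℝ) + 2)) : ℝ) : EReal) ≤ gapLim Q) :
    ((c : ℝ) : EReal) ≤ gapLim Q := by
  have h1 : Tendsto (fun n : ℕ => c * (1 - 1 / ((n : ℝ) + 2))) atTop (𝓝 (c * (1 - 0))) := by
    apply Tendsto.const_mul
    apply Tendsto.const_sub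
    apply tendsto_const_nhds.div_atTop
    exact tendsto_atTop_add_const_right _ _ tendsto_natCast_atTop_atTop
  rw [sub_zero, mul_one] at h1
  have h2 := (continuous_coe_real_ereal.tendsto c).comp h1
  exact le_of_tendsto' h2 h

variable {Ω : Type*} [MeasurableSpace Ω] {μ : Measure Ω} [IsProbabilityMeasure μ]
  {u : ℕ → Ω → ℤ}

theorem prob_eq (hu : ∀ p, Measurable (u p)) (hI : iIndepFun u μ) {π : ℕ → ℤ → ℝ} {T : Finset ℕ}
    (hsg : ∀ p ∈ T, ∀ᵐ ω ∂μ, u p ω ∈ sgn)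
    (hπ : ∀ p ∈ T, ∀ s ∈ sgn, μ.real {ω | u p ω = s} = π p s) {S : Set (ℕ → ℤ)}
    (hS : DependsOn (ind S) (T : Set ℕ)) :
    μ.real {ω | (fun p => u p ω) ∈ S} = EA π T (ind S) 0 := by
  have h := PR.claim hu hI π T ∅ (by simpa using hsg) (by simpa using hπ)
    (Finset.disjoint_empty_right T) 0 (by simp) S (by simpa using hS)
  simpa using h

theorem mem_PX {x p : ℕ} (hp : p.Prime) : p ∈ PX x ↔ p * p ≤ x := by
  unfold PX
  rw [mem_filter, mem_Icc, Nat.le_sqrt]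
  have := hp.one_lt
  constructor
  · rintro ⟨⟨_, h⟩, _⟩; exact h
  · intro h; exact ⟨⟨by omega, h⟩, hp⟩

theorem dep_fail (x U : ℕ) :
    DependsOn (ind {w | ∀ N : ℕ, x ≤ N → N + U ≤ 2 * x → w ∉ Emp x U N}) (PX x : Set ℕ) := by
  apply ind_dependsOn
  intro v w hvw hv N h1 h2 hw
  apply hv N h1 h2
  intro n hn
  obtain ⟨p, h3, h4, h5⟩ := hw n hn
  refine ⟨p, h3, h4, ?_⟩
  rw [hvw p ((mem_PX h3).2 h4)]
  exact h5

theorem dep_none (x : ℕ) :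
    DependsOn (ind {w | ∀ n ∈ Ioc x (2 * x), n ∉ Shifted w}) (PX (2 * x) : Set ℕ) := by
  apply ind_dependsOn
  intro v w hvw hv n hn hw
  apply hv n hn
  refine ⟨hw.1, fun p hp hpn => ?_⟩
  rw [mem_Ioc] at hn
  rw [hvw p ((mem_PX hp).2 (by omega))]
  exact hw.2 p hp hpn

theorem ae_of_small {P : Ω → Prop} (h : ∀ δ : ℝ, 0 < δ → μ.real {ω | ¬ P ω} ≤ δ) :
    ∀ᵐ ω ∂μ, P ω := by
  have h1 : μ.real {ω | ¬ P ω} ≤ 0 := le_of_forall_pos_le_add fun δ hδ => by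
    have := h δ hδ
    linarith
  rw [ae_iff]
  have h2 : μ.real {ω | ¬ P ω} = 0 := le_antisymm h1 measureReal_nonneg
  rwa [measureReal_eq_zero_iff] at h2

theorem main (hSC : Stmt_SC) (hIN : Stmt_IN) (hu : ∀ p, Measurable (u p)) (hI : iIndepFun u μ)
    {π : ℕ → ℤ → ℝ} {c₁ c₂ : ℝ} (hL : Law π c₁ c₂)
    (hsg : ∀ p : ℕ, p.Prime → ∀ᵐ ω ∂μ, u p ω ∈ sgn)
    (hπ : ∀ p : ℕ, p.Prime → ∀ s ∈ sgn, μ.real {ω | u p ω = s} = π p s) :
    ∀ᵐ ω ∂μ, (Shifted fun p => u p ω).Infinite ∧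
      ((2 * Real.exp (-Real.eulerMascheroniConstant) : ℝ) : EReal) ≤
        gapLim (Shifted fun p => u p ω) := by
  have hprime : ∀ x p, p ∈ PX x → p.Prime := by
    intro x p hp
    unfold PX at hp
    exact (mem_filter.1 hp).2
  -- the set is infinite
  have hinf : ∀ n0 : ℕ, ∀ᵐ ω ∂μ, ∃ n, n0 < n ∧ n ∈ Shifted fun p => u p ω := by
    intro n0
    apply ae_of_small
    intro δ hδ
    obtain ⟨x0, hx0⟩ := hIN π c₁ c₂ hL δ hδ
    have h1 := hx0 (max x0 n0) (le_max_left _ _)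
    rw [← prob_eq hu hI (fun p hp => hsg p (hprime _ p hp))
      (fun p hp => hπ p (hprime _ p hp)) (dep_none _)] at h1
    refine le_trans (measureReal_mono ?_) h1
    intro ω hω n hn hns
    apply hω
    rw [mem_Ioc] at hn
    exact ⟨n, lt_of_le_of_lt (le_max_right _ _) hn.1, hns⟩
  -- windows
  have hwin : ∀ g : ℝ, 0 < g → g < 2 * Real.exp (-Real.eulerMascheroniConstant) →
      ∀ n0 : ℕ, ∀ᵐ ω ∂μ, ∃ x : ℝ, (n0 : ℝ) ≤ x ∧ ∃ t : ℕ, x ≤ (t : ℝ) ∧ (t : ℝ) ≤ 4 * x ∧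
        ∀ m : ℕ, t < m → (m : ℝ) ≤ t + g * Real.log x ^ 2 → m ∉ Shifted fun p => u p ω := by
    intro g hg0 hg n0
    apply ae_of_small
    intro δ hδ
    obtain ⟨x, U, hx0, hU, h1⟩ := hSC π c₁ c₂ hL g hg0 hg δ hδ (n0 + 1)
    rw [← prob_eq hu hI (fun p hp => hsg p (hprime _ p hp))
      (fun p hp => hπ p (hprime _ p hp)) (dep_fail x U)] at h1
    refine le_trans (measureReal_mono ?_) h1
    intro ω hω N hN1 hN2 hemp
    apply hω
    refine ⟨x, by exact_mod_cast (by omega : n0 ≤ x), N + 1, ?_, ?_, ?_⟩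
    · exact_mod_cast (by omega : x ≤ N + 1)
    · exact_mod_cast (by omega : N + 1 ≤ 4 * x)
    · intro m hm1 hm2 hms
      have hm3 : m ≤ N + U := by
        have : (m : ℝ) ≤ ((N + U : ℕ) : ℝ) := by
          push_cast at hm2 ⊢
          linarith
        exact_mod_cast this
      obtain ⟨p, hp, hpx, hpm⟩ := hemp m (by rw [mem_Ioc]; omega)
      exact hms.2 p hp (by omega) hpm
  have hc : 0 < 2 * Real.exp (-Real.eulerMascheroniConstant) := by positivity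
  have hwin' : ∀ᵐ ω ∂μ, ∀ k n0 : ℕ, ∃ x : ℝ, (n0 : ℝ) ≤ x ∧ ∃ t : ℕ, x ≤ (t : ℝ) ∧
      (t : ℝ) ≤ 4 * x ∧ ∀ m : ℕ, t < m →
        (m : ℝ) ≤ t + (2 * Real.exp (-Real.eulerMascheroniConstant) * (1 - 1 / ((k : ℝ) + 2))) *
          Real.log x ^ 2 → m ∉ Shifted fun p => u p ω := by
    rw [ae_all_iff]
    intro k
    rw [ae_all_iff]
    intro n0
    have hk0 : (0 : ℝ) ≤ k := Nat.cast_nonneg k
    have hk1 : 0 < 1 - 1 / ((k : ℝ) + 2) := by
      rw [sub_pos, div_lt_one (by linarith)]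
      linarith
    apply hwin
    · positivity
    · have : 0 < 1 / ((k : ℝ) + 2) := by positivity
      nlinarith
  filter_upwards [ae_all_iff.2 hinf, hwin'] with ω h1 h2
  have hI' : (Shifted fun p => u p ω).Infinite := by
    rw [Set.infinite_iff_exists_gt]
    intro a
    obtain ⟨n, h3, h4⟩ := h1 a
    exact ⟨n, h4, h3⟩
  refine ⟨hI', ?_⟩
  apply le_gapLim_of
  intro k
  have hk0 : (0 : ℝ) ≤ k := Nat.cast_nonneg k
  have hk1 : 0 < 1 - 1 / ((k : ℝ) + 2) := by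
    rw [sub_pos, div_lt_one (by linarith)]
    linarith
  refine limsupOfWindows _ hI' _ (by positivity) ?_
  intro y
  obtain ⟨x, h3, h4⟩ := h2 k ⌈y⌉₊
  exact ⟨x, (Nat.le_ceil y).trans h3, h4⟩

end Pool.Agent.Work.MP_b0c12c_nt_shift.FIN
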