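import Pool.Agent.Work.MP_b0c12c_nt_shift.WSCL

/-! Blocks H1, H2: few hard integers. -/

set_option autoImplicit false

namespace Pool.Agent.Work.MP_b0c12c_nt_shift

open Finset

open Classical in
theorem hard_general (hWS : Stmt_WS) (hMT : Stmt_MT) : ∀ κ : ℝ, 0 < κ → κ ≤ 1 / 50 →
    ∀ B : ℕ, 2 ≤ B → ∃ z0 : ℕ, ∀ z : ℕ, z0 ≤ z →
    ∀ p0 : ℕ, (p0 = 0 ∨ (p0.Prime ∧ 7 < p0)) → ∀ x : ℕ, InR κ z x → ∀ a : ℕ,
    ∀ (T : Finset ℤ) (w : ℤ → ℝ), T.card ≤ 3 →
    (∀ s ∈ T, -3 ≤ s ∧ s ≤ 3 ∧ (w s = 1 ∨ w s = 9 / 10)) → 28 / 10 ≤ ∑ s ∈ T, w s →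
    ∀ S : Finset ℕ,
      (∀ n ∈ S, n ∈ Ioc x (2 * x) ∧ n ≡ a [MOD qq z p0] ∧
        (∀ p ∈ AA κ B z p0, ∀ s ∈ T, w s = 1 → ¬ cl p s n) ∧
        ((((AA κ B z p0).filter fun p => ∃ s ∈ T, w s = 9 / 10 ∧ cl p s n).card : ℕ) : ℝ) <
          Real.log z / 100) →
      (S.card : ℝ) ≤ x / qq z p0 * (z : ℝ) ^ (-(5 / 2) : ℝ) / 2 := by
  intro κ hκ hκ1 B hB
  obtain ⟨C, hC, D, hD2, hws⟩ := ws_cl hWS
  obtain ⟨C1, hmt⟩ := hMT.1 κ hκ (by linarith) B hB
  obtain ⟨zs, hzs16, hscale⟩ := scale D hD2 κ hκ
  -- the size condition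
  have hev : ∀ c : ℝ, ∃ z1 : ℕ, ∀ z : ℕ, z1 ≤ z →
      c + 28 / 10 * Real.log (Real.log z) ≤ 2 / 10 * Real.log z := by
    intro c
    have h1 : ∀ᶠ y : ℝ in Filter.atTop, c + 28 / 10 * Real.log y ≤ 2 / 10 * y := by
      have h2 := Real.isLittleO_log_id_atTop.bound (show (0 : ℝ) < 1 / 28 by norm_num)
      filter_upwards [h2, Filter.eventually_ge_atTop (10 * c), Filter.eventually_ge_atTop 1]
        with y hy1 hy2 hy3
      rw [Real.norm_of_nonneg (Real.log_nonneg hy3), id, Real.norm_of_nonneg (by linarith)] at hy1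
      linarith
    have h3 : Filter.Tendsto (fun z : ℕ => Real.log (z : ℝ)) Filter.atTop Filter.atTop :=
      Real.tendsto_log_atTop.comp tendsto_natCast_atTop_atTop
    obtain ⟨z1, hz1⟩ := Filter.eventually_atTop.mp (h3.eventually h1)
    exact ⟨z1, hz1⟩
  obtain ⟨z1, hz1⟩ := hev (Real.log C + 28 / 10 * C1 + Real.log 2)
  refine ⟨zs + z1, ?_⟩
  intro z hz p0 hp0 x hx a T w hTc hT hTw S hS
  obtain ⟨hw1, hWq, hW3, hWW, hlogW, hzW, hlx⟩ := hscale z (by omega) x hx p0
  set A : Finset ℕ := AA κ B z p0 with hA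
  set q : ℕ := qq z p0 with hq
  have hqpos : (0 : ℝ) < q := by exact_mod_cast qq_pos z p0
  have hzpos : (0 : ℝ) < z := by exact_mod_cast (by omega : 0 < z)
  have hlz : 0 < Real.log z := Real.log_pos (by exact_mod_cast (by omega : 1 < z))
  have hmain := hws q a x (W0 D x) A (fun _ => T) (fun _ => w) (qq_pos z p0) hW3
    (fun p hp => by
      obtain ⟨h1, h2, -, h3, -⟩ := mem_AA hB hp
      exact ⟨h1, by omega, h3.trans hw1, coprime_qq p0 h1 h2⟩) hWq
    (fun p _ => ⟨hTc, fun s hs => by
      obtain ⟨h1, h2, h3⟩ := hT s hs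
      refine ⟨h1, h2, ?_⟩
      rcases h3 with h3 | h3 <;> rw [h3] <;> norm_num⟩)
    S (fun n hn => ⟨(hS n hn).1, (hS n hn).2.1⟩)
  -- lower bound of the weights
  set t : ℝ := Real.exp (-(28 / 1000 * Real.log z)) with ht
  have hlow : ∀ n ∈ S, t ≤ ∏ p ∈ A, lw (fun _ => T) (fun _ => w) p n := by
    intro n hn
    obtain ⟨-, -, hn1, hn2⟩ := hS n hn
    have h1 : ∏ p ∈ A, lw (fun _ => T) (fun _ => w) p n =
        ∏ p ∈ A, if (∃ s ∈ T, w s = 9 / 10 ∧ cl p s n) then (1 / 10 : ℝ) else 1 := by
      apply prod_congr rfl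
      intro p hp
      obtain ⟨g1, g2, -⟩ := mem_AA hB hp
      unfold lw
      by_cases h : ∃ s ∈ T, w s = 9 / 10 ∧ cl p s n
      · rw [if_pos h]
        obtain ⟨s, hs, hws', hsn⟩ := h
        rw [sum_eq_single s]
        · rw [if_pos hsn]
          show 1 - w s = 1 / 10
          rw [hws']; norm_num
        · intro u hu hus
          rw [if_neg]
          intro hun
          apply hus
          apply cl_disj hun hsn
          obtain ⟨h2, h3, -⟩ := hT s hs
          obtain ⟨h4, h5, -⟩ := hT u hu
          have h6 : (6 : ℤ) < p := by exact_mod_cast (by omega : 6 < p)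
          rw [abs_lt]
          constructor <;> linarith
        · intro h2
          exact absurd hs h2
      · rw [if_neg h, sum_eq_zero]
        · ring
        · intro s hs
          rw [if_neg]
          intro hsn
          rcases (hT s hs).2.2 with h2 | h2
          · exact hn1 p hp s hs h2 hsn
          · exact h ⟨s, hs, h2, hsn⟩
    rw [h1, prod_ite, prod_const_one, mul_one, prod_const]
    have h2 : (1 / 10 : ℝ) = Real.exp (-Real.log 10) := by
      rw [Real.exp_neg, Real.exp_log (by norm_num)]; norm_num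
    rw [h2, ← Real.exp_nat_mul, ht]
    apply Real.exp_le_exp.mpr
    have h3 : Real.log 10 ≤ 28 / 10 := by
      have h4 : Real.log 10 ≤ Real.log 16 := Real.log_le_log (by norm_num) (by norm_num)
      have h5 : Real.log 16 = 4 * Real.log 2 := by
        rw [show (16 : ℝ) = 2 ^ 4 by norm_num, Real.log_pow]; push_cast; rfl
      have := Real.log_two_lt_d9
      linarith
    have h4 : 0 ≤ Real.log 10 := Real.log_nonneg (by norm_num)
    have h5 : ((((A.filter fun p => ∃ s ∈ T, w s = 9 / 10 ∧ cl p s n).card : ℕ) : ℝ)) * Real.log 10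
        ≤ Real.log z / 100 * (28 / 10) := by
      gcongr
    linarith
  have hcount : (S.card : ℝ) * t ≤ C * ((x : ℝ) / q) *
      Real.exp (-∑ p ∈ A, (∑ s ∈ T, w s) / p) := by
    refine le_trans ?_ hmain
    rw [← nsmul_eq_mul, ← sum_const]
    exact sum_le_sum hlow
  have hmass := (hmt z p0 (by omega) hp0).1
  have hexp : Real.exp (-∑ p ∈ A, (∑ s ∈ T, w s) / (p : ℝ)) ≤
      Real.exp (-(28 / 10 * ((1 - κ) * Real.log z - Real.log (Real.log z) - C1))) := by
    apply Real.exp_le_exp.mpr
    apply neg_le_neg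
    calc 28 / 10 * ((1 - κ) * Real.log z - Real.log (Real.log z) - C1)
        ≤ 28 / 10 * ∑ p ∈ A, 1 / (p : ℝ) := by
          apply mul_le_mul_of_nonneg_left hmass (by norm_num)
      _ = ∑ p ∈ A, 28 / 10 * (1 / (p : ℝ)) := mul_sum _ _ _
      _ ≤ ∑ p ∈ A, (∑ s ∈ T, w s) / (p : ℝ) := by
          apply sum_le_sum
          intro p _
          rw [mul_one_div]
          exact div_le_div_of_nonneg_right hTw (Nat.cast_nonneg _)
  have htpos : 0 < t := Real.exp_pos _
  have hfin : C * Real.exp (-(28 / 10 * ((1 - κ) * Real.log z - Real.log (Real.log z) - C1))) ≤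
      (z : ℝ) ^ (-(5 / 2) : ℝ) / 2 * t := by
    have h1 : (z : ℝ) ^ (-(5 / 2) : ℝ) = Real.exp (-(5 / 2) * Real.log z) := by
      rw [Real.rpow_def_of_pos hzpos, mul_comm]
    have h2 : (2 : ℝ)⁻¹ = Real.exp (-Real.log 2) := by
      rw [Real.exp_neg, Real.exp_log (by norm_num)]
    have h3 : C = Real.exp (Real.log C) := (Real.exp_log hC).symm
    have h6 : (z : ℝ) ^ (-(5 / 2) : ℝ) / 2 * t = Real.exp (-(5 / 2) * Real.log z + -Real.log 2 +
        -(28 / 1000 * Real.log z)) := by
      rw [h1, Real.exp_add, Real.exp_add, ← h2, ht]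
      ring
    rw [h6, h3, ← Real.exp_add]
    apply Real.exp_le_exp.mpr
    have h4 := hz1 z (by omega)
    have h5 : κ * Real.log z ≤ 1 / 50 * Real.log z := by gcongr
    linarith
  have hxq : 0 ≤ (x : ℝ) / q := by positivity
  have h1 : (S.card : ℝ) * t ≤ ((x : ℝ) / q * (z : ℝ) ^ (-(5 / 2) : ℝ) / 2) * t := by
    calc (S.card : ℝ) * t ≤ C * ((x : ℝ) / q) *
          Real.exp (-(28 / 10 * ((1 - κ) * Real.log z - Real.log (Real.log z) - C1))) := by
          refine hcount.trans ?_
          gcongr
      _ = (x : ℝ) / q * (C *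
          Real.exp (-(28 / 10 * ((1 - κ) * Real.log z - Real.log (Real.log z) - C1)))) := by ring
      _ ≤ (x : ℝ) / q * ((z : ℝ) ^ (-(5 / 2) : ℝ) / 2 * t) := by gcongr
      _ = _ := by ring
  exact le_of_mul_le_mul_right h1 htpos

theorem stmt_H1 (hWS : Stmt_WS) (hMT : Stmt_MT) : Stmt_H1 := by
  classical
  intro κ hκ hκ1 B hB
  obtain ⟨z0, hz0⟩ := hard_general hWS hMT κ hκ hκ1 B hB
  refine ⟨max z0 1, ?_⟩
  intro z hz p0 hp0 x hx a S hS
  have h := hz0 z (le_trans (le_max_left _ _) hz) p0 hp0 x hx a {0, 1, -1}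
    (fun s => if s = 0 then 1 else 9 / 10) (by decide)
    (fun s hs => by
      rw [mem_insert, mem_insert, mem_singleton] at hs
      rcases hs with rfl | rfl | rfl <;> norm_num)
    (by
      rw [sum_insert (by decide), sum_insert (by decide), sum_singleton]
      norm_num)
    S (fun n hn => by
      obtain ⟨h1, h2, h3, h4⟩ := hS n hn
      refine ⟨h1, h2, ?_, ?_⟩
      · intro p hp s hs hw
        have hs0 : s = 0 := by
          by_contra hne
          simp only [hne, if_false] at hw
          norm_num at hw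
        rw [hs0]
        intro h5
        apply h3 p hp
        unfold cl at h5
        rw [sub_zero] at h5
        exact_mod_cast h5
      · refine lt_of_le_of_lt ?_ h4
        have hsub : ((AA κ B z p0).filter fun p => ∃ s ∈ ({0, 1, -1} : Finset ℤ),
            (if s = 0 then (1 : ℝ) else 9 / 10) = 9 / 10 ∧ cl p s n) ⊆
            (AA κ B z p0).filter fun p => p ∣ n ^ 2 - 1 := by
          intro p hp
          rw [mem_filter] at hp ⊢
          refine ⟨hp.1, ?_⟩
          obtain ⟨s, hs, hw, hsn⟩ := hp.2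
          have hn1 : 1 ≤ n ^ 2 := by
            rw [mem_Ioc] at h1
            exact Nat.one_le_pow _ _ (by omega)
          rw [← Int.natCast_dvd_natCast, Nat.cast_sub hn1]
          push_cast
          have hs0 : s ≠ 0 := by
            intro h0
            simp only [h0, if_true] at hw
            norm_num at hw
          rw [mem_insert, mem_insert, mem_singleton] at hs
          have hfac : ((n : ℤ) ^ 2 - 1) = (n - 1) * (n - (-1)) := by ring
          rw [hfac]
          rcases hs with rfl | rfl | rfl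
          · exact absurd rfl hs0
          · exact Dvd.dvd.mul_right hsn _
          · exact Dvd.dvd.mul_left hsn _
        exact_mod_cast card_le_card hsub)
  refine h.trans ?_
  have h1 : 0 ≤ (x : ℝ) / qq z p0 * (z : ℝ) ^ (-(5 / 2) : ℝ) := by positivity
  linarith

theorem stmt_H2 (hWS : Stmt_WS) (hMT : Stmt_MT) : Stmt_H2 := by
  classical
  intro κ hκ hκ1 B hB
  obtain ⟨z0, hz0⟩ := hard_general hWS hMT κ hκ hκ1 B hB
  refine ⟨max z0 1, ?_⟩
  intro z hz p0 hp0 x hx a S hS
  have ha := hz0 z (le_trans (le_max_left _ _) hz) p0 hp0 x hx a {0, -2, 1}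
    (fun s => if s = 1 then 9 / 10 else 1) (by decide)
    (fun s hs => by
      rw [mem_insert, mem_insert, mem_singleton] at hs
      rcases hs with rfl | rfl | rfl <;> norm_num)
    (by
      rw [sum_insert (by decide), sum_insert (by decide), sum_singleton]
      norm_num)
    (S.filter fun n => ((((AA κ B z p0).filter fun p => p ∣ n - 1).card : ℕ) : ℝ) < Real.log z / 100)
    (fun n hn => by
      rw [mem_filter] at hn
      obtain ⟨h1, h2, h3, -⟩ := hS n hn.1
      refine ⟨h1, h2, ?_, ?_⟩
      · intro p hp s hs hw h5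
        unfold cl at h5
        rw [mem_insert, mem_insert, mem_singleton] at hs
        rcases hs with rfl | rfl | rfl
        · apply (h3 p hp).1
          rw [sub_zero] at h5
          exact_mod_cast h5
        · apply (h3 p hp).2
          rw [sub_neg_eq_add] at h5
          exact_mod_cast h5
        · norm_num at hw
      · refine lt_of_le_of_lt ?_ hn.2
        have hsub : ((AA κ B z p0).filter fun p => ∃ s ∈ ({0, -2, 1} : Finset ℤ),
            (if s = 1 then (9 / 10 : ℝ) else 1) = 9 / 10 ∧ cl p s n) ⊆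
            (AA κ B z p0).filter fun p => p ∣ n - 1 := by
          intro p hp
          rw [mem_filter] at hp ⊢
          refine ⟨hp.1, ?_⟩
          obtain ⟨s, hs, hw, hsn⟩ := hp.2
          have hn1 : 1 ≤ n := by
            rw [mem_Ioc] at h1
            omega
          rw [← Int.natCast_dvd_natCast, Nat.cast_sub hn1]
          push_cast
          have hs1 : s = 1 := by
            by_contra h0
            simp only [h0, if_false] at hw
            norm_num at hw
          rw [hs1] at hsn
          exact hsn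
        exact_mod_cast card_le_card hsub)
  have hb := hz0 z (le_trans (le_max_left _ _) hz) p0 hp0 x hx a {0, -2, -3}
    (fun s => if s = -3 then 9 / 10 else 1) (by decide)
    (fun s hs => by
      rw [mem_insert, mem_insert, mem_singleton] at hs
      rcases hs with rfl | rfl | rfl <;> norm_num)
    (by
      rw [sum_insert (by decide), sum_insert (by decide), sum_singleton]
      norm_num)
    (S.filter fun n => ((((AA κ B z p0).filter fun p => p ∣ n + 3).card : ℕ) : ℝ) < Real.log z / 100)
    (fun n hn => by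
      rw [mem_filter] at hn
      obtain ⟨h1, h2, h3, -⟩ := hS n hn.1
      refine ⟨h1, h2, ?_, ?_⟩
      · intro p hp s hs hw h5
        unfold cl at h5
        rw [mem_insert, mem_insert, mem_singleton] at hs
        rcases hs with rfl | rfl | rfl
        · apply (h3 p hp).1
          rw [sub_zero] at h5
          exact_mod_cast h5
        · apply (h3 p hp).2
          rw [sub_neg_eq_add] at h5
          exact_mod_cast h5
        · norm_num at hw
      · refine lt_of_le_of_lt ?_ hn.2
        have hsub : ((AA κ B z p0).filter fun p => ∃ s ∈ ({0, -2, -3} : Finset ℤ),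
            (if s = -3 then (9 / 10 : ℝ) else 1) = 9 / 10 ∧ cl p s n) ⊆
            (AA κ B z p0).filter fun p => p ∣ n + 3 := by
          intro p hp
          rw [mem_filter] at hp ⊢
          refine ⟨hp.1, ?_⟩
          obtain ⟨s, hs, hw, hsn⟩ := hp.2
          rw [← Int.natCast_dvd_natCast]
          push_cast
          have hs1 : s = -3 := by
            by_contra h0
            simp only [h0, if_false] at hw
            norm_num at hw
          rw [hs1] at hsn
          unfold cl at hsn
          rw [sub_neg_eq_add] at hsn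
          exact hsn
        exact_mod_cast card_le_card hsub)
  have hcov : S ⊆ (S.filter fun n => ((((AA κ B z p0).filter fun p => p ∣ n - 1).card : ℕ) : ℝ) <
      Real.log z / 100) ∪
      (S.filter fun n => ((((AA κ B z p0).filter fun p => p ∣ n + 3).card : ℕ) : ℝ) <
        Real.log z / 100) := by
    intro n hn
    rw [mem_union, mem_filter, mem_filter]
    rcases (hS n hn).2.2.2 with h | h
    · exact Or.inl ⟨hn, h⟩
    · exact Or.inr ⟨hn, h⟩
  have h1 := (card_le_card hcov).trans (card_union_le _ _)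
  have h2 : (S.card : ℝ) ≤
      ((S.filter fun n => ((((AA κ B z p0).filter fun p => p ∣ n - 1).card : ℕ) : ℝ) <
      Real.log z / 100).card : ℝ) +
      ((S.filter fun n => ((((AA κ B z p0).filter fun p => p ∣ n + 3).card : ℕ) : ℝ) <
        Real.log z / 100).card : ℝ) := by exact_mod_cast h1
  linarith

end Pool.Agent.Work.MP_b0c12c_nt_shift
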