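import Pool.Agent.Work.MP_b0c12c_nt_shift.Interface
import Pool.Agent.Work.MP_b0c12c_nt_helper41.Mert
import Pool.Agent.Work.MP_18694c_nt.Sieve

/-! Block IB: rough numbers in short intervals (Brun's pure sieve). -/

set_option autoImplicit false

namespace Pool.Agent.Work.MP_b0c12c_nt_shift

namespace IBaux

open Finset
open Pool.Agent.Work.MP_18694c_nt

/-- Brun's pure sieve, counting form. -/
theorem brun_count (S : Finset ℕ) (hS : ∀ p ∈ S, p.Prime) (E : ℕ → ℕ → Prop)
    [∀ p, DecidablePred (E p)] (hE : ∀ p ∈ S, Function.Periodic (E p) p)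
    (b : ℕ → ℝ) (hb : ∀ p ∈ S, ((#{m ∈ range p | E p m} : ℕ) : ℝ) = b p)
    (L Y : ℝ) (hhalf : ∀ p ∈ S, b p / p ≤ 1 / 2) (hL : ∑ p ∈ S, b p / p ≤ L)
    (hY1 : 1 ≤ Y) (hY : ∑ p ∈ S, b p ≤ Y) (J : ℕ) (hJ : Odd J)
    (hJL : 4 * Real.exp (4 * L) ≤ 2 ^ J) (a X : ℕ) :
    (X : ℝ) * (Real.exp (-(2 * L)) / 2) - Y ^ J * Real.exp 1 ≤
      ((#{m ∈ Ico a (a + X) | ∀ p ∈ S, ¬ E p m} : ℕ) : ℝ) := by
  classical
  have hb0 : ∀ p ∈ S, 0 ≤ b p := by
    intro p hp
    rw [← hb p hp]
    positivity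
  have hx0 : ∀ p ∈ S, 0 ≤ b p / p := fun p hp => div_nonneg (hb0 p hp) (by positivity)
  -- the counting function
  set c : Finset ℕ → ℝ := fun T => ((#{m ∈ Ico a (a + X) | ∀ p ∈ T, E p m} : ℕ) : ℝ) with hc
  have hcount : ∀ T ∈ S.powerset,
      |c T - X * ∏ p ∈ T, (b p / p)| ≤ ∏ p ∈ T, b p := by
    intro T hT
    rw [mem_powerset] at hT
    have h1 := count_all T (fun p hp => hS p (hT hp)) E (fun p hp => hE p (hT hp))
    have hpos : 0 < ∏ p ∈ T, p := Finset.prod_pos fun p hp => (hS p (hT hp)).pos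
    have h2 := count_interval (∏ p ∈ T, p) hpos (fun m => ∀ p ∈ T, E p m)
      (periodic_all T E (fun p hp => hE p (hT hp))) a X
    rw [h1] at h2
    have h3 : ((∏ p ∈ T, #{m ∈ range p | E p m} : ℕ) : ℝ) = ∏ p ∈ T, b p := by
      rw [Nat.cast_prod]
      exact prod_congr rfl fun p hp => hb p (hT hp)
    rw [h3] at h2
    have h4 : (∏ p ∈ T, b p) * ((X : ℝ) / (∏ p ∈ T, p : ℕ)) = X * ∏ p ∈ T, (b p / p) := by
      rw [prod_div_distrib, Nat.cast_prod]
      ring
    rw [h4] at h2
    exact h2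
  -- Bonferroni
  have hbon := bonferroni (Ico a (a + X)) S E J hJ
  have hbon' : ∑ T ∈ S.powerset with #T ≤ J, (-1 : ℝ) ^ #T * c T
      ≤ ((#{m ∈ Ico a (a + X) | ∀ p ∈ S, ¬ E p m} : ℕ) : ℝ) := by
    have := (Int.cast_le (R := ℝ)).mpr hbon
    push_cast at this
    exact this
  -- lower bound of each term
  have hterm : ∀ T ∈ S.powerset.filter (fun T => #T ≤ J),
      X * ((-1 : ℝ) ^ #T * ∏ p ∈ T, (b p / p)) - ∏ p ∈ T, b p ≤ (-1 : ℝ) ^ #T * c T := by
    intro T hT
    have h1 := hcount T (mem_filter.mp hT).1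
    rw [abs_le] at h1
    rcases neg_one_pow_eq_or ℝ #T with h | h <;> rw [h] <;> nlinarith [h1.1, h1.2]
  have hsum := sum_le_sum hterm
  rw [sum_sub_distrib, ← mul_sum] at hsum
  -- main term
  have hmain : Real.exp (-(2 * L)) / 2 ≤
      ∑ T ∈ S.powerset with #T ≤ J, (-1 : ℝ) ^ #T * ∏ p ∈ T, (b p / p) := by
    have e1 : ∏ p ∈ S, (1 - b p / p) = ∑ T ∈ S.powerset, (-1 : ℝ) ^ #T * ∏ p ∈ T, (b p / p) := by
      have := Finset.prod_one_add (f := fun p => -(b p / (p : ℝ))) S
      simp only [← sub_eq_add_neg] at this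
      rw [this]
      refine sum_congr rfl fun T _ => ?_
      rw [prod_neg]
    have e2 : Real.exp (-(2 * L)) ≤ ∏ p ∈ S, (1 - b p / p) := by
      calc Real.exp (-(2 * L)) ≤ Real.exp (∑ p ∈ S, -(2 * (b p / p))) := by
            apply Real.exp_le_exp.mpr
            rw [sum_neg_distrib, ← mul_sum]
            linarith
        _ = ∏ p ∈ S, Real.exp (-(2 * (b p / p))) := Real.exp_sum _ _
        _ ≤ ∏ p ∈ S, (1 - b p / p) := by
            apply prod_le_prod
            · intro p _; positivity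
            · intro p hp
              exact one_sub_ge_exp (hx0 p hp) (hhalf p hp)
    have e3 : ∑ T ∈ S.powerset, (-1 : ℝ) ^ #T * ∏ p ∈ T, (b p / p)
        = ∑ T ∈ S.powerset with #T ≤ J, (-1 : ℝ) ^ #T * ∏ p ∈ T, (b p / p)
        + ∑ T ∈ S.powerset with ¬ #T ≤ J, (-1 : ℝ) ^ #T * ∏ p ∈ T, (b p / p) :=
      (sum_filter_add_sum_filter_not _ _ _).symm
    have e4 : ∑ T ∈ S.powerset with ¬ #T ≤ J, (-1 : ℝ) ^ #T * ∏ p ∈ T, (b p / p)
        ≤ (2 ^ J)⁻¹ * Real.exp (2 * L) := by
      calc ∑ T ∈ S.powerset with ¬ #T ≤ J, (-1 : ℝ) ^ #T * ∏ p ∈ T, (b p / p)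
          ≤ ∑ T ∈ S.powerset with ¬ #T ≤ J, (2 ^ J)⁻¹ * ∏ p ∈ T, (2 * (b p / p)) := by
            apply sum_le_sum
            intro T hT
            rw [mem_filter, mem_powerset] at hT
            have hP : 0 ≤ ∏ p ∈ T, (b p / (p : ℝ)) :=
              prod_nonneg fun p hp => hx0 p (hT.1 hp)
            rw [prod_mul_distrib, prod_const, ← mul_assoc]
            apply mul_le_mul_of_nonneg_right _ hP
            have h1 : (1 : ℝ) ≤ (2 ^ J)⁻¹ * 2 ^ #T := by
              rw [inv_mul_eq_div, one_le_div (by positivity)]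
              exact pow_le_pow_right₀ (by norm_num) (by omega)
            refine le_trans ?_ h1
            rcases neg_one_pow_eq_or ℝ #T with h | h <;> rw [h]
            norm_num
        _ ≤ ∑ T ∈ S.powerset, (2 ^ J)⁻¹ * ∏ p ∈ T, (2 * (b p / p)) := by
            apply sum_le_sum_of_subset_of_nonneg (filter_subset _ _)
            intro T hT _
            rw [mem_powerset] at hT
            apply mul_nonneg (by positivity)
            exact prod_nonneg fun p hp => mul_nonneg (by norm_num) (hx0 p (hT hp))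
        _ = (2 ^ J)⁻¹ * ∏ p ∈ S, (1 + 2 * (b p / p)) := by
            rw [← mul_sum, Finset.prod_one_add]
        _ ≤ (2 ^ J)⁻¹ * Real.exp (2 * L) := by
            apply mul_le_mul_of_nonneg_left _ (by positivity)
            calc ∏ p ∈ S, (1 + 2 * (b p / p)) ≤ ∏ p ∈ S, Real.exp (2 * (b p / p)) := by
                  apply prod_le_prod
                  · intro p hp
                    have := hx0 p hp
                    linarith
                  · intro p _
                    have := Real.add_one_le_exp (2 * (b p / p))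
                    linarith
              _ = Real.exp (∑ p ∈ S, 2 * (b p / p)) := (Real.exp_sum _ _).symm
              _ ≤ Real.exp (2 * L) := by
                  apply Real.exp_le_exp.mpr
                  rw [← mul_sum]
                  linarith
    have e5 : (2 ^ J)⁻¹ * Real.exp (2 * L) ≤ Real.exp (-(2 * L)) / 4 := by
      rw [inv_mul_le_iff₀ (by positivity)]
      have h1 : Real.exp (2 * L) = 4 * Real.exp (4 * L) * (Real.exp (-(2 * L)) / 4) := by
        have : Real.exp (4 * L) * Real.exp (-(2 * L)) = Real.exp (2 * L) := by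
          rw [← Real.exp_add]; congr 1; ring
        rw [← this]; ring
      rw [h1]
      apply mul_le_mul_of_nonneg_right hJL (by positivity)
    have e6 : 0 < Real.exp (-(2 * L)) := Real.exp_pos _
    linarith
  -- error term
  have herr : ∑ T ∈ S.powerset with #T ≤ J, ∏ p ∈ T, b p ≤ Y ^ J * Real.exp 1 := by
    have hYpos : 0 < Y := by linarith
    calc ∑ T ∈ S.powerset with #T ≤ J, ∏ p ∈ T, b p
        ≤ ∑ T ∈ S.powerset with #T ≤ J, Y ^ J * ∏ p ∈ T, (b p / Y) := by
          apply sum_le_sum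
          intro T hT
          rw [mem_filter, mem_powerset] at hT
          rw [prod_div_distrib, prod_const, mul_div_assoc', le_div_iff₀ (by positivity), mul_comm]
          apply mul_le_mul_of_nonneg_right
          · exact pow_le_pow_right₀ hY1 hT.2
          · exact prod_nonneg fun p hp => hb0 p (hT.1 hp)
      _ ≤ ∑ T ∈ S.powerset, Y ^ J * ∏ p ∈ T, (b p / Y) := by
          apply sum_le_sum_of_subset_of_nonneg (filter_subset _ _)
          intro T hT _
          rw [mem_powerset] at hT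
          apply mul_nonneg (by positivity)
          exact prod_nonneg fun p hp => div_nonneg (hb0 p (hT hp)) hYpos.le
      _ = Y ^ J * ∏ p ∈ S, (1 + b p / Y) := by
          rw [← mul_sum, Finset.prod_one_add]
      _ ≤ Y ^ J * Real.exp 1 := by
          apply mul_le_mul_of_nonneg_left _ (by positivity)
          calc ∏ p ∈ S, (1 + b p / Y) ≤ ∏ p ∈ S, Real.exp (b p / Y) := by
                apply prod_le_prod
                · intro p hp
                  have := div_nonneg (hb0 p hp) hYpos.le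
                  linarith
                · intro p _
                  have := Real.add_one_le_exp (b p / Y)
                  linarith
            _ = Real.exp (∑ p ∈ S, b p / Y) := (Real.exp_sum _ _).symm
            _ ≤ Real.exp 1 := by
                apply Real.exp_le_exp.mpr
                rw [← sum_div, div_le_one hYpos]
                exact hY
  have hX0 : (0 : ℝ) ≤ X := by positivity
  have h1 : (X : ℝ) * (Real.exp (-(2 * L)) / 2) ≤
    X * ∑ T ∈ S.powerset with #T ≤ J, (-1 : ℝ) ^ #T * ∏ p ∈ T, (b p / p) :=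
    mul_le_mul_of_nonneg_left hmain hX0
  linarith

end IBaux

open Finset Filter

open IBaux in
theorem stmt_IB : Stmt_IB := by
  obtain ⟨C0, hC0, hmer⟩ := Pool.Agent.Work.MP_b0c12c_nt_helper41.mertens2
  -- the constant in the bound for the sum of the reciprocals
  set C1 : ℝ := 1 / 2 + |Real.log (Real.log 2)| + C0 / Real.log 2 with hC1
  have hlog2 : 0 < Real.log 2 := Real.log_pos (by norm_num)
  have hC1pos : 0 < C1 := by positivity
  have hsum : ∀ w : ℕ, 2 ≤ w → ∑ p ∈ (range (w + 1)).filter Nat.Prime, 1 / (p : ℝ)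
      ≤ Real.log (Real.log w) + C1 := by
    intro w hw
    have h1 := hmer 2 w le_rfl hw
    have h2 : (range (w + 1)).filter Nat.Prime = insert 2 ((Ioc 2 w).filter Nat.Prime) := by
      ext p
      simp only [mem_filter, mem_range, mem_insert, mem_Ioc]
      constructor
      · rintro ⟨h3, h4⟩
        have := h4.two_le
        by_cases h5 : p = 2
        · exact Or.inl h5
        · exact Or.inr ⟨⟨by omega, by omega⟩, h4⟩
      · rintro (rfl | ⟨⟨h3, h4⟩, h5⟩)
        · exact ⟨by omega, Nat.prime_two⟩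
        · exact ⟨by omega, h5⟩
    rw [h2, sum_insert (by simp)]
    rw [abs_le] at h1
    have h3 := neg_abs_le (Real.log (Real.log 2))
    have h4 : ((2 : ℕ) : ℝ) = 2 := by norm_num
    rw [h4] at h1 ⊢
    linarith [h1.2]
  set C : ℝ := 20 with hC
  refine ⟨C, by norm_num, ?_⟩
  -- largeness of `x`
  have hll : Tendsto (fun x : ℕ => Real.log (Real.log (x : ℝ))) atTop atTop :=
    Real.tendsto_log_atTop.comp (Real.tendsto_log_atTop.comp tendsto_natCast_atTop_atTop)
  have hev1 : ∀ᶠ x : ℕ in atTop, 10 * C1 + 50 ≤ Real.log (Real.log (x : ℝ)) :=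
    hll.eventually_ge_atTop _
  have hev2 : ∀ᶠ x : ℕ in atTop, 4 * Real.exp (2 * C1) ≤ C ^ 2 * Real.log (Real.log (x : ℝ)) ^ 2 := by
    filter_upwards [hll.eventually_ge_atTop (4 * Real.exp (2 * C1)), hll.eventually_ge_atTop 1] with x h1 h2
    have h3 : (1 : ℝ) ≤ C ^ 2 := by norm_num [hC]
    calc 4 * Real.exp (2 * C1) ≤ Real.log (Real.log (x : ℝ)) := h1
      _ ≤ Real.log (Real.log (x : ℝ)) ^ 2 := by nlinarith
      _ ≤ C ^ 2 * Real.log (Real.log (x : ℝ)) ^ 2 := by nlinarith [sq_nonneg (Real.log (Real.log (x : ℝ)))]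
  have hev3 : ∀ᶠ x : ℕ in atTop, Real.exp 1 * Real.log (x : ℝ) ^ 2 ≤ (x : ℝ) ^ (1 / 2 : ℝ) := by
    have h0 : Tendsto (fun x : ℕ => Real.log (x : ℝ)) atTop atTop :=
      Real.tendsto_log_atTop.comp tendsto_natCast_atTop_atTop
    filter_upwards [h0.eventually_ge_atTop (Real.exp 1 * 216), eventually_ge_atTop 1] with x h1 h2
    have hx0 : (0 : ℝ) < x := by exact_mod_cast h2
    have hl0 : 0 < Real.log (x : ℝ) := lt_of_lt_of_le (by positivity) h1
    have h3 := Real.log_le_rpow_div hx0.le (show (0 : ℝ) < 1 / 6 by norm_num)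
    have h4 : Real.log (x : ℝ) ^ 3 ≤ 216 * (x : ℝ) ^ (1 / 2 : ℝ) := by
      calc Real.log (x : ℝ) ^ 3 ≤ ((x : ℝ) ^ (1 / 6 : ℝ) / (1 / 6)) ^ 3 := pow_le_pow_left₀ hl0.le h3 3
        _ = 216 * ((x : ℝ) ^ (1 / 6 : ℝ)) ^ 3 := by ring
        _ = 216 * (x : ℝ) ^ (1 / 2 : ℝ) := by
            rw [← Real.rpow_natCast, ← Real.rpow_mul hx0.le]
            norm_num
    have h5 : Real.exp 1 * Real.log (x : ℝ) ^ 2 * Real.log (x : ℝ)
        ≤ (x : ℝ) ^ (1 / 2 : ℝ) * Real.log (x : ℝ) := by
      have h6 : 0 ≤ (x : ℝ) ^ (1 / 2 : ℝ) := by positivity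
      calc Real.exp 1 * Real.log (x : ℝ) ^ 2 * Real.log (x : ℝ) = Real.exp 1 * Real.log (x : ℝ) ^ 3 := by ring
        _ ≤ Real.exp 1 * (216 * (x : ℝ) ^ (1 / 2 : ℝ)) := by gcongr
        _ = (x : ℝ) ^ (1 / 2 : ℝ) * (Real.exp 1 * 216) := by ring
        _ ≤ _ := by gcongr
    exact le_of_mul_le_mul_right h5 hl0
  obtain ⟨x0, hx0⟩ := eventually_atTop.mp (hev1.and (hev2.and (hev3.and (eventually_ge_atTop 3))))
  refine ⟨x0, ?_⟩
  intro x hx M w hw
  obtain ⟨h1, h2, h3, h4⟩ := hx0 x hx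
  set l : ℝ := Real.log (x : ℝ) with hl
  set ll : ℝ := Real.log l with hlldef
  have hxpos : (0 : ℝ) < x := by exact_mod_cast (by omega : 0 < x)
  have hll50 : 50 ≤ ll := by linarith
  have hl1 : 1 < l := by
    by_contra hcon
    have h5 : 0 < l := by
      rw [hl]
      exact Real.log_pos (by exact_mod_cast (by omega : 1 < x))
    have : ll ≤ 0 := Real.log_nonpos h5.le (not_lt.mp hcon)
    linarith
  have hl0 : 0 < l := by linarith
  have hexpll : Real.exp ll = l := Real.exp_log hl0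
  have hlll : C * ll ≤ l := by
    have h5 := Real.quadratic_le_exp_of_nonneg (show 0 ≤ ll by linarith)
    rw [hexpll] at h5
    rw [hC]
    nlinarith
  have hCll : 0 < C * ll := by rw [hC]; linarith
  set w' : ℕ := max w 2 with hw'
  have hw2 : 2 ≤ w' := le_max_right _ _
  have hww : w ≤ w' := le_max_left _ _
  have hw'e : (w' : ℝ) ≤ Real.exp (l / (C * ll)) := by
    rw [hw', Nat.cast_max]
    apply max_le hw
    have h5 : 1 ≤ l / (C * ll) := by rwa [one_le_div hCll]
    have h6 : Real.exp 1 ≤ Real.exp (l / (C * ll)) := Real.exp_le_exp.mpr h5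
    have h7 := Real.add_one_le_exp (1 : ℝ)
    push_cast
    linarith
  have hw'pos : (0 : ℝ) < w' := by exact_mod_cast (by omega : 0 < w')
  have hw'1 : (1 : ℝ) ≤ w' := by exact_mod_cast (by omega : 1 ≤ w')
  have hlw : Real.log w' ≤ l / (C * ll) := by
    have := Real.log_le_log hw'pos hw'e
    rwa [Real.log_exp] at this
  have hlw0 : 0 < Real.log w' := Real.log_pos (by exact_mod_cast (by omega : 1 < w'))
  set L : ℝ := Real.log (Real.log w') + C1 with hL
  set J : ℕ := 2 * ⌊4 * ll⌋₊ + 1 with hJ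
  have hJodd : Odd J := ⟨⌊4 * ll⌋₊, rfl⟩
  have hfl1 : (⌊4 * ll⌋₊ : ℝ) ≤ 4 * ll := Nat.floor_le (by linarith)
  have hfl2 : 4 * ll < (⌊4 * ll⌋₊ : ℝ) + 1 := Nat.lt_floor_add_one _
  have hJle : (J : ℝ) ≤ 8 * ll + 1 := by rw [hJ]; push_cast; linarith
  have hJge : 8 * ll - 1 ≤ (J : ℝ) := by rw [hJ]; push_cast; linarith
  have hLle : L ≤ ll + C1 := by
    have h5 : l / (C * ll) ≤ l := div_le_self hl0.le (by rw [hC]; linarith)
    have h6 : Real.log (Real.log w') ≤ ll := Real.log_le_log hlw0 (hlw.trans h5)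
    linarith
  have hJL : 4 * Real.exp (4 * L) ≤ 2 ^ J := by
    have h5 : (4 : ℝ) ≤ Real.exp 2 := by
      have := Real.quadratic_le_exp_of_nonneg (show (0 : ℝ) ≤ 2 by norm_num)
      linarith
    have h6 : (2 : ℝ) ^ J = Real.exp (J * Real.log 2) := by
      rw [mul_comm, Real.exp_mul, Real.exp_log (by norm_num), Real.rpow_natCast]
    rw [h6]
    calc 4 * Real.exp (4 * L) ≤ Real.exp 2 * Real.exp (4 * L) := by gcongr
      _ = Real.exp (2 + 4 * L) := by rw [Real.exp_add]
      _ ≤ Real.exp (J * Real.log 2) := by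
          apply Real.exp_le_exp.mpr
          have h7 := Real.log_two_gt_d9
          nlinarith
  set S : Finset ℕ := (range (w' + 1)).filter Nat.Prime with hS
  have hSp : ∀ p ∈ S, p.Prime := fun p hp => (mem_filter.mp hp).2
  have hone : ∀ p : ℕ, p.Prime → (((range p).filter fun m => p ∣ m).card : ℝ) = 1 := by
    intro p hp
    have h5 : (range p).filter (fun m => p ∣ m) = {0} := by
      ext m
      simp only [mem_filter, mem_range, mem_singleton]
      constructor
      · rintro ⟨h6, h7⟩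
        exact Nat.eq_zero_of_dvd_of_lt h7 h6
      · rintro rfl
        exact ⟨hp.pos, dvd_zero p⟩
    rw [h5]
    simp
  have hcount := brun_count S hSp (fun p m => p ∣ m) (fun p _ m => by
      simp only [eq_iff_iff]
      exact Nat.dvd_add_self_right) (fun _ => 1) (fun p hp => hone p (hSp p hp)) L w'
      (fun p hp => by
        have : (2 : ℝ) ≤ p := by exact_mod_cast (hSp p hp).two_le
        rw [div_le_div_iff₀ (by linarith) (by norm_num)]
        linarith)
      (hsum w' hw2) hw'1 (by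
        rw [sum_const, nsmul_eq_mul, mul_one]
        have h5 : S.card ≤ w' := by
          have h6 : S ⊆ Ioc 0 w' := by
            intro p hp
            rw [hS, mem_filter, mem_range] at hp
            exact mem_Ioc.mpr ⟨hp.2.pos, by omega⟩
          have := card_le_card h6
          rwa [Nat.card_Ioc, Nat.sub_zero] at this
        exact_mod_cast h5) J hJodd hJL (M + 1) x
  -- comparison of the two sets
  have hsub : ((Ico (M + 1) (M + 1 + x)).filter fun m => ∀ p ∈ S, ¬ p ∣ m) ⊆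
      (Ioc M (M + x)).filter fun m => m.Coprime (primorial w) := by
    intro m hm
    rw [mem_filter, mem_Ico] at hm
    rw [mem_filter, mem_Ioc]
    refine ⟨⟨by omega, by omega⟩, ?_⟩
    unfold primorial
    rw [Nat.coprime_prod_right_iff]
    intro p hp
    rw [mem_filter, mem_range] at hp
    rw [Nat.coprime_comm, hp.2.coprime_iff_not_dvd]
    apply hm.2 p
    rw [hS, mem_filter, mem_range]
    exact ⟨by omega, hp.2⟩
  have hcard : (((Ico (M + 1) (M + 1 + x)).filter fun m => ∀ p ∈ S, ¬ p ∣ m).card : ℝ) ≤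
      (((Ioc M (M + x)).filter fun m => m.Coprime (primorial w)).card : ℝ) := by
    exact_mod_cast card_le_card hsub
  refine le_trans ?_ hcard
  refine le_trans ?_ hcount
  -- numerical part
  have e1 : 2 / l ^ 2 ≤ Real.exp (-(2 * L)) / 2 := by
    have h5 : Real.exp (-(2 * L)) = Real.exp (-(2 * C1)) / Real.log w' ^ 2 := by
      have h6 : Real.exp (-(2 * L)) = Real.exp (-(2 * C1)) * (Real.exp (Real.log (Real.log w')) ^ 2)⁻¹ := by
        rw [← Real.exp_nat_mul, ← Real.exp_neg, ← Real.exp_add]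
        congr 1
        rw [hL]
        push_cast
        ring
      rw [h6, Real.exp_log hlw0]
      rfl
    rw [h5]
    have h6 : Real.exp (-(2 * C1)) * (4 * Real.exp (2 * C1)) = 4 := by
      rw [mul_left_comm, ← Real.exp_add]
      simp
    have h7 : 4 ≤ Real.exp (-(2 * C1)) * (C ^ 2 * ll ^ 2) := by
      rw [← h6]
      gcongr
    have h8 : Real.log w' ^ 2 ≤ (l / (C * ll)) ^ 2 := pow_le_pow_left₀ hlw0.le hlw 2
    rw [div_div, div_le_div_iff₀ (by positivity) (by positivity)]
    have h9 : (l / (C * ll)) ^ 2 * (C ^ 2 * ll ^ 2) = l ^ 2 := by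
      field_simp
    have h10 : 0 < C ^ 2 * ll ^ 2 := by positivity
    have h11 : Real.log w' ^ 2 * (C ^ 2 * ll ^ 2) ≤ l ^ 2 := by
      rw [← h9]
      gcongr
    have h12 : 4 * Real.log w' ^ 2 ≤ Real.exp (-(2 * C1)) * l ^ 2 := by
      calc 4 * Real.log w' ^ 2 ≤ (Real.exp (-(2 * C1)) * (C ^ 2 * ll ^ 2)) * Real.log w' ^ 2 := by gcongr
        _ = Real.exp (-(2 * C1)) * (Real.log w' ^ 2 * (C ^ 2 * ll ^ 2)) := by ring
        _ ≤ Real.exp (-(2 * C1)) * l ^ 2 := by gcongr
    linarith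
  have e2 : (w' : ℝ) ^ J * Real.exp 1 ≤ x / l ^ 2 := by
    have h5 : (w' : ℝ) ^ J ≤ (x : ℝ) ^ (1 / 2 : ℝ) := by
      calc (w' : ℝ) ^ J ≤ (Real.exp (l / (C * ll))) ^ J := pow_le_pow_left₀ hw'pos.le hw'e J
        _ = Real.exp (J * (l / (C * ll))) := (Real.exp_nat_mul _ _).symm
        _ ≤ Real.exp (l * (1 / 2)) := by
            apply Real.exp_le_exp.mpr
            rw [mul_div_assoc', div_le_iff₀ hCll, hC]
            nlinarith
        _ = (x : ℝ) ^ (1 / 2 : ℝ) := by
            rw [Real.rpow_def_of_pos hxpos]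
    rw [le_div_iff₀ (by positivity)]
    have h6 : (x : ℝ) ^ (1 / 2 : ℝ) * (x : ℝ) ^ (1 / 2 : ℝ) = x := by
      rw [← Real.rpow_add hxpos]
      norm_num
    calc (w' : ℝ) ^ J * Real.exp 1 * l ^ 2 = (w' : ℝ) ^ J * (Real.exp 1 * l ^ 2) := by ring
      _ ≤ (x : ℝ) ^ (1 / 2 : ℝ) * (x : ℝ) ^ (1 / 2 : ℝ) := by gcongr
      _ = x := h6
  calc (x : ℝ) / l ^ 2 = x * (2 / l ^ 2) - x / l ^ 2 := by ring
    _ ≤ x * (Real.exp (-(2 * L)) / 2) - (w' : ℝ) ^ J * Real.exp 1 := by gcongr

end Pool.Agent.Work.MP_b0c12c_nt_shift
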