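import Mathlib
import Pool.Agent.Work.MP_b0c12c_nt_shift.Interface
import Pool.Agent.Work.MP_b0c12c_nt_shift.Op

/-!
Block IN: with probability tending to one `(x, 2x]` contains a member of the shifted sieve set.
-/

set_option autoImplicit false

namespace Pool.Agent.Work.MP_b0c12c_nt_shift

open Finset Filter

namespace INaux

variable {π : ℕ → ℤ → ℝ}

/-- `p` can hit `n` -/
def hits (p n : ℕ) : Prop := ∃ s ∈ sgn, (p : ℤ) ∣ (n : ℤ) - s

/-- `n` is not hit by a shift in `{-1,0,1}` at a prime of `A` -/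
def Av' (A : Finset ℕ) (n : ℕ) : Set (ℕ → ℤ) :=
  {w | ∀ p ∈ A, ∀ s ∈ sgn, (p : ℤ) ∣ (n : ℤ) - s → w p ≠ s}

lemma Av'_dep (A : Finset ℕ) (n : ℕ) : DependsOn (ind (Av' A n)) {p | hits p n} := by
  apply ind_dependsOn
  intro v w h hv p hp s hs hd
  rw [← h p ⟨s, hs, hd⟩]
  exact hv p hp s hs hd

lemma EA_Av' (hπ : ∀ p s, 0 ≤ π p s) (hs : ∀ p, π p (-1) + π p 0 + π p 1 = 1) (A : Finset ℕ)
    (n : ℕ) (v : ℕ → ℤ) : EA π A (ind (Av' A n)) v = Wt π A n := by
  rw [← EA_surv hs A n v]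
  apply EA_congr_on hπ
  intro w _ hw
  have h1 : w ∈ Av' A n ↔ w ∈ Av A n := by
    constructor
    · intro h p hp hd
      exact h p hp (w p) (hw p hp) hd rfl
    · intro h p hp s _ hd hws
      rw [← hws] at hd
      exact h p hp hd
  by_cases h : w ∈ Av A n
  · rw [ind_of_mem h, ind_of_mem (h1.2 h)]
  · rw [ind_of_not_mem h, ind_of_not_mem fun h' => h (h1.1 h')]

open Classical in
/-- Chebyshev -/
lemma cheb (hπ : ∀ p s, 0 ≤ π p s) (hs : ∀ p, π p (-1) + π p 0 + π p 1 = 1) (A S : Finset ℕ)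
    (v : ℕ → ℤ) (hμ : 0 < ∑ n ∈ S, Wt π A n) :
    EA π A (ind {w | ∀ n ∈ S, w ∉ Av' A n}) v ≤
      (((S ×ˢ S).filter fun t => ∃ p ∈ A, hits p t.1 ∧ hits p t.2).card : ℝ) /
        (∑ n ∈ S, Wt π A n) ^ 2 := by
  set μ : ℝ := ∑ n ∈ S, Wt π A n with hμdef
  set X : (ℕ → ℤ) → ℝ := fun w => ∑ n ∈ S, ind (Av' A n) w with hX
  rw [le_div_iff₀ (by positivity)]
  have h1 : EA π A (ind {w | ∀ n ∈ S, w ∉ Av' A n}) v * μ ^ 2 ≤
      EA π A (fun w => (∑ t ∈ S ×ˢ S, ind (Av' A t.1) w * ind (Av' A t.2) w) +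
        ((-2 * μ) * X w + μ ^ 2)) v := by
    have e1 : EA π A (ind {w | ∀ n ∈ S, w ∉ Av' A n}) v * μ ^ 2 =
        EA π A (fun w => μ ^ 2 * ind {w | ∀ n ∈ S, w ∉ Av' A n} w) v := by
      rw [EA_const_mul]
      ring
    rw [e1]
    apply EA_mono hπ
    intro w
    have e2 : (∑ t ∈ S ×ˢ S, ind (Av' A t.1) w * ind (Av' A t.2) w) = X w * X w := by
      rw [hX, Finset.sum_mul_sum, Finset.sum_product]
    rw [e2]
    by_cases hw : w ∈ {w | ∀ n ∈ S, w ∉ Av' A n}
    · have hX0 : X w = 0 := by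
        rw [hX]
        exact Finset.sum_eq_zero fun n hn => ind_of_not_mem (hw n hn)
      rw [ind_of_mem hw, hX0]
      linarith
    · rw [ind_of_not_mem hw]
      nlinarith [sq_nonneg (X w - μ)]
  refine h1.trans ?_
  have e3 : EA π A (fun w => (∑ t ∈ S ×ˢ S, ind (Av' A t.1) w * ind (Av' A t.2) w) +
        ((-2 * μ) * X w + μ ^ 2)) v =
      (∑ t ∈ S ×ˢ S, EA π A (fun w => ind (Av' A t.1) w * ind (Av' A t.2) w) v) +
        ((-2 * μ) * μ + μ ^ 2) := by
    have a1 := EA_add (π := π) A (fun w => ∑ t ∈ S ×ˢ S, ind (Av' A t.1) w * ind (Av' A t.2) w)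
      (fun w => (-2 * μ) * X w + μ ^ 2)
    have a2 := EA_add (π := π) A (fun w => (-2 * μ) * X w) (fun _ => μ ^ 2)
    have a3 : EA π A X v = μ := by
      rw [hX, EA_sum]
      simp only [EA_Av' hπ hs]
      rfl
    have b1 := congrFun a1 v
    have b2 := congrFun a2 v
    simp only [Pi.add_apply] at b1 b2
    have b1' : EA π A (fun w => (∑ t ∈ S ×ˢ S, ind (Av' A t.1) w * ind (Av' A t.2) w) +
        ((-2 * μ) * X w + μ ^ 2)) v = EA π A (fun w => ∑ t ∈ S ×ˢ S, ind (Av' A t.1) w * ind (Av' A t.2) w) v +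
        EA π A (fun w => (-2 * μ) * X w + μ ^ 2) v := b1
    have b2' : EA π A (fun w => (-2 * μ) * X w + μ ^ 2) v =
        EA π A (fun w => (-2 * μ) * X w) v + EA π A (fun _ => μ ^ 2) v := b2
    rw [b1', b2', EA_sum, EA_const_mul, EA_const hs]
    beta_reduce
    rw [a3]
  rw [e3]
  have h2 : ∑ t ∈ S ×ˢ S, EA π A (fun w => ind (Av' A t.1) w * ind (Av' A t.2) w) v ≤
      ∑ t ∈ S ×ˢ S, (Wt π A t.1 * Wt π A t.2 +
        if (∃ p ∈ A, hits p t.1 ∧ hits p t.2) then (1 : ℝ) else 0) := by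
    refine Finset.sum_le_sum fun t _ => ?_
    have hw1 := Wt_nonneg hπ hs A t.1
    have hw2 := Wt_nonneg hπ hs A t.2
    by_cases hd : ∃ p ∈ A, hits p t.1 ∧ hits p t.2
    · rw [if_pos hd]
      have h3 : EA π A (fun w => ind (Av' A t.1) w * ind (Av' A t.2) w) v ≤ 1 := by
        apply EA_le_one hπ hs
        intro w
        exact mul_le_one₀ (ind_le_one _ _) (ind_nonneg _ _) (ind_le_one _ _)
      nlinarith [mul_nonneg hw1 hw2]
    · rw [if_neg hd, add_zero]
      rw [EA_mul_indep hs (Av'_dep A t.1) (Av'_dep A t.2)]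
      · beta_reduce
        rw [EA_Av' hπ hs, EA_Av' hπ hs]
      · intro p hp h1 h2
        exact hd ⟨p, hp, h1, h2⟩
  have h3 : ∑ t ∈ S ×ˢ S, (Wt π A t.1 * Wt π A t.2 +
        if (∃ p ∈ A, hits p t.1 ∧ hits p t.2) then (1 : ℝ) else 0) =
      μ * μ + (((S ×ˢ S).filter fun t => ∃ p ∈ A, hits p t.1 ∧ hits p t.2).card : ℝ) := by
    rw [Finset.sum_add_distrib, Finset.sum_product, ← Finset.sum_mul_sum, Finset.sum_boole]
  rw [h3] at h2
  nlinarith

/-- number of multiples in an interval -/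
lemma card_class_le (x : ℕ) (p : ℕ) (hp : 0 < p) (s : ℤ) :
    (((Ioc x (2 * x)).filter fun n : ℕ => (p : ℤ) ∣ (n : ℤ) - s).card : ℝ) ≤ x / p + 1 := by
  classical
  have hpr : (0 : ℝ) < p := by exact_mod_cast hp
  have h1 : ((Ioc x (2 * x)).filter fun n : ℕ => (p : ℤ) ∣ (n : ℤ) - s).card ≤
      ((Ioc (x : ℤ) (2 * x)).filter fun n : ℤ => n ≡ s [ZMOD p]).card := by
    apply Finset.card_le_card_of_injOn (fun n : ℕ => (n : ℤ))
    · intro n hn
      rw [Finset.mem_coe, mem_filter, mem_Ioc] at hn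
      rw [Finset.mem_coe, mem_filter, mem_Ioc]
      beta_reduce
      refine ⟨⟨by exact_mod_cast hn.1.1, by exact_mod_cast hn.1.2⟩, ?_⟩
      exact (Int.modEq_iff_dvd.2 (by simpa using hn.2)).symm
    · intro a _ b _ h
      beta_reduce at h
      exact_mod_cast h
  have h2 := Int.Ioc_filter_modEq_card (x : ℤ) (2 * x) (r := (p : ℤ)) (by exact_mod_cast hp) s
  have h3 : (((Ioc (x : ℤ) (2 * x)).filter fun n : ℤ => n ≡ s [ZMOD p]).card : ℝ) ≤ x / p + 1 := by
    have h4 : ((((Ioc (x : ℤ) (2 * x)).filter fun n : ℤ => n ≡ s [ZMOD p]).card : ℤ) : ℝ) ≤ x / p + 1 := by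
      rw [h2]
      push_cast
      apply max_le
      · have e1 := Int.floor_le ((((2 * x : ℤ) - s : ℤ) : ℚ) / ((p : ℤ) : ℚ))
        have e2 := Int.lt_floor_add_one ((((x : ℤ) - s : ℤ) : ℚ) / ((p : ℤ) : ℚ))
        have e1' : ((⌊(((2 * x : ℤ) - s : ℤ) : ℚ) / ((p : ℤ) : ℚ)⌋ : ℤ) : ℝ) ≤ (2 * x - s) / p := by
          have : ((⌊(((2 * x : ℤ) - s : ℤ) : ℚ) / ((p : ℤ) : ℚ)⌋ : ℤ) : ℝ) ≤
              (((((2 * x : ℤ) - s : ℤ) : ℚ) / ((p : ℤ) : ℚ) : ℚ) : ℝ) := by exact_mod_cast e1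
          simpa using this
        have e2' : ((x : ℝ) - s) / p < ((⌊(((x : ℤ) - s : ℤ) : ℚ) / ((p : ℤ) : ℚ)⌋ : ℤ) : ℝ) + 1 := by
          have : (((((x : ℤ) - s : ℤ) : ℚ) / ((p : ℤ) : ℚ) : ℚ) : ℝ) <
              ((⌊(((x : ℤ) - s : ℤ) : ℚ) / ((p : ℤ) : ℚ)⌋ : ℤ) : ℝ) + 1 := by exact_mod_cast e2
          simpa using this
        push_cast at e1' e2'
        have e3 : (2 * (x : ℝ) - s) / p - ((x : ℝ) - s) / p = x / p := by
          rw [← sub_div]
          congr 1
          ring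
        linarith
      · positivity
    exact_mod_cast h4
  exact (Nat.cast_le.2 h1).trans h3

open Classical in
lemma card_hits_le (x p : ℕ) (hp : 0 < p) (hpx : p ≤ x) :
    (((Ioc x (2 * x)).filter fun n : ℕ => hits p n).card : ℝ) ≤ 6 * x / p := by
  have hpr : (0 : ℝ) < p := by exact_mod_cast hp
  have h1 : (Ioc x (2 * x)).filter (fun n : ℕ => hits p n) ⊆
      sgn.biUnion fun s => (Ioc x (2 * x)).filter fun n : ℕ => (p : ℤ) ∣ (n : ℤ) - s := by
    intro n hn
    rw [mem_filter] at hn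
    obtain ⟨s, hs, hd⟩ := hn.2
    rw [mem_biUnion]
    exact ⟨s, hs, mem_filter.2 ⟨hn.1, hd⟩⟩
  have h2 : (((Ioc x (2 * x)).filter fun n : ℕ => hits p n).card : ℝ) ≤
      ∑ s ∈ sgn, (((Ioc x (2 * x)).filter fun n : ℕ => (p : ℤ) ∣ (n : ℤ) - s).card : ℝ) := by
    exact_mod_cast (Finset.card_le_card h1).trans Finset.card_biUnion_le
  refine h2.trans ?_
  refine (Finset.sum_le_sum fun s _ => card_class_le x p hp s).trans ?_
  rw [Finset.sum_const]
  have h3 : sgn.card = 3 := by decide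
  rw [h3, nsmul_eq_mul]
  have h4 : (1 : ℝ) ≤ x / p := by
    rw [le_div_iff₀ hpr, one_mul]
    exact_mod_cast hpx
  have h5 : 6 * (x : ℝ) / p = 6 * (x / p) := by ring
  rw [h5]
  push_cast
  linarith

open Classical in
lemma dep_le (x W : ℕ) (A S : Finset ℕ) (hA : ∀ p ∈ A, W < p ∧ p ≤ x) (hS : S ⊆ Ioc x (2 * x)) :
    (((S ×ˢ S).filter fun t => ∃ p ∈ A, hits p t.1 ∧ hits p t.2).card : ℝ) ≤
      72 * x ^ 2 / (W + 1) := by
  have h1 : (S ×ˢ S).filter (fun t => ∃ p ∈ A, hits p t.1 ∧ hits p t.2) ⊆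
      A.biUnion fun p => ((Ioc x (2 * x)).filter fun n : ℕ => hits p n) ×ˢ
        ((Ioc x (2 * x)).filter fun n : ℕ => hits p n) := by
    intro t ht
    rw [mem_filter, mem_product] at ht
    obtain ⟨p, hp, h1, h2⟩ := ht.2
    rw [mem_biUnion]
    exact ⟨p, hp, mem_product.2 ⟨mem_filter.2 ⟨hS ht.1.1, h1⟩, mem_filter.2 ⟨hS ht.1.2, h2⟩⟩⟩
  have h2 : (((S ×ˢ S).filter fun t => ∃ p ∈ A, hits p t.1 ∧ hits p t.2).card : ℝ) ≤
      ∑ p ∈ A, ((((Ioc x (2 * x)).filter fun n : ℕ => hits p n).card : ℝ)) ^ 2 := by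
    have h3 := (Finset.card_le_card h1).trans Finset.card_biUnion_le
    refine (Nat.cast_le.2 h3).trans (le_of_eq ?_)
    push_cast
    refine Finset.sum_congr rfl fun p _ => ?_
    rw [Finset.card_product]
    push_cast
    ring
  refine h2.trans ?_
  calc ∑ p ∈ A, ((((Ioc x (2 * x)).filter fun n : ℕ => hits p n).card : ℝ)) ^ 2
      ≤ ∑ p ∈ A, 36 * (x : ℝ) ^ 2 * ((p : ℝ) ^ 2)⁻¹ := by
        refine Finset.sum_le_sum fun p hp => ?_
        have h4 := card_hits_le x p (by have := (hA p hp).1; omega) (hA p hp).2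
        calc ((((Ioc x (2 * x)).filter fun n : ℕ => hits p n).card : ℝ)) ^ 2
            ≤ (6 * x / p) ^ 2 := pow_le_pow_left₀ (by positivity) h4 2
          _ = 36 * (x : ℝ) ^ 2 * ((p : ℝ) ^ 2)⁻¹ := by ring
    _ ≤ ∑ p ∈ Ioo W (x + 1), 36 * (x : ℝ) ^ 2 * ((p : ℝ) ^ 2)⁻¹ := by
        apply Finset.sum_le_sum_of_subset_of_nonneg
        · intro p hp
          rw [mem_Ioo]
          have := hA p hp
          omega
        · intro _ _ _
          positivity
    _ = 36 * (x : ℝ) ^ 2 * ∑ p ∈ Ioo W (x + 1), ((p : ℝ) ^ 2)⁻¹ := by rw [Finset.mul_sum]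
    _ ≤ 36 * (x : ℝ) ^ 2 * (2 / (W + 1)) := by
        gcongr
        exact sum_Ioo_inv_sq_le (α := ℝ) W (x + 1)
    _ = 72 * x ^ 2 / (W + 1) := by ring

/-- a number in prescribed classes -/
lemma exists_crt (W : ℕ) (v : ℕ → ℤ) : ∃ M : ℕ, ∀ p : ℕ, p.Prime → p ≤ W → (p : ℤ) ∣ (M : ℤ) + v p := by
  classical
  have hc := Nat.chineseRemainderOfFinset (fun p : ℕ => ((-v p) % (p : ℤ)).toNat) (fun p => p)
    ((Icc 1 W).filter Nat.Prime) (fun p hp => (mem_filter.1 hp).2.ne_zero) (by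
      intro p hp p' hp' hne
      exact (Nat.coprime_primes (mem_filter.1 hp).2 (mem_filter.1 hp').2).2 hne)
  refine ⟨hc.1, fun p hp hpW => ?_⟩
  have h1 := hc.2 p (mem_filter.2 ⟨mem_Icc.2 ⟨hp.one_lt.le, hpW⟩, hp⟩)
  have hp0 : (p : ℤ) ≠ 0 := by exact_mod_cast hp.ne_zero
  have h2 : ((hc.1 : ℕ) : ℤ) ≡ (-v p) % (p : ℤ) [ZMOD p] := by
    have h3 := (Int.natCast_modEq_iff).2 h1
    rwa [Int.toNat_of_nonneg (Int.emod_nonneg _ hp0)] at h3
  have h3 : ((hc.1 : ℕ) : ℤ) ≡ -v p [ZMOD p] := h2.trans (Int.mod_modEq _ _)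
  have h4 := Int.modEq_iff_dvd.1 h3.symm
  have e : ((hc.1 : ℕ) : ℤ) - -v p = ((hc.1 : ℕ) : ℤ) + v p := by ring
  rwa [e] at h4

open Classical in
/-- the survivors of the small primes -/
lemma surv_card (x W : ℕ) (T : Finset ℕ) (hT : ∀ p ∈ T, p.Prime ∧ p ≤ W) (v : ℕ → ℤ) {c : ℝ}
    (h : ∀ M : ℕ, c ≤ (((Ioc M (M + x)).filter fun m => m.Coprime (primorial W)).card : ℝ)) :
    c ≤ (((Ioc x (2 * x)).filter fun n : ℕ => ∀ p ∈ T, ¬ (p : ℤ) ∣ (n : ℤ) - v p).card : ℝ) := by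
  obtain ⟨M, hM⟩ := exists_crt W v
  refine (h (M + x)).trans (Nat.cast_le.2 ?_)
  apply Finset.card_le_card_of_injOn (fun m => m - M)
  · intro m hm
    rw [Finset.mem_coe, mem_filter, mem_Ioc] at hm
    rw [Finset.mem_coe, mem_filter, mem_Ioc]
    beta_reduce
    refine ⟨by omega, fun p hp hd => ?_⟩
    obtain ⟨hpp, hpW⟩ := hT p hp
    have h1 := hM p hpp hpW
    have h2 : ((m - M : ℕ) : ℤ) = (m : ℤ) - M := by
      have : M ≤ m := by omega
      push_cast [Nat.cast_sub this]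
      ring
    rw [h2] at hd
    have h3 : (p : ℤ) ∣ (m : ℤ) := by
      have h4 := dvd_add hd h1
      have e : (m : ℤ) - M - v p + (M + v p) = m := by ring
      rwa [e] at h4
    have h5 : p ∣ m := by exact_mod_cast h3
    have h6 : p ∣ primorial W := hpp.dvd_primorial_iff.2 hpW
    have h7 := Nat.dvd_gcd h5 h6
    rw [hm.2] at h7
    exact hpp.one_lt.ne' (Nat.dvd_one.1 h7)
  · intro a ha b hb hab
    rw [Finset.mem_coe, mem_filter, mem_Ioc] at ha hb
    simp only at hab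
    omega

open Classical in
/-- few large primes can hit `n` -/
lemma hits_card (x n : ℕ) (A : Finset ℕ) (y : ℝ) (hx : 2 ≤ x) (hn : n ∈ Ioc x (2 * x))
    (hA : ∀ p ∈ A, p.Prime ∧ Real.exp y ≤ p) :
    (((A.filter fun p => hits p n).card : ℕ) : ℝ) * y ≤ 6 * Real.log x := by
  rw [mem_Ioc] at hn
  have hxr : (2 : ℝ) ≤ x := by exact_mod_cast hx
  have h1 : ∏ p ∈ A.filter (fun p => hits p n), p ∣ (n - 1) * n * (n + 1) := by
    apply Finset.prod_primes_dvd
    · intro p hp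
      exact (hA p (mem_filter.1 hp).1).1.prime
    · intro p hp
      obtain ⟨s, hs, hd⟩ := (mem_filter.1 hp).2
      have hn1 : 1 ≤ n := by omega
      unfold sgn at hs
      simp only [mem_insert, mem_singleton] at hs
      rcases hs with rfl | rfl | rfl
      · have : p ∣ n + 1 := by
          rw [← Int.natCast_dvd_natCast]; push_cast; simpa [sub_neg_eq_add] using hd
        exact Dvd.dvd.mul_left this _
      · have : p ∣ n := by
          rw [← Int.natCast_dvd_natCast]; simpa using hd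
        exact Dvd.dvd.mul_right (Dvd.dvd.mul_left this _) _
      · have : p ∣ n - 1 := by
          rw [← Int.natCast_dvd_natCast]; push_cast [Nat.cast_sub hn1]; simpa using hd
        exact Dvd.dvd.mul_right (Dvd.dvd.mul_right this _) _
  have hpos : 0 < (n - 1) * n * (n + 1) := by
    exact Nat.mul_pos (Nat.mul_pos (by omega) (by omega)) (by omega)
  have h2 := Nat.le_of_dvd hpos h1
  have h3 : (n - 1) * n * (n + 1) ≤ x ^ 6 := by
    have a1 : (n - 1) * (n + 1) ≤ n * n := by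
      obtain ⟨m, rfl⟩ : ∃ m, n = m + 1 := ⟨n - 1, by omega⟩
      simp only [Nat.add_sub_cancel]
      nlinarith
    have a2 : n ≤ x ^ 2 := by nlinarith
    calc (n - 1) * n * (n + 1) = ((n - 1) * (n + 1)) * n := by ring
      _ ≤ (n * n) * n := by gcongr
      _ ≤ (x ^ 2 * x ^ 2) * x ^ 2 := by gcongr
      _ = x ^ 6 := by ring
  have h4 : Real.exp y ^ (A.filter fun p => hits p n).card ≤
      ∏ p ∈ A.filter (fun p => hits p n), (p : ℝ) := by
    rw [← Finset.prod_const]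
    apply Finset.prod_le_prod
    · intro _ _; positivity
    · intro p hp
      exact (hA p (mem_filter.1 hp).1).2
  have h5 : Real.exp y ^ (A.filter fun p => hits p n).card ≤ (x : ℝ) ^ 6 := by
    refine h4.trans ?_
    have h23 : ((∏ p ∈ A.filter (fun p => hits p n), p : ℕ) : ℝ) ≤ ((x ^ 6 : ℕ) : ℝ) :=
      Nat.cast_le.2 (h2.trans h3)
    rw [Nat.cast_prod, Nat.cast_pow] at h23
    exact h23
  rw [← Real.exp_nat_mul] at h5
  have h6 := Real.log_le_log (Real.exp_pos _) h5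
  rw [Real.log_exp, Real.log_pow] at h6
  exact_mod_cast h6

open Classical in
/-- lower bound of the survival probability -/
lemma Wt_low (hs : ∀ p, π p (-1) + π p 0 + π p 1 = 1) (A : Finset ℕ) (n : ℕ)
    (hn : 0 < n) (hA : ∀ p ∈ A, 3 ≤ p) (ka : ℝ) (hka : 0 < ka)
    (h1 : ∀ p ∈ A, ka ≤ π p 1) (h2 : ∀ p ∈ A, ka ≤ π p (-1)) (h3 : ∀ p ∈ A, 0 ≤ π p 0) :
    ka ^ (A.filter fun p => hits p n).card ≤ Wt π A n := by
  unfold Wt
  rw [← Finset.prod_filter_mul_prod_filter_not A (fun p => hits p n)]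
  have e1 : ∏ p ∈ A.filter (fun p => ¬ hits p n), gw π p n = 1 := by
    apply Finset.prod_eq_one
    intro p hp
    have hh := (mem_filter.1 hp).2
    unfold gw
    rw [Finset.sum_eq_zero, sub_zero]
    intro s hs
    rw [if_neg]
    intro hd
    exact hh ⟨s, hs, hd⟩
  rw [e1, mul_one, ← Finset.prod_const]
  apply Finset.prod_le_prod
  · intro _ _; exact hka.le
  · intro p hp
    have hpA := (mem_filter.1 hp).1
    have a1 := h1 p hpA
    have a2 := h2 p hpA
    have a3 := h3 p hpA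
    have a4 := hs p
    rw [gw_eq (hA p hpA) n hn]
    split_ifs
    · linarith
    · linarith
    · linarith
    · linarith

/-- numeric facts -/
lemma numer (C c₁ δ : ℝ) (P x1 : ℕ) (hC : 0 < C) (hc : 0 < c₁) (hδ : 0 < δ) :
    ∃ x0 : ℕ, ∀ x : ℕ, x0 ≤ x → x1 ≤ x ∧ 2 ≤ x ∧ c₁ ≤ Real.log (Real.log x) ∧
      1 ≤ Real.log (Real.log x) ∧ 0 < Real.log x ∧
      (P : ℝ) + 3 ≤ Real.exp (Real.log x / (C * Real.log (Real.log x))) ∧
      72 * (Real.log x ^ 4 * Real.exp (12 * C * Real.log (Real.log x) *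
        Real.log (Real.log (Real.log x) / c₁))) ≤
          δ * Real.exp (Real.log x / (C * Real.log (Real.log x))) := by
  have hlim : Tendsto (fun x : ℕ => Real.log (Real.log x)) atTop atTop :=
    Real.tendsto_log_atTop.comp (Real.tendsto_log_atTop.comp tendsto_natCast_atTop_atTop)
  have hlog : Tendsto (fun x : ℕ => Real.log x) atTop atTop :=
    Real.tendsto_log_atTop.comp tendsto_natCast_atTop_atTop
  have hev := (eventually_ge_atTop x1).and ((eventually_ge_atTop 2).and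
    ((hlim.eventually_ge_atTop c₁).and ((hlim.eventually_ge_atTop 1).and
    ((hlog.eventually_gt_atTop 0).and ((hlim.eventually_ge_atTop ((P : ℝ) + 3)).and
    ((hlim.eventually_ge_atTop (24 * C * (5 + 12 * C / c₁))).and
    (hlim.eventually_ge_atTop (72 / δ))))))))
  obtain ⟨x0, hx0⟩ := eventually_atTop.1 hev
  refine ⟨x0, fun x hx => ?_⟩
  obtain ⟨h1, h2, h3, h4, h5, h6, h7, h8⟩ := hx0 x hx
  set t : ℝ := Real.log (Real.log x) with ht
  have htpos : 0 < t := by linarith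
  have hL : Real.log x = Real.exp t := by rw [ht, Real.exp_log h5]
  -- the main inequality of exponents
  have hE : 5 * t + 12 * C * t * Real.log (t / c₁) ≤ Real.log x / (C * t) := by
    have e1 : Real.log (t / c₁) ≤ t / c₁ := by
      have := Real.log_le_sub_one_of_pos (show 0 < t / c₁ by positivity)
      linarith
    have e2 : t ^ 4 / 24 ≤ Real.exp t := by
      have := Real.pow_div_factorial_le_exp t htpos.le 4
      have h24 : ((Nat.factorial 4 : ℕ) : ℝ) = 24 := by norm_num [Nat.factorial]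
      rwa [h24] at this
    rw [hL, le_div_iff₀ (by positivity)]
    have e3 : 12 * C * t * Real.log (t / c₁) ≤ 12 * C * t * (t / c₁) := by gcongr
    have e4 : (5 * t + 12 * C * t * (t / c₁)) * (C * t) ≤ t ^ 4 / 24 := by
      have a1 : 24 * C * (5 * t + 12 * C * t * (t / c₁)) ≤ t ^ 3 := by
        have b1 : 5 * t + 12 * C * t * (t / c₁) ≤ (5 + 12 * C / c₁) * t ^ 2 := by
          have : 12 * C * t * (t / c₁) = 12 * C / c₁ * t ^ 2 := by ring
          rw [this]
          nlinarith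
        calc 24 * C * (5 * t + 12 * C * t * (t / c₁)) ≤ 24 * C * ((5 + 12 * C / c₁) * t ^ 2) := by
              gcongr
          _ = (24 * C * (5 + 12 * C / c₁)) * t ^ 2 := by ring
          _ ≤ t * t ^ 2 := by gcongr
          _ = t ^ 3 := by ring
      calc (5 * t + 12 * C * t * (t / c₁)) * (C * t)
          = (24 * C * (5 * t + 12 * C * t * (t / c₁))) * t / 24 := by ring
        _ ≤ t ^ 3 * t / 24 := by gcongr
        _ = t ^ 4 / 24 := by ring
    calc (5 * t + 12 * C * t * Real.log (t / c₁)) * (C * t)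
        ≤ (5 * t + 12 * C * t * (t / c₁)) * (C * t) := by gcongr
      _ ≤ t ^ 4 / 24 := e4
      _ ≤ Real.exp t := e2
  have hlt : 0 ≤ Real.log (t / c₁) := by
    apply Real.log_nonneg
    rw [le_div_iff₀ hc, one_mul]
    exact h3
  have ht_le : t + 1 ≤ Real.exp t := Real.add_one_le_exp t
  refine ⟨h1, h2, h3, h4, h5, ?_, ?_⟩
  · calc (P : ℝ) + 3 ≤ t := h6
      _ ≤ Real.exp t := by linarith
      _ ≤ _ := by
        apply Real.exp_le_exp.2
        have : 0 ≤ 12 * C * t * Real.log (t / c₁) := by positivity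
        linarith
  · have e5 : Real.log x ^ 4 = Real.exp (4 * t) := by
      rw [hL, ← Real.exp_nat_mul]
      norm_num
    rw [e5, ← Real.exp_add]
    calc 72 * Real.exp (4 * t + 12 * C * t * Real.log (t / c₁))
        ≤ (δ * Real.exp t) * Real.exp (4 * t + 12 * C * t * Real.log (t / c₁)) := by
          gcongr
          have : 72 ≤ δ * t := by
            rw [div_le_iff₀ hδ] at h8
            linarith
          nlinarith
      _ = δ * Real.exp (5 * t + 12 * C * t * Real.log (t / c₁)) := by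
          rw [mul_assoc, ← Real.exp_add]
          congr 2
          ring
      _ ≤ _ := by gcongr

end INaux

open INaux in
open Classical in
/-- Block IN. -/
theorem stmt_IN (hIB : Stmt_IB) : Stmt_IN := by
  obtain ⟨C, hC, x1, hib⟩ := hIB
  intro π c₁ c₂ hL δ hδ
  obtain ⟨P, hP⟩ := hL.low
  obtain ⟨x0, hx0⟩ := numer C c₁ δ P x1 hC hL.c1_pos hδ
  refine ⟨x0, fun x hx => ?_⟩
  obtain ⟨hx1, hx2, hcL, hLL1, hLpos, hPW, hmain⟩ := hx0 x hx
  set L : ℝ := Real.log x with hLdef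
  set t : ℝ := Real.log L with htdef
  set y : ℝ := L / (C * t) with hy
  set W : ℕ := ⌊Real.exp y⌋₊ with hW
  have htpos : 0 < t := by linarith
  have hypos : 0 < y := by positivity
  have hc1 := hL.c1_pos
  have hWle : (W : ℝ) ≤ Real.exp y := Nat.floor_le (Real.exp_pos _).le
  have hWlt : Real.exp y < W + 1 := Nat.lt_floor_add_one _
  have hWP : P + 2 ≤ W := by
    have h1 : ((P + 3 : ℕ) : ℝ) ≤ Real.exp y := by push_cast; exact hPW
    have := Nat.le_floor h1
    omega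
  have hxr : (2 : ℝ) ≤ x := by exact_mod_cast hx2
  set T : Finset ℕ := PX (2 * x) with hT
  set A : Finset ℕ := T.filter (fun p => W < p) with hA
  have hAT : A ⊆ T := Finset.filter_subset _ _
  have hTmem : ∀ p, p ∈ T ↔ p.Prime ∧ p * p ≤ 2 * x := by
    intro p
    rw [hT]
    unfold PX
    rw [mem_filter, mem_Icc, Nat.le_sqrt]
    constructor
    · rintro ⟨⟨_, h⟩, hp⟩; exact ⟨hp, h⟩
    · rintro ⟨hp, h⟩; exact ⟨⟨hp.one_lt.le, h⟩, hp⟩
  have hAx : ∀ p ∈ A, W < p ∧ p ≤ x := by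
    intro p hp
    rw [hA, mem_filter, hTmem] at hp
    refine ⟨hp.2, ?_⟩
    have hp2 := hp.1.1.two_le
    nlinarith [hp.1.2]
  have hAprime : ∀ p ∈ A, p.Prime := fun p hp => ((hTmem p).1 (hAT hp)).1
  rw [EA_sdiff hAT]
  apply EA_le_const hL.nonneg hL.sum_one
  intro v
  -- survivors of the small primes
  set S : Finset ℕ := (Ioc x (2 * x)).filter fun n : ℕ => ∀ p ∈ T \ A, ¬ (p : ℤ) ∣ (n : ℤ) - v p
    with hS
  have hScard : (x : ℝ) / L ^ 2 ≤ S.card := by
    apply surv_card x W (T \ A) _ v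
    · intro M
      exact hib x hx1 M W hWle
    · intro p hp
      rw [Finset.mem_sdiff, hA, mem_filter] at hp
      refine ⟨((hTmem p).1 hp.1).1, ?_⟩
      by_contra hcon
      exact hp.2 ⟨hp.1, by omega⟩
  -- survival probabilities
  have hWt : ∀ n ∈ S, Real.exp (-(6 * C * t * Real.log (t / c₁))) ≤ Wt π A n := by
    intro n hn
    have hnI : n ∈ Ioc x (2 * x) := (mem_filter.1 hn).1
    have hn0 : 0 < n := by rw [mem_Ioc] at hnI; omega
    have h1 := hits_card x n A y hx2 hnI (fun p hp => ⟨hAprime p hp, by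
      have h3 := (hAx p hp).1
      have h4 : (W : ℝ) + 1 ≤ p := by exact_mod_cast h3
      linarith⟩)
    have hlow : ∀ p ∈ A, c₁ / t ≤ c₁ / Real.log (Real.log p) := by
      intro p hp
      have h3 := hAx p hp
      have hp3 : (3 : ℝ) ≤ p := by exact_mod_cast (by omega : 3 ≤ p)
      have h4 : 1 < Real.log p := by
        rw [Real.lt_log_iff_exp_lt (by linarith)]
        exact Real.exp_one_lt_d9.trans (by linarith)
      have h5 : 0 < Real.log (Real.log p) := Real.log_pos h4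
      have h6 : Real.log (Real.log p) ≤ t := by
        rw [htdef, hLdef]
        apply Real.log_le_log (by linarith)
        apply Real.log_le_log (by linarith)
        exact_mod_cast h3.2
      gcongr
    have h2 := Wt_low hL.sum_one A n hn0 (fun p hp => by have := (hAx p hp).1; omega) (c₁ / t)
      (by positivity)
      (fun p hp => (hlow p hp).trans (hP p (hAprime p hp) (by have := (hAx p hp).1; omega)).1)
      (fun p hp => (hlow p hp).trans (hP p (hAprime p hp) (by have := (hAx p hp).1; omega)).2)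
      (fun p _ => hL.nonneg p 0)
    refine le_trans ?_ h2
    have h3 : c₁ / t = Real.exp (-Real.log (t / c₁)) := by
      rw [Real.exp_neg, Real.exp_log (by positivity), inv_div]
    rw [h3, ← Real.exp_nat_mul]
    apply Real.exp_le_exp.2
    have hlt : 0 ≤ Real.log (t / c₁) := by
      apply Real.log_nonneg
      rw [le_div_iff₀ hc1, one_mul]
      exact hcL
    have h4 : ((A.filter fun p => hits p n).card : ℝ) ≤ 6 * C * t := by
      have h5 : ((A.filter fun p => hits p n).card : ℝ) * L ≤ 6 * L * (C * t) := by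
        rw [hy, mul_div_assoc', div_le_iff₀ (by positivity)] at h1
        exact h1
      have h6 : ((A.filter fun p => hits p n).card : ℝ) * L ≤ (6 * C * t) * L := by
        calc _ ≤ 6 * L * (C * t) := h5
          _ = (6 * C * t) * L := by ring
      exact le_of_mul_le_mul_right h6 hLpos
    have h5 := mul_le_mul_of_nonneg_right h4 hlt
    nlinarith
  set E : ℝ := Real.exp (-(6 * C * t * Real.log (t / c₁))) with hE
  have hμ : (x : ℝ) / L ^ 2 * E ≤ ∑ n ∈ S, Wt π A n := by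
    calc (x : ℝ) / L ^ 2 * E ≤ S.card * E := by gcongr
      _ = ∑ n ∈ S, E := by rw [Finset.sum_const, nsmul_eq_mul]
      _ ≤ _ := Finset.sum_le_sum hWt
  have hEpos : 0 < E := Real.exp_pos _
  have hμpos : 0 < (x : ℝ) / L ^ 2 * E := by positivity
  have hμ0 : 0 < ∑ n ∈ S, Wt π A n := lt_of_lt_of_le hμpos hμ
  have hch := cheb hL.nonneg hL.sum_one A S v hμ0
  have hdep := dep_le x W A S hAx (Finset.filter_subset _ _)
  have hmono : EA π A (ind {w | ∀ n ∈ Ioc x (2 * x), n ∉ Shifted w}) v ≤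
      EA π A (ind {w | ∀ n ∈ S, w ∉ Av' A n}) v := by
    apply EA_mono_on hL.nonneg
    intro w hw1 hw2
    apply ind_mono
    intro hw n hn hav
    have hnI : n ∈ Ioc x (2 * x) := (mem_filter.1 hn).1
    apply hw n hnI
    rw [mem_Ioc] at hnI
    refine ⟨by omega, fun p hp hpn hd => ?_⟩
    have hpT : p ∈ T := (hTmem p).2 ⟨hp, by omega⟩
    by_cases hpA : p ∈ A
    · exact hav p hpA (w p) (hw2 p hpA) hd rfl
    · have h7 := (mem_filter.1 hn).2 p (Finset.mem_sdiff.2 ⟨hpT, hpA⟩)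
      rw [hw1 p hpA] at hd
      exact h7 hd
  refine hmono.trans (hch.trans ?_)
  rw [div_le_iff₀ (by positivity)]
  have hexp2 : E ^ 2 * Real.exp (12 * C * t * Real.log (t / c₁)) = 1 := by
    rw [hE, ← Real.exp_nat_mul, ← Real.exp_add, Real.exp_eq_one_iff]
    push_cast
    ring
  calc (((S ×ˢ S).filter fun t => ∃ p ∈ A, hits p t.1 ∧ hits p t.2).card : ℝ)
      ≤ 72 * x ^ 2 / (W + 1) := hdep
    _ ≤ 72 * x ^ 2 / Real.exp y := by gcongr
    _ = 72 * x ^ 2 / Real.exp y * (E ^ 2 * Real.exp (12 * C * t * Real.log (t / c₁))) := by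
        rw [hexp2, mul_one]
    _ = (72 * (L ^ 4 * Real.exp (12 * C * t * Real.log (t / c₁)))) * ((x / L ^ 2 * E) ^ 2 / Real.exp y) := by
        field_simp
    _ ≤ (δ * Real.exp y) * ((x / L ^ 2 * E) ^ 2 / Real.exp y) := by gcongr
    _ = δ * (x / L ^ 2 * E) ^ 2 := by field_simp
    _ ≤ δ * (∑ n ∈ S, Wt π A n) ^ 2 := by gcongr

end Pool.Agent.Work.MP_b0c12c_nt_shift
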