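import Mathlib
import Pool.Agent.Work.MP_b0c12c_nt_shift.Interface

/-!
# Auxiliary lemmas for the main estimate (block M)
-/

set_option autoImplicit false

namespace Pool.Agent.Work.MP_b0c12c_nt_shift.MM

open Finset Filter

/-! ### basic facts about `AA` and `qq` -/

theorem mem_AA {κ : ℝ} {B z p0 p : ℕ} :
    p ∈ AA κ B z p0 ↔ p ≠ p0 ∧ (z ^ B < p ∧ p ≤ w1 κ z) ∧ p.Prime := by
  rw [AA, mem_erase, mem_filter, mem_Ioc]

theorem qq_dvd (z p0 : ℕ) : qq z p0 ∣ primorial z := by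
  unfold qq primorial
  apply prod_dvd_prod_of_subset
  intro p hp
  rw [mem_erase, mem_filter, mem_Icc] at hp
  rw [mem_filter, mem_range]
  exact ⟨by omega, hp.2.2⟩

theorem qq_squarefree (z p0 : ℕ) : Squarefree (qq z p0) :=
  (squarefree_primorial z).squarefree_of_dvd (qq_dvd z p0)

theorem qq_pos (z p0 : ℕ) : 0 < qq z p0 := by
  apply prod_pos
  intro p hp
  exact (mem_filter.1 (mem_of_mem_erase hp)).2.pos

theorem primeFactors_qq (z p0 : ℕ) : (qq z p0).primeFactors = ((Icc 1 z).filter Nat.Prime).erase p0 :=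
  Nat.primeFactors_prod fun _ hp => (mem_filter.1 (mem_of_mem_erase hp)).2

theorem dvd_qq_iff {z p0 p : ℕ} (hp : p.Prime) : p ∣ qq z p0 ↔ p ≤ z ∧ p ≠ p0 := by
  have h : p ∣ qq z p0 ↔ p ∈ (qq z p0).primeFactors := by
    rw [Nat.mem_primeFactors]
    have := (qq_pos z p0).ne'
    tauto
  rw [h, primeFactors_qq, mem_erase, mem_filter, mem_Icc]
  have := hp.one_lt
  constructor
  · rintro ⟨h1, ⟨_, h2⟩, _⟩; exact ⟨h2, h1⟩
  · rintro ⟨h1, h2⟩; exact ⟨h2, ⟨by omega, h1⟩, hp⟩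

/-! ### splitting `n = t m` -/

/-- the part of `n` composed of the primes in `P` -/
noncomputable def pt (P : Finset ℕ) (n : ℕ) : ℕ := ∏ p ∈ n.primeFactors with p ∈ P, p ^ n.factorization p

/-- the cofactor -/
noncomputable def cf (P : Finset ℕ) (n : ℕ) : ℕ := ∏ p ∈ n.primeFactors with p ∉ P, p ^ n.factorization p

theorem pt_mul_cf (P : Finset ℕ) {n : ℕ} (hn : n ≠ 0) : pt P n * cf P n = n := by
  unfold pt cf
  rw [prod_filter_mul_prod_filter_not]
  exact Nat.prod_factorization_pow_eq_self hn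

theorem pt_pos (P : Finset ℕ) (n : ℕ) : 0 < pt P n := by
  apply prod_pos
  intro p hp
  exact pow_pos (Nat.prime_of_mem_primeFactors (mem_filter.1 hp).1).pos _

theorem cf_pos (P : Finset ℕ) (n : ℕ) : 0 < cf P n := by
  apply prod_pos
  intro p hp
  exact pow_pos (Nat.prime_of_mem_primeFactors (mem_filter.1 hp).1).pos _

theorem prime_dvd_pt {P : Finset ℕ} {n p : ℕ} (hn : n ≠ 0) (hp : p.Prime) :
    p ∣ pt P n ↔ p ∣ n ∧ p ∈ P := by
  constructor
  · intro h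
    unfold pt at h
    rw [hp.prime.dvd_finsetProd_iff] at h
    obtain ⟨r, hr, hpr⟩ := h
    rw [mem_filter] at hr
    have h1 := hp.dvd_of_dvd_pow hpr
    have h2 := (Nat.prime_dvd_prime_iff_eq hp (Nat.prime_of_mem_primeFactors hr.1)).1 h1
    subst h2
    exact ⟨Nat.dvd_of_mem_primeFactors hr.1, hr.2⟩
  · rintro ⟨h1, h2⟩
    unfold pt
    have hmem : p ∈ n.primeFactors.filter (· ∈ P) := by
      rw [mem_filter, Nat.mem_primeFactors]
      exact ⟨⟨hp, h1, hn⟩, h2⟩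
    refine dvd_trans ?_ (dvd_prod_of_mem _ hmem)
    apply dvd_pow_self
    have := (hp.factorization_pos_of_dvd hn h1)
    omega

theorem prime_dvd_cf {P : Finset ℕ} {n p : ℕ} (hn : n ≠ 0) (hp : p.Prime) :
    p ∣ cf P n ↔ p ∣ n ∧ p ∉ P := by
  constructor
  · intro h
    unfold cf at h
    rw [hp.prime.dvd_finsetProd_iff] at h
    obtain ⟨r, hr, hpr⟩ := h
    rw [mem_filter] at hr
    have h1 := hp.dvd_of_dvd_pow hpr
    have h2 := (Nat.prime_dvd_prime_iff_eq hp (Nat.prime_of_mem_primeFactors hr.1)).1 h1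
    subst h2
    exact ⟨Nat.dvd_of_mem_primeFactors hr.1, hr.2⟩
  · rintro ⟨h1, h2⟩
    unfold cf
    have hmem : p ∈ n.primeFactors.filter (· ∉ P) := by
      rw [mem_filter, Nat.mem_primeFactors]
      exact ⟨⟨hp, h1, hn⟩, h2⟩
    refine dvd_trans ?_ (dvd_prod_of_mem _ hmem)
    apply dvd_pow_self
    have := (hp.factorization_pos_of_dvd hn h1)
    omega

theorem primeFactors_pt {P : Finset ℕ} {n : ℕ} (hn : n ≠ 0) : (pt P n).primeFactors ⊆ P := by
  intro p hp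
  rw [Nat.mem_primeFactors] at hp
  exact ((prime_dvd_pt hn hp.1).1 hp.2.1).2

/-- the part composed of primes in `P` is at most the smooth part if `P` has only small primes -/
theorem pt_le_sm {P : Finset ℕ} {W n : ℕ} (hP : ∀ p ∈ P, p ≤ W) : pt P n ≤ sm W n := by
  unfold pt sm
  apply prod_le_prod_of_subset_of_one_le'
  · intro p hp
    rw [mem_filter] at hp ⊢
    exact ⟨hp.1, hP p hp.2⟩
  · intro p hp _
    exact Nat.one_le_pow _ _ (Nat.prime_of_mem_primeFactors (mem_filter.1 hp).1).pos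

/-- the cofactor is `1` or a prime -/
theorem cf_prime {P : Finset ℕ} {x n : ℕ} (hn : n ≠ 0) (hn2 : n ≤ 2 * x)
    (h1 : ∀ p : ℕ, p.Prime → p ∣ n → p ∉ P → x < p * p)
    (h2 : ∀ b : ℕ, b.Prime → b ∣ n → x < b * b → 2 * x < b * b) :
    cf P n = 1 ∨ (cf P n).Prime := by
  by_cases hc : cf P n = 1
  · exact Or.inl hc
  right
  have hmp := Nat.minFac_prime hc
  have hmd := Nat.minFac_dvd (cf P n)
  have h3 := (prime_dvd_cf hn hmp).1 hmd
  have h4 := h2 _ hmp h3.1 (h1 _ hmp h3.1 h3.2)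
  by_contra hcon
  have h5 : (cf P n).minFac * (cf P n).minFac ≤ cf P n := by
    have := Nat.minFac_sq_le_self (cf_pos P n) hcon
    rwa [pow_two] at this
  have h6 : cf P n ≤ n := Nat.le_of_dvd (Nat.pos_of_ne_zero hn) ⟨pt P n, by
    rw [mul_comm]; exact (pt_mul_cf P hn).symm⟩
  omega

/-! ### the weights -/

variable {π : ℕ → ℤ → ℝ}

theorem gw_nonneg (hπ : ∀ p s, 0 ≤ π p s) (hs : ∀ p, π p (-1) + π p 0 + π p 1 = 1) (p n : ℕ) :
    0 ≤ gw π p n := by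
  unfold gw
  have h1 : ∑ s ∈ sgn, (if (p : ℤ) ∣ (n : ℤ) - s then π p s else 0) ≤ ∑ s ∈ sgn, π p s := by
    apply sum_le_sum
    intro s _
    split_ifs
    · exact le_rfl
    · exact hπ p s
  have h2 : ∑ s ∈ sgn, π p s = 1 := by
    rw [← hs p]
    simp [sgn, add_assoc]
  linarith

theorem gw_le_one (hπ : ∀ p s, 0 ≤ π p s) (p n : ℕ) : gw π p n ≤ 1 := by
  unfold gw
  have h1 : 0 ≤ ∑ s ∈ sgn, (if (p : ℤ) ∣ (n : ℤ) - s then π p s else 0) := by
    apply sum_nonneg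
    intro s _
    split_ifs
    · exact hπ p s
    · exact le_rfl
  linarith

theorem Wt_nonneg (hπ : ∀ p s, 0 ≤ π p s) (hs : ∀ p, π p (-1) + π p 0 + π p 1 = 1) (A : Finset ℕ)
    (n : ℕ) : 0 ≤ Wt π A n := prod_nonneg fun p _ => gw_nonneg hπ hs p n

theorem Wt_le_one (hπ : ∀ p s, 0 ≤ π p s) (hs : ∀ p, π p (-1) + π p 0 + π p 1 = 1) (A : Finset ℕ)
    (n : ℕ) : Wt π A n ≤ 1 := prod_le_one (fun p _ => gw_nonneg hπ hs p n) fun p _ => gw_le_one hπ p n

theorem gw_of_dvd (hs : ∀ p, π p (-1) + π p 0 + π p 1 = 1) {p n : ℕ} (hp : 2 ≤ p) (h : p ∣ n) :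
    gw π p n = ep π p := by
  have h0 : (p : ℤ) ∣ (n : ℤ) := by exact_mod_cast h
  have h1 : ¬ (p : ℤ) ∣ (n : ℤ) - 1 := by
    intro h2
    have h3 := dvd_sub h0 h2
    rw [sub_sub_cancel] at h3
    have := Int.le_of_dvd one_pos h3
    omega
  have h2 : ¬ (p : ℤ) ∣ (n : ℤ) - (-1) := by
    intro h2
    have h3 := dvd_sub h2 h0
    have h4 : (n : ℤ) - -1 - n = 1 := by ring
    rw [h4] at h3
    have := Int.le_of_dvd one_pos h3
    omega
  unfold gw ep sgn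
  rw [sum_insert (by decide), sum_insert (by decide), sum_singleton, if_neg h2, if_neg h1,
    if_pos (by simpa using h0)]
  linarith [hs p]

/-- the class `t⁻¹` modulo `p` -/
def ia (t p : ℕ) : ℕ := ((t : ZMod p)⁻¹).val

/-- the class `-t⁻¹` modulo `p` -/
def ib (t p : ℕ) : ℕ := (-(t : ZMod p)⁻¹).val

theorem eq_inv_iff' {F : Type*} [Field F] {a b : F} (hb : b ≠ 0) : a = b⁻¹ ↔ a * b = 1 := by
  constructor
  · rintro rfl
    exact inv_mul_cancel₀ hb
  · intro h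
    exact eq_inv_of_mul_eq_one_left h

theorem modEq_ia {t p m : ℕ} (hp : p.Prime) (ht : ¬ p ∣ t) :
    m ≡ ia t p [MOD p] ↔ (p : ℤ) ∣ ((t * m : ℕ) : ℤ) - 1 := by
  have : Fact p.Prime := ⟨hp⟩
  have ht' : (t : ZMod p) ≠ 0 := by rwa [Ne, ZMod.natCast_eq_zero_iff]
  rw [← ZMod.natCast_eq_natCast_iff, ia, ZMod.natCast_zmod_val,
    ← ZMod.intCast_zmod_eq_zero_iff_dvd]
  push_cast
  rw [sub_eq_zero, eq_inv_iff' ht', mul_comm]

theorem modEq_ib {t p m : ℕ} (hp : p.Prime) (ht : ¬ p ∣ t) :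
    m ≡ ib t p [MOD p] ↔ (p : ℤ) ∣ ((t * m : ℕ) : ℤ) - (-1) := by
  have : Fact p.Prime := ⟨hp⟩
  have ht' : (t : ZMod p) ≠ 0 := by rwa [Ne, ZMod.natCast_eq_zero_iff]
  rw [← ZMod.natCast_eq_natCast_iff, ib, ZMod.natCast_zmod_val,
    ← ZMod.intCast_zmod_eq_zero_iff_dvd]
  push_cast
  rw [sub_eq_zero, ← neg_eq_iff_eq_neg, eq_inv_iff' ht', neg_mul, neg_eq_iff_eq_neg,
    mul_comm]

theorem ia_coprime {t p : ℕ} (hp : p.Prime) (ht : ¬ p ∣ t) : (ia t p).Coprime p := by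
  have h := (modEq_ia (m := ia t p) hp ht).1 rfl
  rw [Nat.coprime_comm, hp.coprime_iff_not_dvd]
  intro h2
  have h3 : (p : ℤ) ∣ ((t * ia t p : ℕ) : ℤ) := by exact_mod_cast h2.mul_left t
  have h4 := dvd_sub h3 h
  rw [sub_sub_cancel] at h4
  have := Int.le_of_dvd one_pos h4
  have := hp.one_lt
  omega

theorem ib_coprime {t p : ℕ} (hp : p.Prime) (ht : ¬ p ∣ t) : (ib t p).Coprime p := by
  have h := (modEq_ib (m := ib t p) hp ht).1 rfl
  rw [Nat.coprime_comm, hp.coprime_iff_not_dvd]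
  intro h2
  have h3 : (p : ℤ) ∣ ((t * ib t p : ℕ) : ℤ) := by exact_mod_cast h2.mul_left t
  have h4 := dvd_sub h h3
  have h5 : ((t * ib t p : ℕ) : ℤ) - -1 - ((t * ib t p : ℕ) : ℤ) = 1 := by ring
  rw [h5] at h4
  have := Int.le_of_dvd one_pos h4
  have := hp.one_lt
  omega

theorem ia_ne_ib {t p : ℕ} (hp : p.Prime) (hp3 : 3 ≤ p) (ht : ¬ p ∣ t) :
    ¬ ia t p ≡ ib t p [MOD p] := by
  intro h
  have h1 := (modEq_ia (m := ia t p) hp ht).1 rfl
  have h2 := (modEq_ib (m := ia t p) hp ht).1 h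
  have h3 := dvd_sub h2 h1
  have h4 : ((t * ia t p : ℕ) : ℤ) - -1 - (((t * ia t p : ℕ) : ℤ) - 1) = 2 := by ring
  rw [h4] at h3
  have := Int.le_of_dvd two_pos h3
  omega

/-- the weight of `t m` at a prime `p` not dividing `t m` -/
theorem gw_of_not_dvd {p t m : ℕ} (hp : p.Prime) (ht : ¬ p ∣ t) (hm : ¬ p ∣ m) :
    gw π p (t * m) = 1 - (if m ≡ ia t p [MOD p] then π p 1 else 0) -
      (if m ≡ ib t p [MOD p] then π p (-1) else 0) := by
  have h0 : ¬ (p : ℤ) ∣ ((t * m : ℕ) : ℤ) - 0 := by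
    rw [sub_zero]
    intro h
    have h1 : p ∣ t * m := by exact_mod_cast h
    rcases hp.dvd_mul.1 h1 with h2 | h2
    · exact ht h2
    · exact hm h2
  unfold gw sgn
  rw [sum_insert (by decide), sum_insert (by decide), sum_singleton, if_neg h0]
  simp only [modEq_ia hp ht, modEq_ib hp ht]
  ring

/-- the weight of `t m` -/
theorem Wt_mul (hs : ∀ p, π p (-1) + π p 0 + π p 1 = 1) {A : Finset ℕ}
    (hA : ∀ p ∈ A, p.Prime) {t m : ℕ} (hm : ∀ p ∈ A, ¬ p ∣ m) :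
    Wt π A (t * m) = (∏ p ∈ A with p ∣ t, ep π p) *
      hw (fun p => π p 1) (fun p => π p (-1)) (ia t) (ib t) (A.filter fun p => ¬ p ∣ t) m := by
  unfold Wt hw
  rw [← prod_filter_mul_prod_filter_not A (fun p => p ∣ t)]
  congr 1
  · apply prod_congr rfl
    intro p hp
    rw [mem_filter] at hp
    exact gw_of_dvd hs (hA p hp.1).two_le (hp.2.mul_right m)
  · apply prod_congr rfl
    intro p hp
    rw [mem_filter] at hp
    exact gw_of_not_dvd (hA p hp.1) hp.2 (hm p hp.1)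

/-- the smooth weight -/
theorem ft_eq (e : ℕ → ℝ) (A : Finset ℕ) (t : ℕ) : ft e A t = (∏ p ∈ A with p ∣ t, e p) *
    ∏ p ∈ A with ¬ p ∣ t, (1 - e p / ((p : ℝ) - 1)) := by
  unfold ft
  rw [prod_ite]

end Pool.Agent.Work.MP_b0c12c_nt_shift.MM
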