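import Mathlib
import Pool.Agent.Work.MP_b0c12c_nt_shift.MAux

/-!
# The contribution of one smooth part `t` (block M)
-/

set_option autoImplicit false

namespace Pool.Agent.Work.MP_b0c12c_nt_shift.MM

open Finset Filter

variable {π : ℕ → ℤ → ℝ}

theorem hw_nonneg {al be : ℕ → ℝ} {ra rb : ℕ → ℕ} {A : Finset ℕ} {z p0 W : ℕ}
    (h : HOk al be ra rb A z p0 W) (m : ℕ) : 0 ≤ hw al be ra rb A m := by
  apply prod_nonneg
  intro p hp
  obtain ⟨_, _, _, _, h1, h2, h3, _, _, h4⟩ := h.1 p hp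
  split_ifs with h5 h6
  · exact absurd (h5.symm.trans h6) h4
  · linarith
  · linarith
  · linarith

theorem per_t (hπ : ∀ p s, 0 ≤ π p s) (hs : ∀ p, π p (-1) + π p 0 + π p 1 = 1) {κ : ℝ}
    {z p0 x : ℕ} {A : Finset ℕ}
    (hA : ∀ p ∈ A, p.Prime ∧ 3 ≤ p ∧ z < p ∧ p ≤ w1 κ z ∧ p ≠ p0 ∧ p * p ≤ x)
    (hsum : ∑ p ∈ A, (π p 1 + π p (-1)) / ((p : ℝ) - 1) ≤ Real.log z / 20)
    {Q : ℕ} (hQ0 : 0 < Q) {c : ℕ} {ε : ℝ} {L' : ℝ} (hL' : 0 < L')
    {t : ℕ} (ht : 0 < t) (htL : L' ≤ Real.log ((x : ℝ) / t))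
    (hM1 : ∀ (al be : ℕ → ℝ) (ra rb : ℕ → ℕ) (A' : Finset ℕ),
      HOk al be ra rb A' z p0 (w1 κ z) →
      ∑ p ∈ (Ioc ⌊(x : ℝ) / t⌋₊ ⌊2 * ((x : ℝ) / t)⌋₊).filter (fun p => p.Prime ∧ p ≡ c [MOD Q]),
        Real.log p * hw al be ra rb A' p ≤ (1 + ε) * ((x : ℝ) / t) * hV al be A' / Q.totient)
    (M : Finset ℕ)
    (hM : ∀ m ∈ M, m.Prime ∧ m ≡ c [MOD Q] ∧ x < t * m ∧ t * m ≤ 2 * x ∧ x < m * m) :
    ∑ m ∈ M, Wt π A (t * m) ≤ (1 + ε) * ((x : ℝ) / t) * ft (ep π) A t / (Q.totient * L') := by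
  have ht0 : (0 : ℝ) < t := by exact_mod_cast ht
  set A' : Finset ℕ := A.filter fun p => ¬ p ∣ t with hA'
  set c0 : ℝ := ∏ p ∈ A with p ∣ t, ep π p with hc0
  have hep0 : ∀ p, 0 ≤ ep π p := fun p => add_nonneg (hπ _ _) (hπ _ _)
  have hc00 : 0 ≤ c0 := prod_nonneg fun p _ => hep0 p
  have hφ : (0 : ℝ) < Q.totient := by exact_mod_cast Nat.totient_pos.2 hQ0
  have hOk : HOk (fun p => π p 1) (fun p => π p (-1)) (ia t) (ib t) A' z p0 (w1 κ z) := by
    refine ⟨fun p hp => ?_, ?_⟩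
    · rw [hA', mem_filter] at hp
      obtain ⟨h1, h2, h3, h4, h5, h6⟩ := hA p hp.1
      refine ⟨h1, h3, h4, h5, hπ _ _, hπ _ _, ?_, ia_coprime h1 hp.2, ib_coprime h1 hp.2,
        ia_ne_ib h1 h2 hp.2⟩
      have := hs p
      have := hπ p 0
      linarith
    · refine le_trans (sum_le_sum_of_subset_of_nonneg (filter_subset _ _) fun p hp _ => ?_) hsum
      apply div_nonneg (hep0 p)
      have : (3 : ℝ) ≤ p := by exact_mod_cast (hA p hp).2.1
      linarith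
  have hm1 := hM1 _ _ _ _ _ hOk
  set F := (Ioc ⌊(x : ℝ) / t⌋₊ ⌊2 * ((x : ℝ) / t)⌋₊).filter (fun p => p.Prime ∧ p ≡ c [MOD Q])
    with hF
  have hsub : M ⊆ F := by
    intro m hm
    obtain ⟨h1, h2, h3, h4, h5⟩ := hM m hm
    rw [hF, mem_filter, mem_Ioc]
    refine ⟨⟨?_, ?_⟩, h1, h2⟩
    · rw [Nat.floor_lt (by positivity), div_lt_iff₀ ht0]
      have : ((x : ℕ) : ℝ) < ((t * m : ℕ) : ℝ) := by exact_mod_cast h3
      push_cast at this
      linarith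
    · apply Nat.le_floor
      rw [mul_div_assoc', le_div_iff₀ ht0]
      have : ((t * m : ℕ) : ℝ) ≤ ((2 * x : ℕ) : ℝ) := by exact_mod_cast h4
      push_cast at this
      linarith
  have hW : ∀ m ∈ M, Wt π A (t * m) = c0 * hw (fun p => π p 1) (fun p => π p (-1)) (ia t) (ib t) A' m := by
    intro m hm
    obtain ⟨h1, h2, h3, h4, h5⟩ := hM m hm
    apply Wt_mul hs (fun p hp => (hA p hp).1)
    intro p hp hpm
    have h6 := (Nat.prime_dvd_prime_iff_eq (hA p hp).1 h1).1 hpm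
    have h7 := (hA p hp).2.2.2.2.2
    rw [h6] at h7
    omega
  have hlog : ∀ m ∈ M, L' ≤ Real.log m := by
    intro m hm
    obtain ⟨h1, h2, h3, h4, h5⟩ := hM m hm
    refine htL.trans ?_
    have hx0 : 0 < x := by
      rcases Nat.eq_zero_or_pos x with h | h
      · rw [h] at h4
        have := Nat.mul_pos ht h1.pos
        omega
      · exact h
    have hx0' : (0 : ℝ) < x := by exact_mod_cast hx0
    apply Real.log_le_log (by positivity)
    rw [div_le_iff₀ ht0]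
    have : ((x : ℕ) : ℝ) < ((t * m : ℕ) : ℝ) := by exact_mod_cast h3
    push_cast at this
    linarith
  have h1 : L' * ∑ m ∈ M, hw (fun p => π p 1) (fun p => π p (-1)) (ia t) (ib t) A' m ≤
      (1 + ε) * ((x : ℝ) / t) * hV (fun p => π p 1) (fun p => π p (-1)) A' / Q.totient := by
    rw [mul_sum]
    refine le_trans (sum_le_sum fun m hm => ?_) (le_trans
      (sum_le_sum_of_subset_of_nonneg hsub fun m hm _ => ?_) hm1)
    · exact mul_le_mul_of_nonneg_right (hlog m hm) (hw_nonneg hOk m)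
    · exact mul_nonneg (Real.log_natCast_nonneg m) (hw_nonneg hOk m)
  have hft : ft (ep π) A t = c0 * hV (fun p => π p 1) (fun p => π p (-1)) A' := by
    rw [ft_eq]
    rfl
  rw [sum_congr rfl hW, ← mul_sum, hft, le_div_iff₀ (by positivity)]
  rw [le_div_iff₀ hφ] at h1
  calc c0 * (∑ m ∈ M, hw (fun p => π p 1) (fun p => π p (-1)) (ia t) (ib t) A' m) *
        ((Q.totient : ℝ) * L')
      = c0 * (L' * (∑ m ∈ M, hw (fun p => π p 1) (fun p => π p (-1)) (ia t) (ib t) A' m) *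
        Q.totient) := by ring
    _ ≤ c0 * ((1 + ε) * ((x : ℝ) / t) * hV (fun p => π p 1) (fun p => π p (-1)) A') :=
        mul_le_mul_of_nonneg_left h1 hc00
    _ = _ := by ring

end Pool.Agent.Work.MP_b0c12c_nt_shift.MM
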