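import Mathlib
import Pool.Agent.Work.MP_b0c12c_nt_shift.MPer

/-!
# Sum over the smooth parts (block M)
-/

set_option autoImplicit false

namespace Pool.Agent.Work.MP_b0c12c_nt_shift.MM

open Finset Filter

variable {π : ℕ → ℤ → ℝ}

/-- the small primes allowed to divide `n` -/
def Ps (z p0 g : ℕ) : Finset ℕ := (Icc 1 z).filter fun p => p.Prime ∧ (p ∣ g ∨ p = p0)

theorem mem_Ps {z p0 g p : ℕ} : p ∈ Ps z p0 g ↔ p.Prime ∧ p ≤ z ∧ (p ∣ g ∨ p = p0) := by
  rw [Ps, mem_filter, mem_Icc]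
  constructor
  · rintro ⟨⟨_, h1⟩, h2, h3⟩; exact ⟨h2, h1, h3⟩
  · rintro ⟨h1, h2, h3⟩; exact ⟨⟨h1.one_lt.le, h2⟩, h1, h3⟩

theorem one_sub_inv_pos {p : ℕ} (hp : p.Prime) : 0 < 1 - 1 / (p : ℝ) := by
  have : (2 : ℝ) ≤ p := by exact_mod_cast hp.two_le
  have h2 : 1 / (p : ℝ) < 1 := by rw [div_lt_one (by linarith)]; linarith
  linarith

/-- product over the allowed small primes -/
theorem prod_Ps {z p0 g K : ℕ} (hg0 : 0 < g) (hK : 2 ≤ K) (hp0 : p0 = 0 ∨ (p0.Prime ∧ K < p0)) :
    (∏ p ∈ Ps z p0 g, (1 - 1 / (p : ℝ))⁻¹) / g ≤ (1 - 1 / (K : ℝ))⁻¹ / g.totient := by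
  have hKr : (2 : ℝ) ≤ K := by exact_mod_cast hK
  have hKi : 1 / (K : ℝ) < 1 := by rw [div_lt_one (by linarith)]; linarith
  have hgr : (0 : ℝ) < g := by exact_mod_cast hg0
  have hφ : (0 : ℝ) < g.totient := by exact_mod_cast Nat.totient_pos.2 hg0
  have h1 : (g.totient : ℝ) = g * ∏ p ∈ g.primeFactors, (1 - 1 / (p : ℝ)) := by
    have h := Nat.totient_eq_mul_prod_factors g
    have : ((g.totient : ℚ) : ℝ) = ((g * ∏ p ∈ g.primeFactors, (1 - (p : ℚ)⁻¹) : ℚ) : ℝ) := by
      rw [h]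
    push_cast at this
    rw [this]
    congr 1
    apply prod_congr rfl
    intro p _
    rw [one_div]
  have h2 : ∏ p ∈ g.primeFactors, (1 - 1 / (p : ℝ))⁻¹ = g / g.totient := by
    rw [prod_inv_distrib, h1]
    have : (∏ p ∈ g.primeFactors, (1 - 1 / (p : ℝ))) ≠ 0 := by
      apply (prod_pos _).ne'
      intro p hp
      exact one_sub_inv_pos (Nat.prime_of_mem_primeFactors hp)
    field_simp
  have hge : ∀ p : ℕ, p.Prime → 1 ≤ (1 - 1 / (p : ℝ))⁻¹ := by
    intro p hp
    apply (one_le_inv₀ (one_sub_inv_pos hp)).2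
    have : 0 ≤ 1 / (p : ℝ) := by positivity
    linarith
  have h3 : ∏ p ∈ Ps z p0 g, (1 - 1 / (p : ℝ))⁻¹ ≤ (g / g.totient) * (1 - 1 / (K : ℝ))⁻¹ := by
    rcases hp0 with h | ⟨h, h'⟩
    · have hsub : Ps z p0 g ⊆ g.primeFactors := by
        intro p hp
        rw [mem_Ps] at hp
        rw [Nat.mem_primeFactors]
        refine ⟨hp.1, ?_, hg0.ne'⟩
        rcases hp.2.2 with h4 | h4
        · exact h4
        · rw [h4, h] at hp
          exact absurd hp.1 Nat.not_prime_zero
      have h4 : ∏ p ∈ Ps z p0 g, (1 - 1 / (p : ℝ))⁻¹ ≤ g / g.totient := by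
        rw [← h2]
        apply prod_le_prod_of_subset_of_one_le hsub
        · intro p hp
          exact (inv_pos.2 (one_sub_inv_pos (mem_Ps.1 hp).1)).le
        · intro p hp _
          exact hge p (Nat.prime_of_mem_primeFactors hp)
      have h5 : 1 ≤ (1 - 1 / (K : ℝ))⁻¹ := by
        apply (one_le_inv₀ (by linarith)).2
        have : 0 ≤ 1 / (K : ℝ) := by positivity
        linarith
      have h6 : (0 : ℝ) ≤ g / g.totient := by positivity
      nlinarith
    · have hsub : Ps z p0 g ⊆ insert p0 g.primeFactors := by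
        intro p hp
        rw [mem_Ps] at hp
        rw [mem_insert, Nat.mem_primeFactors]
        rcases hp.2.2 with h4 | h4
        · exact Or.inr ⟨hp.1, h4, hg0.ne'⟩
        · exact Or.inl h4
      have h4 : ∏ p ∈ Ps z p0 g, (1 - 1 / (p : ℝ))⁻¹ ≤
          ∏ p ∈ insert p0 g.primeFactors, (1 - 1 / (p : ℝ))⁻¹ := by
        apply prod_le_prod_of_subset_of_one_le hsub
        · intro p hp
          exact (inv_pos.2 (one_sub_inv_pos (mem_Ps.1 hp).1)).le
        · intro p hp _
          rw [mem_insert] at hp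
          rcases hp with h5 | h5
          · rw [h5]; exact hge p0 h
          · exact hge p (Nat.prime_of_mem_primeFactors h5)
      have h5 : ∏ p ∈ insert p0 g.primeFactors, (1 - 1 / (p : ℝ))⁻¹ ≤
          (1 - 1 / (p0 : ℝ))⁻¹ * (g / g.totient) := by
        by_cases h6 : p0 ∈ g.primeFactors
        · rw [insert_eq_of_mem h6, h2]
          have h7 : (0 : ℝ) ≤ g / g.totient := by positivity
          have := hge p0 h
          nlinarith
        · rw [prod_insert h6, h2]
      have h6 : (1 - 1 / (p0 : ℝ))⁻¹ ≤ (1 - 1 / (K : ℝ))⁻¹ := by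
        apply inv_anti₀ (by linarith)
        have : 1 / (p0 : ℝ) ≤ 1 / K := by
          apply one_div_le_one_div_of_le (by linarith)
          exact_mod_cast h'.le
        linarith
      have h7 : (0 : ℝ) ≤ g / g.totient := by positivity
      nlinarith
  rw [div_le_div_iff₀ hgr hφ]
  calc (∏ p ∈ Ps z p0 g, (1 - 1 / (p : ℝ))⁻¹) * g.totient
      ≤ ((g / g.totient) * (1 - 1 / (K : ℝ))⁻¹) * g.totient :=
        mul_le_mul_of_nonneg_right h3 hφ.le
    _ = _ := by field_simp

theorem totient_split {q g : ℕ} (hq : Squarefree q) (hg : g ∣ q) (hq0 : 0 < q) :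
    (q.totient : ℝ) = g.totient * (q / g).totient := by
  have h1 : g * (q / g) = q := Nat.mul_div_cancel' hg
  have h2 : g.Coprime (q / g) := by
    rw [← h1] at hq
    exact Nat.coprime_of_squarefree_mul hq
  have h3 := Nat.totient_mul h2
  rw [h1] at h3
  exact_mod_cast h3

end Pool.Agent.Work.MP_b0c12c_nt_shift.MM
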