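import Mathlib
import Pool.Agent.Work.MP_b0c12c_nt_shift.MSum

/-!
# The main sum (block M)
-/

set_option autoImplicit false

namespace Pool.Agent.Work.MP_b0c12c_nt_shift.MM

open Finset Filter

variable {π : ℕ → ℤ → ℝ}

theorem gcd_pt {q t n a : ℕ} (hn : n ≡ a [MOD q]) (htn : t ∣ n) (hg : a.gcd q ∣ t) :
    q.gcd t = a.gcd q := by
  apply Nat.dvd_antisymm
  · apply Nat.dvd_gcd
    · have h1 : q.gcd t ∣ n := (Nat.gcd_dvd_right q t).trans htn
      have h2 : q.gcd t ∣ q := Nat.gcd_dvd_left q t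
      exact ((hn.of_dvd h2).dvd_iff dvd_rfl).1 h1
    · exact Nat.gcd_dvd_left q t
  · exact Nat.dvd_gcd (Nat.gcd_dvd_right a q) hg

theorem m_core (hTS : Stmt_TS) (hπ : ∀ p s, 0 ≤ π p s) (hs : ∀ p, π p (-1) + π p 0 + π p 1 = 1)
    {κ : ℝ} {z p0 K x a : ℕ} {A : Finset ℕ} {v : ℕ → ℤ} (hK : 2 ≤ K)
    (hp0 : p0 = 0 ∨ (p0.Prime ∧ K < p0))
    (hA : ∀ p ∈ A, p.Prime ∧ 3 ≤ p ∧ z < p ∧ p ≤ w1 κ z ∧ p ≠ p0 ∧ p * p ≤ x)
    (hsum : ∑ p ∈ A, (π p 1 + π p (-1)) / ((p : ℝ) - 1) ≤ Real.log z / 20)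
    {ε L' S0 : ℝ} (hε : 0 ≤ ε) (hL' : 0 < L') (hS0 : S0 < x) (hzW : z ≤ w1 κ z)
    (hzx : z * z ≤ x)
    (hlog : ∀ t : ℕ, 0 < t → (t : ℝ) ≤ S0 → L' ≤ Real.log ((x : ℝ) / t))
    (hM1 : ∀ t : ℕ, 0 < t → (t : ℝ) ≤ S0 → ∀ Q : ℕ, Q ∣ primorial z → ¬ p0 ∣ Q →
      ∀ c : ℕ, c.Coprime Q → ∀ (al be : ℕ → ℝ) (ra rb : ℕ → ℕ) (A' : Finset ℕ),
      HOk al be ra rb A' z p0 (w1 κ z) →
      ∑ p ∈ (Ioc ⌊(x : ℝ) / t⌋₊ ⌊2 * ((x : ℝ) / t)⌋₊).filter (fun p => p.Prime ∧ p ≡ c [MOD Q]),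
        Real.log p * hw al be ra rb A' p ≤ (1 + ε) * ((x : ℝ) / t) * hV al be A' / Q.totient)
    (S : Finset ℕ)
    (hS : ∀ n ∈ S, n ∈ Ioc x (2 * x) ∧ n ≡ a [MOD qq z p0] ∧ SurvF v A x n ∧
      (∀ b : ℕ, b.Prime → b ∣ n → ¬ (b ∈ MV v A z x ∨ (x < b * b ∧ b * b ≤ 2 * x))) ∧
      (sm (w1 κ z) n : ℝ) ≤ S0) :
    ∑ n ∈ S, Wt π A n ≤ (1 + ε) * (1 - 1 / (K : ℝ))⁻¹ * x / ((qq z p0).totient * L') := by
  classical
  set q := qq z p0 with hq
  set g0 := a.gcd q with hg0
  have hq0 : 0 < q := qq_pos z p0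
  have hqsq : Squarefree q := qq_squarefree z p0
  have hqd : q ∣ primorial z := qq_dvd z p0
  have hg0d : g0 ∣ q := Nat.gcd_dvd_right a q
  have hg0p : 0 < g0 := Nat.pos_of_dvd_of_pos hg0d hq0
  have hg0sq : Squarefree g0 := hqsq.squarefree_of_dvd hg0d
  set P := Ps z p0 g0 with hP
  set Q := q / g0 with hQ
  have hQd : Q ∣ q := Nat.div_dvd_of_dvd hg0d
  have hQ0 : 0 < Q := Nat.pos_of_dvd_of_pos hQd hq0
  have hp0q : ¬ p0 ∣ q := by
    rcases hp0 with h | ⟨h, _⟩
    · rw [h, Nat.zero_dvd]; exact hq0.ne'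
    · intro h2
      exact ((dvd_qq_iff h).1 h2).2 rfl
  have hp0Q : ¬ p0 ∣ Q := fun h => hp0q (h.trans hQd)
  set PP := A ∪ P with hPP
  -- primes dividing the members of `S`
  have hprime : ∀ n ∈ S, ∀ p : ℕ, p.Prime → p ∣ n → p ∉ PP → x < p * p := by
    intro n hn p hp hpn hpP
    obtain ⟨h1, h2, h3, h4, h5⟩ := hS n hn
    by_contra hcon
    rw [not_lt] at hcon
    rw [hPP, mem_union, not_or] at hpP
    have h6 := h3 p hp hcon hpP.1
    have hv : v p ≠ 0 := by
      intro h7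
      rw [h7, sub_zero] at h6
      exact h6 (by exact_mod_cast hpn)
    rcases le_or_gt p z with h7 | h7
    · apply hpP.2
      rw [hP, mem_Ps]
      refine ⟨hp, h7, ?_⟩
      by_cases h8 : p = p0
      · exact Or.inr h8
      · left
        have h9 : p ∣ q := (dvd_qq_iff hp).2 ⟨h7, h8⟩
        exact Nat.dvd_gcd (((h2.of_dvd h9).dvd_iff dvd_rfl).1 hpn) h9
    · apply h4 p hp hpn
      left
      unfold MV
      refine Finset.mem_sdiff.2 ⟨?_, hpP.1⟩
      rw [mem_filter, mem_Ioc]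
      exact ⟨⟨h7, Nat.le_sqrt.2 hcon⟩, hp, hv⟩
  have hn0 : ∀ n ∈ S, n ≠ 0 := by
    intro n hn
    have := (mem_Ioc.1 (hS n hn).1).1
    omega
  have hPW : ∀ p ∈ PP, p ≤ w1 κ z := by
    intro p hp
    rw [hPP, mem_union] at hp
    rcases hp with h | h
    · exact (hA p h).2.2.2.1
    · exact (mem_Ps.1 h).2.1.trans hzW
  -- the cofactor
  have hcf : ∀ n ∈ S, (cf PP n).Prime ∧ x < cf PP n * cf PP n := by
    intro n hn
    obtain ⟨h1, h2, h3, h4, h5⟩ := hS n hn
    rw [mem_Ioc] at h1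
    have h6 := cf_prime (P := PP) (hn0 n hn) h1.2 (hprime n hn) (by
      intro b hb hbn hxb
      by_contra hcon
      rw [not_lt] at hcon
      exact h4 b hb hbn (Or.inr ⟨hxb, hcon⟩))
    rcases h6 with h6 | h6
    · exfalso
      have h7 := pt_mul_cf PP (hn0 n hn)
      rw [h6, mul_one] at h7
      have h8 : pt PP n ≤ sm (w1 κ z) n := pt_le_sm hPW
      rw [h7] at h8
      have h9 : (n : ℝ) ≤ sm (w1 κ z) n := by exact_mod_cast h8
      have h10 : (x : ℝ) < n := by exact_mod_cast h1.1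
      linarith
    · refine ⟨h6, ?_⟩
      have h7 := (prime_dvd_cf (hn0 n hn) h6).1 dvd_rfl
      exact hprime n hn _ h6 h7.1 h7.2
  set T : Finset ℕ := (Icc 1 ⌊S0⌋₊).filter fun t => g0 ∣ t ∧ t.primeFactors ⊆ PP with hT
  have hmaps : ∀ n ∈ S, pt PP n ∈ T := by
    intro n hn
    obtain ⟨h1, h2, h3, h4, h5⟩ := hS n hn
    rw [hT, mem_filter, mem_Icc]
    refine ⟨⟨pt_pos PP n, ?_⟩, ?_, primeFactors_pt (hn0 n hn)⟩
    · apply Nat.le_floor
      refine le_trans ?_ h5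
      exact_mod_cast pt_le_sm hPW
    · rw [← Nat.prod_primeFactors_of_squarefree hg0sq]
      apply prod_primes_dvd
      · intro p hp
        exact (Nat.prime_of_mem_primeFactors hp).prime
      · intro p hp
        have hp' := Nat.prime_of_mem_primeFactors hp
        have hpg : p ∣ g0 := Nat.dvd_of_mem_primeFactors hp
        rw [prime_dvd_pt (hn0 n hn) hp']
        refine ⟨((h2.of_dvd (hpg.trans hg0d)).dvd_iff dvd_rfl).2
          (hpg.trans (Nat.gcd_dvd_left a q)), ?_⟩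
        rw [hPP, mem_union]
        right
        rw [hP, mem_Ps]
        exact ⟨hp', (hp'.dvd_primorial_iff).1 ((hpg.trans hg0d).trans hqd), Or.inl hpg⟩
  have hTpos : ∀ t ∈ T, 0 < t ∧ (t : ℝ) ≤ S0 := by
    intro t ht
    rw [hT, mem_filter, mem_Icc] at ht
    refine ⟨ht.1.1, ?_⟩
    have h1 : (0 : ℝ) ≤ S0 := by
      by_contra hcon
      rw [Nat.floor_of_nonpos (by linarith)] at ht
      omega
    exact (Nat.le_floor_iff h1).1 ht.1.2
  -- one fibre
  have hfib : ∀ t ∈ T, ∑ n ∈ S with pt PP n = t, Wt π A n ≤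
      (1 + ε) * ((x : ℝ) / t) * ft (ep π) A t / (Q.totient * L') := by
    intro t ht
    obtain ⟨ht0, htS⟩ := hTpos t ht
    have ht0' : (0 : ℝ) < t := by exact_mod_cast ht0
    have hφQ : (0 : ℝ) < Q.totient := by exact_mod_cast Nat.totient_pos.2 hQ0
    by_cases hemp : (S.filter fun n => pt PP n = t).Nonempty
    · obtain ⟨n0, hn0'⟩ := hemp
      rw [mem_filter] at hn0'
      obtain ⟨hn0S, hn0t⟩ := hn0'
      set c := cf PP n0 with hc
      have hcp : c.Prime ∧ x < c * c := hcf n0 hn0S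
      have hzc : z < c := by
        by_contra hcon
        rw [not_lt] at hcon
        have : c * c ≤ z * z := Nat.mul_le_mul hcon hcon
        have := hcp.2
        omega
      have hcQ : c.Coprime Q := by
        rw [hcp.1.coprime_iff_not_dvd]
        intro h
        have := (hcp.1.dvd_primorial_iff).1 ((h.trans hQd).trans hqd)
        omega
      have hgt : g0 ∣ t := by
        rw [hT, mem_filter] at ht
        exact ht.2.1
      have hsumeq : ∑ n ∈ S with pt PP n = t, Wt π A n =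
          ∑ m ∈ (S.filter fun n => pt PP n = t).image (cf PP), Wt π A (t * m) := by
        rw [sum_image]
        · apply sum_congr rfl
          intro n hn
          rw [mem_filter] at hn
          rw [← hn.2, pt_mul_cf PP (hn0 n hn.1)]
        · intro n hn n' hn' hnn
          simp only [coe_filter, Set.mem_ofPred_eq] at hn hn'
          rw [← pt_mul_cf PP (hn0 n hn.1), ← pt_mul_cf PP (hn0 n' hn'.1), hn.2, hn'.2, hnn]
      rw [hsumeq]
      apply per_t hπ hs hA hsum hQ0 hL' ht0 (hlog t ht0 htS)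
        (hM1 t ht0 htS Q (hQd.trans hqd) hp0Q c hcQ)
      intro m hm
      rw [mem_image] at hm
      obtain ⟨n, hn, rfl⟩ := hm
      rw [mem_filter] at hn
      have hcn := hcf n hn.1
      obtain ⟨h1, h2, h3, h4, h5⟩ := hS n hn.1
      have h6 : t * cf PP n = n := by rw [← hn.2, pt_mul_cf PP (hn0 n hn.1)]
      have h7 : t * c = n0 := by rw [← hn0t, hc, pt_mul_cf PP (hn0 n0 hn0S)]
      have h8 : t * cf PP n ≡ t * c [MOD q] := by
        rw [h6, h7]
        exact h2.trans (hS n0 hn0S).2.1.symm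
      have h9 := Nat.ModEq.cancel_left_div_gcd hq0 h8
      have h10 : q.gcd t = g0 := gcd_pt h2 ⟨cf PP n, h6.symm⟩ hgt
      rw [h10] at h9
      rw [mem_Ioc] at h1
      exact ⟨hcn.1, h9, by rw [h6]; exact h1.1, by rw [h6]; exact h1.2, hcn.2⟩
    · rw [not_nonempty_iff_eq_empty] at hemp
      rw [hemp, sum_empty]
      have hft0 : 0 ≤ ft (ep π) A t := by
        unfold ft
        apply prod_nonneg
        intro p hp
        have hep0 : 0 ≤ ep π p := add_nonneg (hπ _ _) (hπ _ _)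
        split_ifs
        · exact hep0
        · have h3 : (3 : ℝ) ≤ p := by exact_mod_cast (hA p hp).2.1
          have h4 : ep π p ≤ 1 := by
            unfold ep
            have := hs p
            have := hπ p 0
            linarith
          have h5 : ep π p / ((p : ℝ) - 1) ≤ 1 := by
            rw [div_le_one (by linarith)]
            linarith
          linarith
      have hx0 : (0 : ℝ) ≤ x := Nat.cast_nonneg x
      positivity
  -- the total
  have hfibsum : ∑ n ∈ S, Wt π A n = ∑ t ∈ T, ∑ n ∈ S with pt PP n = t, Wt π A n :=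
    (sum_fiberwise_of_maps_to hmaps _).symm
  rw [hfibsum]
  refine (sum_le_sum hfib).trans ?_
  have hts := hTS A P (ep π) g0 T (by
      rw [Finset.disjoint_left]
      intro p hp hp'
      have h1 := (hA p hp).2.2.1
      have h2 := (mem_Ps.1 hp').2.1
      omega) (by
      intro p hp
      refine ⟨(hA p hp).1, (hA p hp).2.1, add_nonneg (hπ _ _) (hπ _ _), ?_⟩
      unfold ep
      have := hs p
      have := hπ p 0
      linarith) (fun p hp => (mem_Ps.1 hp).1) hg0sq (by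
      intro p hp
      have hp' := Nat.prime_of_mem_primeFactors hp
      have hpg : p ∣ g0 := Nat.dvd_of_mem_primeFactors hp
      rw [hP, mem_Ps]
      exact ⟨hp', (hp'.dvd_primorial_iff).1 ((hpg.trans hg0d).trans hqd), Or.inl hpg⟩) (by
      intro t ht
      have h1 := (hTpos t ht).1
      rw [hT, mem_filter] at ht
      exact ⟨h1.ne', ht.2.1, ht.2.2⟩)
  have hps := prod_Ps (z := z) hg0p hK hp0
  have hφQ : (0 : ℝ) < Q.totient := by exact_mod_cast Nat.totient_pos.2 hQ0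
  have hφg : (0 : ℝ) < g0.totient := by exact_mod_cast Nat.totient_pos.2 hg0p
  have hsplit := totient_split hqsq hg0d hq0
  have hx0 : (0 : ℝ) ≤ x := Nat.cast_nonneg x
  have h1 : ∀ t ∈ T, (1 + ε) * ((x : ℝ) / t) * ft (ep π) A t / (Q.totient * L') =
      ((1 + ε) * x / (Q.totient * L')) * (ft (ep π) A t / t) := by
    intro t ht
    have := (hTpos t ht).1
    have ht0' : (t : ℝ) ≠ 0 := by exact_mod_cast this.ne'
    field_simp
  rw [sum_congr rfl h1, ← mul_sum]
  calc ((1 + ε) * x / (Q.totient * L')) * ∑ t ∈ T, ft (ep π) A t / t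
      ≤ ((1 + ε) * x / (Q.totient * L')) * ((1 - 1 / (K : ℝ))⁻¹ / g0.totient) :=
        mul_le_mul_of_nonneg_left (hts.trans hps) (by positivity)
    _ = (1 + ε) * (1 - 1 / (K : ℝ))⁻¹ * x / (q.totient * L') := by
        rw [hsplit]
        have hne1 : (Q.totient : ℝ) ≠ 0 := hφQ.ne'
        have hne2 : (g0.totient : ℝ) ≠ 0 := hφg.ne'
        rw [← hQ]
        field_simp

end Pool.Agent.Work.MP_b0c12c_nt_shift.MM
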