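import Mathlib
import Pool.Agent.Work.MP_b0c12c_nt_shift.MCore

/-!
# Block M: the mean of the survival probability in one class
-/

set_option autoImplicit false

namespace Pool.Agent.Work.MP_b0c12c_nt_shift

open Finset Filter
open MM

theorem loglog_pos {p : ℕ} (hp : 16 ≤ p) : 0 < Real.log (Real.log p) := by
  apply Real.log_pos
  rw [Real.lt_log_iff_exp_lt (by positivity)]
  have h1 : Real.exp 1 < 3 := lt_trans Real.exp_one_lt_d9 (by norm_num)
  have h2 : (16 : ℝ) ≤ p := by exact_mod_cast hp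
  linarith

/-- the total mass of the random shifts is small against `log z` -/
theorem mass_le {π : ℕ → ℤ → ℝ} {c₂ : ℝ} {A : Finset ℕ} {z : ℕ} (hz : 16 ≤ z)
    (hA : ∀ p ∈ A, z < p ∧ π p 1 ≤ c₂ / Real.log (Real.log p) ∧
      π p (-1) ≤ c₂ / Real.log (Real.log p))
    (h : ∑ p ∈ A, 1 / ((p : ℝ) * Real.log (Real.log p)) ≤ 1 / (80 * (|c₂| + 1)) * Real.log z) :
    ∑ p ∈ A, (π p 1 + π p (-1)) / ((p : ℝ) - 1) ≤ Real.log z / 20 := by
  have hlz : 0 ≤ Real.log z := Real.log_natCast_nonneg z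
  calc ∑ p ∈ A, (π p 1 + π p (-1)) / ((p : ℝ) - 1)
      ≤ ∑ p ∈ A, 4 * (|c₂| + 1) * (1 / ((p : ℝ) * Real.log (Real.log p))) := by
        apply sum_le_sum
        intro p hp
        obtain ⟨h1, h2, h3⟩ := hA p hp
        have hll := loglog_pos (show 16 ≤ p by omega)
        have hp16 : (16 : ℝ) < p := by exact_mod_cast (by omega : 16 < p)
        have h4 : c₂ / Real.log (Real.log p) ≤ (|c₂| + 1) / Real.log (Real.log p) := by
          apply div_le_div_of_nonneg_right _ hll.le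
          have := le_abs_self c₂
          linarith
        have h5 : π p 1 + π p (-1) ≤ 2 * ((|c₂| + 1) / Real.log (Real.log p)) := by linarith
        have h6 : 0 ≤ 2 * ((|c₂| + 1) / Real.log (Real.log p)) := by positivity
        calc (π p 1 + π p (-1)) / ((p : ℝ) - 1) ≤
            (2 * ((|c₂| + 1) / Real.log (Real.log p))) / ((p : ℝ) / 2) := by
              apply div_le_div₀ h6 h5 (by positivity) (by linarith)
          _ = _ := by
              have : Real.log (Real.log p) ≠ 0 := hll.ne'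
              have : (p : ℝ) ≠ 0 := by positivity
              field_simp
              ring
    _ = 4 * (|c₂| + 1) * ∑ p ∈ A, 1 / ((p : ℝ) * Real.log (Real.log p)) := by rw [mul_sum]
    _ ≤ 4 * (|c₂| + 1) * (1 / (80 * (|c₂| + 1)) * Real.log z) := by
        apply mul_le_mul_of_nonneg_left h (by positivity)
    _ = Real.log z / 20 := by
        have : |c₂| + 1 ≠ 0 := by positivity
        field_simp
        ring

theorem w1_le (κ : ℝ) (z : ℕ) : (w1 κ z : ℝ) ≤ Real.exp ((z : ℝ) ^ (1 - κ)) :=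
  Nat.floor_le (Real.exp_pos _).le

theorem exp_ge_sq {y : ℝ} (hy : 27 ≤ y) : y ^ 2 ≤ Real.exp y := by
  have h1 : Real.exp y = Real.exp (y / 3) ^ 3 := by
    rw [← Real.exp_nat_mul]
    congr 1
    push_cast
    ring
  have h2 : y / 3 ≤ Real.exp (y / 3) := by
    have := Real.add_one_le_exp (y / 3)
    linarith
  have h3 : (y / 3) ^ 3 ≤ Real.exp (y / 3) ^ 3 := pow_le_pow_left₀ (by linarith) h2 3
  rw [h1]
  nlinarith [sq_nonneg y]

theorem final_ineq {d : ℝ} (h0 : 0 < d) (h1 : d ≤ 1) :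
    (1 + d / 10) * (1 + d / 10) * (1 + d / 10) + 3 * (d / 10) ≤ 1 + d := by
  nlinarith [mul_pos h0 h0, mul_pos (mul_pos h0 h0) h0]

theorem aux1 {CM C5 d M : ℝ} (h1 : CM ≠ 0) (h2 : C5 ≠ 0) :
    CM * (2 * (d / (10 * CM * C5))) * (C5 * M) = 2 * (d / 10) * M := by
  field_simp

theorem aux3 {x f L L' : ℝ} (h1 : f ≠ 0) (h2 : L ≠ 0) (h3 : L' ≠ 0) :
    x / (f * L') = x / (f * L) * (L / L') := by
  field_simp

theorem stmt_M (hM1 : Stmt_M1) (hTS : Stmt_TS) (hMA : Stmt_MA) (hMC : Stmt_MC) (hMT : Stmt_MT) :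
    Stmt_M := by
  classical
  intro π c₁ c₂ hL δ hδ
  obtain ⟨CM, hCM, hMC⟩ := hMC
  obtain ⟨-, -, mt3, -, C5, hC5, mt5⟩ := hMT
  obtain ⟨d, hd0, hd1, hdδ⟩ : ∃ d : ℝ, 0 < d ∧ d ≤ 1 ∧ d ≤ δ :=
    ⟨min δ 1, lt_min hδ one_pos, min_le_right _ _, min_le_left _ _⟩
  refine ⟨d / (10 * CM * C5), by positivity, ⌈20 / d⌉₊ + 8, fun K hK κ hκ hκ' B hB => ?_⟩
  obtain ⟨z1, hz1⟩ := hM1 (κ / 2) κ 2 (d / 10) (by linarith) hκ (by positivity) K
  obtain ⟨z2, hz2⟩ := hMA κ hκ (by linarith)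
  obtain ⟨z3, hz3⟩ := hMC π c₁ c₂ hL κ hκ hκ' B hB
  obtain ⟨P1, hP1⟩ := hL.high
  obtain ⟨z4, hz4⟩ := mt3 κ hκ hκ' B hB (1 / (80 * (|c₂| + 1))) (by positivity)
  have ev : ∀ᶠ z : ℕ in atTop, 20 / d ≤ (z : ℝ) ^ (κ / 2) :=
    ((tendsto_rpow_atTop (by linarith : (0 : ℝ) < κ / 2)).comp
      tendsto_natCast_atTop_atTop).eventually_ge_atTop _
  obtain ⟨z5, hz5⟩ := eventually_atTop.1 ev
  set N1 : ℕ := ⌈10 * CM * C5 / d⌉₊ with hN1
  set N2 : ℕ := ⌈10 / d⌉₊ with hN2
  refine ⟨z1 + z2 + z3 + z4 + z5 + P1 + N1 + N2 + 1000, fun z hz p0 hgood x hx v hv hmv a ha S hS => ?_⟩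
  have hπ := hL.nonneg
  have hs := hL.sum_one
  obtain ⟨hp0, -⟩ := id hgood
  set A := AA κ B z p0 with hA
  set q := qq z p0 with hq
  -- sizes
  have hzr : (1000 : ℝ) ≤ z := by exact_mod_cast (by omega : 1000 ≤ z)
  have hz0 : (0 : ℝ) < z := by linarith
  have hz1' : (1 : ℝ) ≤ z := by linarith
  have hd20 : 20 ≤ 20 / d := by
    rw [le_div_iff₀ hd0]; linarith
  have he := hz5 z (by omega)
  have he20 : (20 : ℝ) ≤ (z : ℝ) ^ (κ / 2) := hd20.trans he
  have hq0 : 0 < q := qq_pos z p0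
  have hqr : (0 : ℝ) < q := by exact_mod_cast hq0
  have hφ : (0 : ℝ) < q.totient := by exact_mod_cast Nat.totient_pos.2 hq0
  have hφq : (q.totient : ℝ) ≤ q := by exact_mod_cast Nat.totient_le q
  obtain ⟨hx1, hx2⟩ := hx
  set L := Real.log x with hLdef
  have hzk : (z : ℝ) ≤ (z : ℝ) ^ (1 + κ) := by
    conv_lhs => rw [← Real.rpow_one (z : ℝ)]
    apply Real.rpow_le_rpow_of_exponent_le hz1'
    linarith
  have hL1000 : 1000 ≤ L := by linarith
  have hx0 : (0 : ℝ) < x := by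
    by_contra hcon
    have h1 : (x : ℝ) = 0 := le_antisymm (not_lt.1 hcon) (Nat.cast_nonneg x)
    rw [hLdef, h1, Real.log_zero] at hL1000
    linarith
  have hxexp : (x : ℝ) = Real.exp L := (Real.exp_log hx0).symm
  have hL2 : L ≤ (z : ℝ) ^ (2 : ℝ) := by
    refine hx2.trans ?_
    apply Real.rpow_le_rpow_of_exponent_le hz1'
    linarith
  set S0 : ℝ := Real.exp ((z : ℝ) ^ (1 + κ / 2)) with hS0
  set y : ℝ := (z : ℝ) ^ (1 + κ / 2) with hy
  have hyk : y * (z : ℝ) ^ (κ / 2) = (z : ℝ) ^ (1 + κ) := by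
    rw [hy, ← Real.rpow_add hz0]
    congr 1
    ring
  have hy0 : 0 < y := by positivity
  have hyL : y * (20 / d) ≤ L := by
    refine le_trans ?_ hx1
    rw [← hyk]
    exact mul_le_mul_of_nonneg_left he hy0.le
  have hyL' : y ≤ L * (d / 20) := by
    rw [← mul_div_assoc, div_le_iff₀ hd0] at hyL
    linarith
  have hy20 : 20 * y ≤ L := by nlinarith
  set L' : ℝ := L - y with hL'
  have hL'0 : 0 < L' := by linarith
  have hLL : L / L' ≤ 1 + d / 10 := by
    rw [div_le_iff₀ hL'0, hL']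
    nlinarith
  have hS0x : S0 < x := by
    rw [hS0, hxexp]
    apply Real.exp_lt_exp.2
    linarith
  have hw : (w1 κ z : ℝ) ≤ Real.exp ((z : ℝ) ^ (1 - κ)) := w1_le κ z
  have hzk2 : 2 * (z : ℝ) ^ (1 - κ) ≤ L := by
    have h1 : (z : ℝ) ^ (1 - κ) ≤ y := by
      rw [hy]
      apply Real.rpow_le_rpow_of_exponent_le hz1'
      linarith
    linarith
  have hzW : z ≤ w1 κ z := by
    unfold w1
    apply Nat.le_floor
    have h1 : (27 : ℝ) ≤ (z : ℝ) ^ (1 - κ) := by
      have h2 : (z : ℝ) ^ (1 / 2 : ℝ) ≤ (z : ℝ) ^ (1 - κ) := by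
        apply Real.rpow_le_rpow_of_exponent_le hz1'
        linarith
      have h3 : (27 : ℝ) ≤ (z : ℝ) ^ (1 / 2 : ℝ) := by
        have h4 : (27 : ℝ) = (27 ^ 2 : ℝ) ^ (1 / 2 : ℝ) := by
          rw [← Real.sqrt_eq_rpow, Real.sqrt_sq (by norm_num)]
        rw [h4]
        apply Real.rpow_le_rpow (by norm_num) (by linarith) (by norm_num)
      linarith
    refine le_trans ?_ (exp_ge_sq h1)
    rw [← Real.rpow_natCast, ← Real.rpow_mul hz0.le]
    conv_lhs => rw [← Real.rpow_one (z : ℝ)]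
    apply Real.rpow_le_rpow_of_exponent_le hz1'
    push_cast
    linarith
  have hzx : z * z ≤ x := by
    have h1 : ((z * z : ℕ) : ℝ) ≤ x := by
      push_cast
      rw [hxexp]
      have h2 := exp_ge_sq (y := (z : ℝ)) (by linarith)
      have h3 : Real.exp z ≤ Real.exp L := Real.exp_le_exp.2 (by linarith)
      nlinarith
    exact_mod_cast h1
  have hAp : ∀ p ∈ A, p.Prime ∧ 3 ≤ p ∧ z < p ∧ p ≤ w1 κ z ∧ p ≠ p0 ∧ p * p ≤ x := by
    intro p hp
    rw [hA, mem_AA] at hp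
    obtain ⟨h1, ⟨h2, h3⟩, h4⟩ := hp
    have h5 : z ≤ z ^ B := Nat.le_self_pow (by omega) z
    refine ⟨h4, by omega, by omega, h3, h1, ?_⟩
    have h6 : ((p * p : ℕ) : ℝ) ≤ x := by
      push_cast
      have h7 : (p : ℝ) ≤ Real.exp ((z : ℝ) ^ (1 - κ)) := by
        refine le_trans ?_ hw
        exact_mod_cast h3
      calc (p : ℝ) * p ≤ Real.exp ((z : ℝ) ^ (1 - κ)) * Real.exp ((z : ℝ) ^ (1 - κ)) := by
            gcongr
        _ = Real.exp (2 * (z : ℝ) ^ (1 - κ)) := by rw [← Real.exp_add]; ring_nf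
        _ ≤ Real.exp L := Real.exp_le_exp.2 hzk2
        _ = x := hxexp.symm
    exact_mod_cast h6
  have hsum : ∑ p ∈ A, (π p 1 + π p (-1)) / ((p : ℝ) - 1) ≤ Real.log z / 20 := by
    apply mass_le (c₂ := c₂) (by omega) _ (hz4 z p0 (by omega))
    intro p hp
    obtain ⟨h1, h2, h3, h4, h5, h6⟩ := hAp p hp
    have h7 := hP1 p h1 (by omega)
    exact ⟨h3, h7.1, h7.2⟩
  -- the main quantity
  set MX : ℝ := x / (q.totient * L) with hMX
  have hLpos : 0 < L := by linarith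
  have hMX0 : 0 < MX := by positivity
  -- splitting
  set S1 := S.filter fun n => ∃ b : ℕ, b.Prime ∧ b ∣ n ∧
    (b ∈ MV v A z x ∨ (x < b * b ∧ b * b ≤ 2 * x)) with hS1
  set S' := S.filter fun n => ¬ ∃ b : ℕ, b.Prime ∧ b ∣ n ∧
    (b ∈ MV v A z x ∨ (x < b * b ∧ b * b ≤ 2 * x)) with hS'
  set S2 := S'.filter fun n => S0 < sm (w1 κ z) n with hS2
  set S3 := S'.filter fun n => ¬ S0 < sm (w1 κ z) n with hS3
  have hsplit : ∑ n ∈ S, Wt π A n = ∑ n ∈ S1, Wt π A n + (∑ n ∈ S2, Wt π A n + ∑ n ∈ S3, Wt π A n) := by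
    rw [hS2, hS3, sum_filter_add_sum_filter_not, hS1, hS', sum_filter_add_sum_filter_not]
  have b1 : ∑ n ∈ S1, Wt π A n ≤ 2 * (d / 10) * MX := by
    have h1 := hz3 z (by omega) p0 (by
      rcases hp0 with h | ⟨h, h'⟩
      · exact Or.inl h
      · right
        exact ⟨h, by omega⟩) x ⟨hx1, hx2⟩ v hv a S1 (by
      intro n hn
      rw [hS1, mem_filter] at hn
      obtain ⟨h2, h3, h4⟩ := hS n hn.1
      exact ⟨h2, h3, h4, hn.2⟩)
    refine h1.trans ?_
    have h2 : mvm v A z x + 1 / z ≤ 2 * (d / (10 * CM * C5)) := by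
      have h3 : (1 : ℝ) / z ≤ d / (10 * CM * C5) := by
        rw [div_le_div_iff₀ hz0 (by positivity), one_mul]
        have h4 : 10 * CM * C5 / d ≤ z := by
          refine (Nat.le_ceil _).trans ?_
          exact_mod_cast (by omega : N1 ≤ z)
        rw [div_le_iff₀ hd0] at h4
        linarith
      have : mvm v A z x ≤ d / (10 * CM * C5) := hmv
      linarith
    have h3 : (x : ℝ) * Real.log z / (q * L) ≤ C5 * MX := by
      have h4 := (mt5 z p0 (by omega) (by
        rcases hp0 with h | ⟨h, h'⟩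
        · exact Or.inl h
        · right
          exact ⟨h, by omega⟩)).1
      rw [hMX, mul_div_assoc', div_le_div_iff₀ (by positivity) (by positivity)]
      have h5 : (q.totient : ℝ) * Real.log z ≤ C5 * q := h4
      have h6 : 0 ≤ (x : ℝ) * L := by positivity
      nlinarith
    have h4 : 0 ≤ (x : ℝ) * Real.log z / (q * L) := by
      have : 0 ≤ Real.log z := Real.log_nonneg hz1'
      positivity
    calc CM * (mvm v A z x + 1 / z) * ((x : ℝ) * Real.log z / (q * L))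
        ≤ CM * (2 * (d / (10 * CM * C5))) * (C5 * MX) := by
          apply mul_le_mul _ h3 h4 (by positivity)
          exact mul_le_mul_of_nonneg_left h2 hCM.le
      _ = 2 * (d / 10) * MX := aux1 hCM.ne' hC5.ne'
  have b2 : ∑ n ∈ S2, Wt π A n ≤ (d / 10) * MX := by
    have h1 := hz2 z (by omega) x ⟨hx1, hx2⟩ q (qq_dvd z p0) a ha
    have h2 : ∑ n ∈ S2, Wt π A n ≤ (S2.card : ℝ) := by
      calc ∑ n ∈ S2, Wt π A n ≤ ∑ n ∈ S2, (1 : ℝ) := sum_le_sum fun n _ => MM.Wt_le_one hπ hs A n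
        _ = S2.card := by simp
    have h3 : S2 ⊆ (Ioc x (2 * x)).filter fun n => n ≡ a [MOD q] ∧
        Real.exp ((z : ℝ) ^ (1 + κ / 2)) < sm (w1 κ z) n := by
      intro n hn
      rw [hS2, hS', mem_filter, mem_filter] at hn
      obtain ⟨h4, h5, h6⟩ := hS n hn.1.1
      rw [mem_filter]
      exact ⟨h4, h5, hn.2⟩
    have h4 : (S2.card : ℝ) ≤ x / (q * (z : ℝ) ^ 10) := by
      refine le_trans ?_ h1
      exact_mod_cast card_le_card h3
    refine (h2.trans h4).trans ?_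
    rw [hMX, div_mul_div_comm, div_le_div_iff₀ (by positivity) (by positivity)]
    have h5 : 10 / d ≤ z := by
      refine (Nat.le_ceil _).trans ?_
      exact_mod_cast (by omega : N2 ≤ z)
    have h6 : 10 ≤ d * z := by
      rw [div_le_iff₀ hd0] at h5
      linarith
    have h7 : L ≤ (z : ℝ) ^ 2 := by
      refine hL2.trans (le_of_eq ?_)
      rw [← Real.rpow_natCast]
      norm_num
    have h8 : 10 * L ≤ d * (z : ℝ) ^ 10 := by
      calc 10 * L ≤ (d * z) * (z : ℝ) ^ 2 := by gcongr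
        _ = d * (z : ℝ) ^ 3 := by ring
        _ ≤ d * (z : ℝ) ^ 10 := by
            apply mul_le_mul_of_nonneg_left _ hd0.le
            exact pow_le_pow_right₀ hz1' (by norm_num)
    calc (x : ℝ) * (10 * (q.totient * L)) = x * q.totient * (10 * L) := by ring
      _ ≤ x * q * (d * (z : ℝ) ^ 10) := by gcongr
      _ = d * x * (q * (z : ℝ) ^ 10) := by ring
  have hKr : 20 / d + 8 ≤ K := by
    have h1 := Nat.le_ceil (20 / d)
    have h2 : ((⌈20 / d⌉₊ + 8 : ℕ) : ℝ) ≤ K := by exact_mod_cast hK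
    push_cast at h2
    linarith
  have hK0 : (0 : ℝ) < K := by
    have : 0 < 20 / d := by positivity
    linarith
  have b3 : ∑ n ∈ S3, Wt π A n ≤ (1 + d / 10) * (1 + d / 10) * (1 + d / 10) * MX := by
    have h1 := m_core (κ := κ) (z := z) (p0 := p0) (K := K) (x := x) (a := a) (A := A) (v := v)
      (ε := d / 10) (L' := L') (S0 := S0) hTS hπ hs (by omega) hp0 hAp hsum (by positivity) hL'0
      hS0x hzW hzx (by
        intro t ht htS
        have ht0 : (0 : ℝ) < t := by exact_mod_cast ht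
        rw [Real.log_div hx0.ne' ht0.ne']
        have : Real.log t ≤ y := by
          rw [Real.log_le_iff_le_exp ht0]
          exact htS
        linarith) (by
        intro t ht htS Q hQ hp0Q c hc al be ra rb A' hOk
        have ht0 : (0 : ℝ) < t := by exact_mod_cast ht
        have hlogt : Real.log t ≤ y := by
          rw [Real.log_le_iff_le_exp ht0]
          exact htS
        have hlogt0 : 0 ≤ Real.log t := Real.log_natCast_nonneg t
        have hlx : Real.log ((x : ℝ) / t) = L - Real.log t := Real.log_div hx0.ne' ht0.ne'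
        apply hz1 z (by omega) p0 (by
          have e : κ / 2 / 2 = κ / 4 := by ring
          rw [e]
          exact hgood) al be ra rb A' hOk Q hQ hp0Q c hc ((x : ℝ) / t) (by positivity)
        · rw [hlx]
          linarith
        · rw [hlx]
          linarith) S3 (by
        intro n hn
        rw [hS3, hS', mem_filter, mem_filter] at hn
        obtain ⟨h2, h3, h4⟩ := hS n hn.1.1
        refine ⟨h2, h3, h4, fun b hb hbn hcon => hn.1.2 ⟨b, hb, hbn, hcon⟩, ?_⟩
        exact not_lt.1 hn.2)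
    refine h1.trans ?_
    have h2 : (1 - 1 / (K : ℝ))⁻¹ ≤ 1 + d / 10 := by
      have h3 : 1 / (K : ℝ) ≤ d / 20 := by
        rw [div_le_div_iff₀ hK0 (by norm_num)]
        have h4 : 20 / d ≤ K := by linarith
        rw [div_le_iff₀ hd0] at h4
        linarith
      rw [inv_le_comm₀ (by linarith) (by positivity)]
      rw [inv_le_iff_one_le_mul₀ (by positivity)]
      nlinarith
    have h3 : (x : ℝ) / (q.totient * L') = MX * (L / L') := aux3 hφ.ne' hLpos.ne' hL'0.ne'
    have h4 : (1 + d / 10) * (1 - 1 / (K : ℝ))⁻¹ * x / (q.totient * L') =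
        (1 + d / 10) * (1 - 1 / (K : ℝ))⁻¹ * (MX * (L / L')) := by
      rw [← h3]
      ring
    rw [h4]
    calc (1 + d / 10) * (1 - 1 / (K : ℝ))⁻¹ * (MX * (L / L'))
        ≤ (1 + d / 10) * (1 + d / 10) * (MX * (1 + d / 10)) := by
          apply mul_le_mul _ _ (by positivity) (by positivity)
          · exact mul_le_mul_of_nonneg_left h2 (by positivity)
          · exact mul_le_mul_of_nonneg_left hLL hMX0.le
      _ = _ := by ring
  rw [hsplit]
  have hfin : ∑ n ∈ S1, Wt π A n + (∑ n ∈ S2, Wt π A n + ∑ n ∈ S3, Wt π A n) ≤ (1 + δ) * MX := by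
    have h1 := final_ineq hd0 hd1
    have h2 : ((1 + d / 10) * (1 + d / 10) * (1 + d / 10) + 3 * (d / 10)) * MX ≤ (1 + d) * MX :=
      mul_le_mul_of_nonneg_right h1 hMX0.le
    have h3 : (1 + d) * MX ≤ (1 + δ) * MX := mul_le_mul_of_nonneg_right (by linarith) hMX0.le
    linarith
  rw [hMX] at hfin
  rw [mul_div_assoc]
  exact hfin

end Pool.Agent.Work.MP_b0c12c_nt_shift
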