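import Mathlib
import Pool.Agent.Work.MP_b0c12c_nt.Assem1
import Pool.Agent.Work.MP_b0c12c_nt_helper6.GaussPnt
import Pool.Agent.Work.MP_b0c12c_nt_shift.Interface

/-!
Block M1: removal of the Gaussian weight (smoothing), for the sum over the primes of one class
with the residue weight `hw`.
-/

set_option autoImplicit false

namespace Pool.Agent.Work.MP_b0c12c_nt_shift

open Finset Filter ArithmeticFunction MeasureTheory
open scoped Topology
open Pool.Agent.Work.MP_b0c12c_nt.Assem (wt)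

namespace M1

theorem wt_eq {τ X v : ℝ} (hX : 0 < X) {n : ℕ} (hn : 1 ≤ n) :
    wt τ (Real.exp (Real.log X + v)) n =
      Real.exp (-(v - Real.log (n / X)) ^ 2 / (2 * τ ^ 2)) := by
  unfold wt
  have hn0 : (0 : ℝ) < n := by exact_mod_cast hn
  have h1 : Real.log ((n : ℝ) / Real.exp (Real.log X + v)) = Real.log (n / X) - v := by
    rw [Real.log_div hn0.ne' (Real.exp_pos _).ne', Real.log_exp, Real.log_div hn0.ne' hX.ne']
    ring
  rw [h1]
  congr 2
  ring

/-- integration over the shift, for an arbitrary nonnegative weight -/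
theorem integrate_shift {τ Δ X m c : ℝ} (hX : 0 < X) (hΔ : 0 < Δ)
    (hm : m ≤ ∫ u in (-Δ)..Δ, Real.exp (-u ^ 2 / (2 * τ ^ 2)))
    (F : Finset ℕ) (f : ℕ → ℝ) (hf : ∀ n ∈ F, 0 ≤ f n)
    (hF : ∀ n ∈ F, X < (n : ℝ) ∧ (n : ℝ) ≤ 2 * X)
    (hc : ∀ v : ℝ, -Δ ≤ v → v ≤ Real.log 2 + Δ →
      ∑ n ∈ F, f n * wt τ (Real.exp (Real.log X + v)) n ≤ c * Real.exp (Real.log X + v)) :
    m * ∑ n ∈ F, f n ≤ c * X * (2 * Real.exp Δ - Real.exp (-Δ)) := by
  have hlog2 : 0 < Real.log 2 := Real.log_pos (by norm_num)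
  have hn1 : ∀ n ∈ F, 1 ≤ n := by
    intro n hn
    have h1 := (hF n hn).1
    have : (0 : ℝ) < n := hX.trans h1
    exact_mod_cast this
  have hcont : ∀ n : ℕ, Continuous fun v : ℝ =>
      Real.exp (-(v - Real.log (n / X)) ^ 2 / (2 * τ ^ 2)) := by
    intro n
    fun_prop
  have h1 : ∀ n ∈ F, m ≤ ∫ v in (-Δ)..(Real.log 2 + Δ),
      Real.exp (-(v - Real.log (n / X)) ^ 2 / (2 * τ ^ 2)) := by
    intro n hn
    obtain ⟨g1, g2⟩ := hF n hn
    obtain ⟨t, ht⟩ : ∃ t, t = Real.log (n / X) := ⟨_, rfl⟩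
    rw [← ht]
    have ht0 : 0 ≤ t := by
      rw [ht]
      apply Real.log_nonneg
      rw [le_div_iff₀ hX]
      linarith
    have ht2 : t ≤ Real.log 2 := by
      rw [ht]
      apply Real.log_le_log
      · have : (0 : ℝ) < n := hX.trans g1
        positivity
      · rw [div_le_iff₀ hX]
        exact g2
    have h2 : ∫ u in (-Δ)..Δ, Real.exp (-u ^ 2 / (2 * τ ^ 2)) =
        ∫ v in (t - Δ)..(t + Δ), Real.exp (-(v - t) ^ 2 / (2 * τ ^ 2)) := by
      have h3 := intervalIntegral.integral_comp_sub_right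
        (fun u : ℝ => Real.exp (-u ^ 2 / (2 * τ ^ 2))) t (a := t - Δ) (b := t + Δ)
      rw [h3]
      congr 1 <;> ring
    refine hm.trans ?_
    rw [h2]
    apply intervalIntegral.integral_mono_interval
    · linarith
    · linarith
    · linarith
    · exact Filter.Eventually.of_forall fun v => (Real.exp_pos _).le
    · have : Continuous fun v : ℝ => Real.exp (-(v - t) ^ 2 / (2 * τ ^ 2)) := by fun_prop
      exact this.intervalIntegrable _ _
  have h4 : ∫ v in (-Δ)..(Real.log 2 + Δ), ∑ n ∈ F, f n *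
      Real.exp (-(v - Real.log (n / X)) ^ 2 / (2 * τ ^ 2)) ≤
      ∫ v in (-Δ)..(Real.log 2 + Δ), c * Real.exp (Real.log X + v) := by
    apply intervalIntegral.integral_mono_on (by linarith)
    · apply Continuous.intervalIntegrable
      exact continuous_finsetSum _ fun n _ => continuous_const.mul (hcont n)
    · apply Continuous.intervalIntegrable
      fun_prop
    · intro v hv
      refine le_trans (le_of_eq ?_) (hc v hv.1 hv.2)
      refine Finset.sum_congr rfl fun n hn => ?_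
      rw [wt_eq hX (hn1 n hn)]
  have h5 : ∫ v in (-Δ)..(Real.log 2 + Δ), ∑ n ∈ F, f n *
      Real.exp (-(v - Real.log (n / X)) ^ 2 / (2 * τ ^ 2)) =
      ∑ n ∈ F, f n * ∫ v in (-Δ)..(Real.log 2 + Δ),
        Real.exp (-(v - Real.log (n / X)) ^ 2 / (2 * τ ^ 2)) := by
    rw [intervalIntegral.integral_finsetSum]
    · refine Finset.sum_congr rfl fun n _ => ?_
      rw [intervalIntegral.integral_const_mul]
    · intro n _
      exact ((continuous_const.mul (hcont n)).intervalIntegrable _ _)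
  have h6 : ∫ v in (-Δ)..(Real.log 2 + Δ), c * Real.exp (Real.log X + v) =
      c * X * (2 * Real.exp Δ - Real.exp (-Δ)) := by
    have h7 : ∀ v : ℝ, c * Real.exp (Real.log X + v) = (c * X) * Real.exp v := by
      intro v
      rw [Real.exp_add, Real.exp_log hX]
      ring
    simp only [h7]
    rw [intervalIntegral.integral_const_mul, integral_exp, Real.exp_add,
      Real.exp_log (by norm_num)]
  rw [h5, h6] at h4
  refine le_trans ?_ h4
  rw [Finset.mul_sum]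
  refine Finset.sum_le_sum fun n hn => ?_
  rw [mul_comm]
  exact mul_le_mul_of_nonneg_left (h1 n hn) (hf n hn)

theorem hw_nonneg {al be : ℕ → ℝ} {ra rb : ℕ → ℕ} {A : Finset ℕ}
    (h : ∀ p ∈ A, 0 ≤ al p ∧ 0 ≤ be p ∧ al p + be p ≤ 1 ∧ ¬ ra p ≡ rb p [MOD p]) (m : ℕ) :
    0 ≤ hw al be ra rb A m := by
  unfold hw
  refine Finset.prod_nonneg fun p hp => ?_
  obtain ⟨h1, h2, h3, h4⟩ := h p hp
  split_ifs <;> linarith

theorem hV_nonneg {al be : ℕ → ℝ} {A : Finset ℕ}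
    (h : ∀ p ∈ A, p.Prime ∧ al p + be p ≤ 1) : 0 ≤ hV al be A := by
  unfold hV
  refine Finset.prod_nonneg fun p hp => ?_
  obtain ⟨h1, h2⟩ := h p hp
  have h3 : (2 : ℝ) ≤ p := by exact_mod_cast h1.two_le
  have h4 : (al p + be p) / ((p : ℝ) - 1) ≤ 1 := by
    rw [div_le_one (by linarith)]
    linarith
  linarith

end M1

/-- Block M1, from the block BF. -/
theorem stmt_M1 (hBF : Stmt_BF) : Stmt_M1 := by
  intro κ κ₂ B ε hκ hκ₂ hε K
  obtain ⟨Δ, τ, ε₁, m, hΔ, hΔ4, hτ, hτ1, hε₁, hm0, hm, hfinal⟩ :=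
    Pool.Agent.Work.MP_b0c12c_nt.Assem.exists_params hε
  obtain ⟨z1, hz1⟩ := hBF κ κ₂ B τ hκ hκ₂ hτ hτ1 K
  obtain ⟨Y0, hY0⟩ := Pool.Agent.Work.MP_b0c12c_nt_helper6.GPnt.gaussPnt τ hτ ε₁ hε₁
  have ev : ∀ᶠ z : ℕ in atTop, max 2 (2 * Y0) ≤ (z : ℝ) ^ (1 + κ) :=
    ((tendsto_rpow_atTop (by linarith : (0 : ℝ) < 1 + κ)).comp
      tendsto_natCast_atTop_atTop).eventually_ge_atTop _
  obtain ⟨z2, hz2⟩ := eventually_atTop.1 ev
  have ev2 : ∀ᶠ z : ℕ in atTop, (z : ℝ) ^ (-(1 / 2) : ℝ) < ε₁ :=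
    ((tendsto_rpow_neg_atTop (by norm_num : (0 : ℝ) < 1 / 2)).comp
      tendsto_natCast_atTop_atTop).eventually_lt_const hε₁
  obtain ⟨z3, hz3⟩ := eventually_atTop.1 ev2
  refine ⟨max z1 (max z2 z3), fun z hz p0 hp0 al be ra rb A hOk Q hQ hpQ c hc X hX hX1 hX2 => ?_⟩
  have hzz1 : z1 ≤ z := (le_max_left z1 _).trans hz
  have hzz2 : z2 ≤ z := (le_max_left z2 z3).trans ((le_max_right _ _).trans hz)
  have hzz3 : z3 ≤ z := (le_max_right z2 z3).trans ((le_max_right _ _).trans hz)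
  have hQ0 : 0 < Q := Nat.pos_of_dvd_of_pos hQ (primorial_pos z)
  have hφ : (0 : ℝ) < Q.totient := by exact_mod_cast Nat.totient_pos.mpr hQ0
  have hnn : ∀ n : ℕ, 0 ≤ Λ n * hw al be ra rb A n := fun n =>
    mul_nonneg ArithmeticFunction.vonMangoldt_nonneg (M1.hw_nonneg (fun p hp => by
      obtain ⟨_, _, _, _, h1, h2, h3, _, _, h4⟩ := hOk.1 p hp
      exact ⟨h1, h2, h3, h4⟩) n)
  have hV0 : 0 ≤ hV al be A := M1.hV_nonneg fun p hp => by
    obtain ⟨h0, _, _, _, h1, h2, h3, _, _, h4⟩ := hOk.1 p hp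
    exact ⟨h0, h3⟩
  have hev := hz2 z hzz2
  have hev1 : 2 ≤ (z : ℝ) ^ (1 + κ) := (le_max_left _ _).trans hev
  have hev2 : 2 * Y0 ≤ (z : ℝ) ^ (1 + κ) := (le_max_right _ _).trans hev
  have hev3 : (z : ℝ) ^ (-(1 / 2) : ℝ) < ε₁ := hz3 z hzz3
  have hlog2 : Real.log 2 < 0.7 := by
    have := Real.log_two_lt_d9
    linarith
  set F : Finset ℕ := (Ioc ⌊X⌋₊ ⌊2 * X⌋₊).filter (fun p => p.Prime ∧ p ≡ c [MOD Q]) with hF
  have hFX : ∀ n ∈ F, X < (n : ℝ) ∧ (n : ℝ) ≤ 2 * X := by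
    intro n hn
    rw [hF, Finset.mem_filter, Finset.mem_Ioc] at hn
    constructor
    · exact (Nat.floor_lt hX.le).1 hn.1.1
    · exact (Nat.le_floor_iff (by positivity)).1 hn.1.2
  have hFa : ∀ n ∈ F, n ≡ c [MOD Q] := by
    intro n hn
    exact (Finset.mem_filter.1 hn).2.2
  have hΛ : ∑ p ∈ F, Real.log p * hw al be ra rb A p = ∑ n ∈ F, Λ n * hw al be ra rb A n := by
    refine Finset.sum_congr rfl fun p hp => ?_
    rw [ArithmeticFunction.vonMangoldt_apply_prime (Finset.mem_filter.1 hp).2.1]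
  have hmain := M1.integrate_shift (τ := τ) (c := hV al be A * ((1 + ε₁) *
    (τ * Real.sqrt (2 * Real.pi) * Real.exp (τ ^ 2 / 2)) + ε₁) / Q.totient) hX hΔ hm F
    (fun n => Λ n * hw al be ra rb A n) (fun n _ => hnn n) hFX (by
      intro v hv1 hv2
      obtain ⟨l, hl⟩ : ∃ l, l = Real.log X + v := ⟨_, rfl⟩
      rw [← hl]
      have hl1 : (z : ℝ) ^ (1 + κ) / 2 ≤ l := by
        rw [hl]
        linarith
      have hl2 : l ≤ 2 * (z : ℝ) ^ B := by
        rw [hl]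
        linarith
      have hlY : Y0 ≤ Real.exp l := by
        have := Real.add_one_le_exp l
        linarith
      obtain ⟨hs, hs2⟩ := hY0 (Real.exp l) hlY
      have hbf := hz1 z hzz1 p0 hp0 al be ra rb A hOk Q hQ hpQ c hc l hl1 hl2 F hFa
      have hs2' : ∑' n : ℕ, Λ n * wt τ (Real.exp l) n ≤
          (1 + ε₁) * (τ * Real.sqrt (2 * Real.pi) * Real.exp (τ ^ 2 / 2)) * Real.exp l := hs2
      have hel := Real.exp_pos l
      calc ∑ n ∈ F, Λ n * hw al be ra rb A n * wt τ (Real.exp l) n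
          = ∑ n ∈ F, Λ n * wt τ (Real.exp l) n * hw al be ra rb A n :=
            Finset.sum_congr rfl fun n _ => by ring
        _ ≤ hV al be A * ((∑' n : ℕ, Λ n * wt τ (Real.exp l) n) +
              (z : ℝ) ^ (-(1 / 2) : ℝ) * Real.exp l) / Q.totient := hbf
        _ ≤ hV al be A * ((1 + ε₁) * (τ * Real.sqrt (2 * Real.pi) * Real.exp (τ ^ 2 / 2)) *
              Real.exp l + ε₁ * Real.exp l) / Q.totient := by
            apply div_le_div_of_nonneg_right _ hφ.le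
            apply mul_le_mul_of_nonneg_left _ hV0
            have := mul_le_mul_of_nonneg_right hev3.le hel.le
            linarith
        _ = _ := by ring)
  rw [hΛ, le_div_iff₀ hφ]
  have h1 : m * (∑ n ∈ F, Λ n * hw al be ra rb A n) * Q.totient ≤ hV al be A * (((1 + ε₁) *
      (τ * Real.sqrt (2 * Real.pi) * Real.exp (τ ^ 2 / 2)) + ε₁) *
      (2 * Real.exp Δ - Real.exp (-Δ))) * X := by
    calc m * (∑ n ∈ F, Λ n * hw al be ra rb A n) * Q.totient ≤ (hV al be A * ((1 + ε₁) *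
          (τ * Real.sqrt (2 * Real.pi) * Real.exp (τ ^ 2 / 2)) + ε₁) / Q.totient * X *
          (2 * Real.exp Δ - Real.exp (-Δ))) * Q.totient :=
          mul_le_mul_of_nonneg_right hmain hφ.le
      _ = _ := by
          field_simp
  have h2 : hV al be A * (((1 + ε₁) *
      (τ * Real.sqrt (2 * Real.pi) * Real.exp (τ ^ 2 / 2)) + ε₁) *
      (2 * Real.exp Δ - Real.exp (-Δ))) * X ≤ hV al be A * ((1 + ε) * m) * X :=
    mul_le_mul_of_nonneg_right (mul_le_mul_of_nonneg_left hfinal hV0) hX.le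
  have h3 : m * ((∑ n ∈ F, Λ n * hw al be ra rb A n) * Q.totient) ≤
      m * ((1 + ε) * X * hV al be A) := by
    calc m * ((∑ n ∈ F, Λ n * hw al be ra rb A n) * Q.totient)
        = m * (∑ n ∈ F, Λ n * hw al be ra rb A n) * Q.totient := by ring
      _ ≤ hV al be A * ((1 + ε) * m) * X := h1.trans h2
      _ = _ := by ring
  exact le_of_mul_le_mul_left h3 hm0

end Pool.Agent.Work.MP_b0c12c_nt_shift
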