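import Mathlib
import Pool.Agent.Work.MP_b0c12c_nt_shift.Interface
import Pool.Agent.Work.MP_b0c12c_nt_helper41.Mert

/-!
# Block MA: few integers have a large smooth part (Rankin)
-/

set_option autoImplicit false

namespace Pool.Agent.Work.MP_b0c12c_nt_shift.MA

open Finset Nat

/-- integers of a dyadic interval in a class modulo `q` and divisible by `d` -/
theorem count_le (x q a d : ℕ) (hq : 0 < q) (hd : 0 < d) (G : ℝ) (hG : (a.gcd q : ℝ) ≤ G) :
    ((((Ioc x (2 * x)).filter fun n => n ≡ a [MOD q] ∧ d ∣ n).card : ℕ) : ℝ) ≤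
      x * G / (q * d) + 1 := by
  have hqR : (0 : ℝ) < q := by exact_mod_cast hq
  have hdR : (0 : ℝ) < d := by exact_mod_cast hd
  have hG0 : 0 ≤ G := le_trans (Nat.cast_nonneg _) hG
  rcases ((Ioc x (2 * x)).filter fun n => n ≡ a [MOD q] ∧ d ∣ n).eq_empty_or_nonempty with h | ⟨n0, hn0⟩
  · rw [h]
    simp only [Finset.card_empty, Nat.cast_zero]
    positivity
  rw [Finset.mem_filter] at hn0
  obtain ⟨_, h1, h2⟩ := hn0
  set m := Nat.lcm d q with hm
  have hm0 : 0 < m := Nat.lcm_pos hd hq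
  have hsub : ((Ioc x (2 * x)).filter fun n => n ≡ a [MOD q] ∧ d ∣ n) ⊆
      (Ioc x (2 * x)).filter fun n => n ≡ n0 [MOD m] := by
    intro n hn
    rw [Finset.mem_filter] at hn ⊢
    refine ⟨hn.1, ?_⟩
    have h3 : n ≡ n0 [MOD q] := hn.2.1.trans h1.symm
    have h4 : n ≡ n0 [MOD d] := by
      have h5 : n ≡ 0 [MOD d] := (Nat.modEq_zero_iff_dvd).mpr hn.2.2
      have h6 : n0 ≡ 0 [MOD d] := (Nat.modEq_zero_iff_dvd).mpr h2
      exact h5.trans h6.symm
    exact Nat.mod_lcm h4 h3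
  have hcard : ((((Ioc x (2 * x)).filter fun n => n ≡ n0 [MOD m]).card : ℕ) : ℝ) ≤ x / m + 1 := by
    have h8 := Nat.Ioc_filter_modEq_card x (2 * x) hm0 n0
    have h9 : ((((Ioc x (2 * x)).filter fun n => n ≡ n0 [MOD m]).card : ℕ) : ℚ) ≤ x / m + 1 := by
      have h10 : ((((Ioc x (2 * x)).filter fun n => n ≡ n0 [MOD m]).card : ℕ) : ℤ) =
        max (⌊(((2 * x : ℕ) : ℚ) - (n0 : ℚ)) / (m : ℚ)⌋ - ⌊((x : ℚ) - (n0 : ℚ)) / (m : ℚ)⌋) 0 := h8
      have h11 : ((((Ioc x (2 * x)).filter fun n => n ≡ n0 [MOD m]).card : ℕ) : ℚ) =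
        ((((Ioc x (2 * x)).filter fun n => n ≡ n0 [MOD m]).card : ℤ) : ℚ) := by push_cast; rfl
      rw [h11, h10]
      push_cast
      have hmQ : (0 : ℚ) < m := by exact_mod_cast hm0
      apply max_le
      · have h12 := Int.floor_le (((2 : ℚ) * x - (n0 : ℚ)) / (m : ℚ))
        have h13 := Int.lt_floor_add_one (((x : ℚ) - (n0 : ℚ)) / (m : ℚ))
        have h14 : ((2 : ℚ) * x - (n0 : ℚ)) / (m : ℚ) = ((x : ℚ) - (n0 : ℚ)) / (m : ℚ) + x / m := by
          field_simp; ring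
        linarith
      · positivity
    have h15 : (((((Ioc x (2 * x)).filter fun n => n ≡ n0 [MOD m]).card : ℕ) : ℚ) : ℝ) ≤
        (((x : ℚ) / m + 1 : ℚ) : ℝ) := by exact_mod_cast h9
    push_cast at h15
    simpa using h15
  have hgcd : Nat.gcd d q ∣ Nat.gcd a q := by
    apply Nat.dvd_gcd _ (Nat.gcd_dvd_right d q)
    have h16 : Nat.gcd d q ∣ n0 := (Nat.gcd_dvd_left d q).trans h2
    have h17 : n0 ≡ a [MOD Nat.gcd d q] := h1.of_dvd (Nat.gcd_dvd_right d q)
    exact (Nat.ModEq.dvd_iff h17 (dvd_refl _)).mp h16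
  have hg1 : (Nat.gcd d q : ℝ) ≤ G := by
    refine le_trans ?_ hG
    exact_mod_cast Nat.le_of_dvd (Nat.gcd_pos_of_pos_right a hq) hgcd
  have hg0 : (0 : ℝ) < Nat.gcd d q := by exact_mod_cast Nat.gcd_pos_of_pos_right d hq
  have hprod : (Nat.gcd d q : ℝ) * m = d * q := by
    have := Nat.gcd_mul_lcm d q
    exact_mod_cast this
  have hmR : (0 : ℝ) < m := by exact_mod_cast hm0
  calc ((((Ioc x (2 * x)).filter fun n => n ≡ a [MOD q] ∧ d ∣ n).card : ℕ) : ℝ)
      ≤ ((((Ioc x (2 * x)).filter fun n => n ≡ n0 [MOD m]).card : ℕ) : ℝ) := by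
        exact_mod_cast Finset.card_le_card hsub
    _ ≤ x / m + 1 := hcard
    _ ≤ x * G / (q * d) + 1 := by
        have h18 : (x : ℝ) / m ≤ x * G / (q * d) := by
          rw [div_le_div_iff₀ hmR (by positivity)]
          have h19 : (q : ℝ) * d ≤ G * m := by
            calc (q : ℝ) * d = Nat.gcd d q * m := by rw [hprod]; ring
              _ ≤ G * m := mul_le_mul_of_nonneg_right hg1 hmR.le
          calc (x : ℝ) * (q * d) ≤ x * (G * m) :=
                mul_le_mul_of_nonneg_left h19 (Nat.cast_nonneg x)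
            _ = x * G * m := by ring
        linarith

/-- a smooth number has a divisor in a given range -/
theorem exists_div {m W : ℕ} {S : ℝ} (hS : 1 ≤ S) (hm : S < m)
    (hpf : ∀ p : ℕ, p.Prime → p ∣ m → p ≤ W) : ∃ d : ℕ, d ∣ m ∧ S < d ∧ (d : ℝ) ≤ S * W := by
  classical
  have hm0 : m ≠ 0 := by
    rintro rfl
    simp at hm
    linarith
  have hex : ∃ d : ℕ, d ∣ m ∧ S < d := ⟨m, dvd_refl m, hm⟩
  refine ⟨Nat.find hex, (Nat.find_spec hex).1, (Nat.find_spec hex).2, ?_⟩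
  set d := Nat.find hex with hd
  have hd1 : d ∣ m := (Nat.find_spec hex).1
  have hd2 : S < d := (Nat.find_spec hex).2
  have hdne1 : d ≠ 1 := by
    intro h
    rw [h] at hd2
    norm_num at hd2
    linarith
  have hd0 : 0 < d := Nat.pos_of_dvd_of_pos hd1 (Nat.pos_of_ne_zero hm0)
  obtain ⟨p, hp, hpd⟩ := Nat.exists_prime_and_dvd hdne1
  have hpW : p ≤ W := hpf p hp (hpd.trans hd1)
  have h3 : d / p < d := Nat.div_lt_self hd0 hp.one_lt
  have h4 : ¬ (d / p ∣ m ∧ S < ((d / p : ℕ) : ℝ)) := Nat.find_min hex h3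
  have h5 : ((d / p : ℕ) : ℝ) ≤ S := by
    by_contra h6
    exact h4 ⟨(Nat.div_dvd_of_dvd hpd).trans hd1, not_le.mp h6⟩
  have h7 : (d : ℝ) = ((d / p : ℕ) : ℝ) * p := by
    have := Nat.div_mul_cancel hpd
    exact_mod_cast this.symm
  rw [h7]
  have h8 : (p : ℝ) ≤ W := by exact_mod_cast hpW
  have h9 : (0 : ℝ) ≤ p := Nat.cast_nonneg p
  nlinarith

/-- the completely multiplicative function `n ^ (α - 1)` -/
noncomputable def ff (α : ℝ) : ℕ →* ℝ where
  toFun n := (n : ℝ) ^ (α - 1)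
  map_one' := by simp
  map_mul' m n := by
    push_cast
    exact Real.mul_rpow (Nat.cast_nonneg m) (Nat.cast_nonneg n)

theorem rankin {W : ℕ} (hW : 2 ≤ W) {α : ℝ} (hα0 : 0 < α) (hα : α ≤ 1 / 2)
    (hαW : α * Real.log W ≤ 1) {S : ℝ} (hS : 1 ≤ S) (D : Finset ℕ)
    (hD : ∀ d ∈ D, d ∈ Nat.smoothNumbers (W + 1) ∧ S < d) :
    ∑ d ∈ D, 1 / (d : ℝ) ≤
      S ^ (-α) * Real.exp (12 * ∑ p ∈ (W + 1).primesBelow, 1 / (p : ℝ)) := by
  have hS0 : 0 < S := by linarith
  have h2 : ∀ p : ℕ, p.Prime → (p : ℝ) ^ (α - 1) ≤ 3 / 4 := by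
    intro p hp
    have hp2 : (2 : ℝ) ≤ p := by exact_mod_cast hp.two_le
    calc (p : ℝ) ^ (α - 1) ≤ (2 : ℝ) ^ (α - 1) :=
          Real.rpow_le_rpow_of_nonpos (by norm_num) hp2 (by linarith)
      _ ≤ (2 : ℝ) ^ (-(1 / 2) : ℝ) :=
          Real.rpow_le_rpow_of_exponent_le (by norm_num) (by linarith)
      _ ≤ 3 / 4 := by
          rw [Real.rpow_neg (by norm_num), ← Real.sqrt_eq_rpow]
          have h3 : (4 / 3 : ℝ) ≤ Real.sqrt 2 := by
            apply Real.le_sqrt_of_sq_le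
            norm_num
          calc (Real.sqrt 2)⁻¹ ≤ (4 / 3 : ℝ)⁻¹ := inv_anti₀ (by norm_num) h3
            _ = 3 / 4 := by norm_num
  have hpos : ∀ n : ℕ, 0 ≤ ff α n := fun n => Real.rpow_nonneg (Nat.cast_nonneg n) _
  have hnorm : ∀ {p : ℕ}, p.Prime → ‖ff α p‖ < 1 := by
    intro p hp
    rw [Real.norm_of_nonneg (hpos p)]
    have := h2 p hp
    show (p : ℝ) ^ (α - 1) < 1
    linarith
  obtain ⟨hsum, hhas⟩ := EulerProduct.summable_and_hasSum_smoothNumbers_prod_primesBelow_geometric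
    (f := ff α) hnorm (W + 1)
  -- the sum over `D`
  have h3 : ∑ d ∈ D, ff α d ≤ ∏ p ∈ (W + 1).primesBelow, (1 - ff α p)⁻¹ := by
    rw [← hhas.tsum_eq]
    have h4 : ∑ d ∈ D, ff α d = ∑ d ∈ D.attach, ff α
        ((⟨d.1, (hD d.1 d.2).1⟩ : Nat.smoothNumbers (W + 1)) : ℕ) := by
      rw [Finset.sum_attach D (fun d => ff α d)]
    rw [h4]
    have h5 : ∑ d ∈ D.attach, ff α ((⟨d.1, (hD d.1 d.2).1⟩ : Nat.smoothNumbers (W + 1)) : ℕ) =
        ∑ s ∈ D.attach.map ⟨fun d => (⟨d.1, (hD d.1 d.2).1⟩ : Nat.smoothNumbers (W + 1)), by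
          intro d d' h
          apply Subtype.ext
          exact congrArg (fun s : Nat.smoothNumbers (W + 1) => (s : ℕ)) h⟩, ff α (s : ℕ) := by
      rw [Finset.sum_map]
      rfl
    rw [h5]
    exact hhas.summable.sum_le_tsum _ (fun s _ => hpos s)
  -- the product
  have h6 : ∏ p ∈ (W + 1).primesBelow, (1 - ff α p)⁻¹ ≤
      Real.exp (12 * ∑ p ∈ (W + 1).primesBelow, 1 / (p : ℝ)) := by
    rw [Finset.mul_sum, Real.exp_sum]
    apply Finset.prod_le_prod
    · intro p hp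
      have hp' := Nat.prime_of_mem_primesBelow hp
      have := h2 p hp'
      have h7 : ff α p = (p : ℝ) ^ (α - 1) := rfl
      rw [h7]
      apply inv_nonneg.mpr
      linarith
    · intro p hp
      have hp' := Nat.prime_of_mem_primesBelow hp
      have hplt := Nat.lt_of_mem_primesBelow hp
      have h7 : ff α p = (p : ℝ) ^ (α - 1) := rfl
      set y := (p : ℝ) ^ (α - 1) with hy
      have hy1 : y ≤ 3 / 4 := h2 p hp'
      have hy0 : 0 ≤ y := Real.rpow_nonneg (Nat.cast_nonneg p) _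
      have hp0 : (0 : ℝ) < p := by exact_mod_cast hp'.pos
      have hp1 : (1 : ℝ) < p := by exact_mod_cast hp'.one_lt
      have hy2 : y ≤ 3 * (1 / (p : ℝ)) := by
        have h8 : y = (p : ℝ) ^ α * (1 / p) := by
          rw [hy, Real.rpow_sub hp0, Real.rpow_one]
          ring
        rw [h8]
        apply mul_le_mul_of_nonneg_right _ (by positivity)
        calc (p : ℝ) ^ α = Real.exp (Real.log p * α) := by rw [Real.rpow_def_of_pos hp0]
          _ ≤ Real.exp 1 := by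
              apply Real.exp_le_exp.mpr
              have h9 : Real.log p ≤ Real.log W := Real.log_le_log hp0 (by
                exact_mod_cast (by omega : p ≤ W))
              nlinarith
          _ ≤ 3 := by
              have := Real.exp_one_lt_d9
              linarith
      rw [h7]
      have h10 : (1 - y)⁻¹ ≤ 1 + 4 * y := by
        rw [inv_le_iff_one_le_mul₀ (by linarith)]
        nlinarith
      calc (1 - y)⁻¹ ≤ 1 + 4 * y := h10
        _ ≤ Real.exp (4 * y) := by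
            have := Real.add_one_le_exp (4 * y)
            linarith
        _ ≤ Real.exp (12 * (1 / (p : ℝ))) := by
            apply Real.exp_le_exp.mpr
            linarith
  -- Rankin
  calc ∑ d ∈ D, 1 / (d : ℝ) ≤ ∑ d ∈ D, S ^ (-α) * ff α d := by
        apply Finset.sum_le_sum
        intro d hd
        have h11 := (hD d hd).2
        have hd0 : (0 : ℝ) < d := by linarith
        have h12 : ff α d = (d : ℝ) ^ (α - 1) := rfl
        rw [h12, Real.rpow_sub hd0, Real.rpow_one, Real.rpow_neg hS0.le]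
        have h13 : S ^ α ≤ (d : ℝ) ^ α := Real.rpow_le_rpow hS0.le h11.le hα0.le
        have h14 : 0 < S ^ α := Real.rpow_pos_of_pos hS0 α
        rw [show (S ^ α)⁻¹ * ((d : ℝ) ^ α / d) = ((d : ℝ) ^ α / S ^ α) * (1 / d) by
          field_simp]
        have h15 : 1 ≤ (d : ℝ) ^ α / S ^ α := by
          rw [le_div_iff₀ h14]
          linarith
        have h16 : 0 < 1 / (d : ℝ) := by positivity
        nlinarith
    _ = S ^ (-α) * ∑ d ∈ D, ff α d := by rw [Finset.mul_sum]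
    _ ≤ S ^ (-α) * Real.exp (12 * ∑ p ∈ (W + 1).primesBelow, 1 / (p : ℝ)) :=
        mul_le_mul_of_nonneg_left (h3.trans h6) (Real.rpow_nonneg hS0.le _)

/-- Mertens, crude form -/
theorem sum_inv_le : ∃ C : ℝ, ∀ W : ℕ, 2 ≤ W →
    ∑ p ∈ (W + 1).primesBelow, 1 / (p : ℝ) ≤ Real.log (Real.log W) + C := by
  obtain ⟨C, hC0, hC⟩ := Pool.Agent.Work.MP_b0c12c_nt_helper41.mertens2
  refine ⟨C / Real.log 2 - Real.log (Real.log 2) + 1, fun W hW => ?_⟩
  have h1 := (abs_le.mp (hC 2 W le_rfl hW)).2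
  have h2 : (W + 1).primesBelow = insert 2 ((Ioc 2 W).filter Nat.Prime) := by
    ext p
    simp only [Nat.mem_primesBelow, Finset.mem_insert, Finset.mem_filter, Finset.mem_Ioc]
    constructor
    · rintro ⟨h3, h4⟩
      have := h4.two_le
      by_cases h5 : p = 2
      · exact Or.inl h5
      · exact Or.inr ⟨⟨by omega, by omega⟩, h4⟩
    · rintro (rfl | ⟨⟨h3, h4⟩, h5⟩)
      · exact ⟨by omega, Nat.prime_two⟩
      · exact ⟨by omega, h5⟩
  rw [h2, Finset.sum_insert (by simp)]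
  have h3 : (1 : ℝ) / ((2 : ℕ) : ℝ) ≤ 1 := by norm_num
  have h4 : ((2 : ℕ) : ℝ) = 2 := by norm_num
  rw [h4] at h1 ⊢
  have h5 : (1 : ℝ) / 2 ≤ 1 := by norm_num
  linarith

theorem sm_dvd (W n : ℕ) (hn : n ≠ 0) : sm W n ∣ n := by
  have h1 : sm W n ∣ ∏ p ∈ n.primeFactors, p ^ n.factorization p := by
    unfold sm
    exact Finset.prod_dvd_prod_of_subset _ _ _ (Finset.filter_subset _ _)
  have h2 : ∏ p ∈ n.primeFactors, p ^ n.factorization p = n := by
    have := Nat.prod_factorization_pow_eq_self hn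
    simpa [Finsupp.prod, Nat.support_factorization] using this
  rwa [h2] at h1

theorem sm_prime {W n p : ℕ} (hp : p.Prime) (h : p ∣ sm W n) : p ≤ W := by
  unfold sm at h
  obtain ⟨q, hq, h2⟩ := (Prime.dvd_finset_prod_iff hp.prime _).mp h
  rw [Finset.mem_filter] at hq
  have h3 := (Nat.prime_dvd_prime_iff_eq hp (Nat.prime_of_mem_primeFactors hq.1)).mp
    (hp.dvd_of_dvd_pow h2)
  rw [h3]
  exact hq.2

end Pool.Agent.Work.MP_b0c12c_nt_shift.MA

namespace Pool.Agent.Work.MP_b0c12c_nt_shift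

open Finset Filter

/-- Block MA. -/
theorem stmt_MA : Stmt_MA := by
  classical
  intro κ hκ hκ'
  obtain ⟨C, hC⟩ := MA.sum_inv_le
  have ev1 : ∀ᶠ Z : ℝ in atTop, 3 ≤ Z ^ (κ / 4) :=
    (tendsto_rpow_atTop (by positivity)).eventually_ge_atTop 3
  have ev2 : ∀ᶠ Z : ℝ in atTop, 29 * Real.log Z + (Real.log 2 + 12 * C) ≤ Z ^ (5 * κ / 4) := by
    have h1 : ∀ᶠ Z : ℝ in atTop, ‖Real.log Z‖ ≤ (1 / 58) * ‖Z ^ (5 * κ / 4)‖ :=
      (isLittleO_log_rpow_atTop (by positivity : (0 : ℝ) < 5 * κ / 4)).def (by norm_num)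
    have h2 : ∀ᶠ Z : ℝ in atTop, 2 * (Real.log 2 + 12 * C) ≤ Z ^ (5 * κ / 4) :=
      (tendsto_rpow_atTop (by positivity)).eventually_ge_atTop _
    filter_upwards [h1, h2, eventually_ge_atTop (1 : ℝ)] with Z h3 h4 h5
    rw [Real.norm_of_nonneg (Real.log_nonneg h5),
      Real.norm_of_nonneg (Real.rpow_nonneg (by linarith) _)] at h3
    linarith
  have ev : ∀ᶠ Z : ℝ in atTop, 3 ≤ Z ^ (κ / 4) ∧
      29 * Real.log Z + (Real.log 2 + 12 * C) ≤ Z ^ (5 * κ / 4) ∧ 4 ≤ Z :=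
    ev1.and (ev2.and (eventually_ge_atTop 4))
  obtain ⟨z0, hz0⟩ := eventually_atTop.mp
    ((tendsto_natCast_atTop_atTop (R := ℝ)).eventually ev)
  refine ⟨z0, fun z hz x hx q hq a ha => ?_⟩
  obtain ⟨h1, h2, h3⟩ := hz0 z hz
  set Z : ℝ := (z : ℝ) with hZ
  have hZ0 : 0 < Z := by linarith
  have hZ1 : 1 ≤ Z := by linarith
  have hq0 : 0 < q := Nat.pos_of_dvd_of_pos hq (primorial_pos z)
  have hqR : (0 : ℝ) < q := by exact_mod_cast hq0
  have hq4 : (q : ℝ) ≤ 4 ^ z := by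
    exact_mod_cast (Nat.le_of_dvd (primorial_pos z) hq).trans (primorial_le_four_pow z)
  set W := w1 κ z with hW
  have hexp1 : (1 : ℝ) ≤ Z ^ (1 - κ) := Real.one_le_rpow hZ1 (by linarith)
  have hW2 : 2 ≤ W := by
    rw [hW, w1]
    apply Nat.le_floor
    have h4 : Real.exp 1 ≤ Real.exp (Z ^ (1 - κ)) := Real.exp_le_exp.mpr hexp1
    have h5 := Real.exp_one_gt_d9
    push_cast
    linarith
  have hWle : (W : ℝ) ≤ Real.exp (Z ^ (1 - κ)) := Nat.floor_le (Real.exp_pos _).le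
  have hW0 : (0 : ℝ) < W := by exact_mod_cast (by omega : 0 < W)
  have hlogW : Real.log W ≤ Z ^ (1 - κ) := by
    rw [Real.log_le_iff_le_exp hW0]
    exact hWle
  set α := Z ^ (κ - 1) with hα
  have hα0 : 0 < α := Real.rpow_pos_of_pos hZ0 _
  have hα2 : α ≤ 1 / 2 := by
    calc α ≤ Z ^ (-(1 / 2) : ℝ) := Real.rpow_le_rpow_of_exponent_le hZ1 (by linarith)
      _ ≤ (4 : ℝ) ^ (-(1 / 2) : ℝ) :=
          Real.rpow_le_rpow_of_nonpos (by norm_num) h3 (by norm_num)
      _ = 1 / 2 := by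
          rw [Real.rpow_neg (by norm_num), ← Real.sqrt_eq_rpow]
          rw [show (4 : ℝ) = 2 ^ 2 by norm_num, Real.sqrt_sq (by norm_num)]
          norm_num
  have hαW : α * Real.log W ≤ 1 := by
    calc α * Real.log W ≤ α * Z ^ (1 - κ) := mul_le_mul_of_nonneg_left hlogW hα0.le
      _ = 1 := by
          rw [hα, ← Real.rpow_add hZ0]
          simp
  set S := Real.exp (Z ^ (1 + κ / 4)) with hS
  have hS1 : 1 ≤ S := Real.one_le_exp (Real.rpow_nonneg hZ0.le _)
  have hS0 : 0 < S := Real.exp_pos _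
  -- the divisors
  set D : Finset ℕ := (Icc 1 ⌊S * W⌋₊).filter fun d => S < d ∧ d ∈ Nat.smoothNumbers (W + 1)
    with hD
  have hcover : ((Ioc x (2 * x)).filter fun n => n ≡ a [MOD q] ∧
      Real.exp (Z ^ (1 + κ / 2)) < sm W n) ⊆
      D.biUnion fun d => (Ioc x (2 * x)).filter fun n => n ≡ a [MOD q] ∧ d ∣ n := by
    intro n hn
    rw [Finset.mem_filter] at hn
    obtain ⟨hn1, hn2, hn3⟩ := hn
    have hn0 : n ≠ 0 := by
      rw [Finset.mem_Ioc] at hn1
      omega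
    have h4 : S < sm W n := by
      refine lt_of_le_of_lt ?_ hn3
      apply Real.exp_le_exp.mpr
      exact Real.rpow_le_rpow_of_exponent_le hZ1 (by linarith)
    obtain ⟨d, hd1, hd2, hd3⟩ := MA.exists_div hS1 h4 (fun p hp hp' => MA.sm_prime hp hp')
    rw [Finset.mem_biUnion]
    refine ⟨d, ?_, ?_⟩
    · rw [hD, Finset.mem_filter, Finset.mem_Icc]
      have hd0 : 0 < d := by
        rcases Nat.eq_zero_or_pos d with h | h
        · rw [h] at hd2
          norm_num at hd2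
          linarith
        · exact h
      refine ⟨⟨hd0, Nat.le_floor hd3⟩, hd2, ?_⟩
      rw [Nat.mem_smoothNumbers']
      intro p hp hpd
      have := MA.sm_prime hp (hpd.trans hd1)
      omega
    · rw [Finset.mem_filter]
      exact ⟨hn1, hn2, hd1.trans (MA.sm_dvd W n hn0)⟩
  have hcardD : (D.card : ℝ) ≤ S * W := by
    have h4 : D.card ≤ (Icc 1 ⌊S * W⌋₊).card := Finset.card_filter_le _ _
    rw [Nat.card_Icc, Nat.add_sub_cancel] at h4
    calc (D.card : ℝ) ≤ ⌊S * W⌋₊ := by exact_mod_cast h4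
      _ ≤ S * W := Nat.floor_le (by positivity)
  have hsum : ∑ d ∈ D, 1 / (d : ℝ) ≤ Real.exp (-Z ^ (5 * κ / 4) + 12 * Real.log Z + 12 * C) := by
    have h4 := MA.rankin hW2 hα0 hα2 hαW hS1 D (by
      intro d hd
      rw [hD, Finset.mem_filter] at hd
      exact ⟨hd.2.2, hd.2.1⟩)
    refine h4.trans ?_
    have h5 : S ^ (-α) = Real.exp (-Z ^ (5 * κ / 4)) := by
      rw [hS, ← Real.exp_mul, hα]
      congr 1
      rw [mul_neg, ← Real.rpow_add hZ0]
      congr 2
      ring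
    rw [h5, ← Real.exp_add]
    apply Real.exp_le_exp.mpr
    have h6 := hC W hW2
    have hlogW0 : 0 < Real.log W := Real.log_pos (by exact_mod_cast (by omega : 1 < W))
    have h7 : Real.log (Real.log W) ≤ Real.log Z := by
      apply Real.log_le_log hlogW0
      refine hlogW.trans ?_
      calc Z ^ (1 - κ) ≤ Z ^ (1 : ℝ) := Real.rpow_le_rpow_of_exponent_le hZ1 (by linarith)
        _ = Z := Real.rpow_one Z
    linarith
  have hx0 : (0 : ℝ) < x := by
    rcases Nat.eq_zero_or_pos x with h | h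
    · exfalso
      have h4 := hx.1
      rw [h] at h4
      simp only [Nat.cast_zero, Real.log_zero] at h4
      have : 0 < Z ^ (1 + κ) := Real.rpow_pos_of_pos hZ0 _
      linarith
    · exact_mod_cast h
  -- first term
  have hfirst : (x : ℝ) * Z ^ (7 : ℕ) / q * ∑ d ∈ D, 1 / (d : ℝ) ≤ x / (q * Z ^ (10 : ℕ)) / 2 := by
    have h4 : Z ^ (7 : ℕ) * ∑ d ∈ D, 1 / (d : ℝ) ≤ 1 / Z ^ (10 : ℕ) / 2 := by
      calc Z ^ (7 : ℕ) * ∑ d ∈ D, 1 / (d : ℝ)
          ≤ Z ^ (7 : ℕ) * Real.exp (-Z ^ (5 * κ / 4) + 12 * Real.log Z + 12 * C) :=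
            mul_le_mul_of_nonneg_left hsum (by positivity)
        _ = Real.exp (7 * Real.log Z + (-Z ^ (5 * κ / 4) + 12 * Real.log Z + 12 * C)) := by
            rw [Real.exp_add (7 * Real.log Z)]
            congr 1
            rw [mul_comm, Real.exp_mul, Real.exp_log hZ0]
            norm_cast
        _ ≤ Real.exp (-(10 * Real.log Z) - Real.log 2) := by
            apply Real.exp_le_exp.mpr
            linarith
        _ = 1 / Z ^ (10 : ℕ) / 2 := by
            rw [Real.exp_sub, Real.exp_neg, Real.exp_log (by norm_num : (0 : ℝ) < 2)]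
            rw [mul_comm (10 : ℝ), Real.exp_mul, Real.exp_log hZ0, one_div]
            norm_cast
    calc (x : ℝ) * Z ^ (7 : ℕ) / q * ∑ d ∈ D, 1 / (d : ℝ)
        = (x / q) * (Z ^ (7 : ℕ) * ∑ d ∈ D, 1 / (d : ℝ)) := by ring
      _ ≤ (x / q) * (1 / Z ^ (10 : ℕ) / 2) := mul_le_mul_of_nonneg_left h4 (by positivity)
      _ = x / (q * Z ^ (10 : ℕ)) / 2 := by field_simp
  -- second term
  have hsecond : S * W ≤ x / (q * Z ^ (10 : ℕ)) / 2 := by
    have ht : Z ^ (1 + κ / 4) = Z * Z ^ (κ / 4) := by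
      rw [Real.rpow_add hZ0, Real.rpow_one]
    have ht4 : Z ^ (1 + κ) = Z * (Z ^ (κ / 4)) ^ (4 : ℕ) := by
      rw [Real.rpow_add hZ0, Real.rpow_one, ← Real.rpow_natCast, ← Real.rpow_mul hZ0.le]
      congr 2
      push_cast
      ring
    set t := Z ^ (κ / 4) with htdef
    have h5 : Z ^ (1 - κ) ≤ Z := by
      calc Z ^ (1 - κ) ≤ Z ^ (1 : ℝ) := Real.rpow_le_rpow_of_exponent_le hZ1 (by linarith)
        _ = Z := Real.rpow_one Z
    have h6 : Real.log 2 ≤ Z := by
      have := Real.log_two_lt_d9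
      linarith
    have h7 : Real.log Z ≤ Z := (Real.log_le_sub_one_of_pos hZ0).trans (by linarith)
    have h8 : t + 14 ≤ t ^ (4 : ℕ) := by
      have : 27 ≤ t ^ 3 := by
        calc (27 : ℝ) = 3 ^ 3 := by norm_num
          _ ≤ t ^ 3 := pow_le_pow_left₀ (by norm_num) h1 3
      nlinarith
    have h9 : Z ^ (1 + κ / 4) + Z ^ (1 - κ) + Real.log 2 + z * Real.log 4 + 10 * Real.log Z ≤
        Real.log x := by
      have h10 : Real.log 4 ≤ 2 := by
        rw [show (4 : ℝ) = 2 ^ 2 by norm_num, Real.log_pow]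
        have := Real.log_two_lt_d9
        push_cast
        linarith
      have h11 : (z : ℝ) * Real.log 4 ≤ Z * 2 := mul_le_mul_of_nonneg_left h10 hZ0.le
      have h12 : Z * (t + 14) ≤ Z * t ^ (4 : ℕ) := mul_le_mul_of_nonneg_left h8 hZ0.le
      have h13 := hx.1
      rw [← hZ] at h13
      rw [ht4] at h13
      rw [ht]
      linarith
    have h14 : S * W * (2 * q * Z ^ (10 : ℕ)) ≤ x := by
      calc S * W * (2 * q * Z ^ (10 : ℕ))
          ≤ S * Real.exp (Z ^ (1 - κ)) * (2 * 4 ^ z * Z ^ (10 : ℕ)) := by gcongr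
        _ = Real.exp (Z ^ (1 + κ / 4) + Z ^ (1 - κ) + Real.log 2 + z * Real.log 4 +
              10 * Real.log Z) := by
            have e1 : Real.exp ((z : ℝ) * Real.log 4) = 4 ^ z := by
              rw [mul_comm, Real.exp_mul, Real.exp_log (by norm_num : (0 : ℝ) < 4),
                Real.rpow_natCast]
            have e2 : Real.exp (10 * Real.log Z) = Z ^ (10 : ℕ) := by
              rw [mul_comm, Real.exp_mul, Real.exp_log hZ0]
              norm_cast
            rw [Real.exp_add, Real.exp_add, Real.exp_add, Real.exp_add,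
              Real.exp_log (by norm_num : (0 : ℝ) < 2), e1, e2]
            ring
        _ ≤ Real.exp (Real.log x) := Real.exp_le_exp.mpr h9
        _ = x := Real.exp_log hx0
    rw [div_div, le_div_iff₀ (by positivity)]
    calc S * W * (q * Z ^ (10 : ℕ) * 2) = S * W * (2 * q * Z ^ (10 : ℕ)) := by ring
      _ ≤ x := h14
  calc ((((Ioc x (2 * x)).filter fun n => n ≡ a [MOD q] ∧
        Real.exp (Z ^ (1 + κ / 2)) < sm W n).card : ℕ) : ℝ)
      ≤ (((D.biUnion fun d => (Ioc x (2 * x)).filter fun n => n ≡ a [MOD q] ∧ d ∣ n).card : ℕ)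
          : ℝ) := by exact_mod_cast Finset.card_le_card hcover
    _ ≤ ∑ d ∈ D, ((((Ioc x (2 * x)).filter fun n => n ≡ a [MOD q] ∧ d ∣ n).card : ℕ) : ℝ) := by
        exact_mod_cast Finset.card_biUnion_le
    _ ≤ ∑ d ∈ D, ((x : ℝ) * Z ^ (7 : ℕ) / (q * d) + 1) := by
        apply Finset.sum_le_sum
        intro d hd
        rw [hD, Finset.mem_filter, Finset.mem_Icc] at hd
        exact MA.count_le x q a d hq0 hd.1.1 _ ha
    _ = (x : ℝ) * Z ^ (7 : ℕ) / q * ∑ d ∈ D, 1 / (d : ℝ) + D.card := by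
        rw [Finset.sum_add_distrib, Finset.mul_sum]
        congr 1
        · refine Finset.sum_congr rfl fun d _ => ?_
          rw [div_mul_div_comm, mul_one]
        · simp
    _ ≤ x / (q * Z ^ (10 : ℕ)) / 2 + x / (q * Z ^ (10 : ℕ)) / 2 := by
        exact add_le_add hfirst (hcardD.trans hsecond)
    _ = x / (q * Z ^ (10 : ℕ)) := by ring

end Pool.Agent.Work.MP_b0c12c_nt_shift
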