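import Mathlib
import Pool.Agent.Work.MP_b0c12c_nt_shift.Op
import Pool.Agent.Work.MP_b0c12c_nt_shift.WSap

/-!
Block MC: integers divisible by a moved fixed prime or by a prime just above `√x`.
-/

set_option autoImplicit false

namespace Pool.Agent.Work.MP_b0c12c_nt_shift

open Finset Filter

namespace MC

open WSap

/-- sizes -/
theorem facts (D z x : ℕ) (hz : 6 ≤ z) (hx : 100 * ((D : ℝ) + 1) * z ≤ Real.log x) :
    ∃ W : ℕ, z ≤ W ∧ Real.log x / (16 * ((D : ℝ) + 1)) ≤ Real.log W ∧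
      ((W : ℝ) ^ D ≤ Real.exp (Real.log x / 8)) ∧ W * W ≤ x ∧
      2 * (4 : ℝ) ^ z ≤ Real.exp (Real.log x / 8) ∧ (z : ℝ) ≤ Real.log x ∧ 0 < x := by
  obtain ⟨L, hL⟩ : ∃ L, L = Real.log x := ⟨_, rfl⟩
  rw [← hL] at hx ⊢
  have hzr : (6 : ℝ) ≤ z := by exact_mod_cast hz
  have hD0 : (0 : ℝ) ≤ D := Nat.cast_nonneg D
  have hD1 : (1 : ℝ) ≤ (D : ℝ) + 1 := by linarith
  have hLz : 100 * (z : ℝ) ≤ L := by
    have : 100 * (z : ℝ) ≤ 100 * ((D : ℝ) + 1) * z := by nlinarith
    linarith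
  have hx0 : 0 < x := by
    rcases Nat.eq_zero_or_pos x with h | h
    · rw [h, Nat.cast_zero, Real.log_zero] at hL
      linarith
    · exact h
  have hxe : Real.exp L = x := by rw [hL, Real.exp_log (by exact_mod_cast hx0)]
  obtain ⟨y, hy⟩ : ∃ y, y = L / (8 * ((D : ℝ) + 1)) := ⟨_, rfl⟩
  have hy1 : 12 * (z : ℝ) ≤ y := by
    rw [hy, le_div_iff₀ (by positivity)]
    nlinarith
  have hyL : y ≤ L / 8 := by
    rw [hy]
    apply div_le_div_of_nonneg_left (by linarith) (by norm_num)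
    linarith
  have hey := Real.add_one_le_exp y
  refine ⟨⌊Real.exp y⌋₊, ?_, ?_, ?_, ?_, ?_, by linarith, hx0⟩
  · apply Nat.le_floor
    linarith
  · have h1 : Real.exp y - 1 < ⌊Real.exp y⌋₊ := Nat.sub_one_lt_floor _
    have h2 : Real.exp (y / 2) ≤ Real.exp y - 1 := by
      have h3 : Real.exp y = Real.exp (y / 2) * Real.exp (y / 2) := by
        rw [← Real.exp_add]; ring_nf
      have h4 := Real.add_one_le_exp (y / 2)
      rw [h3]
      nlinarith
    have h5 : L / (16 * ((D : ℝ) + 1)) = y / 2 := by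
      rw [hy]
      field_simp
      ring
    rw [h5, ← Real.log_exp (y / 2)]
    exact Real.log_le_log (Real.exp_pos _) (by linarith)
  · have h1 : (⌊Real.exp y⌋₊ : ℝ) ≤ Real.exp y := Nat.floor_le (Real.exp_pos _).le
    calc ((⌊Real.exp y⌋₊ : ℕ) : ℝ) ^ D ≤ Real.exp y ^ D :=
          pow_le_pow_left₀ (Nat.cast_nonneg _) h1 _
      _ = Real.exp (D * y) := by rw [← Real.exp_nat_mul]
      _ ≤ Real.exp (L / 8) := by
          apply Real.exp_le_exp.2
          rw [hy, mul_div_assoc', div_le_div_iff₀ (by positivity) (by norm_num)]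
          nlinarith
  · have h1 : (⌊Real.exp y⌋₊ : ℝ) ≤ Real.exp y := Nat.floor_le (Real.exp_pos _).le
    have h2 : ((⌊Real.exp y⌋₊ * ⌊Real.exp y⌋₊ : ℕ) : ℝ) ≤ (x : ℝ) := by
      rw [← hxe]
      push_cast
      calc (⌊Real.exp y⌋₊ : ℝ) * ⌊Real.exp y⌋₊ ≤ Real.exp y * Real.exp y :=
            mul_le_mul h1 h1 (Nat.cast_nonneg _) (Real.exp_pos _).le
        _ = Real.exp (y + y) := by rw [Real.exp_add]
        _ ≤ Real.exp L := Real.exp_le_exp.2 (by linarith)
    exact_mod_cast h2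
  · have h1 : (2 : ℝ) ≤ Real.exp 1 := by
      have := Real.add_one_le_exp (1 : ℝ)
      linarith
    have h2 : (4 : ℝ) ^ z ≤ Real.exp (2 * z) := by
      have : (4 : ℝ) ≤ Real.exp 2 := by
        have h3 : Real.exp 2 = Real.exp 1 * Real.exp 1 := by rw [← Real.exp_add]; norm_num
        rw [h3]
        nlinarith
      calc (4 : ℝ) ^ z ≤ Real.exp 2 ^ z := pow_le_pow_left₀ (by norm_num) this _
        _ = Real.exp (2 * z) := by rw [← Real.exp_nat_mul]; ring_nf
    calc 2 * (4 : ℝ) ^ z ≤ Real.exp 1 * Real.exp (2 * z) :=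
          mul_le_mul h1 h2 (by positivity) (Real.exp_pos _).le
      _ = Real.exp (1 + 2 * z) := by rw [Real.exp_add]
      _ ≤ Real.exp (L / 8) := Real.exp_le_exp.2 (by linarith)

theorem sum_gw {π : ℕ → ℤ → ℝ} (hs : ∀ p, π p (-1) + π p 0 + π p 1 = 1) {p b : ℕ} (hp : 0 < p)
    (hb : b.Coprime p) : ∑ c ∈ range p, gw π p (b * c) = (p : ℝ) - 1 := by
  unfold gw
  rw [sum_sub_distrib, sum_comm]
  simp only [sum_ind_class_mul hp hb]
  rw [sum_sgn, hs p]
  simp

theorem sum_av {p b : ℕ} (hp : 0 < p) (hb : b.Coprime p) (s : ℤ) :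
    ∑ c ∈ range p, (if (p : ℤ) ∣ ((b * c : ℕ) : ℤ) - s then (0 : ℝ) else 1) = (p : ℝ) - 1 := by
  have h : ∀ c : ℕ, (if (p : ℤ) ∣ ((b * c : ℕ) : ℤ) - s then (0 : ℝ) else 1) =
      1 - (if (p : ℤ) ∣ ((b * c : ℕ) : ℤ) - s then 1 else 0) := by
    intro c
    split_ifs <;> norm_num
  simp only [h]
  rw [sum_sub_distrib, sum_ind_class_mul hp hb]
  simp

theorem card_gw {π : ℕ → ℤ → ℝ} {p b : ℕ} (hp : 0 < p) (hb : b.Coprime p) :
    ((range p).filter fun c => gw π p (b * c) ≠ 1).card ≤ 3 := by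
  calc ((range p).filter fun c => gw π p (b * c) ≠ 1).card ≤
        (sgn.biUnion fun s => (range p).filter fun c : ℕ => (p : ℤ) ∣ ((b * c : ℕ) : ℤ) - s).card := by
        apply card_le_card
        intro c hc
        rw [mem_filter] at hc
        rw [mem_biUnion]
        by_contra hcon
        push Not at hcon
        apply hc.2
        unfold gw
        rw [sum_eq_zero, sub_zero]
        intro s hs
        have h1 := hcon s hs
        rw [mem_filter] at h1
        push Not at h1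
        rw [if_neg (h1 hc.1)]
    _ ≤ ∑ s ∈ sgn, ((range p).filter fun c : ℕ => (p : ℤ) ∣ ((b * c : ℕ) : ℤ) - s).card :=
        card_biUnion_le
    _ = ∑ s ∈ sgn, 1 := sum_congr rfl fun s _ => card_ind_class_mul hp hb s
    _ = 3 := by decide

theorem card_av {p b : ℕ} (hp : 0 < p) (hb : b.Coprime p) (s : ℤ) :
    ((range p).filter fun c => (if (p : ℤ) ∣ ((b * c : ℕ) : ℤ) - s then (0 : ℝ) else 1) ≠ 1).card
      ≤ 3 := by
  calc ((range p).filter fun c => (if (p : ℤ) ∣ ((b * c : ℕ) : ℤ) - s then (0 : ℝ) else 1) ≠ 1).card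
      ≤ ((range p).filter fun c : ℕ => (p : ℤ) ∣ ((b * c : ℕ) : ℤ) - s).card := by
        apply card_le_card
        intro c hc
        rw [mem_filter] at hc ⊢
        refine ⟨hc.1, ?_⟩
        by_contra hcon
        apply hc.2
        rw [if_neg hcon]
    _ ≤ 3 := by rw [card_ind_class_mul hp hb s]; norm_num

/-- the bound for one prime `b` -/
theorem per_b (hWS : Stmt_WS) : ∃ C : ℝ, 0 < C ∧ ∃ D : ℕ, ∀ (π : ℕ → ℤ → ℝ),
    (∀ p s, 0 ≤ π p s) → (∀ p, π p (-1) + π p 0 + π p 1 = 1) → ∀ (A : Finset ℕ) (z p0 x b : ℕ),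
    6 ≤ z → 100 * ((D : ℝ) + 1) * z ≤ Real.log x → b.Prime → z < b → b * b ≤ 2 * x →
    ∀ (v : ℕ → ℤ) (S : Finset ℕ), (∀ n ∈ S, n ∈ Ioc x (2 * x) ∧ b ∣ n ∧ SurvF v A x n) →
    (∀ n ∈ S, ∀ n' ∈ S, n ≡ n' [MOD qq z p0]) →
      ∑ n ∈ S, Wt π A n ≤ C * (1 / b) * (x * Real.log z / (qq z p0 * Real.log x)) := by
  obtain ⟨C, hC, D, hD⟩ := ws_ap hWS 3 (by norm_num)
  obtain ⟨C', hC', hM⟩ := mertens_prod
  refine ⟨C * 2 * C' * (16 * (D + 1)), by positivity, D,
    fun π hπ hs A z p0 x b hz hx hb hzb hbx v S hS hSq => ?_⟩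
  obtain ⟨W, hzW, hlogW, hWD, hWW, h4z, hzL, hx0⟩ := facts D z x hz hx
  obtain ⟨q, hq⟩ : ∃ q, q = qq z p0 := ⟨_, rfl⟩
  rw [← hq] at hSq ⊢
  have hq0 : 0 < q := by rw [hq]; exact qq_pos z p0
  have hqr : (0 : ℝ) < q := by exact_mod_cast hq0
  have hq1 : (1 : ℝ) ≤ q := by exact_mod_cast hq0
  have hq4 : (q : ℝ) ≤ 4 ^ z := by
    have := qq_le z p0
    rw [← hq] at this
    exact_mod_cast this
  have hxr : (0 : ℝ) < x := by exact_mod_cast hx0
  have hzr : (6 : ℝ) ≤ z := by exact_mod_cast hz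
  have hL0 : 0 < Real.log x := by linarith
  have hb0 : 0 < b := hb.pos
  have hbr : (0 : ℝ) < b := by exact_mod_cast hb0
  obtain ⟨e, he⟩ : ∃ e, e = Real.exp (Real.log x / 8) := ⟨_, rfl⟩
  have he0 : 0 < e := by rw [he]; exact Real.exp_pos _
  have he1 : 1 ≤ e := by
    rw [he]
    exact Real.one_le_exp (by positivity)
  have hx8 : (x : ℝ) = e ^ 8 := by
    rw [he, ← Real.exp_nat_mul]
    have : ((8 : ℕ) : ℝ) * (Real.log x / 8) = Real.log x := by push_cast; ring
    rw [this, Real.exp_log hxr]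
  rw [← he] at hWD h4z
  -- b ≤ 2 e ^ 4
  have hb4 : (b : ℝ) ≤ 2 * e ^ 4 := by
    have h1 : (b : ℝ) * b ≤ 2 * e ^ 8 := by
      rw [← hx8]
      exact_mod_cast hbx
    by_contra hcon
    push Not at hcon
    have h2 : (2 * e ^ 4) * (2 * e ^ 4) < (b : ℝ) * b :=
      mul_lt_mul'' hcon hcon (by positivity) (by positivity)
    have h3 : (2 * e ^ 4) * (2 * e ^ 4) = 4 * e ^ 8 := by ring
    have h4 : 0 < e ^ 8 := by positivity
    linarith
  -- b q ≤ e ^ 5
  have hbq : (b : ℝ) * q ≤ e ^ 5 := by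
    calc (b : ℝ) * q ≤ (2 * e ^ 4) * (4 : ℝ) ^ z :=
          mul_le_mul hb4 hq4 hqr.le (by positivity)
      _ = e ^ 4 * (2 * 4 ^ z) := by ring
      _ ≤ e ^ 4 * e := mul_le_mul_of_nonneg_left h4z (by positivity)
      _ = e ^ 5 := by ring
  have hpow : e ^ 5 * e ≤ x := by
    rw [hx8]
    calc e ^ 5 * e = e ^ 6 := by ring
      _ ≤ e ^ 8 := pow_le_pow_right₀ he1 (by norm_num)
  have hbqx : (b : ℝ) * q * e ≤ x :=
    (mul_le_mul_of_nonneg_right hbq he0.le).trans hpow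
  obtain ⟨X, hX⟩ : ∃ X, X = x / b := ⟨_, rfl⟩
  obtain ⟨N, hN⟩ : ∃ N, N = X / q + 1 := ⟨_, rfl⟩
  have hqX : q ≤ X := by
    rw [hX, Nat.le_div_iff_mul_le hb0]
    have : (q : ℝ) * b ≤ x := by
      calc (q : ℝ) * b = b * q := by ring
        _ ≤ b * q * e := le_mul_of_one_le_right (by positivity) he1
        _ ≤ x := hbqx
    exact_mod_cast this
  have hX1 : x < b * (X + 1) := by rw [hX]; exact Nat.lt_mul_div_succ x hb0
  have hX2 : X * b ≤ x := by rw [hX]; exact Nat.div_mul_le_self x b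
  have hN1 : X < q * N := by rw [hN]; exact Nat.lt_mul_div_succ X hq0
  have hN2 : (N : ℝ) ≤ 2 * (x / (b * q)) := by
    have h1 : 1 ≤ X / q := by
      rw [Nat.le_div_iff_mul_le hq0]
      omega
    have h2 : N ≤ 2 * (X / q) := by omega
    have h3 : ((X / q : ℕ) : ℝ) ≤ x / (b * q) := by
      rw [le_div_iff₀ (by positivity)]
      have h4 : X / q * q ≤ X := Nat.div_mul_le_self X q
      have h5 : X / q * (b * q) ≤ x := by
        calc X / q * (b * q) = (X / q * q) * b := by ring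
          _ ≤ X * b := Nat.mul_le_mul_right b h4
          _ ≤ x := hX2
      exact_mod_cast h5
    calc (N : ℝ) ≤ ((2 * (X / q) : ℕ) : ℝ) := by exact_mod_cast h2
      _ = 2 * ((X / q : ℕ) : ℝ) := by push_cast; ring
      _ ≤ _ := by linarith
  have hN3 : W ^ D ≤ N := by
    have h1 : (x : ℝ) < b * q * N := by
      have h2 : X + 1 ≤ q * N := hN1
      have h3 : x < b * (q * N) := lt_of_lt_of_le hX1 (Nat.mul_le_mul_left b h2)
      have h4 : ((x : ℕ) : ℝ) < ((b * (q * N) : ℕ) : ℝ) := by exact_mod_cast h3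
      push_cast at h4
      linarith
    have h5 : e ≤ N := by
      have h6 : (b : ℝ) * q * e < b * q * N := lt_of_le_of_lt hbqx h1
      exact (lt_of_mul_lt_mul_left h6 (by positivity)).le
    have h7 : ((W ^ D : ℕ) : ℝ) ≤ N := by
      push_cast
      exact hWD.trans h5
    exact_mod_cast h7
  -- the sifting data
  obtain ⟨P, hP⟩ : ∃ P, P = ((Ioc z W).filter Nat.Prime).erase b := ⟨_, rfl⟩
  obtain ⟨G, hG⟩ : ∃ G : ℕ → ℕ → ℝ, G = fun p m => if p ∈ A then gw π p (b * m) else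
      (if (p : ℤ) ∣ ((b * m : ℕ) : ℤ) - v p then 0 else 1) := ⟨_, rfl⟩
  have hPp : ∀ p ∈ P, p.Prime ∧ z < p ∧ p ≤ W ∧ p ≠ b := by
    intro p hp
    rw [hP, mem_erase, mem_filter, mem_Ioc] at hp
    exact ⟨hp.2.2, hp.2.1.1, hp.2.1.2, hp.1⟩
  have hbp : ∀ p ∈ P, b.Coprime p := fun p hp =>
    (Nat.coprime_primes hb (hPp p hp).1).2 (hPp p hp).2.2.2.symm
  obtain ⟨T, hT⟩ : ∃ T, T = S.image (fun n => n / b) := ⟨_, rfl⟩
  have hSb : ∀ n ∈ S, b * (n / b) = n := fun n hn => Nat.mul_div_cancel' (hS n hn).2.1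
  have hinj : Set.InjOn (fun n => n / b) (S : Set ℕ) := by
    intro n hn n' hn' h
    have h' : n / b = n' / b := h
    rw [← hSb n hn, ← hSb n' hn', h']
  have hqb : (q).Coprime b := by rw [hq]; exact qq_coprime hb hzb
  have key := hD W N X q P G T (by omega)
    (fun p hp => ⟨(hPp p hp).1, by have := (hPp p hp).2.1; omega, (hPp p hp).2.2.1, by
      rw [hq]; exact qq_coprime (hPp p hp).1 (hPp p hp).2.1⟩) hN3 hq0 hqX
    (by
      intro p hp m m' hmm
      have h1 : b * m ≡ b * m' [MOD p] := hmm.mul_left b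
      rw [hG]
      simp only
      split_ifs with h2 h3 h4 h5
      · unfold gw
        congr 1
        refine sum_congr rfl fun s _ => ?_
        simp only [dvd_sub_iff s h1]
      · rfl
      · exact absurd ((dvd_sub_iff (v p) h1).1 h3) h4
      · exact absurd ((dvd_sub_iff (v p) h1).2 h5) h3
      · rfl)
    (by
      intro p hp m
      rw [hG]
      simp only
      split_ifs
      · exact ⟨gw_nonneg hπ hs p _, gw_le_one hπ p _⟩
      · norm_num
      · norm_num)
    (by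
      intro p hp
      rw [hG]
      by_cases h2 : p ∈ A
      · simp only [h2, if_true]
        exact card_gw (hPp p hp).1.pos (hbp p hp)
      · simp only [h2, if_false]
        exact card_av (hPp p hp).1.pos (hbp p hp) (v p))
    (by
      intro m hm
      rw [hT] at hm
      obtain ⟨n, hn, rfl⟩ := mem_image.1 hm
      have h1 := hSb n hn
      have h2 := (mem_Ioc.1 (hS n hn).1)
      have h3 : n / b = n / b := rfl
      obtain ⟨k, hk⟩ : ∃ k, k = n / b := ⟨_, rfl⟩
      rw [← hk] at h1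
      show X < n / b ∧ n / b ≤ X + N * q
      rw [← hk]
      constructor
      · by_contra hcon
        push Not at hcon
        have : b * k ≤ X * b := by rw [mul_comm X b]; exact Nat.mul_le_mul_left b hcon
        omega
      · by_contra hcon
        push Not at hcon
        have h4 : X + 1 ≤ N * q := by rw [mul_comm N q]; exact hN1
        have h5 : 2 * (X + 1) ≤ k := by omega
        have h6 : b * (2 * (X + 1)) ≤ b * k := Nat.mul_le_mul_left b h5
        have h7 : b * (2 * (X + 1)) = 2 * (b * (X + 1)) := by ring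
        omega)
    (by
      intro m hm m' hm'
      rw [hT] at hm hm'
      obtain ⟨n, hn, rfl⟩ := mem_image.1 hm
      obtain ⟨n', hn', rfl⟩ := mem_image.1 hm'
      have h1 := hSq n hn n' hn'
      rw [← hSb n hn, ← hSb n' hn'] at h1
      exact Nat.ModEq.cancel_left_of_coprime hqb h1)
  have hprod : ∏ p ∈ P, ((∑ c ∈ range p, G p c) / (p : ℝ)) = ∏ p ∈ P, (1 - 1 / (p : ℝ)) := by
    refine prod_congr rfl fun p hp => ?_
    have hp0 : (0 : ℝ) < p := by exact_mod_cast (hPp p hp).1.pos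
    have h1 : ∑ c ∈ range p, G p c = (p : ℝ) - 1 := by
      rw [hG]
      by_cases h2 : p ∈ A
      · simp only [h2, if_true]
        exact sum_gw hs (hPp p hp).1.pos (hbp p hp)
      · simp only [h2, if_false]
        exact sum_av (hPp p hp).1.pos (hbp p hp) (v p)
    rw [h1, sub_div, div_self hp0.ne']
  have hWt : ∀ n ∈ S, Wt π A n ≤ ∏ p ∈ P, G p (n / b) := by
    intro n hn
    have h1 : ∏ p ∈ P, G p (n / b) = ∏ p ∈ P.filter (· ∈ A), gw π p n := by
      rw [prod_filter]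
      refine prod_congr rfl fun p hp => ?_
      rw [hG]
      simp only [hSb n hn]
      split_ifs with h2 h3
      · rfl
      · exfalso
        have h4 := (hS n hn).2.2 p (hPp p hp).1 ((Nat.mul_self_le_mul_self (hPp p hp).2.2.1).trans
          hWW) h2
        exact h4 h3
      · rfl
    rw [h1]
    have h2 : P.filter (· ∈ A) ⊆ A := fun p hp => (mem_filter.1 hp).2
    unfold Wt
    rw [← prod_sdiff h2]
    have h3 : ∏ p ∈ A \ P.filter (· ∈ A), gw π p n ≤ 1 :=
      prod_le_one (fun p _ => gw_nonneg hπ hs p n) fun p _ => gw_le_one hπ p n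
    have h4 : 0 ≤ ∏ p ∈ P.filter (· ∈ A), gw π p n := prod_nonneg fun p _ => gw_nonneg hπ hs p n
    calc _ ≤ 1 * ∏ p ∈ P.filter (· ∈ A), gw π p n := mul_le_mul_of_nonneg_right h3 h4
      _ = _ := one_mul _
  have hlz : 0 < Real.log z := Real.log_pos (by linarith)
  have hlW : Real.log z / Real.log W ≤ 16 * ((D : ℝ) + 1) * (Real.log z / Real.log x) := by
    have h1 : 0 < Real.log x / (16 * ((D : ℝ) + 1)) := by positivity
    calc Real.log z / Real.log W ≤ Real.log z / (Real.log x / (16 * ((D : ℝ) + 1))) :=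
          div_le_div_of_nonneg_left hlz.le h1 hlogW
      _ = _ := by field_simp
  calc ∑ n ∈ S, Wt π A n ≤ ∑ n ∈ S, ∏ p ∈ P, G p (n / b) := sum_le_sum hWt
    _ = ∑ m ∈ T, ∏ p ∈ P, G p m := by rw [hT, sum_image hinj]
    _ ≤ C * N * ∏ p ∈ P, ((∑ c ∈ range p, G p c) / p) := key
    _ = C * N * ∏ p ∈ P, (1 - 1 / (p : ℝ)) := by rw [hprod]
    _ ≤ C * N * (C' * (Real.log z / Real.log W)) := by
        rw [hP]
        exact mul_le_mul_of_nonneg_left (hM z W b (by omega) hzW) (by positivity)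
    _ ≤ C * (2 * (x / (b * q))) * (C' * (16 * ((D : ℝ) + 1) * (Real.log z / Real.log x))) := by
        apply mul_le_mul
        · exact mul_le_mul_of_nonneg_left hN2 hC.le
        · exact mul_le_mul_of_nonneg_left hlW hC'.le
        · have : 0 ≤ Real.log W := by
            apply Real.log_nonneg
            exact_mod_cast (by omega : 1 ≤ W)
          positivity
        · positivity
    _ = C * 2 * C' * (16 * (D + 1)) * (1 / b) * (x * Real.log z / (q * Real.log x)) := by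
        field_simp

/-- the primes just above `√x` -/
theorem sum_above {x : ℕ} (hx : 0 < Real.log x) (Bs : Finset ℕ)
    (hB : ∀ b ∈ Bs, b.Prime ∧ x < b * b ∧ b * b ≤ 2 * x) :
    ∑ b ∈ Bs, 1 / (b : ℝ) ≤ 6 / Real.log x := by
  have hx0 : 0 < x := by
    rcases Nat.eq_zero_or_pos x with h | h
    · rw [h, Nat.cast_zero, Real.log_zero] at hx
      exact absurd hx (lt_irrefl _)
    · exact h
  have hxr : (0 : ℝ) < x := by exact_mod_cast hx0
  obtain ⟨s, hs⟩ : ∃ s, s = Real.sqrt x := ⟨_, rfl⟩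
  have hs0 : 0 < s := by rw [hs]; exact Real.sqrt_pos.2 hxr
  have hss : s * s = x := by rw [hs]; exact Real.mul_self_sqrt hxr.le
  have hlogs : Real.log s = Real.log x / 2 := by
    rw [hs, Real.log_sqrt hxr.le]
  have h1 : ∀ b ∈ Bs, s < b := by
    intro b hb
    have h2 : (x : ℝ) < (b : ℝ) * b := by exact_mod_cast (hB b hb).2.1
    by_contra hcon
    push Not at hcon
    have h3 : (b : ℝ) * b ≤ s * s := mul_le_mul hcon hcon (Nat.cast_nonneg _) hs0.le
    linarith
  have h2 : ∀ b ∈ Bs, (b : ℝ) ≤ 3 / 2 * s := by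
    intro b hb
    have h2 : (b : ℝ) * b ≤ 2 * x := by exact_mod_cast (hB b hb).2.2
    by_contra hcon
    push Not at hcon
    have h3 : (3 / 2 * s) * (3 / 2 * s) < (b : ℝ) * b :=
      mul_lt_mul'' hcon hcon (by positivity) (by positivity)
    have h4 : (3 / 2 * s) * (3 / 2 * s) = 9 / 4 * x := by rw [← hss]; ring
    linarith
  have h3 : ∑ b ∈ Bs, Real.log b ≤ Real.log 4 * (3 / 2 * s) := by
    refine le_trans ?_ (Chebyshev.theta_le_log4_mul_x (by positivity))
    unfold Chebyshev.theta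
    apply sum_le_sum_of_subset_of_nonneg
    · intro b hb
      rw [mem_filter, mem_Ioc]
      exact ⟨⟨(hB b hb).1.pos, Nat.le_floor (h2 b hb)⟩, (hB b hb).1⟩
    · intro b hb _
      exact Real.log_nonneg (by exact_mod_cast (mem_filter.1 hb).2.one_lt.le)
  have h4 : Real.log 4 < 1.4 := by
    have h5 : Real.log 4 = 2 * Real.log 2 := by
      rw [show (4 : ℝ) = 2 ^ 2 by norm_num, Real.log_pow]
      norm_num
    have := Real.log_two_lt_d9
    linarith
  have h5 : ∀ b ∈ Bs, 1 / (b : ℝ) ≤ 1 / s * (2 / Real.log x * Real.log b) := by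
    intro b hb
    have hb1 := h1 b hb
    have h6 : Real.log s ≤ Real.log b := Real.log_le_log hs0 hb1.le
    rw [hlogs] at h6
    have h7 : 1 ≤ 2 / Real.log x * Real.log b := by
      rw [div_mul_eq_mul_div, le_div_iff₀ hx]
      linarith
    have h8 : 1 / (b : ℝ) ≤ 1 / s := one_div_le_one_div_of_le hs0 hb1.le
    calc 1 / (b : ℝ) ≤ 1 / s := h8
      _ ≤ 1 / s * (2 / Real.log x * Real.log b) :=
          le_mul_of_one_le_right (by positivity) h7
  calc ∑ b ∈ Bs, 1 / (b : ℝ) ≤ ∑ b ∈ Bs, 1 / s * (2 / Real.log x * Real.log b) := sum_le_sum h5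
    _ = 1 / s * (2 / Real.log x * ∑ b ∈ Bs, Real.log b) := by rw [← mul_sum, ← mul_sum]
    _ ≤ 1 / s * (2 / Real.log x * (1.4 * (3 / 2 * s))) := by
        apply mul_le_mul_of_nonneg_left _ (by positivity)
        apply mul_le_mul_of_nonneg_left _ (by positivity)
        refine h3.trans ?_
        apply mul_le_mul_of_nonneg_right h4.le (by positivity)
    _ = 4.2 / Real.log x := by
        field_simp
        norm_num
    _ ≤ 6 / Real.log x := by
        apply div_le_div_of_nonneg_right _ hx.le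
        norm_num

end MC

/-- Block MC. -/
theorem stmt_MC (hWS : Stmt_WS) : Stmt_MC := by
  obtain ⟨C, hC, D, hD⟩ := MC.per_b hWS
  refine ⟨6 * C, by positivity, fun π c₁ c₂ hlaw κ hκ _ B _ => ?_⟩
  have ev : ∀ᶠ z : ℕ in atTop, 100 * ((D : ℝ) + 1) ≤ (z : ℝ) ^ κ :=
    ((tendsto_rpow_atTop hκ).comp tendsto_natCast_atTop_atTop).eventually_ge_atTop _
  obtain ⟨z1, hz1⟩ := eventually_atTop.1 ev
  refine ⟨max z1 6, fun z hz p0 hp0 x hx v hv a S hS => ?_⟩
  have hzz1 : z1 ≤ z := (le_max_left _ _).trans hz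
  have hz6 : 6 ≤ z := (le_max_right _ _).trans hz
  have hzr : (6 : ℝ) ≤ z := by exact_mod_cast hz6
  have hzpos : (0 : ℝ) < z := by linarith
  have hxL : 100 * ((D : ℝ) + 1) * z ≤ Real.log x := by
    refine le_trans ?_ hx.1
    rw [Real.rpow_add hzpos, Real.rpow_one, mul_comm (z : ℝ) ((z : ℝ) ^ κ)]
    exact mul_le_mul_of_nonneg_right (hz1 z hzz1) hzpos.le
  have hLz : (z : ℝ) ≤ Real.log x := by
    have : (z : ℝ) ≤ 100 * ((D : ℝ) + 1) * z := by
      have : (0 : ℝ) ≤ D := Nat.cast_nonneg D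
      nlinarith
    linarith
  have hL0 : 0 < Real.log x := by linarith
  obtain ⟨A, hA⟩ : ∃ A, A = AA κ B z p0 := ⟨_, rfl⟩
  rw [← hA] at hS ⊢
  obtain ⟨B1, hB1⟩ : ∃ B1, B1 = MV v A z x := ⟨_, rfl⟩
  obtain ⟨B2, hB2⟩ : ∃ B2, B2 = (Icc 1 (2 * x)).filter (fun b => b.Prime ∧ x < b * b ∧
    b * b ≤ 2 * x) := ⟨_, rfl⟩
  have hW0 : ∀ n, 0 ≤ Wt π A n := fun n => Wt_nonneg hlaw.nonneg hlaw.sum_one A n
  have hxz : z * z ≤ x := by
    obtain ⟨W, h1, _, _, h2, _⟩ := MC.facts D z x hz6 hxL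
    exact (Nat.mul_self_le_mul_self h1).trans h2
  have hper : ∀ b : ℕ, b.Prime → z < b → b * b ≤ 2 * x →
      ∑ n ∈ S.filter (fun n => b ∣ n), Wt π A n ≤
        C * (1 / b) * (x * Real.log z / (qq z p0 * Real.log x)) := by
    intro b hb hzb hbx
    apply hD π hlaw.nonneg hlaw.sum_one A z p0 x b hz6 hxL hb hzb hbx v
    · intro n hn
      rw [mem_filter] at hn
      exact ⟨(hS n hn.1).1, hn.2, (hS n hn.1).2.2.1⟩
    · intro n hn n' hn'
      rw [mem_filter] at hn hn'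
      exact ((hS n hn.1).2.1).trans (hS n' hn'.1).2.1.symm
  have hB1p : ∀ b ∈ B1, b.Prime ∧ z < b ∧ b * b ≤ 2 * x := by
    intro b hb
    rw [hB1, MV, Finset.mem_sdiff, mem_filter, mem_Ioc] at hb
    obtain ⟨⟨⟨h1, h2⟩, h3, _⟩, _⟩ := hb
    refine ⟨h3, h1, ?_⟩
    have := Nat.le_sqrt.1 h2
    omega
  have hB2p : ∀ b ∈ B2, b.Prime ∧ x < b * b ∧ b * b ≤ 2 * x := by
    intro b hb
    rw [hB2, mem_filter] at hb
    exact hb.2
  have hB2z : ∀ b ∈ B2, z < b := by
    intro b hb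
    by_contra hcon
    push Not at hcon
    have h1 := Nat.mul_self_le_mul_self hcon
    have h2 := (hB2p b hb).2.1
    omega
  obtain ⟨Y, hY⟩ : ∃ Y, Y = (x : ℝ) * Real.log z / (qq z p0 * Real.log x) := ⟨_, rfl⟩
  have hlz : 0 < Real.log z := Real.log_pos (by linarith)
  have hq0 : (0 : ℝ) < qq z p0 := by exact_mod_cast WSap.qq_pos z p0
  have hY0 : 0 ≤ Y := by
    rw [hY]
    positivity
  rw [← hY] at hper ⊢
  have hsplit : ∑ n ∈ S, Wt π A n ≤ ∑ b ∈ B1, ∑ n ∈ S.filter (fun n => b ∣ n), Wt π A n +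
      ∑ b ∈ B2, ∑ n ∈ S.filter (fun n => b ∣ n), Wt π A n := by
    simp only [sum_filter]
    rw [sum_comm, sum_comm (s := B2), ← sum_add_distrib]
    refine sum_le_sum fun n hn => ?_
    obtain ⟨_, _, _, b, hb, hbn, hb2⟩ := hS n hn
    have h1 : 0 ≤ ∑ b ∈ B1, (if b ∣ n then Wt π A n else 0) :=
      sum_nonneg fun b _ => by split_ifs; exacts [hW0 n, le_rfl]
    have h2 : 0 ≤ ∑ b ∈ B2, (if b ∣ n then Wt π A n else 0) :=
      sum_nonneg fun b _ => by split_ifs; exacts [hW0 n, le_rfl]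
    rcases hb2 with hb2 | hb2
    · have h3 : Wt π A n ≤ ∑ b ∈ B1, (if b ∣ n then Wt π A n else 0) := by
        have h4 := single_le_sum (f := fun b => if b ∣ n then Wt π A n else 0)
          (fun b _ => by
            show 0 ≤ (if b ∣ n then Wt π A n else 0)
            split_ifs; exacts [hW0 n, le_rfl]) (show b ∈ B1 by rw [hB1]; exact hb2)
        simpa only [if_pos hbn] using h4
      linarith
    · have hbB2 : b ∈ B2 := by
        rw [hB2, mem_filter, mem_Icc]
        refine ⟨⟨hb.one_lt.le, ?_⟩, hb, hb2⟩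
        have : b ≤ b * b := Nat.le_mul_self b
        omega
      have h3 : Wt π A n ≤ ∑ b ∈ B2, (if b ∣ n then Wt π A n else 0) := by
        have h4 := single_le_sum (f := fun b => if b ∣ n then Wt π A n else 0)
          (fun b _ => by
            show 0 ≤ (if b ∣ n then Wt π A n else 0)
            split_ifs; exacts [hW0 n, le_rfl]) hbB2
        simpa only [if_pos hbn] using h4
      linarith
  have hs1 : ∑ b ∈ B1, ∑ n ∈ S.filter (fun n => b ∣ n), Wt π A n ≤ C * mvm v A z x * Y := by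
    calc ∑ b ∈ B1, ∑ n ∈ S.filter (fun n => b ∣ n), Wt π A n ≤ ∑ b ∈ B1, C * (1 / (b : ℝ)) * Y :=
          sum_le_sum fun b hb => hper b (hB1p b hb).1 (hB1p b hb).2.1 (hB1p b hb).2.2
      _ = C * mvm v A z x * Y := by
          rw [← sum_mul, ← mul_sum, hB1]
          rfl
  have hs2 : ∑ b ∈ B2, ∑ n ∈ S.filter (fun n => b ∣ n), Wt π A n ≤ C * (6 / z) * Y := by
    calc ∑ b ∈ B2, ∑ n ∈ S.filter (fun n => b ∣ n), Wt π A n ≤ ∑ b ∈ B2, C * (1 / (b : ℝ)) * Y :=
          sum_le_sum fun b hb => hper b (hB2p b hb).1 (hB2z b hb) (hB2p b hb).2.2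
      _ = C * (∑ b ∈ B2, 1 / (b : ℝ)) * Y := by rw [← sum_mul, ← mul_sum]
      _ ≤ C * (6 / z) * Y := by
          apply mul_le_mul_of_nonneg_right _ hY0
          apply mul_le_mul_of_nonneg_left _ hC.le
          refine (MC.sum_above hL0 B2 hB2p).trans ?_
          exact div_le_div_of_nonneg_left (by norm_num) hzpos hLz
  have hm0 : 0 ≤ mvm v A z x := sum_nonneg fun p _ => by positivity
  calc ∑ n ∈ S, Wt π A n ≤ C * mvm v A z x * Y + C * (6 / z) * Y :=
        hsplit.trans (add_le_add hs1 hs2)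
    _ ≤ 6 * C * mvm v A z x * Y + C * (6 / z) * Y := by
        have : 0 ≤ C * mvm v A z x * Y := by positivity
        linarith
    _ = 6 * C * (mvm v A z x + 1 / z) * Y := by ring

end Pool.Agent.Work.MP_b0c12c_nt_shift
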