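import Mathlib
import Pool.Agent.Work.MP_b0c12c_nt_helper41.Mert
import Pool.Agent.Work.MP_b0c12c_nt_shift.Interface

/-!
# Block MT: sums over primes
-/

set_option autoImplicit false

namespace Pool.Agent.Work.MP_b0c12c_nt_shift

open Finset Filter

namespace MTaux

/-- `log log` is nonnegative on `[3, ∞)`. -/
lemma one_le_log {x : ℝ} (hx : 3 ≤ x) : 1 ≤ Real.log x := by
  rw [Real.le_log_iff_exp_le (by linarith)]
  have := Real.exp_one_lt_d9
  linarith

/-- Mertens' theorem with a constant error. -/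
lemma mert : ∃ C : ℝ, 0 < C ∧ ∀ u v : ℕ, 2 ≤ u → u ≤ v →
    |∑ p ∈ (Ioc u v).filter Nat.Prime, 1 / (p : ℝ) -
      (Real.log (Real.log v) - Real.log (Real.log u))| ≤ C := by
  obtain ⟨C, hC, h⟩ := Pool.Agent.Work.MP_b0c12c_nt_helper41.mertens2
  have h2 : 0 < Real.log 2 := Real.log_pos (by norm_num)
  refine ⟨C / Real.log 2, by positivity, fun u v hu huv => (h u v hu huv).trans ?_⟩
  have : Real.log 2 ≤ Real.log u := Real.log_le_log (by norm_num) (by exact_mod_cast hu)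
  gcongr

lemma log_two_le : Real.log 2 ≤ 7 / 10 := by
  have := Real.log_two_lt_d9
  linarith

/-- The floor costs little. -/
lemma loglog_floor {a : ℝ} (ha : 0 ≤ a) :
    2 ≤ ⌊Real.exp (Real.exp a)⌋₊ ∧
    Real.log (Real.log ⌊Real.exp (Real.exp a)⌋₊) ≤ a ∧
    a - 2 ≤ Real.log (Real.log ⌊Real.exp (Real.exp a)⌋₊) := by
  have h1 : 1 ≤ Real.exp a := Real.one_le_exp ha
  have h2 : 2 ≤ Real.exp (Real.exp a) := by
    have := Real.add_one_le_exp (Real.exp a)
    linarith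
  have h3 : 2 ≤ ⌊Real.exp (Real.exp a)⌋₊ := by
    rw [Nat.le_floor_iff (Real.exp_pos _).le]
    exact_mod_cast h2
  have h4 : (⌊Real.exp (Real.exp a)⌋₊ : ℝ) ≤ Real.exp (Real.exp a) :=
    Nat.floor_le (Real.exp_pos _).le
  have h5 : Real.exp (Real.exp a) < (⌊Real.exp (Real.exp a)⌋₊ : ℝ) + 1 := Nat.lt_floor_add_one _
  set U : ℕ := ⌊Real.exp (Real.exp a)⌋₊
  have h3' : (2 : ℝ) ≤ U := by exact_mod_cast h3
  have h6 : Real.log U ≤ Real.exp a := by
    rw [Real.log_le_iff_le_exp (by linarith)]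
    exact h4
  have h7 : Real.exp a - 7 / 10 ≤ Real.log U := by
    have h8 : Real.exp (Real.exp a) / 2 ≤ U := by linarith
    have h9 := Real.log_le_log (by positivity) h8
    rw [Real.log_div (Real.exp_pos _).ne' (by norm_num), Real.log_exp] at h9
    have := log_two_le
    linarith
  have h10 : 3 / 10 * Real.exp a ≤ Real.log U := by nlinarith
  refine ⟨h3, ?_, ?_⟩
  · rw [Real.log_le_iff_le_exp (by linarith)]
    exact h6
  · have h11 := Real.log_le_log (by positivity) h10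
    rw [Real.log_mul (by norm_num) (Real.exp_pos _).ne', Real.log_exp] at h11
    have h12 : -2 ≤ Real.log (3 / 10) := by
      rw [Real.le_log_iff_exp_le (by norm_num), Real.exp_neg]
      have h13 : (4 : ℝ) ≤ Real.exp 2 := by
        have h14 : Real.exp 2 = Real.exp 1 * Real.exp 1 := by rw [← Real.exp_add]; norm_num
        have := Real.exp_one_gt_d9
        rw [h14]
        nlinarith
      have h15 : (Real.exp 2)⁻¹ ≤ 4⁻¹ := inv_anti₀ (by norm_num) h13
      linarith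
    linarith

/-- Members of a block. -/
lemma mem_block {a b : ℝ} {p : ℕ}
    (hp : p ∈ Ioc ⌊Real.exp (Real.exp a)⌋₊ ⌊Real.exp (Real.exp b)⌋₊) :
    a < Real.log (Real.log p) ∧ Real.log (Real.log p) ≤ b := by
  rw [mem_Ioc, Nat.floor_lt (Real.exp_pos _).le, Nat.le_floor_iff (Real.exp_pos _).le] at hp
  have h0 : (0 : ℝ) < p := (Real.exp_pos _).trans hp.1
  have h1 : Real.exp a < Real.log p := by rw [Real.lt_log_iff_exp_lt h0]; exact hp.1
  have h2 : Real.log p ≤ Real.exp b := by rw [Real.log_le_iff_le_exp h0]; exact hp.2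
  have h3 : 0 < Real.log p := (Real.exp_pos _).trans h1
  constructor
  · rw [Real.lt_log_iff_exp_lt h3]; exact h1
  · rw [Real.log_le_iff_le_exp h3]; exact h2

/-- Mertens' theorem for blocks. -/
lemma mertb : ∃ C : ℝ, 0 < C ∧ ∀ a b : ℝ, 0 ≤ a → a ≤ b →
    |∑ p ∈ (Ioc ⌊Real.exp (Real.exp a)⌋₊ ⌊Real.exp (Real.exp b)⌋₊).filter Nat.Prime, 1 / (p : ℝ) -
      (b - a)| ≤ C := by
  obtain ⟨C, hC, h⟩ := mert
  refine ⟨C + 2, by positivity, fun a b ha hab => ?_⟩
  obtain ⟨h1, h2, h3⟩ := loglog_floor ha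
  obtain ⟨h4, h5, h6⟩ := loglog_floor (ha.trans hab)
  have h7 := h _ _ h1 (Nat.floor_le_floor (Real.exp_le_exp.2 (Real.exp_le_exp.2 hab)))
  rw [abs_le] at h7 ⊢
  constructor <;> linarith

/-- The upper end of the random primes. -/
lemma w1_eq (κ : ℝ) {z : ℕ} (hz : 0 < z) :
    w1 κ z = ⌊Real.exp (Real.exp ((1 - κ) * Real.log z))⌋₊ := by
  unfold w1
  rw [Real.rpow_def_of_pos (by exact_mod_cast hz), mul_comm]

lemma loglog_pow {z B : ℕ} (hz : 2 ≤ z) (hB : 0 < B) :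
    Real.log (Real.log ((z ^ B : ℕ) : ℝ)) = Real.log B + Real.log (Real.log z) := by
  push_cast
  rw [Real.log_pow, Real.log_mul (by positivity)]
  exact (Real.log_pos (by exact_mod_cast hz)).ne'

lemma tend_log : Tendsto (fun z : ℕ => Real.log z) atTop atTop :=
  Real.tendsto_log_atTop.comp tendsto_natCast_atTop_atTop

lemma tend_loglog : Tendsto (fun z : ℕ => Real.log (Real.log z)) atTop atTop :=
  Real.tendsto_log_atTop.comp tend_log

/-- `log log z = o(log z)` -/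
lemma loglog_small (c D : ℝ) (hc : 0 < c) :
    ∀ᶠ z : ℕ in atTop, Real.log (Real.log z) + D ≤ c * Real.log z := by
  have h1 : ∀ᶠ y : ℝ in atTop, ‖Real.log y‖ ≤ c / 2 * ‖y‖ :=
    Real.isLittleO_log_id_atTop.bound (by positivity)
  have h2 : ∀ᶠ y : ℝ in atTop, Real.log y + D ≤ c * y := by
    filter_upwards [h1, eventually_ge_atTop (1 : ℝ), eventually_ge_atTop (2 * D / c)] with y h3 h4 h5
    rw [Real.norm_eq_abs, Real.norm_eq_abs, abs_of_nonneg (by linarith : (0 : ℝ) ≤ y)] at h3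
    have h6 := (le_abs_self (Real.log y)).trans h3
    rw [div_le_iff₀ hc] at h5
    nlinarith
  exact tend_log.eventually h2

/-- `log log` of the integer power is below any multiple of `log z`. -/
lemma pow_le_block (c : ℝ) (hc : 0 < c) (B : ℕ) (hB : 0 < B) :
    ∀ᶠ z : ℕ in atTop, z ^ B ≤ ⌊Real.exp (Real.exp (c * Real.log z))⌋₊ := by
  filter_upwards [loglog_small c (Real.log B) hc, eventually_ge_atTop 2] with z hz hz2
  rw [Nat.le_floor_iff (Real.exp_pos _).le]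
  have h0 : (0 : ℝ) < ((z ^ B : ℕ) : ℝ) := by positivity
  rw [← Real.log_le_iff_le_exp h0]
  have h1 : 0 < Real.log ((z ^ B : ℕ) : ℝ) := by
    apply Real.log_pos
    have : 1 < z ^ B := Nat.one_lt_pow hB.ne' (by omega)
    exact_mod_cast this
  rw [← Real.log_le_iff_le_exp h1, loglog_pow hz2 hB]
  linarith

/-- Members of `AA`. -/
lemma mem_AA {κ : ℝ} {B z p0 p : ℕ} :
    p ∈ AA κ B z p0 ↔ p ≠ p0 ∧ (z ^ B < p ∧ p ≤ w1 κ z) ∧ p.Prime := by
  unfold AA
  simp [mem_erase, mem_filter, mem_Ioc]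

/-- Removing one term of size at most one. -/
lemma erase_sum (s : Finset ℕ) (f : ℕ → ℝ) (hf : ∀ p ∈ s, 0 ≤ f p ∧ f p ≤ 1) (p0 : ℕ) :
    ∑ p ∈ s, f p - 1 ≤ ∑ p ∈ s.erase p0, f p ∧ ∑ p ∈ s.erase p0, f p ≤ ∑ p ∈ s, f p := by
  by_cases h : p0 ∈ s
  · rw [← add_sum_erase s f h]
    have := hf p0 h
    constructor <;> linarith
  · rw [erase_eq_of_notMem h]
    constructor <;> linarith

lemma inv_prime_le {p : ℕ} (hp : 1 ≤ p) : 0 ≤ 1 / (p : ℝ) ∧ 1 / (p : ℝ) ≤ 1 := by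
  have : (1 : ℝ) ≤ p := by exact_mod_cast hp
  refine ⟨by positivity, ?_⟩
  rw [div_le_one (by linarith)]
  exact this

end MTaux

open MTaux

/-- part (1) -/
lemma MT1 (κ : ℝ) (hκ : 0 < κ) (hκ1 : κ ≤ 1 / 10) (B : ℕ) (hB : 2 ≤ B) :
    ∃ C : ℝ, ∀ z p0 : ℕ, 
    (1 - κ) * Real.log z - Real.log (Real.log z) - C ≤ ∑ p ∈ AA κ B z p0, 1 / (p : ℝ) ∧
    ∑ p ∈ AA κ B z p0, 1 / (p : ℝ) ≤ (1 - κ) * Real.log z - Real.log (Real.log z) + C := by
  obtain ⟨C₁, hC₁, hM⟩ := mert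
  obtain ⟨z₀, hz₀⟩ := eventually_atTop.1 ((pow_le_block (1 - κ) (by linarith) B (by omega)).and
    (eventually_ge_atTop 2))
  -- the bound for small z
  obtain ⟨G, hG⟩ : ∃ G : ℕ → ℝ, G = fun z : ℕ => |(1 - κ) * Real.log z - Real.log (Real.log z)| +
    ∑ p ∈ (Ioc (z ^ B) (w1 κ z)).filter Nat.Prime, 1 / (p : ℝ) := ⟨_, rfl⟩
  have hG0 : ∀ z, 0 ≤ G z := by
    intro z
    rw [hG]
    positivity
  have hBpos : (1 : ℝ) ≤ B := by exact_mod_cast (by omega : 1 ≤ B)
  have hlB : 0 ≤ Real.log B := Real.log_nonneg hBpos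
  refine ⟨∑ z ∈ range z₀, G z + (C₁ + 3 + Real.log B), fun z p0 => ?_⟩
  have hS0 : 0 ≤ ∑ z ∈ range z₀, G z := sum_nonneg fun z _ => hG0 z
  have hE := erase_sum ((Ioc (z ^ B) (w1 κ z)).filter Nat.Prime) (fun p => 1 / (p : ℝ))
    (fun p hp => inv_prime_le (by
      rw [mem_filter] at hp
      exact hp.2.one_lt.le)) p0
  have hE' : ∑ p ∈ AA κ B z p0, 1 / (p : ℝ) =
    ∑ p ∈ ((Ioc (z ^ B) (w1 κ z)).filter Nat.Prime).erase p0, 1 / (p : ℝ) := rfl
  rw [hE']
  rcases lt_or_ge z z₀ with hz | hz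
  · have h1 : G z ≤ ∑ z ∈ range z₀, G z :=
      single_le_sum (f := G) (fun z _ => hG0 z) (mem_range.2 hz)
    rw [hG] at h1
    simp only at h1
    have h2 := abs_le.1 (le_refl |(1 - κ) * Real.log z - Real.log (Real.log z)|)
    have h3 : 0 ≤ ∑ p ∈ ((Ioc (z ^ B) (w1 κ z)).filter Nat.Prime).erase p0, 1 / (p : ℝ) := by
      positivity
    have h4 : 0 ≤ ∑ p ∈ (Ioc (z ^ B) (w1 κ z)).filter Nat.Prime, 1 / (p : ℝ) := by
      positivity
    rw [← hG] at h1
    constructor <;> linarith [hE.1, hE.2]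
  · obtain ⟨h1, h2⟩ := hz₀ z hz
    rw [← w1_eq κ (by omega)] at h1
    have h3 : 2 ≤ z ^ B := h2.trans (Nat.le_self_pow (by omega) z)
    have h4 := hM _ _ h3 h1
    rw [loglog_pow h2 (by omega)] at h4
    have hlz : 0 ≤ Real.log z := Real.log_nonneg (by exact_mod_cast (by omega : 1 ≤ z))
    obtain ⟨h5, h6, h7⟩ := loglog_floor (a := (1 - κ) * Real.log z)
      (mul_nonneg (by linarith) hlz)
    rw [← w1_eq κ (by omega)] at h5 h6 h7
    rw [abs_le] at h4
    constructor <;> linarith [hE.1, hE.2]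

/-- part (2) -/
lemma MT2 (κ : ℝ) (hκ1 : κ ≤ 1 / 10) (B : ℕ) (hB : 2 ≤ B) (m : ℝ) :
    ∃ z0 : ℕ, ∀ z p0 : ℕ, z0 ≤ z →
    m ≤ ∑ p ∈ AA κ B z p0, 1 / ((p : ℝ) * Real.log (Real.log p)) := by
  obtain ⟨C, hC, hM⟩ := mertb
  obtain ⟨n, hn⟩ := exists_nat_ge (4 * (m + 1))
  have h2n : (0 : ℝ) < 2 ^ (n + 1) := by positivity
  obtain ⟨z₀, hz₀⟩ := eventually_atTop.1 ((((pow_le_block (1 / 2 ^ (n + 1)) (by positivity) B (by omega)).and
    (eventually_ge_atTop 2)).and (tend_log.eventually_ge_atTop (4 * C * 2 ^ (n + 1)))).and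
    (tend_log.eventually_ge_atTop (2 ^ (n + 1))))
  refine ⟨z₀, fun z p0 hz => ?_⟩
  obtain ⟨⟨⟨h1, h2⟩, h3⟩, h4⟩ := hz₀ z hz
  have hlz : 0 < Real.log z := lt_of_lt_of_le h2n h4
  obtain ⟨E, hE⟩ : ∃ E : ℕ → ℕ, E = fun j : ℕ => ⌊Real.exp (Real.exp (Real.log z / 2 ^ j))⌋₊ :=
    ⟨_, rfl⟩
  have hEm : ∀ i j, i ≤ j → E j ≤ E i := by
    intro i j hij
    rw [hE]
    apply Nat.floor_le_floor
    apply Real.exp_le_exp.2
    apply Real.exp_le_exp.2
    apply div_le_div_of_nonneg_left hlz.le (by positivity)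
    exact pow_le_pow_right₀ (by norm_num) hij
  have key : ∀ j, j ≤ n → (j : ℝ) / 4 ≤
      ∑ p ∈ (Ioc (E (j + 1)) (E 1)).filter Nat.Prime, 1 / ((p : ℝ) * Real.log (Real.log p)) := by
    intro j
    induction j with
    | zero => simp
    | succ j ih =>
      intro hj
      have ih' := ih (by omega)
      have hsplit : ∑ p ∈ (Ioc (E (j + 1 + 1)) (E 1)).filter Nat.Prime,
          1 / ((p : ℝ) * Real.log (Real.log p)) =
          ∑ p ∈ (Ioc (E (j + 1 + 1)) (E (j + 1))).filter Nat.Prime,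
            1 / ((p : ℝ) * Real.log (Real.log p)) +
          ∑ p ∈ (Ioc (E (j + 1)) (E 1)).filter Nat.Prime, 1 / ((p : ℝ) * Real.log (Real.log p)) := by
        rw [sum_filter, sum_filter, sum_filter,
          sum_Ioc_consecutive _ (hEm _ _ (by omega)) (hEm _ _ (by omega))]
      have hb : ∑ p ∈ (Ioc (E (j + 1 + 1)) (E (j + 1))).filter Nat.Prime, 1 / (p : ℝ) *
          (1 / (Real.log z / 2 ^ (j + 1))) ≤ ∑ p ∈ (Ioc (E (j + 1 + 1)) (E (j + 1))).filter Nat.Prime,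
            1 / ((p : ℝ) * Real.log (Real.log p)) := by
        apply sum_le_sum
        intro p hp
        rw [mem_filter, hE] at hp
        obtain ⟨ha, hb⟩ := mem_block hp.1
        have hp0 : (0 : ℝ) < p := by exact_mod_cast hp.2.pos
        have ha0 : 0 < Real.log (Real.log p) := lt_of_le_of_lt (by positivity) ha
        rw [← one_div_mul_one_div]
        gcongr
      rw [← sum_mul] at hb
      have hm := hM (Real.log z / 2 ^ (j + 1 + 1)) (Real.log z / 2 ^ (j + 1)) (by positivity)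
        (div_le_div_of_nonneg_left hlz.le (by positivity)
          (pow_le_pow_right₀ (by norm_num) (by omega)))
      have hEE : E (j + 1 + 1) = ⌊Real.exp (Real.exp (Real.log z / 2 ^ (j + 1 + 1)))⌋₊ := by rw [hE]
      have hEE' : E (j + 1) = ⌊Real.exp (Real.exp (Real.log z / 2 ^ (j + 1)))⌋₊ := by rw [hE]
      rw [← hEE, ← hEE'] at hm
      have hm' := (abs_le.1 hm).1
      have hb0 : 0 < Real.log z / 2 ^ (j + 1) := by positivity
      have hC' : 4 * C ≤ Real.log z / 2 ^ (j + 1) := by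
        rw [le_div_iff₀ (by positivity)]
        have : (2 : ℝ) ^ (j + 1) ≤ 2 ^ (n + 1) := pow_le_pow_right₀ (by norm_num) (by omega)
        have := mul_le_mul_of_nonneg_left this (by positivity : 0 ≤ 4 * C)
        linarith
      have hhalf : Real.log z / 2 ^ (j + 1 + 1) = Real.log z / 2 ^ (j + 1) / 2 := by
        rw [pow_succ (2 : ℝ) (j + 1), div_div]
      have hq : (1 : ℝ) / 4 ≤ (∑ p ∈ (Ioc (E (j + 1 + 1)) (E (j + 1))).filter Nat.Prime, 1 / (p : ℝ)) *
          (1 / (Real.log z / 2 ^ (j + 1))) := by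
        rw [mul_one_div, le_div_iff₀ hb0]
        rw [hhalf] at hm'
        linarith
      rw [hsplit]
      push_cast
      linarith
  have hk := key n le_rfl
  have hE1 : E 1 ≤ w1 κ z := by
    rw [w1_eq κ (by omega), hE]
    apply Nat.floor_le_floor
    apply Real.exp_le_exp.2
    apply Real.exp_le_exp.2
    rw [pow_one]
    nlinarith
  have hEn : z ^ B ≤ E (n + 1) := by
    rw [hE]
    rw [one_div_mul_eq_div] at h1
    exact h1
  have hz4 : 4 ≤ z ^ B := by
    calc 4 = 2 ^ 2 := by norm_num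
      _ ≤ z ^ 2 := Nat.pow_le_pow_left h2 2
      _ ≤ z ^ B := Nat.pow_le_pow_right (by omega) hB
  have hpos : ∀ p : ℕ, z ^ B < p → 0 ≤ 1 / ((p : ℝ) * Real.log (Real.log p)) := by
    intro p hp
    have : (3 : ℝ) ≤ p := by
      have : 3 ≤ p := by omega
      exact_mod_cast this
    have h5 := Real.log_nonneg (one_le_log this)
    positivity
  have hE := erase_sum ((Ioc (E (n + 1)) (E 1)).filter Nat.Prime)
    (fun p => 1 / ((p : ℝ) * Real.log (Real.log p))) (fun p hp => ?_) p0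
  · refine le_trans ?_ (sum_le_sum_of_subset_of_nonneg
      (s := ((Ioc (E (n + 1)) (E 1)).filter Nat.Prime).erase p0) ?_ ?_)
    · refine le_trans ?_ hE.1
      linarith
    · intro p hp
      rw [mem_AA]
      rw [mem_erase, mem_filter, mem_Ioc] at hp
      exact ⟨hp.1, ⟨lt_of_le_of_lt hEn hp.2.1.1, hp.2.1.2.trans hE1⟩, hp.2.2⟩
    · intro p hp _
      exact hpos p (mem_AA.1 hp).2.1.1
  · rw [mem_filter] at hp
    refine ⟨hpos p (lt_of_le_of_lt hEn (mem_Ioc.1 hp.1).1), ?_⟩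
    rw [hE] at hp
    obtain ⟨ha, -⟩ := mem_block hp.1
    have h6 : (1 : ℝ) ≤ Real.log z / 2 ^ (n + 1) := by
      rw [le_div_iff₀ (by positivity)]
      linarith
    have hp1 : (1 : ℝ) ≤ p := by exact_mod_cast hp.2.one_lt.le
    have h7 : (1 : ℝ) ≤ (p : ℝ) * Real.log (Real.log p) := by nlinarith
    rw [div_le_one (by linarith)]
    exact h7

/-- part (3) -/
lemma MT3 (κ : ℝ) (hκ : 0 < κ) (hκ1 : κ ≤ 1 / 10) (B : ℕ) (hB : 2 ≤ B) (c : ℝ) (hc : 0 < c) :
    ∃ z0 : ℕ, ∀ z p0 : ℕ, z0 ≤ z →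
    ∑ p ∈ AA κ B z p0, 1 / ((p : ℝ) * Real.log (Real.log p)) ≤ c * Real.log z := by
  obtain ⟨C, hC⟩ := MT1 κ hκ hκ1 B hB
  obtain ⟨z₀, hz₀⟩ := eventually_atTop.1 (((tend_log.eventually_ge_atTop C).and
    (tend_loglog.eventually_ge_atTop (2 / c))).and (eventually_ge_atTop 3))
  refine ⟨z₀, fun z p0 hz => ?_⟩
  obtain ⟨⟨h1, h2⟩, h3⟩ := hz₀ z hz
  have h3' : (3 : ℝ) ≤ z := by exact_mod_cast h3
  have hlz := one_le_log h3'
  have h4 := (hC z p0).2
  have h5 : 0 ≤ Real.log (Real.log z) := Real.log_nonneg hlz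
  have h6 : ∑ p ∈ AA κ B z p0, 1 / ((p : ℝ) * Real.log (Real.log p)) ≤
      ∑ p ∈ AA κ B z p0, 1 / (p : ℝ) * (c / 2) := by
    apply sum_le_sum
    intro p hp
    have hp' := (mem_AA.1 hp).2.1.1
    have h7 : z ≤ z ^ B := Nat.le_self_pow (by omega) z
    have hzp : (z : ℝ) ≤ p := by exact_mod_cast (h7.trans hp'.le)
    have hp0 : (0 : ℝ) < p := by linarith
    have h8 : Real.log z ≤ Real.log p := Real.log_le_log (by linarith) hzp
    have h9 : Real.log (Real.log z) ≤ Real.log (Real.log p) := Real.log_le_log (by linarith) h8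
    have h10 : 2 / c ≤ Real.log (Real.log p) := h2.trans h9
    rw [← one_div_mul_one_div]
    have h11 : 1 / Real.log (Real.log p) ≤ c / 2 := by
      rw [div_le_div_iff₀ (lt_of_lt_of_le (by positivity) h10) (by norm_num)]
      rw [div_le_iff₀ hc] at h10
      linarith
    gcongr
  rw [← sum_mul] at h6
  have h12 : ∑ p ∈ AA κ B z p0, 1 / (p : ℝ) ≤ 2 * Real.log z := by nlinarith
  nlinarith

/-- part (4) -/
lemma MT4 (κ : ℝ) (hκ : 0 < κ) (hκ1 : κ ≤ 1 / 10) (B : ℕ) (hB : 2 ≤ B) :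
    ∃ z0 : ℕ, ∀ z p0 : ℕ, z0 ≤ z → ∀ x : ℕ, InR κ z x →
    ∑ p ∈ ((Ioc z (Nat.sqrt x)).filter Nat.Prime) \ AA κ B z p0,
      1 / ((p : ℝ) * Real.log (Real.log p)) ≤ 10 * κ := by
  obtain ⟨C, hC, hM⟩ := mert
  obtain ⟨z₀, hz₀⟩ := eventually_atTop.1 ((((tend_log.eventually_ge_atTop ((2 + C) / κ)).and
    (tend_loglog.eventually_ge_atTop ((Real.log B + C) / κ))).and
    (tend_loglog.eventually_ge_atTop (1 / κ))).and (eventually_ge_atTop 3))
  refine ⟨z₀, fun z p0 hz x hx => ?_⟩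
  obtain ⟨⟨⟨h1, h2⟩, h3⟩, h4⟩ := hz₀ z hz
  have hz3 : (3 : ℝ) ≤ z := by exact_mod_cast h4
  have hlz := one_le_log hz3
  obtain ⟨f, hf⟩ : ∃ f : ℕ → ℝ, f = fun p : ℕ => 1 / ((p : ℝ) * Real.log (Real.log p)) := ⟨_, rfl⟩
  have hllz : 0 < Real.log (Real.log z) := lt_of_lt_of_le (by positivity) h3
  have hf0 : ∀ p : ℕ, z < p → 0 ≤ f p ∧ f p ≤ 1 / (p : ℝ) * (1 / Real.log (Real.log z)) := by
    intro p hp
    have hzp : (z : ℝ) ≤ p := by exact_mod_cast hp.le
    have h8 : Real.log z ≤ Real.log p := Real.log_le_log (by linarith) hzp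
    have h9 : Real.log (Real.log z) ≤ Real.log (Real.log p) := Real.log_le_log (by linarith) h8
    have hp0 : (0 : ℝ) < p := by linarith
    rw [hf]
    constructor
    · have : 0 < Real.log (Real.log p) := by linarith
      positivity
    · simp only
      rw [← one_div_mul_one_div]
      gcongr
  have hsub : ((Ioc z (Nat.sqrt x)).filter Nat.Prime) \ AA κ B z p0 ⊆
      ((Ioc z (z ^ B)).filter Nat.Prime ∪ (Ioc (w1 κ z) (Nat.sqrt x)).filter Nat.Prime) ∪
        ({p0} : Finset ℕ).filter (fun p => z < p) := by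
    intro p hp
    rw [Finset.mem_sdiff, mem_filter, mem_Ioc, mem_AA] at hp
    rw [mem_union, mem_union, mem_filter, mem_filter, mem_filter, mem_Ioc, mem_Ioc, mem_singleton]
    obtain ⟨⟨⟨h5, h6⟩, h7⟩, h8⟩ := hp
    by_cases hp0 : p = p0
    · exact Or.inr ⟨hp0, h5⟩
    · rcases le_or_gt p (z ^ B) with h9 | h9
      · exact Or.inl (Or.inl ⟨⟨h5, h9⟩, h7⟩)
      · rcases le_or_gt p (w1 κ z) with h10 | h10
        · exact absurd ⟨hp0, ⟨h9, h10⟩, h7⟩ h8
        · exact Or.inl (Or.inr ⟨⟨h10, h6⟩, h7⟩)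
  have hw1 : z ≤ w1 κ z := by
    rw [w1_eq κ (by omega), Nat.le_floor_iff (Real.exp_pos _).le,
      ← Real.log_le_iff_le_exp (by linarith), ← Real.log_le_iff_le_exp (by linarith)]
    have h5 : Real.log (Real.log z) ≤ Real.log z / 2 := by
      have h6 := Real.add_one_le_exp (Real.log z / 2 - 1)
      have h7 : Real.log z / 2 ≤ Real.exp (Real.log z / 2 - 1) := by linarith
      have h8 := Real.log_le_log (by linarith) h7
      rw [Real.log_exp, Real.log_div (by linarith) (by norm_num)] at h8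
      have := log_two_le
      linarith
    nlinarith
  have hnn : ∀ p ∈ ((Ioc z (z ^ B)).filter Nat.Prime ∪ (Ioc (w1 κ z) (Nat.sqrt x)).filter Nat.Prime) ∪
        ({p0} : Finset ℕ).filter (fun p => z < p), 0 ≤ f p := by
    intro p hp
    rw [mem_union, mem_union, mem_filter, mem_filter, mem_filter, mem_Ioc, mem_Ioc] at hp
    rcases hp with (hp | hp) | hp
    · exact (hf0 p hp.1.1).1
    · exact (hf0 p (lt_of_le_of_lt hw1 hp.1.1)).1
    · exact (hf0 p hp.2).1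
  have hS := sum_le_sum_of_subset_of_nonneg hsub (fun p hp _ => hnn p hp)
  -- three parts
  have hS1 : ∑ p ∈ (Ioc z (z ^ B)).filter Nat.Prime, f p ≤ κ := by
    have h5 : ∑ p ∈ (Ioc z (z ^ B)).filter Nat.Prime, f p ≤
        ∑ p ∈ (Ioc z (z ^ B)).filter Nat.Prime, 1 / (p : ℝ) * (1 / Real.log (Real.log z)) :=
      sum_le_sum fun p hp => (hf0 p (mem_Ioc.1 (mem_filter.1 hp).1).1).2
    rw [← sum_mul] at h5
    have h6 := (abs_le.1 (hM z (z ^ B) (by omega) (Nat.le_self_pow (by omega) z))).2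
    rw [loglog_pow (by omega) (by omega)] at h6
    refine h5.trans ?_
    rw [mul_one_div, div_le_iff₀ hllz]
    rw [div_le_iff₀ hκ] at h2
    linarith
  have hS2 : ∑ p ∈ (Ioc (w1 κ z) (Nat.sqrt x)).filter Nat.Prime, f p ≤ 5 * κ := by
    rcases le_or_gt (Nat.sqrt x) (w1 κ z) with h5 | h5
    · rw [Ioc_eq_empty (by omega)]
      simp
      linarith
    · have hpos : 0 < (1 - κ) * Real.log z := mul_pos (by linarith) (by linarith)
      have h6 : ∑ p ∈ (Ioc (w1 κ z) (Nat.sqrt x)).filter Nat.Prime, f p ≤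
          ∑ p ∈ (Ioc (w1 κ z) (Nat.sqrt x)).filter Nat.Prime, 1 / (p : ℝ) *
            (1 / ((1 - κ) * Real.log z)) := by
        apply sum_le_sum
        intro p hp
        rw [mem_filter, mem_Ioc, w1_eq κ (by omega), Nat.floor_lt (Real.exp_pos _).le] at hp
        have hp0 : (0 : ℝ) < p := by exact_mod_cast hp.2.pos
        have h7 : Real.exp ((1 - κ) * Real.log z) < Real.log p := by
          rw [Real.lt_log_iff_exp_lt hp0]; exact hp.1.1
        have h8 : (1 - κ) * Real.log z < Real.log (Real.log p) := by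
          rw [Real.lt_log_iff_exp_lt ((Real.exp_pos _).trans h7)]; exact h7
        rw [hf]
        simp only
        rw [← one_div_mul_one_div]
        gcongr
      rw [← sum_mul] at h6
      have h7 := (abs_le.1 (hM _ _ (by omega : 2 ≤ w1 κ z) h5.le)).2
      obtain ⟨-, -, h8⟩ := loglog_floor (a := (1 - κ) * Real.log z) hpos.le
      rw [← w1_eq κ (by omega)] at h8
      have hsq3 : (3 : ℝ) ≤ (Nat.sqrt x : ℝ) := by
        have : 3 ≤ Nat.sqrt x := by omega
        exact_mod_cast this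
      have h9 : Real.log (Nat.sqrt x : ℝ) ≤ (z : ℝ) ^ (1 + 2 * κ) := by
        refine le_trans (Real.log_le_log (by linarith) ?_) hx.2
        exact_mod_cast Nat.sqrt_le_self x
      have h10 : Real.log (Real.log (Nat.sqrt x : ℝ)) ≤ (1 + 2 * κ) * Real.log z := by
        have h11 := Real.log_le_log (by linarith [one_le_log hsq3]) h9
        rwa [Real.log_rpow (by linarith)] at h11
      refine h6.trans ?_
      rw [mul_one_div, div_le_iff₀ hpos]
      rw [div_le_iff₀ hκ] at h1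
      have h12 : κ * κ * Real.log z ≤ κ * (1 / 10) * Real.log z := by gcongr
      nlinarith
  have hS3 : ∑ p ∈ ({p0} : Finset ℕ).filter (fun p => z < p), f p ≤ κ := by
    by_cases hp : z < p0
    · rw [filter_singleton, if_pos hp, sum_singleton]
      refine (hf0 p0 hp).2.trans ?_
      have h5 := (inv_prime_le (p := p0) (by omega)).2
      have h6 : 1 / Real.log (Real.log z) ≤ κ := by
        rw [div_le_iff₀ hllz]
        rw [div_le_iff₀ hκ] at h3
        linarith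
      have h7 : 0 ≤ 1 / Real.log (Real.log z) := by positivity
      calc 1 / (p0 : ℝ) * (1 / Real.log (Real.log z)) ≤ 1 * (1 / Real.log (Real.log z)) := by
            gcongr
        _ ≤ κ := by linarith
    · rw [filter_singleton, if_neg hp, sum_empty]
      exact hκ.le
  have hU : ∑ p ∈ ((Ioc z (z ^ B)).filter Nat.Prime ∪ (Ioc (w1 κ z) (Nat.sqrt x)).filter Nat.Prime) ∪
        ({p0} : Finset ℕ).filter (fun p => z < p), f p ≤ κ + 5 * κ + κ := by
    have hun : ∀ s t : Finset ℕ, (∀ p ∈ s ∪ t, 0 ≤ f p) → ∑ p ∈ s ∪ t, f p ≤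
        ∑ p ∈ s, f p + ∑ p ∈ t, f p := by
      intro s t h
      rw [← sum_union_inter]
      have : 0 ≤ ∑ p ∈ s ∩ t, f p := sum_nonneg fun p hp =>
        h p (mem_union_left _ (mem_inter.1 hp).1)
      linarith
    refine (hun _ _ hnn).trans (add_le_add ((hun _ _ fun p hp => hnn p (mem_union_left _ hp)).trans
      (add_le_add hS1 hS2)) hS3)
  rw [hf] at hS hU
  linarith

/-- part (5) -/
lemma MT5 : ∃ C : ℝ, 0 < C ∧ ∀ z p0 : ℕ, 2 ≤ z →
    ((qq z p0).totient : ℝ) * Real.log z ≤ C * qq z p0 ∧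
    (qq z p0 : ℝ) ≤ C * (qq z p0).totient * Real.log z := by
  obtain ⟨C, hC, hM⟩ := mert
  have hl2 : 0 < Real.log 2 := Real.log_pos (by norm_num)
  obtain ⟨T, hT⟩ : ∃ T : ℝ, T = C + 5 + |Real.log (Real.log 2)| := ⟨_, rfl⟩
  have hT0 : 0 ≤ T := by rw [hT]; positivity
  refine ⟨Real.exp T, Real.exp_pos _, fun z p0 hz => ?_⟩
  have hz2 : (2 : ℝ) ≤ z := by exact_mod_cast hz
  have hlz : 0 < Real.log z := Real.log_pos (by linarith)
  obtain ⟨s, hs⟩ : ∃ s, s = ((Icc 1 z).filter Nat.Prime).erase p0 := ⟨_, rfl⟩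
  have hsp : ∀ p ∈ s, p.Prime := by
    intro p hp
    rw [hs, mem_erase, mem_filter] at hp
    exact hp.2.2
  have hq : qq z p0 = ∏ p ∈ s, p := by rw [hs]; rfl
  have hq0 : 0 < qq z p0 := by
    rw [hq]
    exact prod_pos fun p hp => (hsp p hp).pos
  have hqR : (0 : ℝ) < qq z p0 := by exact_mod_cast hq0
  have htot : ((qq z p0).totient : ℝ) = qq z p0 * ∏ p ∈ s, (1 - (p : ℝ)⁻¹) := by
    have h := Nat.totient_eq_mul_prod_factors (qq z p0)
    rw [hq, Nat.primeFactors_prod hsp, ← hq] at h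
    have h' := congrArg (fun t : ℚ => (t : ℝ)) h
    push_cast at h'
    exact h'
  -- the sum of reciprocals
  have hsum : Real.log (Real.log z) - (C + 1 + |Real.log (Real.log 2)|) ≤ ∑ p ∈ s, 1 / (p : ℝ) ∧
      ∑ p ∈ s, 1 / (p : ℝ) ≤ Real.log (Real.log z) + (C + 1 + |Real.log (Real.log 2)|) := by
    have h1 := abs_le.1 (hM 2 z le_rfl hz)
    have h2 := erase_sum ((Icc 1 z).filter Nat.Prime) (fun p => 1 / (p : ℝ))
      (fun p hp => inv_prime_le (by
        rw [mem_filter] at hp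
        exact hp.2.one_lt.le)) p0
    have h3 : ∑ p ∈ (Icc 1 z).filter Nat.Prime, 1 / (p : ℝ) = 1 / 2 +
        ∑ p ∈ (Ioc 2 z).filter Nat.Prime, 1 / (p : ℝ) := by
      have h4 : (Icc 1 z).filter Nat.Prime = insert 2 ((Ioc 2 z).filter Nat.Prime) := by
        ext p
        rw [mem_insert, mem_filter, mem_filter, mem_Icc, mem_Ioc]
        constructor
        · rintro ⟨h5, h6⟩
          rcases eq_or_lt_of_le h6.two_le with h7 | h7
          · exact Or.inl h7.symm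
          · exact Or.inr ⟨⟨h7, h5.2⟩, h6⟩
        · rintro (h5 | ⟨h5, h6⟩)
          · rw [h5]
            exact ⟨⟨by norm_num, hz⟩, Nat.prime_two⟩
          · exact ⟨⟨by omega, h5.2⟩, h6⟩
      rw [h4, sum_insert (by simp)]
      norm_num
    have h5 := abs_le.1 (le_refl |Real.log (Real.log 2)|)
    rw [hs]
    simp only [Nat.cast_ofNat] at h1
    constructor <;> linarith [h2.1, h2.2]
  have hpr : ∀ p ∈ s, (2 : ℝ) ≤ p := fun p hp => by exact_mod_cast (hsp p hp).two_le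
  -- telescoping sum
  have htel : ∑ p ∈ s, (1 / ((p : ℝ) - 1) - 1 / (p : ℝ)) ≤ 1 := by
    have h1 : ∑ p ∈ s, (1 / ((p : ℝ) - 1) - 1 / (p : ℝ)) ≤
        ∑ p ∈ Ioc 1 z, (1 / ((p : ℝ) - 1) - 1 / (p : ℝ)) := by
      apply sum_le_sum_of_subset_of_nonneg
      · intro p hp
        have h2 := (hsp p hp).one_lt
        rw [hs, mem_erase, mem_filter, mem_Icc] at hp
        rw [mem_Ioc]
        exact ⟨h2, hp.2.1.2⟩
      · intro p hp _
        rw [mem_Ioc] at hp
        have : (1 : ℝ) < p := by exact_mod_cast hp.1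
        rw [sub_nonneg]
        exact one_div_le_one_div_of_le (by linarith) (by linarith)
    refine h1.trans ?_
    have h2 : ∀ n : ℕ, 1 ≤ n → ∑ p ∈ Ioc 1 n, (1 / ((p : ℝ) - 1) - 1 / (p : ℝ)) = 1 - 1 / n := by
      intro n hn
      induction n, hn using Nat.le_induction with
      | base => simp
      | succ n hn ih =>
        rw [sum_Ioc_succ_top hn, ih]
        push_cast
        ring_nf
    rw [h2 z (by omega)]
    have : (0 : ℝ) ≤ 1 / z := by positivity
    linarith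
  have hprod0 : 0 < ∏ p ∈ s, (1 - (p : ℝ)⁻¹) := by
    apply prod_pos
    intro p hp
    have := hpr p hp
    have : (p : ℝ)⁻¹ ≤ 2⁻¹ := inv_anti₀ (by norm_num) this
    linarith
  have hup : ∏ p ∈ s, (1 - (p : ℝ)⁻¹) ≤ Real.exp (-∑ p ∈ s, 1 / (p : ℝ)) := by
    rw [← sum_neg_distrib, Real.exp_sum]
    apply Finset.prod_le_prod
    · intro p hp
      have := hpr p hp
      have : (p : ℝ)⁻¹ ≤ 2⁻¹ := inv_anti₀ (by norm_num) this
      linarith
    · intro p hp
      have := Real.add_one_le_exp (-(1 / (p : ℝ)))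
      rw [one_div] at this
      rw [one_div]
      linarith
  have hlo : Real.exp (-(∑ p ∈ s, 1 / (p : ℝ) + 1)) ≤ ∏ p ∈ s, (1 - (p : ℝ)⁻¹) := by
    have h1 : Real.exp (-∑ p ∈ s, 1 / ((p : ℝ) - 1)) ≤ ∏ p ∈ s, (1 - (p : ℝ)⁻¹) := by
      rw [← sum_neg_distrib, Real.exp_sum]
      apply Finset.prod_le_prod (fun p _ => (Real.exp_pos _).le)
      intro p hp
      have h2 := hpr p hp
      have h3 := Real.add_one_le_exp (1 / ((p : ℝ) - 1))
      have h4 : 1 / ((p : ℝ) - 1) + 1 = (1 - (p : ℝ)⁻¹)⁻¹ := by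
        have : (p : ℝ) - 1 ≠ 0 := by linarith
        field_simp
        ring
      rw [h4] at h3
      have h5 : 0 < 1 - (p : ℝ)⁻¹ := by
        have : (p : ℝ)⁻¹ ≤ 2⁻¹ := inv_anti₀ (by norm_num) h2
        linarith
      rw [Real.exp_neg]
      have h6 := inv_anti₀ (by positivity) h3
      rwa [inv_inv] at h6
    refine le_trans (Real.exp_le_exp.2 ?_) h1
    have h2 : ∑ p ∈ s, 1 / ((p : ℝ) - 1) = ∑ p ∈ s, (1 / ((p : ℝ) - 1) - 1 / (p : ℝ)) +
        ∑ p ∈ s, 1 / (p : ℝ) := by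
      rw [← sum_add_distrib]
      exact sum_congr rfl fun p _ => by ring
    linarith
  constructor
  · rw [htot]
    have h1 : (∏ p ∈ s, (1 - (p : ℝ)⁻¹)) * Real.log z ≤ Real.exp T := by
      have h2 : Real.log z = Real.exp (Real.log (Real.log z)) := (Real.exp_log hlz).symm
      rw [h2]
      calc (∏ p ∈ s, (1 - (p : ℝ)⁻¹)) * Real.exp (Real.log (Real.log z)) ≤
            Real.exp (-∑ p ∈ s, 1 / (p : ℝ)) * Real.exp (Real.log (Real.log z)) := by gcongr
        _ = Real.exp (-∑ p ∈ s, 1 / (p : ℝ) + Real.log (Real.log z)) := (Real.exp_add _ _).symm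
        _ ≤ Real.exp T := by
          apply Real.exp_le_exp.2
          linarith [hsum.1]
    nlinarith
  · have h1 : 1 ≤ Real.exp T * (∏ p ∈ s, (1 - (p : ℝ)⁻¹)) * Real.log z := by
      have h2 : Real.log z = Real.exp (Real.log (Real.log z)) := (Real.exp_log hlz).symm
      calc (1 : ℝ) = Real.exp 0 := Real.exp_zero.symm
        _ ≤ Real.exp (T + -(∑ p ∈ s, 1 / (p : ℝ) + 1) + Real.log (Real.log z)) := by
          apply Real.exp_le_exp.2
          linarith [hsum.2]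
        _ = Real.exp T * Real.exp (-(∑ p ∈ s, 1 / (p : ℝ) + 1)) * Real.log z := by
          rw [Real.exp_add, Real.exp_add, ← h2]
        _ ≤ Real.exp T * (∏ p ∈ s, (1 - (p : ℝ)⁻¹)) * Real.log z := by gcongr
    rw [htot]
    nlinarith

theorem stmt_MT : Stmt_MT := by
  refine ⟨fun κ hκ hκ1 B hB => ?_, fun κ _ hκ1 B hB m => MT2 κ hκ1 B hB m,
    fun κ hκ hκ1 B hB c hc => MT3 κ hκ hκ1 B hB c hc, fun κ hκ hκ1 B hB => MT4 κ hκ hκ1 B hB, ?_⟩
  · obtain ⟨C, hC⟩ := MT1 κ hκ hκ1 B hB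
    exact ⟨C, fun z p0 _ _ => hC z p0⟩
  · obtain ⟨C, hC, h⟩ := MT5
    exact ⟨C, hC, fun z p0 hz _ => h z p0 hz⟩

end Pool.Agent.Work.MP_b0c12c_nt_shift
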