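import Mathlib
import Pool.Agent.Work.MP_b0c12c_nt_shift.Interface

/-!
# Block PC: pairs of rows with common primes
-/

set_option autoImplicit false

namespace Pool.Agent.Work.MP_b0c12c_nt_shift

open Finset Filter

namespace PC

/-! ### Counting rows -/

lemma card_le_of_cong (S : Finset ℕ) (e : ℕ) (he : 0 < e) (L : ℝ)
    (h1 : ∀ r ∈ S, ∀ r' ∈ S, r ≤ r' → e ∣ r' - r)
    (h2 : ∀ r ∈ S, ∀ r' ∈ S, ((r' : ℝ) - r) ≤ L) : S.card ≤ ⌊L / e⌋₊ + 1 := by
  rcases S.eq_empty_or_nonempty with rfl | hS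
  · simp
  set m := S.min' hS with hm
  have hmS : m ∈ S := S.min'_mem hS
  have hle : ∀ r ∈ S, m ≤ r := fun r hr => S.min'_le r hr
  have hinj : Set.InjOn (fun r => (r - m) / e) (S : Set ℕ) := by
    intro r hr r' hr' h
    have h3 := h1 m hmS r hr (hle r hr)
    have h4 := h1 m hmS r' hr' (hle r' hr')
    have h5 : r - m = r' - m := by
      have h6 := Nat.div_mul_cancel h3
      have h7 := Nat.div_mul_cancel h4
      simp only at h
      rw [← h6, ← h7, h]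
    have := hle r hr
    have := hle r' hr'
    omega
  have himg : S.image (fun r => (r - m) / e) ⊆ range (⌊L / e⌋₊ + 1) := by
    intro k hk
    obtain ⟨r, hr, rfl⟩ := mem_image.mp hk
    rw [mem_range, Nat.lt_succ_iff]
    apply Nat.le_floor
    have h3 : (((r - m) / e : ℕ) : ℝ) ≤ ((r - m : ℕ) : ℝ) / e := Nat.cast_div_le
    refine h3.trans ?_
    have hepos : (0 : ℝ) < e := by exact_mod_cast he
    apply div_le_div_of_nonneg_right _ hepos.le
    rw [Nat.cast_sub (hle r hr)]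
    exact h2 m hmS r hr
  calc S.card = (S.image fun r => (r - m) / e).card := (card_image_of_injOn hinj).symm
    _ ≤ (range (⌊L / e⌋₊ + 1)).card := card_le_card himg
    _ = ⌊L / e⌋₊ + 1 := card_range _

lemma mem_Dset {A : Finset ℕ} {U N p : ℕ} :
    p ∈ Dset A U N ↔ p ∈ A ∧ ∃ m ∈ Icc N (N + U + 1), p ∣ m := by
  unfold Dset
  exact @mem_filter _ _ (Classical.decPred _) _ _

lemma rows_diff {x q b U r r' : ℕ} (hq : 0 < q) (hr : r ∈ rows x q b U) (hr' : r' ∈ rows x q b U) :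
    ((r' : ℝ) - r) ≤ (x : ℝ) / q := by
  unfold rows at hr hr'
  rw [mem_filter] at hr hr'
  have hqpos : (0 : ℝ) < q := by exact_mod_cast hq
  rw [le_div_iff₀ hqpos]
  have h1 : x < r * q + b := hr.2.1
  have h2 : r' * q + b + U + 1 ≤ 2 * x := hr'.2.2
  have h3 : (x : ℝ) < r * q + b := by exact_mod_cast h1
  have h4 : (r' : ℝ) * q + b + U + 1 ≤ 2 * x := by exact_mod_cast h2
  have h5 : (0 : ℝ) ≤ U := Nat.cast_nonneg _
  nlinarith

lemma prod_dvd_of_forall {E : Finset ℕ} (hE : ∀ p ∈ E, p.Prime) {n : ℕ} (h : ∀ p ∈ E, p ∣ n) :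
    ∏ p ∈ E, p ∣ n := by
  exact Finset.prod_primes_dvd n (fun p hp => (hE p hp).prime) h

/-- The number of rows all of whose windows contain a multiple of each prime of `E`. -/
lemma cnt_le {x q b U : ℕ} (hq : 0 < q) {A : Finset ℕ} {E : Finset ℕ}
    (hE : ∀ p ∈ E, p.Prime ∧ p.Coprime q) :
    (((rows x q b U).filter fun r => E ⊆ Dset A U (r * q + b)).card : ℝ) ≤
      ((U : ℝ) + 2) ^ E.card * ((x : ℝ) / q / ((∏ p ∈ E, p : ℕ) : ℝ) + 1) := by
  classical
  set S := (rows x q b U).filter fun r => E ⊆ Dset A U (r * q + b) with hS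
  set e := ∏ p ∈ E, p with he
  have hepos : 0 < e := Finset.prod_pos fun p hp => (hE p hp).1.pos
  -- offsets
  let J : ℕ → ∀ p ∈ E, ℕ := fun r p _ =>
    if h : ∃ m ∈ Icc (r * q + b) (r * q + b + U + 1), p ∣ m then h.choose - (r * q + b) else 0
  have hJ : ∀ r ∈ S, ∀ p (hp : p ∈ E), J r p hp < U + 2 ∧ p ∣ (r * q + b) + J r p hp := by
    intro r hr p hp
    have h := (mem_Dset.mp ((mem_filter.mp hr).2 hp)).2
    have hJv : J r p hp = h.choose - (r * q + b) := dif_pos h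
    obtain ⟨h1, h2⟩ := h.choose_spec
    rw [mem_Icc] at h1
    rw [hJv]
    refine ⟨by omega, ?_⟩
    have h3 : r * q + b + (h.choose - (r * q + b)) = h.choose := by omega
    rw [h3]
    exact h2
  have hmaps : ∀ r ∈ S, J r ∈ E.pi (fun _ => range (U + 2)) := by
    intro r hr
    rw [Finset.mem_pi]
    intro p hp
    exact mem_range.mpr (hJ r hr p hp).1
  have hfib : ∀ j ∈ E.pi (fun _ => range (U + 2)),
      (S.filter fun r => J r = j).card ≤ ⌊(x : ℝ) / q / e⌋₊ + 1 := by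
    intro j _
    refine card_le_of_cong _ e hepos _ ?_ ?_
    · intro r hr r' hr' hrr
      obtain ⟨hr1, hr2⟩ := mem_filter.mp hr
      obtain ⟨hr1', hr2'⟩ := mem_filter.mp hr'
      refine prod_dvd_of_forall (fun p hp => (hE p hp).1) ?_
      intro p hp
      have h1 := (hJ r hr1 p hp).2
      have h2 := (hJ r' hr1' p hp).2
      rw [hr2] at h1
      rw [hr2'] at h2
      have h3 : p ∣ (r' * q + b + j p hp) - (r * q + b + j p hp) := Nat.dvd_sub h2 h1
      have h4 : (r' * q + b + j p hp) - (r * q + b + j p hp) = (r' - r) * q := by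
        rw [Nat.sub_mul]
        have := Nat.mul_le_mul_right q hrr
        omega
      rw [h4] at h3
      exact (hE p hp).2.dvd_of_dvd_mul_right h3
    · intro r hr r' hr'
      exact rows_diff hq (mem_filter.mp (mem_filter.mp hr).1).1
        (mem_filter.mp (mem_filter.mp hr').1).1
  have hcard := Finset.card_le_mul_card_image_of_maps_to hmaps _ hfib
  rw [Finset.card_pi] at hcard
  simp only [card_range, prod_const] at hcard
  have hcast : (S.card : ℝ) ≤ ((⌊(x : ℝ) / q / e⌋₊ : ℝ) + 1) * ((U : ℝ) + 2) ^ E.card := by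
    exact_mod_cast hcard
  refine hcast.trans ?_
  rw [mul_comm]
  apply mul_le_mul_of_nonneg_left _ (by positivity)
  have := Nat.floor_le (show (0 : ℝ) ≤ (x : ℝ) / q / e by positivity)
  linarith

/-- the common primes of two rows -/
noncomputable def com (A : Finset ℕ) (q b U : ℕ) (rr : ℕ × ℕ) : Finset ℕ :=
  Dset A U (rr.1 * q + b) ∩ Dset A U (rr.2 * q + b)

lemma com_subset (A : Finset ℕ) (q b U : ℕ) (rr : ℕ × ℕ) : com A q b U rr ⊆ A := by
  intro p hp
  exact (mem_Dset.mp (mem_inter.mp hp).1).1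

/-- the number of pairs of rows whose common primes contain `E` -/
lemma pairs_le {x q b U : ℕ} (hq : 0 < q) {A : Finset ℕ} {E : Finset ℕ}
    (hE : ∀ p ∈ E, p.Prime ∧ p.Coprime q) (he : (((∏ p ∈ E, p : ℕ) : ℕ) : ℝ) ≤ (x : ℝ) / q) :
    (((rows x q b U ×ˢ rows x q b U).filter fun rr => E ⊆ com A q b U rr).card : ℝ) ≤
      4 * ((x : ℝ) / q) ^ 2 * ∏ p ∈ E, (((U : ℝ) + 2) ^ 2 / (p : ℝ) ^ 2) := by
  classical
  set S := (rows x q b U).filter fun r => E ⊆ Dset A U (r * q + b) with hS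
  have hsub : ((rows x q b U ×ˢ rows x q b U).filter fun rr => E ⊆ com A q b U rr) ⊆ S ×ˢ S := by
    intro rr hrr
    rw [mem_filter, mem_product] at hrr
    rw [mem_product, hS, mem_filter, mem_filter]
    exact ⟨⟨hrr.1.1, hrr.2.trans inter_subset_left⟩, ⟨hrr.1.2, hrr.2.trans inter_subset_right⟩⟩
  have h1 : (((rows x q b U ×ˢ rows x q b U).filter fun rr => E ⊆ com A q b U rr).card : ℝ) ≤
      (S.card : ℝ) ^ 2 := by
    have := card_le_card hsub
    rw [card_product] at this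
    rw [pow_two]
    exact_mod_cast this
  have hepos : (0 : ℝ) < ((∏ p ∈ E, p : ℕ) : ℝ) := by
    exact_mod_cast Finset.prod_pos fun p hp => (hE p hp).1.pos
  have h2 : (S.card : ℝ) ≤ ((U : ℝ) + 2) ^ E.card * (2 * ((x : ℝ) / q) / ((∏ p ∈ E, p : ℕ) : ℝ)) := by
    refine (cnt_le hq hE).trans ?_
    apply mul_le_mul_of_nonneg_left _ (by positivity)
    have h3 : 1 ≤ (x : ℝ) / q / ((∏ p ∈ E, p : ℕ) : ℝ) := by
      rw [le_div_iff₀ hepos, one_mul]; exact he
    have h4 : 2 * ((x : ℝ) / q) / ((∏ p ∈ E, p : ℕ) : ℝ) =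
        (x : ℝ) / q / ((∏ p ∈ E, p : ℕ) : ℝ) + (x : ℝ) / q / ((∏ p ∈ E, p : ℕ) : ℝ) := by ring
    rw [h4]
    linarith
  have h5 : (S.card : ℝ) ^ 2 ≤
      (((U : ℝ) + 2) ^ E.card * (2 * ((x : ℝ) / q) / ((∏ p ∈ E, p : ℕ) : ℝ))) ^ 2 :=
    pow_le_pow_left₀ (Nat.cast_nonneg _) h2 2
  refine (h1.trans h5).trans (le_of_eq ?_)
  have h6 : (((U : ℝ) + 2) ^ 2) ^ E.card = (((U : ℝ) + 2) ^ E.card) ^ 2 := by
    rw [← pow_mul, ← pow_mul, mul_comm]
  rw [prod_div_distrib, prod_const, prod_pow, h6]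
  push_cast
  field_simp
  ring

/-- First sum, with a general weight function. -/
lemma sum_pairs {x q b U : ℕ} (hq : 0 < q) {A : Finset ℕ}
    (hA : ∀ p ∈ A, p.Prime ∧ p.Coprime q) (lam : ℕ → ℝ) (hlam : ∀ p ∈ A, 1 ≤ lam p) :
    ∑ rr ∈ (rows x q b U ×ˢ rows x q b U).filter (fun rr =>
        (((∏ p ∈ com A q b U rr, p : ℕ) : ℕ) : ℝ) ≤ (x : ℝ) / q),
      (∏ p ∈ com A q b U rr, lam p - 1) ≤
    4 * ((x : ℝ) / q) ^ 2 *
      (∏ p ∈ A, (1 + (lam p - 1) * (((U : ℝ) + 2) ^ 2 / (p : ℝ) ^ 2)) - 1) := by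
  classical
  set P := (rows x q b U ×ˢ rows x q b U).filter (fun rr =>
        (((∏ p ∈ com A q b U rr, p : ℕ) : ℕ) : ℝ) ≤ (x : ℝ) / q) with hP
  have hexp : ∀ (T : Finset ℕ) (f : ℕ → ℝ), ∏ p ∈ T, (1 + f p) - 1 =
      ∑ E ∈ T.powerset.erase ∅, ∏ p ∈ E, f p := by
    intro T f
    have h1 : ∏ p ∈ T, (1 + f p) = ∑ E ∈ T.powerset, ∏ p ∈ E, f p := by
      rw [← Finset.prod_add_one]
      exact prod_congr rfl fun p _ => add_comm _ _
    rw [h1, ← Finset.add_sum_erase _ _ (empty_mem_powerset T)]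
    simp
  have h1 : ∀ rr ∈ P, ∏ p ∈ com A q b U rr, lam p - 1 =
      ∑ E ∈ A.powerset.erase ∅, if E ⊆ com A q b U rr then ∏ p ∈ E, (lam p - 1) else 0 := by
    intro rr _
    have h2 : ∏ p ∈ com A q b U rr, lam p = ∏ p ∈ com A q b U rr, (1 + (lam p - 1)) :=
      prod_congr rfl fun p _ => by ring
    rw [h2, hexp, ← sum_filter]
    refine sum_congr ?_ fun _ _ => rfl
    ext E
    simp only [mem_erase, mem_powerset, mem_filter]
    constructor
    · rintro ⟨h3, h4⟩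
      exact ⟨⟨h3, h4.trans (com_subset A q b U rr)⟩, h4⟩
    · rintro ⟨⟨h3, -⟩, h4⟩
      exact ⟨h3, h4⟩
  rw [sum_congr rfl h1, sum_comm, hexp, mul_sum]
  refine sum_le_sum fun E hE => ?_
  rw [mem_erase, mem_powerset] at hE
  have hEp : ∀ p ∈ E, p.Prime ∧ p.Coprime q := fun p hp => hA p (hE.2 hp)
  have hw : 0 ≤ ∏ p ∈ E, (lam p - 1) :=
    prod_nonneg fun p hp => by have := hlam p (hE.2 hp); linarith
  rw [← sum_filter, sum_const, nsmul_eq_mul]
  have hR : 0 ≤ 4 * ((x : ℝ) / q) ^ 2 *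
      ∏ p ∈ E, ((lam p - 1) * (((U : ℝ) + 2) ^ 2 / (p : ℝ) ^ 2)) := by
    rw [prod_mul_distrib]
    have : 0 ≤ ∏ p ∈ E, (((U : ℝ) + 2) ^ 2 / (p : ℝ) ^ 2) := prod_nonneg fun p _ => by positivity
    positivity
  by_cases hemp : (P.filter fun rr => E ⊆ com A q b U rr) = ∅
  · rw [hemp, card_empty, Nat.cast_zero, zero_mul]
    exact hR
  · obtain ⟨rr, hrr⟩ := Finset.nonempty_iff_ne_empty.mpr hemp
    rw [mem_filter, hP, mem_filter] at hrr
    have he : (((∏ p ∈ E, p : ℕ) : ℕ) : ℝ) ≤ (x : ℝ) / q := by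
      refine le_trans ?_ hrr.1.2
      have hcpos : 0 < ∏ p ∈ com A q b U rr, p :=
        prod_pos fun p hp => (hA p (com_subset A q b U rr hp)).1.pos
      exact_mod_cast Nat.le_of_dvd hcpos (Finset.prod_dvd_prod_of_subset _ _ _ hrr.2)
    have h3 := pairs_le (b := b) (U := U) (A := A) hq hEp he
    have h4 : ((P.filter fun rr => E ⊆ com A q b U rr).card : ℝ) ≤
        (((rows x q b U ×ˢ rows x q b U).filter fun rr => E ⊆ com A q b U rr).card : ℝ) := by
      exact_mod_cast card_le_card (filter_subset_filter _ (filter_subset _ _))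
    calc ((P.filter fun rr => E ⊆ com A q b U rr).card : ℝ) * ∏ p ∈ E, (lam p - 1)
        ≤ (4 * ((x : ℝ) / q) ^ 2 * ∏ p ∈ E, (((U : ℝ) + 2) ^ 2 / (p : ℝ) ^ 2)) *
          ∏ p ∈ E, (lam p - 1) := mul_le_mul_of_nonneg_right (h4.trans h3) hw
      _ = 4 * ((x : ℝ) / q) ^ 2 *
          ∏ p ∈ E, ((lam p - 1) * (((U : ℝ) + 2) ^ 2 / (p : ℝ) ^ 2)) := by
        rw [prod_mul_distrib]; ring

/-- Second count: pairs of rows whose common primes have a large product. -/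
lemma big_pairs {x q b U : ℕ} (hq : 0 < q) {A : Finset ℕ} {W : ℕ} (hW : 0 < W)
    (hA : ∀ p ∈ A, p.Prime ∧ p.Coprime q ∧ p ≤ W) (hH : 1 ≤ (x : ℝ) / q) {β : ℝ}
    (hβ2 : β ≤ 2) (hU : ∀ p ∈ A, ((U : ℝ) + 2) ^ 2 ≤ (p : ℝ) ^ β) :
    (((rows x q b U ×ˢ rows x q b U).filter fun rr => (x : ℝ) / q <
        (((∏ p ∈ com A q b U rr, p : ℕ) : ℕ) : ℝ)).card : ℝ) ≤
      4 * ((x : ℝ) / q) ^ 3 * ((x : ℝ) / q / W) ^ (β - 2) := by
  classical
  set H := (x : ℝ) / q with hHdef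
  have hHpos : 0 < H := by linarith
  have hWpos : (0 : ℝ) < W := by exact_mod_cast hW
  set EE := A.powerset.filter fun E => H / W < (((∏ p ∈ E, p : ℕ) : ℕ) : ℝ) ∧
    (((∏ p ∈ E, p : ℕ) : ℕ) : ℝ) ≤ H with hEE
  have hcover : ((rows x q b U ×ˢ rows x q b U).filter fun rr => H <
        (((∏ p ∈ com A q b U rr, p : ℕ) : ℕ) : ℝ)) ⊆
      EE.biUnion fun E => (rows x q b U ×ˢ rows x q b U).filter fun rr => E ⊆ com A q b U rr := by
    intro rr hrr
    rw [mem_filter] at hrr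
    -- a maximal subset with product at most `H`
    set T := com A q b U rr with hT
    have hTA : T ⊆ A := com_subset A q b U rr
    obtain ⟨E, hE, hmax⟩ := Finset.exists_max_image
      (T.powerset.filter fun E => (((∏ p ∈ E, p : ℕ) : ℕ) : ℝ) ≤ H) (fun E => E.card)
      ⟨∅, by simp [hH]⟩
    rw [mem_filter, mem_powerset] at hE
    have hne : E ≠ T := by
      rintro rfl
      exact absurd hE.2 (not_le.mpr hrr.2)
    obtain ⟨p, hpT, hpE⟩ := Finset.exists_of_ssubset (lt_of_le_of_ne hE.1 hne)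
    have hbig : H < (((∏ p ∈ insert p E, p : ℕ) : ℕ) : ℝ) := by
      by_contra hcon
      push Not at hcon
      have h1 := hmax (insert p E) (by
        rw [mem_filter, mem_powerset]
        exact ⟨insert_subset hpT hE.1, hcon⟩)
      rw [card_insert_of_notMem hpE] at h1
      omega
    rw [prod_insert hpE] at hbig
    have hpW : (p : ℝ) ≤ W := by exact_mod_cast (hA p (hTA hpT)).2.2
    have hepos : (0 : ℝ) < ((∏ p ∈ E, p : ℕ) : ℝ) := by
      exact_mod_cast prod_pos fun p hp => (hA p (hTA (hE.1 hp))).1.pos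
    rw [mem_biUnion]
    refine ⟨E, ?_, ?_⟩
    · rw [hEE, mem_filter, mem_powerset]
      refine ⟨hE.1.trans hTA, ?_, hE.2⟩
      rw [div_lt_iff₀ hWpos]
      push_cast at hbig hepos ⊢
      nlinarith
    · rw [mem_filter]
      exact ⟨hrr.1, hE.1⟩
  have hEp : ∀ E ∈ EE, (∀ p ∈ E, p.Prime ∧ p.Coprime q) ∧
      H / W < (((∏ p ∈ E, p : ℕ) : ℕ) : ℝ) ∧ (((∏ p ∈ E, p : ℕ) : ℕ) : ℝ) ≤ H ∧ E ⊆ A := by
    intro E hE
    rw [hEE, mem_filter, mem_powerset] at hE
    exact ⟨fun p hp => ⟨(hA p (hE.1 hp)).1, (hA p (hE.1 hp)).2.1⟩, hE.2.1, hE.2.2, hE.1⟩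
  -- the bound for one `E`
  have hone : ∀ E ∈ EE, (((rows x q b U ×ˢ rows x q b U).filter
      fun rr => E ⊆ com A q b U rr).card : ℝ) ≤ 4 * H ^ 2 * (H / W) ^ (β - 2) := by
    intro E hE
    obtain ⟨h1, h2, h3, h4⟩ := hEp E hE
    refine (pairs_le (A := A) hq h1 h3).trans ?_
    apply mul_le_mul_of_nonneg_left _ (by positivity)
    have hepos : (0 : ℝ) < ((∏ p ∈ E, p : ℕ) : ℝ) := by
      exact_mod_cast prod_pos fun p hp => (h1 p hp).1.pos
    calc ∏ p ∈ E, (((U : ℝ) + 2) ^ 2 / (p : ℝ) ^ 2)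
        ≤ ∏ p ∈ E, ((p : ℝ) ^ (β - 2)) := by
          refine prod_le_prod (fun p _ => by positivity) fun p hp => ?_
          have hp0 : (0 : ℝ) < p := by exact_mod_cast (h1 p hp).1.pos
          rw [Real.rpow_sub hp0, Real.rpow_two]
          exact div_le_div_of_nonneg_right (hU p (h4 hp)) (by positivity)
      _ = (((∏ p ∈ E, p : ℕ) : ℕ) : ℝ) ^ (β - 2) := by
          push_cast
          rw [← Real.finsetProd_rpow E (fun p => (p : ℝ)) (fun p _ => Nat.cast_nonneg p)]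
      _ ≤ (H / W) ^ (β - 2) :=
          Real.rpow_le_rpow_of_nonpos (by positivity) h2.le (by linarith)
  -- the number of `E`
  have hcardE : (EE.card : ℝ) ≤ H := by
    have hinj : Set.InjOn (fun E : Finset ℕ => ∏ p ∈ E, p) (EE : Set (Finset ℕ)) := by
      intro E hE E' hE' h
      have h1 := Nat.primeFactors_prod (fun p hp => ((hEp E hE).1 p hp).1)
      have h2 := Nat.primeFactors_prod (fun p hp => ((hEp E' hE').1 p hp).1)
      simp only at h
      rw [← h1, ← h2, h]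
    have himg : EE.image (fun E : Finset ℕ => ∏ p ∈ E, p) ⊆ Icc 1 ⌊H⌋₊ := by
      intro n hn
      obtain ⟨E, hE, rfl⟩ := mem_image.mp hn
      rw [mem_Icc]
      refine ⟨prod_pos fun p hp => ((hEp E hE).1 p hp).1.pos, ?_⟩
      exact Nat.le_floor (hEp E hE).2.2.1
    have h3 := card_le_card himg
    rw [card_image_of_injOn hinj, Nat.card_Icc, Nat.add_sub_cancel] at h3
    exact (by exact_mod_cast h3 : (EE.card : ℝ) ≤ ⌊H⌋₊).trans (Nat.floor_le hHpos.le)
  calc (((rows x q b U ×ˢ rows x q b U).filter fun rr => H <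
        (((∏ p ∈ com A q b U rr, p : ℕ) : ℕ) : ℝ)).card : ℝ)
      ≤ ((EE.biUnion fun E => (rows x q b U ×ˢ rows x q b U).filter
          fun rr => E ⊆ com A q b U rr).card : ℝ) := by exact_mod_cast card_le_card hcover
    _ ≤ ∑ E ∈ EE, (((rows x q b U ×ˢ rows x q b U).filter
          fun rr => E ⊆ com A q b U rr).card : ℝ) := by exact_mod_cast card_biUnion_le
    _ ≤ ∑ E ∈ EE, 4 * H ^ 2 * (H / W) ^ (β - 2) := sum_le_sum hone
    _ = EE.card * (4 * H ^ 2 * (H / W) ^ (β - 2)) := by rw [sum_const, nsmul_eq_mul]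
    _ ≤ H * (4 * H ^ 2 * (H / W) ^ (β - 2)) :=
        mul_le_mul_of_nonneg_right hcardE (by positivity)
    _ = 4 * H ^ 3 * (H / W) ^ (β - 2) := by ring

lemma qq_pos (z p0 : ℕ) : 0 < qq z p0 := by
  unfold qq
  refine prod_pos fun p hp => ?_
  exact (mem_filter.mp (mem_of_mem_erase hp)).2.pos

lemma qq_le (z p0 : ℕ) : qq z p0 ≤ 4 ^ z := by
  refine le_trans ?_ (primorial_le_four_pow z)
  unfold qq primorial
  have hsub : ((Icc 1 z).filter Nat.Prime).erase p0 ⊆ (range (z + 1)).filter Nat.Prime := by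
    intro p hp
    have h := mem_filter.mp (mem_of_mem_erase hp)
    rw [mem_filter, mem_range]
    have := (mem_Icc.mp h.1).2
    exact ⟨by omega, h.2⟩
  refine Finset.prod_le_prod_of_subset_of_one_le' hsub fun p hp _ => ?_
  exact (mem_filter.mp hp).2.one_lt.le

lemma mem_AA {κ : ℝ} {B z p0 p : ℕ} (h : p ∈ AA κ B z p0) :
    p.Prime ∧ z ^ B < p ∧ p ≤ w1 κ z := by
  unfold AA at h
  have h1 := mem_filter.mp (mem_of_mem_erase h)
  have h2 := mem_Ioc.mp h1.1
  exact ⟨h1.2, h2.1, h2.2⟩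

lemma coprime_qq {κ : ℝ} {B z p0 p : ℕ} (hB : 1 ≤ B) (h : p ∈ AA κ B z p0) :
    p.Coprime (qq z p0) := by
  obtain ⟨h1, h2, -⟩ := mem_AA h
  unfold qq
  refine Nat.Coprime.prod_right fun l hl => ?_
  have h3 := mem_filter.mp (mem_of_mem_erase hl)
  have h4 := (mem_Icc.mp h3.1).2
  rw [Nat.coprime_primes h1 h3.2]
  rintro rfl
  have h5 : z ≤ z ^ B := Nat.le_self_pow (by omega) z
  omega

lemma sum_inv_sq_le {κ : ℝ} {B z p0 : ℕ} (hz : 1 ≤ z) :
    ∑ p ∈ AA κ B z p0, 1 / (p : ℝ) ^ 2 ≤ 1 / (z : ℝ) ^ B := by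
  have hsub : AA κ B z p0 ⊆ Ioc (z ^ B) (w1 κ z) := by
    intro p hp
    obtain ⟨-, h1, h2⟩ := mem_AA hp
    exact mem_Ioc.mpr ⟨h1, h2⟩
  have hzB : z ^ B ≠ 0 := pow_ne_zero _ (by omega)
  rcases le_or_gt (z ^ B) (w1 κ z) with h | h
  · calc ∑ p ∈ AA κ B z p0, 1 / (p : ℝ) ^ 2
        ≤ ∑ p ∈ Ioc (z ^ B) (w1 κ z), 1 / (p : ℝ) ^ 2 :=
          sum_le_sum_of_subset_of_nonneg hsub fun _ _ _ => by positivity
      _ = ∑ p ∈ Ioc (z ^ B) (w1 κ z), ((p : ℝ) ^ 2)⁻¹ :=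
          sum_congr rfl fun _ _ => one_div _
      _ ≤ ((z ^ B : ℕ) : ℝ)⁻¹ - ((w1 κ z : ℕ) : ℝ)⁻¹ := sum_Ioc_inv_sq_le_sub hzB h
      _ ≤ ((z ^ B : ℕ) : ℝ)⁻¹ := by
          have : (0 : ℝ) ≤ ((w1 κ z : ℕ) : ℝ)⁻¹ := by positivity
          linarith
      _ = 1 / (z : ℝ) ^ B := by push_cast; rw [one_div]
  · have hemp : AA κ B z p0 = ∅ := by
      rw [← subset_empty]
      refine hsub.trans ?_
      rw [Ioc_eq_empty_of_le h.le]
    rw [hemp, sum_empty]
    positivity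

end PC

open PC in
theorem stmt_PC : Stmt_PC := by
  intro η hη
  set β : ℝ := min η 1 / 2 with hβ
  have hβpos : 0 < β := by rw [hβ]; have := lt_min hη one_pos; linarith
  have hβη : β ≤ η / 2 := by rw [hβ]; have := min_le_left η 1; linarith
  have hβ1 : β ≤ 1 / 2 := by rw [hβ]; have := min_le_right η 1; linarith
  refine ⟨max 11 ⌈8 / β⌉₊, fun B hB κ hκ hκ2 => ?_⟩
  have hB11 : 11 ≤ B := (le_max_left _ _).trans hB
  have hBβ : 8 ≤ B * β := by
    have h1 : 8 / β ≤ B := (Nat.le_ceil _).trans (by exact_mod_cast (le_max_right _ _).trans hB)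
    rwa [div_le_iff₀ hβpos] at h1
  -- large `z`
  obtain ⟨z1, hz1⟩ : ∃ z1 : ℕ, ∀ z : ℕ, z1 ≤ z → max (10 / η) 2 ≤ (z : ℝ) ^ κ := by
    have h1 := (tendsto_rpow_atTop hκ).comp tendsto_natCast_atTop_atTop
    obtain ⟨z1, hz1⟩ := (h1.eventually_ge_atTop (max (10 / η) 2)).exists_forall_of_atTop
    exact ⟨z1, fun z hz => hz1 z hz⟩
  refine ⟨max z1 8, fun z hz p0 x U b hx hU hb => ?_⟩
  have hz8 : 8 ≤ z := (le_max_right _ _).trans hz
  have hzκ := hz1 z ((le_max_left _ _).trans hz)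
  have hz0 : (0 : ℝ) < z := by exact_mod_cast (by omega : 0 < z)
  have hz8' : (8 : ℝ) ≤ z := by exact_mod_cast hz8
  have hz1' : (1 : ℝ) ≤ z := by linarith
  set A := AA κ B z p0 with hAdef
  set q := qq z p0 with hqdef
  have hq : 0 < q := qq_pos z p0
  have hqr : (0 : ℝ) < q := by exact_mod_cast hq
  have hq4 : (q : ℝ) ≤ 4 ^ z := by exact_mod_cast qq_le z p0
  have hA1 : ∀ p ∈ A, p.Prime ∧ p.Coprime q := fun p hp =>
    ⟨(mem_AA hp).1, coprime_qq (by omega) hp⟩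
  -- powers
  have hlog4 : Real.log 4 < 3 / 2 := by
    have h1 : Real.log 4 = 2 * Real.log 2 := by
      rw [show (4 : ℝ) = 2 ^ 2 by norm_num, Real.log_pow]; norm_num
    have := Real.log_two_lt_d9
    rw [h1]; linarith
  have hzpow : (z : ℝ) ^ (1 + κ) = z * (z : ℝ) ^ κ := by
    rw [Real.rpow_add hz0, Real.rpow_one]
  have hlogx : (z : ℝ) * (z : ℝ) ^ κ ≤ Real.log x := by rw [← hzpow]; exact hx.1
  have hxpos : (0 : ℝ) < x := by
    rcases Nat.eq_zero_or_pos x with h | h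
    · subst h
      simp only [Nat.cast_zero, Real.log_zero] at hlogx
      have : 0 < (z : ℝ) * (z : ℝ) ^ κ := by positivity
      linarith
    · exact_mod_cast h
  have hzκ2 : 2 ≤ (z : ℝ) ^ κ := (le_max_right _ _).trans hzκ
  have hzκη : 10 / η ≤ (z : ℝ) ^ κ := (le_max_left _ _).trans hzκ
  have hH1 : 1 ≤ (x : ℝ) / q := by
    rw [le_div_iff₀ hqr, one_mul]
    refine hq4.trans ?_
    rw [← Real.exp_log hxpos]
    have h1 : (4 : ℝ) ^ z = Real.exp (z * Real.log 4) := by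
      rw [← Real.log_pow, Real.exp_log (by positivity)]
    rw [h1, Real.exp_le_exp]
    nlinarith
  have hHpos : 0 < (x : ℝ) / q := by linarith
  have hU2 : ((U : ℝ) + 2) ^ 2 ≤ (z : ℝ) ^ 8 := by
    have h1 : (U : ℝ) ≤ (z : ℝ) ^ 3 := by exact_mod_cast hU
    have h2 : (U : ℝ) + 2 ≤ 2 * (z : ℝ) ^ 3 := by
      have : (2 : ℝ) ≤ (z : ℝ) ^ 3 := by nlinarith [pow_le_pow_left₀ (by norm_num) hz8' 3]
      linarith
    calc ((U : ℝ) + 2) ^ 2 ≤ (2 * (z : ℝ) ^ 3) ^ 2 := pow_le_pow_left₀ (by positivity) h2 2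
      _ = 4 * (z : ℝ) ^ 6 := by ring
      _ ≤ (z : ℝ) ^ 2 * (z : ℝ) ^ 6 := by
          apply mul_le_mul_of_nonneg_right _ (by positivity)
          nlinarith
      _ = (z : ℝ) ^ 8 := by ring
  constructor
  · -- first sum
    have h1 := sum_pairs (x := x) (b := b) (U := U) hq hA1 (fun _ => (z : ℝ)) (fun _ _ => hz1')
    simp only [prod_const] at h1
    refine h1.trans ?_
    set s := ∑ p ∈ A, ((z : ℝ) - 1) * (((U : ℝ) + 2) ^ 2 / (p : ℝ) ^ 2) with hs
    have hs0 : 0 ≤ s := sum_nonneg fun p _ => by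
      have : (0 : ℝ) ≤ z - 1 := by linarith
      positivity
    have hs1 : s ≤ 1 / (z : ℝ) ^ 2 := by
      calc s ≤ ∑ p ∈ A, (z : ℝ) ^ 9 * (1 / (p : ℝ) ^ 2) := by
            refine sum_le_sum fun p _ => ?_
            rw [div_eq_mul_one_div (((U : ℝ) + 2) ^ 2), ← mul_assoc]
            apply mul_le_mul_of_nonneg_right _ (by positivity)
            calc ((z : ℝ) - 1) * ((U : ℝ) + 2) ^ 2 ≤ z * (z : ℝ) ^ 8 :=
                  mul_le_mul (by linarith) hU2 (by positivity) hz0.le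
              _ = (z : ℝ) ^ 9 := by ring
        _ = (z : ℝ) ^ 9 * ∑ p ∈ A, 1 / (p : ℝ) ^ 2 := by rw [mul_sum]
        _ ≤ (z : ℝ) ^ 9 * (1 / (z : ℝ) ^ B) :=
            mul_le_mul_of_nonneg_left (sum_inv_sq_le (by omega)) (by positivity)
        _ ≤ (z : ℝ) ^ 9 * (1 / (z : ℝ) ^ 11) := by
            apply mul_le_mul_of_nonneg_left _ (by positivity)
            exact one_div_le_one_div_of_le (by positivity) (pow_le_pow_right₀ hz1' hB11)
        _ = 1 / (z : ℝ) ^ 2 := by field_simp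
    have hs2 : s ≤ 1 := hs1.trans (by
      rw [div_le_one (by positivity)]; nlinarith)
    have hprod : ∏ p ∈ A, (1 + ((z : ℝ) - 1) * (((U : ℝ) + 2) ^ 2 / (p : ℝ) ^ 2)) ≤
        Real.exp s := by
      rw [hs, Real.exp_sum]
      refine prod_le_prod (fun p _ => ?_) fun p _ => ?_
      · have : (0 : ℝ) ≤ z - 1 := by linarith
        positivity
      · have := Real.add_one_le_exp (((z : ℝ) - 1) * (((U : ℝ) + 2) ^ 2 / (p : ℝ) ^ 2))
        linarith
    have hexp : Real.exp s - 1 ≤ 2 * s := by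
      have h2 := Real.abs_exp_sub_one_sub_id_le (x := s) (by rw [abs_of_nonneg hs0]; exact hs2)
      have h3 := (abs_le.mp h2).2
      nlinarith
    calc 4 * ((x : ℝ) / q) ^ 2 *
          (∏ p ∈ A, (1 + ((z : ℝ) - 1) * (((U : ℝ) + 2) ^ 2 / (p : ℝ) ^ 2)) - 1)
        ≤ 4 * ((x : ℝ) / q) ^ 2 * (2 * (1 / (z : ℝ) ^ 2)) := by
          apply mul_le_mul_of_nonneg_left _ (by positivity)
          linarith
      _ = ((x : ℝ) / q) ^ 2 / z * (8 / z) := by field_simp; ring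
      _ ≤ ((x : ℝ) / q) ^ 2 / z * 1 := by
          apply mul_le_mul_of_nonneg_left _ (by positivity)
          rw [div_le_one hz0]; exact hz8'
      _ = ((x : ℝ) / q) ^ 2 / z := mul_one _
  · -- large common product
    have hWpos : 0 < w1 κ z := by
      unfold w1
      rw [Nat.floor_pos]
      exact Real.one_le_exp (by positivity)
    have hWr : (0 : ℝ) < w1 κ z := by exact_mod_cast hWpos
    have hA2 : ∀ p ∈ A, p.Prime ∧ p.Coprime q ∧ p ≤ w1 κ z := fun p hp =>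
      ⟨(hA1 p hp).1, (hA1 p hp).2, (mem_AA hp).2.2⟩
    have hU3 : ∀ p ∈ A, ((U : ℝ) + 2) ^ 2 ≤ (p : ℝ) ^ β := by
      intro p hp
      have h1 : ((z : ℝ) ^ B) ≤ p := by exact_mod_cast (mem_AA hp).2.1.le
      calc ((U : ℝ) + 2) ^ 2 ≤ (z : ℝ) ^ 8 := hU2
        _ = (z : ℝ) ^ (8 : ℝ) := by norm_cast
        _ ≤ (z : ℝ) ^ (B * β) := Real.rpow_le_rpow_of_exponent_le hz1' hBβ
        _ = ((z : ℝ) ^ B) ^ β := by rw [Real.rpow_mul hz0.le, Real.rpow_natCast]
        _ ≤ (p : ℝ) ^ β := Real.rpow_le_rpow (by positivity) h1 hβpos.le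
    have h1 := big_pairs (x := x) (b := b) (U := U) hq hWpos hA2 hH1 (β := β) (by linarith) hU3
    refine h1.trans ?_
    set H := (x : ℝ) / q with hHdef
    -- `4 q W^2 x^β ≤ x^η`
    have hkey : 4 * q * (w1 κ z : ℝ) ^ 2 * (x : ℝ) ^ β ≤ (x : ℝ) ^ η := by
      have hW : (w1 κ z : ℝ) ≤ Real.exp ((z : ℝ) ^ (1 - κ)) := Nat.floor_le (Real.exp_pos _).le
      have hW2 : (w1 κ z : ℝ) ≤ Real.exp z := by
        refine hW.trans (Real.exp_le_exp.mpr ?_)
        calc (z : ℝ) ^ (1 - κ) ≤ (z : ℝ) ^ (1 : ℝ) :=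
              Real.rpow_le_rpow_of_exponent_le hz1' (by linarith)
          _ = z := Real.rpow_one _
      have h4 : (4 : ℝ) = Real.exp (Real.log 4) := by rw [Real.exp_log (by norm_num)]
      have hq5 : (q : ℝ) ≤ Real.exp (z * Real.log 4) := by
        refine hq4.trans (le_of_eq ?_)
        rw [← Real.log_pow, Real.exp_log (by positivity)]
      have hxβ : (x : ℝ) ^ β = Real.exp (Real.log x * β) := Real.rpow_def_of_pos hxpos _
      have hxη : (x : ℝ) ^ η = Real.exp (Real.log x * η) := Real.rpow_def_of_pos hxpos _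
      rw [hxβ, hxη]
      calc 4 * q * (w1 κ z : ℝ) ^ 2 * Real.exp (Real.log x * β)
          ≤ Real.exp (Real.log 4) * Real.exp (z * Real.log 4) * (Real.exp z) ^ 2 *
            Real.exp (Real.log x * β) := by
            apply mul_le_mul_of_nonneg_right _ (Real.exp_pos _).le
            apply mul_le_mul _ (pow_le_pow_left₀ hWr.le hW2 2) (by positivity) (by positivity)
            exact mul_le_mul h4.le hq5 hqr.le (Real.exp_pos _).le
        _ = Real.exp (Real.log 4 + z * Real.log 4 + 2 * z + Real.log x * β) := by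
            rw [Real.exp_add, Real.exp_add, Real.exp_add, ← Real.exp_nat_mul]
            norm_cast
        _ ≤ Real.exp (Real.log x * η) := by
            rw [Real.exp_le_exp]
            have h5 : Real.log 4 + z * Real.log 4 + 2 * z ≤ 5 * z := by nlinarith
            have h6 : 5 * (z : ℝ) ≤ Real.log x * (η / 2) := by
              have h7 : 10 ≤ (z : ℝ) ^ κ * η := by
                rwa [div_le_iff₀ hη] at hzκη
              calc 5 * (z : ℝ) = z * 10 / 2 := by ring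
                _ ≤ z * ((z : ℝ) ^ κ * η) / 2 := by
                    have := mul_le_mul_of_nonneg_left h7 hz0.le
                    linarith
                _ = (z * (z : ℝ) ^ κ) * (η / 2) := by ring
                _ ≤ Real.log x * (η / 2) := mul_le_mul_of_nonneg_right hlogx (by linarith)
            have h8 : 0 ≤ Real.log x := le_trans (by positivity) hlogx
            nlinarith
    -- conclusion
    have hpow : (H / (w1 κ z : ℝ)) ^ (β - 2) ≤ H ^ (β - 2) * (w1 κ z : ℝ) ^ 2 := by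
      rw [Real.div_rpow hHpos.le hWr.le, div_eq_mul_inv, ← Real.rpow_neg hWr.le]
      apply mul_le_mul_of_nonneg_left _ (by positivity)
      have hW1 : (1 : ℝ) ≤ w1 κ z := by exact_mod_cast hWpos
      calc (w1 κ z : ℝ) ^ (-(β - 2)) ≤ (w1 κ z : ℝ) ^ (2 : ℝ) :=
            Real.rpow_le_rpow_of_exponent_le hW1 (by linarith)
        _ = (w1 κ z : ℝ) ^ 2 := by norm_cast
    have hHβ : H * H ^ (β - 2) ≤ q * (x : ℝ) ^ β * (x : ℝ)⁻¹ := by
      have e1 : H * H ^ (β - 2) = H ^ (β - 1) := by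
        rw [show β - 1 = 1 + (β - 2) by ring, Real.rpow_add hHpos, Real.rpow_one]
      rw [e1, hHdef, Real.div_rpow hxpos.le hqr.le, div_eq_mul_inv, ← Real.rpow_neg hqr.le,
        Real.rpow_sub hxpos, Real.rpow_one]
      have hq1 : (1 : ℝ) ≤ q := by exact_mod_cast hq
      have e2 : (q : ℝ) ^ (-(β - 1)) ≤ q := by
        calc (q : ℝ) ^ (-(β - 1)) ≤ (q : ℝ) ^ (1 : ℝ) :=
              Real.rpow_le_rpow_of_exponent_le hq1 (by linarith)
          _ = q := Real.rpow_one _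
      calc (x : ℝ) ^ β / x * (q : ℝ) ^ (-(β - 1)) ≤ (x : ℝ) ^ β / x * q :=
            mul_le_mul_of_nonneg_left e2 (by positivity)
        _ = q * (x : ℝ) ^ β * (x : ℝ)⁻¹ := by ring
    have hfin : (x : ℝ) ^ (-(1 - η)) = (x : ℝ) ^ η * (x : ℝ)⁻¹ := by
      rw [show -(1 - η) = η - 1 by ring, Real.rpow_sub hxpos, Real.rpow_one, div_eq_mul_inv]
    calc 4 * H ^ 3 * (H / (w1 κ z : ℝ)) ^ (β - 2)
        ≤ 4 * H ^ 3 * (H ^ (β - 2) * (w1 κ z : ℝ) ^ 2) :=
          mul_le_mul_of_nonneg_left hpow (by positivity)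
      _ = H ^ 2 * (4 * (w1 κ z : ℝ) ^ 2 * (H * H ^ (β - 2))) := by ring
      _ ≤ H ^ 2 * (4 * (w1 κ z : ℝ) ^ 2 * (q * (x : ℝ) ^ β * (x : ℝ)⁻¹)) := by
          apply mul_le_mul_of_nonneg_left _ (by positivity)
          exact mul_le_mul_of_nonneg_left hHβ (by positivity)
      _ = H ^ 2 * ((4 * q * (w1 κ z : ℝ) ^ 2 * (x : ℝ) ^ β) * (x : ℝ)⁻¹) := by ring
      _ ≤ H ^ 2 * ((x : ℝ) ^ η * (x : ℝ)⁻¹) := by
          apply mul_le_mul_of_nonneg_left _ (by positivity)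
          exact mul_le_mul_of_nonneg_right hkey (by positivity)
      _ = H ^ 2 * (x : ℝ) ^ (-(1 - η)) := by rw [hfin]

end Pool.Agent.Work.MP_b0c12c_nt_shift
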