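import Mathlib
import Pool.Agent.Work.MP_b0c12c_nt.RoughR
import Pool.Agent.Work.MP_b0c12c_nt_helper63.Fin1
import Pool.Agent.Work.MP_b0c12c_nt_shift.MT

/-!
# Block RW: good rows
-/

set_option autoImplicit false

namespace Pool.Agent.Work.MP_b0c12c_nt_shift

open Finset Filter
open Pool.Agent.Work.MP_b0c12c_nt (Cq IsMod IsBuchstab rough_q)
open Pool.Agent.Work.MP_b0c12c_nt_helper63 (buch buch_isBuchstab explicit23)

namespace RWaux

/-- all the rows -/
def rw0 (x q b U : ℕ) : Finset ℕ := Ioc ((x - b) / q) ((2 * x - (b + U + 1)) / q)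

lemma rw0_sub {x q b U : ℕ} (hq : 0 < q) (hb : b ≤ x) (hU : U + 1 ≤ x) :
    rw0 x q b U ⊆ rows x q b U := by
  intro r hr
  rw [rw0, mem_Ioc] at hr
  obtain ⟨h1, h2⟩ := hr
  rw [Nat.div_lt_iff_lt_mul hq] at h1
  rw [Nat.le_div_iff_mul_le hq] at h2
  rw [rows, mem_filter, mem_range]
  have h3 : r ≤ r * q := Nat.le_mul_of_pos_right r hq
  refine ⟨by omega, by omega, by omega⟩

lemma div_ge (a q : ℕ) : (a : ℝ) / q - 1 ≤ ((a / q : ℕ) : ℝ) := by
  have h := Nat.lt_floor_add_one ((a : ℝ) / q)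
  rw [Nat.floor_div_eq_div] at h
  linarith

lemma rw0_card {x q b U : ℕ} (hb : b ≤ x) (hU : U + 1 ≤ x) :
    ((x : ℝ) - U - 1) / q - 1 ≤ ((rw0 x q b U).card : ℝ) := by
  have h1 := div_ge (2 * x - (b + U + 1)) q
  have h2 : (((x - b) / q : ℕ) : ℝ) ≤ ((x - b : ℕ) : ℝ) / q := Nat.cast_div_le
  have h3 : (((2 * x - (b + U + 1)) / q : ℕ) : ℝ) - (((x - b) / q : ℕ) : ℝ) ≤
      ((rw0 x q b U).card : ℝ) := by
    rw [rw0, Nat.card_Ioc]
    have := Nat.le_sub_of_add_le (le_refl ((2 * x - (b + U + 1)) / q - (x - b) / q + (x - b) / q))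
    rw [sub_le_iff_le_add]
    have h4 : (2 * x - (b + U + 1)) / q ≤
        ((2 * x - (b + U + 1)) / q - (x - b) / q) + (x - b) / q := by omega
    exact_mod_cast h4
  rw [Nat.cast_sub hb] at h2
  rw [Nat.cast_sub (by omega)] at h1
  push_cast at h1
  have h4 : ((x : ℝ) - U - 1) / q = (2 * x - (b + U + 1)) / q - (x - b) / q := by ring
  linarith

lemma cols {v : ℕ → ℤ} {A : Finset ℕ} {x U q b : ℕ} (hq : 0 < q) {R : Finset ℕ}
    (hR : R ⊆ rows x q b U) (F : ℕ → ℝ) (hF : ∀ n, 0 ≤ F n) {Bd : ℝ} {J : Finset ℕ}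
    (hJU : ∀ j ∈ J, j ≤ U)
    (hJ : ∀ r ∈ R, ∀ n ∈ Sur v A x U (r * q + b), n - (r * q + b) ∈ J)
    (h : ∀ j ∈ J, ∀ S : Finset ℕ,
      (∀ n ∈ S, n ∈ Ioc x (2 * x) ∧ n ≡ b + j [MOD q] ∧ SurvF v A x n) → ∑ n ∈ S, F n ≤ Bd) :
    ∑ r ∈ R, ∑ n ∈ Sur v A x U (r * q + b), F n ≤ J.card * Bd := by
  classical
  have e1 : ∀ r ∈ R, ∑ n ∈ Sur v A x U (r * q + b), F n ≤
      ∑ j ∈ J.filter (fun j => SurvF v A x (r * q + b + j)), F (r * q + b + j) := by
    intro r hr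
    rw [← sum_image (f := F) (g := fun j => r * q + b + j) (by
      intro a _ c _ h
      simpa using h)]
    apply sum_le_sum_of_subset_of_nonneg
    · intro n hn
      have hn' := hJ r hr n hn
      unfold Sur at hn
      rw [mem_filter, mem_Ioc] at hn
      rw [mem_image]
      refine ⟨n - (r * q + b), mem_filter.2 ⟨hn', ?_⟩, by omega⟩
      rw [show r * q + b + (n - (r * q + b)) = n by omega]
      exact hn.2
    · intro n _ _
      exact hF n
  refine (sum_le_sum e1).trans ?_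
  have e2 : ∑ r ∈ R, ∑ j ∈ J.filter (fun j => SurvF v A x (r * q + b + j)), F (r * q + b + j) =
      ∑ j ∈ J, ∑ r ∈ R.filter (fun r => SurvF v A x (r * q + b + j)), F (r * q + b + j) := by
    simp_rw [sum_filter]
    exact sum_comm
  rw [e2, ← nsmul_eq_mul]
  apply sum_le_card_nsmul
  intro j hj
  have e3 : ∑ r ∈ R.filter (fun r => SurvF v A x (r * q + b + j)), F (r * q + b + j) =
      ∑ n ∈ (R.filter (fun r => SurvF v A x (r * q + b + j))).image (fun r => r * q + b + j), F n := by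
    rw [sum_image]
    intro a _ c _ h
    have : a * q = c * q := by simpa using h
    exact Nat.eq_of_mul_eq_mul_right hq this
  rw [e3]
  apply h j hj
  intro n hn
  rw [mem_image] at hn
  obtain ⟨r, hr, rfl⟩ := hn
  rw [mem_filter] at hr
  have h3 := hR hr.1
  rw [rows, mem_filter] at h3
  have h4 := hJU j hj
  refine ⟨mem_Ioc.2 ⟨by omega, by omega⟩, ?_, hr.2⟩
  have h5 : r * q + b + j = b + j + q * r := by ring
  rw [h5]
  exact Nat.add_mul_mod_self_left _ _ _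

lemma Icc_eq (z : ℕ) : (Icc 1 z).filter Nat.Prime = (range (z + 1)).filter Nat.Prime := by
  ext p
  rw [mem_filter, mem_filter, mem_Icc, mem_range]
  constructor
  · rintro ⟨h1, h2⟩
    exact ⟨by omega, h2⟩
  · rintro ⟨h1, h2⟩
    exact ⟨⟨h2.one_lt.le, by omega⟩, h2⟩

lemma qq_mod {K z p0 : ℕ} (h : p0 = 0 ∨ (p0.Prime ∧ K < p0)) : IsMod K z (qq z p0) := by
  by_cases hp : p0 ∈ (Icc 1 z).filter Nat.Prime
  · have hp' := hp
    rw [mem_filter, mem_Icc] at hp'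
    refine Or.inr ⟨p0, hp'.2, ?_, hp'.1.2, ?_⟩
    · rcases h with h | h
      · exact absurd hp'.2 (by rw [h]; exact Nat.not_prime_zero)
      · exact h.2
    · unfold qq primorial
      rw [← Icc_eq]
      exact prod_erase_mul _ _ hp
  · left
    unfold qq primorial
    rw [erase_eq_of_notMem hp, Icc_eq]

lemma qq_dvd (z p0 : ℕ) : qq z p0 ∣ primorial z := by
  unfold qq primorial
  rw [← Icc_eq]
  exact prod_dvd_prod_of_subset _ _ _ (erase_subset _ _)

lemma qq_pos (z p0 : ℕ) : 0 < qq z p0 := Nat.pos_of_dvd_of_pos (qq_dvd z p0) (primorial_pos z)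

lemma mem_qq {z p0 p : ℕ} (hp : p.Prime) (h : p ∣ qq z p0) : p ≤ z ∧ p ≠ p0 := by
  unfold qq at h
  rw [Prime.dvd_finsetProd_iff hp.prime] at h
  obtain ⟨r, hr, h⟩ := h
  rw [mem_erase, mem_filter, mem_Icc] at hr
  have h2 := (Nat.prime_dvd_prime_iff_eq hp hr.2.2).1 h
  rw [h2]
  exact ⟨hr.2.1.2, hr.1⟩

/-- The columns of the survivors. -/
lemma col_mem {κ : ℝ} {B z p0 x U b r n : ℕ} {v : ℕ → ℤ} (hB : 1 ≤ B)
    (hzx : z * z ≤ x) (hb : IsB v z p0 b)
    (hn : n ∈ Sur v (AA κ B z p0) x U (r * qq z p0 + b)) :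
    n - (r * qq z p0 + b) ∈ (Icc 2 U).filter (fun j => j.Coprime (qq z p0)) := by
  classical
  unfold Sur at hn
  rw [mem_filter, mem_Ioc] at hn
  obtain ⟨⟨h1, h2⟩, h3⟩ := hn
  rw [mem_filter, mem_Icc]
  refine ⟨⟨by omega, by omega⟩, ?_⟩
  by_contra hcon
  rw [Nat.Prime.not_coprime_iff_dvd] at hcon
  obtain ⟨p, hp, h4, h5⟩ := hcon
  obtain ⟨h6, h7⟩ := mem_qq hp h5
  have h8 : p * p ≤ x := (Nat.mul_le_mul h6 h6).trans hzx
  have h9 : p ∉ AA κ B z p0 := by
    intro h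
    rw [MTaux.mem_AA] at h
    have := Nat.le_self_pow (by omega : B ≠ 0) z
    omega
  apply h3 p hp h8 h9
  have h10 := hb.2 p hp h6 h7
  have h11 : (n : ℤ) - v p = ((n - (r * qq z p0 + b) : ℕ) : ℤ) + r * (qq z p0 : ℕ) +
      ((b : ℤ) - v p) := by
    rw [Nat.cast_sub (by omega)]
    push_cast
    ring
  rw [h11]
  exact dvd_add (dvd_add (by exact_mod_cast h4) (Dvd.dvd.mul_left (by exact_mod_cast h5) _)) h10

/-- The common divisor of the class and the modulus is small. -/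
lemma gcd_le {z p0 b j : ℕ} {v : ℕ → ℤ} (hv : ∀ p, v p ∈ sgn) (hb : IsB v z p0 b) (hj : 2 ≤ j)
    (hc : j.Coprime (qq z p0)) : (b + j).gcd (qq z p0) ≤ j * j := by
  have h0 : (b + j).gcd (qq z p0) ∣ j * j - 1 := by
    have hsq : Squarefree ((b + j).gcd (qq z p0)) :=
      Squarefree.squarefree_of_dvd ((Nat.gcd_dvd_right _ _).trans (qq_dvd z p0))
        (squarefree_primorial z)
    rw [← Nat.prod_primeFactors_of_squarefree hsq]
    apply Finset.prod_primes_dvd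
    · intro p hp
      exact (Nat.prime_of_mem_primeFactors hp).prime
    · intro p hp
      rw [Nat.mem_primeFactors] at hp
      obtain ⟨hp, h1, -⟩ := hp
      have h2 : p ∣ b + j := h1.trans (Nat.gcd_dvd_left _ _)
      have h3 : p ∣ qq z p0 := h1.trans (Nat.gcd_dvd_right _ _)
      obtain ⟨h4, h5⟩ := mem_qq hp h3
      have h6 := hb.2 p hp h4 h5
      have h7 : (p : ℤ) ∣ (j : ℤ) + v p := by
        have h8 : (j : ℤ) + v p = ((b + j : ℕ) : ℤ) - ((b : ℤ) - v p) := by push_cast; ring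
        rw [h8]
        exact dvd_sub (by exact_mod_cast h2) h6
      have h8 : ¬ (p : ℤ) ∣ (j : ℤ) := by
        intro h9
        have h9 : p ∣ j := by exact_mod_cast h9
        have := Nat.dvd_gcd h9 h3
        rw [hc] at this
        exact hp.one_lt.ne' (Nat.dvd_one.1 this)
      have h9 : (p : ℤ) ∣ (j : ℤ) * j - 1 := by
        have h10 := hv p
        unfold sgn at h10
        simp only [mem_insert, mem_singleton] at h10
        rcases h10 with h10 | h10 | h10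
        · rw [h10] at h7
          have h11 : (j : ℤ) * j - 1 = (j + -1) * (j + 1) := by ring
          rw [h11]
          exact Dvd.dvd.mul_right h7 _
        · rw [h10, add_zero] at h7
          exact absurd h7 h8
        · rw [h10] at h7
          have h11 : (j : ℤ) * j - 1 = (j + 1) * (j - 1) := by ring
          rw [h11]
          exact Dvd.dvd.mul_right h7 _
      have h10 : ((j * j - 1 : ℕ) : ℤ) = (j : ℤ) * j - 1 := by
        rw [Nat.cast_sub (by nlinarith)]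
        push_cast
        ring
      rw [← h10] at h9
      exact_mod_cast h9
  have h1 : 0 < j * j - 1 := by
    have : 4 ≤ j * j := by nlinarith
    omega
  have := Nat.le_of_dvd h1 h0
  omega

lemma Wt_nonneg {π : ℕ → ℤ → ℝ} {c₁ c₂ : ℝ} (hπ : Law π c₁ c₂) (A : Finset ℕ) (n : ℕ) :
    0 ≤ Wt π A n := by
  unfold Wt
  apply prod_nonneg
  intro p _
  unfold gw
  have h1 : ∑ s ∈ sgn, (if (p : ℤ) ∣ (n : ℤ) - s then π p s else 0) ≤ ∑ s ∈ sgn, π p s := by
    apply sum_le_sum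
    intro s _
    split_ifs
    · exact le_rfl
    · exact hπ.nonneg p s
  have h2 : ∑ s ∈ sgn, π p s = 1 := by
    have := hπ.sum_one p
    unfold sgn
    rw [sum_insert (by decide), sum_insert (by decide), sum_singleton]
    linarith
  linarith

/-- Size conditions. -/
lemma sizes {κ ρ : ℝ} (hκ : 0 < κ) (hκ1 : κ ≤ 1 / 50) (hρ : 0 < ρ) :
    ∀ᶠ z : ℕ in atTop, 16 ≤ z ∧ ∀ x U : ℕ, InR κ z x → (U : ℝ) ≤ ((z : ℝ) + 1) ^ (2 + 3 * κ) →
      (U : ℝ) + 1 + (4 : ℝ) ^ z ≤ ρ * x ∧ (z : ℝ) * z ≤ x ∧ (U : ℝ) * U ≤ (z : ℝ) ^ 7 ∧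
      (U : ℝ) * (z : ℝ) ^ (-(5 / 2) : ℝ) ≤ ρ ∧ 1 ≤ Real.log x ∧ (U : ℝ) + 1 + 4 ^ z ≤ x := by
  have t1 : Tendsto (fun z : ℕ => (z : ℝ) ^ κ) atTop atTop :=
    (tendsto_rpow_atTop hκ).comp tendsto_natCast_atTop_atTop
  have t2 : Tendsto (fun z : ℕ => (z : ℝ) ^ (1 / 4 : ℝ)) atTop atTop :=
    (tendsto_rpow_atTop (by norm_num)).comp tendsto_natCast_atTop_atTop
  have t3 : Tendsto (fun z : ℕ => Real.exp z) atTop atTop :=
    Real.tendsto_exp_atTop.comp tendsto_natCast_atTop_atTop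
  filter_upwards [t1.eventually_ge_atTop 4, t2.eventually_ge_atTop (8 / ρ),
    t3.eventually_ge_atTop (3 / ρ), t3.eventually_ge_atTop 3, eventually_ge_atTop 16]
    with z h1 h2 h3 h3' h4
  refine ⟨h4, fun x U hx hU => ?_⟩
  have hz : (16 : ℝ) ≤ z := by exact_mod_cast h4
  have hz0 : (0 : ℝ) < z := by linarith
  have hlx : 4 * (z : ℝ) ≤ Real.log x := by
    refine le_trans ?_ hx.1
    rw [Real.rpow_add hz0, Real.rpow_one]
    nlinarith
  have hx0 : (0 : ℝ) < x := by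
    rcases Nat.eq_zero_or_pos x with h | h
    · rw [h] at hlx
      simp at hlx
      linarith
    · exact_mod_cast h
  have hxe : Real.exp (4 * (z : ℝ)) ≤ x := by
    rw [← Real.le_log_iff_exp_le hx0]
    exact hlx
  have hxe' : Real.exp (3 * (z : ℝ)) * Real.exp z ≤ x := by
    rw [← Real.exp_add]
    refine le_trans (Real.exp_le_exp.2 (by linarith)) hxe
  have h5 : (4 : ℝ) ^ z ≤ Real.exp (3 * (z : ℝ)) := by
    have h6 : Real.exp (3 * (z : ℝ)) = (Real.exp 3) ^ z := by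
      rw [← Real.exp_nat_mul]
      congr 1
      ring
    rw [h6]
    apply pow_le_pow_left₀ (by norm_num)
    have := Real.add_one_le_exp (3 : ℝ)
    linarith
  have hU1 : ((z : ℝ) + 1) ^ (2 + 3 * κ) ≤ ((z : ℝ) + 1) ^ (9 / 4 : ℝ) :=
    Real.rpow_le_rpow_of_exponent_le (by linarith) (by linarith)
  have hU2 : ((z : ℝ) + 1) ^ (9 / 4 : ℝ) ≤ ((z : ℝ) + 1) ^ (3 : ℝ) :=
    Real.rpow_le_rpow_of_exponent_le (by linarith) (by norm_num)
  have hU3 : (U : ℝ) ≤ Real.exp (3 * (z : ℝ)) := by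
    have h7 := Real.add_one_le_exp (z : ℝ)
    have h8 : ((z : ℝ) + 1) ^ (3 : ℝ) ≤ Real.exp (3 * (z : ℝ)) := by
      have h9 : ((z : ℝ) + 1) ^ (3 : ℝ) ≤ (Real.exp z) ^ (3 : ℝ) :=
        Real.rpow_le_rpow (by linarith) h7 (by norm_num)
      rw [← Real.exp_mul] at h9
      rwa [mul_comm] at h9
    linarith
  have h10 : (1 : ℝ) ≤ Real.exp (3 * (z : ℝ)) := Real.one_le_exp (by linarith)
  have h11 : (0 : ℝ) < Real.exp (3 * (z : ℝ)) := Real.exp_pos _
  refine ⟨?_, ?_, ?_, ?_, by linarith, ?_⟩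
  · rw [div_le_iff₀ hρ] at h3
    nlinarith
  · have h7 := Real.add_one_le_exp (z : ℝ)
    have h8 : (z : ℝ) * z ≤ Real.exp z * Real.exp z := by
      apply mul_le_mul (by linarith) (by linarith) hz0.le (Real.exp_pos _).le
    rw [← Real.exp_add] at h8
    refine h8.trans (le_trans (Real.exp_le_exp.2 (by linarith)) hxe)
  · have h7 : ((z : ℝ) + 1) ^ (9 / 4 : ℝ) ≤ ((z : ℝ) + 1) ^ (5 / 2 : ℝ) :=
      Real.rpow_le_rpow_of_exponent_le (by linarith) (by norm_num)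
    have h8 : (U : ℝ) ≤ ((z : ℝ) + 1) ^ (5 / 2 : ℝ) := by linarith
    have h9 : (U : ℝ) * U ≤ ((z : ℝ) + 1) ^ (5 / 2 : ℝ) * ((z : ℝ) + 1) ^ (5 / 2 : ℝ) :=
      mul_le_mul h8 h8 (Nat.cast_nonneg _) (by positivity)
    rw [← Real.rpow_add (by linarith)] at h9
    have h12 : ((z : ℝ) + 1) ^ ((5 / 2 : ℝ) + 5 / 2) = ((z : ℝ) + 1) ^ 5 := by
      rw [← Real.rpow_natCast]
      norm_num
    rw [h12] at h9
    have h13 : ((z : ℝ) + 1) ^ 5 ≤ (2 * z) ^ 5 := pow_le_pow_left₀ (by linarith) (by linarith) 5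
    have h14 : (2 * (z : ℝ)) ^ 5 = 32 * (z : ℝ) ^ 5 := by ring
    have h15 : (z : ℝ) ^ 7 = z ^ 5 * (z * z) := by ring
    have h16 : (0 : ℝ) < (z : ℝ) ^ 5 := by positivity
    have h17 : (32 : ℝ) ≤ (z : ℝ) * z := by nlinarith
    have h18 := mul_le_mul_of_nonneg_left h17 h16.le
    rw [h15]
    linarith
  · have h7 : ((z : ℝ) + 1) ^ (9 / 4 : ℝ) ≤ (2 * z) ^ (9 / 4 : ℝ) :=
      Real.rpow_le_rpow (by linarith) (by linarith) (by norm_num)
    rw [Real.mul_rpow (by norm_num) hz0.le] at h7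
    have h8 : (2 : ℝ) ^ (9 / 4 : ℝ) ≤ 8 := by
      calc (2 : ℝ) ^ (9 / 4 : ℝ) ≤ 2 ^ (3 : ℝ) :=
            Real.rpow_le_rpow_of_exponent_le (by norm_num) (by norm_num)
        _ = 8 := by norm_num
    have h9 : (U : ℝ) ≤ 8 * (z : ℝ) ^ (9 / 4 : ℝ) := by
      have : 0 < (z : ℝ) ^ (9 / 4 : ℝ) := by positivity
      nlinarith
    have h12 : (z : ℝ) ^ (9 / 4 : ℝ) * (z : ℝ) ^ (-(5 / 2) : ℝ) * (z : ℝ) ^ (1 / 4 : ℝ) = 1 := by
      rw [← Real.rpow_add hz0, ← Real.rpow_add hz0]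
      norm_num
    have h13 : 0 < (z : ℝ) ^ (-(5 / 2) : ℝ) := by positivity
    have h14 : 0 < (z : ℝ) ^ (9 / 4 : ℝ) := by positivity
    have h15 : (U : ℝ) * (z : ℝ) ^ (-(5 / 2) : ℝ) ≤
        8 * ((z : ℝ) ^ (9 / 4 : ℝ) * (z : ℝ) ^ (-(5 / 2) : ℝ)) := by nlinarith
    rw [div_le_iff₀ hρ] at h2
    obtain ⟨y, hy⟩ : ∃ y, y = (z : ℝ) ^ (9 / 4 : ℝ) * (z : ℝ) ^ (-(5 / 2) : ℝ) := ⟨_, rfl⟩
    rw [← hy] at h12 h15
    have hy0 : 0 < y := by rw [hy]; positivity
    nlinarith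
  · nlinarith

/-- Counting bad rows. -/
lemma bad_card {v : ℕ → ℤ} {A : Finset ℕ} {x U q b : ℕ} (R : Finset ℕ) (P : ℕ → Prop)
    [DecidablePred P] :
    ((R.filter (fun r => ∃ n ∈ Sur v A x U (r * q + b), P n)).card : ℝ) ≤
      ∑ r ∈ R, ∑ n ∈ Sur v A x U (r * q + b), (if P n then (1 : ℝ) else 0) := by
  have h0 : ∀ r, 0 ≤ ∑ n ∈ Sur v A x U (r * q + b), (if P n then (1 : ℝ) else 0) := fun r =>
    sum_nonneg fun n _ => by split_ifs <;> norm_num
  rw [card_eq_sum_ones]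
  push_cast
  refine (sum_le_sum fun r hr => ?_).trans (sum_le_sum_of_subset_of_nonneg (filter_subset
    (fun r => ∃ n ∈ Sur v A x U (r * q + b), P n) R) fun r _ _ => h0 r)
  rw [mem_filter] at hr
  obtain ⟨n, hn, hP⟩ := hr.2
  refine le_trans ?_ (single_le_sum (f := fun n => if P n then (1 : ℝ) else 0)
    (fun n _ => by split_ifs <;> norm_num) hn)
  simp [hP]

/-- Arithmetic of the total. -/
lemma arith1 {c ρ U φ q x L lz K' C J X : ℝ} (hc : 0 < c) (hρ : 0 < ρ) (hU : 0 ≤ U) (hφ : 0 < φ)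
    (hq : 0 < q) (hx : 0 < x) (hL : 0 < L) (hlz : 0 < lz) (hK : 0 < K') (hC : 0 < C)
    (hX : X = x / q) (hJ : J ≤ c * U * (φ / q)) (h1 : φ * lz ≤ C * q) :
    J * ((1 + ρ) * x / (φ * L) + K' * (ρ / (K' * C) * (x * lz / (q * L)))) ≤
      c * (1 + 2 * ρ) * (U * X / L) := by
  have hnn : 0 ≤ (1 + ρ) * x / (φ * L) + K' * (ρ / (K' * C) * (x * lz / (q * L))) := by
    positivity
  refine (mul_le_mul_of_nonneg_right hJ hnn).trans ?_
  have h2 : c * U * (φ / q) * ((1 + ρ) * x / (φ * L) + K' * (ρ / (K' * C) * (x * lz / (q * L)))) =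
      c * (1 + ρ) * (U * X / L) + c * ρ * (U * X / L) * ((φ * lz) / (C * q)) := by
    rw [hX]
    field_simp
  rw [h2]
  have h3 : (φ * lz) / (C * q) ≤ 1 := by
    rw [div_le_one (by positivity)]
    exact h1
  have hX0 : 0 < X := by rw [hX]; positivity
  have h4 : 0 ≤ c * ρ * (U * X / L) := by positivity
  have h5 := mul_le_mul_of_nonneg_left h3 h4
  have h6 : c * (1 + 2 * ρ) * (U * X / L) = c * (1 + ρ) * (U * X / L) + c * ρ * (U * X / L) * 1 := by
    ring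
  rw [h6]
  linarith

lemma arith2 {c ρ U L X g lam : ℝ} (hc : 0 < c) (hρ0 : 0 < ρ)
    (hL : 0 < L) (hX : 0 < X) (hlam : 0 < lam) (hρ : ρ = (1 - g * c / lam) / 10)
    (hU : U ≤ (1 + ρ) * g * L ^ 2) :
    c * (1 + 2 * ρ) * (U * X / L) ≤ (1 - 6 * ρ) * X * (lam * L) := by
  have h1 : U * X / L ≤ (1 + ρ) * g * L * X := by
    rw [div_le_iff₀ hL]
    have := mul_le_mul_of_nonneg_right hU hX.le
    calc U * X ≤ (1 + ρ) * g * L ^ 2 * X := this
      _ = (1 + ρ) * g * L * X * L := by ring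
  have h2 : c * (1 + 2 * ρ) * (U * X / L) ≤ c * (1 + 2 * ρ) * ((1 + ρ) * g * L * X) :=
    mul_le_mul_of_nonneg_left h1 (by positivity)
  refine h2.trans ?_
  have h3 : g * c = (1 - 10 * ρ) * lam := by
    rw [hρ]
    field_simp
    ring
  have h4 : c * (1 + 2 * ρ) * ((1 + ρ) * g * L * X) =
      ((1 + 2 * ρ) * (1 + ρ) * (1 - 10 * ρ)) * (lam * L * X) := by
    have : c * (1 + 2 * ρ) * ((1 + ρ) * g * L * X) =
      (1 + 2 * ρ) * (1 + ρ) * (g * c) * (L * X) := by ring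
    rw [this, h3]
    ring
  rw [h4]
  have h5 : (1 + 2 * ρ) * (1 + ρ) * (1 - 10 * ρ) ≤ 1 - 6 * ρ := by
    nlinarith [mul_pos hρ0 hρ0, mul_pos (mul_pos hρ0 hρ0) hρ0]
  have h6 : 0 < lam * L * X := by positivity
  calc (1 + 2 * ρ) * (1 + ρ) * (1 - 10 * ρ) * (lam * L * X) ≤ (1 - 6 * ρ) * (lam * L * X) :=
        mul_le_mul_of_nonneg_right h5 h6.le
    _ = (1 - 6 * ρ) * X * (lam * L) := by ring

end RWaux

open RWaux MTaux

set_option maxHeartbeats 4000000

/-- Block RW. -/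
theorem stmt_RW (hM : Stmt_M) (hQ2 : Stmt_Q2) (hH1 : Stmt_H1) (hH2 : Stmt_H2) : Stmt_RW := by
  classical
  intro π c₁ c₂ hπ lam g hg hlam K' hK'
  have he : 0 < Real.exp Real.eulerMascheroniConstant := Real.exp_pos _
  obtain ⟨c, hc1, hc2⟩ : ∃ c, Real.exp Real.eulerMascheroniConstant / 2 < c ∧ g * c < lam := by
    obtain ⟨c, h1, h2⟩ := exists_between (show Real.exp Real.eulerMascheroniConstant / 2 < lam / g by
      rw [lt_div_iff₀ hg]
      linarith)
    refine ⟨c, h1, ?_⟩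
    rw [lt_div_iff₀ hg] at h2
    linarith
  have hc0 : 0 < c := lt_trans (by positivity) hc1
  have hlam0 : 0 < lam := lt_trans (by positivity) hc2
  obtain ⟨ρ, hρ⟩ : ∃ ρ, ρ = (1 - g * c / lam) / 10 := ⟨_, rfl⟩
  have hr1 : g * c / lam < 1 := by rw [div_lt_one hlam0]; exact hc2
  have hr0 : 0 < g * c / lam := by positivity
  have hρ0 : 0 < ρ := by rw [hρ]; linarith
  have hρ1 : ρ < 1 / 10 := by rw [hρ]; linarith
  obtain ⟨μ0, hμ0, K0, hM⟩ := hM π c₁ c₂ hπ ρ hρ0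
  obtain ⟨C, hC, hMT⟩ := MT5
  -- the range of κ
  obtain ⟨κ0, hκ00, hκ01, hκ02⟩ : ∃ κ0 : ℝ, 0 < κ0 ∧ κ0 ≤ 1 / 50 ∧
      (1 + 3 * κ0) * (Real.exp Real.eulerMascheroniConstant / 2) < c := by
    have h1 : 0 < c / (Real.exp Real.eulerMascheroniConstant / 2) - 1 := by
      rw [sub_pos, lt_div_iff₀ (by positivity)]
      linarith
    obtain ⟨t, ht1, ht2⟩ := exists_between h1
    refine ⟨min (t / 3) (1 / 50), by positivity, min_le_right _ _, ?_⟩
    have h2 : 1 + 3 * min (t / 3) (1 / 50) ≤ 1 + t := by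
      have := min_le_left (t / 3) (1 / 50)
      linarith
    have h3 : 1 + t < c / (Real.exp Real.eulerMascheroniConstant / 2) := by linarith
    rw [lt_div_iff₀ (by positivity)] at h3
    exact lt_of_le_of_lt (mul_le_mul_of_nonneg_right h2 (by positivity)) h3
  refine ⟨ρ, hρ0, κ0, hκ00, hκ01, μ0, hμ0, fun κ hκ hκκ => ?_⟩
  have hκ1 : κ ≤ 1 / 50 := hκκ.trans hκ01
  -- rough numbers
  have hbuch : buch (2 + 3 * κ) / Real.exp (-Real.eulerMascheroniConstant) < c := by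
    rw [explicit23 buch_isBuchstab (by linarith) (by linarith), Real.exp_neg, div_inv_eq_mul]
    refine lt_of_le_of_lt ?_ hκ02
    have h1 : Real.log (2 + 3 * κ - 1) ≤ 3 * κ := by
      have := Real.log_le_sub_one_of_pos (show 0 < 2 + 3 * κ - 1 by linarith)
      linarith
    have h2 : (1 + Real.log (2 + 3 * κ - 1)) / (2 + 3 * κ) ≤ (1 + 3 * κ0) / 2 := by
      rw [div_le_div_iff₀ (by linarith) (by norm_num)]
      nlinarith
    calc (1 + Real.log (2 + 3 * κ - 1)) / (2 + 3 * κ) * Real.exp Real.eulerMascheroniConstant ≤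
          (1 + 3 * κ0) / 2 * Real.exp Real.eulerMascheroniConstant :=
          mul_le_mul_of_nonneg_right h2 he.le
      _ = _ := by ring
  obtain ⟨K1, hrough⟩ := rough_q buch_isBuchstab (by linarith) hbuch
  refine ⟨max (max K0 K1) 7, le_max_right _ _, fun B hB => ?_⟩
  obtain ⟨zM, hzM⟩ := hM (max (max K0 K1) 7) ((le_max_left _ _).trans (le_max_left _ _)) κ hκ
    (by linarith) B hB
  obtain ⟨zQ, hzQ⟩ := hQ2 π c₁ c₂ hπ (ρ / (K' * C)) (by positivity) κ hκ (by linarith) B hB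
  obtain ⟨z1, hz1⟩ := hH1 κ hκ hκ1 B hB
  obtain ⟨z2, hz2⟩ := hH2 κ hκ hκ1 B hB
  obtain ⟨z3, hz3⟩ := eventually_atTop.1 (hrough.and (sizes hκ hκ1 hρ0))
  refine ⟨max (max (max zM zQ) (max z1 z2)) z3, fun z hz p0 hgood x U hx hU1 hU2 hU3 v hv hmv b hb => ?_⟩
  have g1 : zM ≤ z := le_trans (by simp) hz
  have g2 : zQ ≤ z := le_trans (by simp) hz
  have g3 : z1 ≤ z := le_trans (by simp) hz
  have g4 : z2 ≤ z := le_trans (by simp) hz
  have g5 : z3 ≤ z := le_trans (by simp) hz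
  obtain ⟨hcq, hz16, hsz⟩ := hz3 z g5
  obtain ⟨s1, s2, s3, s4, s5, s6⟩ := hsz x U hx hU2
  obtain ⟨q, hq⟩ : ∃ q, q = qq z p0 := ⟨_, rfl⟩
  have hp0 : p0 = 0 ∨ (p0.Prime ∧ 7 < p0) := by
    rcases hgood.1 with h | h
    · exact Or.inl h
    · exact Or.inr ⟨h.1, lt_of_le_of_lt (le_max_right _ _) h.2⟩
  have hmod : IsMod K1 z q := by
    rw [hq]
    apply qq_mod
    rcases hgood.1 with h | h
    · exact Or.inl h
    · exact Or.inr ⟨h.1, lt_of_le_of_lt ((le_max_right _ _).trans (le_max_left _ _)) h.2⟩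
  have hq0 : 0 < q := by rw [hq]; exact qq_pos z p0
  have hqR : (0 : ℝ) < q := by exact_mod_cast hq0
  have hq4 : (q : ℝ) ≤ 4 ^ z := by
    have h1 : q ≤ primorial z := by
      rw [hq]
      exact Nat.le_of_dvd (primorial_pos z) (qq_dvd z p0)
    have h2 := h1.trans (primorial_le_four_pow z)
    exact_mod_cast h2
  have hφ0 : (0 : ℝ) < (q.totient : ℝ) := by exact_mod_cast Nat.totient_pos.2 hq0
  have hzR : (16 : ℝ) ≤ z := by exact_mod_cast hz16
  have hlz : 0 < Real.log z := Real.log_pos (by linarith)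
  have hUx : U + 1 ≤ x := by
    have h1 : (U : ℝ) + 1 ≤ x := by
      have : (0 : ℝ) < 4 ^ z := by positivity
      linarith
    exact_mod_cast h1
  have hbq : b < q := by rw [hq]; exact hb.1
  have hbx : b ≤ x := by
    have h1 : (q : ℝ) ≤ x := by
      have : (0 : ℝ) ≤ (U : ℝ) := Nat.cast_nonneg U
      linarith
    have h2 : q ≤ x := by exact_mod_cast h1
    omega
  have hzx : z * z ≤ x := by exact_mod_cast s2
  have hx0 : (0 : ℝ) < x := by
    have : (0 : ℝ) < (z : ℝ) * z := by positivity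
    linarith
  -- the rows and the columns
  obtain ⟨A, hA⟩ : ∃ A, A = AA κ B z p0 := ⟨_, rfl⟩
  obtain ⟨R0, hR0⟩ : ∃ R0, R0 = rw0 x q b U := ⟨_, rfl⟩
  have hR0s : R0 ⊆ rows x q b U := by rw [hR0]; exact rw0_sub hq0 hbx hUx
  obtain ⟨J, hJ⟩ : ∃ J, J = (Icc 2 U).filter (fun j => j.Coprime q) := ⟨_, rfl⟩
  have hJU : ∀ j ∈ J, j ≤ U := by
    intro j hj
    rw [hJ, mem_filter, mem_Icc] at hj
    exact hj.1.2
  have hJc : ∀ r ∈ R0, ∀ n ∈ Sur v A x U (r * q + b), n - (r * q + b) ∈ J := by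
    intro r _ n hn
    rw [hJ, hq]
    rw [hA, hq] at hn
    exact col_mem (by omega) hzx hb hn
  have hJcard : (J.card : ℝ) ≤ c * U * (q.totient / q) := by
    refine le_trans ?_ (hcq q hmod U hU1 hU2)
    have h1 : J ⊆ Cq q U := by
      intro j hj
      rw [hJ, mem_filter, mem_Icc] at hj
      unfold Cq
      rw [mem_filter, mem_Icc]
      exact ⟨⟨by omega, hj.1.2⟩, hj.2⟩
    exact_mod_cast card_le_card h1
  have hJcard' : (J.card : ℝ) ≤ U := by
    have h1 : J.card ≤ (Icc 2 U).card := by rw [hJ]; exact card_filter_le _ _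
    rw [Nat.card_Icc] at h1
    have h2 : J.card ≤ U := by omega
    exact_mod_cast h2
  obtain ⟨X, hX⟩ : ∃ X : ℝ, X = (x : ℝ) / q := ⟨_, rfl⟩
  have hX0 : 0 < X := by rw [hX]; positivity
  have hL0 : 0 < Real.log x := by linarith
  -- total of the row sums
  have hT : ∑ r ∈ R0, ∑ n ∈ Sur v A x U (r * q + b), (Wt π A n + K' * Wt π A n ^ 2) ≤
      (J.card : ℝ) * ((1 + ρ) * x / (q.totient * Real.log x) +
        K' * (ρ / (K' * C) * (x * Real.log z / (q * Real.log x)))) := by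
    apply cols hq0 hR0s _ _ hJU hJc
    · intro j hj S hS
      have hj2 := hj
      rw [hJ, mem_filter, mem_Icc] at hj2
      rw [sum_add_distrib, ← mul_sum]
      apply add_le_add
      · rw [hA, hq]
        apply hzM z g1 p0 hgood x hx v hv hmv (b + j)
        · have h1 := gcd_le hv hb hj2.1.1 (by rw [← hq]; exact hj2.2)
          have h2 : (((b + j).gcd (qq z p0) : ℕ) : ℝ) ≤ (j : ℝ) * j := by exact_mod_cast h1
          have h3 : (j : ℝ) ≤ U := by exact_mod_cast hj2.1.2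
          have h4 : (0 : ℝ) ≤ j := Nat.cast_nonneg j
          exact h2.trans ((mul_le_mul h3 h3 h4 (h4.trans h3)).trans s3)
        · rw [← hq, ← hA]
          exact hS
      · apply mul_le_mul_of_nonneg_left _ hK'.le
        rw [hA, hq]
        apply hzQ z g2 p0 hp0 x hx v hv (b + j)
        rw [← hq, ← hA]
        exact hS
    · intro n
      have := Wt_nonneg hπ A n
      positivity
  have hT2 : (J.card : ℝ) * ((1 + ρ) * x / (q.totient * Real.log x) +
        K' * (ρ / (K' * C) * (x * Real.log z / (q * Real.log x)))) ≤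
      c * (1 + 2 * ρ) * (U * X / Real.log x) := by
    have h1 := (hMT z p0 (by omega)).1
    rw [← hq] at h1
    exact arith1 hc0 hρ0 (Nat.cast_nonneg U) hφ0 hqR hx0 hL0 hlz hK' hC hX hJcard h1
  have hT3 : c * (1 + 2 * ρ) * (U * X / Real.log x) ≤ (1 - 6 * ρ) * X * (lam * Real.log x) :=
    arith2 hc0 hρ0 hL0 hX0 hlam0 hρ hU3
  -- the three kinds of bad rows
  have hB1 : ((R0.filter (fun r => ¬ (∑ n ∈ Sur v A x U (r * q + b),
      (Wt π A n + K' * Wt π A n ^ 2)) ≤ lam * Real.log x)).card : ℝ) ≤ (1 - 6 * ρ) * X := by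
    have hp : 0 < lam * Real.log x := by positivity
    have h1 : ((R0.filter (fun r => ¬ (∑ n ∈ Sur v A x U (r * q + b),
      (Wt π A n + K' * Wt π A n ^ 2)) ≤ lam * Real.log x)).card : ℝ) * (lam * Real.log x) ≤
      ∑ r ∈ R0, ∑ n ∈ Sur v A x U (r * q + b), (Wt π A n + K' * Wt π A n ^ 2) := by
      rw [← nsmul_eq_mul]
      refine (card_nsmul_le_sum _ _ _ ?_).trans (sum_le_sum_of_subset_of_nonneg (filter_subset
        (fun r => ¬ (∑ n ∈ Sur v A x U (r * q + b),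
      (Wt π A n + K' * Wt π A n ^ 2)) ≤ lam * Real.log x) R0) ?_)
      · intro r hr
        rw [mem_filter, not_le] at hr
        exact hr.2.le
      · intro r _ _
        apply sum_nonneg
        intro n _
        have := Wt_nonneg hπ A n
        positivity
    have h2 := h1.trans (hT.trans (hT2.trans hT3))
    exact le_of_mul_le_mul_right h2 hp
  have hsmall : (J.card : ℝ) * (x / q * (z : ℝ) ^ (-(5 / 2) : ℝ)) ≤ ρ * X := by
    have h1 : (0 : ℝ) < (z : ℝ) ^ (-(5 / 2) : ℝ) := by positivity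
    calc (J.card : ℝ) * (x / q * (z : ℝ) ^ (-(5 / 2) : ℝ)) ≤
          U * (x / q * (z : ℝ) ^ (-(5 / 2) : ℝ)) :=
          mul_le_mul_of_nonneg_right hJcard' (by positivity)
      _ = (U * (z : ℝ) ^ (-(5 / 2) : ℝ)) * X := by rw [hX]; ring
      _ ≤ ρ * X := mul_le_mul_of_nonneg_right s4 hX0.le
  obtain ⟨P1, hP1⟩ : ∃ P1 : ℕ → Prop, P1 = fun n => (∀ p ∈ A, ¬ p ∣ n) ∧
      (((A.filter fun p => p ∣ n ^ 2 - 1).card : ℕ) : ℝ) < Real.log z / 100 := ⟨_, rfl⟩
  obtain ⟨P2, hP2⟩ : ∃ P2 : ℕ → Prop, P2 = fun n => (∀ p ∈ A, ¬ p ∣ n ∧ ¬ p ∣ n + 2) ∧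
      ((((A.filter fun p => p ∣ n - 1).card : ℕ) : ℝ) < Real.log z / 100 ∨
        (((A.filter fun p => p ∣ n + 3).card : ℕ) : ℝ) < Real.log z / 100) := ⟨_, rfl⟩
  have hB2 : ((R0.filter (fun r => ∃ n ∈ Sur v A x U (r * q + b), P1 n)).card : ℝ) ≤ ρ * X := by
    refine (bad_card R0 P1).trans (le_trans (cols hq0 hR0s _ ?_ hJU hJc ?_) hsmall)
    · intro n
      split_ifs <;> norm_num
    · intro j hj S hS
      rw [sum_boole, hq]
      apply hz1 z g3 p0 hp0 x hx (b + j)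
      intro n hn
      rw [mem_filter] at hn
      obtain ⟨h1, h2⟩ := hn
      obtain ⟨h3, h4, -⟩ := hS n h1
      rw [hP1] at h2
      rw [← hA, ← hq]
      exact ⟨h3, h4, h2.1, h2.2⟩
  have hB3 : ((R0.filter (fun r => ∃ n ∈ Sur v A x U (r * q + b), P2 n)).card : ℝ) ≤ ρ * X := by
    refine (bad_card R0 P2).trans (le_trans (cols hq0 hR0s _ ?_ hJU hJc ?_) hsmall)
    · intro n
      split_ifs <;> norm_num
    · intro j hj S hS
      rw [sum_boole, hq]
      apply hz2 z g4 p0 hp0 x hx (b + j)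
      intro n hn
      rw [mem_filter] at hn
      obtain ⟨h1, h2⟩ := hn
      obtain ⟨h3, h4, -⟩ := hS n h1
      rw [hP2] at h2
      rw [← hA, ← hq]
      exact ⟨h3, h4, h2.1, h2.2⟩
  -- the good rows
  obtain ⟨R, hR⟩ : ∃ R, R = R0.filter (fun r => (∑ n ∈ Sur v A x U (r * q + b),
      (Wt π A n + K' * Wt π A n ^ 2)) ≤ lam * Real.log x ∧
      (∀ n ∈ Sur v A x U (r * q + b), ¬ P1 n) ∧ (∀ n ∈ Sur v A x U (r * q + b), ¬ P2 n)) :=
    ⟨_, rfl⟩
  have hcard : (R0.card : ℝ) ≤ R.card + ((1 - 6 * ρ) * X + (ρ * X + ρ * X)) := by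
    have h1 : R0 ⊆ R ∪ ((R0.filter (fun r => ¬ (∑ n ∈ Sur v A x U (r * q + b),
      (Wt π A n + K' * Wt π A n ^ 2)) ≤ lam * Real.log x)) ∪
      (R0.filter (fun r => ∃ n ∈ Sur v A x U (r * q + b), P1 n) ∪
      R0.filter (fun r => ∃ n ∈ Sur v A x U (r * q + b), P2 n))) := by
      intro r hr
      rw [mem_union, mem_union, mem_union, hR, mem_filter, mem_filter, mem_filter, mem_filter]
      by_cases k1 : (∑ n ∈ Sur v A x U (r * q + b),
        (Wt π A n + K' * Wt π A n ^ 2)) ≤ lam * Real.log x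
      · by_cases k2 : ∃ n ∈ Sur v A x U (r * q + b), P1 n
        · exact Or.inr (Or.inr (Or.inl ⟨hr, k2⟩))
        · by_cases k3 : ∃ n ∈ Sur v A x U (r * q + b), P2 n
          · exact Or.inr (Or.inr (Or.inr ⟨hr, k3⟩))
          · push Not at k2 k3
            exact Or.inl ⟨hr, k1, k2, k3⟩
      · exact Or.inr (Or.inl ⟨hr, k1⟩)
    have h2 := (card_le_card h1).trans ((card_union_le _ _).trans (Nat.add_le_add_left
      ((card_union_le _ _).trans (Nat.add_le_add_left (card_union_le _ _) _)) _))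
    have h3 : (R0.card : ℝ) ≤ (R.card : ℝ) + (((R0.filter (fun r => ¬ (∑ n ∈ Sur v A x U (r * q + b),
      (Wt π A n + K' * Wt π A n ^ 2)) ≤ lam * Real.log x)).card : ℝ) +
      (((R0.filter (fun r => ∃ n ∈ Sur v A x U (r * q + b), P1 n)).card : ℝ) +
      ((R0.filter (fun r => ∃ n ∈ Sur v A x U (r * q + b), P2 n)).card : ℝ))) := by
      exact_mod_cast h2
    linarith
  have hR0card : (1 - ρ) * X ≤ R0.card := by
    have h1 := rw0_card (x := x) (q := q) (b := b) (U := U) hbx hUx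
    rw [← hR0] at h1
    have h2 : ((x : ℝ) - U - 1) / q - 1 = X - (U + 1 + q) / q := by
      rw [hX]
      field_simp
      ring
    have h3 : ((U : ℝ) + 1 + q) / q ≤ ρ * X := by
      rw [hX, div_le_iff₀ hqR]
      have : ρ * ((x : ℝ) / q) * q = ρ * x := by field_simp
      rw [this]
      linarith
    linarith
  refine ⟨R, ?_, ?_, ?_⟩
  · rw [hR, ← hq]
    exact (filter_subset _ _).trans hR0s
  · rw [← hq, ← hX]
    have h1 : 0 < ρ * X := by positivity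
    have h2 : (1 - ρ) * X = X - ρ * X := by ring
    have h3 : (1 - 6 * ρ) * X = X - 6 * (ρ * X) := by ring
    rw [h2] at hR0card
    rw [h3] at hcard
    linarith
  · intro r hr
    rw [hR, mem_filter] at hr
    obtain ⟨-, k1, k2, k3⟩ := hr
    rw [← hq, ← hA]
    refine ⟨k1, fun n hn => ?_, fun n hn _ hn3 => ?_⟩
    · have h1 := k2 n hn
      rw [hP1] at h1
      by_contra hcon
      push Not at hcon
      exact h1 ⟨hcon.1, hcon.2⟩
    · have h1 := k3 n hn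
      rw [hP2] at h1
      by_contra hcon
      rw [not_and_or, not_le, not_le] at hcon
      exact h1 ⟨hn3, hcon⟩

end Pool.Agent.Work.MP_b0c12c_nt_shift
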