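import Mathlib
import Pool.Agent.Work.MP_b0c12c_nt_shift.Interface

/-!
# General versions of SM and PC (a weight `Lam p` for each common prime)
-/

set_option autoImplicit false

namespace Pool.Agent.Work.MP_b0c12c_nt_shift

open Finset Filter

/-- Block SM, general version. -/
def Stmt_SMG : Prop :=
  ∀ (π : ℕ → ℤ → ℝ), (∀ p s, 0 ≤ π p s) → (∀ p, π p (-1) + π p 0 + π p 1 = 1) →
    ∀ (A : Finset ℕ) (Lam : ℕ → ℝ), (∀ p ∈ A, 1 ≤ Lam p) →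
    (∀ p ∈ A, ∀ s ∈ sgn, 1 / Lam p ≤ π p s) →
    ∀ (R : Finset ℕ) (S : ℕ → Set (ℕ → ℤ)) (D : ℕ → Finset ℕ) (H θ : ℝ) (v : ℕ → ℤ), R.Nonempty →
    0 < θ → (∀ r ∈ R, D r ⊆ A ∧ DependsOn (ind (S r)) ((D r : Set ℕ) ∪ (A : Set ℕ)ᶜ)) →
    (∀ r ∈ R, θ ≤ EA π A (ind (S r)) v) →
    EA π A (ind {w | ∀ r ∈ R, w ∉ S r}) v ≤
      (∑ rr ∈ (R ×ˢ R).filter (fun rr => ((∏ p ∈ D rr.1 ∩ D rr.2, p : ℕ) : ℝ) ≤ H),
          ((∏ p ∈ D rr.1 ∩ D rr.2, Lam p) - 1) +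
        (((R ×ˢ R).filter (fun rr => H < ((∏ p ∈ D rr.1 ∩ D rr.2, p : ℕ) : ℝ))).card : ℝ) / θ) /
        (R.card : ℝ) ^ 2

/-- Block PC, general version: `Lam p ≤ z p ^ α`. -/
def Stmt_PCG : Prop :=
  ∀ η α : ℝ, 0 < η → 0 ≤ α → α < 1 → ∃ B0 : ℕ, ∀ B : ℕ, B0 ≤ B → ∀ κ : ℝ, 0 < κ → κ ≤ 1 / 50 →
    ∃ z0 : ℕ, ∀ z : ℕ, z0 ≤ z → ∀ p0 : ℕ, ∀ x U b : ℕ, InR κ z x → U ≤ z ^ 3 → b < qq z p0 →
    ∀ Lam : ℕ → ℝ, (∀ p ∈ AA κ B z p0, 1 ≤ Lam p ∧ Lam p ≤ z * (p : ℝ) ^ α) →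
    ∑ rr ∈ (rows x (qq z p0) b U ×ˢ rows x (qq z p0) b U).filter (fun rr =>
        ((∏ p ∈ Dset (AA κ B z p0) U (rr.1 * qq z p0 + b) ∩
          Dset (AA κ B z p0) U (rr.2 * qq z p0 + b), p : ℕ) : ℝ) ≤ x / qq z p0),
      ((∏ p ∈ Dset (AA κ B z p0) U (rr.1 * qq z p0 + b) ∩
          Dset (AA κ B z p0) U (rr.2 * qq z p0 + b), Lam p) - 1) ≤ (x / qq z p0) ^ 2 / z ∧
    (((rows x (qq z p0) b U ×ˢ rows x (qq z p0) b U).filter (fun rr => (x : ℝ) / qq z p0 <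
        ((∏ p ∈ Dset (AA κ B z p0) U (rr.1 * qq z p0 + b) ∩
          Dset (AA κ B z p0) U (rr.2 * qq z p0 + b), p : ℕ) : ℝ))).card : ℝ) ≤
      (x / qq z p0) ^ 2 * (x : ℝ) ^ (-(1 - η))

theorem sm_of_smg (h : Stmt_SMG) : Stmt_SM := by
  intro π hπ hs A Lam hL hLam R S D H θ v hR hθ hD hP
  have h1 := h π hπ hs A (fun _ => Lam) (fun _ _ => hL) hLam R S D H θ v hR hθ hD hP
  simpa only [prod_const] using h1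

theorem pc_of_pcg (h : Stmt_PCG) : Stmt_PC := by
  intro η hη
  obtain ⟨B0, hB⟩ := h η 0 hη le_rfl one_pos
  refine ⟨B0, fun B hB0 κ hκ hκ' => ?_⟩
  obtain ⟨z0, hz0⟩ := hB B hB0 κ hκ hκ'
  refine ⟨max z0 1, fun z hz p0 x U b hx hU hb => ?_⟩
  have hz1 : 1 ≤ z := (le_max_right _ _).trans hz
  have h1 := hz0 z ((le_max_left _ _).trans hz) p0 x U b hx hU hb (fun _ => (z : ℝ)) (by
    intro p _
    refine ⟨by exact_mod_cast hz1, ?_⟩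
    simp)
  simpa only [prod_const] using h1

end Pool.Agent.Work.MP_b0c12c_nt_shift
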