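import Mathlib
import Pool.Agent.Work.MP_b0c12c_nt_shift.Op
import Pool.Agent.Work.MP_b0c12c_nt_shift.Interface2
import Pool.Agent.Work.MP_b0c12c_nt_shift.MAux

/-!
# Auxiliary facts for block SC
-/

set_option autoImplicit false

namespace Pool.Agent.Work.MP_b0c12c_nt_shift.SC

open Finset Filter

variable {π : ℕ → ℤ → ℝ}

/-- the window is emptied, where primes of `A` are only allowed to use shifts in `sgn` -/
def EmpR (A : Finset ℕ) (x U N : ℕ) : Set (ℕ → ℤ) :=
  {v | ∀ n ∈ Ioc (N + 1) (N + U), ∃ p : ℕ, p.Prime ∧ p * p ≤ x ∧ (p : ℤ) ∣ (n : ℤ) - v p ∧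
    (p ∈ A → v p ∈ sgn)}

theorem EmpR_sub (A : Finset ℕ) (x U N : ℕ) : EmpR A x U N ⊆ Emp x U N := by
  intro v hv n hn
  obtain ⟨p, h1, h2, h3, _⟩ := hv n hn
  exact ⟨p, h1, h2, h3⟩

theorem EA_EmpR (hπ : ∀ p s, 0 ≤ π p s) (A : Finset ℕ) (x U N : ℕ) (v : ℕ → ℤ) :
    EA π A (ind (EmpR A x U N)) v = EA π A (ind (Emp x U N)) v := by
  apply EA_congr_on hπ
  intro w _ hw
  by_cases h : w ∈ Emp x U N
  · rw [ind_of_mem h, ind_of_mem]
    intro n hn
    obtain ⟨p, h1, h2, h3⟩ := h n hn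
    exact ⟨p, h1, h2, h3, fun hp => hw p hp⟩
  · rw [ind_of_not_mem h, ind_of_not_mem fun h' => h (EmpR_sub A x U N h')]

theorem dep_EmpR (A : Finset ℕ) (x U N : ℕ) :
    DependsOn (ind (EmpR A x U N)) ((Dset A U N : Set ℕ) ∪ (A : Set ℕ)ᶜ) := by
  apply ind_dependsOn
  intro v w hvw hv n hn
  obtain ⟨p, h1, h2, h3, h4⟩ := hv n hn
  by_cases hpA : p ∈ A
  · have h5 := h4 hpA
    have hpD : p ∈ Dset A U N := by
      simp only [Dset, Finset.mem_filter]
      refine ⟨hpA, ?_⟩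
      rw [mem_Ioc] at hn
      unfold sgn at h5
      simp only [mem_insert, mem_singleton] at h5
      rcases h5 with h6 | h6 | h6
      · refine ⟨n + 1, by rw [mem_Icc]; omega, ?_⟩
        rw [h6] at h3
        have : (n : ℤ) - -1 = ((n + 1 : ℕ) : ℤ) := by push_cast; ring
        rw [this] at h3
        exact_mod_cast h3
      · refine ⟨n, by rw [mem_Icc]; omega, ?_⟩
        rw [h6, sub_zero] at h3
        exact_mod_cast h3
      · refine ⟨n - 1, by rw [mem_Icc]; omega, ?_⟩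
        rw [h6] at h3
        have : (n : ℤ) - 1 = ((n - 1 : ℕ) : ℤ) := by
          rw [Nat.cast_sub (by omega)]
          push_cast
          ring
        rw [this] at h3
        exact_mod_cast h3
    have h6 : v p = w p := hvw p (Or.inl hpD)
    exact ⟨p, h1, h2, by rw [← h6]; exact h3, fun _ => by rw [← h6]; exact h5⟩
  · have h6 : v p = w p := hvw p (Or.inr hpA)
    exact ⟨p, h1, h2, by rw [← h6]; exact h3, fun h => absurd h hpA⟩

/-- the class of the rows exists -/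
theorem exists_b (v : ℕ → ℤ) (z p0 : ℕ) : ∃ b, IsB v z p0 b := by
  set P := ((Icc 1 z).filter Nat.Prime).erase p0 with hP
  have hprime : ∀ p ∈ P, p.Prime := fun p hp => (mem_filter.1 (mem_of_mem_erase hp)).2
  have hcop : Set.Pairwise (P : Set ℕ) (Function.onFun Nat.Coprime (fun p => p)) := by
    intro p hp r hr hpr
    exact (Nat.coprime_primes (hprime p hp) (hprime r hr)).2 hpr
  have hne : ∀ i ∈ P, (fun p : ℕ => p) i ≠ 0 := fun p hp => (hprime p hp).ne_zero
  refine ⟨(Nat.chineseRemainderOfFinset (fun p => (v p % (p : ℤ)).toNat) (fun p => p) P hne hcop : ℕ),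
    ?_, ?_⟩
  · exact Nat.chineseRemainderOfFinset_lt_prod _ _ hne hcop
  · intro p hp hpz hp0
    have hmem : p ∈ P := by
      rw [hP, mem_erase, mem_filter, mem_Icc]
      exact ⟨hp0, ⟨hp.one_lt.le, hpz⟩, hp⟩
    have h1 := (Nat.chineseRemainderOfFinset (fun p => (v p % (p : ℤ)).toNat) (fun p => p) P hne
      hcop).2 p hmem
    set b : ℕ := (Nat.chineseRemainderOfFinset (fun p => (v p % (p : ℤ)).toNat) (fun p => p) P hne
      hcop : ℕ) with hb
    have h2 : (b : ℤ) ≡ ((v p % (p : ℤ)).toNat : ℤ) [ZMOD p] := Int.natCast_modEq_iff.2 h1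
    have hp' : (p : ℤ) ≠ 0 := by exact_mod_cast hp.ne_zero
    rw [Int.toNat_of_nonneg (Int.emod_nonneg _ hp')] at h2
    have h3 : (b : ℤ) ≡ v p [ZMOD p] := h2.trans (Int.mod_modEq _ _)
    exact h3.symm.dvd

/-- `mvm` as a sum of indicators -/
theorem mvm_eq (v : ℕ → ℤ) (A : Finset ℕ) (z x : ℕ) :
    mvm v A z x = ∑ p ∈ ((Ioc z (Nat.sqrt x)).filter Nat.Prime) \ A,
      (1 / (p : ℝ)) * (if v p = 0 then 0 else 1) := by
  unfold mvm MV
  have h1 : ((Ioc z (Nat.sqrt x)).filter fun p => p.Prime ∧ v p ≠ 0) \ A =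
      (((Ioc z (Nat.sqrt x)).filter Nat.Prime) \ A).filter (fun p => v p ≠ 0) := by
    ext p
    simp only [Finset.mem_sdiff, mem_filter]
    tauto
  rw [h1, sum_filter]
  apply sum_congr rfl
  intro p _
  by_cases h : v p = 0
  · simp [h]
  · simp [h]

/-- the expected moved mass -/
theorem EA_mvm (hπ : ∀ p s, 0 ≤ π p s) (hs : ∀ p, π p (-1) + π p 0 + π p 1 = 1)
    {A F : Finset ℕ} {z x : ℕ} (hF : ((Ioc z (Nat.sqrt x)).filter Nat.Prime) \ A ⊆ F)
    (v : ℕ → ℤ) : EA π F (fun w => mvm w A z x) v =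
      ∑ p ∈ ((Ioc z (Nat.sqrt x)).filter Nat.Prime) \ A, (1 / (p : ℝ)) * ep π p := by
  have h1 : (fun w : ℕ → ℤ => mvm w A z x) = fun w => ∑ p ∈ ((Ioc z (Nat.sqrt x)).filter Nat.Prime) \ A,
      (1 / (p : ℝ)) * (if w p = 0 then 0 else 1) := by
    funext w
    exact mvm_eq w A z x
  rw [h1, EA_sum]
  apply sum_congr rfl
  intro p hp
  rw [EA_const_mul]
  have hdep : DependsOn (fun w : ℕ → ℤ => (if w p = 0 then (0 : ℝ) else 1)) ({p} : Set ℕ) := by
    intro w w' h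
    simp only [h p rfl]
  rw [EA_restrict hs hdep (A' := {p}) (singleton_subset_iff.2 (hF hp)) (by
    intro r _ hr
    rw [mem_singleton]
    exact hr), EA_singleton]
  simp only [E1, ep]
  rw [sum_sgn]
  simp only [Function.update_self]
  rw [if_neg (by norm_num : ¬ (-1 : ℤ) = 0), if_neg (by norm_num : ¬ (1 : ℤ) = 0), if_pos trivial]
  ring

end Pool.Agent.Work.MP_b0c12c_nt_shift.SC
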