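import Mathlib
import Pool.Agent.Work.MP_b0c12c_nt_shift.SCAux

/-!
# Block SC: a fixed configuration of the fixed primes
-/

set_option autoImplicit false

namespace Pool.Agent.Work.MP_b0c12c_nt_shift.SC

open Finset Filter

variable {π : ℕ → ℤ → ℝ}

theorem fixed (hπ : ∀ p s, 0 ≤ π p s)
    (hs : ∀ p, π p (-1) + π p 0 + π p 1 = 1) (hSM : Stmt_SM) {κ : ℝ} {B z p0 x U b : ℕ}
    {η0 K' c₁ lam ρ η : ℝ} (hc₁ : 0 < c₁) (hη0 : η0 = c₁ / 100) (hρ : 0 < ρ)
    (hcl : ∀ (A : Finset ℕ) (x U N : ℕ) (v : ℕ → ℤ), 9 ≤ x →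
      0 < N → (∀ p, v p ∈ sgn) →
      (∀ p ∈ A, p.Prime ∧ U + 6 < p ∧ p * p ≤ x ∧ 1 / 2 ≤ π p 0) →
      (2 : ℤ) ∣ (N : ℤ) - v 2 → (3 : ℤ) ∣ (N : ℤ) - v 3 →
      (∀ n ∈ Sur v A x U N, (∃ p ∈ A, p ∣ n) ∨
        η0 ≤ ∑ p ∈ A.filter (fun p => p ∣ n - 1), π p 1 +
          ∑ p ∈ A.filter (fun p => p ∣ n + 1), π p (-1)) →
      (∀ n ∈ Sur v A x U N, n + 2 ∈ Sur v A x U N → (∀ p ∈ A, ¬ p ∣ n ∧ ¬ p ∣ n + 2) →
        η0 ≤ ∑ p ∈ A.filter (fun p => p ∣ n - 1), π p 1 ∧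
        η0 ≤ ∑ p ∈ A.filter (fun p => p ∣ n + 3), π p (-1)) →
      Real.exp (-∑ n ∈ Sur v A x U N, (Wt π A n + K' * Wt π A n ^ 2)) ≤
        EA π A (ind (Emp x U N)) v)
    (hz : 16 ≤ z) (hx9 : 9 ≤ x) (hp0 : p0 = 0 ∨ (p0.Prime ∧ 7 < p0))
    (hA : ∀ p ∈ AA κ B z p0, p.Prime ∧ U + 6 < p ∧ p * p ≤ x ∧ 1 / 2 ≤ π p 0 ∧
      c₁ / Real.log z ≤ π p 1 ∧ c₁ / Real.log z ≤ π p (-1))
    (hΛ : 1 / (z : ℝ) ≤ c₁ / Real.log z)
    (v : ℕ → ℤ) (hv : ∀ p, v p ∈ sgn) (hb : IsB v z p0 b)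
    (hPC1 : ∑ rr ∈ (rows x (qq z p0) b U ×ˢ rows x (qq z p0) b U).filter (fun rr =>
        ((∏ p ∈ Dset (AA κ B z p0) U (rr.1 * qq z p0 + b) ∩
          Dset (AA κ B z p0) U (rr.2 * qq z p0 + b), p : ℕ) : ℝ) ≤ x / qq z p0),
      ((z : ℝ) ^ (Dset (AA κ B z p0) U (rr.1 * qq z p0 + b) ∩
          Dset (AA κ B z p0) U (rr.2 * qq z p0 + b)).card - 1) ≤ (x / qq z p0) ^ 2 / z)
    (hPC2 : (((rows x (qq z p0) b U ×ˢ rows x (qq z p0) b U).filter (fun rr => (x : ℝ) / qq z p0 <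
        ((∏ p ∈ Dset (AA κ B z p0) U (rr.1 * qq z p0 + b) ∩
          Dset (AA κ B z p0) U (rr.2 * qq z p0 + b), p : ℕ) : ℝ))).card : ℝ) ≤
      (x / qq z p0) ^ 2 * (x : ℝ) ^ (-(1 - η)))
    (R : Finset ℕ) (hR : R ⊆ rows x (qq z p0) b U) (hRc : ρ * (x / qq z p0) ≤ R.card)
    (hR1 : ∀ r ∈ R, (∑ n ∈ Sur v (AA κ B z p0) x U (r * qq z p0 + b),
        (Wt π (AA κ B z p0) n + K' * Wt π (AA κ B z p0) n ^ 2)) ≤ lam * Real.log x)
    (hR2 : ∀ r ∈ R, ∀ n ∈ Sur v (AA κ B z p0) x U (r * qq z p0 + b), (∃ p ∈ AA κ B z p0, p ∣ n) ∨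
        Real.log z / 100 ≤ ((((AA κ B z p0).filter fun p => p ∣ n ^ 2 - 1).card : ℕ) : ℝ))
    (hR3 : ∀ r ∈ R, ∀ n ∈ Sur v (AA κ B z p0) x U (r * qq z p0 + b),
        n + 2 ∈ Sur v (AA κ B z p0) x U (r * qq z p0 + b) →
        (∀ p ∈ AA κ B z p0, ¬ p ∣ n ∧ ¬ p ∣ n + 2) →
        Real.log z / 100 ≤ ((((AA κ B z p0).filter fun p => p ∣ n - 1).card : ℕ) : ℝ) ∧
        Real.log z / 100 ≤ ((((AA κ B z p0).filter fun p => p ∣ n + 3).card : ℕ) : ℝ)) :
    EA π (AA κ B z p0) (ind {w | ∀ N : ℕ, x ≤ N → N + U ≤ 2 * x → w ∉ Emp x U N}) v ≤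
      (1 / z + (x : ℝ) ^ (-(1 - η)) * (x : ℝ) ^ lam) / ρ ^ 2 := by
  classical
  set A := AA κ B z p0 with hAdef
  set q := qq z p0 with hq
  have hq0 : 0 < q := MM.qq_pos z p0
  have hqr : (0 : ℝ) < q := by exact_mod_cast hq0
  have hx0 : (0 : ℝ) < x := by exact_mod_cast (by omega : 0 < x)
  have hzr : (16 : ℝ) ≤ z := by exact_mod_cast hz
  have hlz : 0 < Real.log z := Real.log_pos (by linarith)
  set H : ℝ := x / q with hH
  have hH0 : 0 < H := by positivity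
  have hRpos : 0 < (R.card : ℝ) := lt_of_lt_of_le (by positivity) hRc
  have hRne : R.Nonempty := by
    rw [← card_pos]
    exact_mod_cast hRpos
  set S : ℕ → Set (ℕ → ℤ) := fun r => EmpR A x U (r * q + b) with hS
  set D : ℕ → Finset ℕ := fun r => Dset A U (r * q + b) with hD
  set θ : ℝ := (x : ℝ) ^ (-lam) with hθ
  have hθ0 : 0 < θ := by positivity
  have hdvd : ∀ p : ℕ, p.Prime → p ≤ 7 → ∀ r : ℕ, (p : ℤ) ∣ ((r * q + b : ℕ) : ℤ) - v p := by
    intro p hp hp7 r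
    have h1 : p ≠ p0 := by
      rcases hp0 with h | ⟨h, h'⟩
      · rw [h]; exact hp.ne_zero
      · omega
    have h2 := hb.2 p hp (by omega) h1
    have h3 : p ∣ q := (MM.dvd_qq_iff hp).2 ⟨by omega, h1⟩
    have h4 : (p : ℤ) ∣ (q : ℤ) := by exact_mod_cast h3
    have h5 : ((r * q + b : ℕ) : ℤ) - v p = r * q + (b - v p) := by push_cast; ring
    rw [h5]
    exact dvd_add (h4.mul_left _) h2
  -- the probability of one row
  have hrow : ∀ r ∈ R, θ ≤ EA π A (ind (S r)) v := by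
    intro r hr
    rw [hS]
    simp only
    rw [EA_EmpR hπ]
    have hrr := hR hr
    rw [rows, mem_filter] at hrr
    have h1 := hcl A x U (r * q + b) v hx9 (by omega) hv (by
      intro p hp
      obtain ⟨h1, h2, h3, h4, _⟩ := hA p hp
      exact ⟨h1, h2, h3, h4⟩) (hdvd 2 Nat.prime_two (by norm_num) r)
      (hdvd 3 Nat.prime_three (by norm_num) r) (by
      intro n hn
      rcases hR2 r hr n hn with h | h
      · exact Or.inl h
      · right
        have hn0 : 0 < n := by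
          unfold Sur at hn
          rw [mem_filter, mem_Ioc] at hn
          omega
        have h2 : ((A.filter fun p => p ∣ n ^ 2 - 1).card) ≤
            (A.filter fun p => p ∣ n - 1).card + (A.filter fun p => p ∣ n + 1).card := by
          refine le_trans (card_le_card ?_) (card_union_le _ _)
          intro p hp
          rw [mem_filter] at hp
          rw [mem_union, mem_filter, mem_filter]
          have h3 : n ^ 2 - 1 = (n + 1) * (n - 1) := by
            have := Nat.sq_sub_sq n 1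
            simpa using this
          rw [h3] at hp
          rcases ((hA p hp.1).1.dvd_mul).1 hp.2 with h4 | h4
          · exact Or.inr ⟨hp.1, h4⟩
          · exact Or.inl ⟨hp.1, h4⟩
        have h2' : (((A.filter fun p => p ∣ n ^ 2 - 1).card : ℕ) : ℝ) ≤
            ((A.filter fun p => p ∣ n - 1).card : ℝ) + ((A.filter fun p => p ∣ n + 1).card : ℝ) := by
          exact_mod_cast h2
        have h5 : ((A.filter fun p => p ∣ n - 1).card : ℝ) * (c₁ / Real.log z) ≤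
            ∑ p ∈ A.filter (fun p => p ∣ n - 1), π p 1 := by
          rw [← nsmul_eq_mul, ← sum_const]
          exact sum_le_sum fun p hp => (hA p (mem_of_mem_filter p hp)).2.2.2.2.1
        have h6 : ((A.filter fun p => p ∣ n + 1).card : ℝ) * (c₁ / Real.log z) ≤
            ∑ p ∈ A.filter (fun p => p ∣ n + 1), π p (-1) := by
          rw [← nsmul_eq_mul, ← sum_const]
          exact sum_le_sum fun p hp => (hA p (mem_of_mem_filter p hp)).2.2.2.2.2
        have h7 : η0 = Real.log z / 100 * (c₁ / Real.log z) := by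
          rw [hη0]
          field_simp
        have h8 : 0 ≤ c₁ / Real.log z := by positivity
        have h9 := mul_le_mul_of_nonneg_right (h.trans h2') h8
        rw [h7]
        linarith) (by
      intro n hn hn2 hfree
      obtain ⟨h2, h3⟩ := hR3 r hr n hn hn2 hfree
      have h8 : 0 ≤ c₁ / Real.log z := by positivity
      have h7 : η0 = Real.log z / 100 * (c₁ / Real.log z) := by
        rw [hη0]
        field_simp
      constructor
      · rw [h7]
        refine (mul_le_mul_of_nonneg_right h2 h8).trans ?_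
        rw [← nsmul_eq_mul, ← sum_const]
        exact sum_le_sum fun p hp => (hA p (mem_of_mem_filter p hp)).2.2.2.2.1
      · rw [h7]
        refine (mul_le_mul_of_nonneg_right h3 h8).trans ?_
        rw [← nsmul_eq_mul, ← sum_const]
        exact sum_le_sum fun p hp => (hA p (mem_of_mem_filter p hp)).2.2.2.2.2)
    refine le_trans ?_ h1
    rw [hθ, Real.rpow_def_of_pos hx0]
    apply Real.exp_le_exp.2
    have := hR1 r hr
    linarith
  have hsm := hSM π hπ hs A z (by linarith) (by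
    intro p hp s hs'
    obtain ⟨h1, h2, h3, h4, h5, h6⟩ := hA p hp
    unfold sgn at hs'
    simp only [mem_insert, mem_singleton] at hs'
    rcases hs' with h | h | h
    · rw [h]; linarith
    · rw [h]
      have : 1 / (z : ℝ) ≤ 1 / 2 := by
        apply one_div_le_one_div_of_le (by norm_num)
        linarith
      linarith
    · rw [h]; linarith) R S D H θ v hRne hθ0 (by
    intro r _
    refine ⟨fun p hp => ?_, dep_EmpR A x U (r * q + b)⟩
    simp only [hD, Dset, Finset.mem_filter] at hp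
    exact hp.1) hrow
  -- comparison of the events
  have hcmp : EA π A (ind {w | ∀ N : ℕ, x ≤ N → N + U ≤ 2 * x → w ∉ Emp x U N}) v ≤
      EA π A (ind {w | ∀ r ∈ R, w ∉ S r}) v := by
    apply EA_mono hπ
    intro w
    apply ind_mono
    intro hw r hr hwS
    have hrr := hR hr
    rw [rows, mem_filter] at hrr
    exact hw (r * q + b) (by omega) (by omega) (EmpR_sub A x U _ hwS)
  refine (hcmp.trans hsm).trans ?_
  -- the two sums
  have hsub : R ×ˢ R ⊆ rows x q b U ×ˢ rows x q b U := product_subset_product hR hR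
  have hg : ∑ rr ∈ (R ×ˢ R).filter (fun rr => ((∏ p ∈ D rr.1 ∩ D rr.2, p : ℕ) : ℝ) ≤ H),
      ((z : ℝ) ^ (D rr.1 ∩ D rr.2).card - 1) ≤ H ^ 2 / z := by
    refine le_trans (sum_le_sum_of_subset_of_nonneg (filter_subset_filter _ hsub) ?_) hPC1
    intro rr _ _
    have : 1 ≤ (z : ℝ) ^ (D rr.1 ∩ D rr.2).card := one_le_pow₀ (by linarith)
    linarith
  have hbad : (((R ×ˢ R).filter (fun rr => H < ((∏ p ∈ D rr.1 ∩ D rr.2, p : ℕ) : ℝ))).card : ℝ) ≤
      H ^ 2 * (x : ℝ) ^ (-(1 - η)) := by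
    refine le_trans ?_ hPC2
    exact_mod_cast card_le_card (filter_subset_filter _ hsub)
  have hnum : ∑ rr ∈ (R ×ˢ R).filter (fun rr => ((∏ p ∈ D rr.1 ∩ D rr.2, p : ℕ) : ℝ) ≤ H),
      ((z : ℝ) ^ (D rr.1 ∩ D rr.2).card - 1) +
      (((R ×ˢ R).filter (fun rr => H < ((∏ p ∈ D rr.1 ∩ D rr.2, p : ℕ) : ℝ))).card : ℝ) / θ ≤
      H ^ 2 * (1 / z + (x : ℝ) ^ (-(1 - η)) * (x : ℝ) ^ lam) := by
    have h1 : (((R ×ˢ R).filter (fun rr => H < ((∏ p ∈ D rr.1 ∩ D rr.2, p : ℕ) : ℝ))).card : ℝ) / θ ≤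
        H ^ 2 * (x : ℝ) ^ (-(1 - η)) * (x : ℝ) ^ lam := by
      rw [hθ, Real.rpow_neg hx0.le, div_inv_eq_mul]
      exact mul_le_mul_of_nonneg_right hbad (by positivity)
    have h2 : H ^ 2 / z = H ^ 2 * (1 / z) := by ring
    rw [h2] at hg
    linarith
  have hE0 : 0 ≤ 1 / (z : ℝ) + (x : ℝ) ^ (-(1 - η)) * (x : ℝ) ^ lam := by positivity
  calc _ ≤ (H ^ 2 * (1 / z + (x : ℝ) ^ (-(1 - η)) * (x : ℝ) ^ lam)) / (R.card : ℝ) ^ 2 :=
        div_le_div_of_nonneg_right hnum (by positivity)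
    _ ≤ (H ^ 2 * (1 / z + (x : ℝ) ^ (-(1 - η)) * (x : ℝ) ^ lam)) / (ρ * H) ^ 2 := by
        apply div_le_div_of_nonneg_left (by positivity) (by positivity)
        exact pow_le_pow_left₀ (by positivity) hRc 2
    _ = _ := by
        field_simp

end Pool.Agent.Work.MP_b0c12c_nt_shift.SC
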