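import Mathlib
import Pool.Agent.Work.MP_b0c12c_nt_shift.Interface

/-!
# Block SC: choice of the sizes
-/

set_option autoImplicit false

namespace Pool.Agent.Work.MP_b0c12c_nt_shift.SC

open Finset Filter

theorem sizes {g ρ κ : ℝ} (hg : 0 < g) (hρ : 0 < ρ) (hκ : 0 < κ) (hκ' : κ ≤ 1 / 50) :
    ∃ z0 : ℕ, ∀ z : ℕ, z0 ≤ z → ∃ x U : ℕ, InR κ z x ∧ (z : ℝ) ^ (2 + 3 * κ) ≤ U ∧
      (U : ℝ) ≤ ((z : ℝ) + 1) ^ (2 + 3 * κ) ∧ (U : ℝ) ≤ (1 + ρ) * g * Real.log x ^ 2 ∧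
      g * Real.log x ^ 2 + 1 ≤ U ∧ U + 6 ≤ z ^ 3 ∧ z ≤ x := by
  have ev : ∀ᶠ z : ℕ in atTop, 8 * g + 1 / g ≤ (z : ℝ) ^ κ :=
    ((tendsto_rpow_atTop hκ).comp tendsto_natCast_atTop_atTop).eventually_ge_atTop _
  obtain ⟨z1, hz1⟩ := eventually_atTop.1 ev
  refine ⟨z1 + ⌈4 * (1 + ρ) / ρ⌉₊ + ⌈4 / (g * ρ)⌉₊ + 16, fun z hz => ?_⟩
  have h1 := hz1 z (by omega)
  have hzr : (16 : ℝ) ≤ z := by exact_mod_cast (by omega : 16 ≤ z)
  have hz0 : (0 : ℝ) < z := by linarith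
  have hz1' : (1 : ℝ) ≤ z := by linarith
  have h2 : 4 * (1 + ρ) / ρ ≤ z := (Nat.le_ceil _).trans (by exact_mod_cast (by omega))
  have h3 : 4 / (g * ρ) ≤ z := (Nat.le_ceil _).trans (by exact_mod_cast (by omega))
  have hginv : 0 < 1 / g := by positivity
  have h8g : 8 * g ≤ (z : ℝ) ^ κ := by linarith
  have h1g : 1 / g ≤ (z : ℝ) ^ κ := by linarith
  set Z : ℝ := (z : ℝ) ^ (2 + 3 * κ) with hZ
  set T : ℝ := (z : ℝ) ^ (1 + κ) with hT
  have hT0 : 0 < T := by positivity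
  have hzT : (z : ℝ) ≤ T := by
    conv_lhs => rw [← Real.rpow_one (z : ℝ)]
    apply Real.rpow_le_rpow_of_exponent_le hz1'
    linarith
  have hZT : Z = T ^ 2 * (z : ℝ) ^ κ := by
    rw [hZ, hT, ← Real.rpow_natCast, ← Real.rpow_mul hz0.le, ← Real.rpow_add hz0]
    congr 1
    push_cast
    ring
  have hT2 : (16 : ℝ) ≤ T := hzr.trans hzT
  have hZ2 : 2 ≤ Z := by
    have h4 : (z : ℝ) ≤ Z := by
      conv_lhs => rw [← Real.rpow_one (z : ℝ)]
      apply Real.rpow_le_rpow_of_exponent_le hz1'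
      linarith
    linarith
  set y : ℝ := Real.sqrt ((Z - 1) / g) with hy
  have hy2 : g * y ^ 2 = Z - 1 := by
    rw [hy, Real.sq_sqrt (div_nonneg (by linarith) hg.le)]
    field_simp
  have hyT : T + 1 ≤ y := by
    rw [hy]
    apply Real.le_sqrt_of_sq_le
    rw [le_div_iff₀ hg]
    have h4 : (T + 1) ^ 2 ≤ 2 * T ^ 2 := by nlinarith
    have h5 : 0 < T ^ 2 := by positivity
    have h6 : T ^ 2 * (8 * g) ≤ T ^ 2 * (z : ℝ) ^ κ := mul_le_mul_of_nonneg_left h8g h5.le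
    nlinarith
  have hyz : (z : ℝ) ≤ y := by linarith
  have hy0 : 0 < y := by linarith
  have hyup : y ≤ (z : ℝ) ^ (1 + 2 * κ) := by
    rw [hy]
    apply Real.sqrt_le_iff.2
    refine ⟨by positivity, ?_⟩
    have h4 : ((z : ℝ) ^ (1 + 2 * κ)) ^ 2 = Z * (z : ℝ) ^ κ := by
      rw [hZ, ← Real.rpow_natCast, ← Real.rpow_mul hz0.le, ← Real.rpow_add hz0]
      congr 1
      push_cast
      ring
    rw [h4]
    calc (Z - 1) / g ≤ Z / g := by
          apply div_le_div_of_nonneg_right _ hg.le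
          linarith
      _ = Z * (1 / g) := by ring
      _ ≤ _ := mul_le_mul_of_nonneg_left h1g (by linarith)
  set x : ℕ := ⌊Real.exp y⌋₊ with hx
  have hxle : (x : ℝ) ≤ Real.exp y := Nat.floor_le (Real.exp_pos _).le
  have hxge : Real.exp (y - 1) ≤ x := by
    have h4 : Real.exp y < x + 1 := Nat.lt_floor_add_one _
    have h5 : Real.exp y = Real.exp (y - 1) * Real.exp 1 := by
      rw [← Real.exp_add]; ring_nf
    have h6 : 2 ≤ Real.exp 1 := by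
      have := Real.add_one_le_exp (1 : ℝ)
      linarith
    have h7 : 1 ≤ Real.exp (y - 1) := Real.one_le_exp (by linarith)
    nlinarith
  have hx0 : (0 : ℝ) < x := lt_of_lt_of_le (Real.exp_pos _) hxge
  have hL1 : y - 1 ≤ Real.log x := by
    rw [Real.le_log_iff_exp_le hx0]
    exact hxge
  have hL2 : Real.log x ≤ y := by
    rw [Real.log_le_iff_le_exp hx0]
    exact hxle
  have hL0 : 0 ≤ Real.log x := by linarith
  have hUle : ((⌈Z⌉₊ : ℕ) : ℝ) ≤ Z + 1 := (Nat.ceil_lt_add_one (by linarith)).le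
  refine ⟨x, ⌈Z⌉₊, ⟨by linarith, by linarith⟩, Nat.le_ceil _, ?_, ?_, ?_, ?_, ?_⟩
  · refine hUle.trans ?_
    have h4 : (z : ℝ) ^ (1 + 3 * κ) ≤ ((z : ℝ) + 1) ^ (1 + 3 * κ) :=
      Real.rpow_le_rpow hz0.le (by linarith) (by linarith)
    have h5 : ((z : ℝ) + 1) ^ (2 + 3 * κ) = ((z : ℝ) + 1) ^ (1 + 3 * κ) * ((z : ℝ) + 1) := by
      rw [← Real.rpow_add_one (by positivity)]
      congr 1
      ring
    have h6 : Z = (z : ℝ) ^ (1 + 3 * κ) * z := by
      rw [hZ, ← Real.rpow_add_one hz0.ne']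
      congr 1
      ring
    have h7 : 1 ≤ (z : ℝ) ^ (1 + 3 * κ) := Real.one_le_rpow hz1' (by linarith)
    rw [h5, h6]
    nlinarith
  · refine hUle.trans ?_
    have h4 : (1 + ρ) * g * (y - 1) ^ 2 ≤ (1 + ρ) * g * Real.log x ^ 2 := by
      apply mul_le_mul_of_nonneg_left _ (by positivity)
      exact pow_le_pow_left₀ (by linarith) hL1 2
    refine le_trans ?_ h4
    have h5 : 4 * (1 + ρ) ≤ ρ * y := by
      rw [div_le_iff₀ hρ] at h2
      nlinarith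
    have h6 : 4 ≤ g * ρ * y := by
      rw [div_le_iff₀ (by positivity)] at h3
      nlinarith [mul_pos hg hρ]
    have h7 : 0 < g * ρ := by positivity
    have h8 : 2 * (1 + ρ) * g * y ≤ g * ρ * y ^ 2 / 2 := by
      have := mul_le_mul_of_nonneg_left h5 (show 0 ≤ g * y / 2 by positivity)
      nlinarith
    have h9 : 2 ≤ g * ρ * y ^ 2 / 2 := by nlinarith
    nlinarith
  · refine le_trans ?_ (Nat.le_ceil _)
    have h4 : Real.log x ^ 2 ≤ y ^ 2 := pow_le_pow_left₀ hL0 hL2 2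
    nlinarith
  · have h4 : ((⌈Z⌉₊ + 6 : ℕ) : ℝ) ≤ ((z ^ 3 : ℕ) : ℝ) := by
      push_cast
      have h5 : Z ≤ (z : ℝ) ^ (5 / 2 : ℝ) := by
        apply Real.rpow_le_rpow_of_exponent_le hz1'
        linarith
      have h6 : (z : ℝ) ^ 3 = (z : ℝ) ^ (5 / 2 : ℝ) * (z : ℝ) ^ (1 / 2 : ℝ) := by
        rw [← Real.rpow_add hz0, ← Real.rpow_natCast]
        norm_num
      have h7 : (2 : ℝ) ≤ (z : ℝ) ^ (1 / 2 : ℝ) := by
        rw [← Real.sqrt_eq_rpow]
        apply Real.le_sqrt_of_sq_le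
        linarith
      have h8 : (16 : ℝ) ≤ (z : ℝ) ^ (5 / 2 : ℝ) := by
        refine hzr.trans ?_
        conv_lhs => rw [← Real.rpow_one (z : ℝ)]
        apply Real.rpow_le_rpow_of_exponent_le hz1'
        norm_num
      rw [h6]
      nlinarith
    exact_mod_cast h4
  · have h4 : ((z : ℕ) : ℝ) ≤ x := by
      refine le_trans ?_ hxge
      have h5 := Real.add_one_le_exp (y - 1)
      linarith
    exact_mod_cast h4

end Pool.Agent.Work.MP_b0c12c_nt_shift.SC
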