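import Mathlib
import Pool.Agent.Work.MP_b0c12c_nt_shift.SCFix
import Pool.Agent.Work.MP_b0c12c_nt_shift.SCSize
import Pool.Agent.Work.MP_b0c12c_nt_shift.M

/-!
# Block SC: the probability that there is no empty window at scale `z`
-/

set_option autoImplicit false

namespace Pool.Agent.Work.MP_b0c12c_nt_shift

open Finset Filter
open SC

/-- the random primes at scale `z` -/
theorem SC.A_facts {π : ℕ → ℤ → ℝ} {c₁ c₂ : ℝ} (hL : Law π c₁ c₂) {κ : ℝ} (hκ : 0 < κ)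
    (hκ' : κ ≤ 1 / 50) : ∃ z0 : ℕ, ∀ z : ℕ, z0 ≤ z → ∀ (B p0 x U : ℕ), 3 ≤ B → InR κ z x →
      U + 6 ≤ z ^ 3 → 1 / (z : ℝ) ≤ c₁ / Real.log z ∧
      ∀ p ∈ AA κ B z p0, p.Prime ∧ U + 6 < p ∧ p * p ≤ x ∧ 1 / 2 ≤ π p 0 ∧
        c₁ / Real.log z ≤ π p 1 ∧ c₁ / Real.log z ≤ π p (-1) := by
  obtain ⟨P1, hP1⟩ := hL.high
  obtain ⟨P2, hP2⟩ := hL.low
  have hc₁ := hL.c1_pos
  have ev1 : ∀ᶠ z : ℕ in atTop, 4 * |c₂| + 1 ≤ Real.log (Real.log z) :=
    (Real.tendsto_log_atTop.comp (Real.tendsto_log_atTop.comp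
      tendsto_natCast_atTop_atTop)).eventually_ge_atTop _
  have ev2 : ∀ᶠ z : ℕ in atTop, Real.log z ≤ c₁ * z := by
    have h := (Real.isLittleO_log_id_atTop.bound hc₁)
    have h' := tendsto_natCast_atTop_atTop.eventually h
    filter_upwards [h', eventually_ge_atTop 1] with z hz hz1
    have h1 : 0 ≤ Real.log (z : ℝ) := Real.log_natCast_nonneg z
    simpa [Real.norm_eq_abs, abs_of_nonneg h1] using hz
  have ev3 : ∀ᶠ z : ℕ in atTop, (2 : ℝ) ≤ (z : ℝ) ^ (2 * κ) :=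
    ((tendsto_rpow_atTop (by linarith : (0 : ℝ) < 2 * κ)).comp
      tendsto_natCast_atTop_atTop).eventually_ge_atTop _
  obtain ⟨z1, hz1⟩ := eventually_atTop.1 ((ev1.and ev2).and ev3)
  refine ⟨z1 + P1 + P2 + 16, fun z hz B p0 x U hB hx hU => ?_⟩
  obtain ⟨⟨h1, h2⟩, h3⟩ := hz1 z (by omega)
  have hzr : (16 : ℝ) ≤ z := by exact_mod_cast (by omega : 16 ≤ z)
  have hz0 : (0 : ℝ) < z := by linarith
  have hlz : 0 < Real.log z := Real.log_pos (by linarith)
  have hx0 : (0 : ℝ) < x := by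
    by_contra hcon
    have h4 : (x : ℝ) = 0 := le_antisymm (not_lt.1 hcon) (Nat.cast_nonneg x)
    have h5 := hx.1
    rw [h4, Real.log_zero] at h5
    have : 0 < (z : ℝ) ^ (1 + κ) := by positivity
    linarith
  refine ⟨?_, fun p hp => ?_⟩
  · rw [div_le_div_iff₀ hz0 hlz]
    linarith
  · rw [MM.mem_AA] at hp
    obtain ⟨h4, ⟨h5, h6⟩, h7⟩ := hp
    have h8 : z ^ 3 ≤ z ^ B := Nat.pow_le_pow_right (by omega) hB
    have h9 : z < p := lt_of_le_of_lt (Nat.le_self_pow (by omega) z) h5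
    have hpr : (z : ℝ) < p := by exact_mod_cast h9
    have hp0' : (0 : ℝ) < p := by linarith
    have hlzp : Real.log z ≤ Real.log p := Real.log_le_log hz0 hpr.le
    have hllzp : Real.log (Real.log z) ≤ Real.log (Real.log p) := Real.log_le_log hlz hlzp
    have hw : (p : ℝ) ≤ Real.exp ((z : ℝ) ^ (1 - κ)) := by
      refine le_trans ?_ (w1_le κ z)
      exact_mod_cast h6
    have hlogp : Real.log p ≤ (z : ℝ) ^ (1 - κ) := by
      rw [Real.log_le_iff_le_exp hp0']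
      exact hw
    have hz1 : (z : ℝ) ^ (1 - κ) ≤ z := by
      conv_rhs => rw [← Real.rpow_one (z : ℝ)]
      apply Real.rpow_le_rpow_of_exponent_le (by linarith)
      linarith
    have hllp : Real.log (Real.log p) ≤ Real.log z :=
      Real.log_le_log (by linarith) (by linarith)
    have habs : 0 ≤ |c₂| := abs_nonneg c₂
    have hllp0 : 0 < Real.log (Real.log p) := by linarith
    obtain ⟨h10, h11⟩ := hP1 p h7 (by omega)
    obtain ⟨h12, h13⟩ := hP2 p h7 (by omega)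
    have h14 : c₂ / Real.log (Real.log p) ≤ 1 / 4 := by
      rw [div_le_iff₀ hllp0]
      have := le_abs_self c₂
      linarith
    have h15 : c₁ / Real.log z ≤ c₁ / Real.log (Real.log p) :=
      div_le_div_of_nonneg_left hc₁.le hllp0 hllp
    refine ⟨h7, by omega, ?_, ?_, by linarith, by linarith⟩
    · have h16 : ((p * p : ℕ) : ℝ) ≤ x := by
        push_cast
        calc (p : ℝ) * p ≤ Real.exp ((z : ℝ) ^ (1 - κ)) * Real.exp ((z : ℝ) ^ (1 - κ)) := by
              gcongr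
          _ = Real.exp (2 * (z : ℝ) ^ (1 - κ)) := by rw [← Real.exp_add]; ring_nf
          _ ≤ Real.exp (Real.log x) := by
              apply Real.exp_le_exp.2
              refine le_trans ?_ hx.1
              have h17 : (z : ℝ) ^ (1 + κ) = (z : ℝ) ^ (1 - κ) * (z : ℝ) ^ (2 * κ) := by
                rw [← Real.rpow_add hz0]
                congr 1
                ring
              rw [h17, mul_comm 2]
              exact mul_le_mul_of_nonneg_left h3 (by positivity)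
          _ = x := Real.exp_log hx0
      exact_mod_cast h16
    · have := hL.sum_one p
      linarith

theorem SC.small_final {lam ρ δ : ℝ} (hlam : lam < 1) (hρ : 0 < ρ) (hδ : 0 < δ) :
    ∃ z0 : ℕ, ∀ z x : ℕ, z0 ≤ z → (z : ℝ) ≤ Real.log x →
      (1 / (z : ℝ) + (x : ℝ) ^ (-(1 - (1 - lam) / 2)) * (x : ℝ) ^ lam) / ρ ^ 2 ≤ δ / 2 := by
  set c : ℝ := (1 + 2 / (1 - lam)) * 2 / (ρ ^ 2 * δ) with hc
  have h1l : 0 < 1 - lam := by linarith
  refine ⟨⌈c⌉₊ + 1, fun z x hz hx => ?_⟩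
  have hz1 : (1 : ℝ) ≤ z := by exact_mod_cast (by omega : 1 ≤ z)
  have hz0 : (0 : ℝ) < z := by linarith
  have hcz : c ≤ z := (Nat.le_ceil _).trans (by exact_mod_cast (by omega))
  have hx0 : (0 : ℝ) < x := by
    by_contra hcon
    have h4 : (x : ℝ) = 0 := le_antisymm (not_lt.1 hcon) (Nat.cast_nonneg x)
    rw [h4, Real.log_zero] at hx
    linarith
  have h2 : (x : ℝ) ^ (-(1 - (1 - lam) / 2)) * (x : ℝ) ^ lam ≤ 2 / (1 - lam) * (1 / z) := by
    rw [← Real.rpow_add hx0, Real.rpow_def_of_pos hx0]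
    have e : Real.log x * (-(1 - (1 - lam) / 2) + lam) = -(Real.log x * ((1 - lam) / 2)) := by ring
    rw [e, Real.exp_neg]
    have h3 : z * ((1 - lam) / 2) ≤ Real.log x * ((1 - lam) / 2) :=
      mul_le_mul_of_nonneg_right hx (by linarith)
    have h4 : z * ((1 - lam) / 2) ≤ Real.exp (Real.log x * ((1 - lam) / 2)) := by
      have := Real.add_one_le_exp (Real.log x * ((1 - lam) / 2))
      linarith
    calc (Real.exp (Real.log x * ((1 - lam) / 2)))⁻¹ ≤ (z * ((1 - lam) / 2))⁻¹ :=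
          inv_anti₀ (by positivity) h4
      _ = 2 / (1 - lam) * (1 / z) := by
          field_simp
  rw [div_le_iff₀ (by positivity)]
  rw [hc, div_le_iff₀ (by positivity)] at hcz
  have h5 : 1 / (z : ℝ) + 2 / (1 - lam) * (1 / z) = (1 + 2 / (1 - lam)) / z := by ring
  calc 1 / (z : ℝ) + (x : ℝ) ^ (-(1 - (1 - lam) / 2)) * (x : ℝ) ^ lam
      ≤ (1 + 2 / (1 - lam)) / z := by rw [← h5]; linarith
    _ ≤ δ / 2 * ρ ^ 2 := by
        rw [div_le_iff₀ hz0]
        nlinarith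

theorem stmt_SC (hEX : Stmt_EX) (hMT : Stmt_MT) (hRW : Stmt_RW) (hCL : Stmt_CL) (hSM : Stmt_SM)
    (hPC : Stmt_PC) : Stmt_SC := by
  classical
  intro π c₁ c₂ hL g hg0 hg δ hδ x0
  have hπ := hL.nonneg
  have hs := hL.sum_one
  have hc₁ := hL.c1_pos
  obtain ⟨-, -, -, mt4, -⟩ := hMT
  set G : ℝ := g * Real.exp Real.eulerMascheroniConstant / 2 with hG
  have hG1 : G < 1 := by
    have h1 : g * Real.exp Real.eulerMascheroniConstant <
        2 * Real.exp (-Real.eulerMascheroniConstant) * Real.exp Real.eulerMascheroniConstant :=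
      mul_lt_mul_of_pos_right hg (Real.exp_pos _)
    rw [mul_assoc, ← Real.exp_add, neg_add_cancel, Real.exp_zero] at h1
    rw [hG]
    linarith
  set lam : ℝ := (1 + G) / 2 with hlam
  obtain ⟨K', hK', hcl⟩ := hCL (c₁ / 100) (by positivity)
  obtain ⟨ρ, hρ, κ0, hκ0, hκ0', μ0, hμ0, hrw⟩ := hRW π c₁ c₂ hL lam g hg0
    (by rw [← hG, hlam]; linarith) K' hK'
  obtain ⟨B0, hpc⟩ := hPC ((1 - lam) / 2) (by rw [hlam]; linarith)
  obtain ⟨κ, hκdef⟩ : ∃ κ, κ = min κ0 (δ * μ0 / (80 * (|c₂| + 1))) := ⟨_, rfl⟩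
  have hcc : 0 < |c₂| + 1 := by positivity
  have hκ : 0 < κ := by
    rw [hκdef]
    exact lt_min hκ0 (by positivity)
  have hκ1 : κ ≤ κ0 := by rw [hκdef]; exact min_le_left _ _
  have hκ2 : κ ≤ δ * μ0 / (80 * (|c₂| + 1)) := by rw [hκdef]; exact min_le_right _ _
  have hκ50 : κ ≤ 1 / 50 := hκ1.trans hκ0'
  obtain ⟨K, hK7, hrwB⟩ := hrw κ hκ hκ1
  obtain ⟨z1, hz1⟩ := hrwB (B0 + 3) (by omega)
  obtain ⟨z2, hz2⟩ := hpc (B0 + 3) (by omega) κ hκ hκ50
  obtain ⟨z3, hz3⟩ := hEX (κ / 4) (by linarith) K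
  obtain ⟨z4, hz4⟩ := mt4 κ hκ (by linarith) (B0 + 3) (by omega)
  obtain ⟨z5, hz5⟩ := SC.A_facts hL hκ hκ50
  obtain ⟨z6, hz6⟩ := SC.small_final (lam := lam) (ρ := ρ) (δ := δ) (by rw [hlam]; linarith) hρ hδ
  obtain ⟨z7, hz7⟩ := SC.sizes hg0 hρ hκ hκ50
  obtain ⟨P1, hP1⟩ := hL.high
  obtain ⟨z, hz⟩ : ∃ z, z = z1 + z2 + z3 + z4 + z5 + z6 + z7 + P1 + x0 + 16 := ⟨_, rfl⟩
  obtain ⟨x, U, hx, hU1, hU2, hU3, hU4, hU5, hzx⟩ := hz7 z (by omega)
  obtain ⟨p0, hgood⟩ := hz3 z (by omega)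
  have hp0 : p0 = 0 ∨ (p0.Prime ∧ 7 < p0) := by
    rcases hgood.1 with h | ⟨h, h'⟩
    · exact Or.inl h
    · exact Or.inr ⟨h, by omega⟩
  obtain ⟨hΛ, hA⟩ := hz5 z (by omega) (B0 + 3) p0 x U (by omega) hx hU5
  set A := AA κ (B0 + 3) z p0 with hAdef
  refine ⟨x, U, by omega, hU4, ?_⟩
  have hzr : (16 : ℝ) ≤ z := by exact_mod_cast (by omega : 16 ≤ z)
  have hzlog : (z : ℝ) ≤ Real.log x := by
    refine le_trans ?_ hx.1
    conv_lhs => rw [← Real.rpow_one (z : ℝ)]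
    apply Real.rpow_le_rpow_of_exponent_le (by linarith)
    linarith
  have hfin := hz6 z x (by omega) hzlog
  set f : (ℕ → ℤ) → ℝ := ind {w | ∀ N : ℕ, x ≤ N → N + U ≤ 2 * x → w ∉ Emp x U N} with hf
  have hAPX : A ⊆ PX x := by
    intro p hp
    obtain ⟨h1, h2, h3, _⟩ := hA p hp
    unfold PX
    rw [mem_filter, mem_Icc]
    exact ⟨⟨h1.one_lt.le, Nat.le_sqrt.2 h3⟩, h1⟩
  -- fixed configurations with small moved mass
  have hfix : ∀ v : ℕ → ℤ, (∀ p, v p ∈ sgn) → mvm v A z x ≤ μ0 → EA π A f v ≤ δ / 2 := by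
    intro v hv hmv
    obtain ⟨b, hb⟩ := SC.exists_b v z p0
    obtain ⟨R, hR, hRc, hR'⟩ := hz1 z (by omega) p0 hgood x U hx hU1 hU2 hU3 v hv hmv b hb
    have hpcz := hz2 z (by omega) p0 x U b hx (by omega) hb.1
    refine le_trans ?_ hfin
    apply SC.fixed hπ hs hSM (c₁ := c₁) (η0 := c₁ / 100) (K' := K') (lam := lam) (ρ := ρ)
      (η := (1 - lam) / 2) hc₁ rfl hρ (hcl π hπ hs) (by omega) (by omega) hp0 hA hΛ v hv hb
      hpcz.1 hpcz.2 R hR hRc
    · intro r hr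
      exact (hR' r hr).1
    · intro r hr
      exact (hR' r hr).2.1
    · intro r hr
      exact (hR' r hr).2.2
  -- all configurations
  have hall : ∀ v : ℕ → ℤ, (∀ p, v p ∈ sgn) →
      EA π A f v ≤ δ / 2 + (1 / μ0) * mvm v A z x := by
    intro v hv
    have hm0 : 0 ≤ mvm v A z x := by
      unfold mvm
      exact sum_nonneg fun p _ => by positivity
    by_cases hmv : mvm v A z x ≤ μ0
    · have := hfix v hv hmv
      have : 0 ≤ (1 / μ0) * mvm v A z x := by positivity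
      linarith
    · rw [not_le] at hmv
      have h1 : EA π A f v ≤ 1 := EA_le_one hπ hs A (fun w => ind_le_one _ w) v
      have h2 : 1 ≤ (1 / μ0) * mvm v A z x := by
        rw [one_div, ← div_eq_inv_mul, le_div_iff₀ hμ0]
        linarith
      linarith
  rw [EA_sdiff hAPX]
  have hmono : EA π (PX x \ A) (EA π A f) 0 ≤
      EA π (PX x \ A) ((fun _ => δ / 2) + fun w => (1 / μ0) * mvm w A z x) 0 := by
    apply EA_mono_on hπ
    intro w hw1 hw2
    simp only [Pi.add_apply]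
    apply hall
    intro p
    by_cases hp : p ∈ PX x \ A
    · exact hw2 p hp
    · rw [hw1 p hp]
      simp [sgn]
  refine hmono.trans ?_
  rw [EA_add, Pi.add_apply, EA_const hs, EA_const_mul]
  have hsubF : ((Ioc z (Nat.sqrt x)).filter Nat.Prime) \ A ⊆ PX x \ A := by
    apply Finset.sdiff_subset_sdiff _ (le_refl A)
    intro p hp
    rw [mem_filter, mem_Ioc] at hp
    unfold PX
    rw [mem_filter, mem_Icc]
    exact ⟨⟨by omega, hp.1.2⟩, hp.2⟩
  show δ / 2 + 1 / μ0 * EA π (PX x \ A) (fun w => mvm w A z x) 0 ≤ δ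
  rw [EA_mvm hπ hs hsubF]
  have hmass : ∑ p ∈ ((Ioc z (Nat.sqrt x)).filter Nat.Prime) \ A, (1 / (p : ℝ)) * ep π p ≤
      2 * (|c₂| + 1) * (10 * κ) := by
    refine le_trans ?_ (mul_le_mul_of_nonneg_left (hz4 z p0 (by omega) x hx) (by positivity))
    rw [mul_sum]
    apply sum_le_sum
    intro p hp
    rw [Finset.mem_sdiff, mem_filter, mem_Ioc] at hp
    have hll := loglog_pos (show 16 ≤ p by omega)
    obtain ⟨h1, h2⟩ := hP1 p hp.1.2 (by omega)
    have hp0' : (0 : ℝ) < p := by exact_mod_cast hp.1.2.pos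
    have h3 : c₂ / Real.log (Real.log p) ≤ (|c₂| + 1) / Real.log (Real.log p) := by
      apply div_le_div_of_nonneg_right _ hll.le
      have := le_abs_self c₂
      linarith
    have h4 : ep π p ≤ 2 * ((|c₂| + 1) / Real.log (Real.log p)) := by
      unfold ep
      linarith
    calc (1 / (p : ℝ)) * ep π p ≤ (1 / (p : ℝ)) * (2 * ((|c₂| + 1) / Real.log (Real.log p))) :=
          mul_le_mul_of_nonneg_left h4 (by positivity)
      _ = _ := by
          have : Real.log (Real.log p) ≠ 0 := hll.ne'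
          field_simp
  have h5 : (1 / μ0) * ∑ p ∈ ((Ioc z (Nat.sqrt x)).filter Nat.Prime) \ A, (1 / (p : ℝ)) * ep π p ≤
      δ / 4 := by
    calc _ ≤ (1 / μ0) * (2 * (|c₂| + 1) * (10 * κ)) :=
          mul_le_mul_of_nonneg_left hmass (by positivity)
      _ ≤ (1 / μ0) * (2 * (|c₂| + 1) * (10 * (δ * μ0 / (80 * (|c₂| + 1))))) := by
          gcongr
      _ = δ / 4 := by
          field_simp
          ring
  linarith

end Pool.Agent.Work.MP_b0c12c_nt_shift
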