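import Mathlib
import Pool.Agent.Work.MP_b0c12c_nt_shift.Interface2
import Pool.Agent.Work.MP_b0c12c_nt_shift.Op

/-!
# Block SM: second moment
-/

set_option autoImplicit false

namespace Pool.Agent.Work.MP_b0c12c_nt_shift

open Finset Filter

namespace SM

variable {π : ℕ → ℤ → ℝ}

/-- correlation of two events which depend on the primes of `D₁` and of `D₂` -/
theorem corr (hπ : ∀ p s, 0 ≤ π p s) (hs : ∀ p, π p (-1) + π p 0 + π p 1 = 1)
    {A : Finset ℕ} {Lam : ℕ → ℝ} (hLam1 : ∀ p ∈ A, 1 ≤ Lam p)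
    (hLam : ∀ p ∈ A, ∀ s ∈ sgn, 1 / Lam p ≤ π p s) {f g : (ℕ → ℤ) → ℝ}
    (hf0 : ∀ w, 0 ≤ f w) (hg0 : ∀ w, 0 ≤ g w) {D₁ D₂ : Finset ℕ} (h1 : D₁ ⊆ A)
    (hf : DependsOn f ((D₁ : Set ℕ) ∪ (A : Set ℕ)ᶜ)) (hg : DependsOn g ((D₂ : Set ℕ) ∪ (A : Set ℕ)ᶜ))
    (v : ℕ → ℤ) :
    EA π A (fun w => f w * g w) v ≤
      EA π A f v * EA π A g v * ∏ p ∈ D₁ ∩ D₂, Lam p := by
  set C : Finset ℕ := D₁ ∩ D₂ with hC
  have hCA : C ⊆ A := (Finset.inter_subset_left).trans h1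
  set F := EA π (A \ C) f with hF
  set G := EA π (A \ C) g with hG
  have hFG : EA π (A \ C) (fun w => f w * g w) = fun w => F w * G w := by
    apply EA_mul_indep hs hf hg
    intro p hp hp1 hp2
    rw [Finset.mem_sdiff] at hp
    rcases hp1 with hp1 | hp1
    · rcases hp2 with hp2 | hp2
      · exact hp.2 (mem_inter.2 ⟨hp1, hp2⟩)
      · exact hp2 hp.1
    · exact hp1 hp.1
  have hF0 : ∀ w, 0 ≤ F w := EA_nonneg hπ _ hf0
  have hG0 : ∀ w, 0 ≤ G w := EA_nonneg hπ _ hg0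
  have hEf : EA π A f v = EA π C F v := by rw [EA_sdiff' hCA]
  have hEg : EA π A g v = EA π C G v := by rw [EA_sdiff' hCA]
  have hLpos : ∀ p ∈ C, 0 < Lam p := fun p hp => lt_of_lt_of_le one_pos (hLam1 p (hCA hp))
  have hPpos : 0 < ∏ p ∈ C, Lam p := Finset.prod_pos hLpos
  have hsup : ∀ w : ℕ → ℤ, (∀ p ∉ C, w p = v p) → (∀ p ∈ C, w p ∈ sgn) →
      F w * G w ≤ (EA π A f v * ∏ p ∈ C, Lam p) * G w := by
    intro w hw1 hw2
    apply mul_le_mul_of_nonneg_right _ (hG0 w)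
    have h2 : (∏ p ∈ C, π p (w p)) * F w ≤ EA π C F v := EA_ge_point hπ C hF0 v w hw1 hw2
    have h3 : ∏ p ∈ C, (1 / Lam p) ≤ ∏ p ∈ C, π p (w p) := by
      apply Finset.prod_le_prod
      · intro p hp
        exact (one_div_pos.2 (hLpos p hp)).le
      · intro p hp
        exact hLam p (hCA hp) _ (hw2 p hp)
    have h4 : (∏ p ∈ C, (1 / Lam p)) * F w ≤ EA π A f v := by
      rw [hEf]
      exact (mul_le_mul_of_nonneg_right h3 (hF0 w)).trans h2
    have h5 : ∏ p ∈ C, (1 / Lam p) = (∏ p ∈ C, Lam p)⁻¹ := by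
      rw [← Finset.prod_inv_distrib]
      exact Finset.prod_congr rfl fun p _ => one_div _
    rw [h5, inv_mul_le_iff₀ hPpos] at h4
    linarith
  calc EA π A (fun w => f w * g w) v = EA π C (fun w => F w * G w) v := by
        rw [EA_sdiff' hCA, hFG]
    _ ≤ EA π C (fun w => (EA π A f v * ∏ p ∈ C, Lam p) * G w) v := EA_mono_on hπ C v hsup
    _ = (EA π A f v * ∏ p ∈ C, Lam p) * EA π C G v := by rw [EA_const_mul]
    _ = EA π A f v * EA π A g v * ∏ p ∈ C, Lam p := by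
        rw [hEg]
        ring

end SM

open SM in
/-- Block SMG. -/
theorem stmt_SMG : Stmt_SMG := by
  classical
  intro π hπ hs A Lam hLam1 hLam R S D H θ v hR hθ hD hP
  set P : ℕ → ℝ := fun r => EA π A (ind (S r)) v with hPdef
  have hPpos : ∀ r ∈ R, 0 < P r := fun r hr => lt_of_lt_of_le hθ (hP r hr)
  set f : ℕ → (ℕ → ℤ) → ℝ := fun r w => (P r)⁻¹ * ind (S r) w with hf
  set M : ℝ := (R.card : ℝ) with hM
  have hMpos : 0 < M := by
    rw [hM]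
    exact_mod_cast Finset.card_pos.2 hR
  have hEf : ∀ r ∈ R, EA π A (f r) v = 1 := by
    intro r hr
    rw [hf]
    simp only
    rw [EA_const_mul]
    exact inv_mul_cancel₀ (hPpos r hr).ne'
  -- pointwise Chebyshev
  have hpt : ∀ w, M ^ 2 * ind {w | ∀ r ∈ R, w ∉ S r} w ≤
      ∑ rr ∈ R ×ˢ R, f rr.1 w * f rr.2 w - 2 * M * (∑ r ∈ R, f r w) + M ^ 2 := by
    intro w
    have h1 : ∑ rr ∈ R ×ˢ R, f rr.1 w * f rr.2 w = (∑ r ∈ R, f r w) ^ 2 := by
      rw [Finset.sum_product, sq, Finset.sum_mul_sum]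
    rw [h1]
    by_cases hw : ∀ r ∈ R, w ∉ S r
    · have h2 : ∑ r ∈ R, f r w = 0 := by
        apply Finset.sum_eq_zero
        intro r hr
        rw [hf]
        simp only
        rw [ind_of_not_mem (hw r hr), mul_zero]
      rw [h2, ind_of_mem (show w ∈ {w | ∀ r ∈ R, w ∉ S r} from hw)]
      nlinarith
    · rw [ind_of_not_mem (show w ∉ {w | ∀ r ∈ R, w ∉ S r} from hw)]
      nlinarith [sq_nonneg (∑ r ∈ R, f r w - M)]
  have hE := EA_mono hπ A hpt v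
  have hE1 : EA π A (fun w => M ^ 2 * ind {w | ∀ r ∈ R, w ∉ S r} w) v =
      M ^ 2 * EA π A (ind {w | ∀ r ∈ R, w ∉ S r}) v := by
    rw [EA_const_mul]
  have hE2 : EA π A (fun w => ∑ rr ∈ R ×ˢ R, f rr.1 w * f rr.2 w - 2 * M * (∑ r ∈ R, f r w) +
      M ^ 2) v = ∑ rr ∈ R ×ˢ R, EA π A (fun w => f rr.1 w * f rr.2 w) v - M ^ 2 := by
    have e1 : (fun w => ∑ rr ∈ R ×ˢ R, f rr.1 w * f rr.2 w - 2 * M * (∑ r ∈ R, f r w) + M ^ 2) =
        ((fun w => ∑ rr ∈ R ×ˢ R, f rr.1 w * f rr.2 w) - (fun w => 2 * M * (∑ r ∈ R, f r w))) +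
        (fun _ => M ^ 2) := by
      funext w
      simp only [Pi.add_apply, Pi.sub_apply]
    rw [e1, EA_add, EA_sub, EA_const_mul, EA_const hs]
    simp only [Pi.add_apply, Pi.sub_apply]
    rw [EA_sum A (R ×ˢ R) (fun rr w => f rr.1 w * f rr.2 w), EA_sum A R f]
    simp only
    rw [Finset.sum_congr rfl hEf, Finset.sum_const, nsmul_eq_mul, ← hM]
    ring
  rw [hE1, hE2] at hE
  -- correlations
  have hcorr : ∀ rr ∈ R ×ˢ R, EA π A (fun w => f rr.1 w * f rr.2 w) v =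
      (P rr.1)⁻¹ * (P rr.2)⁻¹ * EA π A (fun w => ind (S rr.1) w * ind (S rr.2) w) v := by
    intro rr _
    have e1 : (fun w => f rr.1 w * f rr.2 w) =
        fun w => ((P rr.1)⁻¹ * (P rr.2)⁻¹) * (ind (S rr.1) w * ind (S rr.2) w) := by
      funext w
      rw [hf]
      ring
    rw [e1, EA_const_mul]
  have hgood : ∀ rr ∈ R ×ˢ R, EA π A (fun w => f rr.1 w * f rr.2 w) v ≤
      ∏ p ∈ D rr.1 ∩ D rr.2, Lam p := by
    intro rr hrr
    rw [hcorr rr hrr]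
    obtain ⟨hr1, hr2⟩ := Finset.mem_product.1 hrr
    have h1 := corr hπ hs hLam1 hLam (ind_nonneg (S rr.1)) (ind_nonneg (S rr.2)) (hD _ hr1).1
      (hD _ hr1).2 (hD _ hr2).2 v
    have h2 : 0 < P rr.1 := hPpos _ hr1
    have h3 : 0 < P rr.2 := hPpos _ hr2
    have h4 := mul_le_mul_of_nonneg_left h1 (mul_pos (inv_pos.2 h2) (inv_pos.2 h3)).le
    refine h4.trans (le_of_eq ?_)
    show (P rr.1)⁻¹ * (P rr.2)⁻¹ * (P rr.1 * P rr.2 * ∏ p ∈ D rr.1 ∩ D rr.2, Lam p) = _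
    field_simp
  have hbad : ∀ rr ∈ R ×ˢ R, EA π A (fun w => f rr.1 w * f rr.2 w) v ≤ 1 / θ := by
    intro rr hrr
    rw [hcorr rr hrr]
    obtain ⟨hr1, hr2⟩ := Finset.mem_product.1 hrr
    have h2 : 0 < P rr.1 := hPpos _ hr1
    have h3 : 0 < P rr.2 := hPpos _ hr2
    have h1 : EA π A (fun w => ind (S rr.1) w * ind (S rr.2) w) v ≤ P rr.2 := by
      apply EA_mono hπ A
      intro w
      have h5 := ind_le_one (S rr.1) w
      have h6 := ind_nonneg (S rr.2) w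
      nlinarith
    have h4 := mul_le_mul_of_nonneg_left h1 (mul_pos (inv_pos.2 h2) (inv_pos.2 h3)).le
    refine h4.trans ?_
    have e1 : (P rr.1)⁻¹ * (P rr.2)⁻¹ * P rr.2 = 1 / P rr.1 := by
      field_simp
    rw [e1]
    exact one_div_le_one_div_of_le hθ (hP _ hr1)
  have hsplit : ∑ rr ∈ R ×ˢ R, EA π A (fun w => f rr.1 w * f rr.2 w) v - M ^ 2 ≤
      ∑ rr ∈ (R ×ˢ R).filter (fun rr => ((∏ p ∈ D rr.1 ∩ D rr.2, p : ℕ) : ℝ) ≤ H),
          ((∏ p ∈ D rr.1 ∩ D rr.2, Lam p) - 1) +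
        (((R ×ˢ R).filter (fun rr => H < ((∏ p ∈ D rr.1 ∩ D rr.2, p : ℕ) : ℝ))).card : ℝ) / θ := by
    have e1 : ∑ rr ∈ R ×ˢ R, EA π A (fun w => f rr.1 w * f rr.2 w) v - M ^ 2 =
        ∑ rr ∈ R ×ˢ R, (EA π A (fun w => f rr.1 w * f rr.2 w) v - 1) := by
      rw [Finset.sum_sub_distrib, Finset.sum_const, Finset.card_product, nsmul_eq_mul, mul_one, hM]
      push_cast
      ring
    rw [e1, ← Finset.sum_filter_add_sum_filter_not (R ×ˢ R)
      (fun rr => ((∏ p ∈ D rr.1 ∩ D rr.2, p : ℕ) : ℝ) ≤ H)]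
    apply add_le_add
    · apply Finset.sum_le_sum
      intro rr hrr
      have := hgood rr (Finset.mem_filter.1 hrr).1
      linarith
    · have e2 : (R ×ˢ R).filter (fun rr => ¬ ((∏ p ∈ D rr.1 ∩ D rr.2, p : ℕ) : ℝ) ≤ H) =
          (R ×ˢ R).filter (fun rr => H < ((∏ p ∈ D rr.1 ∩ D rr.2, p : ℕ) : ℝ)) := by
        apply Finset.filter_congr
        intro rr _
        exact not_le
      rw [e2]
      refine (Finset.sum_le_card_nsmul _ _ (1 / θ) ?_).trans (le_of_eq ?_)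
      · intro rr hrr
        have := hbad rr (Finset.mem_filter.1 hrr).1
        linarith
      · rw [nsmul_eq_mul]
        ring
  rw [le_div_iff₀ (by positivity)]
  have := hE.trans hsplit
  linarith

/-- Block SM. -/
theorem stmt_SM : Stmt_SM := sm_of_smg stmt_SMG

end Pool.Agent.Work.MP_b0c12c_nt_shift
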