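import Mathlib
import Pool.Agent.Work.MP_b0c12c_nt_shift.Interface

/-!
# Block TS: Euler product identity
-/

set_option autoImplicit false

namespace Pool.Agent.Work.MP_b0c12c_nt_shift.TS

open Finset

/-- weight of `t`: `a1 p` if `p ∣ t`, `a0 p` else -/
noncomputable def fw (a0 a1 : ℕ → ℝ) (B : Finset ℕ) (t : ℕ) : ℝ :=
  ∏ p ∈ B, if p ∣ t then a1 p else a0 p

theorem geom_le {p : ℕ} (hp : 2 ≤ p) (K : ℕ) (b0 b1 : ℝ) (h1 : 0 ≤ b1) :
    ∑ k ∈ range (K + 1), (if k = 0 then b0 else b1) / (p : ℝ) ^ k ≤ b0 + b1 / ((p : ℝ) - 1) := by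
  have hp1 : (1 : ℝ) < p := by exact_mod_cast hp
  have hp0 : (0 : ℝ) < p := by linarith
  rw [Finset.sum_range_succ']
  simp only [Nat.add_eq_zero_iff, one_ne_zero, and_false, if_false, if_true, pow_zero, div_one]
  have h2 : ∑ k ∈ range K, b1 / (p : ℝ) ^ (k + 1) ≤ b1 / ((p : ℝ) - 1) := by
    have h3 : ∀ K : ℕ, ∑ k ∈ range K, 1 / (p : ℝ) ^ (k + 1) =
        (1 - 1 / (p : ℝ) ^ K) / ((p : ℝ) - 1) := by
      intro K
      induction K with
      | zero => simp
      | succ K ih =>
        rw [Finset.sum_range_succ, ih]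
        have h5 : (p : ℝ) - 1 ≠ 0 := by linarith
        field_simp
        ring
    have h4 : ∑ k ∈ range K, b1 / (p : ℝ) ^ (k + 1) =
        b1 * ((1 - 1 / (p : ℝ) ^ K) / ((p : ℝ) - 1)) := by
      rw [← h3, Finset.mul_sum]
      refine Finset.sum_congr rfl fun k _ => by ring
    rw [h4, div_eq_mul_inv b1, div_eq_mul_inv (1 - 1 / (p : ℝ) ^ K)]
    apply mul_le_mul_of_nonneg_left _ h1
    have h5 : 0 < ((p : ℝ) - 1)⁻¹ := inv_pos.mpr (by linarith)
    have h6 : 0 < 1 / (p : ℝ) ^ K := by positivity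
    nlinarith
  linarith

theorem main (a0 a1 : ℕ → ℝ) (B : Finset ℕ) :
    ∀ T : Finset ℕ, (∀ p ∈ B, p.Prime ∧ 0 ≤ a0 p ∧ 0 ≤ a1 p) →
    (∀ t ∈ T, t ≠ 0 ∧ t.primeFactors ⊆ B) →
    ∑ t ∈ T, fw a0 a1 B t / t ≤ ∏ p ∈ B, (a0 p + a1 p / ((p : ℝ) - 1)) := by
  classical
  induction B using Finset.induction_on with
  | empty =>
    intro T _ hT
    have h1 : T ⊆ {1} := by
      intro t ht
      obtain ⟨h2, h3⟩ := hT t ht
      have h4 : t.primeFactors = ∅ := Finset.subset_empty.mp h3
      rw [Nat.primeFactors_eq_empty] at h4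
      rcases h4 with h4 | h4
      · exact absurd h4 h2
      · simp [h4]
    simp only [fw, Finset.prod_empty]
    calc ∑ t ∈ T, 1 / (t : ℝ) ≤ ∑ t ∈ ({1} : Finset ℕ), 1 / (t : ℝ) :=
          Finset.sum_le_sum_of_subset_of_nonneg h1 (fun _ _ _ => by positivity)
      _ = 1 := by simp
  | insert p B hpB ih =>
    intro T hB hT
    obtain ⟨hp, h0, h1⟩ := hB p (Finset.mem_insert_self p B)
    have hB' : ∀ q ∈ B, q.Prime ∧ 0 ≤ a0 q ∧ 0 ≤ a1 q := fun q hq =>
      hB q (Finset.mem_insert_of_mem hq)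
    set S : Finset ℕ := T.image fun t => t / p ^ t.factorization p with hS
    set K : ℕ := T.sup fun t => t.factorization p with hK
    have hSp : ∀ s ∈ S, s ≠ 0 ∧ s.primeFactors ⊆ B := by
      intro s hs
      rw [hS, Finset.mem_image] at hs
      obtain ⟨t, ht, rfl⟩ := hs
      obtain ⟨h2, h3⟩ := hT t ht
      have h4 : t / p ^ t.factorization p ≠ 0 := (Nat.ordCompl_pos p h2).ne'
      refine ⟨h4, ?_⟩
      intro q hq
      have hq' := Nat.mem_primeFactors.mp hq
      have h5 : q ∈ insert p B :=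
        h3 (Nat.mem_primeFactors.mpr ⟨hq'.1, hq'.2.1.trans (Nat.ordCompl_dvd t p), h2⟩)
      rcases Finset.mem_insert.mp h5 with h6 | h6
      · subst h6
        exact absurd hq'.2.1 (Nat.not_dvd_ordCompl hp h2)
      · exact h6
    have key : ∀ t ∈ T, fw a0 a1 (insert p B) t / t =
        ((if t.factorization p = 0 then a0 p else a1 p) / (p : ℝ) ^ t.factorization p) *
        (fw a0 a1 B (t / p ^ t.factorization p) / ((t / p ^ t.factorization p : ℕ) : ℝ)) := by
      intro t ht
      obtain ⟨h2, h3⟩ := hT t ht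
      have h4 : fw a0 a1 (insert p B) t =
          (if t.factorization p = 0 then a0 p else a1 p) *
            fw a0 a1 B (t / p ^ t.factorization p) := by
        unfold fw
        rw [Finset.prod_insert hpB]
        congr 1
        · by_cases h5 : p ∣ t
          · rw [if_pos h5, if_neg]
            exact (hp.factorization_pos_of_dvd h2 h5).ne'
          · rw [if_neg h5, if_pos (Nat.factorization_eq_zero_of_not_dvd h5)]
        · refine Finset.prod_congr rfl fun q hq => ?_
          have hqp : q ≠ p := fun h => hpB (h ▸ hq)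
          have hq' := (hB' q hq).1
          have h6 : q ∣ t ↔ q ∣ t / p ^ t.factorization p := by
            constructor
            · intro h7
              have h8 : t = p ^ t.factorization p * (t / p ^ t.factorization p) :=
                (Nat.ordProj_mul_ordCompl_eq_self t p).symm
              rw [h8] at h7
              rcases (Nat.Prime.dvd_mul hq').mp h7 with h9 | h9
              · exact absurd ((Nat.prime_dvd_prime_iff_eq hq' hp).mp
                  (hq'.dvd_of_dvd_pow h9)) hqp
              · exact h9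
            · intro h7
              exact h7.trans (Nat.ordCompl_dvd t p)
          simp only [h6]
      rw [h4]
      have h8 : (t : ℝ) = (p : ℝ) ^ t.factorization p * ((t / p ^ t.factorization p : ℕ) : ℝ) := by
        conv_lhs => rw [← Nat.ordProj_mul_ordCompl_eq_self t p]
        push_cast
        ring
      conv_lhs => rw [h8]
      rw [div_mul_div_comm]
    have hfw : ∀ s, 0 ≤ fw a0 a1 B s := by
      intro s
      refine Finset.prod_nonneg fun q hq => ?_
      split_ifs
      · exact (hB' q hq).2.2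
      · exact (hB' q hq).2.1
    have hinj : Set.InjOn (fun t : ℕ => (t.factorization p, t / p ^ t.factorization p))
        (T : Set ℕ) := by
      intro t _ t' _ h
      simp only [Prod.mk.injEq] at h
      rw [← Nat.ordProj_mul_ordCompl_eq_self t p, ← Nat.ordProj_mul_ordCompl_eq_self t' p, h.2, h.1]
    calc ∑ t ∈ T, fw a0 a1 (insert p B) t / t
        = ∑ t ∈ T, (fun x : ℕ × ℕ => ((if x.1 = 0 then a0 p else a1 p) / (p : ℝ) ^ x.1) *
            (fw a0 a1 B x.2 / (x.2 : ℝ))) (t.factorization p, t / p ^ t.factorization p) :=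
          Finset.sum_congr rfl key
      _ = ∑ x ∈ T.image (fun t : ℕ => (t.factorization p, t / p ^ t.factorization p)),
            (fun x : ℕ × ℕ => ((if x.1 = 0 then a0 p else a1 p) / (p : ℝ) ^ x.1) *
            (fw a0 a1 B x.2 / (x.2 : ℝ))) x := by
          rw [Finset.sum_image hinj]
      _ ≤ ∑ x ∈ range (K + 1) ×ˢ S,
            (fun x : ℕ × ℕ => ((if x.1 = 0 then a0 p else a1 p) / (p : ℝ) ^ x.1) *
            (fw a0 a1 B x.2 / (x.2 : ℝ))) x := by
          refine Finset.sum_le_sum_of_subset_of_nonneg ?_ ?_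
          · intro x hx
            rw [Finset.mem_image] at hx
            obtain ⟨t, ht, rfl⟩ := hx
            rw [Finset.mem_product]
            refine ⟨?_, ?_⟩
            · rw [Finset.mem_range]
              have := Finset.le_sup (f := fun t : ℕ => t.factorization p) ht
              simp only at this ⊢
              omega
            · exact Finset.mem_image_of_mem _ ht
          · intro x _ _
            have := hfw x.2
            show 0 ≤ ((if x.1 = 0 then a0 p else a1 p) / (p : ℝ) ^ x.1) *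
              (fw a0 a1 B x.2 / (x.2 : ℝ))
            have h9 : 0 ≤ (if x.1 = 0 then a0 p else a1 p) := by split_ifs <;> assumption
            positivity
      _ = (∑ k ∈ range (K + 1), (if k = 0 then a0 p else a1 p) / (p : ℝ) ^ k) *
            ∑ s ∈ S, fw a0 a1 B s / (s : ℝ) := by
          rw [Finset.sum_product, Finset.sum_mul_sum]
      _ ≤ (a0 p + a1 p / ((p : ℝ) - 1)) * ∏ q ∈ B, (a0 q + a1 q / ((q : ℝ) - 1)) := by
          have h10 : 0 ≤ ∑ s ∈ S, fw a0 a1 B s / (s : ℝ) :=
            Finset.sum_nonneg fun s _ => div_nonneg (hfw s) (Nat.cast_nonneg s)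
          have h11 := geom_le hp.two_le K (a0 p) (a1 p) h1
          have h12 := ih S hB' hSp
          have h13 : 0 ≤ a0 p + a1 p / ((p : ℝ) - 1) := by
            have : (1 : ℝ) < p := by exact_mod_cast hp.one_lt
            have : 0 < (p : ℝ) - 1 := by linarith
            positivity
          exact mul_le_mul h11 h12 h10 h13
      _ = ∏ q ∈ insert p B, (a0 q + a1 q / ((q : ℝ) - 1)) := by
          rw [Finset.prod_insert hpB]

end Pool.Agent.Work.MP_b0c12c_nt_shift.TS

namespace Pool.Agent.Work.MP_b0c12c_nt_shift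

open Finset

/-- Block TS. -/
theorem stmt_TS : Stmt_TS := by
  classical
  intro A P e g T hAP hA hP _ hgP hT
  have hnn : 0 ≤ (∏ p ∈ P, (1 - 1 / (p : ℝ))⁻¹) := by
    refine Finset.prod_nonneg fun p hp => inv_nonneg.mpr ?_
    have h1 : (1 : ℝ) ≤ p := by exact_mod_cast (hP p hp).one_le
    have h2 : 1 / (p : ℝ) ≤ 1 := by rw [div_le_one (by linarith)]; exact h1
    linarith
  rcases T.eq_empty_or_nonempty with hTe | ⟨t0, ht0⟩
  · rw [hTe, Finset.sum_empty]
    exact div_nonneg hnn (Nat.cast_nonneg g)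
  have hg0 : g ≠ 0 := by
    rintro rfl
    exact (hT t0 ht0).1 (zero_dvd_iff.mp (hT t0 ht0).2.1)
  have hgR : (0 : ℝ) < g := by exact_mod_cast Nat.pos_of_ne_zero hg0
  -- the weights
  let a0 : ℕ → ℝ := fun p => if p ∈ A then 1 - e p / ((p : ℝ) - 1) else 1
  let a1 : ℕ → ℝ := fun p => if p ∈ A then e p else 1
  have hft : ∀ t ∈ T, ft e A t / t = (TS.fw a0 a1 (A ∪ P) (t / g) / ((t / g : ℕ) : ℝ)) / g := by
    intro t ht
    obtain ⟨h1, h2, h3⟩ := hT t ht
    have h4 : ft e A t = TS.fw a0 a1 (A ∪ P) (t / g) := by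
      unfold ft TS.fw
      rw [Finset.prod_union hAP]
      have h5 : ∏ x ∈ P, (if x ∣ t / g then a1 x else a0 x) = 1 := by
        refine Finset.prod_eq_one fun p hp => ?_
        have h6 : p ∉ A := fun h => (Finset.disjoint_left.mp hAP h) hp
        simp [a0, a1, h6]
      rw [h5, mul_one]
      refine Finset.prod_congr rfl fun p hp => ?_
      have h7 : p ∣ t ↔ p ∣ t / g := by
        constructor
        · intro h8
          have h9 : t = g * (t / g) := (Nat.mul_div_cancel' h2).symm
          rw [h9] at h8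
          rcases (Nat.Prime.dvd_mul (hA p hp).1).mp h8 with h10 | h10
          · exact absurd (hgP (Nat.mem_primeFactors.mpr ⟨(hA p hp).1, h10, hg0⟩))
              (Finset.disjoint_left.mp hAP hp)
          · exact h10
        · intro h8
          exact h8.trans (Nat.div_dvd_of_dvd h2)
      simp only [a0, a1, hp, if_true, h7]
    rw [h4]
    have h11 : (t : ℝ) = ((t / g : ℕ) : ℝ) * g := by
      rw [Nat.cast_div h2 hgR.ne']
      field_simp
    conv_lhs => rw [h11]
    rw [div_div]
  rw [Finset.sum_congr rfl hft, ← Finset.sum_div]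
  apply div_le_div_of_nonneg_right _ hgR.le
  have hinj : Set.InjOn (fun t : ℕ => t / g) (T : Set ℕ) := by
    intro t ht t' ht' h
    have h1 := Nat.mul_div_cancel' (hT t ht).2.1
    have h2 := Nat.mul_div_cancel' (hT t' ht').2.1
    simp only at h
    rw [← h1, ← h2, h]
  have h12 : ∑ t ∈ T, TS.fw a0 a1 (A ∪ P) (t / g) / ((t / g : ℕ) : ℝ) =
      ∑ s ∈ T.image (fun t : ℕ => t / g), TS.fw a0 a1 (A ∪ P) s / (s : ℝ) :=
    (Finset.sum_image (f := fun s : ℕ => TS.fw a0 a1 (A ∪ P) s / (s : ℝ)) hinj).symm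
  rw [h12]
  have h13 := TS.main a0 a1 (A ∪ P) (T.image (fun t : ℕ => t / g)) ?_ ?_
  · refine h13.trans (le_of_eq ?_)
    rw [Finset.prod_union hAP]
    have h14 : ∏ p ∈ A, (a0 p + a1 p / ((p : ℝ) - 1)) = 1 := by
      refine Finset.prod_eq_one fun p hp => ?_
      simp [a0, a1, hp]
    rw [h14, one_mul]
    refine Finset.prod_congr rfl fun p hp => ?_
    have h6 : p ∉ A := fun h => (Finset.disjoint_left.mp hAP h) hp
    have h15 : (1 : ℝ) < p := by exact_mod_cast (hP p hp).one_lt
    have h16 : (p : ℝ) - 1 ≠ 0 := by linarith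
    have h17 : (p : ℝ) ≠ 0 := by linarith
    simp only [a0, a1, h6, if_false]
    rw [show (1 : ℝ) - 1 / (p : ℝ) = ((p : ℝ) - 1) / p by field_simp, inv_div]
    field_simp
    ring
  · intro p hp
    rcases Finset.mem_union.mp hp with h | h
    · obtain ⟨h1, h2, h3, h4⟩ := hA p h
      refine ⟨h1, ?_, ?_⟩
      · simp only [a0, h, if_true]
        have h5 : (3 : ℝ) ≤ p := by exact_mod_cast h2
        have h6 : e p / ((p : ℝ) - 1) ≤ 1 := by
          rw [div_le_one (by linarith)]
          linarith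
        linarith
      · simp only [a1, h, if_true]
        exact h3
    · have h6 : p ∉ A := fun h' => (Finset.disjoint_left.mp hAP h') h
      refine ⟨hP p h, ?_, ?_⟩
      · simp [a0, h6]
      · simp [a1, h6]
  · intro s hs
    rw [Finset.mem_image] at hs
    obtain ⟨t, ht, rfl⟩ := hs
    obtain ⟨h1, h2, h3⟩ := hT t ht
    have h4 : t / g ≠ 0 := (Nat.div_pos (Nat.le_of_dvd (Nat.pos_of_ne_zero h1) h2)
      (Nat.pos_of_ne_zero hg0)).ne'
    refine ⟨h4, ?_⟩
    intro q hq
    have hq' := Nat.mem_primeFactors.mp hq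
    exact h3 (Nat.mem_primeFactors.mpr ⟨hq'.1, hq'.2.1.trans (Nat.div_dvd_of_dvd h2), h1⟩)

end Pool.Agent.Work.MP_b0c12c_nt_shift
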