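import Mathlib
import Pool.Agent.Work.MP_b0c12c_nt_shift.FIN
import Pool.Agent.Work.MP_b0c12c_nt_shift.EX
import Pool.Agent.Work.MP_b0c12c_nt_shift.PN
import Pool.Agent.Work.MP_b0c12c_nt_shift.BF
import Pool.Agent.Work.MP_b0c12c_nt_shift.M1
import Pool.Agent.Work.MP_b0c12c_nt_shift.TS
import Pool.Agent.Work.MP_b0c12c_nt_shift.MA
import Pool.Agent.Work.MP_b0c12c_nt_shift.WS
import Pool.Agent.Work.MP_b0c12c_nt_shift.MT
import Pool.Agent.Work.MP_b0c12c_nt_shift.MC
import Pool.Agent.Work.MP_b0c12c_nt_shift.Q2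
import Pool.Agent.Work.MP_b0c12c_nt_shift.H12
import Pool.Agent.Work.MP_b0c12c_nt_shift.M
import Pool.Agent.Work.MP_b0c12c_nt_shift.RW
import Pool.Agent.Work.MP_b0c12c_nt_shift.CL
import Pool.Agent.Work.MP_b0c12c_nt_shift.SM
import Pool.Agent.Work.MP_b0c12c_nt_shift.PC
import Pool.Agent.Work.MP_b0c12c_nt_shift.SC
import Pool.Agent.Work.MP_b0c12c_nt_shift.IB
import Pool.Agent.Work.MP_b0c12c_nt_shift.IN

/-!
# All blocks put together
-/

set_option autoImplicit false

namespace Pool.Agent.Work.MP_b0c12c_nt_shift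

open Filter MeasureTheory ProbabilityTheory

theorem all_MC : Stmt_MC := stmt_MC stmt_WS

theorem all_M : Stmt_M := stmt_M (stmt_M1 (stmt_BF stmt_PN)) stmt_TS stmt_MA all_MC stmt_MT

theorem all_RW : Stmt_RW :=
  stmt_RW all_M (stmt_Q2 stmt_WS stmt_MT) (stmt_H1 stmt_WS stmt_MT) (stmt_H2 stmt_WS stmt_MT)

theorem all_SC : Stmt_SC := stmt_SC stmt_EX stmt_MT all_RW stmt_CL stmt_SM stmt_PC

theorem all_IN : Stmt_IN := stmt_IN stmt_IB

/-- The main theorem. -/
theorem main {Ω : Type*} [MeasurableSpace Ω] {μ : Measure Ω} [IsProbabilityMeasure μ]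
    {u : ℕ → Ω → ℤ} (hmeas : ∀ p, Measurable (u p)) (hindep : iIndepFun u μ)
    (hval : ∀ p : ℕ, p.Prime → ∀ᵐ ω ∂μ, u p ω = -1 ∨ u p ω = 0 ∨ u p ω = 1)
    {c₁ c₂ : ℝ} (hc₁ : 0 < c₁)
    (hlaw : ∀ᶠ p : ℕ in atTop, p.Prime → ∀ s : ℤ, s = 1 ∨ s = -1 →
      c₁ / Real.log (Real.log p) ≤ μ.real {ω | u p ω = s} ∧
      μ.real {ω | u p ω = s} ≤ c₂ / Real.log (Real.log p)) :
    ∀ᵐ ω ∂μ, (Shifted fun p => u p ω).Infinite ∧
      ((2 * Real.exp (-Real.eulerMascheroniConstant) : ℝ) : EReal) ≤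
        FIN.gapLim (Shifted fun p => u p ω) := by
  classical
  set π : ℕ → ℤ → ℝ := fun p s =>
    if p.Prime then μ.real {ω | u p ω = s} else if s = 0 then 1 else 0 with hπdef
  obtain ⟨P0, hP0⟩ := eventually_atTop.1 hlaw
  have hsgn : ∀ a : ℤ, a ∈ sgn ↔ (a = -1 ∨ a = 0 ∨ a = 1) := by
    intro a
    simp [sgn]
  have hsum : ∀ p : ℕ, p.Prime → μ.real {ω | u p ω = -1} + μ.real {ω | u p ω = 0} +
      μ.real {ω | u p ω = 1} = 1 := by
    intro p hp
    have hm : ∀ s : ℤ, MeasurableSet {ω | u p ω = s} := fun s => hmeas p (measurableSet_singleton s)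
    have h1 : μ.real ({ω | u p ω = -1} ∪ {ω | u p ω = 0}) =
        μ.real {ω | u p ω = -1} + μ.real {ω | u p ω = 0} := by
      apply measureReal_union _ (hm 0)
      rw [Set.disjoint_left]
      intro ω h2 h3
      have h2' : u p ω = -1 := h2
      have h3' : u p ω = 0 := h3
      omega
    have h2 : μ.real (({ω | u p ω = -1} ∪ {ω | u p ω = 0}) ∪ {ω | u p ω = 1}) =
        μ.real ({ω | u p ω = -1} ∪ {ω | u p ω = 0}) + μ.real {ω | u p ω = 1} := by
      apply measureReal_union _ (hm 1)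
      rw [Set.disjoint_left]
      rintro ω h2 h3
      have h3' : u p ω = 1 := h3
      rcases h2 with h2 | h2
      · have h2' : u p ω = -1 := h2
        omega
      · have h2' : u p ω = 0 := h2
        omega
    rw [← h1, ← h2]
    have h3 : μ.real (({ω | u p ω = -1} ∪ {ω | u p ω = 0}) ∪ {ω | u p ω = 1}) =
        μ.real (Set.univ : Set Ω) := by
      apply measureReal_congr
      filter_upwards [hval p hp] with ω hω
      apply propext
      constructor
      · intro _; trivial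
      · intro _
        rcases hω with h | h | h
        · exact Or.inl (Or.inl h)
        · exact Or.inl (Or.inr h)
        · exact Or.inr h
    rw [h3]
    exact probReal_univ
  have hL : Law π c₁ c₂ := by
    refine ⟨hc₁, ?_, ?_, ⟨P0, ?_⟩, ⟨P0, ?_⟩⟩
    · intro p s
      simp only [hπdef]
      split_ifs
      · exact measureReal_nonneg
      · exact zero_le_one
      · exact le_rfl
    · intro p
      simp only [hπdef]
      by_cases hp : p.Prime
      · simp only [if_pos hp]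
        exact hsum p hp
      · simp [hp]
    · intro p hp hpP
      simp only [hπdef, if_pos hp]
      exact ⟨(hP0 p hpP hp 1 (Or.inl rfl)).1, (hP0 p hpP hp (-1) (Or.inr rfl)).1⟩
    · intro p hp hpP
      simp only [hπdef, if_pos hp]
      exact ⟨(hP0 p hpP hp 1 (Or.inl rfl)).2, (hP0 p hpP hp (-1) (Or.inr rfl)).2⟩
  apply FIN.main all_SC all_IN hmeas hindep hL
  · intro p hp
    filter_upwards [hval p hp] with ω hω
    exact (hsgn _).2 hω
  · intro p hp s _
    simp only [hπdef, if_pos hp]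

end Pool.Agent.Work.MP_b0c12c_nt_shift
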