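import Mathlib
import Pool.Agent.Work.MP_b0c12c_nt_shift.Interface2
import Pool.Agent.Work.MP_b0c12c_nt_shift.PC

/-!
# Block PC, general version
-/

set_option autoImplicit false

namespace Pool.Agent.Work.MP_b0c12c_nt_shift

open Finset Filter

open PC in
theorem stmt_PCG : Stmt_PCG := by
  intro η α hη hα0 hα1
  set γ : ℝ := (1 - α) / 2 with hγ
  have hγpos : 0 < γ := by rw [hγ]; linarith
  obtain ⟨C, hCpos, hC⟩ : ∃ C : ℝ, 0 < C ∧ ∀ T : Finset ℕ, ∑ n ∈ T, (n : ℝ) ^ (-(1 + γ)) ≤ C := by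
    have hsum : Summable fun n : ℕ => (n : ℝ) ^ (-(1 + γ)) :=
      Real.summable_nat_rpow.mpr (by linarith)
    refine ⟨∑' n : ℕ, (n : ℝ) ^ (-(1 + γ)) + 1, ?_, fun T => ?_⟩
    · have : 0 ≤ ∑' n : ℕ, (n : ℝ) ^ (-(1 + γ)) := tsum_nonneg fun n => by positivity
      linarith
    · have := hsum.sum_le_tsum T (fun n _ => by positivity)
      linarith
  set β : ℝ := min η 1 / 2 with hβ
  have hβpos : 0 < β := by rw [hβ]; have := lt_min hη one_pos; linarith
  have hβη : β ≤ η / 2 := by rw [hβ]; have := min_le_left η 1; linarith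
  have hβ1 : β ≤ 1 / 2 := by rw [hβ]; have := min_le_right η 1; linarith
  refine ⟨max ⌈12 / γ⌉₊ (max 11 ⌈8 / β⌉₊), fun B hB κ hκ hκ2 => ?_⟩
  have hB11 : 11 ≤ B := (le_max_left _ _).trans ((le_max_right _ _).trans hB)
  have hBγ : 12 ≤ B * γ := by
    have h1 : 12 / γ ≤ B := (Nat.le_ceil _).trans (by exact_mod_cast (le_max_left _ _).trans hB)
    rwa [div_le_iff₀ hγpos] at h1
  have hBβ : 8 ≤ B * β := by
    have h1 : 8 / β ≤ B :=
      (Nat.le_ceil _).trans (by exact_mod_cast (le_max_right _ _).trans ((le_max_right _ _).trans hB))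
    rwa [div_le_iff₀ hβpos] at h1
  -- large `z`
  obtain ⟨z1, hz1⟩ : ∃ z1 : ℕ, ∀ z : ℕ, z1 ≤ z → max (10 / η) 2 ≤ (z : ℝ) ^ κ := by
    have h1 := (tendsto_rpow_atTop hκ).comp tendsto_natCast_atTop_atTop
    obtain ⟨z1, hz1⟩ := (h1.eventually_ge_atTop (max (10 / η) 2)).exists_forall_of_atTop
    exact ⟨z1, fun z hz => hz1 z hz⟩
  refine ⟨max z1 (max ⌈C⌉₊ 8), fun z hz p0 x U b hx hU hb Lam hLam => ?_⟩
  have hz8 : 8 ≤ z := (le_max_right _ _).trans ((le_max_right _ _).trans hz)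
  have hzC : C ≤ z := (Nat.le_ceil _).trans
    (by exact_mod_cast (le_max_left _ _).trans ((le_max_right _ _).trans hz))
  have hzκ := hz1 z ((le_max_left _ _).trans hz)
  have hz0 : (0 : ℝ) < z := by exact_mod_cast (by omega : 0 < z)
  have hz8' : (8 : ℝ) ≤ z := by exact_mod_cast hz8
  have hz1' : (1 : ℝ) ≤ z := by linarith
  set A := AA κ B z p0 with hAdef
  set q := qq z p0 with hqdef
  have hq : 0 < q := qq_pos z p0
  have hqr : (0 : ℝ) < q := by exact_mod_cast hq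
  have hq4 : (q : ℝ) ≤ 4 ^ z := by exact_mod_cast qq_le z p0
  have hA1 : ∀ p ∈ A, p.Prime ∧ p.Coprime q := fun p hp =>
    ⟨(mem_AA hp).1, coprime_qq (by omega) hp⟩
  -- powers
  have hlog4 : Real.log 4 < 3 / 2 := by
    have h1 : Real.log 4 = 2 * Real.log 2 := by
      rw [show (4 : ℝ) = 2 ^ 2 by norm_num, Real.log_pow]; norm_num
    have := Real.log_two_lt_d9
    rw [h1]; linarith
  have hzpow : (z : ℝ) ^ (1 + κ) = z * (z : ℝ) ^ κ := by
    rw [Real.rpow_add hz0, Real.rpow_one]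
  have hlogx : (z : ℝ) * (z : ℝ) ^ κ ≤ Real.log x := by rw [← hzpow]; exact hx.1
  have hxpos : (0 : ℝ) < x := by
    rcases Nat.eq_zero_or_pos x with h | h
    · subst h
      simp only [Nat.cast_zero, Real.log_zero] at hlogx
      have : 0 < (z : ℝ) * (z : ℝ) ^ κ := by positivity
      linarith
    · exact_mod_cast h
  have hzκ2 : 2 ≤ (z : ℝ) ^ κ := (le_max_right _ _).trans hzκ
  have hzκη : 10 / η ≤ (z : ℝ) ^ κ := (le_max_left _ _).trans hzκ
  have hH1 : 1 ≤ (x : ℝ) / q := by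
    rw [le_div_iff₀ hqr, one_mul]
    refine hq4.trans ?_
    rw [← Real.exp_log hxpos]
    have h1 : (4 : ℝ) ^ z = Real.exp (z * Real.log 4) := by
      rw [← Real.log_pow, Real.exp_log (by positivity)]
    rw [h1, Real.exp_le_exp]
    nlinarith
  have hHpos : 0 < (x : ℝ) / q := by linarith
  have hU2 : ((U : ℝ) + 2) ^ 2 ≤ (z : ℝ) ^ 8 := by
    have h1 : (U : ℝ) ≤ (z : ℝ) ^ 3 := by exact_mod_cast hU
    have h2 : (U : ℝ) + 2 ≤ 2 * (z : ℝ) ^ 3 := by
      have : (2 : ℝ) ≤ (z : ℝ) ^ 3 := by nlinarith [pow_le_pow_left₀ (by norm_num) hz8' 3]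
      linarith
    calc ((U : ℝ) + 2) ^ 2 ≤ (2 * (z : ℝ) ^ 3) ^ 2 := pow_le_pow_left₀ (by positivity) h2 2
      _ = 4 * (z : ℝ) ^ 6 := by ring
      _ ≤ (z : ℝ) ^ 2 * (z : ℝ) ^ 6 := by
          apply mul_le_mul_of_nonneg_right _ (by positivity)
          nlinarith
      _ = (z : ℝ) ^ 8 := by ring
  constructor
  · -- first sum
    have h1 := sum_pairs (x := x) (b := b) (U := U) hq hA1 Lam (fun p hp => (hLam p hp).1)
    refine h1.trans ?_
    have hL0 : ∀ p ∈ A, 0 ≤ Lam p - 1 := fun p hp => by have := (hLam p hp).1; linarith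
    set s := ∑ p ∈ A, (Lam p - 1) * (((U : ℝ) + 2) ^ 2 / (p : ℝ) ^ 2) with hs
    have hs0 : 0 ≤ s := sum_nonneg fun p hp => mul_nonneg (hL0 p hp) (by positivity)
    have hs1 : s ≤ 1 / (z : ℝ) ^ 2 := by
      calc s ≤ ∑ p ∈ A, (z : ℝ) ^ (-(3 : ℝ)) * ((p : ℝ) ^ (-(1 + γ))) := by
            refine sum_le_sum fun p hp => ?_
            obtain ⟨hp1, hp2, -⟩ := mem_AA hp
            have hp0 : (0 : ℝ) < p := by exact_mod_cast hp1.pos
            have hpB : ((z : ℝ) ^ B) ≤ p := by exact_mod_cast hp2.le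
            have e1 : (Lam p - 1) * (((U : ℝ) + 2) ^ 2 / (p : ℝ) ^ 2) ≤
                (z * (p : ℝ) ^ α) * ((z : ℝ) ^ 8 / (p : ℝ) ^ 2) := by
              refine mul_le_mul ?_ ?_ (by positivity) (by positivity)
              · have := (hLam p hp).2; linarith
              · exact div_le_div_of_nonneg_right hU2 (by positivity)
            have e2 : (z * (p : ℝ) ^ α) * ((z : ℝ) ^ 8 / (p : ℝ) ^ 2) =
                (z : ℝ) ^ (9 : ℝ) * ((p : ℝ) ^ (-γ) * (p : ℝ) ^ (-(1 + γ))) := by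
              rw [← Real.rpow_add hp0, show -γ + -(1 + γ) = α - 2 by rw [hγ]; ring,
                Real.rpow_sub hp0, Real.rpow_two, show (9 : ℝ) = ((9 : ℕ) : ℝ) by norm_num,
                Real.rpow_natCast]
              ring
            have e3 : (p : ℝ) ^ (-γ) ≤ (z : ℝ) ^ (-(12 : ℝ)) := by
              calc (p : ℝ) ^ (-γ) ≤ ((z : ℝ) ^ B) ^ (-γ) :=
                    Real.rpow_le_rpow_of_nonpos (by positivity) hpB (by linarith)
                _ = (z : ℝ) ^ (-(B * γ)) := by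
                    rw [← Real.rpow_natCast, ← Real.rpow_mul hz0.le]; congr 1; ring
                _ ≤ (z : ℝ) ^ (-(12 : ℝ)) :=
                    Real.rpow_le_rpow_of_exponent_le hz1' (by linarith)
            calc (Lam p - 1) * (((U : ℝ) + 2) ^ 2 / (p : ℝ) ^ 2)
                ≤ (z : ℝ) ^ (9 : ℝ) * ((p : ℝ) ^ (-γ) * (p : ℝ) ^ (-(1 + γ))) := e1.trans e2.le
              _ ≤ (z : ℝ) ^ (9 : ℝ) * ((z : ℝ) ^ (-(12 : ℝ)) * (p : ℝ) ^ (-(1 + γ))) := by
                  apply mul_le_mul_of_nonneg_left _ (by positivity)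
                  exact mul_le_mul_of_nonneg_right e3 (by positivity)
              _ = (z : ℝ) ^ (-(3 : ℝ)) * ((p : ℝ) ^ (-(1 + γ))) := by
                  rw [← mul_assoc, ← Real.rpow_add hz0]; norm_num
        _ = (z : ℝ) ^ (-(3 : ℝ)) * ∑ p ∈ A, (p : ℝ) ^ (-(1 + γ)) := by rw [mul_sum]
        _ ≤ (z : ℝ) ^ (-(3 : ℝ)) * z :=
            mul_le_mul_of_nonneg_left ((hC A).trans hzC) (by positivity)
        _ = 1 / (z : ℝ) ^ 2 := by
            rw [show (-(3 : ℝ)) = -((3 : ℕ) : ℝ) by norm_num, Real.rpow_neg hz0.le,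
              Real.rpow_natCast]
            field_simp
    have hs2 : s ≤ 1 := hs1.trans (by
      rw [div_le_one (by positivity)]; nlinarith)
    have hprod : ∏ p ∈ A, (1 + (Lam p - 1) * (((U : ℝ) + 2) ^ 2 / (p : ℝ) ^ 2)) ≤
        Real.exp s := by
      rw [hs, Real.exp_sum]
      refine prod_le_prod (fun p hp => ?_) fun p _ => ?_
      · have := mul_nonneg (hL0 p hp) (show (0 : ℝ) ≤ ((U : ℝ) + 2) ^ 2 / (p : ℝ) ^ 2 by positivity)
        linarith
      · have := Real.add_one_le_exp ((Lam p - 1) * (((U : ℝ) + 2) ^ 2 / (p : ℝ) ^ 2))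
        linarith
    have hexp : Real.exp s - 1 ≤ 2 * s := by
      have h2 := Real.abs_exp_sub_one_sub_id_le (x := s) (by rw [abs_of_nonneg hs0]; exact hs2)
      have h3 := (abs_le.mp h2).2
      nlinarith
    calc 4 * ((x : ℝ) / q) ^ 2 *
          (∏ p ∈ A, (1 + (Lam p - 1) * (((U : ℝ) + 2) ^ 2 / (p : ℝ) ^ 2)) - 1)
        ≤ 4 * ((x : ℝ) / q) ^ 2 * (2 * (1 / (z : ℝ) ^ 2)) := by
          apply mul_le_mul_of_nonneg_left _ (by positivity)
          linarith
      _ = ((x : ℝ) / q) ^ 2 / z * (8 / z) := by field_simp; ring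
      _ ≤ ((x : ℝ) / q) ^ 2 / z * 1 := by
          apply mul_le_mul_of_nonneg_left _ (by positivity)
          rw [div_le_one hz0]; exact hz8'
      _ = ((x : ℝ) / q) ^ 2 / z := mul_one _
  · -- large common product
    have hWpos : 0 < w1 κ z := by
      unfold w1
      rw [Nat.floor_pos]
      exact Real.one_le_exp (by positivity)
    have hWr : (0 : ℝ) < w1 κ z := by exact_mod_cast hWpos
    have hA2 : ∀ p ∈ A, p.Prime ∧ p.Coprime q ∧ p ≤ w1 κ z := fun p hp =>
      ⟨(hA1 p hp).1, (hA1 p hp).2, (mem_AA hp).2.2⟩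
    have hU3 : ∀ p ∈ A, ((U : ℝ) + 2) ^ 2 ≤ (p : ℝ) ^ β := by
      intro p hp
      have h1 : ((z : ℝ) ^ B) ≤ p := by exact_mod_cast (mem_AA hp).2.1.le
      calc ((U : ℝ) + 2) ^ 2 ≤ (z : ℝ) ^ 8 := hU2
        _ = (z : ℝ) ^ (8 : ℝ) := by norm_cast
        _ ≤ (z : ℝ) ^ (B * β) := Real.rpow_le_rpow_of_exponent_le hz1' hBβ
        _ = ((z : ℝ) ^ B) ^ β := by rw [Real.rpow_mul hz0.le, Real.rpow_natCast]
        _ ≤ (p : ℝ) ^ β := Real.rpow_le_rpow (by positivity) h1 hβpos.le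
    have h1 := big_pairs (x := x) (b := b) (U := U) hq hWpos hA2 hH1 (β := β) (by linarith) hU3
    refine h1.trans ?_
    set H := (x : ℝ) / q with hHdef
    -- `4 q W^2 x^β ≤ x^η`
    have hkey : 4 * q * (w1 κ z : ℝ) ^ 2 * (x : ℝ) ^ β ≤ (x : ℝ) ^ η := by
      have hW : (w1 κ z : ℝ) ≤ Real.exp ((z : ℝ) ^ (1 - κ)) := Nat.floor_le (Real.exp_pos _).le
      have hW2 : (w1 κ z : ℝ) ≤ Real.exp z := by
        refine hW.trans (Real.exp_le_exp.mpr ?_)
        calc (z : ℝ) ^ (1 - κ) ≤ (z : ℝ) ^ (1 : ℝ) :=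
              Real.rpow_le_rpow_of_exponent_le hz1' (by linarith)
          _ = z := Real.rpow_one _
      have h4 : (4 : ℝ) = Real.exp (Real.log 4) := by rw [Real.exp_log (by norm_num)]
      have hq5 : (q : ℝ) ≤ Real.exp (z * Real.log 4) := by
        refine hq4.trans (le_of_eq ?_)
        rw [← Real.log_pow, Real.exp_log (by positivity)]
      have hxβ : (x : ℝ) ^ β = Real.exp (Real.log x * β) := Real.rpow_def_of_pos hxpos _
      have hxη : (x : ℝ) ^ η = Real.exp (Real.log x * η) := Real.rpow_def_of_pos hxpos _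
      rw [hxβ, hxη]
      calc 4 * q * (w1 κ z : ℝ) ^ 2 * Real.exp (Real.log x * β)
          ≤ Real.exp (Real.log 4) * Real.exp (z * Real.log 4) * (Real.exp z) ^ 2 *
            Real.exp (Real.log x * β) := by
            apply mul_le_mul_of_nonneg_right _ (Real.exp_pos _).le
            apply mul_le_mul _ (pow_le_pow_left₀ hWr.le hW2 2) (by positivity) (by positivity)
            exact mul_le_mul h4.le hq5 hqr.le (Real.exp_pos _).le
        _ = Real.exp (Real.log 4 + z * Real.log 4 + 2 * z + Real.log x * β) := by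
            rw [Real.exp_add, Real.exp_add, Real.exp_add, ← Real.exp_nat_mul]
            norm_cast
        _ ≤ Real.exp (Real.log x * η) := by
            rw [Real.exp_le_exp]
            have h5 : Real.log 4 + z * Real.log 4 + 2 * z ≤ 5 * z := by nlinarith
            have h6 : 5 * (z : ℝ) ≤ Real.log x * (η / 2) := by
              have h7 : 10 ≤ (z : ℝ) ^ κ * η := by
                rwa [div_le_iff₀ hη] at hzκη
              calc 5 * (z : ℝ) = z * 10 / 2 := by ring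
                _ ≤ z * ((z : ℝ) ^ κ * η) / 2 := by
                    have := mul_le_mul_of_nonneg_left h7 hz0.le
                    linarith
                _ = (z * (z : ℝ) ^ κ) * (η / 2) := by ring
                _ ≤ Real.log x * (η / 2) := mul_le_mul_of_nonneg_right hlogx (by linarith)
            have h8 : 0 ≤ Real.log x := le_trans (by positivity) hlogx
            nlinarith
    -- conclusion
    have hpow : (H / (w1 κ z : ℝ)) ^ (β - 2) ≤ H ^ (β - 2) * (w1 κ z : ℝ) ^ 2 := by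
      rw [Real.div_rpow hHpos.le hWr.le, div_eq_mul_inv, ← Real.rpow_neg hWr.le]
      apply mul_le_mul_of_nonneg_left _ (by positivity)
      have hW1 : (1 : ℝ) ≤ w1 κ z := by exact_mod_cast hWpos
      calc (w1 κ z : ℝ) ^ (-(β - 2)) ≤ (w1 κ z : ℝ) ^ (2 : ℝ) :=
            Real.rpow_le_rpow_of_exponent_le hW1 (by linarith)
        _ = (w1 κ z : ℝ) ^ 2 := by norm_cast
    have hHβ : H * H ^ (β - 2) ≤ q * (x : ℝ) ^ β * (x : ℝ)⁻¹ := by
      have e1 : H * H ^ (β - 2) = H ^ (β - 1) := by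
        rw [show β - 1 = 1 + (β - 2) by ring, Real.rpow_add hHpos, Real.rpow_one]
      rw [e1, hHdef, Real.div_rpow hxpos.le hqr.le, div_eq_mul_inv, ← Real.rpow_neg hqr.le,
        Real.rpow_sub hxpos, Real.rpow_one]
      have hq1 : (1 : ℝ) ≤ q := by exact_mod_cast hq
      have e2 : (q : ℝ) ^ (-(β - 1)) ≤ q := by
        calc (q : ℝ) ^ (-(β - 1)) ≤ (q : ℝ) ^ (1 : ℝ) :=
              Real.rpow_le_rpow_of_exponent_le hq1 (by linarith)
          _ = q := Real.rpow_one _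
      calc (x : ℝ) ^ β / x * (q : ℝ) ^ (-(β - 1)) ≤ (x : ℝ) ^ β / x * q :=
            mul_le_mul_of_nonneg_left e2 (by positivity)
        _ = q * (x : ℝ) ^ β * (x : ℝ)⁻¹ := by ring
    have hfin : (x : ℝ) ^ (-(1 - η)) = (x : ℝ) ^ η * (x : ℝ)⁻¹ := by
      rw [show -(1 - η) = η - 1 by ring, Real.rpow_sub hxpos, Real.rpow_one, div_eq_mul_inv]
    calc 4 * H ^ 3 * (H / (w1 κ z : ℝ)) ^ (β - 2)
        ≤ 4 * H ^ 3 * (H ^ (β - 2) * (w1 κ z : ℝ) ^ 2) :=
          mul_le_mul_of_nonneg_left hpow (by positivity)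
      _ = H ^ 2 * (4 * (w1 κ z : ℝ) ^ 2 * (H * H ^ (β - 2))) := by ring
      _ ≤ H ^ 2 * (4 * (w1 κ z : ℝ) ^ 2 * (q * (x : ℝ) ^ β * (x : ℝ)⁻¹)) := by
          apply mul_le_mul_of_nonneg_left _ (by positivity)
          exact mul_le_mul_of_nonneg_left hHβ (by positivity)
      _ = H ^ 2 * ((4 * q * (w1 κ z : ℝ) ^ 2 * (x : ℝ) ^ β) * (x : ℝ)⁻¹) := by ring
      _ ≤ H ^ 2 * ((x : ℝ) ^ η * (x : ℝ)⁻¹) := by
          apply mul_le_mul_of_nonneg_left _ (by positivity)
          exact mul_le_mul_of_nonneg_right hkey (by positivity)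
      _ = H ^ 2 * (x : ℝ) ^ (-(1 - η)) := by rw [hfin]

end Pool.Agent.Work.MP_b0c12c_nt_shift
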