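import Pool.Agent.Work.MP_b0c12c_nt_shift.WSCL

/-! Block Q2: the squares of the survival probabilities. -/

set_option autoImplicit false

namespace Pool.Agent.Work.MP_b0c12c_nt_shift

open Finset

theorem gw_sq (π : ℕ → ℤ → ℝ) {p : ℕ} (hp : 6 < p) (n : ℕ) :
    gw π p n ^ 2 = lw (fun _ => sgn) (fun p s => 1 - (1 - π p s) ^ 2) p n := by
  classical
  have hd : ∀ s t : ℤ, |s - t| ≤ 2 → s ≠ t → cl p s n → ¬ cl p t n := by
    intro s t hst hne h1 h2
    apply hne
    apply cl_disj h1 h2
    have : (6 : ℤ) < p := by exact_mod_cast hp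
    linarith
  have e : gw π p n = 1 - ∑ s ∈ sgn, if cl p s n then π p s else 0 := by
    unfold gw cl
    congr 1
    apply sum_congr rfl
    intro s _
    congr
  have hs : ∀ f : ℤ → ℝ, ∑ s ∈ sgn, f s = f (-1) + f 0 + f 1 := by
    intro f
    unfold sgn
    rw [sum_insert (by decide), sum_insert (by decide), sum_singleton]
    ring
  rw [e]
  unfold lw
  simp only [hs]
  by_cases h0 : cl p 0 n
  · have h1 := hd 0 1 (by norm_num) (by norm_num) h0
    have h2 := hd 0 (-1) (by norm_num) (by norm_num) h0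
    simp only [h0, h1, h2, if_true, if_false]
    ring
  · by_cases h1 : cl p 1 n
    · have h2 := hd 1 (-1) (by norm_num) (by norm_num) h1
      simp only [h0, h1, h2, if_true, if_false]
      ring
    · by_cases h2 : cl p (-1) n
      · simp only [h0, h1, h2, if_true, if_false]
        ring
      · simp only [h0, h1, h2, if_false]
        ring

theorem stmt_Q2 (hWS : Stmt_WS) (hMT : Stmt_MT) : Stmt_Q2 := by
  classical
  intro π c₁ c₂ hL δ hδ κ hκ hκ1 B hB
  obtain ⟨C, hC, D, hD2, hws⟩ := ws_cl hWS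
  obtain ⟨C2, hC2, hmer⟩ := Pool.Agent.Work.MP_b0c12c_nt_helper41.mertens2
  obtain ⟨zs, hzs16, hscale⟩ := scale D hD2 κ hκ
  have hD' : (2 : ℝ) ≤ D := by exact_mod_cast hD2
  have hc1 := hL.c1_pos
  -- the required mass
  set C' : ℝ := C * Real.exp C2 * (4 * D) with hC'
  have hC'pos : 0 < C' := by positivity
  set m : ℝ := Real.log (C' / δ) / (2 * c₁) with hm
  obtain ⟨z1, hz1⟩ := hMT.2.1 κ hκ hκ1 B hB m
  obtain ⟨P1, hP1⟩ := hL.low
  obtain ⟨P2, hP2⟩ := hL.high
  -- small mass
  have hll : ∃ z2 : ℕ, ∀ p : ℕ, z2 ≤ p → 4 * c₂ ≤ Real.log (Real.log p) ∧ 0 < Real.log (Real.log p) := by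
    have h1 : Filter.Tendsto (fun p : ℕ => Real.log (Real.log (p : ℝ))) Filter.atTop Filter.atTop :=
      Real.tendsto_log_atTop.comp (Real.tendsto_log_atTop.comp tendsto_natCast_atTop_atTop)
    obtain ⟨z2, hz2⟩ := Filter.eventually_atTop.mp
      ((h1.eventually_ge_atTop (4 * c₂)).and (h1.eventually_gt_atTop 0))
    exact ⟨z2, fun p hp => hz2 p hp⟩
  obtain ⟨z2, hz2⟩ := hll
  refine ⟨zs + z1 + P1 + P2 + z2, ?_⟩
  intro z hz p0 _ x hx v hv a S hS
  obtain ⟨hw1, hWq, hW3, hWW, hlogW, hzW, hlx⟩ := hscale z (by omega) x hx p0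
  set A : Finset ℕ := AA κ B z p0 with hA
  set q : ℕ := qq z p0 with hq
  set P : Finset ℕ := (Ioc z (W0 D x)).filter Nat.Prime with hP
  have hAP : A ⊆ P := by
    intro p hp
    obtain ⟨h1, h2, -, h3, -⟩ := mem_AA hB hp
    rw [hP, mem_filter, mem_Ioc]
    exact ⟨⟨h2, h3.trans hw1⟩, h1⟩
  set T : ℕ → Finset ℤ := fun p => if p ∈ A then sgn else {v p} with hT
  set w : ℕ → ℤ → ℝ := fun p s => if p ∈ A then 1 - (1 - π p s) ^ 2 else 1 with hw
  have hs : ∀ f : ℤ → ℝ, ∑ s ∈ sgn, f s = f (-1) + f 0 + f 1 := by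
    intro f
    unfold sgn
    rw [sum_insert (by decide), sum_insert (by decide), sum_singleton]
    ring
  have hsg : ∀ s ∈ sgn, -3 ≤ s ∧ s ≤ 3 := by
    intro s hs
    unfold sgn at hs
    rw [mem_insert, mem_insert, mem_singleton] at hs
    omega
  have hπ1 : ∀ p s, s ∈ sgn → π p s ≤ 1 := by
    intro p s hs'
    have h1 := hL.sum_one p
    have h2 := hL.nonneg p (-1)
    have h3 := hL.nonneg p 0
    have h4 := hL.nonneg p 1
    unfold sgn at hs'
    rw [mem_insert, mem_insert, mem_singleton] at hs'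
    rcases hs' with rfl | rfl | rfl <;> linarith
  have hmain := hws q a x (W0 D x) P T w (qq_pos z p0) hW3
    (fun p hp => by
      rw [hP, mem_filter, mem_Ioc] at hp
      exact ⟨hp.2, by omega, hp.1.2, coprime_qq p0 hp.2 hp.1.1⟩) hWq
    (fun p hp => by
      by_cases hpA : p ∈ A
      · have e1 : T p = sgn := by rw [hT]; simp only [hpA, if_true]
        rw [e1]
        refine ⟨by decide, ?_⟩
        intro s hs'
        refine ⟨(hsg s hs').1, (hsg s hs').2, ?_⟩
        have e2 : w p s = 1 - (1 - π p s) ^ 2 := by rw [hw]; simp only [hpA, if_true]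
        rw [e2]
        have h1 := hπ1 p s hs'
        have h2 := hL.nonneg p s
        constructor
        · nlinarith
        · nlinarith
      · have e1 : T p = {v p} := by rw [hT]; simp only [hpA, if_false]
        rw [e1]
        refine ⟨by simp, ?_⟩
        intro s hs'
        rw [mem_singleton] at hs'
        rw [hs']
        refine ⟨(hsg _ (hv p)).1, (hsg _ (hv p)).2, ?_⟩
        have e2 : w p (v p) = 1 := by rw [hw]; simp only [hpA, if_false]
        rw [e2]
        norm_num)
    S (fun n hn => ⟨(hS n hn).1, (hS n hn).2.1⟩)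
  -- the left side
  have hleft : ∑ n ∈ S, Wt π A n ^ 2 = ∑ n ∈ S, ∏ p ∈ P, lw T w p n := by
    apply sum_congr rfl
    intro n hn
    rw [← prod_sdiff hAP]
    have h1 : ∏ p ∈ P \ A, lw T w p n = 1 := by
      apply prod_eq_one
      intro p hp
      rw [mem_sdiff] at hp
      obtain ⟨hpP, hpA⟩ := hp
      rw [hP, mem_filter, mem_Ioc] at hpP
      have e1 : T p = {v p} := by rw [hT]; simp only [hpA, if_false]
      unfold lw
      rw [e1, sum_singleton, if_neg, sub_zero]
      exact (hS n hn).2.2 p hpP.2 (le_trans (Nat.mul_le_mul hpP.1.2 hpP.1.2) hWW) hpA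
    rw [h1, one_mul]
    unfold Wt
    rw [← prod_pow]
    apply prod_congr rfl
    intro p hp
    have h2 := mem_AA hB hp
    rw [gw_sq π (by omega) n]
    unfold lw
    have e1 : T p = sgn := by rw [hT]; simp only [hp, if_true]
    rw [e1]
    congr 1
    apply sum_congr rfl
    intro s _
    have e2 : w p s = 1 - (1 - π p s) ^ 2 := by rw [hw]; simp only [hp, if_true]
    rw [e2]
  rw [hleft]
  refine hmain.trans ?_
  -- the exponent
  have hexpo : ∑ p ∈ P, 1 / (p : ℝ) + ∑ p ∈ A, ep π p / p ≤ ∑ p ∈ P, (∑ s ∈ T p, w p s) / p := by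
    have h1 : ∑ p ∈ A, ep π p / p = ∑ p ∈ P, if p ∈ A then ep π p / p else 0 := by
      rw [← sum_filter]
      congr 1
      ext p
      rw [mem_filter]
      exact ⟨fun h => ⟨hAP h, h⟩, fun h => h.2⟩
    rw [h1, ← sum_add_distrib]
    apply sum_le_sum
    intro p hp
    have hpp : (0 : ℝ) < p := by
      rw [hP, mem_filter] at hp
      exact_mod_cast hp.2.pos
    by_cases hpA : p ∈ A
    · rw [if_pos hpA, ← add_div]
      apply div_le_div_of_nonneg_right _ hpp.le
      have e1 : T p = sgn := by rw [hT]; simp only [hpA, if_true]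
      have e2 : ∀ s, w p s = 1 - (1 - π p s) ^ 2 := by
        intro s; rw [hw]; simp only [hpA, if_true]
      rw [e1, hs]
      simp only [e2]
      obtain ⟨g1, g2, -⟩ := mem_AA hB hpA
      have g3 := hP2 p g1 (by omega)
      have g4 := hz2 p (by omega)
      have g5 : c₂ / Real.log (Real.log p) ≤ 1 / 4 := by
        rw [div_le_iff₀ g4.2]
        linarith [g4.1]
      have h2 := hL.sum_one p
      have h3 := hL.nonneg p (-1)
      have h4 := hL.nonneg p 0
      have h5 := hL.nonneg p 1
      have h6 : π p 0 = 1 - (π p (-1) + π p 1) := by linarith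
      unfold ep
      rw [h6]
      nlinarith [mul_nonneg h3 h5]
    · rw [if_neg hpA, add_zero]
      have e1 : T p = {v p} := by rw [hT]; simp only [hpA, if_false]
      have e2 : w p (v p) = 1 := by rw [hw]; simp only [hpA, if_false]
      rw [e1, sum_singleton, e2]
  have hmass : 2 * c₁ * m ≤ ∑ p ∈ A, ep π p / p := by
    have h1 := hz1 z p0 (by omega)
    have h2 : 2 * c₁ * ∑ p ∈ A, 1 / ((p : ℝ) * Real.log (Real.log p)) ≤ ∑ p ∈ A, ep π p / p := by
      rw [mul_sum]
      apply sum_le_sum
      intro p hp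
      obtain ⟨g1, g2, -⟩ := mem_AA hB hp
      obtain ⟨g3, g4⟩ := hP1 p g1 (by omega)
      have g5 := (hz2 p (by omega)).2
      have hpp : (0 : ℝ) < p := by exact_mod_cast g1.pos
      unfold ep
      have g6 : 2 * c₁ * (1 / ((p : ℝ) * Real.log (Real.log p))) =
          (c₁ / Real.log (Real.log p) + c₁ / Real.log (Real.log p)) / p := by
        field_simp
        norm_num
      rw [g6]
      apply div_le_div_of_nonneg_right _ hpp.le
      linarith
    refine le_trans ?_ h2
    exact mul_le_mul_of_nonneg_left h1 (by positivity)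
  have hlz : 1 ≤ Real.log z := by
    have h1 : (3 : ℝ) ≤ z := by exact_mod_cast (by omega : 3 ≤ z)
    have h2 : Real.exp 1 ≤ z := by
      have := Real.exp_one_lt_d9
      linarith
    have := Real.log_le_log (Real.exp_pos _) h2
    rwa [Real.log_exp] at this
  have hlW : 0 < Real.log (W0 D x) := by
    refine lt_of_lt_of_le ?_ hlogW
    positivity
  have hsumP : Real.log (Real.log (W0 D x)) - Real.log (Real.log z) - C2 ≤ ∑ p ∈ P, 1 / (p : ℝ) := by
    have h1 := (abs_le.mp (hmer z (W0 D x) (by omega) hzW.le)).1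
    have h2 : C2 / Real.log z ≤ C2 := div_le_self hC2.le hlz
    linarith
  have hexp : Real.exp (-∑ p ∈ P, (∑ s ∈ T p, w p s) / p) ≤
      Real.exp C2 * (4 * D) * (Real.log z / Real.log x) * (δ / C') := by
    calc Real.exp (-∑ p ∈ P, (∑ s ∈ T p, w p s) / p)
        ≤ Real.exp (C2 + Real.log (Real.log z) + -Real.log (Real.log (W0 D x)) + -(2 * c₁ * m)) := by
          apply Real.exp_le_exp.mpr
          linarith
      _ = Real.exp C2 * Real.log z * (Real.log (W0 D x))⁻¹ * (δ / C') := by
          rw [Real.exp_add, Real.exp_add, Real.exp_add, Real.exp_log (by linarith), Real.exp_neg,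
            Real.exp_log hlW]
          congr 1
          rw [hm, mul_div_cancel₀ _ (by positivity), Real.exp_neg,
            Real.exp_log (by positivity), inv_div]
      _ ≤ Real.exp C2 * Real.log z * (Real.log x / (4 * D))⁻¹ * (δ / C') := by
          gcongr
      _ = _ := by
          rw [inv_div]
          ring
  have hqpos : (0 : ℝ) < q := by exact_mod_cast qq_pos z p0
  calc C * ((x : ℝ) / q) * Real.exp (-∑ p ∈ P, (∑ s ∈ T p, w p s) / p)
      ≤ C * ((x : ℝ) / q) * (Real.exp C2 * (4 * D) * (Real.log z / Real.log x) * (δ / C')) := by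
        gcongr
    _ = (C' * (δ / C')) * ((x : ℝ) * Real.log z / (q * Real.log x)) := by
        rw [hC']
        field_simp
    _ = δ * ((x : ℝ) * Real.log z / (q * Real.log x)) := by
        rw [mul_div_cancel₀ _ hC'pos.ne']

end Pool.Agent.Work.MP_b0c12c_nt_shift
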