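import Pool.Agent.Work.MP_b0c12c_nt_shift.WSAP

/-! Tools for the blocks Q2, H1, H2: the weighted sieve with at most three special classes per
prime, and the sizes of the parameters. -/

set_option autoImplicit false

namespace Pool.Agent.Work.MP_b0c12c_nt_shift

open Finset

/-- the class `s` modulo `p` -/
def cl (p : ℕ) (s : ℤ) (n : ℕ) : Prop := (p : ℤ) ∣ (n : ℤ) - s

theorem cl_congr {p : ℕ} (s : ℤ) {n m : ℕ} (h : n ≡ m [MOD p]) : cl p s n ↔ cl p s m := by
  unfold cl
  have h1 : (p : ℤ) ∣ (m : ℤ) - n := by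
    rw [← Nat.modEq_iff_dvd]
    exact h
  constructor
  · intro h2
    have : (m : ℤ) - s = ((m : ℤ) - n) + (n - s) := by ring
    rw [this]
    exact dvd_add h1 h2
  · intro h2
    have : (n : ℤ) - s = (m - s) - ((m : ℤ) - n) := by ring
    rw [this]
    exact dvd_sub h2 h1

theorem cl_disj {p : ℕ} {s t : ℤ} {n : ℕ} (h1 : cl p s n) (h2 : cl p t n)
    (hst : |s - t| < p) : s = t := by
  have h3 : (p : ℤ) ∣ s - t := by
    have : s - t = (n - t) - (n - s) := by ring
    rw [this]
    exact dvd_sub h2 h1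
  have h4 := Int.eq_zero_of_abs_lt_dvd h3 hst
  linarith

open Classical in
theorem cl_card {p : ℕ} (hp : 0 < p) (s : ℤ) :
    ∑ c ∈ range p, (if cl p s c then (1 : ℝ) else 0) = 1 := by
  have hp' : (0 : ℤ) < p := by exact_mod_cast hp
  set r : ℕ := (s % (p : ℤ)).toNat with hr
  have hr0 : 0 ≤ s % (p : ℤ) := Int.emod_nonneg _ hp'.ne'
  have hrs : (r : ℤ) = s % (p : ℤ) := Int.toNat_of_nonneg hr0
  have hrp : r < p := by
    have := Int.emod_lt_of_pos s hp'
    rw [← hrs] at this
    exact_mod_cast this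
  have hclr : cl p s r := by
    unfold cl
    rw [hrs]
    have : s % (p : ℤ) - s = -(p * (s / p)) := by
      have := Int.emod_add_mul_ediv s p
      linarith
    rw [this]
    exact (dvd_mul_right _ _).neg_right
  have h1 : ∀ c ∈ range p, (cl p s c ↔ c = r) := by
    intro c hc
    rw [mem_range] at hc
    constructor
    · intro h2
      unfold cl at h2 hclr
      have h3 : (p : ℤ) ∣ (c : ℤ) - r := by
        have : (c : ℤ) - r = (c - s) - (r - s) := by ring
        rw [this]
        exact dvd_sub h2 hclr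
      have h4 := Int.eq_zero_of_abs_lt_dvd h3 (by rw [abs_lt]; constructor <;> omega)
      omega
    · rintro rfl
      exact hclr
  rw [sum_congr rfl fun c hc => by rw [if_congr (h1 c hc) rfl rfl]]
  rw [sum_ite_eq' (range p) r, if_pos (mem_range.mpr hrp)]

open Classical in
/-- the local weight: `1 - w p s` on the class `s ∈ T` -/
noncomputable def lw (T : ℕ → Finset ℤ) (w : ℕ → ℤ → ℝ) (p n : ℕ) : ℝ :=
  1 - ∑ s ∈ T p, if cl p s n then w p s else 0

/-- The weighted sieve with at most three special classes per prime. -/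
theorem ws_cl (hWS : Stmt_WS) : ∃ C : ℝ, 0 < C ∧ ∃ D : ℕ, 2 ≤ D ∧
    ∀ (q a x W : ℕ) (P : Finset ℕ) (T : ℕ → Finset ℤ) (w : ℕ → ℤ → ℝ), 0 < q → 3 ≤ W →
    (∀ p ∈ P, p.Prime ∧ 6 < p ∧ p ≤ W ∧ p.Coprime q) → W ^ D * q ≤ x →
    (∀ p ∈ P, (T p).card ≤ 3 ∧ ∀ s ∈ T p, -3 ≤ s ∧ s ≤ 3 ∧ 0 ≤ w p s ∧ w p s ≤ 1) →
    ∀ S : Finset ℕ, (∀ n ∈ S, n ∈ Ioc x (2 * x) ∧ n ≡ a [MOD q]) →
      ∑ n ∈ S, ∏ p ∈ P, lw T w p n ≤
        C * (x / q) * Real.exp (-∑ p ∈ P, (∑ s ∈ T p, w p s) / p) := by
  classical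
  obtain ⟨C, hC, D, hD2, hD⟩ := ws_ap hWS 3 (by norm_num)
  refine ⟨C, hC, D, hD2, ?_⟩
  intro q a x W P T w hq hW hP hx hT S hS
  -- at most one term
  have hone : ∀ p ∈ P, ∀ n, lw T w p n = 1 ∨ ∃ s ∈ T p, cl p s n ∧ lw T w p n = 1 - w p s := by
    intro p hp n
    by_cases h : ∃ s ∈ T p, cl p s n
    · obtain ⟨s, hs, hsn⟩ := h
      right
      refine ⟨s, hs, hsn, ?_⟩
      unfold lw
      congr 1
      rw [sum_eq_single s]
      · rw [if_pos hsn]
      · intro t ht hts
        rw [if_neg]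
        intro htn
        apply hts
        apply cl_disj htn hsn
        obtain ⟨-, h1⟩ := hT p hp
        obtain ⟨h2, h3, -⟩ := h1 s hs
        obtain ⟨h4, h5, -⟩ := h1 t ht
        have h6 : (6 : ℤ) < p := by exact_mod_cast (hP p hp).2.1
        rw [abs_lt]
        constructor <;> linarith
      · intro h1
        exact absurd hs h1
    · left
      push_neg at h
      unfold lw
      rw [sum_eq_zero]
      · ring
      · intro s hs
        rw [if_neg (h s hs)]
  have h01 : ∀ p ∈ P, ∀ n, 0 ≤ lw T w p n ∧ lw T w p n ≤ 1 := by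
    intro p hp n
    rcases hone p hp n with h | ⟨s, hs, -, h⟩
    · rw [h]; norm_num
    · rw [h]
      obtain ⟨-, h1⟩ := hT p hp
      obtain ⟨-, -, h2, h3⟩ := h1 s hs
      constructor <;> linarith
  have hsum : ∀ p ∈ P, ∑ c ∈ range p, lw T w p c = p - ∑ s ∈ T p, w p s := by
    intro p hp
    unfold lw
    rw [sum_sub_distrib, sum_const, card_range, nsmul_eq_mul, mul_one]
    congr 1
    rw [sum_comm]
    apply sum_congr rfl
    intro s _
    have h1 : ∀ c ∈ range p, (if cl p s c then w p s else 0) =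
        w p s * (if cl p s c then (1 : ℝ) else 0) := by
      intro c _
      split_ifs <;> simp
    rw [sum_congr rfl h1, ← mul_sum, cl_card (hP p hp).1.pos, mul_one]
  have h1 := hD q a x W P (lw T w) hq hW
    (fun p hp => ⟨(hP p hp).1, (by have := (hP p hp).2.1; omega), (hP p hp).2.2⟩) hx h01
    (fun p hp n m hnm => by
      unfold lw
      congr 1
      apply sum_congr rfl
      intro s _
      rw [if_congr (cl_congr s hnm) rfl rfl])
    (fun p hp => by
      have h2 : (range p).filter (fun c => lw T w p c ≠ 1) ⊆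
          (T p).biUnion fun s => (range p).filter fun c => cl p s c := by
        intro c hc
        rw [mem_filter] at hc
        rw [mem_biUnion]
        rcases hone p hp c with h | ⟨s, hs, h3, -⟩
        · exact absurd h hc.2
        · exact ⟨s, hs, mem_filter.mpr ⟨hc.1, h3⟩⟩
      refine (card_le_card h2).trans (card_biUnion_le.trans ?_)
      have h3 : ∀ s ∈ T p, ((range p).filter fun c => cl p s c).card = 1 := by
        intro s _
        have := cl_card (hP p hp).1.pos s
        rw [sum_boole] at this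
        exact_mod_cast this
      rw [sum_congr rfl h3, sum_const, smul_eq_mul, mul_one]
      exact (hT p hp).1) S hS
  refine h1.trans ?_
  apply mul_le_mul_of_nonneg_left _ (by positivity)
  rw [← sum_neg_distrib, Real.exp_sum]
  apply prod_le_prod
  · intro p hp
    exact div_nonneg (sum_nonneg fun c _ => (h01 p hp c).1) (Nat.cast_nonneg _)
  · intro p hp
    rw [hsum p hp]
    have hp0 : (0 : ℝ) < p := by exact_mod_cast (hP p hp).1.pos
    rw [sub_div, div_self hp0.ne']
    have := Real.add_one_le_exp (-((∑ s ∈ T p, w p s) / p))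
    linarith

/-! ### the parameters -/

theorem qq_pos (z p0 : ℕ) : 0 < qq z p0 := by
  unfold qq
  apply prod_pos
  intro p hp
  exact (mem_filter.mp (mem_of_mem_erase hp)).2.pos

theorem qq_le (z p0 : ℕ) : qq z p0 ≤ 4 ^ z := by
  refine le_trans ?_ (primorial_le_four_pow z)
  unfold qq primorial
  apply prod_le_prod_of_subset_of_one_le'
  · intro p hp
    have h1 := mem_filter.mp (mem_of_mem_erase hp)
    rw [mem_Icc] at h1
    rw [mem_filter, mem_range]
    exact ⟨by omega, h1.2⟩
  · intro p hp _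
    exact (mem_filter.mp hp).2.one_lt.le

theorem coprime_qq {z p : ℕ} (p0 : ℕ) (hp : p.Prime) (hz : z < p) : p.Coprime (qq z p0) := by
  unfold qq
  apply Nat.Coprime.prod_right
  intro r hr
  have h1 := mem_filter.mp (mem_of_mem_erase hr)
  rw [mem_Icc] at h1
  rw [Nat.coprime_primes hp h1.2]
  omega

theorem mem_AA {κ : ℝ} {B z p0 p : ℕ} (hB : 2 ≤ B) (h : p ∈ AA κ B z p0) :
    p.Prime ∧ z < p ∧ z ^ 2 < p ∧ p ≤ w1 κ z ∧ p ≠ p0 := by
  unfold AA at h
  rw [mem_erase, mem_filter, mem_Ioc] at h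
  obtain ⟨h1, ⟨h2, h3⟩, h4⟩ := h
  rcases Nat.eq_zero_or_pos z with rfl | hz
  · refine ⟨h4, h4.pos, ?_, h3, h1⟩
    simpa using h4.pos
  · have h5 : z ^ 2 ≤ z ^ B := Nat.pow_le_pow_right hz hB
    have h6 : z ≤ z ^ 2 := Nat.le_self_pow (by norm_num) z
    exact ⟨h4, by omega, by omega, h3, h1⟩

/-- the level at scale `x` -/
noncomputable def W0 (D x : ℕ) : ℕ := ⌊Real.exp (Real.log x / (2 * D))⌋₊

/-- sizes -/
theorem scale (D : ℕ) (hD : 2 ≤ D) (κ : ℝ) (hκ : 0 < κ) : ∃ z0 : ℕ, 16 ≤ z0 ∧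
    ∀ z : ℕ, z0 ≤ z → ∀ x : ℕ, InR κ z x → ∀ p0 : ℕ,
      w1 κ z ≤ W0 D x ∧ W0 D x ^ D * qq z p0 ≤ x ∧ 3 ≤ W0 D x ∧ W0 D x * W0 D x ≤ x ∧
      Real.log x / (4 * D) ≤ Real.log (W0 D x) ∧ z < W0 D x ∧ 0 < Real.log x := by
  have hD' : (2 : ℝ) ≤ D := by exact_mod_cast hD
  obtain ⟨z1, hz1⟩ := Filter.eventually_atTop.mp
    (((tendsto_rpow_atTop hκ).comp tendsto_natCast_atTop_atTop).eventually_ge_atTop (4 * (D : ℝ)))
  refine ⟨max z1 16, le_max_right _ _, ?_⟩
  intro z hz x hx p0
  have hzz : 16 ≤ z := le_trans (le_max_right _ _) hz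
  have hz0 : (0 : ℝ) < z := by exact_mod_cast (by omega : 0 < z)
  have hz16 : (16 : ℝ) ≤ z := by exact_mod_cast hzz
  have hzk : 4 * (D : ℝ) ≤ (z : ℝ) ^ κ := hz1 z (le_trans (le_max_left _ _) hz)
  have h1 : (z : ℝ) ^ (1 + κ) = z * (z : ℝ) ^ κ := by
    rw [Real.rpow_add hz0, Real.rpow_one]
  have hlx : 4 * (D : ℝ) * z ≤ Real.log x := by
    have := hx.1
    rw [h1] at this
    nlinarith
  have hl0 : 0 < Real.log x := by nlinarith
  have hx0 : (0 : ℝ) < x := by
    rcases Nat.eq_zero_or_pos x with rfl | h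
    · simp at hl0
    · exact_mod_cast h
  set L : ℝ := Real.log x / (2 * D) with hL
  have hL2 : 2 * (z : ℝ) ≤ L := by
    rw [hL, le_div_iff₀ (by positivity)]
    linarith
  have hW0le : (W0 D x : ℝ) ≤ Real.exp L := Nat.floor_le (Real.exp_pos _).le
  have hW0ge : Real.exp (L / 2) ≤ W0 D x := by
    have h2 : Real.exp L - 1 < (W0 D x : ℝ) := Nat.sub_one_lt_floor _
    have h3 : Real.exp L = Real.exp (L / 2) * Real.exp (L / 2) := by
      rw [← Real.exp_add]; congr 1; ring
    have h4 : (2 : ℝ) ≤ Real.exp (L / 2) := by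
      have := Real.add_one_le_exp (L / 2)
      linarith
    nlinarith
  have hzW : (z : ℝ) < W0 D x := by
    have := Real.add_one_le_exp (L / 2)
    linarith
  refine ⟨?_, ?_, ?_, ?_, ?_, by exact_mod_cast hzW, hl0⟩
  · unfold w1 W0
    apply Nat.floor_le_floor
    apply Real.exp_le_exp.mpr
    rw [← hL]
    have h2 : (z : ℝ) ^ (1 - κ) ≤ z := by
      calc (z : ℝ) ^ (1 - κ) ≤ (z : ℝ) ^ (1 : ℝ) :=
            Real.rpow_le_rpow_of_exponent_le (by linarith) (by linarith)
        _ = z := Real.rpow_one _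
    linarith
  · have h2 : ((W0 D x ^ D * qq z p0 : ℕ) : ℝ) ≤ x := by
      push_cast
      have h3 : (W0 D x : ℝ) ^ D ≤ Real.exp (Real.log x / 2) := by
        calc (W0 D x : ℝ) ^ D ≤ Real.exp L ^ D := by gcongr
          _ = Real.exp (D * L) := by rw [← Real.exp_nat_mul]
          _ = Real.exp (Real.log x / 2) := by
            congr 1
            rw [hL]
            field_simp
      have h4 : (qq z p0 : ℝ) ≤ Real.exp (Real.log x / 2) := by
        calc (qq z p0 : ℝ) ≤ ((4 ^ z : ℕ) : ℝ) := by exact_mod_cast qq_le z p0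
          _ = (4 : ℝ) ^ z := by push_cast; rfl
          _ = Real.exp (z * Real.log 4) := by
            rw [Real.exp_nat_mul, Real.exp_log (by norm_num)]
          _ ≤ Real.exp (Real.log x / 2) := by
            apply Real.exp_le_exp.mpr
            have h5 : Real.log 4 ≤ 2 := by
              have := Real.log_two_lt_d9
              have h6 : Real.log 4 = 2 * Real.log 2 := by
                rw [show (4 : ℝ) = 2 ^ 2 by norm_num, Real.log_pow]; push_cast; rfl
              linarith
            nlinarith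
      calc (W0 D x : ℝ) ^ D * (qq z p0 : ℝ) ≤ Real.exp (Real.log x / 2) * Real.exp (Real.log x / 2) := by
            gcongr
        _ = x := by
          rw [← Real.exp_add, add_halves, Real.exp_log hx0]
    exact_mod_cast h2
  · have : (3 : ℝ) ≤ W0 D x := by linarith
    exact_mod_cast this
  · have h2 : ((W0 D x * W0 D x : ℕ) : ℝ) ≤ x := by
      push_cast
      calc (W0 D x : ℝ) * W0 D x ≤ Real.exp L * Real.exp L := by gcongr
        _ = Real.exp (2 * L) := by rw [← Real.exp_add]; congr 1; ring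
        _ ≤ Real.exp (Real.log x) := by
          apply Real.exp_le_exp.mpr
          rw [hL, mul_div_assoc', div_le_iff₀ (by positivity)]
          nlinarith
        _ = x := Real.exp_log hx0
    exact_mod_cast h2
  · have h2 := Real.log_le_log (Real.exp_pos _) hW0ge
    rw [Real.log_exp] at h2
    refine le_trans (le_of_eq ?_) h2
    rw [hL]
    field_simp
    norm_num

end Pool.Agent.Work.MP_b0c12c_nt_shift
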