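import Mathlib
import Pool.Agent.Work.MP_b0c12c_nt_shift.Interface
import Pool.Agent.Work.MP_484fb8_nt.Selberg
import Pool.Agent.Work.MP_b0c12c_nt_helper41.Mert

/-!
# Block WS, part 1: Selberg's sieve with weights `g p c ∈ [0, 1]` on the classes
-/

set_option autoImplicit false

open Finset Nat ArithmeticFunction BoundingSieve
open Pool.Agent.Work.MP_484fb8_nt (GSum selberg_upper_bound)

namespace Pool.Agent.Work.MP_b0c12c_nt_shift.WS

/-- CRT for two coprime moduli -/
theorem sum_range_mul {m p : ℕ} (hm : 0 < m) (hp : 0 < p) (h : m.Coprime p) (f g : ℕ → ℝ) :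
    ∑ c ∈ range (m * p), f (c % m) * g (c % p) = (∑ a ∈ range m, f a) * ∑ b ∈ range p, g b := by
  rw [sum_mul_sum, ← sum_product']
  symm
  refine sum_bij' (i := fun ab _ => (Nat.chineseRemainder h ab.1 ab.2 : ℕ))
    (j := fun c _ => (c % m, c % p)) ?_ ?_ ?_ ?_ ?_
  · intro ab _
    rw [mem_range]
    exact Nat.chineseRemainder_lt_mul h ab.1 ab.2 hm.ne' hp.ne'
  · intro c _
    rw [mem_product, mem_range, mem_range]
    exact ⟨Nat.mod_lt _ hm, Nat.mod_lt _ hp⟩
  · rintro ⟨a, b⟩ hab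
    rw [mem_product, mem_range, mem_range] at hab
    have h1 := (Nat.chineseRemainder h a b).2
    refine Prod.ext ?_ ?_
    · have := h1.1
      simp only
      rw [this, Nat.mod_eq_of_lt hab.1]
    · have := h1.2
      simp only
      rw [this, Nat.mod_eq_of_lt hab.2]
  · intro c hc
    rw [mem_range] at hc
    have h1 := (Nat.chineseRemainder h (c % m) (c % p)).2
    have h2 : ((Nat.chineseRemainder h (c % m) (c % p) : ℕ)) ≡ c [MOD m * p] := by
      rw [← Nat.modEq_and_modEq_iff_modEq_mul h]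
      exact ⟨h1.1.trans (Nat.mod_modEq _ _), h1.2.trans (Nat.mod_modEq _ _)⟩
    have h3 := Nat.chineseRemainder_lt_mul h (c % m) (c % p) hm.ne' hp.ne'
    exact Nat.ModEq.eq_of_lt_of_lt h2 h3 hc
  · rintro ⟨a, b⟩ hab
    rw [mem_product, mem_range, mem_range] at hab
    have h1 := (Nat.chineseRemainder h a b).2
    have e1 : (Nat.chineseRemainder h a b : ℕ) % m = a := by
      rw [h1.1, Nat.mod_eq_of_lt hab.1]
    have e2 : (Nat.chineseRemainder h a b : ℕ) % p = b := by
      rw [h1.2, Nat.mod_eq_of_lt hab.2]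
    simp only [e1, e2]

/-- CRT: the mean of a product of periodic functions with distinct prime periods -/
theorem sum_range_prod (T : Finset ℕ) (hT : ∀ p ∈ T, p.Prime) (h : ℕ → ℕ → ℝ) :
    ∑ c ∈ range (∏ p ∈ T, p), ∏ p ∈ T, h p (c % p) = ∏ p ∈ T, ∑ c ∈ range p, h p c := by
  induction T using Finset.induction_on with
  | empty => simp
  | insert p T hp ih =>
    have hT' : ∀ q ∈ T, q.Prime := fun q hq => hT q (mem_insert_of_mem hq)
    have hpp : p.Prime := hT p (mem_insert_self _ _)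
    have hm : 0 < ∏ q ∈ T, q := Finset.prod_pos fun q hq => (hT' q hq).pos
    have hcop : (∏ q ∈ T, q).Coprime p := by
      rw [Nat.coprime_prod_left_iff]
      intro q hq
      exact (Nat.coprime_primes (hT' q hq) hpp).2 (fun e => hp (e ▸ hq))
    rw [prod_insert hp, prod_insert hp, ← ih hT', mul_comm p, mul_comm (∑ c ∈ range p, h p c),
      ← sum_range_mul hm hpp.pos hcop]
    apply sum_congr rfl
    intro c _
    rw [prod_insert hp, mul_comm]
    congr 1
    apply prod_congr rfl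
    intro q hq
    rw [Nat.mod_mod_of_dvd _ (dvd_prod_of_mem _ hq)]

/-- number of members of a class in an interval -/
theorem card_class (M N d v : ℕ) (hd : 0 < d) :
    |((#{m ∈ Ioc M (M + N) | m ≡ v [MOD d]} : ℕ) : ℝ) - N / d| ≤ 1 := by
  have h := Nat.Ioc_filter_modEq_card M (M + N) hd v
  have hd0 : (0 : ℚ) < d := by exact_mod_cast hd
  push_cast at h
  set A : ℚ := ((M : ℚ) + N - v) / d with hA
  set B : ℚ := ((M : ℚ) - v) / d with hB
  have hAB : A - B = N / d := by rw [hA, hB]; ring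
  have hHd : (0 : ℚ) ≤ N / d := by positivity
  have f1 := Int.floor_le A
  have f2 := Int.lt_floor_add_one A
  have f3 := Int.floor_le B
  have f4 := Int.lt_floor_add_one B
  have hmono : ⌊B⌋ ≤ ⌊A⌋ := Int.floor_le_floor (by linarith)
  rw [max_eq_left (by omega)] at h
  have hq : |((#{m ∈ Ioc M (M + N) | m ≡ v [MOD d]} : ℕ) : ℚ) - N / d| ≤ 1 := by
    have h' : ((#{m ∈ Ioc M (M + N) | m ≡ v [MOD d]} : ℕ) : ℚ) = (⌊A⌋ : ℚ) - ⌊B⌋ := by
      exact_mod_cast h
    rw [h', ← hAB, abs_le]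
    constructor <;> linarith
  have hr : ((|((#{m ∈ Ioc M (M + N) | m ≡ v [MOD d]} : ℕ) : ℚ) - N / d| : ℚ) : ℝ) ≤
      ((1 : ℚ) : ℝ) := by exact_mod_cast hq
  push_cast at hr
  exact hr

/-- sum of a nonnegative periodic function over an interval -/
theorem sum_periodic (M N d : ℕ) (hd : 0 < d) (F : ℕ → ℝ) (hF : ∀ c < d, 0 ≤ F c) :
    |∑ k ∈ Ioc M (M + N), F (k % d) - N / d * ∑ c ∈ range d, F c| ≤ ∑ c ∈ range d, F c := by
  have h1 : ∑ k ∈ Ioc M (M + N), F (k % d) =
      ∑ c ∈ range d, F c * (#{m ∈ Ioc M (M + N) | m ≡ c [MOD d]} : ℕ) := by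
    rw [← sum_fiberwise_of_maps_to (s := Ioc M (M + N)) (t := range d) (g := fun k => k % d)
      (fun k _ => mem_range.2 (Nat.mod_lt _ hd))]
    apply sum_congr rfl
    intro c hc
    rw [mem_range] at hc
    have h2 : (Ioc M (M + N)).filter (fun k => k % d = c) =
        (Ioc M (M + N)).filter (fun m => m ≡ c [MOD d]) := by
      apply filter_congr
      intro k _
      rw [Nat.ModEq, Nat.mod_eq_of_lt hc]
    rw [h2, card_eq_sum_ones, Nat.cast_sum, mul_sum]
    apply sum_congr rfl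
    intro k hk
    rw [mem_filter] at hk
    rw [hk.2, Nat.mod_eq_of_lt hc]
    simp
  rw [h1, mul_sum, ← sum_sub_distrib]
  refine (abs_sum_le_sum_abs _ _).trans (sum_le_sum fun c hc => ?_)
  rw [mem_range] at hc
  have h3 := card_class M N d c hd
  have h4 : F c * ((#{m ∈ Ioc M (M + N) | m ≡ c [MOD d]} : ℕ) : ℝ) - N / d * F c =
      F c * (((#{m ∈ Ioc M (M + N) | m ≡ c [MOD d]} : ℕ) : ℝ) - N / d) := by ring
  rw [h4, abs_mul, abs_of_nonneg (hF c hc)]
  calc F c * |((#{m ∈ Ioc M (M + N) | m ≡ c [MOD d]} : ℕ) : ℝ) - N / d| ≤ F c * 1 :=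
        mul_le_mul_of_nonneg_left h3 (hF c hc)
    _ = F c := mul_one _

/-- the density function -/
noncomputable def nuf (g : ℕ → ℕ → ℝ) (p : ℕ) : ℝ := (∑ c ∈ range p, (1 - g p c)) / p

/-- the weight of a squarefree number -/
noncomputable def wf (P : Finset ℕ) (g : ℕ → ℕ → ℝ) (M N n : ℕ) : ℝ :=
  ∑ k ∈ Ioc M (M + N), ∏ p ∈ P, if p ∣ n then |1 - g p (k % p)| else |g p (k % p)|

theorem prod_inj (P : Finset ℕ) (hP : ∀ p ∈ P, p.Prime) :
    Set.InjOn (fun T : Finset ℕ => ∏ p ∈ T, p) (P.powerset : Set (Finset ℕ)) := by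
  intro S hS T hT hST
  simp only [coe_powerset, Set.mem_preimage, Set.mem_powerset_iff, coe_subset] at hS hT
  have h1 := Nat.primeFactors_prod (s := S) fun p hp => hP p (hS hp)
  have h2 := Nat.primeFactors_prod (s := T) fun p hp => hP p (hT hp)
  simp only at hST
  rw [← h1, ← h2, hST]

theorem sqf (P : Finset ℕ) (hP : ∀ p ∈ P, p.Prime) : Squarefree (∏ p ∈ P, p) := by
  refine Finset.squarefree_prod_of_pairwise_isCoprime (fun p hp q hq hpq ↦ ?_)
    fun p hp ↦ (hP p hp).squarefree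
  simp only [Function.onFun, ← coprime_iff_isRelPrime]
  exact (coprime_primes (hP p hp) (hP q hq)).mpr hpq

/-- The sieve. -/
noncomputable def sv (P : Finset ℕ) (g : ℕ → ℕ → ℝ) (M N : ℕ) (hP : ∀ p ∈ P, p.Prime)
    (h0 : ∀ p ∈ P, 0 < nuf g p) (h1 : ∀ p ∈ P, nuf g p < 1) : BoundingSieve where
  support := P.powerset.image (fun T => ∏ p ∈ T, p)
  prodPrimes := ∏ p ∈ P, p
  prodPrimes_squarefree := sqf P hP
  weights := wf P g M N
  weights_nonneg := fun n => by
    unfold wf
    refine sum_nonneg fun k _ => prod_nonneg fun p _ => ?_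
    split_ifs <;> exact abs_nonneg _
  totalMass := N
  nu := ArithmeticFunction.prodPrimeFactors (nuf g)
  nu_mult := ArithmeticFunction.IsMultiplicative.prodPrimeFactors _
  nu_pos_of_prime := fun p hp hpd => by
    rw [ArithmeticFunction.prodPrimeFactors_apply hp.ne_zero, hp.primeFactors, prod_singleton]
    apply h0
    rw [Prime.dvd_finsetProd_iff hp.prime] at hpd
    obtain ⟨a, ha, hpa⟩ := hpd
    rw [(Nat.prime_dvd_prime_iff_eq hp (hP a ha)).1 hpa]
    exact ha
  nu_lt_one_of_prime := fun p hp hpd => by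
    rw [ArithmeticFunction.prodPrimeFactors_apply hp.ne_zero, hp.primeFactors, prod_singleton]
    apply h1
    rw [Prime.dvd_finsetProd_iff hp.prime] at hpd
    obtain ⟨a, ha, hpa⟩ := hpd
    rw [(Nat.prime_dvd_prime_iff_eq hp (hP a ha)).1 hpa]
    exact ha

section

variable {P : Finset ℕ} {g : ℕ → ℕ → ℝ} {M N : ℕ} (hP : ∀ p ∈ P, p.Prime)
    (h0 : ∀ p ∈ P, 0 < nuf g p) (h1 : ∀ p ∈ P, nuf g p < 1)
    (hg : ∀ p ∈ P, ∀ c < p, 0 ≤ g p c ∧ g p c ≤ 1)

include hP in
theorem dvd_prod_iff {T : Finset ℕ} (hT : T ⊆ P) {p : ℕ} (hp : p ∈ P) :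
    p ∣ ∏ q ∈ T, q ↔ p ∈ T := by
  constructor
  · intro h
    rw [Prime.dvd_finsetProd_iff (hP p hp).prime] at h
    obtain ⟨a, ha, hpa⟩ := h
    rw [(Nat.prime_dvd_prime_iff_eq (hP p hp) (hP a (hT ha))).1 hpa]
    exact ha
  · exact fun h => dvd_prod_of_mem _ h

include hP hg in
theorem wf_prod {T : Finset ℕ} (hT : T ⊆ P) :
    wf P g M N (∏ p ∈ T, p) = ∑ k ∈ Ioc M (M + N),
      (∏ p ∈ T, (1 - g p (k % p))) * ∏ p ∈ P \ T, g p (k % p) := by
  unfold wf
  apply sum_congr rfl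
  intro k _
  rw [← prod_sdiff hT, mul_comm]
  congr 1
  · apply prod_congr rfl
    intro p hp
    rw [if_pos ((dvd_prod_iff hP hT (hT hp)).2 hp), abs_of_nonneg]
    have := (hg p (hT hp) (k % p) (Nat.mod_lt _ (hP p (hT hp)).pos)).2
    linarith
  · apply prod_congr rfl
    intro p hp
    rw [mem_sdiff] at hp
    rw [if_neg (fun h => hp.2 ((dvd_prod_iff hP hT hp.1).1 h)), abs_of_nonneg]
    exact (hg p hp.1 (k % p) (Nat.mod_lt _ (hP p hp.1).pos)).1

include hP hg in
theorem multSum_prod {D : Finset ℕ} (hD : D ⊆ P) :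
    (sv P g M N hP h0 h1).multSum (∏ p ∈ D, p) =
      ∑ k ∈ Ioc M (M + N), ∏ p ∈ D, (1 - g p (k % p)) := by
  unfold multSum sv
  simp only
  rw [sum_image (prod_inj P hP)]
  have e1 : ∀ T ∈ P.powerset, (if (∏ p ∈ D, p) ∣ ∏ p ∈ T, p then wf P g M N (∏ p ∈ T, p) else 0) =
      ∑ k ∈ Ioc M (M + N), if D ⊆ T then (∏ p ∈ T, (1 - g p (k % p))) *
        ∏ p ∈ P \ T, g p (k % p) else 0 := by
    intro T hT
    rw [mem_powerset] at hT
    have e2 : (∏ p ∈ D, p) ∣ ∏ p ∈ T, p ↔ D ⊆ T := by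
      constructor
      · intro h p hp
        exact (dvd_prod_iff hP hT (hD hp)).1 ((dvd_prod_of_mem _ hp).trans h)
      · exact fun h => prod_dvd_prod_of_subset _ _ _ h
    by_cases h : D ⊆ T
    · simp only [e2, h, if_true]
      exact wf_prod hP hg hT
    · simp only [e2, h, if_false, sum_const_zero]
  rw [sum_congr rfl e1, sum_comm]
  apply sum_congr rfl
  intro k _
  rw [← sum_filter]
  -- the sets `T` with `D ⊆ T ⊆ P` are the `D ∪ T'`
  have e3 : ∑ T ∈ P.powerset.filter (fun T => D ⊆ T), (∏ p ∈ T, (1 - g p (k % p))) *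
      ∏ p ∈ P \ T, g p (k % p) =
      ∑ T ∈ (P \ D).powerset, (∏ p ∈ D, (1 - g p (k % p))) *
        ((∏ p ∈ T, (1 - g p (k % p))) * ∏ p ∈ (P \ D) \ T, g p (k % p)) := by
    symm
    refine sum_bij' (i := fun T _ => D ∪ T) (j := fun T _ => T \ D) ?_ ?_ ?_ ?_ ?_
    · intro T hT
      rw [mem_powerset] at hT
      rw [mem_filter, mem_powerset]
      exact ⟨union_subset hD (hT.trans sdiff_subset), subset_union_left⟩
    · intro T hT
      rw [mem_filter, mem_powerset] at hT
      rw [mem_powerset]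
      exact sdiff_subset_sdiff hT.1 (le_refl _)
    · intro T hT
      rw [mem_powerset] at hT
      ext p
      simp only [mem_sdiff, mem_union]
      constructor
      · rintro ⟨h | h, h'⟩
        · exact absurd h h'
        · exact h
      · intro h
        have := mem_sdiff.1 (hT h)
        exact ⟨Or.inr h, this.2⟩
    · intro T hT
      rw [mem_filter] at hT
      exact union_sdiff_of_subset hT.2
    · intro T hT
      rw [mem_powerset] at hT
      have hdisj : Disjoint D T := by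
        rw [Finset.disjoint_left]
        intro p hp hp'
        exact (mem_sdiff.1 (hT hp')).2 hp
      have e5 : P \ (D ∪ T) = (P \ D) \ T := by
        ext p
        simp only [mem_sdiff, mem_union]
        tauto
      rw [prod_union hdisj, mul_assoc, e5]
  rw [e3, ← mul_sum, ← prod_add]
  have e4 : ∏ p ∈ P \ D, (1 - g p (k % p) + g p (k % p)) = 1 := by
    apply prod_eq_one
    intro p _
    ring
  rw [e4, mul_one]

include hg in
theorem siftedSum_eq :
    (sv P g M N hP h0 h1).siftedSum = ∑ k ∈ Ioc M (M + N), ∏ p ∈ P, g p (k % p) := by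
  unfold siftedSum sv
  simp only
  rw [sum_image (prod_inj P hP)]
  have e1 : ∀ T ∈ P.powerset, (if Coprime (∏ p ∈ P, p) (∏ p ∈ T, p) then
      wf P g M N (∏ p ∈ T, p) else 0) =
      if T = ∅ then wf P g M N (∏ p ∈ T, p) else 0 := by
    intro T hT
    rw [mem_powerset] at hT
    congr 1
    rw [eq_iff_iff]
    constructor
    · intro h
      by_contra hne
      obtain ⟨p, hp⟩ := Finset.nonempty_iff_ne_empty.2 hne
      have h2 : p ∣ 1 := by
        rw [← h]
        exact Nat.dvd_gcd (dvd_prod_of_mem _ (hT hp)) (dvd_prod_of_mem _ hp)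
      exact (hP p (hT hp)).one_lt.ne' (Nat.dvd_one.1 h2)
    · rintro rfl
      simp
  rw [sum_congr rfl e1, sum_ite_eq' P.powerset ∅, if_pos (empty_mem_powerset _),
    wf_prod hP hg (empty_subset P)]
  simp

include hg in
theorem rem_le {D : Finset ℕ} (hD : D ⊆ P) {K : ℝ} (hK : ∀ p ∈ P, ∑ c ∈ range p, (1 - g p c) ≤ K) :
    |(sv P g M N hP h0 h1).rem (∏ p ∈ D, p)| ≤ K ^ D.card := by
  unfold rem
  rw [multSum_prod hP h0 h1 hg hD]
  have hd0 : 0 < ∏ p ∈ D, p := Finset.prod_pos fun p hp => (hP p (hD hp)).pos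
  have e1 : (sv P g M N hP h0 h1).nu (∏ p ∈ D, p) * (sv P g M N hP h0 h1).totalMass =
      (N : ℝ) / (∏ p ∈ D, p : ℕ) * ∑ c ∈ range (∏ p ∈ D, p), ∏ p ∈ D, (1 - g p (c % p)) := by
    change ArithmeticFunction.prodPrimeFactors (nuf g) (∏ p ∈ D, p) * (N : ℝ) = _
    rw [ArithmeticFunction.prodPrimeFactors_apply hd0.ne',
      Nat.primeFactors_prod fun p hp => hP p (hD hp),
      sum_range_prod D (fun p hp => hP p (hD hp)) (fun p c => 1 - g p c)]
    unfold nuf
    rw [prod_div_distrib, Nat.cast_prod]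
    ring
  rw [e1]
  have e2 : ∑ k ∈ Ioc M (M + N), ∏ p ∈ D, (1 - g p (k % p)) =
      ∑ k ∈ Ioc M (M + N), (fun c => ∏ p ∈ D, (1 - g p (c % p))) (k % ∏ p ∈ D, p) := by
    apply sum_congr rfl
    intro k _
    simp only
    apply prod_congr rfl
    intro p hp
    rw [Nat.mod_mod_of_dvd _ (dvd_prod_of_mem _ hp)]
  rw [e2]
  have hnn : ∀ c : ℕ, 0 ≤ ∏ p ∈ D, (1 - g p (c % p)) := by
    intro c
    apply prod_nonneg
    intro p hp
    have := (hg p (hD hp) (c % p) (Nat.mod_lt _ (hP p (hD hp)).pos)).2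
    linarith
  refine (sum_periodic M N _ hd0 (fun c => ∏ p ∈ D, (1 - g p (c % p))) fun c _ => hnn c).trans ?_
  rw [sum_range_prod D (fun p hp => hP p (hD hp)) (fun p c => 1 - g p c)]
  calc ∏ p ∈ D, ∑ c ∈ range p, (1 - g p c) ≤ ∏ _p ∈ D, K := by
        apply prod_le_prod
        · intro p hp
          apply sum_nonneg
          intro c hc
          have := (hg p (hD hp) c (mem_range.1 hc)).2
          linarith
        · intro p hp
          exact hK p (hD hp)
    _ = K ^ D.card := by rw [prod_const]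

end

end Pool.Agent.Work.MP_b0c12c_nt_shift.WS
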